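import Pool.Agent.Work.MP_43ce8a_nt.D.Defs

set_option autoImplicit false

/-!
Module ApC (size M). Counting and summing over residue classes.

count_ap: integers w with α < w ≤ β in a class mod t: floor((β - c)/t) - floor((α - c)/t).
mono_ap: for a monotone (or antitone) f with 0 ≤ f ≤ F on (a, a + h]: every block of t consecutive
integers contains exactly one element v of the class; for monotone f the value f v is between the
averages of f over (v - t, v] and over [v, v + t). Summing over the elements of the class in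
(a, a + h] the two sums differ from (1/t) ∑ f by at most F on each side. (Any proof is fine; the
constant 2 leaves room.)
-/

namespace Pool.Agent.Work.MP_43ce8a_nt.D

open Finset

private theorem apc_floor (t c : ℕ) (ht : 0 < t) (β : ℝ) (hβ : 0 ≤ β) :
    ⌊(((⌊β⌋₊ : ℕ) : ℚ) - (c : ℚ)) / (t : ℚ)⌋ = ⌊(β - c) / t⌋ := by
  have htq : (0 : ℚ) < t := by exact_mod_cast ht
  have htr : (0 : ℝ) < t := by exact_mod_cast ht
  have key : ∀ k : ℤ, k ≤ ⌊(((⌊β⌋₊ : ℕ) : ℚ) - (c : ℚ)) / (t : ℚ)⌋ ↔ k ≤ ⌊(β - c) / t⌋ := by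
    intro k
    rw [Int.le_floor, Int.le_floor, le_div_iff₀ htq, le_div_iff₀ htr, le_sub_iff_add_le,
      le_sub_iff_add_le]
    have h1 : ((k : ℚ) * t + c ≤ ((⌊β⌋₊ : ℕ) : ℚ)) ↔ k * (t : ℤ) + c ≤ ((⌊β⌋₊ : ℕ) : ℤ) := by
      rw [← Int.cast_natCast (R := ℚ) ⌊β⌋₊, ← Int.cast_natCast (R := ℚ) t,
        ← Int.cast_natCast (R := ℚ) c, ← Int.cast_mul, ← Int.cast_add, Int.cast_le]
    rw [h1, Int.natCast_floor_eq_floor hβ, Int.le_floor]
    push_cast
    rfl
  exact le_antisymm ((key _).1 le_rfl) ((key _).2 le_rfl)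

theorem count_ap (t c : ℕ) (ht : 0 < t) (α β : ℝ) (hα : 0 ≤ α) (hαβ : α ≤ β) :
    |(((Ioc ⌊α⌋₊ ⌊β⌋₊).filter fun w => w % t = c % t).card : ℝ) - (β - α) / t| ≤ 1 := by
  have htr : (0 : ℝ) < t := by exact_mod_cast ht
  have h1 := Nat.Ioc_filter_modEq_card ⌊α⌋₊ ⌊β⌋₊ ht c
  rw [apc_floor t c ht α hα, apc_floor t c ht β (hα.trans hαβ)] at h1
  have hAB : (α - c) / t ≤ (β - c) / t := by gcongr
  rw [max_eq_left (by have := Int.floor_mono hAB; omega)] at h1
  have h2 : (((Ioc ⌊α⌋₊ ⌊β⌋₊).filter fun w => w % t = c % t).card : ℤ) =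
      ⌊(β - c) / t⌋ - ⌊(α - c) / t⌋ := h1
  have h3 : (((Ioc ⌊α⌋₊ ⌊β⌋₊).filter fun w => w % t = c % t).card : ℝ) =
      (⌊(β - c) / t⌋ : ℝ) - ⌊(α - c) / t⌋ := by
    have := congrArg (fun z : ℤ => (z : ℝ)) h2
    push_cast at this
    exact this
  rw [h3]
  have e1 : (β - α) / t = (β - c) / t - (α - c) / t := by ring
  have f1 := Int.floor_le ((β - c) / t)
  have f2 := Int.lt_floor_add_one ((β - c) / t)
  have f3 := Int.floor_le ((α - c) / t)
  have f4 := Int.lt_floor_add_one ((α - c) / t)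
  rw [e1, abs_le]
  constructor <;> linarith

private theorem apc_parts (f g : ℕ → ℝ) (a h : ℕ) :
    ∑ v ∈ Ioc a (a + h), f v * g v = f (a + h) * ∑ v ∈ Ioc a (a + h), g v -
      ∑ i ∈ range h, (f (a + i + 1) - f (a + i)) * ∑ v ∈ Ioc a (a + i), g v := by
  induction h with
  | zero => simp
  | succ h ih =>
    rw [← add_assoc, ← Finset.insert_Ioc_right_eq_Ioc_add_one (by omega),
      Finset.sum_insert (by simp), Finset.sum_insert (by simp), ih, Finset.sum_range_succ]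
    ring

private theorem apc_abel (f g : ℕ → ℝ) (a h : ℕ) (F : ℝ)
    (hf : (∀ v ∈ Ioc a (a + h), ∀ v' ∈ Ioc a (a + h), v ≤ v' → f v ≤ f v') ∨
      (∀ v ∈ Ioc a (a + h), ∀ v' ∈ Ioc a (a + h), v ≤ v' → f v' ≤ f v))
    (h0 : ∀ v ∈ Ioc a (a + h), 0 ≤ f v ∧ f v ≤ F)
    (hg : ∀ i ≤ h, |∑ v ∈ Ioc a (a + i), g v| ≤ 1) (hh : 0 < h) :
    |∑ v ∈ Ioc a (a + h), f v * g v| ≤ 2 * F := by
  obtain ⟨k, rfl⟩ : ∃ k, h = k + 1 := ⟨h - 1, by omega⟩
  rw [apc_parts, Finset.sum_range_succ']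
  have hl := h0 (a + (k + 1)) (by rw [mem_Ioc]; omega)
  have hs := h0 (a + 1) (by rw [mem_Ioc]; omega)
  have h1 : |f (a + (k + 1)) * ∑ v ∈ Ioc a (a + (k + 1)), g v| ≤ F := by
    rw [abs_mul, abs_of_nonneg hl.1]
    calc f (a + (k + 1)) * |∑ v ∈ Ioc a (a + (k + 1)), g v| ≤ F * 1 := by
          have := hg (k + 1) le_rfl
          have hF : 0 ≤ F := hl.1.trans hl.2
          exact mul_le_mul hl.2 this (abs_nonneg _) hF
      _ = F := mul_one F
  have h2 : |∑ i ∈ range k, (f (a + (i + 1) + 1) - f (a + (i + 1))) *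
      ∑ v ∈ Ioc a (a + (i + 1)), g v| ≤ F := by
    have h3 : |∑ i ∈ range k, (f (a + (i + 1) + 1) - f (a + (i + 1))) *
        ∑ v ∈ Ioc a (a + (i + 1)), g v| ≤
        ∑ i ∈ range k, |f (a + (i + 1) + 1) - f (a + (i + 1))| := by
      refine (abs_sum_le_sum_abs _ _).trans (sum_le_sum fun i hi => ?_)
      rw [mem_range] at hi
      rw [abs_mul]
      calc |f (a + (i + 1) + 1) - f (a + (i + 1))| * |∑ v ∈ Ioc a (a + (i + 1)), g v|
          ≤ |f (a + (i + 1) + 1) - f (a + (i + 1))| * 1 :=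
            mul_le_mul_of_nonneg_left (hg (i + 1) (by omega)) (abs_nonneg _)
        _ = _ := mul_one _
    have tele : ∑ i ∈ range k, (f (a + (i + 1) + 1) - f (a + (i + 1))) =
        f (a + (k + 1)) - f (a + 1) := by
      have := Finset.sum_range_sub (fun i => f (a + (i + 1))) k
      simp only [zero_add] at this
      rw [← this]
      exact Finset.sum_congr rfl fun i _ => rfl
    refine h3.trans ?_
    rcases hf with hf | hf
    · have h4 : ∑ i ∈ range k, |f (a + (i + 1) + 1) - f (a + (i + 1))| =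
          ∑ i ∈ range k, (f (a + (i + 1) + 1) - f (a + (i + 1))) := by
        refine sum_congr rfl fun i hi => abs_of_nonneg ?_
        rw [mem_range] at hi
        exact sub_nonneg.2 (hf _ (by rw [mem_Ioc]; omega) _ (by rw [mem_Ioc]; omega) (by omega))
      rw [h4, tele]
      linarith [hl.2, hs.1]
    · have h4 : ∑ i ∈ range k, |f (a + (i + 1) + 1) - f (a + (i + 1))| =
          -∑ i ∈ range k, (f (a + (i + 1) + 1) - f (a + (i + 1))) := by
        rw [← sum_neg_distrib]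
        refine sum_congr rfl fun i hi => abs_of_nonpos ?_
        rw [mem_range] at hi
        exact sub_nonpos.2 (hf _ (by rw [mem_Ioc]; omega) _ (by rw [mem_Ioc]; omega) (by omega))
      rw [h4, tele]
      linarith [hl.1, hs.2]
  have h3 : (f (a + 0 + 1) - f (a + 0)) * ∑ v ∈ Ioc a (a + 0), g v = 0 := by simp
  rw [h3, add_zero]
  rw [abs_le] at h1 h2 ⊢
  constructor <;> linarith [h1.1, h1.2, h2.1, h2.2]

theorem mono_ap (f : ℕ → ℝ) (a h t c : ℕ) (ht : 0 < t) (F : ℝ) (hF : 0 ≤ F)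
    (hf : (∀ v ∈ Ioc a (a + h), ∀ v' ∈ Ioc a (a + h), v ≤ v' → f v ≤ f v') ∨
      (∀ v ∈ Ioc a (a + h), ∀ v' ∈ Ioc a (a + h), v ≤ v' → f v' ≤ f v))
    (h0 : ∀ v ∈ Ioc a (a + h), 0 ≤ f v ∧ f v ≤ F) :
    |∑ v ∈ (Ioc a (a + h)).filter (fun v => v % t = c % t), f v -
      1 / (t : ℝ) * ∑ v ∈ Ioc a (a + h), f v| ≤ 2 * F := by
  rcases Nat.eq_zero_or_pos h with rfl | hh
  · simpa using hF
  have e1 : ∑ v ∈ (Ioc a (a + h)).filter (fun v => v % t = c % t), f v -
      1 / (t : ℝ) * ∑ v ∈ Ioc a (a + h), f v =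
      ∑ v ∈ Ioc a (a + h), f v * ((if v % t = c % t then 1 else 0) - 1 / (t : ℝ)) := by
    rw [sum_filter, mul_sum, ← sum_sub_distrib]
    refine sum_congr rfl fun v _ => ?_
    split_ifs <;> ring
  rw [e1]
  refine apc_abel f _ a h F hf h0 (fun i hi => ?_) hh
  rw [sum_sub_distrib, ← sum_filter, sum_const, sum_const, Nat.card_Ioc, nsmul_eq_mul,
    nsmul_eq_mul, mul_one]
  have h1 := count_ap t c ht (a : ℝ) ((a + i : ℕ) : ℝ) (Nat.cast_nonneg _)
    (by exact_mod_cast Nat.le_add_right a i)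
  rw [Nat.floor_natCast, Nat.floor_natCast] at h1
  have e2 : ((a + i - a : ℕ) : ℝ) * (1 / (t : ℝ)) = (((a + i : ℕ) : ℝ) - (a : ℝ)) / t := by
    rw [Nat.add_sub_cancel_left]
    push_cast
    ring
  rw [e2]
  exact h1

end Pool.Agent.Work.MP_43ce8a_nt.D
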