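import Pool.Agent.Work.MP_43ce8a_nt.D.PmDefs

set_option autoImplicit false

/-!
Definitions: blocks of pairs (B, r), the geometry attached to the block k, weights.
-/

namespace Pool.Agent.Work.MP_43ce8a_nt.D

open Finset

/-- pairs `(B, r)` of the block `k` -/
def Blk (q r0 k : ℕ) : Finset (ℕ × ℕ) :=
  (Ioc (2 ^ k) (2 ^ (k + 1)) ×ˢ Ioc (4 ^ k) (2 * 4 ^ k)).filter fun x =>
    x.1 % (4 * q) = 1 ∧ x.2 % (4 * q) = r0 % (4 * q)

/-- start of the range of `v` -/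
def aX (X k : ℕ) : ℕ := X / (4 * 8 ^ k)

/-- length of the range of `v` -/
def hX (X k e : ℕ) : ℕ := X / (4 * 8 ^ k * e ^ 2)

/-- the residue `r0` is admissible -/
structure GoodR (q r0 : ℕ) : Prop where
  cop : IsCoprime (1 - 4 * (r0 : ℤ) ^ 3) (q : ℤ)
  ndvd : ¬ ((4 * q : ℕ) : ℤ) ∣ 4 * (r0 : ℤ) ^ 3

/-- weight of a member `(k, B, r)` of a family -/
noncomputable def al (x : ℕ × ℕ × ℕ) : ℝ := 1 / ((x.1 : ℝ) * 8 ^ x.1)

/-- correlation factor -/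
noncomputable def kap (D D' : ℤ) : ℝ :=
  2 ^ (Int.gcd D D').primeFactors.card * ∏ p ∈ (D * D').natAbs.primeFactors, (1 + 5 / (p : ℝ))

theorem one_le_kap (D D' : ℤ) : 1 ≤ kap D D' := by
  unfold kap
  have h1 : (1 : ℝ) ≤ 2 ^ (Int.gcd D D').primeFactors.card := one_le_pow₀ (by norm_num)
  have h2 : (1 : ℝ) ≤ ∏ p ∈ (D * D').natAbs.primeFactors, (1 + 5 / (p : ℝ)) := by
    refine Finset.prod_induction _ (fun x : ℝ => 1 ≤ x) (fun a b ha hb => by nlinarith) le_rfl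
      fun p _ => ?_
    have : (0 : ℝ) ≤ 5 / (p : ℝ) := by positivity
    linarith
  nlinarith

theorem disc_mod {q r0 k : ℕ} {x : ℕ × ℕ} (hx : x ∈ Blk q r0 k) :
    ((4 * q : ℕ) : ℤ) ∣ disc x.1 x.2 - (1 - 4 * (r0 : ℤ) ^ 3) := by
  rw [Blk, mem_filter] at hx
  obtain ⟨-, h1, h2⟩ := hx
  have e1 : (x.1 : ℤ) ≡ 1 [ZMOD ((4 * q : ℕ) : ℤ)] := by
    have : x.1 ≡ 1 [MOD 4 * q] := by
      unfold Nat.ModEq
      rcases Nat.eq_or_lt_of_le (Nat.zero_le (4 * q)) with h | h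
      · rw [← h] at h1 ⊢
        simpa using h1
      · rw [h1, Nat.mod_eq_of_lt]
        omega
    exact_mod_cast (Int.natCast_modEq_iff.2 this)
  have e2 : (x.2 : ℤ) ≡ (r0 : ℤ) [ZMOD ((4 * q : ℕ) : ℤ)] := by
    exact_mod_cast (Int.natCast_modEq_iff.2 (show x.2 ≡ r0 [MOD 4 * q] from h2))
  have e3 : disc x.1 x.2 ≡ 1 - 4 * (r0 : ℤ) ^ 3 [ZMOD ((4 * q : ℕ) : ℤ)] := by
    unfold disc
    have := ((e1.pow 6).sub ((e2.pow 3).mul_left 4))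
    simpa using this
  exact (Int.modEq_iff_dvd.1 e3.symm)

end Pool.Agent.Work.MP_43ce8a_nt.D
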