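import Pool.Agent.Work.MP_43ce8a_nt.D.Defs

set_option autoImplicit false

/-!
Module QB (size S). Elementary facts on the modulus qq y = 16 * Mo y and the sets pr y z, Nset.
Nset_eq: if n ≡ b mod q / 2 and b is prime to q then no prime p ≤ y divides n, because such a p
divides q / 2 (p = 2 or p odd ≤ y).
-/

namespace Pool.Agent.Work.MP_43ce8a_nt.D

open Finset

theorem Mo_pos (y : ℕ) : 0 < Mo y :=
  Finset.prod_pos fun p hp => ((mem_filter.1 hp).2).pos

theorem qq_pos (y : ℕ) : 0 < qq y := by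
  have := Mo_pos y
  unfold qq
  omega

theorem qq_half (y : ℕ) : qq y / 2 = 8 * Mo y ∧ 2 * (qq y / 2) = qq y := by
  unfold qq
  omega

theorem Mo_odd (y : ℕ) : Mo y % 2 = 1 := by
  rw [← Nat.odd_iff]
  unfold Mo
  refine Finset.prod_induction _ (fun n : ℕ => Odd n) (fun a b ha hb => ha.mul hb) odd_one ?_
  intro p hp
  rw [mem_filter, mem_Icc] at hp
  exact hp.2.odd_of_ne_two (by omega)

private theorem qB_dvd_Mo {y p : ℕ} (hp : p.Prime) (h2 : p ≠ 2) (h : p ≤ y) : p ∣ Mo y := by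
  apply Finset.dvd_prod_of_mem (fun p : ℕ => p)
  rw [mem_filter, mem_Icc]
  have := hp.two_le
  exact ⟨⟨by omega, h⟩, hp⟩

theorem prime_dvd_qq {y p : ℕ} (hy : 2 ≤ y) (hp : p.Prime) : p ∣ qq y ↔ p ≤ y := by
  unfold qq
  constructor
  · intro h
    rcases (Nat.Prime.dvd_mul hp).1 h with h | h
    · have h1 : p ∣ 2 := by
        have : (16 : ℕ) = 2 ^ 4 := by norm_num
        rw [this] at h
        exact hp.dvd_of_dvd_pow h
      have h3 := Nat.le_of_dvd (by norm_num) h1
      omega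
    · unfold Mo at h
      obtain ⟨r, hr, hpr⟩ := (Prime.dvd_finset_prod_iff hp.prime _).1 h
      rw [mem_filter, mem_Icc] at hr
      have := Nat.le_of_dvd (by omega) hpr
      omega
  · intro h
    by_cases h2 : p = 2
    · subst h2
      exact Dvd.dvd.mul_right (by norm_num) _
    · exact Dvd.dvd.mul_left (qB_dvd_Mo hp h2 h) _

theorem mem_pr {y z p : ℕ} : p ∈ pr y z ↔ y < p ∧ p < z ∧ p.Prime := by
  unfold pr
  rw [mem_filter, mem_Ioo]
  tauto

theorem pr_coprime {y z p : ℕ} (hy : 2 ≤ y) (hp : p ∈ pr y z) : p.Coprime (qq y) := by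
  rw [mem_pr] at hp
  rw [Nat.Prime.coprime_iff_not_dvd hp.2.2, prime_dvd_qq hy hp.2.2]
  omega

theorem prod_coprime {y z : ℕ} (hy : 2 ≤ y) {d : Finset ℕ} (hd : d ⊆ pr y z) :
    (∏ p ∈ d, p).Coprime (qq y) :=
  Nat.Coprime.prod_left fun p hp => pr_coprime hy (hd hp)

theorem prod_squarefree {d : Finset ℕ} (hd : ∀ p ∈ d, p.Prime) : Squarefree (∏ p ∈ d, p) ∧
    (∏ p ∈ d, p).primeFactors = d := by
  refine ⟨?_, Nat.primeFactors_prod hd⟩
  induction d using Finset.induction_on with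
  | empty => rw [Finset.prod_empty]; exact squarefree_one
  | insert a s ha ih =>
    rw [Finset.prod_insert ha]
    have hp := hd a (mem_insert_self _ _)
    have hs : ∀ p ∈ s, p.Prime := fun p hps => hd p (mem_insert_of_mem hps)
    have hc : a.Coprime (∏ p ∈ s, p) := by
      refine Nat.Coprime.prod_right fun p hps => ?_
      rw [Nat.coprime_primes hp (hs p hps)]
      rintro rfl
      exact ha hps
    rw [Nat.squarefree_mul hc]
    exact ⟨hp.squarefree, ih hs⟩

open Classical in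
theorem Nset_eq {y b z : ℕ} (hy : 2 ≤ y) (hb : b.Coprime (qq y)) (N H : ℕ) :
    Nset (qq y) b z N H = ((Ioc N (N + H)).filter fun n => n % (qq y / 2) = b % (qq y / 2)).filter
      fun n => ∀ p ∈ pr y z, ¬ p ∣ n := by
  ext n
  unfold Nset
  simp only [mem_filter, and_assoc, and_congr_right_iff]
  intro _ hnb
  constructor
  · intro h p hp
    rw [mem_pr] at hp
    exact h p hp.2.2 hp.2.1
  · intro h p hp hpz hpn
    by_cases hpy : y < p
    · exact h p (mem_pr.2 ⟨hpy, hpz, hp⟩) hpn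
    · have h1 : p ∣ qq y / 2 := by
        rw [(qq_half y).1]
        by_cases h2 : p = 2
        · subst h2
          exact Dvd.dvd.mul_right (by norm_num) _
        · exact Dvd.dvd.mul_left (qB_dvd_Mo hp h2 (by omega)) _
      have h2 : p ∣ b := by
        have h3 : n ≡ b [MOD p] := Nat.ModEq.of_dvd h1 hnb
        exact (h3.dvd_iff dvd_rfl).1 hpn
      have h3 : p ∣ qq y := (prime_dvd_qq hy hp).2 (by omega)
      have h4 := Nat.dvd_gcd h2 h3
      rw [hb] at h4
      exact hp.one_lt.ne' (Nat.dvd_one.1 h4)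

end Pool.Agent.Work.MP_43ce8a_nt.D
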