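import Pool.Agent.Work.MP_43ce8a_nt.D.BlkDefs
import Pool.Agent.Work.MP_43ce8a_nt.D.QB

set_option autoImplicit false

/-!
Module BlkG (size M). Elementary facts on the members of a block; D = disc B r = B⁶ - 4 r³,
2^k < B ≤ 2^(k+1), 4^k < r ≤ 2 * 4^k, N = X², H = X²/e, a = X/(4 * 8^k), h = a/e² (all divisions exact
because 4 * 8^k * e² ∣ X), e ≥ 10.

geo_block: v ≤ a + h = a (1 + 1/e²) ≤ 1.01 a and 16 * 64^k a² = X². If D < 0: |D| v² ≤ 4 r³ v² ≤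
32 * 64^k * (1.01)² a² ≤ 2.05 X². If D > 0: D v² ≤ B⁶ v² ≤ 64 * 64^k (1.01)² a² ≤ 4.1 X². So
4 N + D v² ≥ N/2 and 4 (N + H) + D v² ≤ 16 N.
block_r: r³ v² ≤ 8 * 64^k (1.01)² a² = 0.52 X² < X².
block_h: h ≤ X / 400.
goodD_of: disc ≡ 1 - 4 r0³ mod 4 q is prime to q, and it is not 1 (GoodR.ndvd).
disc_abs: |disc| ≤ 64^(k+1).
-/

namespace Pool.Agent.Work.MP_43ce8a_nt.D

open Finset

/-- the basic data of a member of a block -/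
private theorem blkg_mem {q r0 k : ℕ} {x : ℕ × ℕ} (hx : x ∈ Blk q r0 k) :
    x.1 ^ 6 ≤ 64 * (8 ^ k) ^ 2 ∧ x.2 ^ 3 ≤ 8 * (8 ^ k) ^ 2 ∧ 0 < x.1 ∧ 0 < x.2 := by
  rw [Blk, mem_filter, mem_product, mem_Ioc, mem_Ioc] at hx
  obtain ⟨⟨⟨hB1, hB2⟩, hr1, hr2⟩, -⟩ := hx
  refine ⟨?_, ?_, by omega, by omega⟩
  · calc x.1 ^ 6 ≤ (2 ^ (k + 1)) ^ 6 := Nat.pow_le_pow_left hB2 6
      _ = 64 * (8 ^ k) ^ 2 := by
        have : (8 : ℕ) = 2 ^ 3 := by norm_num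
        rw [this, ← pow_mul, ← pow_mul, ← pow_mul]
        have : (64 : ℕ) = 2 ^ 6 := by norm_num
        rw [this, ← pow_add]
        congr 1
        ring
  · calc x.2 ^ 3 ≤ (2 * 4 ^ k) ^ 3 := Nat.pow_le_pow_left hr2 3
      _ = 8 * (8 ^ k) ^ 2 := by
        have h8 : (8 : ℕ) ^ k = 2 ^ (3 * k) := by rw [pow_mul]; norm_num
        have h4 : (4 : ℕ) ^ k = 2 ^ (2 * k) := by rw [pow_mul]; norm_num
        rw [h8, h4, mul_pow, ← pow_mul, ← pow_mul]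
        have : 2 * k * 3 = 3 * k * 2 := by ring
        rw [this]
        norm_num

/-- the exact values in terms of `t = h` -/
private theorem blkg_t {k e X : ℕ} (he : 10 ≤ e) (hX0 : 0 < X)
    (hK : 4 * 8 ^ k * e ^ 2 ∣ X) : ∃ t : ℕ, 0 < t ∧ X = 4 * 8 ^ k * e ^ 2 * t ∧
      aX X k = e ^ 2 * t ∧ hX X k e = t ∧ X ^ 2 / e = 16 * (8 ^ k) ^ 2 * e ^ 3 * t ^ 2 := by
  obtain ⟨t, ht⟩ := hK
  have h8 : 0 < 8 ^ k := by positivity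
  have ht0 : 0 < t := by
    rcases Nat.eq_zero_or_pos t with h | h
    · rw [h, mul_zero] at ht; omega
    · exact h
  have he0 : 0 < e := by omega
  refine ⟨t, ht0, ht, ?_, ?_, ?_⟩
  · unfold aX
    apply Nat.div_eq_of_eq_mul_right (by positivity)
    rw [ht]; ring
  · unfold hX
    apply Nat.div_eq_of_eq_mul_right (by positivity)
    rw [ht]
  · apply Nat.div_eq_of_eq_mul_right he0
    rw [ht]; ring

private theorem blkg_v {e t v : ℕ} (hv : v ≤ e ^ 2 * t + t) (he : 10 ≤ e) :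
    100 ^ 2 * (v : ℤ) ^ 2 ≤ 101 ^ 2 * ((e : ℤ) ^ 4 * (t : ℤ) ^ 2) := by
  have h1 : (v : ℤ) ≤ (e : ℤ) ^ 2 * t + t := by exact_mod_cast hv
  have he' : (10 : ℤ) ≤ e := by exact_mod_cast he
  have ht : (0 : ℤ) ≤ t := by positivity
  have h2 : 100 * (t : ℤ) ≤ (e : ℤ) ^ 2 * t := by
    apply mul_le_mul_of_nonneg_right _ ht
    nlinarith
  have h3 : 100 * (v : ℤ) ≤ 101 * ((e : ℤ) ^ 2 * t) := by linarith
  have h4 : (0 : ℤ) ≤ 100 * (v : ℤ) := by positivity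
  have h5 := pow_le_pow_left₀ h4 h3 2
  nlinarith

theorem geo_block {q r0 k e X : ℕ} {x : ℕ × ℕ} (hx : x ∈ Blk q r0 k) (he : 10 ≤ e) (hX0 : 0 < X)
    (hK : 4 * 8 ^ k * e ^ 2 ∣ X) :
    Geo (disc x.1 x.2) (X ^ 2) (X ^ 2 / e) (aX X k) (hX X k e) := by
  obtain ⟨t, ht0, hX, ha, hh, hH⟩ := blkg_t he hX0 hK
  obtain ⟨hB, hr, _, _⟩ := blkg_mem hx
  have h8 : 0 < 8 ^ k := by positivity
  have he' : (10 : ℤ) ≤ e := by exact_mod_cast he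
  have hB' : (x.1 : ℤ) ^ 6 ≤ 64 * ((8 : ℤ) ^ k) ^ 2 := by exact_mod_cast hB
  have hr' : (x.2 : ℤ) ^ 3 ≤ 8 * ((8 : ℤ) ^ k) ^ 2 := by exact_mod_cast hr
  have hB0 : (0 : ℤ) ≤ (x.1 : ℤ) ^ 6 := by positivity
  have hr0 : (0 : ℤ) ≤ (x.2 : ℤ) ^ 3 := by positivity
  have hXz : (X : ℤ) = 4 * (8 : ℤ) ^ k * (e : ℤ) ^ 2 * t := by exact_mod_cast hX
  have hHz : ((X ^ 2 / e : ℕ) : ℤ) = 16 * ((8 : ℤ) ^ k) ^ 2 * (e : ℤ) ^ 3 * (t : ℤ) ^ 2 := by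
    exact_mod_cast hH
  set K : ℤ := (8 : ℤ) ^ k with hKdef
  have hKpos : 0 < K := by positivity
  rw [ha, hh]
  refine ⟨?_, ?_, ?_, ?_, ?_, ?_, ?_⟩
  · exact Nat.one_le_iff_ne_zero.2 (by positivity)
  · rw [hH]
    exact Nat.one_le_iff_ne_zero.2 (by positivity)
  · exact Nat.div_le_self _ _
  · exact ht0
  · apply Nat.pow_le_pow_left
    rw [hX]
    have h1 : t ≤ e ^ 2 * t := Nat.le_mul_of_pos_left _ (by positivity)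
    have h2 : e ^ 2 * t ≤ 8 ^ k * (e ^ 2 * t) := Nat.le_mul_of_pos_left _ h8
    calc e ^ 2 * t + t ≤ 4 * (8 ^ k * (e ^ 2 * t)) := by omega
      _ = 4 * 8 ^ k * e ^ 2 * t := by ring
  · intro v hv
    rw [mem_Ioc] at hv
    have h1 := blkg_v hv.2 he
    have hv0 : (0 : ℤ) ≤ (v : ℤ) ^ 2 := by positivity
    push_cast
    rw [hXz]
    unfold disc
    -- D v^2 >= - 4 r^3 v^2 >= -32 K^2 v^2
    have h2 : -(32 * K ^ 2) * (v : ℤ) ^ 2 ≤ ((x.1 : ℤ) ^ 6 - 4 * (x.2 : ℤ) ^ 3) * (v : ℤ) ^ 2 := by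
      apply mul_le_mul_of_nonneg_right _ hv0
      linarith
    have h3 := mul_le_mul_of_nonneg_left h1 (by positivity : (0 : ℤ) ≤ K ^ 2)
    nlinarith [mul_nonneg (by positivity : (0 : ℤ) ≤ K ^ 2)
      (by positivity : (0 : ℤ) ≤ (e : ℤ) ^ 4 * (t : ℤ) ^ 2)]
  · intro v hv
    rw [mem_Ioc] at hv
    have h1 := blkg_v hv.2 he
    have hv0 : (0 : ℤ) ≤ (v : ℤ) ^ 2 := by positivity
    push_cast
    push_cast at hHz
    rw [hHz, hXz]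
    unfold disc
    have h2 : ((x.1 : ℤ) ^ 6 - 4 * (x.2 : ℤ) ^ 3) * (v : ℤ) ^ 2 ≤ (64 * K ^ 2) * (v : ℤ) ^ 2 := by
      apply mul_le_mul_of_nonneg_right _ hv0
      linarith
    have h3 := mul_le_mul_of_nonneg_left h1 (by positivity : (0 : ℤ) ≤ K ^ 2)
    have h4 : 10 * ((e : ℤ) ^ 3 * (t : ℤ) ^ 2) ≤ (e : ℤ) ^ 4 * (t : ℤ) ^ 2 := by
      have : 10 * ((e : ℤ) ^ 3 * (t : ℤ) ^ 2) ≤ (e : ℤ) * ((e : ℤ) ^ 3 * (t : ℤ) ^ 2) :=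
        mul_le_mul_of_nonneg_right he' (by positivity)
      calc _ ≤ _ := this
        _ = _ := by ring
    have h5 := mul_le_mul_of_nonneg_left h4 (by positivity : (0 : ℤ) ≤ K ^ 2)
    nlinarith [mul_nonneg (by positivity : (0 : ℤ) ≤ K ^ 2)
      (by positivity : (0 : ℤ) ≤ (e : ℤ) ^ 4 * (t : ℤ) ^ 2)]

theorem block_r {q r0 k e X : ℕ} {x : ℕ × ℕ} (hx : x ∈ Blk q r0 k) (he : 10 ≤ e) (hX0 : 0 < X)
    (hK : 4 * 8 ^ k * e ^ 2 ∣ X) : ∀ v ∈ Ioc (aX X k) (aX X k + hX X k e),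
      x.2 ^ 3 * v ^ 2 < X ^ 2 := by
  obtain ⟨t, ht0, hX, ha, hh, hH⟩ := blkg_t he hX0 hK
  obtain ⟨hB, hr, _, _⟩ := blkg_mem hx
  have hr' : (x.2 : ℤ) ^ 3 ≤ 8 * ((8 : ℤ) ^ k) ^ 2 := by exact_mod_cast hr
  have hXz : (X : ℤ) = 4 * (8 : ℤ) ^ k * (e : ℤ) ^ 2 * t := by exact_mod_cast hX
  set K : ℤ := (8 : ℤ) ^ k with hKdef
  have hKpos : 0 < K := by positivity
  intro v hv
  rw [ha, hh, mem_Ioc] at hv
  have h1 := blkg_v hv.2 he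
  have hv0 : (0 : ℤ) ≤ (v : ℤ) ^ 2 := by positivity
  have ht' : (0 : ℤ) < t := by exact_mod_cast ht0
  have he' : (10 : ℤ) ≤ e := by exact_mod_cast he
  have he0 : (0 : ℤ) < e := by linarith
  have h2 := mul_le_mul_of_nonneg_right hr' hv0
  have h3 := mul_le_mul_of_nonneg_left h1 (by positivity : (0 : ℤ) ≤ K ^ 2)
  have h4 : (0 : ℤ) < K ^ 2 * ((e : ℤ) ^ 4 * (t : ℤ) ^ 2) := by positivity
  have h5 : (x.2 : ℤ) ^ 3 * (v : ℤ) ^ 2 < (X : ℤ) ^ 2 := by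
    rw [hXz]
    nlinarith
  exact_mod_cast h5

theorem block_h {k e X : ℕ} (he : 10 ≤ e) (hX0 : 0 < X) : 8 * hX X k e ^ 2 < X ^ 2 ∧
    aX X k + hX X k e ≤ X := by
  have h8 : 0 < 8 ^ k := by positivity
  have h1 : 400 * hX X k e ≤ X := by
    unfold hX
    have h2 : X / (4 * 8 ^ k * e ^ 2) * (4 * 8 ^ k * e ^ 2) ≤ X := Nat.div_mul_le_self _ _
    have h3 : 400 ≤ 4 * 8 ^ k * e ^ 2 := by
      have : 100 ≤ e ^ 2 := by nlinarith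
      nlinarith
    calc 400 * (X / (4 * 8 ^ k * e ^ 2)) ≤ (4 * 8 ^ k * e ^ 2) * (X / (4 * 8 ^ k * e ^ 2)) :=
          Nat.mul_le_mul_right _ h3
      _ = X / (4 * 8 ^ k * e ^ 2) * (4 * 8 ^ k * e ^ 2) := by ring
      _ ≤ X := h2
  have h2 : 4 * aX X k ≤ X := by
    unfold aX
    have h2 : X / (4 * 8 ^ k) * (4 * 8 ^ k) ≤ X := Nat.div_mul_le_self _ _
    have h3 : 4 ≤ 4 * 8 ^ k := by omega
    calc 4 * (X / (4 * 8 ^ k)) ≤ (4 * 8 ^ k) * (X / (4 * 8 ^ k)) :=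
          Nat.mul_le_mul_right _ h3
      _ = X / (4 * 8 ^ k) * (4 * 8 ^ k) := by ring
      _ ≤ X := h2
  constructor
  · nlinarith
  · omega

theorem disc_abs {q r0 k : ℕ} {x : ℕ × ℕ} (hx : x ∈ Blk q r0 k) :
    (disc x.1 x.2).natAbs ≤ 64 ^ (k + 1) := by
  obtain ⟨hB, hr, _, _⟩ := blkg_mem hx
  have hB' : (x.1 : ℤ) ^ 6 ≤ 64 * ((8 : ℤ) ^ k) ^ 2 := by exact_mod_cast hB
  have hr' : (x.2 : ℤ) ^ 3 ≤ 8 * ((8 : ℤ) ^ k) ^ 2 := by exact_mod_cast hr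
  have hB0 : (0 : ℤ) ≤ (x.1 : ℤ) ^ 6 := by positivity
  have hr0 : (0 : ℤ) ≤ (x.2 : ℤ) ^ 3 := by positivity
  have h64 : ((64 ^ (k + 1) : ℕ) : ℤ) = 64 * ((8 : ℤ) ^ k) ^ 2 := by
    push_cast
    rw [pow_succ, ← pow_mul, mul_comm k 2, pow_mul]
    norm_num
    ring
  have h1 : |disc x.1 x.2| ≤ ((64 ^ (k + 1) : ℕ) : ℤ) := by
    rw [h64, abs_le]
    unfold disc
    constructor <;> nlinarith
  have h2 : ((disc x.1 x.2).natAbs : ℤ) ≤ ((64 ^ (k + 1) : ℕ) : ℤ) := by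
    rw [Int.natCast_natAbs]
    exact h1
  exact_mod_cast h2

theorem goodD_of {q r0 k : ℕ} {x : ℕ × ℕ} (hr : GoodR q r0) (hx : x ∈ Blk q r0 k)
    (hs : Squarefree (disc x.1 x.2)) : GoodD q (disc x.1 x.2) := by
  have h1 := disc_mod hx
  refine ⟨hs, ?_, ?_⟩
  · have hq : (q : ℤ) ∣ disc x.1 x.2 - (1 - 4 * (r0 : ℤ) ^ 3) := by
      refine dvd_trans ?_ h1
      push_cast
      exact dvd_mul_left _ _
    obtain ⟨t, ht⟩ := hq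
    have e : disc x.1 x.2 = (1 - 4 * (r0 : ℤ) ^ 3) + q * t := by linarith
    rw [e]
    exact hr.cop.add_mul_left_left t
  · intro h
    apply hr.ndvd
    rw [h] at h1
    have : (1 : ℤ) - (1 - 4 * (r0 : ℤ) ^ 3) = 4 * (r0 : ℤ) ^ 3 := by ring
    rwa [this] at h1

theorem disc_sub {q r0 k k' : ℕ} {x x' : ℕ × ℕ} (hx : x ∈ Blk q r0 k) (hx' : x' ∈ Blk q r0 k') :
    ((4 * q : ℕ) : ℤ) ∣ disc x.1 x.2 - disc x'.1 x'.2 := by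
  have h1 := disc_mod hx
  have h2 := disc_mod hx'
  have : disc x.1 x.2 - disc x'.1 x'.2 = (disc x.1 x.2 - (1 - 4 * (r0 : ℤ) ^ 3)) -
      (disc x'.1 x'.2 - (1 - 4 * (r0 : ℤ) ^ 3)) := by ring
  rw [this]
  exact dvd_sub h1 h2

end Pool.Agent.Work.MP_43ce8a_nt.D
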