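import Pool.Agent.Work.MP_43ce8a_nt.D.Defs

set_option autoImplicit false

/-!
Module ChA (size S-M). Elementary properties of chi D (jacobiSym.mul_right, jacobiSym.mod_right for
odd arguments: J(a | b) = J(a | b % (4 * a.natAbs)), jacobiSym.mul_left, jacobiSym.trichotomy).
-/

namespace Pool.Agent.Work.MP_43ce8a_nt.D

open Finset

private theorem chA_odd {D : ℤ} {n : ℕ} (hn : n % 2 = 1) : chi D n = ((jacobiSym D n : ℤ) : ℝ) := by
  unfold chi
  rw [if_pos hn]

theorem chi_even (D : ℤ) {n : ℕ} (hn : n % 2 = 0) : chi D n = 0 := by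
  unfold chi
  rw [if_neg (by omega)]

theorem chi_mul (D : ℤ) (m n : ℕ) : chi D (m * n) = chi D m * chi D n := by
  rcases Nat.mod_two_eq_zero_or_one m with hm | hm
  · rw [chi_even D hm, chi_even D (by rw [Nat.mul_mod, hm]; simp), zero_mul]
  rcases Nat.mod_two_eq_zero_or_one n with hn | hn
  · rw [chi_even D hn, chi_even D (by rw [Nat.mul_mod, hn]; simp), mul_zero]
  · have : NeZero m := ⟨by omega⟩
    have : NeZero n := ⟨by omega⟩
    rw [chA_odd hm, chA_odd hn, chA_odd (by rw [Nat.mul_mod, hm, hn]), jacobiSym.mul_right]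
    push_cast
    ring

theorem chi_one (D : ℤ) : chi D 1 = 1 := by
  rw [chA_odd (by norm_num), jacobiSym.one_right]
  norm_num

theorem chi_cases (D : ℤ) (n : ℕ) : chi D n = 0 ∨ chi D n = 1 ∨ chi D n = -1 := by
  rcases Nat.mod_two_eq_zero_or_one n with hn | hn
  · exact Or.inl (chi_even D hn)
  · rw [chA_odd hn]
    rcases jacobiSym.trichotomy D n with h | h | h <;> rw [h] <;> norm_num

theorem chi_abs_le (D : ℤ) (n : ℕ) : |chi D n| ≤ 1 := by
  rcases chi_cases D n with h | h | h <;> rw [h] <;> norm_num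

theorem chi_period (D : ℤ) (hD : D ≠ 0) (n : ℕ) : chi D (n + 4 * D.natAbs) = chi D n := by
  rcases Nat.mod_two_eq_zero_or_one n with hn | hn
  · rw [chi_even D hn, chi_even D (by omega)]
  · rw [chA_odd hn, chA_odd (by omega), jacobiSym.mod_right D (Nat.odd_iff.2 hn),
      jacobiSym.mod_right D (b := n + 4 * D.natAbs) (Nat.odd_iff.2 (by omega)), Nat.add_mod_right]

theorem chi_left (D D' : ℤ) (n : ℕ) : chi (D * D') n = chi D n * chi D' n := by
  rcases Nat.mod_two_eq_zero_or_one n with hn | hn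
  · rw [chi_even _ hn, chi_even D hn, zero_mul]
  · rw [chA_odd hn, chA_odd hn, chA_odd hn, jacobiSym.mul_left]
    push_cast
    ring

private theorem chA_prime (D : ℤ) {p : ℕ} [Fact p.Prime] (h2 : p ≠ 2) :
    chi D p = ((legendreSym p D : ℤ) : ℝ) := by
  have hp : p.Prime := Fact.out
  rw [chA_odd (Nat.odd_iff.1 (hp.odd_of_ne_two h2)), ← jacobiSym.legendreSym.to_jacobiSym]

theorem chi_eq_zero_iff (D : ℤ) {p : ℕ} (hp : p.Prime) (h2 : p ≠ 2) :
    chi D p = 0 ↔ (p : ℤ) ∣ D := by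
  have : Fact p.Prime := ⟨hp⟩
  rw [chA_prime D h2, Int.cast_eq_zero, legendreSym.eq_zero_iff, ZMod.intCast_zmod_eq_zero_iff_dvd]

theorem chi_eq_one_iff (D : ℤ) {p : ℕ} [Fact p.Prime] (h2 : p ≠ 2) :
    chi D p = 1 ↔ (D : ZMod p) ≠ 0 ∧ IsSquare (D : ZMod p) := by
  rw [chA_prime D h2]
  by_cases h0 : (D : ZMod p) = 0
  · rw [(legendreSym.eq_zero_iff p D).2 h0]
    simp [h0]
  · have h1 : ((legendreSym p D : ℤ) : ℝ) = 1 ↔ legendreSym p D = 1 := by exact_mod_cast Iff.rfl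
    rw [h1, legendreSym.eq_one_iff p h0]
    simp [h0]

theorem chi_eq_neg_one_iff (D : ℤ) {p : ℕ} [Fact p.Prime] (h2 : p ≠ 2) :
    chi D p = -1 ↔ ¬ IsSquare (D : ZMod p) := by
  rw [chA_prime D h2]
  have h1 : ((legendreSym p D : ℤ) : ℝ) = -1 ↔ legendreSym p D = -1 := by exact_mod_cast Iff.rfl
  rw [h1, legendreSym.eq_neg_one_iff]

end Pool.Agent.Work.MP_43ce8a_nt.D
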