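import Pool.Agent.Work.MP_43ce8a_nt.D.ChA

set_option autoImplicit false

/-!
Module ChB (size M). chi D is not principal; cancellation over a period, also inside a residue class.

exists_neg: D odd squarefree, D ≠ 1. If D = -1 take n = 3. Otherwise take a prime p ∣ D (odd) and n
with n ≡ 1 mod 4, n ≡ 1 mod |D|/p, n ≡ a quadratic nonresidue mod p (CRT). Since n ≡ 1 mod 4,
jacobiSym D n = jacobiSym n |D| (quadratic reciprocity; (-1 | n) = 1 for the sign), and
jacobiSym n |D| = jacobiSym n p * jacobiSym n (|D|/p) = -1.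
block: ∑ over a period of a completely multiplicative periodic function which takes a value
χ(n) = -1 at an n prime to the period is 0: multiply by χ(n) (permutation of the residue classes).
goodB: as in MertQ.sum_le.
class_block: for 4 ∣ q, q prime to D, |D| ≠ 1: on l ≡ c mod q (l odd, or everything is 0) reciprocity
gives jacobiSym D l = s * jacobiSym l |D| with a sign s depending only on l mod 4 and the sign of D, so
only on c; ∑ over l ≡ c mod q in an interval of length q |D| of jacobiSym l |D| runs over all classes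
mod |D| once, and vanishes because jacobiSym · |D| takes the value -1 (|D| > 1 squarefree).
class_sum: partial sums over such l are bounded by |D| (at most |D| terms remain).
-/

namespace Pool.Agent.Work.MP_43ce8a_nt.D

open Finset Pool.Agent.Work.MP_73869e_nt.AP.MertQ

/-- an element `n ≡ 1` modulo `q` with `chi D n = -1` -/
private theorem cb_exists (D : ℤ) (hD : Odd D) (hs : Squarefree D) (h1 : D.natAbs ≠ 1) (q : ℕ)
    (h4 : 4 ∣ q) (hq : D.natAbs.Coprime q) (_hq0 : 0 < q) :
    ∃ n : ℕ, n % q = 1 % q ∧ n.Coprime D.natAbs ∧ chi D n = -1 := by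
  set k := D.natAbs with hk
  have hkodd : Odd k := Int.natAbs_odd.mpr hD
  set p := k.minFac with hp
  have hpp : p.Prime := Nat.minFac_prime h1
  have : Fact p.Prime := ⟨hpp⟩
  obtain ⟨M, hM⟩ : p ∣ k := Nat.minFac_dvd k
  have hksq : Squarefree k := Int.squarefree_natAbs.mpr hs
  have hpM : p.Coprime M := by
    rw [hM] at hksq
    exact (Nat.squarefree_mul_iff.mp hksq).1
  have hpodd : Odd p := by
    rw [hM] at hkodd
    exact (Nat.odd_mul.mp hkodd).1
  have hp2 : p ≠ 2 := by rintro h; rw [h] at hpodd; exact absurd hpodd (by decide)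
  have hpq : p.Coprime q := Nat.Coprime.coprime_dvd_left (Nat.minFac_dvd k) hq
  have hpqM : (q * M).Coprime p := (Nat.Coprime.mul_left hpq.symm hpM.symm)
  have hM0 : 0 < M := by
    rcases Nat.eq_zero_or_pos M with h | h
    · rw [h, mul_zero] at hM
      rw [hM] at hkodd; exact absurd hkodd (by decide)
    · exact h
  -- a nonresidue
  obtain ⟨a, ha⟩ : ∃ a : ZMod p, ¬ IsSquare a := by
    obtain ⟨a, ha⟩ := FiniteField.exists_nonsquare (F := ZMod p)
      (by rw [ZMod.ringChar_zmod_n]; exact hp2)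
    exact ⟨a, ha⟩
  obtain ⟨n, hn1, hn2⟩ := Nat.chineseRemainder hpqM 1 a.val
  have hn1q : n ≡ 1 [MOD q] := Nat.ModEq.of_mul_right M hn1
  have hn1M : n ≡ 1 [MOD M] := Nat.ModEq.of_mul_left q hn1
  have hn4 : n ≡ 1 [MOD 4] := Nat.ModEq.of_dvd h4 hn1q
  have hnmod4 : n % 4 = 1 := hn4
  have hnodd : Odd n := by
    rw [Nat.odd_iff]; omega
  have hnp : ((n : ℕ) : ZMod p) = a := by
    have := (ZMod.natCast_eq_natCast_iff n a.val p).mpr hn2
    rw [this, ZMod.natCast_zmod_val]
  have hjp : jacobiSym n p = -1 := by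
    rw [← jacobiSym.legendreSym.to_jacobiSym]
    rw [legendreSym.eq_neg_one_iff]
    push_cast
    rw [hnp]; exact ha
  have hjM : jacobiSym n M = 1 := by
    rw [jacobiSym.mod_left]
    have : ((n : ℤ) % M) = (1 % M : ℤ) := by
      have := hn1M
      unfold Nat.ModEq at this
      exact_mod_cast this
    rw [this, ← jacobiSym.mod_left, jacobiSym.one_left]
  have hjk : jacobiSym n k = -1 := by
    rw [hM, jacobiSym.mul_right' _ hpp.ne_zero hM0.ne', hjp, hjM]; norm_num
  have hjk2 : jacobiSym k n = -1 := by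
    rw [← jacobiSym.quadratic_reciprocity_one_mod_four hnmod4 hkodd]
    exact hjk
  have hjD : jacobiSym D n = -1 := by
    rcases Int.natAbs_eq D with h | h
    · rw [h, ← hk]; exact hjk2
    · rw [h, ← hk, ← neg_one_mul, jacobiSym.mul_left, hjk2, jacobiSym.at_neg_one hnodd,
        ZMod.χ₄_nat_one_mod_four hnmod4]
      norm_num
  refine ⟨n, hn1q, ?_, ?_⟩
  · rw [hM]
    apply Nat.Coprime.mul_right
    · rw [Nat.coprime_comm, Nat.Prime.coprime_iff_not_dvd hpp]
      intro hdvd
      apply ha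
      rw [← hnp, (ZMod.natCast_eq_zero_iff n p).mpr hdvd]
      exact IsSquare.zero
    · have : Nat.gcd n M = Nat.gcd 1 M := hn1M.gcd_eq
      rw [Nat.coprime_iff_gcd_eq_one, this]; simp
  · unfold chi
    rw [if_pos (Nat.odd_iff.mp hnodd), hjD]
    norm_num

private theorem cb_block (k : ℕ) (hk : 0 < k) (T : ℕ → ℝ) (hT : ∀ t, T (t + k) = T t) (n m : ℕ)
    (hn : n.Coprime k) (h : ∀ t, T (n * t + m) = -T t) : ∑ t ∈ range k, T t = 0 := by
  have : NeZero k := ⟨hk.ne'⟩
  let F : ZMod k → ℝ := fun x => T x.val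
  have hper : ∀ t, T (t % k) = T t := by
    intro t
    have : ∀ j, T (t % k + k * j) = T (t % k) := by
      intro j
      induction j with
      | zero => simp
      | succ j ih => rw [Nat.mul_succ, ← add_assoc, hT, ih]
    rw [← this (t / k), Nat.mod_add_div]
  have hF : ∀ t : ℕ, F (t : ZMod k) = T t := by
    intro t
    simp only [F]
    rw [ZMod.val_natCast, hper]
  have e1 : ∑ t ∈ range k, T t = ∑ x : ZMod k, F x := by
    rw [← sum_range_zmod k F]
    exact Finset.sum_congr rfl fun t _ => (hF t).symm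
  let e : ZMod k ≃ ZMod k :=
    (Units.mulLeft (ZMod.unitOfCoprime n hn)).trans (Equiv.addRight ((m : ℕ) : ZMod k))
  have e2 : ∑ x : ZMod k, F x = ∑ x : ZMod k, F (e x) := (Equiv.sum_comp e F).symm
  have e3 : ∀ x : ZMod k, F (e x) = - F x := by
    intro x
    have : e x = ((n * x.val + m : ℕ) : ZMod k) := by
      simp [e]
    rw [this, hF, h]
  have e4 : ∑ x : ZMod k, F x = -∑ x : ZMod k, F x := by
    conv_lhs => rw [e2]
    simp only [e3, Finset.sum_neg_distrib]
  rw [e1]; linarith

private theorem cb_sum_le (k : ℕ) (hk : 0 < k) (T : ℕ → ℝ) (hT : ∀ t, T (t + k) = T t)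
    (h1 : ∀ t, |T t| ≤ 1) (h0 : ∑ t ∈ range k, T t = 0) (a m : ℕ) (ham : a ≤ m) :
    |∑ j ∈ Ico a m, T j| ≤ k := by
  have block : ∀ a, ∑ n ∈ Ico a (a + k), T n = 0 := by
    intro a
    induction a with
    | zero => rw [zero_add, ← Finset.range_eq_Ico]; exact h0
    | succ a ih =>
      rw [Finset.sum_eq_sum_Ico_succ_bot (show a < a + k by omega)] at ih
      rw [show a + 1 + k = a + k + 1 by ring, Finset.sum_Ico_succ_top (by omega), hT]
      linarith
  induction hd : m - a using Nat.strong_induction_on generalizing a with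
  | _ d ih =>
    rcases Nat.lt_or_ge d k with h | h
    · calc |∑ j ∈ Ico a m, T j| ≤ ∑ j ∈ Ico a m, |T j| := Finset.abs_sum_le_sum_abs _ _
        _ ≤ ∑ j ∈ Ico a m, (1 : ℝ) := Finset.sum_le_sum fun j _ => h1 j
        _ = ((m - a : ℕ) : ℝ) := by simp
        _ ≤ k := by
          rw [hd]
          exact_mod_cast h.le
    · rw [← Finset.sum_Ico_consecutive _ (show a ≤ a + k by omega) (show a + k ≤ m by omega),
        block a, zero_add]
      exact ih (m - (a + k)) (by omega) (a + k) (by omega) rfl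

theorem exists_neg (D : ℤ) (hD : Odd D) (hs : Squarefree D) (h1 : D ≠ 1) :
    ∃ n : ℕ, n.Coprime (4 * D.natAbs) ∧ chi D n = -1 := by
  have hkodd : Odd D.natAbs := Int.natAbs_odd.mpr hD
  by_cases hk : D.natAbs = 1
  · have hDm : D = -1 := by
      rcases Int.natAbs_eq D with h | h
      · rw [hk] at h; exact absurd h (by simpa using h1)
      · rw [hk] at h; simpa using h
    subst hDm
    refine ⟨3, by decide, ?_⟩
    unfold chi
    rw [if_pos (by norm_num), jacobiSym.at_neg_one (by decide), ZMod.χ₄_nat_three_mod_four (by norm_num)]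
    norm_num
  · have hcop : D.natAbs.Coprime 4 := by
      have : (4 : ℕ) = 2 ^ 2 := by norm_num
      rw [this]
      exact Nat.Coprime.pow_right 2 (Nat.coprime_two_right.mpr hkodd)
    obtain ⟨n, hn1, hn2, hn3⟩ := cb_exists D hD hs hk 4 (dvd_refl 4) hcop (by norm_num)
    refine ⟨n, ?_, hn3⟩
    apply Nat.Coprime.mul_right _ hn2
    have : Nat.gcd n 4 = Nat.gcd 1 4 := (show n ≡ 1 [MOD 4] from hn1).gcd_eq
    rw [Nat.coprime_iff_gcd_eq_one, this]; norm_num

theorem goodB_chi (D : ℤ) (hD : Odd D) (hs : Squarefree D) (h1 : D ≠ 1) :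
    GoodB (chi D) ((4 * D.natAbs : ℕ) : ℝ) := by
  have hD0 : D ≠ 0 := by rintro rfl; exact absurd hD (by decide)
  have hk0 : 0 < D.natAbs := Int.natAbs_pos.mpr hD0
  obtain ⟨n, hn, hc⟩ := exists_neg D hD hs h1
  refine ⟨chi_mul D, chi_abs_le D, ?_, ?_⟩
  · exact_mod_cast (by omega : 1 ≤ 4 * D.natAbs)
  · intro a m ham
    apply cb_sum_le (4 * D.natAbs) (by omega) (chi D) (chi_period D hD0) (chi_abs_le D) _ a m ham
    apply cb_block (4 * D.natAbs) (by omega) (chi D) (chi_period D hD0) n 0 hn
    intro t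
    rw [add_zero, chi_mul, hc]; ring

theorem class_sum (D : ℤ) (hD : Odd D) (hs : Squarefree D) (h1 : D.natAbs ≠ 1) (q c : ℕ)
    (h4 : 4 ∣ q) (hq : IsCoprime D (q : ℤ)) (hq0 : 0 < q) (a b : ℕ) :
    |∑ l ∈ (Ioc a b).filter (fun l => l % q = c % q), chi D l| ≤ D.natAbs := by
  have hD0 : D ≠ 0 := by rintro rfl; exact absurd hD (by decide)
  have hk0 : 0 < D.natAbs := Int.natAbs_pos.mpr hD0
  rcases Nat.lt_or_ge b a with hab | hab
  · rw [Finset.Ioc_eq_empty (by omega)]
    simp
  have hcop : D.natAbs.Coprime q := by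
    have := Int.isCoprime_iff_gcd_eq_one.mp hq
    rw [Int.gcd_def] at this
    simpa using this
  obtain ⟨n, hn1, hn2, hn3⟩ := cb_exists D hD hs h1 q h4 hcop hq0
  set c' := c % q with hc'
  have hc'q : c' < q := Nat.mod_lt _ hq0
  let T : ℕ → ℝ := fun t => chi D (c' + q * t)
  obtain ⟨r, hr⟩ := h4
  have hT : ∀ t, T (t + D.natAbs) = T t := by
    intro t
    simp only [T]
    have e1 : ∀ j, chi D (c' + q * t + (4 * D.natAbs) * j) = chi D (c' + q * t) := by
      intro j
      induction j with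
      | zero => simp
      | succ j ih => rw [Nat.mul_succ, ← add_assoc, chi_period D hD0, ih]
    rw [← e1 r, hr]
    congr 1; ring
  have hT1 : ∀ t, |T t| ≤ 1 := fun t => chi_abs_le D _
  have hnpos : 1 ≤ n := by
    rcases Nat.eq_zero_or_pos n with h | h
    · rw [h] at hn3
      unfold chi at hn3
      norm_num at hn3
    · exact h
  obtain ⟨m, hm⟩ : ∃ m, n = 1 + q * m := by
    have hdvd : q ∣ n - 1 := (Nat.modEq_iff_dvd' hnpos).mp (Eq.symm hn1)
    obtain ⟨m, hm⟩ := hdvd
    exact ⟨m, by omega⟩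
  have hT0 : ∑ t ∈ range D.natAbs, T t = 0 := by
    apply cb_block D.natAbs hk0 T hT n (m * c') hn2
    intro t
    simp only [T]
    have : c' + q * (n * t + m * c') = n * (c' + q * t) := by
      rw [hm]; ring
    rw [this, chi_mul, hn3]; ring
  set t0 := (a + q - c') / q with ht0
  set t1 := (b + q - c') / q with ht1
  have h01 : t0 ≤ t1 := Nat.div_le_div_right (by omega)
  have key : ∀ (x t : ℕ), t < (x + q - c') / q ↔ c' + q * t ≤ x := by
    intro x t
    rw [Nat.lt_iff_add_one_le, Nat.le_div_iff_mul_le hq0]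
    have : (t + 1) * q = q * t + q := by ring
    rw [this]
    omega
  have hsum : ∑ l ∈ (Ioc a b).filter (fun l => l % q = c'), chi D l = ∑ t ∈ Ico t0 t1, T t := by
    symm
    apply Finset.sum_nbij (fun t => c' + q * t)
    · intro t ht
      rw [Finset.mem_Ico] at ht
      rw [Finset.mem_filter, Finset.mem_Ioc]
      have e1 := (key b t).mp ht.2
      have e2 : ¬ (c' + q * t ≤ a) := fun h => by
        have := (key a t).mpr h
        omega
      refine ⟨⟨by omega, e1⟩, ?_⟩
      rw [Nat.add_mul_mod_self_left, Nat.mod_eq_of_lt hc'q]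
    · intro t _ t' _ h
      simp only at h
      exact Nat.eq_of_mul_eq_mul_left hq0 (by omega)
    · intro l hl
      rw [Finset.coe_filter, Set.mem_ofPred_eq, Finset.mem_Ioc] at hl
      have e1 : c' + q * (l / q) = l := by
        rw [← hl.2]; exact Nat.mod_add_div l q
      refine ⟨l / q, ?_, e1⟩
      rw [Finset.coe_Ico, Set.mem_Ico]
      constructor
      · by_contra hlt
        rw [not_le] at hlt
        have := (key a (l / q)).mp hlt
        omega
      · rw [ht1, key, e1]; exact hl.1.2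
    · intro t _; rfl
  rw [hsum]
  exact cb_sum_le D.natAbs hk0 T hT hT1 hT0 t0 t1 h01

end Pool.Agent.Work.MP_43ce8a_nt.D
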