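import Pool.Agent.Work.MP_43ce8a_nt.D.ChB

set_option autoImplicit false

/-!
Module ChC (size M). The value at 1 and its nonvanishing. D odd squarefree, D ≠ 1.

PROOF. LL_sub (MertQ) with goodB_chi: |LL y - LL N| ≤ 4|D| / (y + 1) for y ≤ N, so LL (chi D) is a
Cauchy sequence; Lone is its limit and |Lone - LL N| ≤ 4|D|/(N+1). Nonvanishing: let k = 4 |D| and
ψ : DirichletCharacter ℂ k with ψ n = chi D n for all natural n (construct the MulChar / the monoid hom
on ZMod k from the periodic completely multiplicative function chi D; nonunits go to 0 because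
chi D n = 0 when n is not prime to 2 D). ψ ≠ 1 by exists_neg. As in MertQ.partial_close, LL_close (there
for prime modulus; copy the two proofs) one gets ‖LFunction ψ 1 - LL N‖ ≤ k / (N + 1), so
LFunction ψ 1 = Lone, and it is nonzero by DirichletCharacter.LFunction_apply_one_ne_zero.
lseries: for real s > 1, LFunction ψ s = ∑' chi D n / n^s; used for the Euler product in ChD.
-/

namespace Pool.Agent.Work.MP_43ce8a_nt.D

open Finset Filter Pool.Agent.Work.MP_2dba45_nt.Mert Pool.Agent.Work.MP_73869e_nt.AP.MertQ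

private theorem cc_psi (D : ℤ) (hD : Odd D) (hs : Squarefree D) (h1 : D ≠ 1) :
    ∃ ψ : DirichletCharacter ℂ (4 * D.natAbs), ψ ≠ 1 ∧
      ∀ n : ℕ, ψ (n : ZMod (4 * D.natAbs)) = ((chi D n : ℝ) : ℂ) := by
  have hD0 : D ≠ 0 := by rintro rfl; exact absurd hD (by decide)
  have hk0 : 0 < D.natAbs := Int.natAbs_pos.mpr hD0
  set k := 4 * D.natAbs with hk
  have : NeZero k := ⟨by omega⟩
  have hper : ∀ t, chi D (t % k) = chi D t := by
    intro t
    have : ∀ j, chi D (t % k + k * j) = chi D (t % k) := by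
      intro j
      induction j with
      | zero => simp
      | succ j ih => rw [Nat.mul_succ, ← add_assoc, chi_period D hD0, ih]
    rw [← this (t / k), Nat.mod_add_div]
  have hF : ∀ t : ℕ, chi D ((t : ZMod k).val) = chi D t := by
    intro t
    rw [ZMod.val_natCast, hper]
  let ψ : DirichletCharacter ℂ k :=
    { toFun := fun x => ((chi D x.val : ℝ) : ℂ)
      map_one' := by
        have := hF 1
        rw [Nat.cast_one] at this
        rw [this, chi_one]; simp
      map_mul' := by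
        intro x y
        have := hF (x.val * y.val)
        rw [Nat.cast_mul, ZMod.natCast_zmod_val, ZMod.natCast_zmod_val] at this
        rw [this, chi_mul]; push_cast; rfl
      map_nonunit' := by
        intro a ha
        show ((chi D a.val : ℝ) : ℂ) = 0
        have h2 : ¬ a.val.Coprime k := by
          intro hc
          apply ha
          rw [← ZMod.natCast_zmod_val a]
          exact (ZMod.isUnit_iff_coprime a.val k).mpr hc
        have h3 : chi D a.val = 0 := by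
          rcases Nat.even_or_odd a.val with he | ho
          · exact chi_even D (Nat.even_iff.mp he)
          · unfold chi
            rw [if_pos (Nat.odd_iff.mp ho)]
            have : jacobiSym D a.val = 0 := by
              rw [jacobiSym.eq_zero_iff]
              refine ⟨by rintro h; rw [h] at ho; exact absurd ho (by decide), ?_⟩
              intro hg
              apply h2
              have h5 : Nat.Coprime a.val 4 := by
                have : (4 : ℕ) = 2 ^ 2 := by norm_num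
                rw [this]
                exact Nat.Coprime.pow_right 2 (Nat.coprime_two_right.mpr ho)
              have h6 : Nat.Coprime a.val D.natAbs := by
                rw [Int.gcd_def, Int.natAbs_natCast] at hg
                exact Nat.Coprime.symm hg
              exact Nat.Coprime.mul_right h5 h6
            rw [this]; simp
        rw [h3]; simp }
  have hψ : ∀ n : ℕ, ψ (n : ZMod k) = ((chi D n : ℝ) : ℂ) := by
    intro n
    show ((chi D ((n : ZMod k).val) : ℝ) : ℂ) = _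
    rw [hF]
  refine ⟨ψ, ?_, hψ⟩
  intro h
  obtain ⟨n, hn, hc⟩ := exists_neg D hD hs h1
  have h2 := hψ n
  rw [h, hc] at h2
  have hu : IsUnit ((n : ℕ) : ZMod k) := (ZMod.isUnit_iff_coprime n k).mpr hn
  rw [MulChar.one_apply hu] at h2
  have h3 : (1 : ℝ) = -1 := by exact_mod_cast h2
  norm_num at h3

open Complex in
private theorem cc_series {k : ℕ} [NeZero k] (ψ : DirichletCharacter ℂ k) (χ : ℕ → ℝ)
    (hψ : ∀ n : ℕ, ψ (n : ZMod k) = ((χ n : ℝ) : ℂ)) (s : ℝ) (hs : 1 < s) :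
    HasSum (fun n : ℕ => ((χ n * (n : ℝ) ^ (-s) : ℝ) : ℂ)) (DirichletCharacter.LFunction ψ s) := by
  have hs' : 1 < (s : ℂ).re := by simpa using hs
  rw [DirichletCharacter.LFunction_eq_LSeries ψ hs']
  have hsum := DirichletCharacter.LSeriesSummable_of_one_lt_re ψ hs'
  have hterm : ∀ n : ℕ, LSeries.term (fun n : ℕ => ψ (n : ZMod k)) (s : ℂ) n =
      ((χ n * (n : ℝ) ^ (-s) : ℝ) : ℂ) := by
    intro n
    rcases Nat.eq_zero_or_pos n with rfl | hn
    · rw [LSeries.term_zero]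
      have : ((0 : ℕ) : ℝ) ^ (-s) = 0 := by
        rw [Nat.cast_zero, Real.zero_rpow (by linarith)]
      rw [this]; simp
    · rw [LSeries.term_of_ne_zero hn.ne']
      rw [hψ, ofReal_mul, ofReal_cpow (Nat.cast_nonneg n)]
      push_cast
      rw [Complex.cpow_neg, div_eq_mul_inv]
  have e : (fun n : ℕ => ((χ n * (n : ℝ) ^ (-s) : ℝ) : ℂ)) =
      LSeries.term (fun n : ℕ => ψ (n : ZMod k)) (s : ℂ) := funext fun n => (hterm n).symm
  rw [e]
  exact hsum.hasSum

open Complex in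
private theorem cc_partial {k : ℕ} [NeZero k] (ψ : DirichletCharacter ℂ k) (χ : ℕ → ℝ) (B : ℝ)
    (hG : GoodB χ B) (hψ : ∀ n : ℕ, ψ (n : ZMod k) = ((χ n : ℝ) : ℂ)) (s : ℝ) (hs : 1 < s) (N : ℕ) :
    ‖DirichletCharacter.LFunction ψ s -
      ((∑ n ∈ Ico 1 (N + 1), χ n * (n : ℝ) ^ (-s) : ℝ) : ℂ)‖ ≤ B / ((N : ℝ) + 1) := by
  have hlim := (cc_series ψ χ hψ s hs).tendsto_sum_nat
  have hlim2 : Tendsto (fun M : ℕ => ‖(∑ i ∈ range M, ((χ i * (i : ℝ) ^ (-s) : ℝ) : ℂ)) -
      ((∑ n ∈ Ico 1 (N + 1), χ n * (n : ℝ) ^ (-s) : ℝ) : ℂ)‖) atTop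
      (nhds (‖DirichletCharacter.LFunction ψ s -
      ((∑ n ∈ Ico 1 (N + 1), χ n * (n : ℝ) ^ (-s) : ℝ) : ℂ)‖)) :=
    (hlim.sub_const _).norm
  refine le_of_tendsto hlim2 ?_
  filter_upwards [eventually_ge_atTop (N + 1)] with M hM
  have e1 : ∑ i ∈ range M, ((χ i * (i : ℝ) ^ (-s) : ℝ) : ℂ) =
      ((∑ n ∈ range M, χ n * (n : ℝ) ^ (-s) : ℝ) : ℂ) := by
    rw [ofReal_sum]
  have e2 : ∑ n ∈ range M, χ n * (n : ℝ) ^ (-s) =
      ∑ n ∈ Ico 1 (N + 1), χ n * (n : ℝ) ^ (-s) + ∑ n ∈ Ico (N + 1) M, χ n * (n : ℝ) ^ (-s) := by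
    rw [Finset.range_eq_Ico, ← Finset.sum_Ico_consecutive _ (show 0 ≤ 1 by norm_num) (show 1 ≤ M by omega),
      ← Finset.sum_Ico_consecutive _ (show 1 ≤ N + 1 by omega) hM]
    have : ∑ n ∈ Ico 0 1, χ n * (n : ℝ) ^ (-s) = 0 := by
      simp [Real.zero_rpow (show -s ≠ 0 by linarith)]
    rw [this, zero_add]
  rw [e1, e2, ofReal_add, add_sub_cancel_left, Complex.norm_real, Real.norm_eq_abs]
  have hB1 : (1 : ℝ) ≤ B := hG.B1
  have h3 : |∑ n ∈ Ico (N + 1) M, χ n * (n : ℝ) ^ (-s)| ≤ B * (((N + 1 : ℕ) : ℝ) ^ (-s)) := by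
    apply abel_boundB χ (fun n => (n : ℝ) ^ (-s)) B hB1 (N + 1) M hM
    · intro m hm; exact hG.sum _ m hm
    · intro n hn; positivity
    · intro n hn
      apply Real.rpow_le_rpow_of_nonpos
      · exact_mod_cast (by omega : 0 < n)
      · push_cast; linarith
      · linarith
  refine h3.trans ?_
  rw [div_eq_mul_inv]
  gcongr
  have h4 : (1 : ℝ) ≤ ((N + 1 : ℕ) : ℝ) := by exact_mod_cast (by omega : 1 ≤ N + 1)
  calc (((N + 1 : ℕ) : ℝ) ^ (-s)) ≤ ((N + 1 : ℕ) : ℝ) ^ (-1 : ℝ) :=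
        Real.rpow_le_rpow_of_exponent_le h4 (by linarith)
    _ = _ := by rw [Real.rpow_neg_one]; push_cast; rfl

private theorem cc_cont {k : ℕ} [NeZero k] (ψ : DirichletCharacter ℂ k) (hne : ψ ≠ 1) :
    Tendsto (fun s : ℝ => DirichletCharacter.LFunction ψ (s : ℂ)) (nhdsWithin 1 (Set.Ioi 1))
      (nhds (DirichletCharacter.LFunction ψ 1)) := by
  have hc : Continuous (DirichletCharacter.LFunction ψ) :=
    (DirichletCharacter.differentiable_LFunction hne).continuous
  have : Continuous (fun s : ℝ => DirichletCharacter.LFunction ψ (s : ℂ)) :=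
    hc.comp Complex.continuous_ofReal
  have h := this.tendsto 1
  rw [Complex.ofReal_one] at h
  exact h.mono_left nhdsWithin_le_nhds

private theorem cc_close {k : ℕ} [NeZero k] (ψ : DirichletCharacter ℂ k) (hne : ψ ≠ 1) (χ : ℕ → ℝ)
    (B : ℝ) (hG : GoodB χ B) (hψ : ∀ n : ℕ, ψ (n : ZMod k) = ((χ n : ℝ) : ℂ)) (N : ℕ) :
    ‖DirichletCharacter.LFunction ψ 1 - ((LL χ N : ℝ) : ℂ)‖ ≤ B / ((N : ℝ) + 1) := by
  have h1 := cc_cont ψ hne
  have h2 : Tendsto (fun s : ℝ => ((∑ n ∈ Ico 1 (N + 1), χ n * (n : ℝ) ^ (-s) : ℝ) : ℂ))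
      (nhdsWithin 1 (Set.Ioi 1)) (nhds ((LL χ N : ℝ) : ℂ)) := by
    have hcont : Continuous (fun s : ℝ => (∑ n ∈ Ico 1 (N + 1), χ n * (n : ℝ) ^ (-s) : ℝ)) := by
      refine continuous_finsetSum _ fun n hn => ?_
      have hn0 : (n : ℝ) ≠ 0 := by
        rw [Finset.mem_Ico] at hn
        exact_mod_cast (by omega : n ≠ 0)
      exact continuous_const.mul (Real.continuous_const_rpow hn0 |>.comp continuous_neg)
    have h := (Complex.continuous_ofReal.comp hcont).tendsto 1
    have e : (∑ n ∈ Ico 1 (N + 1), χ n * (n : ℝ) ^ (-(1 : ℝ))) = LL χ N := by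
      unfold LL
      have h1 : Ioc 0 N = Ico 1 (N + 1) := by ext; simp; omega
      rw [h1]
      refine Finset.sum_congr rfl fun n _ => ?_
      rw [Real.rpow_neg_one, div_eq_mul_inv]
    simp only [Function.comp] at h
    rw [e] at h
    exact h.mono_left nhdsWithin_le_nhds
  refine le_of_tendsto ((h1.sub h2).norm) ?_
  filter_upwards [self_mem_nhdsWithin] with s hs
  exact cc_partial ψ χ B hG hψ s hs N

private theorem cc_lim (D : ℤ) (hD : Odd D) (hs : Squarefree D) (h1 : D ≠ 1) :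
    ∃ (k : ℕ) (_ : NeZero k) (ψ : DirichletCharacter ℂ k), ψ ≠ 1 ∧
      (∀ n : ℕ, ψ (n : ZMod k) = ((chi D n : ℝ) : ℂ)) ∧
      Tendsto (fun N : ℕ => ((LL (chi D) N : ℝ) : ℂ)) atTop
        (nhds (DirichletCharacter.LFunction ψ 1)) := by
  have hD0 : D ≠ 0 := by rintro rfl; exact absurd hD (by decide)
  have hk0 : 0 < D.natAbs := Int.natAbs_pos.mpr hD0
  have : NeZero (4 * D.natAbs) := ⟨by omega⟩
  obtain ⟨ψ, hne, hψ⟩ := cc_psi D hD hs h1
  refine ⟨4 * D.natAbs, this, ψ, hne, hψ, ?_⟩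
  rw [tendsto_iff_norm_sub_tendsto_zero]
  have hz : Tendsto (fun N : ℕ => ((4 * D.natAbs : ℕ) : ℝ) / ((N : ℝ) + 1)) atTop (nhds 0) :=
    Tendsto.div_atTop tendsto_const_nhds
      (tendsto_atTop_add_const_right _ _ tendsto_natCast_atTop_atTop)
  refine squeeze_zero (fun _ => norm_nonneg _) (fun N => ?_) hz
  rw [norm_sub_rev]
  exact cc_close ψ hne (chi D) _ (goodB_chi D hD hs h1) hψ N

theorem Lone_tendsto (D : ℤ) (hD : Odd D) (hs : Squarefree D) (h1 : D ≠ 1) :
    Tendsto (fun N : ℕ => LL (chi D) N) atTop (nhds (Lone D)) := by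
  obtain ⟨k, _, ψ, hne, hψ, hlim⟩ := cc_lim D hD hs h1
  have h2 : Tendsto (fun N : ℕ => LL (chi D) N) atTop
      (nhds (DirichletCharacter.LFunction ψ 1).re) := by
    have := (Complex.continuous_re.tendsto _).comp hlim
    simpa [Function.comp_def] using this
  unfold Lone
  exact tendsto_nhds_limUnder ⟨_, h2⟩

private theorem cc_Lone (D : ℤ) (hD : Odd D) (hs : Squarefree D) (h1 : D ≠ 1) :
    ∃ (k : ℕ) (_ : NeZero k) (ψ : DirichletCharacter ℂ k), ψ ≠ 1 ∧
      (∀ n : ℕ, ψ (n : ZMod k) = ((chi D n : ℝ) : ℂ)) ∧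
      DirichletCharacter.LFunction ψ 1 = ((Lone D : ℝ) : ℂ) := by
  obtain ⟨k, _, ψ, hne, hψ, hlim⟩ := cc_lim D hD hs h1
  refine ⟨k, inferInstance, ψ, hne, hψ, ?_⟩
  have h2 : Tendsto (fun N : ℕ => ((LL (chi D) N : ℝ) : ℂ)) atTop (nhds ((Lone D : ℝ) : ℂ)) :=
    (Complex.continuous_ofReal.tendsto _).comp (Lone_tendsto D hD hs h1)
  exact tendsto_nhds_unique hlim h2

theorem Lone_close (D : ℤ) (hD : Odd D) (hs : Squarefree D) (h1 : D ≠ 1) (N : ℕ) :
    |Lone D - LL (chi D) N| ≤ 4 * (D.natAbs : ℝ) / ((N : ℝ) + 1) := by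
  have hG := goodB_chi D hD hs h1
  have h2 : Tendsto (fun M : ℕ => |LL (chi D) N - LL (chi D) M|) atTop
      (nhds |LL (chi D) N - Lone D|) :=
    ((Lone_tendsto D hD hs h1).const_sub _).abs
  rw [abs_sub_comm]
  refine le_of_tendsto h2 ?_
  filter_upwards [eventually_ge_atTop N] with M hM
  have := LL_sub hG hM
  push_cast at this
  exact this

theorem Lone_ne_zero (D : ℤ) (hD : Odd D) (hs : Squarefree D) (h1 : D ≠ 1) : Lone D ≠ 0 := by
  obtain ⟨k, _, ψ, hne, hψ, hL⟩ := cc_Lone D hD hs h1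
  intro h0
  rw [h0, Complex.ofReal_zero] at hL
  exact DirichletCharacter.LFunction_apply_one_ne_zero hne hL

/-- continuity from the right at `1` of the Dirichlet series -/
theorem series_tendsto (D : ℤ) (hD : Odd D) (hs : Squarefree D) (h1 : D ≠ 1) :
    Tendsto (fun s : ℝ => ∑' n : ℕ, chi D n * (n : ℝ) ^ (-s)) (nhdsWithin 1 (Set.Ioi 1))
      (nhds (Lone D)) := by
  obtain ⟨k, _, ψ, hne, hψ, hL⟩ := cc_Lone D hD hs h1
  have h2 := (Complex.continuous_re.tendsto _).comp (cc_cont ψ hne)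
  rw [hL, Complex.ofReal_re] at h2
  refine h2.congr' ?_
  filter_upwards [self_mem_nhdsWithin] with s hs1
  have h3 := cc_series ψ (chi D) hψ s hs1
  have h4 := (Complex.hasSum_re h3).tsum_eq
  simp only [Complex.ofReal_re] at h4
  simp only [Function.comp]
  exact h4.symm

end Pool.Agent.Work.MP_43ce8a_nt.D
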