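import Pool.Agent.Work.MP_43ce8a_nt.D.ChC

set_option autoImplicit false

/-!
Module ChD (size M-L). The Euler product at 1 (conditionally convergent). D odd squarefree, D ≠ 1.

PROOF. (1) By mertens_chiB (MertQ) with c0 = |Lone|/2 and N₀ from Lone_tendsto:
|T N| ≤ C for T N = ∑_{p ≤ N} chi D p log p / p. (2) Abel summation with the decreasing weights
f_s(p) = p^(1-s) / log p (s ≥ 1): |∑_{M < p ≤ N} chi D p p^(-s)| ≤ 2 C / log M for 2 ≤ M ≤ N,
uniformly in s ≥ 1. So S(s) = ∑_p chi D p p^(-s) converges for s ≥ 1 (as a limit of partial sums over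
p ≤ N), and S(s) → S(1) as s → 1+ (3 epsilon: finite sums are continuous). (3) The sums
R(s) = ∑_p (-log(1 - chi D p p^(-s)) - chi D p p^(-s)) converge absolutely, |term| ≤ p^(-2s) ≤ p^(-2), and
are continuous on s ≥ 1 (dominated). (4) For s > 1 the Euler product (Mathlib:
DirichletCharacter / EulerProduct.eulerProduct_completely_multiplicative_hasProd for the real
completely multiplicative function n ↦ chi D n n^(-s)) gives
∑' chi D n n^(-s) = exp(S(s) + R(s)) > 0. Let s → 1+: by series_tendsto, Lone = exp(S(1) + R(1)) =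
lim_z ∏_{p < z} (1 - chi D p / p)⁻¹. In particular Lone > 0.
-/

namespace Pool.Agent.Work.MP_43ce8a_nt.D

open Finset Filter Pool.Agent.Work.MP_2dba45_nt.Mert Pool.Agent.Work.MP_73869e_nt.AP.MertQ

/-- the logarithm of the Euler factor -/
private noncomputable def cdG (D : ℤ) (s : ℝ) (p : ℕ) : ℝ :=
  - Real.log (1 - chi D p * (p : ℝ) ^ (-s))

private theorem cd_abs (D : ℤ) (s : ℝ) (hs : 1 ≤ s) {p : ℕ} (hp : 2 ≤ p) :
    |chi D p * (p : ℝ) ^ (-s)| ≤ 1 / (p : ℝ) := by
  have hp1 : (1 : ℝ) ≤ p := by exact_mod_cast (by omega : 1 ≤ p)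
  rw [abs_mul]
  have h1 : |(p : ℝ) ^ (-s)| ≤ (p : ℝ) ^ (-1 : ℝ) := by
    rw [abs_of_nonneg (by positivity)]
    exact Real.rpow_le_rpow_of_exponent_le hp1 (by linarith)
  calc |chi D p| * |(p : ℝ) ^ (-s)| ≤ 1 * (p : ℝ) ^ (-1 : ℝ) :=
        mul_le_mul (chi_abs_le D p) h1 (abs_nonneg _) (by norm_num)
    _ = 1 / (p : ℝ) := by rw [one_mul, Real.rpow_neg_one, one_div]

private theorem cd_pos (D : ℤ) (s : ℝ) (hs : 1 ≤ s) {p : ℕ} (hp : 2 ≤ p) :
    0 < 1 - chi D p * (p : ℝ) ^ (-s) := by
  have h1 := cd_abs D s hs hp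
  have h2 : 1 / (p : ℝ) ≤ 1 / 2 := by
    apply one_div_le_one_div_of_le (by norm_num)
    exact_mod_cast hp
  have := (abs_le.mp (h1.trans h2)).2
  linarith

private theorem cd_err (D : ℤ) (s : ℝ) (hs : 1 ≤ s) {p : ℕ} (hp : 2 ≤ p) :
    |cdG D s p - chi D p * (p : ℝ) ^ (-s)| ≤ 2 * (((p : ℝ) ^ 2)⁻¹) := by
  set x := chi D p * (p : ℝ) ^ (-s) with hx
  have h1 : |x| ≤ 1 / (p : ℝ) := cd_abs D s hs hp
  have h2 : 1 / (p : ℝ) ≤ 1 / 2 := by
    apply one_div_le_one_div_of_le (by norm_num)
    exact_mod_cast hp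
  have hx1 : |x| < 1 := by linarith
  have h3 := Real.abs_log_sub_add_sum_range_le hx1 1
  simp only [Finset.sum_range_one, zero_add, pow_one, Nat.cast_zero, div_one] at h3
  have h4 : |x| ^ (1 + 1) / (1 - |x|) ≤ 2 * (((p : ℝ) ^ 2)⁻¹) := by
    rw [div_le_iff₀ (by linarith)]
    have h5 : |x| ^ 2 ≤ (1 / (p : ℝ)) ^ 2 := pow_le_pow_left₀ (abs_nonneg _) h1 2
    have h6 : (1 / (p : ℝ)) ^ 2 = ((p : ℝ) ^ 2)⁻¹ := by rw [one_div, inv_pow]
    rw [h6] at h5
    have h7 : 0 ≤ ((p : ℝ) ^ 2)⁻¹ := by positivity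
    have h8 : (1 : ℝ) / 2 ≤ 1 - |x| := by linarith
    nlinarith
  have h5 : |cdG D s p - x| = |x + Real.log (1 - x)| := by
    unfold cdG
    rw [← hx, ← abs_neg]
    congr 1; ring
  rw [h5]
  exact h3.trans h4

private theorem cd_mert (D : ℤ) (hD : Odd D) (hs : Squarefree D) (h1 : D ≠ 1) : ∃ C : ℝ, 1 ≤ C ∧
    ∀ a b : ℕ, |∑ n ∈ Ico a b, (if n.Prime then chi D n * Real.log n / n else 0)| ≤ C := by
  have hne := Lone_ne_zero D hD hs h1
  have hl : 0 < |Lone D| := abs_pos.mpr hne
  have h2 := (Lone_tendsto D hD hs h1).abs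
  have h3 : ∀ᶠ N in atTop, |Lone D| / 2 < |LL (chi D) N| := h2.eventually_const_lt (by linarith)
  obtain ⟨N₀, hN₀⟩ := eventually_atTop.mp h3
  obtain ⟨C, hC⟩ := mertens_chiB (chi D) _ (goodB_chi D hD hs h1) (|Lone D| / 2) (by linarith) N₀
    (fun N hN => (hN₀ N hN).le)
  have hC0 : 0 ≤ C := (abs_nonneg _).trans (hC 0)
  refine ⟨2 * C + 1, by linarith, fun a b => ?_⟩
  have hpre : ∀ m : ℕ, |∑ n ∈ range m, (if n.Prime then chi D n * Real.log n / n else 0)| ≤ C := by
    intro m
    rcases m with _ | m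
    · simpa using hC0
    have h4 := hC m
    have h5 : ∑ n ∈ range (m + 1), (if n.Prime then chi D n * Real.log n / n else 0) =
        ∑ p ∈ (Ioc 0 m).filter Nat.Prime, chi D p * Real.log p / p := by
      rw [Finset.sum_filter, Finset.sum_range_eq_add_Ico _ (by omega)]
      have h6 : Ico 1 (m + 1) = Ioc 0 m := by ext; simp; omega
      rw [h6, if_neg Nat.not_prime_zero, zero_add]
    rw [h5]; exact h4
  rcases Nat.lt_or_ge b a with h | h
  · rw [Finset.Ico_eq_empty (by omega)]
    simp; linarith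
  · rw [Finset.sum_Ico_eq_sub _ h]
    have h4 := hpre a
    have h5 := hpre b
    rw [abs_le] at *
    constructor <;> linarith [h4.1, h4.2, h5.1, h5.2]

private theorem cd_cauchy (D : ℤ) (hD : Odd D) (hs : Squarefree D) (h1 : D ≠ 1) : ∃ C : ℝ, 0 ≤ C ∧
    ∀ (s : ℝ) (z w : ℕ), 1 ≤ s → 2 ≤ z →
      |∑ n ∈ Ico z w, (if n.Prime then cdG D s n else 0)| ≤ C / Real.log z := by
  obtain ⟨C, hC1, hC⟩ := cd_mert D hD hs h1
  refine ⟨C + 4, by linarith, fun s z w hs1 hz => ?_⟩
  rcases Nat.lt_or_ge w z with hwz | hwz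
  · rw [Finset.Ico_eq_empty (by omega)]
    have : 0 ≤ Real.log z := Real.log_nonneg (by exact_mod_cast (by omega : 1 ≤ z))
    simp only [Finset.sum_empty, abs_zero]
    positivity
  have hz0 : (0 : ℝ) < z := by exact_mod_cast (by omega : 0 < z)
  have hz1 : (1 : ℝ) < z := by exact_mod_cast (by omega : 1 < z)
  have hlz : 0 < Real.log z := Real.log_pos hz1
  have hA : |∑ n ∈ Ico z w, (if n.Prime then chi D n * Real.log n / n else 0) *
      ((n : ℝ) ^ (1 - s) / Real.log n)| ≤ C * ((z : ℝ) ^ (1 - s) / Real.log z) := by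
    apply abel_boundB (fun n => if n.Prime then chi D n * Real.log n / n else 0)
      (fun n => (n : ℝ) ^ (1 - s) / Real.log n) C hC1 z w hwz
    · intro m _; exact hC z m
    · intro n hn
      have : (1 : ℝ) ≤ n := by exact_mod_cast (by omega : 1 ≤ n)
      exact div_nonneg (by positivity) (Real.log_nonneg this)
    · intro n hn
      have hn1 : (1 : ℝ) < n := by exact_mod_cast (by omega : 1 < n)
      have hln : 0 < Real.log n := Real.log_pos hn1
      apply div_le_div₀ (by positivity) _ hln _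
      · apply Real.rpow_le_rpow_of_nonpos (by linarith)
        · push_cast; linarith
        · linarith
      · apply Real.log_le_log (by linarith)
        push_cast; linarith
  have hA2 : (z : ℝ) ^ (1 - s) / Real.log z ≤ 1 / Real.log z := by
    apply div_le_div_of_nonneg_right _ hlz.le
    exact Real.rpow_le_one_of_one_le_of_nonpos hz1.le (by linarith)
  have hB : |∑ n ∈ Ico z w, (if n.Prime then cdG D s n - chi D n * (n : ℝ) ^ (-s) else 0)| ≤
      4 / Real.log z := by
    calc |∑ n ∈ Ico z w, (if n.Prime then cdG D s n - chi D n * (n : ℝ) ^ (-s) else 0)|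
        ≤ ∑ n ∈ Ico z w, |(if n.Prime then cdG D s n - chi D n * (n : ℝ) ^ (-s) else 0)| :=
          Finset.abs_sum_le_sum_abs _ _
      _ ≤ ∑ n ∈ Ico z w, 2 * (((n : ℝ) ^ 2)⁻¹) := by
          apply Finset.sum_le_sum
          intro n hn
          rw [Finset.mem_Ico] at hn
          split_ifs
          · exact cd_err D s hs1 (by omega)
          · rw [abs_zero]; positivity
      _ = 2 * ∑ n ∈ Ioo (z - 1) w, (((n : ℝ) ^ 2)⁻¹) := by
          rw [← Finset.mul_sum]
          congr 1
          apply Finset.sum_congr _ (fun _ _ => rfl)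
          ext n; simp; omega
      _ ≤ 2 * (2 / (((z - 1 : ℕ) : ℝ) + 1)) := by
          gcongr
          exact sum_Ioo_inv_sq_le (z - 1) w
      _ = 4 / z := by
          rw [Nat.cast_sub (by omega)]; push_cast; ring
      _ ≤ 4 / Real.log z := by
          apply div_le_div_of_nonneg_left (by norm_num) hlz
          linarith [Real.log_le_sub_one_of_pos hz0]
  have hsplit : ∑ n ∈ Ico z w, (if n.Prime then cdG D s n else 0) =
      ∑ n ∈ Ico z w, (if n.Prime then chi D n * Real.log n / n else 0) *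
        ((n : ℝ) ^ (1 - s) / Real.log n) +
      ∑ n ∈ Ico z w, (if n.Prime then cdG D s n - chi D n * (n : ℝ) ^ (-s) else 0) := by
    rw [← Finset.sum_add_distrib]
    apply Finset.sum_congr rfl
    intro n hn
    rw [Finset.mem_Ico] at hn
    split_ifs with hp
    · have hn1 : (1 : ℝ) < n := by exact_mod_cast (by omega : 1 < n)
      have hln : Real.log n ≠ 0 := (Real.log_pos hn1).ne'
      have hn0 : (n : ℝ) ≠ 0 := by linarith
      have e1 : (n : ℝ) ^ (1 - s) = n * (n : ℝ) ^ (-s) := by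
        rw [sub_eq_add_neg, Real.rpow_add (by linarith), Real.rpow_one]
      rw [e1]
      field_simp
      ring
    · simp
  rw [hsplit]
  refine (abs_add_le _ _).trans ?_
  have h5 : C * ((z : ℝ) ^ (1 - s) / Real.log z) ≤ C * (1 / Real.log z) :=
    mul_le_mul_of_nonneg_left hA2 (by linarith)
  calc _ ≤ C * (1 / Real.log z) + 4 / Real.log z := add_le_add (hA.trans h5) hB
    _ = (C + 4) / Real.log z := by ring

private theorem cd_exp (D : ℤ) (s : ℝ) (hs : 1 ≤ s) (z : ℕ) :
    ∏ p ∈ (range z).filter Nat.Prime, (1 - chi D p * (p : ℝ) ^ (-s))⁻¹ =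
      Real.exp (∑ n ∈ range z, (if n.Prime then cdG D s n else 0)) := by
  rw [← Finset.sum_filter, Real.exp_sum]
  apply Finset.prod_congr rfl
  intro p hp
  have hp2 : 2 ≤ p := (Finset.mem_filter.mp hp).2.two_le
  unfold cdG
  rw [Real.exp_neg, Real.exp_log (cd_pos D s hs hp2)]

private theorem cd_euler (D : ℤ) (s : ℝ) (hs : 1 < s) :
    Tendsto (fun z : ℕ => ∏ p ∈ (range z).filter Nat.Prime, (1 - chi D p * (p : ℝ) ^ (-s))⁻¹) atTop
      (nhds (∑' n : ℕ, chi D n * (n : ℝ) ^ (-s))) := by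
  let f : ℕ →*₀ ℝ :=
    { toFun := fun n => chi D n * (n : ℝ) ^ (-s)
      map_zero' := by rw [chi_even D (by norm_num), zero_mul]
      map_one' := by rw [chi_one]; simp
      map_mul' := by
        intro m n
        rw [chi_mul]; push_cast
        rw [Real.mul_rpow (Nat.cast_nonneg _) (Nat.cast_nonneg _)]
        ring }
  have hf : Summable (fun n => ‖f n‖) := by
    refine Summable.of_nonneg_of_le (fun _ => norm_nonneg _) (fun n => ?_)
      (Real.summable_nat_rpow.mpr (show -s < -1 by linarith))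
    show ‖chi D n * (n : ℝ) ^ (-s)‖ ≤ _
    rw [norm_mul, Real.norm_eq_abs, Real.norm_eq_abs, abs_of_nonneg (a := (n : ℝ) ^ (-s)) (by positivity)]
    calc |chi D n| * (n : ℝ) ^ (-s) ≤ 1 * (n : ℝ) ^ (-s) := by
          gcongr; exact chi_abs_le D n
      _ = _ := one_mul _
  exact EulerProduct.eulerProduct_completely_multiplicative hf

private theorem cd_bounds (D : ℤ) (hD : Odd D) (hs : Squarefree D) (h1 : D ≠ 1) : ∃ C : ℝ, 0 ≤ C ∧
    ∀ z : ℕ, 2 ≤ z →
      Real.exp (∑ n ∈ range z, (if n.Prime then cdG D 1 n else 0) - C / Real.log z) ≤ Lone D ∧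
      Lone D ≤ Real.exp (∑ n ∈ range z, (if n.Prime then cdG D 1 n else 0) + C / Real.log z) := by
  obtain ⟨C, hC0, hC⟩ := cd_cauchy D hD hs h1
  refine ⟨C, hC0, fun z hz => ?_⟩
  have key : ∀ s : ℝ, 1 < s →
      Real.exp (∑ n ∈ range z, (if n.Prime then cdG D s n else 0) - C / Real.log z) ≤
        ∑' n : ℕ, chi D n * (n : ℝ) ^ (-s) ∧
      ∑' n : ℕ, chi D n * (n : ℝ) ^ (-s) ≤
        Real.exp (∑ n ∈ range z, (if n.Prime then cdG D s n else 0) + C / Real.log z) := by
    intro s hs1
    have hE := cd_euler D s hs1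
    have hb : ∀ᶠ w : ℕ in atTop,
        |∑ n ∈ range w, (if n.Prime then cdG D s n else 0) -
          ∑ n ∈ range z, (if n.Prime then cdG D s n else 0)| ≤ C / Real.log z := by
      filter_upwards [eventually_ge_atTop z] with w hw
      rw [← Finset.sum_Ico_eq_sub _ hw]
      exact hC s z w hs1.le hz
    constructor
    · apply ge_of_tendsto hE
      filter_upwards [hb] with w hw
      rw [cd_exp D s hs1.le]
      apply Real.exp_le_exp.mpr
      linarith [(abs_le.mp hw).1]
    · apply le_of_tendsto hE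
      filter_upwards [hb] with w hw
      rw [cd_exp D s hs1.le]
      apply Real.exp_le_exp.mpr
      linarith [(abs_le.mp hw).2]
  have hser := series_tendsto D hD hs h1
  have hcont : Tendsto (fun s : ℝ => ∑ n ∈ range z, (if n.Prime then cdG D s n else 0))
      (nhdsWithin 1 (Set.Ioi 1)) (nhds (∑ n ∈ range z, (if n.Prime then cdG D 1 n else 0))) := by
    apply tendsto_finsetSum
    intro n _
    split_ifs with hp
    · unfold cdG
      have hn0 : (n : ℝ) ≠ 0 := by exact_mod_cast hp.ne_zero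
      have hc : ContinuousAt (fun s : ℝ => - Real.log (1 - chi D n * (n : ℝ) ^ (-s))) 1 := by
        apply ContinuousAt.neg
        apply ContinuousAt.log
        · apply ContinuousAt.sub continuousAt_const
          apply ContinuousAt.mul continuousAt_const
          exact ((Real.continuous_const_rpow hn0).comp continuous_neg).continuousAt
        · exact (cd_pos D 1 le_rfl hp.two_le).ne'
      exact hc.tendsto.mono_left nhdsWithin_le_nhds
    · exact tendsto_const_nhds
  constructor
  · refine le_of_tendsto_of_tendsto ((Real.continuous_exp.tendsto _).comp (hcont.sub_const _))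
      hser ?_
    filter_upwards [self_mem_nhdsWithin] with s hs1
    exact (key s hs1).1
  · refine le_of_tendsto_of_tendsto hser
      ((Real.continuous_exp.tendsto _).comp (hcont.add_const _)) ?_
    filter_upwards [self_mem_nhdsWithin] with s hs1
    exact (key s hs1).2

theorem euler_one (D : ℤ) (hD : Odd D) (hs : Squarefree D) (h1 : D ≠ 1) :
    Tendsto (fun z : ℕ => ∏ p ∈ (range z).filter Nat.Prime, (1 - chi D p / (p : ℝ))⁻¹) atTop
      (nhds (Lone D)) := by
  obtain ⟨C, hC0, hC⟩ := cd_bounds D hD hs h1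
  have hlog : Tendsto (fun z : ℕ => C / Real.log z) atTop (nhds 0) :=
    Tendsto.div_atTop tendsto_const_nhds (Real.tendsto_log_atTop.comp tendsto_natCast_atTop_atTop)
  have hlo : Tendsto (fun z : ℕ => Lone D * Real.exp (-(C / Real.log z))) atTop (nhds (Lone D)) := by
    have := ((Real.continuous_exp.tendsto _).comp hlog.neg).const_mul (Lone D)
    simpa using this
  have hhi : Tendsto (fun z : ℕ => Lone D * Real.exp (C / Real.log z)) atTop (nhds (Lone D)) := by
    have := ((Real.continuous_exp.tendsto _).comp hlog).const_mul (Lone D)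
    simpa using this
  have hexp : ∀ z : ℕ, ∏ p ∈ (range z).filter Nat.Prime, (1 - chi D p / (p : ℝ))⁻¹ =
      Real.exp (∑ n ∈ range z, (if n.Prime then cdG D 1 n else 0)) := by
    intro z
    rw [← cd_exp D 1 le_rfl z]
    apply Finset.prod_congr rfl
    intro p _
    rw [Real.rpow_neg_one, div_eq_mul_inv]
  refine tendsto_of_tendsto_of_tendsto_of_le_of_le' hlo hhi ?_ ?_
  · filter_upwards [eventually_ge_atTop 2] with z hz
    rw [hexp]
    calc Lone D * Real.exp (-(C / Real.log z)) ≤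
        Real.exp (∑ n ∈ range z, (if n.Prime then cdG D 1 n else 0) + C / Real.log z) *
          Real.exp (-(C / Real.log z)) := by gcongr; exact (hC z hz).2
      _ = _ := by rw [← Real.exp_add]; congr 1; ring
  · filter_upwards [eventually_ge_atTop 2] with z hz
    rw [hexp]
    calc Real.exp (∑ n ∈ range z, (if n.Prime then cdG D 1 n else 0)) =
        Real.exp (∑ n ∈ range z, (if n.Prime then cdG D 1 n else 0) - C / Real.log z) *
          Real.exp (C / Real.log z) := by rw [← Real.exp_add]; congr 1; ring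
      _ ≤ _ := by gcongr; exact (hC z hz).1

theorem Lone_pos (D : ℤ) (hD : Odd D) (hs : Squarefree D) (h1 : D ≠ 1) : 0 < Lone D := by
  obtain ⟨C, hC0, hC⟩ := cd_bounds D hD hs h1
  exact lt_of_lt_of_le (Real.exp_pos _) (hC 2 le_rfl).1

end Pool.Agent.Work.MP_43ce8a_nt.D
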