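import Pool.Agent.Work.MP_43ce8a_nt.D.Defs

set_option autoImplicit false

/-!
Module Diag (size M-L). Bound for the number of representations of one integer.

PROOF. Let (w, v) be a representation: w² = 4n + D v², w > 0. w is odd (w ≡ w0 mod q, q even, w0 odd), so
D v² is odd and v is odd. s = gcd(w, v) is odd, s² ∣ 4 n, so s² ∣ n; put n' = n/s², w' = w/s, v' = v/s:
w'² - D v'² = 4 n', gcd(w', v') = 1. n' is odd, prime to v' (a common prime would divide w') and to D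
(hp). Let t be the class of w' / v' in ZMod n', t² = D. The number of square roots of D in ZMod n' is at
most 2^(number of prime factors of n'), by CRT and Hensel (a unit has at most 2 square roots modulo an
odd prime power) (alternative: t, t₁ two roots: n' = gcd(n', t - t₁) gcd(n', t + t₁) up to ..., the map
t₁ ↦ gcd(n', t₁ - t) is injective into the divisors of n', because no prime divides both t - t₁ and
t + t₁; so at most card divisors n' ≤ 2^Ω(n')).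
Claim: (s, t) determines (w, v). Let (w₁, v₁) be another one with the same s, t. Then
n' ∣ w' v₁' - w₁' v', which is even (all four odd), so 2 n' ∣ it, and 2 n ∣ w v₁ - w₁ v after
multiplication with s². But (w v₁ - w₁ v)(w v₁ + w₁ v) = w² v₁² - w₁² v² = 4 n (v₁² - v²), so
|w v₁ - w₁ v| = 4 n |v₁ - v| (v₁ + v)/(w v₁ + w₁ v) < 4 n h (v + v₁)/(√(N/2) (v + v₁)) < 2 n, since
w, w₁ ≥ √(N/2) (Geo.lo, n > N) and 8 h² < N. Hence w v₁ = w₁ v, v₁² = v², v = v₁.
The number of s is at most card divisors n ≤ 2^Ω(n), Ω(n) = n.primeFactorsList.length ≤ K. Total 4^K.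
-/

namespace Pool.Agent.Work.MP_43ce8a_nt.D

open Finset

private theorem dg_np {D w v : ℤ} {m p : ℕ} (hp : p.Prime) (hpm : p ∣ m) (hpD : ¬ (p : ℤ) ∣ D)
    (h : w ^ 2 = 4 * m + D * v ^ 2) (hc : IsCoprime w v) : ¬ (p : ℤ) ∣ w ∧ ¬ (p : ℤ) ∣ v := by
  have hpp : Prime (p : ℤ) := Nat.prime_iff_prime_int.1 hp
  have hm : (p : ℤ) ∣ (m : ℤ) := Int.natCast_dvd_natCast.2 hpm
  have hv : ¬ (p : ℤ) ∣ v := by
    intro hv
    have h1 : (p : ℤ) ∣ w ^ 2 := by
      rw [h]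
      exact dvd_add (hm.mul_left _) ((dvd_pow hv two_ne_zero).mul_left _)
    have h2 : (p : ℤ) ∣ w := hpp.dvd_of_dvd_pow h1
    exact hpp.not_isUnit (hc.isUnit_of_dvd' h2 hv)
  refine ⟨fun hw => ?_, hv⟩
  have h1 : (p : ℤ) ∣ D * v ^ 2 := by
    have h2 : D * v ^ 2 = w ^ 2 - 4 * m := by rw [h]; ring
    rw [h2]
    exact dvd_sub (dvd_pow hw two_ne_zero) (hm.mul_left _)
  rcases hpp.dvd_or_dvd h1 with h2 | h2
  · exact hpD h2
  · exact hv (hpp.dvd_of_dvd_pow h2)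

private theorem dg_key {D w v w₁ v₁ w₀ v₀ : ℤ} {m : ℕ} (hm : m ≠ 0)
    (hpp : ∀ p : ℕ, p.Prime → p ∣ m → p ≠ 2 ∧ ¬ (p : ℤ) ∣ D)
    (h : w ^ 2 = 4 * m + D * v ^ 2) (hc : IsCoprime w v)
    (h₁ : w₁ ^ 2 = 4 * m + D * v₁ ^ 2) (_ : IsCoprime w₁ v₁)
    (h₀ : w₀ ^ 2 = 4 * m + D * v₀ ^ 2) (hc₀ : IsCoprime w₀ v₀)
    (hd : m.gcd (w * v₀ - w₀ * v).natAbs = m.gcd (w₁ * v₀ - w₀ * v₁).natAbs) :
    (m : ℤ) ∣ w * v₁ - w₁ * v := by
  have aux : ∀ a b : ℤ, a ^ 2 = 4 * m + D * b ^ 2 →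
      m ∣ m.gcd (a * v₀ - w₀ * b).natAbs * m.gcd (a * v₀ + w₀ * b).natAbs := by
    intro a b hab
    rw [Nat.dvd_gcd_mul_gcd_iff_dvd_mul, ← Int.natAbs_mul, ← Int.natCast_dvd_natCast,
      Int.dvd_natAbs]
    have e : (a * v₀ - w₀ * b) * (a * v₀ + w₀ * b) = m * (4 * (v₀ ^ 2 - b ^ 2)) := by
      linear_combination (v₀ ^ 2) * hab - (b ^ 2) * h₀
    rw [e]
    exact dvd_mul_right _ _
  have hcop : (m.gcd (w * v₀ - w₀ * v).natAbs).Coprime (m.gcd (w * v₀ + w₀ * v).natAbs) := by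
    refine Nat.coprime_of_dvd fun p hp h1 h2 => ?_
    have hpm : p ∣ m := h1.trans (Nat.gcd_dvd_left _ _)
    have h3 : (p : ℤ) ∣ w * v₀ - w₀ * v := Int.natCast_dvd.2 (h1.trans (Nat.gcd_dvd_right _ _))
    have h4 : (p : ℤ) ∣ w * v₀ + w₀ * v := Int.natCast_dvd.2 (h2.trans (Nat.gcd_dvd_right _ _))
    have hprime : Prime (p : ℤ) := Nat.prime_iff_prime_int.1 hp
    have h5 : (p : ℤ) ∣ 2 * (w * v₀) := by
      have := dvd_add h3 h4
      have e : w * v₀ - w₀ * v + (w * v₀ + w₀ * v) = 2 * (w * v₀) := by ring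
      rwa [e] at this
    obtain ⟨hp2, hpD⟩ := hpp p hp hpm
    rcases hprime.dvd_or_dvd h5 with h6 | h6
    · have : p ∣ 2 := by exact_mod_cast h6
      exact hp2 ((Nat.prime_dvd_prime_iff_eq hp Nat.prime_two).1 this)
    · rcases hprime.dvd_or_dvd h6 with h7 | h7
      · exact (dg_np hp hpm hpD h hc).1 h7
      · exact (dg_np hp hpm hpD h₀ hc₀).2 h7
  set d := m.gcd (w * v₀ - w₀ * v).natAbs with hdef
  obtain ⟨f, hf⟩ : d ∣ m := Nat.gcd_dvd_left _ _
  have hd0 : 0 < d := Nat.gcd_pos_of_pos_left _ (Nat.pos_of_ne_zero hm)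
  have a1 : m ∣ d * m.gcd (w * v₀ + w₀ * v).natAbs := aux w v h
  have a2 : m ∣ d * m.gcd (w₁ * v₀ + w₀ * v₁).natAbs := by
    rw [hd]
    exact aux w₁ v₁ h₁
  have f1 : f ∣ m.gcd (w * v₀ + w₀ * v).natAbs := by
    have : d * f ∣ d * m.gcd (w * v₀ + w₀ * v).natAbs := by rw [← hf]; exact a1
    exact (Nat.mul_dvd_mul_iff_left hd0).1 this
  have f2 : f ∣ m.gcd (w₁ * v₀ + w₀ * v₁).natAbs := by
    have : d * f ∣ d * m.gcd (w₁ * v₀ + w₀ * v₁).natAbs := by rw [← hf]; exact a2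
    exact (Nat.mul_dvd_mul_iff_left hd0).1 this
  have hdf : d.Coprime f := Nat.Coprime.coprime_dvd_right f1 hcop
  have g1 : (d : ℤ) ∣ w * v₀ - w₀ * v := Int.natCast_dvd.2 (Nat.gcd_dvd_right _ _)
  have g2 : (d : ℤ) ∣ w₁ * v₀ - w₀ * v₁ := by
    refine Int.natCast_dvd.2 ?_
    rw [hd]
    exact Nat.gcd_dvd_right _ _
  have g3 : (f : ℤ) ∣ w * v₀ + w₀ * v := Int.natCast_dvd.2 (f1.trans (Nat.gcd_dvd_right _ _))
  have g4 : (f : ℤ) ∣ w₁ * v₀ + w₀ * v₁ := Int.natCast_dvd.2 (f2.trans (Nat.gcd_dvd_right _ _))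
  have k1 : (d : ℤ) ∣ v₀ * (w * v₁ - w₁ * v) := by
    have e : v₀ * (w * v₁ - w₁ * v) = v₁ * (w * v₀ - w₀ * v) - v * (w₁ * v₀ - w₀ * v₁) := by ring
    rw [e]
    exact dvd_sub (g1.mul_left _) (g2.mul_left _)
  have k2 : (f : ℤ) ∣ v₀ * (w * v₁ - w₁ * v) := by
    have e : v₀ * (w * v₁ - w₁ * v) = v₁ * (w * v₀ + w₀ * v) - v * (w₁ * v₀ + w₀ * v₁) := by ring
    rw [e]
    exact dvd_sub (g3.mul_left _) (g4.mul_left _)
  have k3 : m ∣ (v₀ * (w * v₁ - w₁ * v)).natAbs := by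
    have := Nat.Coprime.mul_dvd_of_dvd_of_dvd hdf (Int.natCast_dvd.1 k1) (Int.natCast_dvd.1 k2)
    rwa [← hf] at this
  have hmv : m.Coprime v₀.natAbs := by
    refine Nat.coprime_of_dvd fun p hp h1 h2 => ?_
    exact (dg_np hp h1 (hpp p hp h1).2 h₀ hc₀).2 (Int.natCast_dvd.2 h2)
  rw [Int.natAbs_mul] at k3
  exact Int.natCast_dvd.2 (hmv.dvd_of_dvd_mul_left k3)

private theorem dg_card (n K : ℕ) (hn : n ≠ 0) (hK : n.primeFactorsList.length ≤ K) :
    n.divisors.card ≤ 2 ^ K := by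
  rw [Nat.card_divisors hn]
  calc ∏ x ∈ n.primeFactors, (n.factorization x + 1)
      ≤ ∏ x ∈ n.primeFactors, 2 ^ (n.factorization x) :=
        Finset.prod_le_prod (fun _ _ => Nat.zero_le _) fun x _ => Nat.lt_two_pow_self
    _ = 2 ^ (∑ x ∈ n.primeFactors, n.factorization x) := by
        rw [Finset.prod_pow_eq_pow_sum]
    _ = 2 ^ n.primeFactorsList.length := by
        rw [← List.sum_toFinset_count_eq_length]
        simp only [Nat.primeFactorsList_count_eq]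
        rfl
    _ ≤ 2 ^ K := Nat.pow_le_pow_right (by norm_num) hK

theorem rep_le {q w0 v0 : ℕ} {D : ℤ} {N H a h n K : ℕ} (hG : Geo D N H a h) (hq : 2 ∣ q)
    (hw : w0.Coprime q) (hn1 : N < n) (hn2 : n ≤ N + H) (h8 : 8 * h ^ 2 < N)
    (hp : ∀ p : ℕ, p.Prime → p ∣ n → p ≠ 2 ∧ D.natAbs < p) (hD : D ≠ 0)
    (hK : n.primeFactorsList.length ≤ K) : rep q w0 v0 D a h n ≤ 4 ^ K := by
  classical
  have hn0 : n ≠ 0 := by omega
  have hpD : ∀ p : ℕ, p.Prime → p ∣ n → p ≠ 2 ∧ ¬ (p : ℤ) ∣ D := by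
    intro p hpp hpn
    refine ⟨(hp p hpp hpn).1, fun h1 => ?_⟩
    have h2 : p ∣ D.natAbs := Int.natCast_dvd.1 h1
    have h3 := Nat.le_of_dvd (Int.natAbs_pos.2 hD) h2
    have h4 := (hp p hpp hpn).2
    omega
  have hnodd : n % 2 = 1 := by
    by_contra hcon
    exact (hp 2 Nat.prime_two (Nat.dvd_of_mod_eq_zero (by omega))).1 rfl
  rw [rep]
  set S := (Ioc a (a + h)).filter fun v => v % (2 * q) = v0 % (2 * q) ∧
    ∃ w : ℕ, w % q = w0 % q ∧ (w : ℤ) ^ 2 = 4 * n + D * (v : ℤ) ^ 2 with hS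
  have hex : ∀ v : ℕ, ∃ w : ℕ, v ∈ S → w % q = w0 % q ∧ (w : ℤ) ^ 2 = 4 * n + D * (v : ℤ) ^ 2 := by
    intro v
    by_cases hv : v ∈ S
    · obtain ⟨w, h1⟩ := (mem_filter.1 hv).2.2
      exact ⟨w, fun _ => h1⟩
    · exact ⟨0, fun h1 => absurd h1 hv⟩
  choose w hw' using hex
  have hv0 : ∀ v ∈ S, 0 < v := fun v hv =>
    lt_of_le_of_lt (Nat.zero_le _) (mem_Ioc.1 (mem_filter.1 hv).1).1
  have hodd : ∀ v ∈ S, w v % 2 = 1 := by
    intro v hv
    obtain ⟨q', rfl⟩ := hq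
    by_contra hcon
    have hw0 : w v % 2 = 0 := by omega
    have h1 : w0 % 2 = 0 := by
      have e1 : w v % (2 * q') % 2 = w v % 2 := Nat.mod_mul_right_mod _ 2 q'
      have e2 : w0 % (2 * q') % 2 = w0 % 2 := Nat.mod_mul_right_mod w0 2 q'
      rw [← e2, ← (hw' v hv).1, e1, hw0]
    have h2 : 2 ∣ Nat.gcd w0 (2 * q') := Nat.dvd_gcd (Nat.dvd_of_mod_eq_zero h1) (Dvd.intro _ rfl)
    rw [hw] at h2
    omega
  have hvodd : ∀ v ∈ S, v % 2 = 1 := by
    intro v hv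
    by_contra hcon
    have h1 := hodd v hv
    have h2 := (hw' v hv).2
    have h3 : (2 : ℤ) ∣ (v : ℤ) := by omega
    have h4 : (2 : ℤ) ∣ (w v : ℤ) ^ 2 := by
      rw [h2]
      refine dvd_add ?_ ((dvd_pow h3 two_ne_zero).mul_left _)
      exact ⟨2 * n, by ring⟩
    have h5 : (2 : ℤ) ∣ (w v : ℤ) := Int.prime_two.dvd_of_dvd_pow h4
    omega
  have hsize : ∀ v ∈ S, 2 * (h : ℤ) < w v := by
    intro v hv
    have h1 := hG.lo v (mem_filter.1 hv).1
    have h2 := (hw' v hv).2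
    have h3 : (8 : ℤ) * (h : ℤ) ^ 2 < N := by exact_mod_cast h8
    have h4 : (N : ℤ) < n := by exact_mod_cast hn1
    have h5 : (0 : ℤ) ≤ w v := by positivity
    have h6 : (0 : ℤ) ≤ h := by positivity
    nlinarith
  set g : ℕ → ℕ := fun v => Nat.gcd (w v) v with hg
  have hgpos : ∀ v ∈ S, 0 < g v := fun v hv => Nat.gcd_pos_of_pos_right _ (hv0 v hv)
  -- the square of the gcd divides n
  have hgn : ∀ v ∈ S, g v ^ 2 ∣ n := by
    intro v hv
    have h1 : ((g v : ℕ) : ℤ) ^ 2 ∣ 4 * n := by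
      have h2 := (hw' v hv).2
      have h3 : (4 : ℤ) * n = (w v : ℤ) ^ 2 - D * (v : ℤ) ^ 2 := by rw [h2]; ring
      rw [h3]
      refine dvd_sub (pow_dvd_pow_of_dvd ?_ 2) ((pow_dvd_pow_of_dvd ?_ 2).mul_left _)
      · exact Int.natCast_dvd_natCast.2 (Nat.gcd_dvd_left _ _)
      · exact Int.natCast_dvd_natCast.2 (Nat.gcd_dvd_right _ _)
    have h4 : g v ^ 2 ∣ 4 * n := by exact_mod_cast h1
    have h5 : (g v ^ 2).Coprime 4 := by
      have h6 : (g v).Coprime 2 := by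
        rw [Nat.coprime_two_right, Nat.odd_iff]
        by_contra hcon
        have h7 : 2 ∣ g v := Nat.dvd_of_mod_eq_zero (by omega)
        have h8 : 2 ∣ w v := h7.trans (Nat.gcd_dvd_left _ _)
        have h9 := hodd v hv
        omega
      have h7 : (g v).Coprime (2 ^ 2) := h6.pow_right 2
      exact h7.pow_left 2
    exact h5.dvd_of_dvd_mul_left h4
  -- the primitive representation
  have hprim : ∀ v ∈ S, (((w v / g v : ℕ) : ℤ) ^ 2 = 4 * ((n / g v ^ 2 : ℕ) : ℤ) +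
      D * ((v / g v : ℕ) : ℤ) ^ 2) ∧ IsCoprime ((w v / g v : ℕ) : ℤ) ((v / g v : ℕ) : ℤ) ∧
      (w v : ℤ) = g v * ((w v / g v : ℕ) : ℤ) ∧ (v : ℤ) = g v * ((v / g v : ℕ) : ℤ) ∧
      (n : ℤ) = (g v : ℤ) ^ 2 * ((n / g v ^ 2 : ℕ) : ℤ) := by
    intro v hv
    have e1 : (w v : ℤ) = g v * ((w v / g v : ℕ) : ℤ) := by
      exact_mod_cast (Nat.mul_div_cancel' (Nat.gcd_dvd_left (w v) v)).symm
    have e2 : (v : ℤ) = g v * ((v / g v : ℕ) : ℤ) := by
      exact_mod_cast (Nat.mul_div_cancel' (Nat.gcd_dvd_right (w v) v)).symm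
    have e3 : (n : ℤ) = (g v : ℤ) ^ 2 * ((n / g v ^ 2 : ℕ) : ℤ) := by
      exact_mod_cast (Nat.mul_div_cancel' (hgn v hv)).symm
    refine ⟨?_, ?_, e1, e2, e3⟩
    · have h1 := (hw' v hv).2
      rw [e1, e3] at h1
      have h2 : (D * (v : ℤ) ^ 2) = (g v : ℤ) ^ 2 * (D * ((v / g v : ℕ) : ℤ) ^ 2) := by
        conv_lhs => rw [e2]
        ring
      rw [h2] at h1
      have h3 : (g v : ℤ) ^ 2 ≠ 0 := by
        have := hgpos v hv
        positivity
      apply mul_left_cancel₀ h3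
      linear_combination h1
    · exact_mod_cast Nat.isCoprime_iff_coprime.2 (Nat.coprime_div_gcd_div_gcd (hgpos v hv))
  set B : ℕ → ℕ := Function.invFunOn g (S : Set ℕ) with hB
  have hB1 : ∀ v ∈ S, B (g v) ∈ S ∧ g (B (g v)) = g v := by
    intro v hv
    have h1 : ∃ a ∈ (S : Set ℕ), g a = g v := ⟨v, hv, rfl⟩
    exact ⟨Function.invFunOn_mem h1, Function.invFunOn_eq h1⟩
  set F : ℕ → ℕ × ℕ := fun v => (g v, (n / g v ^ 2).gcd
    (((w v / g v : ℕ) : ℤ) * ((B (g v) / g v : ℕ) : ℤ) -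
      ((w (B (g v)) / g v : ℕ) : ℤ) * ((v / g v : ℕ) : ℤ)).natAbs) with hF
  have hcard : S.card ≤ (n.divisors ×ˢ n.divisors).card := by
    refine Finset.card_le_card_of_injOn F ?_ ?_
    · intro v hv
      have hv' : v ∈ S := hv
      have h1 : g v ∣ n := (dvd_pow_self _ two_ne_zero).trans (hgn v hv')
      simp only [hF, Finset.coe_product, Set.mem_prod, Finset.mem_coe, Nat.mem_divisors]
      exact ⟨⟨h1, hn0⟩, ⟨(Nat.gcd_dvd_left _ _).trans (Nat.div_dvd_of_dvd (hgn v hv')), hn0⟩⟩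
    · intro v hv x hx hvx
      have hv' : v ∈ S := hv
      have hx' : x ∈ S := hx
      simp only [hF, Prod.mk.injEq] at hvx
      obtain ⟨hg1, hg2⟩ := hvx
      rw [← hg1] at hg2
      obtain ⟨hz, hz2⟩ := hB1 v hv'
      set z := B (g v) with hzdef
      obtain ⟨p1, p2, p3, p4, p5⟩ := hprim v hv'
      obtain ⟨q1, q2, q3, q4, q5⟩ := hprim x hx'
      obtain ⟨r1, r2, r3, r4, r5⟩ := hprim z hz
      rw [← hg1] at q1 q2 q3 q4 q5
      rw [hz2] at r1 r2 r3 r4 r5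
      have hm0 : n / g v ^ 2 ≠ 0 := by
        intro h0
        rw [h0] at p5
        apply hn0
        exact_mod_cast (by rw [p5]; simp : (n : ℤ) = 0)
      have hdv : n / g v ^ 2 ∣ n := Nat.div_dvd_of_dvd (hgn v hv')
      have hkey := dg_key hm0 (fun p hpp hpm => hpD p hpp (hpm.trans hdv)) p1 p2 q1 q2 r1 r2 hg2
      have hn' : (n : ℤ) ∣ (w v : ℤ) * x - w x * v := by
        have e : (w v : ℤ) * x - w x * v = (g v : ℤ) ^ 2 *
            (((w v / g v : ℕ) : ℤ) * ((x / g v : ℕ) : ℤ) -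
              ((w x / g v : ℕ) : ℤ) * ((v / g v : ℕ) : ℤ)) := by
          rw [p3, q3]
          conv_lhs => rw [p4, q4]
          ring
        rw [e, p5]
        exact mul_dvd_mul_left _ hkey
      have h2 : (2 : ℤ) ∣ (w v : ℤ) * x - w x * v := by
        have a1 : (w v : ℤ) % 2 = 1 := by have := hodd v hv'; omega
        have a2 : (w x : ℤ) % 2 = 1 := by have := hodd x hx'; omega
        have a3 : (v : ℤ) % 2 = 1 := by have := hvodd v hv'; omega
        have a4 : (x : ℤ) % 2 = 1 := by have := hvodd x hx'; omega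
        apply Int.dvd_of_emod_eq_zero
        rw [Int.sub_emod, Int.mul_emod, a1, a4, Int.mul_emod (w x : ℤ), a2, a3]
        rfl
      have h2n : (2 * n : ℤ) ∣ (w v : ℤ) * x - w x * v := by
        refine IsCoprime.mul_dvd ?_ h2 hn'
        have : (2 : ℕ).Coprime n := by
          rw [Nat.coprime_two_left, Nat.odd_iff]
          exact hnodd
        exact_mod_cast Nat.isCoprime_iff_coprime.2 this
      obtain ⟨k, hk⟩ := h2n
      have hn0' : (0 : ℤ) < n := by exact_mod_cast Nat.pos_of_ne_zero hn0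
      have hQ : ((w v : ℤ) * x + w x * v) * k = 2 * ((x : ℤ) - v) * (x + v) := by
        have e1 : ((w v : ℤ) * x - w x * v) * ((w v : ℤ) * x + w x * v) =
            4 * n * ((x : ℤ) ^ 2 - v ^ 2) := by
          linear_combination ((x : ℤ) ^ 2) * (hw' v hv').2 - ((v : ℤ) ^ 2) * (hw' x hx').2
        rw [hk] at e1
        have h3 : (2 * n : ℤ) ≠ 0 := by positivity
        apply mul_left_cancel₀ h3
        linear_combination e1
      have s1 := hsize v hv'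
      have s2 := hsize x hx'
      have t1 := mem_Ioc.1 (mem_filter.1 hv').1
      have t2 := mem_Ioc.1 (mem_filter.1 hx').1
      have v1 : (0 : ℤ) < v := by exact_mod_cast hv0 v hv'
      have x1 : (0 : ℤ) < x := by exact_mod_cast hv0 x hx'
      have hQ2 : 2 * (h : ℤ) * (x + v) < (w v : ℤ) * x + w x * v := by nlinarith
      have d1 : (x : ℤ) - v ≤ h := by omega
      have d2 : (v : ℤ) - x ≤ h := by omega
      have hQ0 : (0 : ℤ) < (w v : ℤ) * x + w x * v := by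
        have : (0 : ℤ) ≤ 2 * (h : ℤ) * (x + v) := by positivity
        linarith
      have hk0 : k = 0 := by
        rcases lt_trichotomy k 0 with hk1 | hk1 | hk1
        · exfalso
          have b1 : (w v : ℤ) * x + w x * v ≤ -(((w v : ℤ) * x + w x * v) * k) := by nlinarith
          rw [hQ] at b1
          nlinarith
        · exact hk1
        · exfalso
          have b1 : (w v : ℤ) * x + w x * v ≤ ((w v : ℤ) * x + w x * v) * k := by nlinarith
          rw [hQ] at b1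
          nlinarith
      rw [hk0, mul_zero] at hQ
      have : (x : ℤ) - v = 0 := by
        rcases mul_eq_zero.1 hQ.symm with h3 | h3
        · linarith
        · linarith
      omega
  refine hcard.trans ?_
  rw [Finset.card_product]
  calc n.divisors.card * n.divisors.card ≤ 2 ^ K * 2 ^ K :=
        Nat.mul_le_mul (dg_card n K hn0 hK) (dg_card n K hn0 hK)
    _ = 4 ^ K := by
        rw [← mul_pow]
        norm_num

end Pool.Agent.Work.MP_43ce8a_nt.D
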