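import Pool.Agent.Work.MP_43ce8a_nt.D.ChD
import Pool.Agent.Work.MP_43ce8a_nt.D.QB

set_option autoImplicit false

/-!
Module PLow (size S-M). Upper bound for Lone, lower bound for Pz.

Lone_le: Lone_close with N = 4 |D|: Lone ≤ ∑_{n ≤ 4|D|} 1/n + 1 ≤ 2 + log(4|D|).
Pz_lower: for z > y, ∏_{p < z} (1 - chi/p) = ∏_{p ≤ y} (1 - chi/p) * Pz D y z and the left side tends
to 1/Lone ≥ 1/(2 + log(4|D|)), the first factor is positive and at most ∏_{p ≤ y} (1 + 1/p) =: M_y. So
for large z, Pz ≥ 1/(2 M_y (2 + log 4|D|)) ≥ c / (1 + log |D|), c = 1/(8 M_y) for instance.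
-/

namespace Pool.Agent.Work.MP_43ce8a_nt.D

open Finset Filter

theorem Lone_le (D : ℤ) (hD : Odd D) (hs : Squarefree D) (h1 : D ≠ 1) :
    Lone D ≤ 2 + Real.log (4 * D.natAbs) := by
  have h2 := Lone_close D hD hs h1 (4 * D.natAbs)
  have h3 : 4 * (D.natAbs : ℝ) / (((4 * D.natAbs : ℕ) : ℝ) + 1) ≤ 1 := by
    rw [div_le_one (by positivity)]
    push_cast; linarith
  have h4 : Pool.Agent.Work.MP_2dba45_nt.Mert.LL (chi D) (4 * D.natAbs) ≤
      1 + Real.log ((4 * D.natAbs : ℕ) : ℝ) := by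
    refine le_trans ?_ (harmonic_le_one_add_log (4 * D.natAbs))
    unfold Pool.Agent.Work.MP_2dba45_nt.Mert.LL
    rw [harmonic_eq_sum_Icc]
    push_cast
    have h5 : Ioc 0 (4 * D.natAbs) = Icc 1 (4 * D.natAbs) := by ext; simp; omega
    rw [h5]
    apply Finset.sum_le_sum
    intro n _
    rw [div_eq_mul_inv]
    calc chi D n * (n : ℝ)⁻¹ ≤ 1 * (n : ℝ)⁻¹ := by
          gcongr
          exact (abs_le.mp (chi_abs_le D n)).2
      _ = _ := one_mul _
  push_cast at h4
  have h5 := (abs_le.mp (h2.trans h3)).2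
  linarith

private theorem plw_factor (D : ℤ) {p : ℕ} (hp : 2 ≤ p) : 0 < 1 - chi D p / (p : ℝ) := by
  have hp1 : (2 : ℝ) ≤ p := by exact_mod_cast hp
  have h1 := (abs_le.mp (chi_abs_le D p)).2
  have : chi D p / (p : ℝ) ≤ 1 / 2 := by
    rw [div_le_div_iff₀ (by linarith) (by norm_num)]
    linarith
  linarith

theorem Pz_pos (D : ℤ) {y z : ℕ} (hy : 2 ≤ y) : 0 < Pz D y z := by
  unfold Pz
  apply Finset.prod_pos
  intro p hp
  unfold pr at hp
  rw [Finset.mem_filter, Finset.mem_Ioo] at hp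
  exact plw_factor D hp.2.two_le

theorem Wz_pos {y z : ℕ} (hy : 2 ≤ y) : 0 < Wz y z := by
  unfold Wz
  apply Finset.prod_pos
  intro p hp
  unfold pr at hp
  rw [Finset.mem_filter, Finset.mem_Ioo] at hp
  have hp1 : (2 : ℝ) ≤ p := by exact_mod_cast hp.2.two_le
  have : 1 / (p : ℝ) ≤ 1 / 2 := one_div_le_one_div_of_le (by norm_num) hp1
  linarith

theorem Pz_lower (y : ℕ) (hy : 2 ≤ y) : ∃ c : ℝ, 0 < c ∧ ∀ D : ℤ, Odd D → Squarefree D → D ≠ 1 →
    ∃ z₀ : ℕ, ∀ z : ℕ, z₀ ≤ z → c / (1 + Real.log D.natAbs) ≤ Pz D y z := by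
  set M : ℝ := ∏ p ∈ (range (y + 1)).filter Nat.Prime, (1 + 1 / (p : ℝ)) with hM
  have hMpos : 0 < M := by
    apply Finset.prod_pos
    intro p _
    positivity
  refine ⟨1 / (5 * M), by positivity, fun D hD hs h1 => ?_⟩
  have hD0 : D ≠ 0 := by rintro rfl; exact absurd hD (by decide)
  have hk0 : 0 < D.natAbs := Int.natAbs_pos.mpr hD0
  have hk1 : (1 : ℝ) ≤ D.natAbs := by exact_mod_cast hk0
  have hl0 : 0 ≤ Real.log D.natAbs := Real.log_nonneg hk1
  have hev : ∀ᶠ z in atTop, ∏ p ∈ (range z).filter Nat.Prime, (1 - chi D p / (p : ℝ))⁻¹ <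
      3 + Real.log (4 * D.natAbs) :=
    (euler_one D hD hs h1).eventually_lt_const (by linarith [Lone_le D hD hs h1])
  obtain ⟨z₁, hz₁⟩ := eventually_atTop.mp hev
  refine ⟨max z₁ (y + 1), fun z hz => ?_⟩
  have hzz1 : z₁ ≤ z := le_trans (le_max_left _ _) hz
  have hzy : y + 1 ≤ z := le_trans (le_max_right _ _) hz
  have h2 := hz₁ z hzz1
  rw [Finset.prod_inv_distrib] at h2
  have hlog4 : Real.log (4 * D.natAbs) ≤ 2 + Real.log D.natAbs := by
    rw [Real.log_mul (by norm_num) (by linarith)]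
    have : Real.log 4 = 2 * Real.log 2 := by
      rw [show (4 : ℝ) = 2 ^ 2 by norm_num, Real.log_pow]; norm_num
    linarith [Real.log_two_lt_d9]
  have hsplit : ∏ p ∈ (range z).filter Nat.Prime, (1 - chi D p / (p : ℝ)) =
      (∏ p ∈ (range (y + 1)).filter Nat.Prime, (1 - chi D p / (p : ℝ))) * Pz D y z := by
    unfold Pz pr
    rw [← Finset.prod_union]
    · apply Finset.prod_congr _ (fun _ _ => rfl)
      ext p
      simp only [Finset.mem_filter, Finset.mem_union, Finset.mem_range, Finset.mem_Ioo]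
      constructor
      · rintro ⟨ha, hb⟩
        rcases Nat.lt_or_ge p (y + 1) with h | h
        · exact Or.inl ⟨h, hb⟩
        · exact Or.inr ⟨⟨by omega, ha⟩, hb⟩
      · rintro (⟨ha, hb⟩ | ⟨⟨ha, hc⟩, hb⟩)
        · exact ⟨by omega, hb⟩
        · exact ⟨hc, hb⟩
    · rw [Finset.disjoint_left]
      intro p hp hp2
      simp only [Finset.mem_filter, Finset.mem_range, Finset.mem_Ioo] at hp hp2
      omega
  have hApos : 0 < ∏ p ∈ (range (y + 1)).filter Nat.Prime, (1 - chi D p / (p : ℝ)) := by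
    apply Finset.prod_pos
    intro p hp
    exact plw_factor D (Finset.mem_filter.mp hp).2.two_le
  have hAle : ∏ p ∈ (range (y + 1)).filter Nat.Prime, (1 - chi D p / (p : ℝ)) ≤ M := by
    apply Finset.prod_le_prod
    · intro p hp
      exact (plw_factor D (Finset.mem_filter.mp hp).2.two_le).le
    · intro p hp
      have hp0 : (0 : ℝ) < p := by exact_mod_cast (Finset.mem_filter.mp hp).2.pos
      have h3 := (abs_le.mp (chi_abs_le D p)).1
      have : -(1 / (p : ℝ)) ≤ chi D p / (p : ℝ) := by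
        rw [← neg_div]
        exact div_le_div_of_nonneg_right h3 hp0.le
      linarith
  have hPz := Pz_pos D (z := z) hy
  rw [hsplit] at h2
  set A := ∏ p ∈ (range (y + 1)).filter Nat.Prime, (1 - chi D p / (p : ℝ)) with hA
  have h3 : 1 ≤ (3 + Real.log (4 * D.natAbs)) * (A * Pz D y z) := by
    have hpos : 0 < A * Pz D y z := by positivity
    rw [inv_eq_one_div, div_lt_iff₀ hpos] at h2
    exact h2.le
  rw [div_le_iff₀ (by positivity), div_le_iff₀ (by positivity)]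
  have h4 : 3 + Real.log (4 * D.natAbs) ≤ 5 * (1 + Real.log D.natAbs) := by linarith
  have h5 : A * Pz D y z ≤ M * Pz D y z := mul_le_mul_of_nonneg_right hAle hPz.le
  have h6 : 0 ≤ A * Pz D y z := by positivity
  calc (1 : ℝ) ≤ (3 + Real.log (4 * D.natAbs)) * (A * Pz D y z) := h3
    _ ≤ (5 * (1 + Real.log D.natAbs)) * (M * Pz D y z) := by
        apply mul_le_mul h4 h5 h6 (by positivity)
    _ = Pz D y z * (1 + Real.log ↑D.natAbs) * (5 * M) := by ring

end Pool.Agent.Work.MP_43ce8a_nt.D
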