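import Pool.Agent.Work.MP_43ce8a_nt.D.ChA
import Pool.Agent.Work.MP_43ce8a_nt.D.QB

set_option autoImplicit false

/-!
Module TqL (size M). The series Tq.

Tq_summable: terms bounded by 1/e². Tq_prime: for a prime p ∤ q split the e prime to q into those prime
to p and those e = p e' (μ(p e') = - μ(e') if p ∤ e', else 0):
Tq D q = Tq D (q p) - chi p / p² * Tq D (q p). Tq_mul by induction over the prime factors of d.
Tq_pos: Tq ≥ 1 - ∑_{e ≥ 2} 1/e² > 0 (∑_{e ≥ 2} 1/e² ≤ 1/4 + 1/9 + ∑_{e ≥ 4} 1/(e(e-1)) = 0.7).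
Tq_le: Tq_mul with d = ∏ pr y z: an e prime to q d, e ≠ 1, has all its prime factors ≥ z, so e ≥ z:
Tq D (q d) ≤ 1 + ∑_{e ≥ z} 1/e² ≤ 1 + 2/z (also Tq_abs_le with tails is useful: HSum).
Tq_tail: the terms e > E contribute at most 2/E.
-/

namespace Pool.Agent.Work.MP_43ce8a_nt.D

open Finset

private noncomputable def tqF (D : ℤ) (q e : ℕ) : ℝ :=
  if e.Coprime q then chi D e * (ArithmeticFunction.moebius e : ℝ) / (e : ℝ) ^ 2 else 0

private theorem tq_abs_mu (e : ℕ) : |(ArithmeticFunction.moebius e : ℝ)| ≤ 1 := by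
  have h := ArithmeticFunction.abs_moebius_le_one (n := e)
  exact_mod_cast h

private theorem tqF_abs (D : ℤ) (q e : ℕ) : |tqF D q e| ≤ 1 / (e : ℝ) ^ 2 := by
  unfold tqF
  split_ifs
  · rw [abs_div, abs_mul, abs_of_nonneg (by positivity : (0 : ℝ) ≤ (e : ℝ) ^ 2)]
    gcongr
    calc |chi D e| * |(ArithmeticFunction.moebius e : ℝ)| ≤ 1 * 1 :=
          mul_le_mul (chi_abs_le D e) (tq_abs_mu e) (abs_nonneg _) zero_le_one
      _ = 1 := one_mul 1
  · rw [abs_zero]
    positivity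

private theorem tqF_summable (D : ℤ) (q : ℕ) : Summable (tqF D q) := by
  refine Summable.of_norm_bounded (g := fun e : ℕ => 1 / (e : ℝ) ^ 2)
    (Real.summable_one_div_nat_pow.2 (by norm_num)) fun e => ?_
  rw [Real.norm_eq_abs]
  exact tqF_abs D q e

theorem Tq_summable (D : ℤ) (q : ℕ) : Summable fun e : ℕ =>
    if e.Coprime q then chi D e * (ArithmeticFunction.moebius e : ℝ) / (e : ℝ) ^ 2 else 0 :=
  tqF_summable D q

private theorem tq_tele (E n : ℕ) (hE : 1 ≤ E) :
    ∑ i ∈ range n, 1 / ((i + (E + 1) : ℕ) : ℝ) ^ 2 ≤ 1 / (E : ℝ) - 1 / ((E + n : ℕ) : ℝ) := by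
  induction n with
  | zero => simp
  | succ n ih =>
    rw [sum_range_succ]
    have h1 : (0 : ℝ) < ((E + n : ℕ) : ℝ) := by exact_mod_cast (by omega : 0 < E + n)
    have h2 : (0 : ℝ) < ((n + (E + 1) : ℕ) : ℝ) := by positivity
    have h3 : ((n + (E + 1) : ℕ) : ℝ) = ((E + n : ℕ) : ℝ) + 1 := by push_cast; ring
    have h4 : ((E + (n + 1) : ℕ) : ℝ) = ((E + n : ℕ) : ℝ) + 1 := by push_cast; ring
    rw [h3, h4]
    set x : ℝ := ((E + n : ℕ) : ℝ)
    have h5 : 1 / (x + 1) ^ 2 ≤ 1 / x - 1 / (x + 1) := by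
      rw [div_sub_div _ _ h1.ne' (by positivity), div_le_div_iff₀ (by positivity) (by positivity)]
      nlinarith
    linarith

private theorem tq_eq (D : ℤ) (q : ℕ) : Tq D q = ∑' e, tqF D q e := rfl

private theorem tq_zero (D : ℤ) (q : ℕ) : tqF D q 0 = 0 := by simp [tqF]

private theorem tq_range (D : ℤ) (q E : ℕ) :
    ∑ e ∈ range (E + 1), tqF D q e = ∑ e ∈ Ioc 0 E, tqF D q e := by
  have e1 : range (E + 1) = insert 0 (Ioc 0 E) := by
    ext x
    simp only [mem_range, mem_insert, mem_Ioc]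
    omega
  rw [e1, sum_insert (by simp), tq_zero, zero_add]

private theorem tq_sum2 (E : ℕ) : Summable fun i : ℕ => 1 / ((i + (E + 1) : ℕ) : ℝ) ^ 2 :=
  (summable_nat_add_iff (f := fun i : ℕ => 1 / (i : ℝ) ^ 2) (E + 1)).2
    (Real.summable_one_div_nat_pow.2 (by norm_num : 1 < 2))

private theorem tq_tsum2 (E : ℕ) (hE : 1 ≤ E) :
    ∑' i : ℕ, 1 / ((i + (E + 1) : ℕ) : ℝ) ^ 2 ≤ 1 / (E : ℝ) := by
  refine Real.tsum_le_of_sum_range_le (fun n => by positivity) fun n => ?_
  refine (tq_tele E n hE).trans ?_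
  have : 0 ≤ 1 / ((E + n : ℕ) : ℝ) := by positivity
  linarith

private theorem tq_tsum3 (D : ℤ) (q E : ℕ) :
    ‖∑' i : ℕ, tqF D q (i + (E + 1))‖ ≤ ∑' i : ℕ, 1 / ((i + (E + 1) : ℕ) : ℝ) ^ 2 := by
  refine tsum_of_norm_bounded (tq_sum2 E).hasSum fun i => ?_
  rw [Real.norm_eq_abs]
  exact tqF_abs D q (i + (E + 1))

private theorem tq_split (D : ℤ) (q E : ℕ) :
    Tq D q - ∑ e ∈ Ioc 0 E, tqF D q e = ∑' i : ℕ, tqF D q (i + (E + 1)) := by
  have h1 := (tqF_summable D q).sum_add_tsum_nat_add (E + 1)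
  rw [tq_eq, ← h1, tq_range, add_sub_cancel_left]

private theorem tq_tail1 (D : ℤ) (q E : ℕ) (hE : 1 ≤ E) :
    |Tq D q - ∑ e ∈ Ioc 0 E, tqF D q e| ≤ 1 / (E : ℝ) := by
  rw [tq_split, ← Real.norm_eq_abs]
  exact (tq_tsum3 D q E).trans (tq_tsum2 E hE)

theorem Tq_tail (D : ℤ) (q E : ℕ) (hE : 1 ≤ E) :
    |Tq D q - ∑ e ∈ Ioc 0 E,
      if e.Coprime q then chi D e * (ArithmeticFunction.moebius e : ℝ) / (e : ℝ) ^ 2 else 0| ≤
      2 / (E : ℝ) := by
  refine (tq_tail1 D q E hE).trans ?_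
  gcongr
  norm_num

private theorem tq_prime (D : ℤ) (q p : ℕ) (hp : p.Prime) (hpq : ¬ p ∣ q) :
    Tq D (q * p) * (1 - chi D p / (p : ℝ) ^ 2) = Tq D q := by
  have hp0 : (p : ℝ) ≠ 0 := by exact_mod_cast hp.ne_zero
  have h1 : ∀ e, tqF D q e = tqF D (q * p) e + (if p ∣ e then tqF D q e else 0) := by
    intro e
    by_cases h : p ∣ e
    · rw [if_pos h]
      have : tqF D (q * p) e = 0 := by
        unfold tqF
        rw [if_neg]
        intro hc
        have := Nat.Coprime.coprime_dvd_left h (Nat.Coprime.coprime_mul_left_right hc)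
        rw [Nat.coprime_self] at this
        exact hp.one_lt.ne' this
      rw [this, zero_add]
    · rw [if_neg h, add_zero]
      unfold tqF
      have hc : e.Coprime p := ((Nat.Prime.coprime_iff_not_dvd hp).2 h).symm
      by_cases hq : e.Coprime q
      · rw [if_pos hq, if_pos (Nat.Coprime.mul_right hq hc)]
      · rw [if_neg hq, if_neg fun h' => hq (Nat.Coprime.coprime_mul_right_right h')]
  have h2 : ∀ e, tqF D q (p * e) = -(chi D p / (p : ℝ) ^ 2) * tqF D (q * p) e := by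
    intro e
    unfold tqF
    by_cases hc : e.Coprime (q * p)
    · have hcq : e.Coprime q := Nat.Coprime.coprime_mul_right_right hc
      have hcp : e.Coprime p := Nat.Coprime.coprime_mul_left_right hc
      have hpq' : p.Coprime q := (Nat.Prime.coprime_iff_not_dvd hp).2 hpq
      rw [if_pos hc, if_pos (Nat.Coprime.mul_left hpq' hcq), chi_mul,
        ArithmeticFunction.isMultiplicative_moebius.map_mul_of_coprime hcp.symm,
        ArithmeticFunction.moebius_apply_prime hp]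
      push_cast
      ring
    · rw [if_neg hc, mul_zero]
      split_ifs with h3
      · have hcq : e.Coprime q := Nat.Coprime.coprime_mul_left h3
        have hpe : p ∣ e := by
          by_contra h
          exact hc (Nat.Coprime.mul_right hcq ((Nat.Prime.coprime_iff_not_dvd hp).2 h).symm)
        have hns : ¬ Squarefree (p * e) := by
          intro hsq
          have := hsq p (Nat.mul_dvd_mul_left p hpe)
          exact hp.one_lt.ne' (Nat.isUnit_iff.1 this)
        rw [ArithmeticFunction.moebius_eq_zero_of_not_squarefree hns]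
        simp
      · rfl
  have hs2 : Summable fun e => if p ∣ e then tqF D q e else 0 := by
    have : (fun e => if p ∣ e then tqF D q e else 0) = fun e => tqF D q e - tqF D (q * p) e := by
      funext e
      have := h1 e
      linarith
    rw [this]
    exact (tqF_summable D q).sub (tqF_summable D (q * p))
  have h3 : Tq D q = Tq D (q * p) + ∑' e, (if p ∣ e then tqF D q e else 0) := by
    have : Tq D q = ∑' e, (tqF D (q * p) e + (if p ∣ e then tqF D q e else 0)) :=
      tsum_congr h1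
    rw [this, (tqF_summable D (q * p)).tsum_add hs2]
    rfl
  have h4 : ∑' e, (if p ∣ e then tqF D q e else 0) =
      -(chi D p / (p : ℝ) ^ 2) * Tq D (q * p) := by
    have hinj : Function.Injective fun e : ℕ => p * e := fun a b h =>
      Nat.eq_of_mul_eq_mul_left hp.pos h
    rw [← hinj.tsum_eq (f := fun e => if p ∣ e then tqF D q e else 0)]
    · have : ∀ e, (if p ∣ p * e then tqF D q (p * e) else 0) =
          -(chi D p / (p : ℝ) ^ 2) * tqF D (q * p) e := by
        intro e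
        rw [if_pos (Dvd.intro e rfl), h2]
      rw [tsum_congr this, tsum_mul_left]
      rfl
    · intro e he
      rw [Function.mem_support] at he
      by_cases h : p ∣ e
      · obtain ⟨k, rfl⟩ := h
        exact ⟨k, rfl⟩
      · exact absurd (if_neg h) he
  rw [h3, h4]
  ring

private theorem tq_finset (D : ℤ) (q : ℕ) (S : Finset ℕ) (hS : ∀ p ∈ S, p.Prime ∧ ¬ p ∣ q) :
    Tq D (q * ∏ p ∈ S, p) * ∏ p ∈ S, (1 - chi D p / (p : ℝ) ^ 2) = Tq D q := by
  induction S using Finset.induction_on with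
  | empty => simp
  | insert a s ha ih =>
    have hs : ∀ p ∈ s, p.Prime ∧ ¬ p ∣ q := fun p hp => hS p (mem_insert_of_mem hp)
    have hpa := hS a (mem_insert_self _ _)
    rw [prod_insert ha, prod_insert ha]
    have hnd : ¬ a ∣ q * ∏ p ∈ s, p := by
      rw [Nat.Prime.dvd_mul hpa.1]
      rintro (h | h)
      · exact hpa.2 h
      · obtain ⟨r, hr, har⟩ := (Prime.dvd_finsetProd_iff hpa.1.prime _).1 h
        have := (Nat.prime_dvd_prime_iff_eq hpa.1 (hs r hr).1).1 har
        rw [this] at ha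
        exact ha hr
    have h1 := tq_prime D (q * ∏ p ∈ s, p) a hpa.1 hnd
    rw [← ih hs, ← h1, ← mul_assoc]
    have e1 : q * (a * ∏ p ∈ s, p) = q * (∏ p ∈ s, p) * a := by ring
    rw [e1]

theorem Tq_mul (D : ℤ) (q d : ℕ) (hq : 0 < q) (hd : Squarefree d) (hdq : d.Coprime q) :
    Tq D (q * d) * ∏ p ∈ d.primeFactors, (1 - chi D p / (p : ℝ) ^ 2) = Tq D q := by
  have h1 := tq_finset D q d.primeFactors fun p hp => by
    have hpp := Nat.prime_of_mem_primeFactors hp
    refine ⟨hpp, fun h => ?_⟩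
    have hpd := Nat.dvd_of_mem_primeFactors hp
    have := Nat.dvd_gcd hpd h
    rw [hdq] at this
    exact hpp.one_lt.ne' (Nat.dvd_one.1 this)
  rwa [Nat.prod_primeFactors_of_squarefree hd] at h1

private theorem tqF_one (D : ℤ) (q : ℕ) : tqF D q 1 = 1 := by
  unfold tqF
  rw [if_pos (Nat.coprime_one_left q), chi_one]
  simp

theorem Tq_pos (D : ℤ) (q : ℕ) (hq : 0 < q) : 0 < Tq D q := by
  have h1 := tq_tail1 D q 2 (by norm_num)
  have h2 : ∑ e ∈ Ioc 0 2, tqF D q e = 1 := by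
    have e1 : Ioc 0 2 = ({1, 2} : Finset ℕ) := by decide
    rw [e1, sum_pair (by norm_num), tqF_one]
    have : tqF D q 2 = 0 := by
      unfold tqF
      rw [chi_even D (by norm_num : 2 % 2 = 0)]
      simp
    rw [this, add_zero]
  rw [h2, abs_le] at h1
  have := h1.1
  norm_num at this
  linarith

theorem Tq_le (D : ℤ) (y z : ℕ) (hy : 2 ≤ y) (hz : y < z) :
    Tq D (qq y) ≤ (1 + 4 / (z : ℝ)) * ∏ p ∈ pr y z, (1 - chi D p / (p : ℝ) ^ 2) := by
  have hpr : ∀ p ∈ pr y z, p.Prime := fun p hp => (mem_pr.1 hp).2.2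
  have hsq := prod_squarefree hpr
  have hco := prod_coprime (z := z) hy (Finset.Subset.refl (pr y z))
  have h1 := Tq_mul D (qq y) (∏ p ∈ pr y z, p) (qq_pos y) hsq.1 hco
  rw [hsq.2] at h1
  rw [← h1]
  have hnn : 0 ≤ ∏ p ∈ pr y z, (1 - chi D p / (p : ℝ) ^ 2) := by
    refine prod_nonneg fun p hp => ?_
    have hp1 : (1 : ℝ) ≤ (p : ℝ) ^ 2 := by
      have : (1 : ℝ) ≤ p := by exact_mod_cast (hpr p hp).one_lt.le
      nlinarith
    have hc := (abs_le.1 (chi_abs_le D p)).2
    have : chi D p / (p : ℝ) ^ 2 ≤ 1 := by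
      rw [div_le_one (by positivity)]
      linarith
    linarith
  refine mul_le_mul_of_nonneg_right ?_ hnn
  have h2 := tq_tail1 D (qq y * ∏ p ∈ pr y z, p) (z - 1) (by omega)
  have h3 : ∑ e ∈ Ioc 0 (z - 1), tqF D (qq y * ∏ p ∈ pr y z, p) e = 1 := by
    rw [← tqF_one D (qq y * ∏ p ∈ pr y z, p)]
    refine sum_eq_single_of_mem 1 (by rw [mem_Ioc]; omega) fun e he hne => ?_
    rw [mem_Ioc] at he
    unfold tqF
    rw [if_neg]
    intro hc
    have hmp : e.minFac.Prime := Nat.minFac_prime hne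
    have hmd := Nat.minFac_dvd e
    have hml : e.minFac ≤ e := Nat.minFac_le (by omega)
    have hnd : ¬ e.minFac ∣ qq y * ∏ p ∈ pr y z, p := by
      intro h
      have := Nat.dvd_gcd hmd h
      rw [hc] at this
      exact hmp.one_lt.ne' (Nat.dvd_one.1 this)
    by_cases hle : e.minFac ≤ y
    · exact hnd (Dvd.dvd.mul_right ((prime_dvd_qq hy hmp).2 hle) _)
    · exact hnd (Dvd.dvd.mul_left (dvd_prod_of_mem (fun p => p)
        (mem_pr.2 ⟨by omega, by omega, hmp⟩)) _)
  rw [h3, abs_le] at h2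
  have hz1 : ((z - 1 : ℕ) : ℝ) = (z : ℝ) - 1 := by
    rw [Nat.cast_sub (by omega)]
    simp
  have hz2 : (3 : ℝ) ≤ z := by exact_mod_cast (by omega : 3 ≤ z)
  have h4 : 1 / ((z - 1 : ℕ) : ℝ) ≤ 4 / (z : ℝ) := by
    rw [hz1, div_le_div_iff₀ (by linarith) (by linarith)]
    linarith
  linarith [h2.2]

end Pool.Agent.Work.MP_43ce8a_nt.D
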