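import Pool.Agent.Work.MP_43ce8a_nt.D.PmDefs
import Pool.Agent.Work.MP_43ce8a_nt.D.PLow
import Pool.Agent.Work.MP_43ce8a_nt.D.TqL

set_option autoImplicit false

/-!
Module Ec (size M-L). Comparison of the Euler products. D ≠ D' fixed (GoodD), g = gcd, A = D/g, A' = D'/g,
χ p = chi D p, χ' p = chi D' p, ψ p = chi (A A') p.

PROOF. Gc = Lone(A A') ∏_{p ∣ q} (1 - ψ p / p) Tq(A A', q). By euler_one, Lone(A A') times
∏_{p < z} (1 - ψ p / p) tends to 1, so for z ≥ z₀ : Lone ∏_{p ∣ q} (1 - ψ/p) ≤ (1 + ε/4)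
∏_{p ∈ pr y z} (1 - ψ p/p)⁻¹ (the prime factors of q are the primes ≤ y), and Tq ≤ (1 + 4/z)
∏_{pr} (1 - ψ p / p²) (Tq_le). So it remains to compare, prime by prime for p ∈ pr y z (p > y ≥ 12),
 L p = (1 - ψ/p)⁻¹ (1 - ψ/p²) (1 - gp p [χ = χ' = 1]) and R p = (1 - 1/p)(1 - χ/p)(1 - χ'/p).
If p ∤ D D' then ψ = χ χ' and: (χ = χ' = 1) L = 1 - 3/p + 12/p² - 8/p³, R = (1 - 1/p)³;
(χ χ' = -1) L = (1 + 1/p²)/(1 + 1/p), R = (1 - 1/p)(1 - 1/p²); (χ = χ' = -1) L = 1 + 1/p,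
R = (1 - 1/p²)(1 + 1/p). In all cases L ≤ (1 + 14/p²) R. If p ∣ D D': one of χ, χ' is 0,
R ≥ (1 - 1/p)², L ≤ 1 + 1/p, so L ≤ (1 + 5/p) R. Hence
∏ L ≤ ∏_{p ∣ D D'} (1 + 5/p) * ∏_{p > y} (1 + 14/p²) * ∏ R, and ∏_{p > y}(1 + 14/p²) ≤
exp(∑_{n > y} 14/n²) ≤ exp(14/y) ≤ 1 + 30/y for y ≥ 20.
-/

namespace Pool.Agent.Work.MP_43ce8a_nt.D

open Finset Filter

private theorem ec_gp {p : ℕ} (hp : 2 ≤ p) : gp p =
    4 * (1 / (p : ℝ)) * (1 - 2 * (1 / (p : ℝ))) * (1 - 1 / (p : ℝ)) / (1 + 1 / (p : ℝ)) := by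
  have h0 : (0 : ℝ) < p := by exact_mod_cast (by omega : 0 < p)
  unfold gp
  field_simp

private theorem ec_pp (u : ℝ) (hu : 0 < u) (hu2 : u ≤ 1 / 20) :
    (1 - 1 * u)⁻¹ * (1 - 1 * u ^ 2) * (1 - 4 * u * (1 - 2 * u) * (1 - u) / (1 + u)) ≤
      (1 + 14 * u ^ 2) * ((1 - u) * (1 - 1 * u) * (1 - 1 * u)) := by
  have h1 : (1 - 1 * u)⁻¹ * (1 - 1 * u ^ 2) * (1 - 4 * u * (1 - 2 * u) * (1 - u) / (1 + u)) =
      1 - 3 * u + 12 * u ^ 2 - 8 * u ^ 3 := by
    have h2 : 1 - u ≠ 0 := by linarith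
    have h3 : 1 + u ≠ 0 := by linarith
    have h4 : 1 - 1 * u ≠ 0 := by linarith
    field_simp
    ring
  rw [h1]
  have h5 : 0 ≤ u ^ 2 := sq_nonneg u
  nlinarith [mul_nonneg h5 hu.le, mul_nonneg h5 (sub_nonneg.mpr hu2), mul_nonneg h5 h5,
    mul_nonneg (mul_nonneg h5 hu.le) (sub_nonneg.mpr hu2)]

private theorem ec_pm (u : ℝ) (hu : 0 < u) (hu2 : u ≤ 1 / 20) :
    (1 - (-1) * u)⁻¹ * (1 - (-1) * u ^ 2) ≤
      (1 + 14 * u ^ 2) * ((1 - u) * (1 - 1 * u) * (1 - (-1) * u)) := by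
  rw [inv_mul_le_iff₀ (by linarith)]
  have h5 : 0 ≤ u ^ 2 := sq_nonneg u
  have h6 : u ^ 2 ≤ 1 / 400 := by nlinarith
  have h7 : (1 - (-1) * u) * ((1 + 14 * u ^ 2) * ((1 - u) * (1 - 1 * u) * (1 - (-1) * u))) =
    (1 + 14 * u ^ 2) * (1 - u ^ 2) ^ 2 := by ring
  rw [h7]
  nlinarith [mul_nonneg h5 h5, mul_nonneg h5 (sub_nonneg.mpr h6), mul_nonneg (mul_nonneg h5 h5) h5]

private theorem ec_mm (u : ℝ) (hu : 0 < u) (hu2 : u ≤ 1 / 20) :
    (1 - 1 * u)⁻¹ * (1 - 1 * u ^ 2) ≤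
      (1 + 14 * u ^ 2) * ((1 - u) * (1 - (-1) * u) * (1 - (-1) * u)) := by
  rw [inv_mul_le_iff₀ (by linarith)]
  have h5 : 0 ≤ u ^ 2 := sq_nonneg u
  have h6 : u ^ 2 ≤ 1 / 400 := by nlinarith
  have h7 : (1 - 1 * u) * ((1 + 14 * u ^ 2) * ((1 - u) * (1 - (-1) * u) * (1 - (-1) * u))) =
    (1 + 14 * u ^ 2) * (1 - u ^ 2) ^ 2 := by ring
  rw [h7]
  nlinarith [mul_nonneg h5 h5, mul_nonneg h5 (sub_nonneg.mpr h6), mul_nonneg (mul_nonneg h5 h5) h5]

private theorem ec_left (u s : ℝ) (hu : 0 < u) (hu2 : u ≤ 1 / 20) (hs : s = 0 ∨ s = 1 ∨ s = -1) :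
    (1 - s * u)⁻¹ * (1 - s * u ^ 2) ≤ 1 + u := by
  rcases hs with rfl | rfl | rfl
  · simp; linarith
  · rw [inv_mul_le_iff₀ (by linarith)]; nlinarith
  · rw [inv_mul_le_iff₀ (by linarith)]; nlinarith

private theorem ec_zero (u s c c' : ℝ) (hu : 0 < u) (hu2 : u ≤ 1 / 20)
    (hs : s = 0 ∨ s = 1 ∨ s = -1) (hc : c = 0 ∨ c = 1 ∨ c = -1) (hc' : c' = 0 ∨ c' = 1 ∨ c' = -1)
    (h0 : c = 0 ∨ c' = 0) :
    (1 - s * u)⁻¹ * (1 - s * u ^ 2) ≤ (1 + 5 * u) * ((1 - u) * (1 - c * u) * (1 - c' * u)) := by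
  refine (ec_left u s hu hu2 hs).trans ?_
  have h1 : 1 + u ≤ (1 + 5 * u) * ((1 - u) * (1 - u)) := by nlinarith [mul_pos hu hu]
  refine h1.trans ?_
  have h2 : (0 : ℝ) ≤ (1 + 5 * u) * (1 - u) := by nlinarith
  have h3 : 1 - u ≤ (1 - c * u) * (1 - c' * u) := by
    rcases h0 with rfl | rfl
    · rcases hc' with rfl | rfl | rfl <;> nlinarith
    · rcases hc with rfl | rfl | rfl <;> nlinarith
  calc (1 + 5 * u) * ((1 - u) * (1 - u)) = ((1 + 5 * u) * (1 - u)) * (1 - u) := by ring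
    _ ≤ ((1 + 5 * u) * (1 - u)) * ((1 - c * u) * (1 - c' * u)) := mul_le_mul_of_nonneg_left h3 h2
    _ = _ := by ring

private theorem ec_chi_mul (D D' : ℤ) {p : ℕ} (hp : p.Prime) (h2 : p ≠ 2)
    (hpD : ¬ (p : ℤ) ∣ D) :
    chi ((D / Int.gcd D D') * (D' / Int.gcd D D')) p = chi D p * chi D' p := by
  set g : ℤ := ((Int.gcd D D' : ℕ) : ℤ) with hg
  have e1 : D / g * g = D := Int.ediv_mul_cancel (Int.gcd_dvd_left ..)
  have e2 : D' / g * g = D' := Int.ediv_mul_cancel (Int.gcd_dvd_right ..)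
  have h3 : chi D p = chi (D / g) p * chi g p := by
    rw [← chi_left, e1]
  have h4 : chi D' p = chi (D' / g) p * chi g p := by
    rw [← chi_left, e2]
  have h5 : chi D p ≠ 0 := fun h => hpD ((chi_eq_zero_iff D hp h2).mp h)
  have h6 : chi g p * chi g p = 1 := by
    rcases chi_cases g p with h | h | h
    · rw [h3, h, mul_zero] at h5; exact absurd rfl h5
    · rw [h]; norm_num
    · rw [h]; norm_num
  rw [chi_left, h3, h4]
  calc chi (D / g) p * chi (D' / g) p = chi (D / g) p * chi (D' / g) p * 1 := by ring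
    _ = chi (D / g) p * chi (D' / g) p * (chi g p * chi g p) := by rw [h6]
    _ = _ := by ring

/-- the left factor -/
private noncomputable def ecL (D D' : ℤ) (s : ℝ) (p : ℕ) : ℝ :=
  (1 - s * (1 / (p : ℝ)))⁻¹ * (1 - s * (1 / (p : ℝ)) ^ 2) *
    (if chi D p = 1 ∧ chi D' p = 1 then 1 - gp p else 1)

private theorem ec_gp_le {p : ℕ} (hp : 20 ≤ p) : 0 ≤ 1 - gp p := by
  have h0 : (0 : ℝ) < p := by exact_mod_cast (by omega : 0 < p)
  have h20 : (20 : ℝ) ≤ p := by exact_mod_cast hp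
  unfold gp
  rw [sub_nonneg, div_le_one (by positivity)]
  nlinarith [mul_pos h0 h0]

private theorem ec_factor (D D' : ℤ) {p : ℕ} (hp : p.Prime) (h20 : 20 ≤ p) :
    ecL D D' (chi ((D / Int.gcd D D') * (D' / Int.gcd D D')) p) p ≤
      (if (p : ℤ) ∣ D * D' then 1 + 5 / (p : ℝ) else 1 + 14 / (p : ℝ) ^ 2) *
        ((1 - 1 / (p : ℝ)) * (1 - chi D p / (p : ℝ)) * (1 - chi D' p / (p : ℝ))) := by
  have h0 : (0 : ℝ) < p := by exact_mod_cast (by omega : 0 < p)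
  have hp20 : (20 : ℝ) ≤ p := by exact_mod_cast h20
  have h2 : p ≠ 2 := by omega
  set u : ℝ := 1 / (p : ℝ) with hu
  have hu0 : 0 < u := by positivity
  have hu1 : u ≤ 1 / 20 := one_div_le_one_div_of_le (by norm_num) hp20
  have e1 : ∀ c : ℝ, c / (p : ℝ) = c * u := fun c => by rw [hu]; ring
  have e2 : (14 : ℝ) / (p : ℝ) ^ 2 = 14 * u ^ 2 := by rw [hu]; ring
  have e3 : (5 : ℝ) / (p : ℝ) = 5 * u := by rw [hu]; ring
  rw [e1 (chi D p), e1 (chi D' p), e2, e3]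
  unfold ecL
  rw [← hu]
  by_cases hdvd : (p : ℤ) ∣ D * D'
  · rw [if_pos hdvd]
    have hor : chi D p = 0 ∨ chi D' p = 0 := by
      rcases (Nat.prime_iff_prime_int.mp hp).dvd_or_dvd hdvd with h | h
      · exact Or.inl ((chi_eq_zero_iff D hp h2).mpr h)
      · exact Or.inr ((chi_eq_zero_iff D' hp h2).mpr h)
    have hnot : ¬ (chi D p = 1 ∧ chi D' p = 1) := by
      rintro ⟨ha, hb⟩
      rcases hor with h | h
      · rw [h] at ha; norm_num at ha
      · rw [h] at hb; norm_num at hb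
    rw [if_neg hnot, mul_one]
    exact ec_zero u _ _ _ hu0 hu1 (chi_cases _ p) (chi_cases D p) (chi_cases D' p) hor
  · rw [if_neg hdvd]
    have hpD : ¬ (p : ℤ) ∣ D := fun h => hdvd (Dvd.dvd.mul_right h D')
    have hpD' : ¬ (p : ℤ) ∣ D' := fun h => hdvd (Dvd.dvd.mul_left h D)
    rw [ec_chi_mul D D' hp h2 hpD]
    have hn : chi D p ≠ 0 := fun h => hpD ((chi_eq_zero_iff D hp h2).mp h)
    have hn' : chi D' p ≠ 0 := fun h => hpD' ((chi_eq_zero_iff D' hp h2).mp h)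
    rcases chi_cases D p with h | h | h
    · exact absurd h hn
    · rcases chi_cases D' p with h' | h' | h'
      · exact absurd h' hn'
      · rw [if_pos ⟨h, h'⟩, h, h', ec_gp (by omega : 2 ≤ p), ← hu, mul_one]
        exact ec_pp u hu0 hu1
      · have : ¬ (chi D p = 1 ∧ chi D' p = 1) := by rw [h']; norm_num
        rw [if_neg this, h, h', mul_one, one_mul]
        exact ec_pm u hu0 hu1
    · rcases chi_cases D' p with h' | h' | h'
      · exact absurd h' hn'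
      · have : ¬ (chi D p = 1 ∧ chi D' p = 1) := by rw [h]; norm_num
        rw [if_neg this, h, h', mul_one, mul_one]
        have := ec_pm u hu0 hu1
        calc _ ≤ _ := this
          _ = _ := by ring
      · have : ¬ (chi D p = 1 ∧ chi D' p = 1) := by rw [h]; norm_num
        rw [if_neg this, h, h', mul_one]
        have e4 : (-1 : ℝ) * -1 = 1 := by norm_num
        rw [e4]
        exact ec_mm u hu0 hu1

private theorem ec_tail (y z : ℕ) (hy : 20 ≤ y) :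
    ∏ p ∈ pr y z, (1 + 14 / (p : ℝ) ^ 2) ≤ 1 + 30 / (y : ℝ) := by
  have hy0 : (20 : ℝ) ≤ y := by exact_mod_cast hy
  have h1 : ∏ p ∈ pr y z, (1 + 14 / (p : ℝ) ^ 2) ≤
      Real.exp (∑ p ∈ pr y z, 14 / (p : ℝ) ^ 2) := by
    rw [Real.exp_sum]
    apply Finset.prod_le_prod
    · intro p _; positivity
    · intro p _
      have := Real.add_one_le_exp (14 / (p : ℝ) ^ 2)
      linarith
  have h2 : ∑ p ∈ pr y z, 14 / (p : ℝ) ^ 2 ≤ 14 / (y : ℝ) := by
    calc ∑ p ∈ pr y z, 14 / (p : ℝ) ^ 2 ≤ ∑ p ∈ Ioc y (max y z), 14 / (p : ℝ) ^ 2 := by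
          apply Finset.sum_le_sum_of_subset_of_nonneg
          · intro p hp
            unfold pr at hp
            rw [Finset.mem_filter, Finset.mem_Ioo] at hp
            rw [Finset.mem_Ioc]
            exact ⟨hp.1.1, le_trans hp.1.2.le (le_max_right _ _)⟩
          · intro p _ _; positivity
      _ = 14 * ∑ p ∈ Ioc y (max y z), (((p : ℝ) ^ 2)⁻¹) := by
          rw [Finset.mul_sum]
          exact Finset.sum_congr rfl fun p _ => by rw [div_eq_mul_inv]
      _ ≤ 14 * ((y : ℝ)⁻¹ - ((max y z : ℕ) : ℝ)⁻¹) := by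
          gcongr
          exact sum_Ioc_inv_sq_le_sub (by omega) (le_max_left _ _)
      _ ≤ 14 * (y : ℝ)⁻¹ := by
          have : 0 ≤ (((max y z : ℕ) : ℝ)⁻¹) := by positivity
          linarith
      _ = 14 / (y : ℝ) := by rw [div_eq_mul_inv]
  set t : ℝ := 14 / (y : ℝ) with ht
  have ht0 : 0 ≤ t := by positivity
  have ht1 : t ≤ 7 / 10 := by
    rw [ht, div_le_div_iff₀ (by linarith) (by norm_num)]
    linarith
  have h3 : Real.exp t ≤ 1 + t + t ^ 2 := by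
    have := Real.abs_exp_sub_one_sub_id_le (x := t) (by rw [abs_of_nonneg ht0]; linarith)
    have h4 := (abs_le.mp this).2
    linarith
  have h4 : (30 : ℝ) / (y : ℝ) = 30 / 14 * t := by rw [ht]; ring
  rw [h4]
  calc _ ≤ _ := h1
    _ ≤ Real.exp t := Real.exp_le_exp.mpr h2
    _ ≤ 1 + t + t ^ 2 := h3
    _ ≤ 1 + 30 / 14 * t := by nlinarith

theorem euler_compare (y : ℕ) (hy : 20 ≤ y) (D D' : ℤ) (hD : GoodD (qq y) D)
    (hD' : GoodD (qq y) D') (hdd : ((4 * qq y : ℕ) : ℤ) ∣ D - D') (hne : D ≠ D') (ε : ℝ)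
    (hε : 0 < ε) :
    ∃ z₀ : ℕ, ∀ z : ℕ, z₀ ≤ z →
      Gc (D / Int.gcd D D') (D' / Int.gcd D D') (qq y) * ∏ p ∈ PP D D' y z, (1 - gp p) ≤
        (1 + ε) * (1 + 30 / (y : ℝ)) * (∏ p ∈ (D * D').natAbs.primeFactors, (1 + 5 / (p : ℝ))) *
          (Wz y z * Pz D y z * Pz D' y z) := by
  have h16 : (2 : ℤ) ∣ ((qq y : ℕ) : ℤ) := by
    unfold qq; push_cast; exact ⟨8 * (Mo y : ℤ), by ring⟩
  have hodd : ∀ E : ℤ, GoodD (qq y) E → Odd E := by
    intro E hE
    rw [← Int.not_even_iff_odd]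
    intro he
    have h1 : IsCoprime (2 : ℤ) 2 := (hE.cop.of_isCoprime_of_dvd_left (even_iff_two_dvd.mp he)).of_isCoprime_of_dvd_right h16
    rw [isCoprime_self] at h1
    exact absurd h1 (by decide)
  have hDo := hodd D hD
  have hDo' := hodd D' hD'
  have hD0 : D ≠ 0 := by rintro rfl; exact absurd hDo (by decide)
  have hD0' : D' ≠ 0 := by rintro rfl; exact absurd hDo' (by decide)
  have hgpos : 0 < Int.gcd D D' := Int.gcd_pos_of_ne_zero_left _ hD0
  set g : ℤ := ((Int.gcd D D' : ℕ) : ℤ) with hg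
  set A := D / g with hA
  set A' := D' / g with hA'
  have e1 : A * g = D := Int.ediv_mul_cancel (Int.gcd_dvd_left ..)
  have e2 : A' * g = D' := Int.ediv_mul_cancel (Int.gcd_dvd_right ..)
  have hAA : Int.gcd A A' = 1 := Int.gcd_ediv_gcd_ediv_gcd hgpos
  have hcop : IsCoprime A A' := Int.isCoprime_iff_gcd_eq_one.mpr hAA
  have hAd : A ∣ D := ⟨g, e1.symm⟩
  have hAd' : A' ∣ D' := ⟨g, e2.symm⟩
  have hsA : Squarefree A := hD.sqf.squarefree_of_dvd hAd
  have hsA' : Squarefree A' := hD'.sqf.squarefree_of_dvd hAd'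
  have hsq : Squarefree (A * A') := squarefree_mul_iff.mpr ⟨hcop.isRelPrime, hsA, hsA'⟩
  have hAo : Odd A := by
    rw [← e1] at hDo; exact (Int.odd_mul.mp hDo).1
  have hAo' : Odd A' := by
    rw [← e2] at hDo'; exact (Int.odd_mul.mp hDo').1
  have hodd2 : Odd (A * A') := hAo.mul hAo'
  have hAne : A * A' ≠ 1 := by
    intro h
    rcases Int.mul_eq_one_iff_eq_one_or_neg_one.mp h with ⟨h3, h4⟩ | ⟨h3, h4⟩
    · apply hne; rw [← e1, ← e2, h3, h4]
    · apply hne; rw [← e1, ← e2, h3, h4]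
  have hLpos := Lone_pos (A * A') hodd2 hsq hAne
  have hy2 : 2 ≤ y := by omega
  -- convergence
  have hlim : Tendsto (fun z : ℕ => Lone (A * A') *
      (∏ p ∈ (range z).filter Nat.Prime, (1 - chi (A * A') p / (p : ℝ))⁻¹)⁻¹ * (1 + 4 / (z : ℝ)))
      atTop (nhds (Lone (A * A') * (Lone (A * A'))⁻¹ * (1 + 0))) := by
    apply Tendsto.mul
    · exact ((euler_one (A * A') hodd2 hsq hAne).inv₀ hLpos.ne').const_mul _
    · exact (Tendsto.div_atTop tendsto_const_nhds tendsto_natCast_atTop_atTop).const_add 1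
  rw [mul_inv_cancel₀ hLpos.ne', one_mul, add_zero] at hlim
  obtain ⟨z₁, hz₁⟩ := eventually_atTop.mp (hlim.eventually_lt_const (by linarith : (1 : ℝ) < 1 + ε))
  refine ⟨max z₁ (y + 1), fun z hz => ?_⟩
  have hzz1 : z₁ ≤ z := le_trans (le_max_left _ _) hz
  have hzy : y < z := by
    have := le_trans (le_max_right z₁ (y + 1)) hz
    omega
  have hmain := hz₁ z hzz1
  rw [Finset.prod_inv_distrib, inv_inv] at hmain
  -- splitting the product
  have hsplit : ∏ p ∈ (range z).filter Nat.Prime, (1 - chi (A * A') p / (p : ℝ)) =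
      (∏ p ∈ (qq y).primeFactors, (1 - chi (A * A') p / (p : ℝ))) *
        ∏ p ∈ pr y z, (1 - chi (A * A') p / (p : ℝ)) := by
    rw [← Finset.prod_union]
    · apply Finset.prod_congr _ (fun _ _ => rfl)
      ext p
      simp only [Finset.mem_filter, Finset.mem_union, Finset.mem_range, mem_pr,
        Nat.mem_primeFactors]
      constructor
      · rintro ⟨ha, hb⟩
        rcases Nat.lt_or_ge y p with h | h
        · exact Or.inr ⟨h, ha, hb⟩
        · exact Or.inl ⟨hb, (prime_dvd_qq hy2 hb).mpr h, (qq_pos y).ne'⟩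
      · rintro (⟨ha, hb, _⟩ | ⟨ha, hc, hb⟩)
        · have := (prime_dvd_qq hy2 ha).mp hb
          exact ⟨by omega, ha⟩
        · exact ⟨hc, hb⟩
    · rw [Finset.disjoint_left]
      intro p hp hp2
      rw [mem_pr] at hp2
      rw [Nat.mem_primeFactors] at hp
      have := (prime_dvd_qq hy2 hp.1).mp hp.2.1
      omega
  have hfpos : ∀ p : ℕ, 2 ≤ p → 0 < 1 - chi (A * A') p / (p : ℝ) := by
    intro p hp
    have hp1 : (2 : ℝ) ≤ p := by exact_mod_cast hp
    have h1 := (abs_le.mp (chi_abs_le (A * A') p)).2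
    have : chi (A * A') p / (p : ℝ) ≤ 1 / 2 := by
      rw [div_le_div_iff₀ (by linarith) (by norm_num)]
      linarith
    linarith
  set Q := ∏ p ∈ (qq y).primeFactors, (1 - chi (A * A') p / (p : ℝ)) with hQ
  set S := ∏ p ∈ pr y z, (1 - chi (A * A') p / (p : ℝ)) with hS
  have hQpos : 0 < Q := Finset.prod_pos fun p hp =>
    hfpos p (Nat.prime_of_mem_primeFactors hp).two_le
  have hSpos : 0 < S := Finset.prod_pos fun p hp => hfpos p (mem_pr.mp hp).2.2.two_le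
  have hPPprod : ∏ p ∈ PP D D' y z, (1 - gp p) =
      ∏ p ∈ pr y z, (if chi D p = 1 ∧ chi D' p = 1 then 1 - gp p else 1) := by
    unfold PP
    rw [Finset.prod_filter]
  have hge : ∀ p ∈ pr y z, 20 ≤ p := fun p hp => by
    have := (mem_pr.mp hp).1
    omega
  have hifnn : ∀ p ∈ pr y z, 0 ≤ (if chi D p = 1 ∧ chi D' p = 1 then 1 - gp p else (1 : ℝ)) := by
    intro p hp
    split_ifs
    · exact ec_gp_le (hge p hp)
    · norm_num
  set G := ∏ p ∈ pr y z, (if chi D p = 1 ∧ chi D' p = 1 then 1 - gp p else (1 : ℝ)) with hG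
  have hGnn : 0 ≤ G := Finset.prod_nonneg hifnn
  set T2 := ∏ p ∈ pr y z, (1 - chi (A * A') p / (p : ℝ) ^ 2) with hT2
  have hT : Tq (A * A') (qq y) ≤ (1 + 4 / (z : ℝ)) * T2 := Tq_le (A * A') y z hy2 hzy
  have hT2nn : 0 ≤ T2 := by
    apply Finset.prod_nonneg
    intro p hp
    have hp1 : (20 : ℝ) ≤ p := by exact_mod_cast hge p hp
    have h1 := (abs_le.mp (chi_abs_le (A * A') p)).2
    rw [sub_nonneg, div_le_one (by positivity)]
    nlinarith
  have hLprod : S⁻¹ * T2 * G = ∏ p ∈ pr y z, ecL D D' (chi (A * A') p) p := by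
    rw [hS, hT2, hG, ← Finset.prod_inv_distrib, ← Finset.prod_mul_distrib,
      ← Finset.prod_mul_distrib]
    apply Finset.prod_congr rfl
    intro p _
    unfold ecL
    rw [mul_one_div, one_div, inv_pow, ← div_eq_mul_inv]
  have hfac : ∏ p ∈ pr y z, ecL D D' (chi (A * A') p) p ≤
      ∏ p ∈ pr y z, ((if (p : ℤ) ∣ D * D' then 1 + 5 / (p : ℝ) else 1 + 14 / (p : ℝ) ^ 2) *
        ((1 - 1 / (p : ℝ)) * (1 - chi D p / (p : ℝ)) * (1 - chi D' p / (p : ℝ)))) := by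
    apply Finset.prod_le_prod
    · intro p hp
      unfold ecL
      have hp1 : (20 : ℝ) ≤ p := by exact_mod_cast hge p hp
      have h1 := (abs_le.mp (chi_abs_le (A * A') p)).2
      have h3 : 1 / (p : ℝ) ≤ 1 / 20 := one_div_le_one_div_of_le (by norm_num) hp1
      have h4 : 0 < 1 / (p : ℝ) := by positivity
      apply mul_nonneg (mul_nonneg (inv_nonneg.mpr _) _) (hifnn p hp)
      · nlinarith
      · nlinarith
    · intro p hp
      exact ec_factor D D' (mem_pr.mp hp).2.2 (hge p hp)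
  have hR : ∏ p ∈ pr y z, ((if (p : ℤ) ∣ D * D' then 1 + 5 / (p : ℝ) else 1 + 14 / (p : ℝ) ^ 2) *
        ((1 - 1 / (p : ℝ)) * (1 - chi D p / (p : ℝ)) * (1 - chi D' p / (p : ℝ)))) =
      (∏ p ∈ pr y z, (if (p : ℤ) ∣ D * D' then 1 + 5 / (p : ℝ) else 1 + 14 / (p : ℝ) ^ 2)) *
        (Wz y z * Pz D y z * Pz D' y z) := by
    unfold Wz Pz
    rw [← Finset.prod_mul_distrib, ← Finset.prod_mul_distrib, ← Finset.prod_mul_distrib]
  have hC : ∏ p ∈ pr y z, (if (p : ℤ) ∣ D * D' then 1 + 5 / (p : ℝ) else 1 + 14 / (p : ℝ) ^ 2) ≤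
      (∏ p ∈ (D * D').natAbs.primeFactors, (1 + 5 / (p : ℝ))) * (1 + 30 / (y : ℝ)) := by
    calc ∏ p ∈ pr y z, (if (p : ℤ) ∣ D * D' then 1 + 5 / (p : ℝ) else 1 + 14 / (p : ℝ) ^ 2)
        ≤ ∏ p ∈ pr y z, ((if (p : ℤ) ∣ D * D' then 1 + 5 / (p : ℝ) else 1) *
            (1 + 14 / (p : ℝ) ^ 2)) := by
          apply Finset.prod_le_prod
          · intro p _; split_ifs <;> positivity
          · intro p _
            have h1 : (0 : ℝ) ≤ 14 / (p : ℝ) ^ 2 := by positivity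
            have h2 : (0 : ℝ) ≤ 5 / (p : ℝ) := by positivity
            split_ifs
            · nlinarith
            · linarith
      _ = (∏ p ∈ pr y z, (if (p : ℤ) ∣ D * D' then 1 + 5 / (p : ℝ) else 1)) *
            ∏ p ∈ pr y z, (1 + 14 / (p : ℝ) ^ 2) := Finset.prod_mul_distrib
      _ ≤ _ := by
          apply mul_le_mul _ (ec_tail y z hy) _ _
          · rw [← Finset.prod_filter]
            have hsub : (pr y z).filter (fun p : ℕ => (p : ℤ) ∣ D * D') ⊆ (D * D').natAbs.primeFactors := by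
              intro p hp
              rw [Finset.mem_filter, mem_pr] at hp
              rw [Nat.mem_primeFactors]
              refine ⟨hp.1.2.2, ?_, ?_⟩
              · exact Int.natCast_dvd.mp hp.2
              · exact Int.natAbs_ne_zero.mpr (mul_ne_zero hD0 hD0')
            rw [← Finset.prod_sdiff hsub]
            apply le_mul_of_one_le_left (Finset.prod_nonneg fun p _ => by positivity)
            apply Finset.prod_induction _ (fun x : ℝ => 1 ≤ x)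
              (fun a b ha hb => one_le_mul_of_one_le_of_one_le ha hb) le_rfl
            intro p _
            have h2 : (0 : ℝ) ≤ 5 / (p : ℝ) := by positivity
            linarith
          · exact Finset.prod_nonneg fun p _ => by positivity
          · exact Finset.prod_nonneg fun p _ => by positivity
  have hWpos : 0 < Wz y z * Pz D y z * Pz D' y z :=
    mul_pos (mul_pos (Wz_pos hy2) (Pz_pos D hy2)) (Pz_pos D' hy2)
  rw [hsplit] at hmain
  rw [hPPprod]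
  unfold Gc
  rw [← hQ]
  calc Lone (A * A') * Q * Tq (A * A') (qq y) * G
      ≤ Lone (A * A') * Q * ((1 + 4 / (z : ℝ)) * T2) * G := by gcongr
    _ = (Lone (A * A') * (Q * S) * (1 + 4 / (z : ℝ))) * (S⁻¹ * T2 * G) := by
        field_simp
    _ ≤ (1 + ε) * (S⁻¹ * T2 * G) := by
        apply mul_le_mul_of_nonneg_right hmain.le
        positivity
    _ ≤ (1 + ε) * (((∏ p ∈ (D * D').natAbs.primeFactors, (1 + 5 / (p : ℝ))) * (1 + 30 / (y : ℝ))) *
          (Wz y z * Pz D y z * Pz D' y z)) := by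
        apply mul_le_mul_of_nonneg_left _ (by linarith)
        rw [hLprod]
        refine hfac.trans ?_
        rw [hR]
        exact mul_le_mul_of_nonneg_right hC hWpos.le
    _ = _ := by ring

end Pool.Agent.Work.MP_43ce8a_nt.D
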