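import Pool.Agent.Work.MP_43ce8a_nt.D.Defs

set_option autoImplicit false

/-!
Module ExcRep (size S). A number n which is not in S has no representation.

PROOF. Suppose v in (a, a + h], w ≡ w0 mod q, w² = 4 n + D v², D = B⁶ - 4 r³. w is odd (q even, w0 odd), so
v is odd. w² = 4 (n - r³ v²) + (B³ v)² > (B³ v)², so w > B³ v, both odd; u = (w - B³ v)/2 > 0 and
n = u² + B³ u v + r³ v², so n ∈ S by inS_form (Basic.lean; a = 1, b = B³, c = r³, m = B r).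
-/

namespace Pool.Agent.Work.MP_43ce8a_nt.D

open Finset

theorem exc_rep {q w0 v0 B r a h n : ℕ} (hq : 2 ∣ q) (hw : w0.Coprime q) (hB : B % 2 = 1)
    (hr : 0 < r) (hn : ¬ InS n) (hsz : ∀ v ∈ Ioc a (a + h), r ^ 3 * v ^ 2 < n) :
    rep q w0 v0 (disc B r) a h n = 0 := by
  classical
  rw [rep, Finset.card_eq_zero, Finset.filter_eq_empty_iff]
  rintro v hv ⟨-, w, hwq, hw2⟩
  apply hn
  have hv0 : 0 < v := lt_of_le_of_lt (Nat.zero_le _) (mem_Ioc.1 hv).1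
  have hlt := hsz v hv
  have hodd : w % 2 = 1 := by
    obtain ⟨q', rfl⟩ := hq
    by_contra hcon
    have hw0 : w % 2 = 0 := by omega
    have h1 : w0 % 2 = 0 := by
      have e1 : w % (2 * q') % 2 = w % 2 := Nat.mod_mul_right_mod w 2 q'
      have e2 : w0 % (2 * q') % 2 = w0 % 2 := Nat.mod_mul_right_mod w0 2 q'
      rw [← e2, ← hwq, e1, hw0]
    have h2 : 2 ∣ Nat.gcd w0 (2 * q') := Nat.dvd_gcd (Nat.dvd_of_mod_eq_zero h1) (Dvd.intro _ rfl)
    rw [hw] at h2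
    omega
  have hw2' : (w : ℤ) ^ 2 = 4 * (n - (r : ℤ) ^ 3 * (v : ℤ) ^ 2) + ((B : ℤ) ^ 3 * v) ^ 2 := by
    rw [hw2, disc]
    ring
  have hpos : (0 : ℤ) < n - (r : ℤ) ^ 3 * (v : ℤ) ^ 2 := by
    have : ((r ^ 3 * v ^ 2 : ℕ) : ℤ) < (n : ℤ) := by exact_mod_cast hlt
    push_cast at this
    linarith
  have hgt : (B : ℤ) ^ 3 * v < w := by
    have h0 : (0 : ℤ) ≤ (w : ℤ) := by positivity
    nlinarith [h0, hw2', hpos]
  have hB0 : 0 < B := by omega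
  -- parity
  have hpar : ((w : ℤ) - (B : ℤ) ^ 3 * v) % 2 = 0 := by
    have hw3 : (w : ℤ) % 2 = 1 := by omega
    have e1 : ((w : ℤ) ^ 2) % 2 = 1 := by
      rw [sq, Int.mul_emod, hw3]
      rfl
    have e2 : (((B : ℤ) ^ 3 * v) ^ 2) % 2 = 1 := by
      omega
    have e3 : ((B : ℤ) ^ 3 * v) % 2 = 1 := by
      rcases Int.emod_two_eq_zero_or_one ((B : ℤ) ^ 3 * v) with h | h
      · have h3 := dvd_pow (Int.dvd_of_emod_eq_zero h) (two_ne_zero)
        omega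
      · exact h
    omega
  obtain ⟨u, hu⟩ := Int.dvd_of_emod_eq_zero hpar
  have hu0 : 0 < u := by linarith
  have hw' : (w : ℤ) = 2 * u + (B : ℤ) ^ 3 * v := by linarith
  have hnn : (n : ℤ) = 1 * u ^ 2 + (B : ℤ) ^ 3 * u * v + (r : ℤ) ^ 3 * (v : ℤ) ^ 2 := by
    rw [hw'] at hw2'
    have : (4 : ℤ) * n = 4 * (1 * u ^ 2 + (B : ℤ) ^ 3 * u * v + (r : ℤ) ^ 3 * (v : ℤ) ^ 2) := by
      linear_combination -hw2'
    linarith
  exact inS_of_int (a := 1) (b := (B : ℤ) ^ 3) (c := (r : ℤ) ^ 3) (m := (B : ℤ) * r) (by norm_num)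
    (by positivity) (by positivity) hu0 (by exact_mod_cast hv0) (by ring) hnn

end Pool.Agent.Work.MP_43ce8a_nt.D
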