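import Pool.Agent.Work.MP_43ce8a_nt.D.FaCnt
import Pool.Agent.Work.MP_43ce8a_nt.D.BlkG
import Pool.Agent.Work.MP_f2148a_nt.DivisorBound

set_option autoImplicit false

/-!
Module FaRow (size M). Correlation of one discriminant D₁ (of a block k ≤ k') with the block k'.

PROOF. For squarefree D₁ ≠ 0 and x in the block k': 2^ω(g) = number of (positive) divisors e of
g = gcd(D₁, disc x) (g squarefree), so ∑_x (2^ω(g) - 1) = ∑_{e ∣ D₁, e > 1} card {x : e ∣ disc x}. Each e is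
squarefree, prime to q and to 3 (3 ∣ q as y ≥ 3) because D₁ is prime to q. cnt_e, Q = 4 q ≤ 2^k':
≤ ∑_{e > 1} (2^k'/Q + 1) 3^ω(e) (4^k'/(Q e) + 1)
≤ 2 * 8^k'/Q² (∏_{p ∣ D₁} (1 + 3/p) - 1) + 2 * 2^k' * 4^ω(D₁).
∏ (1 + 3/p) - 1 ≤ exp(3 δ) - 1 ≤ 4 δ when δ ≤ 1/20. 4^ω(D₁) ≤ (card divisors |D₁|)² ≤
C₀² |D₁|^(1/12) ≤ C₀² 2^((k'+1)/2), with |D₁| ≤ 64^(k'+1) (exists_card_divisors_le with ε = 1/24).
-/

namespace Pool.Agent.Work.MP_43ce8a_nt.D

open Finset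

private theorem fr_sum_div {n : ℕ} (hn : Squarefree n) (g : ℕ → ℝ) :
    ∑ e ∈ n.divisors, ∏ p ∈ e.primeFactors, g p = ∏ p ∈ n.primeFactors, (1 + g p) := by
  have hn0 : n ≠ 0 := hn.ne_zero
  rw [Finset.prod_one_add]
  refine Finset.sum_nbij' (fun e => e.primeFactors) (fun T => ∏ p ∈ T, p) ?_ ?_ ?_ ?_ ?_
  · intro e he
    rw [mem_powerset]
    exact Nat.primeFactors_mono (Nat.dvd_of_mem_divisors he) hn0
  · intro T hT
    rw [mem_powerset] at hT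
    rw [Nat.mem_divisors]
    refine ⟨?_, hn0⟩
    have h1 := Finset.prod_dvd_prod_of_subset T n.primeFactors (fun p => p) hT
    rwa [Nat.prod_primeFactors_of_squarefree hn] at h1
  · intro e he
    exact Nat.prod_primeFactors_of_squarefree (hn.squarefree_of_dvd (Nat.dvd_of_mem_divisors he))
  · intro T hT
    rw [mem_powerset] at hT
    exact Nat.primeFactors_prod fun p hp => Nat.prime_of_mem_primeFactors (hT hp)
  · intro e _
    rfl

private theorem fr_two_pow {n : ℕ} (hn : Squarefree n) :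
    (2 : ℝ) ^ n.primeFactors.card = (n.divisors.card : ℝ) := by
  have h := fr_sum_div hn (fun _ => 1)
  simp only [prod_const_one, sum_const, nsmul_eq_mul, mul_one, prod_const] at h
  rw [h]
  norm_num

private theorem fr_point {D₁ d : ℤ} (hs : Squarefree D₁) :
    (2 : ℝ) ^ (Int.gcd D₁ d).primeFactors.card - 1 =
      ∑ e ∈ D₁.natAbs.divisors.erase 1, if (e : ℤ) ∣ d then (1 : ℝ) else 0 := by
  have hD0 : D₁ ≠ 0 := hs.ne_zero
  have hn : Squarefree D₁.natAbs := Int.squarefree_natAbs.2 hs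
  have hn0 : D₁.natAbs ≠ 0 := hn.ne_zero
  have hgd : Int.gcd D₁ d ∣ D₁.natAbs := Int.natCast_dvd.1 (Int.gcd_dvd_left _ _)
  have hg : Squarefree (Int.gcd D₁ d) := hn.squarefree_of_dvd hgd
  rw [fr_two_pow hg]
  have e1 : (Int.gcd D₁ d).divisors = D₁.natAbs.divisors.filter fun e : ℕ => (e : ℤ) ∣ d := by
    ext e
    rw [Nat.mem_divisors, mem_filter, Nat.mem_divisors]
    constructor
    · rintro ⟨h, -⟩
      have h' : (e : ℤ) ∣ (Int.gcd D₁ d : ℤ) := by exact_mod_cast h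
      exact ⟨⟨h.trans hgd, hn0⟩, h'.trans (Int.gcd_dvd_right _ _)⟩
    · rintro ⟨⟨h, -⟩, h'⟩
      refine ⟨?_, hg.ne_zero⟩
      exact Int.dvd_gcd (Int.natCast_dvd.2 h) h'
  rw [e1, ← Finset.sum_boole, ← Finset.add_sum_erase _ _ (Nat.one_mem_divisors.2 hn0)]
  simp

theorem row_sum : ∃ C : ℝ, 0 ≤ C ∧ ∀ (δ : ℝ) (y r0 k' : ℕ) (D₁ : ℤ), 0 < δ → δ ≤ 1 / 20 → 3 ≤ y →
    Squarefree D₁ → IsCoprime D₁ (qq y : ℤ) → D₁.natAbs ≤ 64 ^ (k' + 1) → 4 * qq y ≤ 2 ^ k' →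
    ∑ p ∈ D₁.natAbs.primeFactors, 1 / (p : ℝ) ≤ δ →
    ∑ x ∈ Blk (qq y) r0 k', ((2 : ℝ) ^ (Int.gcd D₁ (disc x.1 x.2)).primeFactors.card - 1) ≤
      8 * δ * (8 ^ k' / (4 * (qq y : ℝ)) ^ 2) + C * (2 ^ k' * (2 : ℝ) ^ ((k' : ℝ) / 2)) := by
  classical
  obtain ⟨A, hA1, hA⟩ := Pool.Agent.Work.MP_f2148a_nt.exists_card_divisors_le (1 / 24) (by norm_num)
  refine ⟨4 * A ^ 2, by positivity, ?_⟩
  intro δ y r0 k' D₁ hδ hδ2 hy hs hcop hsize hk hsum
  have hn : Squarefree D₁.natAbs := Int.squarefree_natAbs.2 hs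
  have hn0 : D₁.natAbs ≠ 0 := hn.ne_zero
  set n := D₁.natAbs with hndef
  have hq := qq_pos y
  have hncop : n.Coprime (qq y) := by
    have := Int.isCoprime_iff_gcd_eq_one.1 hcop
    simpa [Int.gcd, hndef] using this
  have hQ1 : (4 : ℝ) ≤ 4 * (qq y : ℝ) := by
    have : (1 : ℝ) ≤ qq y := by exact_mod_cast hq
    linarith
  set Q : ℝ := 4 * (qq y : ℝ) with hQdef
  have hkQ : Q ≤ 2 ^ k' := by
    rw [hQdef]
    exact_mod_cast hk
  have hQ0 : 0 < Q := by linarith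
  have h1 : ∑ x ∈ Blk (qq y) r0 k',
      ((2 : ℝ) ^ (Int.gcd D₁ (disc x.1 x.2)).primeFactors.card - 1) =
      ∑ e ∈ n.divisors.erase 1, ∑ x ∈ Blk (qq y) r0 k',
        if (e : ℤ) ∣ disc x.1 x.2 then (1 : ℝ) else 0 := by
    rw [sum_comm]
    exact sum_congr rfl fun x _ => fr_point hs
  have h2 : ∀ e ∈ n.divisors.erase 1, ∑ x ∈ Blk (qq y) r0 k',
      (if (e : ℤ) ∣ disc x.1 x.2 then (1 : ℝ) else 0) ≤
      2 * (8 ^ k' / Q ^ 2) * ∏ p ∈ e.primeFactors, (3 / (p : ℝ)) +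
        2 * 2 ^ k' * ∏ p ∈ e.primeFactors, (3 : ℝ) := by
    intro e he
    have hed : e ∣ n := Nat.dvd_of_mem_divisors (mem_of_mem_erase he)
    have he0 : e ≠ 0 := ne_zero_of_dvd_ne_zero hn0 hed
    have hes : Squarefree e := hn.squarefree_of_dvd hed
    have hec : e.Coprime (qq y) := Nat.Coprime.coprime_dvd_left hed hncop
    have h3 : e.Coprime 3 :=
      Nat.Coprime.coprime_dvd_right ((prime_dvd_qq (by omega) Nat.prime_three).2 hy) hec
    have h2q : 2 ∣ qq y := (prime_dvd_qq (by omega) Nat.prime_two).2 (by omega)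
    have hc := cnt_e (qq y) r0 k' e hq h2q hes hec h3
    have e1 : ∑ x ∈ Blk (qq y) r0 k', (if (e : ℤ) ∣ disc x.1 x.2 then (1 : ℝ) else 0) =
        (((Blk (qq y) r0 k').filter fun x => (e : ℤ) ∣ disc x.1 x.2).card : ℝ) := by
      rw [Finset.sum_boole]
    rw [e1]
    refine hc.trans ?_
    have e2 : ∏ p ∈ e.primeFactors, (3 / (p : ℝ)) = 3 ^ e.primeFactors.card / (e : ℝ) := by
      rw [prod_div_distrib, prod_const]
      congr 1
      have := congrArg (fun m : ℕ => (m : ℝ)) (Nat.prod_primeFactors_of_squarefree hes)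
      simpa using this
    rw [e2, prod_const]
    have he1 : (1 : ℝ) ≤ e := by exact_mod_cast Nat.one_le_iff_ne_zero.2 he0
    have hT : (1 : ℝ) ≤ 3 ^ e.primeFactors.card := one_le_pow₀ (by norm_num)
    set T : ℝ := 3 ^ e.primeFactors.card
    have h4 : (1 : ℝ) ≤ 2 ^ k' / Q := by
      rw [le_div_iff₀ hQ0]
      linarith
    have h5 : (2 : ℝ) ^ k' / Q ≤ 2 ^ k' := div_le_self (by positivity) (by linarith)
    have e3 : (8 : ℝ) ^ k' = 2 ^ k' * 4 ^ k' := by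
      rw [← mul_pow]
      norm_num
    calc (2 ^ k' / Q + 1) * (T * (4 ^ k' / (4 * qq y * e) + 1))
        ≤ (2 * (2 ^ k' / Q)) * (T * (4 ^ k' / (4 * qq y * e) + 1)) := by
          gcongr
          linarith
      _ = 2 * (8 ^ k' / Q ^ 2) * (T / e) + 2 * (2 ^ k' / Q) * T := by
          rw [e3, ← hQdef]
          field_simp
      _ ≤ 2 * (8 ^ k' / Q ^ 2) * (T / e) + 2 * 2 ^ k' * T := by
          gcongr
  rw [h1]
  refine (sum_le_sum h2).trans ?_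
  rw [sum_add_distrib, ← mul_sum, ← mul_sum]
  have hprod : ∀ g : ℕ → ℝ, ∑ e ∈ n.divisors.erase 1, ∏ p ∈ e.primeFactors, g p =
      ∏ p ∈ n.primeFactors, (1 + g p) - 1 := by
    intro g
    rw [← fr_sum_div hn g, ← Finset.add_sum_erase _ _ (Nat.one_mem_divisors.2 hn0)]
    simp
  rw [hprod, hprod]
  have h3 : ∏ p ∈ n.primeFactors, (1 + 3 / (p : ℝ)) - 1 ≤ 4 * δ := by
    have h4 : ∏ p ∈ n.primeFactors, (1 + 3 / (p : ℝ)) ≤ Real.exp (3 * δ) := by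
      calc ∏ p ∈ n.primeFactors, (1 + 3 / (p : ℝ)) ≤
            ∏ p ∈ n.primeFactors, Real.exp (3 / (p : ℝ)) := by
            refine prod_le_prod (fun p _ => by positivity) fun p _ => ?_
            rw [add_comm]
            exact Real.add_one_le_exp _
        _ = Real.exp (∑ p ∈ n.primeFactors, 3 / (p : ℝ)) := by rw [Real.exp_sum]
        _ ≤ Real.exp (3 * δ) := by
            apply Real.exp_le_exp.2
            calc ∑ p ∈ n.primeFactors, 3 / (p : ℝ) = 3 * ∑ p ∈ n.primeFactors, 1 / (p : ℝ) := by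
                  rw [mul_sum]
                  exact sum_congr rfl fun p _ => by ring
              _ ≤ 3 * δ := by linarith
    have h5 := Real.abs_exp_sub_one_sub_id_le (x := 3 * δ) (by
      rw [abs_of_nonneg (by linarith)]
      linarith)
    have h6 := (abs_le.1 h5).2
    nlinarith
  have h4 : ∏ p ∈ n.primeFactors, (1 + 3 : ℝ) - 1 ≤ 2 * A ^ 2 * (2 : ℝ) ^ ((k' : ℝ) / 2) := by
    have e1 : ∏ _p ∈ n.primeFactors, (1 + 3 : ℝ) = ((2 : ℝ) ^ n.primeFactors.card) ^ 2 := by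
      rw [prod_const, ← pow_mul, mul_comm, pow_mul]
      norm_num
    have h5 : (2 : ℝ) ^ n.primeFactors.card ≤ A * (n : ℝ) ^ (1 / 24 : ℝ) := by
      rw [fr_two_pow hn]
      exact hA n (Nat.one_le_iff_ne_zero.2 hn0)
    have h6 : ((n : ℝ) ^ (1 / 24 : ℝ)) ^ 2 ≤ 2 * (2 : ℝ) ^ ((k' : ℝ) / 2) := by
      have h7 : ((n : ℝ) ^ (1 / 24 : ℝ)) ^ 2 = (n : ℝ) ^ (1 / 12 : ℝ) := by
        rw [← Real.rpow_natCast, ← Real.rpow_mul (Nat.cast_nonneg n)]
        norm_num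
      rw [h7]
      have h8 : (n : ℝ) ≤ 64 ^ (k' + 1) := by exact_mod_cast hsize
      calc (n : ℝ) ^ (1 / 12 : ℝ) ≤ ((64 : ℝ) ^ (k' + 1)) ^ (1 / 12 : ℝ) := by
            gcongr
        _ = (2 : ℝ) ^ (((k' : ℝ) + 1) / 2) := by
            have : (64 : ℝ) ^ (k' + 1) = (2 : ℝ) ^ (6 * ((k' : ℝ) + 1)) := by
              rw [show (64 : ℝ) = 2 ^ 6 by norm_num, ← pow_mul, ← Real.rpow_natCast]
              congr 1
              push_cast
              ring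
            rw [this, ← Real.rpow_mul (by norm_num)]
            congr 1
            ring
        _ = (2 : ℝ) ^ ((k' : ℝ) / 2) * (2 : ℝ) ^ (1 / 2 : ℝ) := by
            rw [← Real.rpow_add (by norm_num)]
            congr 1
            ring
        _ ≤ (2 : ℝ) ^ ((k' : ℝ) / 2) * 2 := by
            gcongr
            calc (2 : ℝ) ^ (1 / 2 : ℝ) ≤ (2 : ℝ) ^ (1 : ℝ) :=
                  Real.rpow_le_rpow_of_exponent_le (by norm_num) (by norm_num)
              _ = 2 := Real.rpow_one 2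
        _ = 2 * (2 : ℝ) ^ ((k' : ℝ) / 2) := mul_comm _ _
    rw [e1]
    have h9 : ((2 : ℝ) ^ n.primeFactors.card) ^ 2 ≤ (A * (n : ℝ) ^ (1 / 24 : ℝ)) ^ 2 := by
      gcongr
    rw [mul_pow] at h9
    have h10 : A ^ 2 * ((n : ℝ) ^ (1 / 24 : ℝ)) ^ 2 ≤ A ^ 2 * (2 * (2 : ℝ) ^ ((k' : ℝ) / 2)) := by
      gcongr
    linarith
  have h5 : 2 * (8 ^ k' / Q ^ 2) * (∏ p ∈ n.primeFactors, (1 + 3 / (p : ℝ)) - 1) ≤
      2 * (8 ^ k' / Q ^ 2) * (4 * δ) := by gcongr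
  have h6 : 2 * (2 : ℝ) ^ k' * (∏ p ∈ n.primeFactors, (1 + 3 : ℝ) - 1) ≤
      2 * 2 ^ k' * (2 * A ^ 2 * (2 : ℝ) ^ ((k' : ℝ) / 2)) := by gcongr
  linarith

end Pool.Agent.Work.MP_43ce8a_nt.D
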