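import Pool.Agent.Work.MP_43ce8a_nt.D.FaBlock
import Pool.Agent.Work.MP_43ce8a_nt.D.FaRow

set_option autoImplicit false

/-!
Module Fam (size M-L). The family of discriminants.

PROOF. WLOG δ ≤ 1. Put δ₁ = δ/200 (≤ 1/20), y₀ from gk_card δ₁ (and ≥ 3), k₀ from gk_card, enlarged so that
k₀ ≥ 1 and 4 q ≤ 2^k₀. F = {(k, B, r) : k₀ ≤ k ≤ J, (B, r) ∈ Gk δ₁ q r0 k}. The discriminants are distinct
by the third condition in Gk (for two members take the one with larger k as x; for equal k any).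
E = ∑ al = ∑_{k₀ ≤ k ≤ J} card Gk/(k 8^k) ≥ (1/(2 Q²)) ∑ 1/k, Q = 4 q, which tends to infinity with J.
For i ≠ j: kap - 1 = 2^ω(g) P - 1, P = ∏_{p ∣ D D'} (1 + 5/p) ≤ exp(10 δ₁) ≤ 1 + 20 δ₁ (the primes of D D'
are those of D or D'), so kap - 1 ≤ 2 (2^ω(g) - 1) + 20 δ₁. The term 20 δ₁ contributes ≤ 20 δ₁ E².
∑_{i ≠ j} al al (2^ω(g) - 1) ≤ 2 ∑_i al_i ∑_{k' ≥ k_i} ∑_{j ∈ block k'} al_j (2^ω(g) - 1) (order the pair
so that k_i ≤ k_j; 2^ω - 1 ≥ 0), and by row_sum the inner double sum is ≤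
∑_{k'} (1/(k' 8^k')) (8 δ₁ 8^k'/Q² + C 2^k' 2^(k'/2)) ≤ 8 δ₁ ∑_{k'} 1/(k' Q²) + C₁ ≤ 16 δ₁ E + C₁,
C₁ = C ∑ 2^(3k'/2)/8^k' absolute. Total: ∑_{i≠j} al al (kap - 1) ≤ 20 δ₁ E² + 4 E (16 δ₁ E + C₁) =
84 δ₁ E² + 4 C₁ E ≤ δ E² as soon as E ≥ 8 C₁/δ (84/200 < 1/2). Choose J so that E ≥ T and E ≥ 8 C₁/δ.
-/

namespace Pool.Agent.Work.MP_43ce8a_nt.D

open Finset

open Classical in
private theorem famG_mem {δ : ℝ} {q r0 k : ℕ} {x : ℕ × ℕ} : x ∈ Gk δ q r0 k ↔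
    x ∈ Blk q r0 k ∧ Squarefree (disc x.1 x.2) ∧
    ∑ p ∈ (disc x.1 x.2).natAbs.primeFactors, 1 / (p : ℝ) ≤ δ ∧
    ∀ k' x', k' ≤ k → x' ∈ Blk q r0 k' → (k', x') ≠ (k, x) → disc x'.1 x'.2 ≠ disc x.1 x.2 := by
  unfold Gk
  rw [mem_filter]

private noncomputable def famF (δ : ℝ) (q r0 k₁ J : ℕ) : Finset (ℕ × ℕ × ℕ) :=
  (Icc k₁ J).biUnion fun k => (Gk δ q r0 k).image fun x => (k, x)

private theorem famF_mem {δ : ℝ} {q r0 k₁ J : ℕ} {x : ℕ × ℕ × ℕ} :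
    x ∈ famF δ q r0 k₁ J ↔ (k₁ ≤ x.1 ∧ x.1 ≤ J) ∧ x.2 ∈ Gk δ q r0 x.1 := by
  unfold famF
  rw [mem_biUnion]
  constructor
  · rintro ⟨k, hk, hx⟩
    obtain ⟨z, hz, rfl⟩ := mem_image.1 hx
    exact ⟨mem_Icc.1 hk, hz⟩
  · rintro ⟨hk, hx⟩
    exact ⟨x.1, mem_Icc.2 hk, mem_image.2 ⟨x.2, hx, rfl⟩⟩

private theorem famF_sum (δ : ℝ) (q r0 k₁ J : ℕ) (f : ℕ × ℕ × ℕ → ℝ) :
    ∑ x ∈ famF δ q r0 k₁ J, f x = ∑ k ∈ Icc k₁ J, ∑ x ∈ Gk δ q r0 k, f (k, x) := by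
  unfold famF
  rw [sum_biUnion]
  · refine sum_congr rfl fun k _ => ?_
    rw [sum_image]
    intro a _ b _ h
    exact (Prod.mk.inj h).2
  · intro k _ k' _ hkk
    rw [Function.onFun, Finset.disjoint_left]
    intro x hx hx'
    obtain ⟨a, _, rfl⟩ := mem_image.1 hx
    obtain ⟨b, _, hb⟩ := mem_image.1 hx'
    exact hkk (Prod.mk.inj hb).1.symm

private noncomputable def famO (D D' : ℤ) : ℝ := (2 : ℝ) ^ (Int.gcd D D').primeFactors.card - 1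

private theorem famO_nonneg (D D' : ℤ) : 0 ≤ famO D D' := by
  unfold famO
  have : (1 : ℝ) ≤ 2 ^ (Int.gcd D D').primeFactors.card := one_le_pow₀ (by norm_num)
  linarith

private theorem famO_comm (D D' : ℤ) : famO D D' = famO D' D := by
  unfold famO
  rw [Int.gcd_comm]

private theorem fam_exp (t : ℝ) (h0 : 0 ≤ t) (h1 : t ≤ 1) : Real.exp t ≤ 1 + 2 * t := by
  have h7 := Real.abs_exp_sub_one_sub_id_le (x := t) (by rw [abs_of_nonneg h0]; exact h1)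
  have h8 := (abs_le.1 h7).2
  nlinarith

private theorem fam_kap (δ : ℝ) (hδ0 : 0 ≤ δ) (hδ : δ ≤ 1 / 20) (D D' : ℤ) (hD : D ≠ 0)
    (hD' : D' ≠ 0)
    (h1 : ∑ p ∈ D.natAbs.primeFactors, 1 / (p : ℝ) ≤ δ)
    (h2 : ∑ p ∈ D'.natAbs.primeFactors, 1 / (p : ℝ) ≤ δ) :
    kap D D' - 1 ≤ 2 * famO D D' + 20 * δ := by
  have hP : ∏ p ∈ (D * D').natAbs.primeFactors, (1 + 5 / (p : ℝ)) ≤ 1 + 20 * δ := by
    have h3 : ∏ p ∈ (D * D').natAbs.primeFactors, (1 + 5 / (p : ℝ)) ≤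
        Real.exp (∑ p ∈ (D * D').natAbs.primeFactors, 5 / (p : ℝ)) := by
      rw [Real.exp_sum]
      refine prod_le_prod (fun p _ => by positivity) fun p _ => ?_
      have := Real.add_one_le_exp (5 / (p : ℝ))
      linarith
    have h4 : ∑ p ∈ (D * D').natAbs.primeFactors, 5 / (p : ℝ) ≤ 10 * δ := by
      rw [Int.natAbs_mul, Nat.primeFactors_mul (by simpa using hD) (by simpa using hD')]
      have h5 : ∑ p ∈ D.natAbs.primeFactors ∪ D'.natAbs.primeFactors, 5 / (p : ℝ) ≤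
          ∑ p ∈ D.natAbs.primeFactors, 5 / (p : ℝ) +
            ∑ p ∈ D'.natAbs.primeFactors, 5 / (p : ℝ) := by
        rw [← sum_union_inter]
        have : (0 : ℝ) ≤ ∑ p ∈ D.natAbs.primeFactors ∩ D'.natAbs.primeFactors, 5 / (p : ℝ) :=
          sum_nonneg fun p _ => by positivity
        linarith
      have h6 : ∀ s : Finset ℕ, ∑ p ∈ s, 5 / (p : ℝ) = 5 * ∑ p ∈ s, 1 / (p : ℝ) := by
        intro s
        rw [mul_sum]
        refine sum_congr rfl fun p _ => ?_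
        ring
      rw [h6, h6, h6] at h5
      rw [h6]
      linarith
    calc _ ≤ Real.exp (∑ p ∈ (D * D').natAbs.primeFactors, 5 / (p : ℝ)) := h3
      _ ≤ Real.exp (10 * δ) := Real.exp_le_exp.2 h4
      _ ≤ 1 + 2 * (10 * δ) := fam_exp _ (by linarith) (by linarith)
      _ = _ := by ring
  have hO := famO_nonneg D D'
  have hk : kap D D' = (famO D D' + 1) * ∏ p ∈ (D * D').natAbs.primeFactors, (1 + 5 / (p : ℝ)) := by
    unfold kap famO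
    ring
  rw [hk]
  have h7 : (famO D D' + 1) * ∏ p ∈ (D * D').natAbs.primeFactors, (1 + 5 / (p : ℝ)) ≤
      (famO D D' + 1) * (1 + 20 * δ) := mul_le_mul_of_nonneg_left hP (by linarith)
  nlinarith

private theorem fam_half (k₁ J : ℕ) (hk : 1 ≤ k₁) : ∑ k ∈ Icc k₁ J, (1 / 2 : ℝ) ^ k ≤ 1 := by
  have h1 : ∀ J : ℕ, ∑ k ∈ Icc 1 J, (1 / 2 : ℝ) ^ k = 1 - (1 / 2 : ℝ) ^ J := by
    intro J
    induction J with
    | zero => simp
    | succ J ih =>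
      rw [sum_Icc_succ_top (by omega), ih, pow_succ]
      ring
  calc ∑ k ∈ Icc k₁ J, (1 / 2 : ℝ) ^ k ≤ ∑ k ∈ Icc 1 J, (1 / 2 : ℝ) ^ k := by
        apply sum_le_sum_of_subset_of_nonneg
        · intro k hk'
          rw [mem_Icc] at hk' ⊢
          omega
        · intro k _ _
          positivity
    _ ≤ 1 := by
        rw [h1]
        have : (0 : ℝ) ≤ (1 / 2 : ℝ) ^ J := by positivity
        linarith

private theorem fam_harm (k₁ : ℕ) (M : ℝ) : ∃ J : ℕ, M ≤ ∑ k ∈ Icc k₁ J, 1 / (k : ℝ) := by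
  have h1 : ∀ J : ℕ, ∑ i ∈ range J, (1 / ((i : ℝ) + 1)) = ∑ k ∈ Icc 1 J, 1 / (k : ℝ) := by
    intro J
    induction J with
    | zero => simp
    | succ J ih =>
      rw [sum_range_succ, sum_Icc_succ_top (by omega), ih]
      push_cast
      rfl
  obtain ⟨J, hJ⟩ := (Real.tendsto_sum_range_one_div_nat_succ_atTop.eventually
    (Filter.eventually_ge_atTop (M + ∑ k ∈ Icc 1 k₁, 1 / (k : ℝ)))).exists
  refine ⟨J, ?_⟩
  rw [h1] at hJ
  have h2 : ∑ k ∈ Icc 1 J, 1 / (k : ℝ) ≤ ∑ k ∈ Icc k₁ J ∪ Icc 1 k₁, 1 / (k : ℝ) := by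
    apply sum_le_sum_of_subset_of_nonneg
    · intro k hk
      rw [mem_union, mem_Icc, mem_Icc]
      rw [mem_Icc] at hk
      omega
    · intro k _ _
      positivity
  have h3 : ∑ k ∈ Icc k₁ J ∪ Icc 1 k₁, 1 / (k : ℝ) ≤
      ∑ k ∈ Icc k₁ J, 1 / (k : ℝ) + ∑ k ∈ Icc 1 k₁, 1 / (k : ℝ) := by
    rw [← sum_union_inter]
    have : (0 : ℝ) ≤ ∑ k ∈ Icc k₁ J ∩ Icc 1 k₁, 1 / (k : ℝ) := sum_nonneg fun p _ => by positivity
    linarith
  linarith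

private theorem al_nonneg (x : ℕ × ℕ × ℕ) : 0 ≤ al x := by
  unfold al
  positivity

/-- one row of the correlation sum -/
private theorem fam_row (C δ : ℝ) (y r0 k₁ J : ℕ) (hC : 0 ≤ C) (hδ0 : 0 < δ) (hδ : δ ≤ 1 / 20)
    (hy : 3 ≤ y) (hk₁ : 1 ≤ k₁) (hq : 4 * qq y ≤ 2 ^ k₁)
    (hrow : ∀ (δ : ℝ) (y r0 k' : ℕ) (D₁ : ℤ), 0 < δ → δ ≤ 1 / 20 → 3 ≤ y →
      Squarefree D₁ → IsCoprime D₁ (qq y : ℤ) → D₁.natAbs ≤ 64 ^ (k' + 1) → 4 * qq y ≤ 2 ^ k' →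
      ∑ p ∈ D₁.natAbs.primeFactors, 1 / (p : ℝ) ≤ δ →
      ∑ x ∈ Blk (qq y) r0 k', ((2 : ℝ) ^ (Int.gcd D₁ (disc x.1 x.2)).primeFactors.card - 1) ≤
        8 * δ * (8 ^ k' / (4 * (qq y : ℝ)) ^ 2) + C * (2 ^ k' * (2 : ℝ) ^ ((k' : ℝ) / 2)))
    (hr : GoodR (qq y) r0) (x : ℕ × ℕ × ℕ) (hx : x ∈ famF δ (qq y) r0 k₁ J) :
    ∑ x' ∈ famF δ (qq y) r0 k₁ J, (if x.1 ≤ x'.1 then
        al x' * famO (disc x.2.1 x.2.2) (disc x'.2.1 x'.2.2) else 0) ≤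
      8 * δ / (4 * (qq y : ℝ)) ^ 2 * ∑ k ∈ Icc k₁ J, 1 / (k : ℝ) + C := by
  have hqpos : (0 : ℝ) < qq y := by exact_mod_cast qq_pos y
  rw [famF_mem] at hx
  obtain ⟨⟨hx1, hx2⟩, hxG⟩ := hx
  rw [famG_mem] at hxG
  obtain ⟨hxB, hxS, hxP, -⟩ := hxG
  rw [famF_sum, mul_sum]
  have hstep : ∀ k' ∈ Icc k₁ J, ∑ x' ∈ Gk δ (qq y) r0 k', (if x.1 ≤ k' then
      al (k', x') * famO (disc x.2.1 x.2.2) (disc x'.1 x'.2) else 0) ≤
      8 * δ / (4 * (qq y : ℝ)) ^ 2 * (1 / (k' : ℝ)) + C * (1 / 2 : ℝ) ^ k' := by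
    intro k' hk'
    rw [mem_Icc] at hk'
    have hk'0 : (1 : ℝ) ≤ k' := by exact_mod_cast hk₁.trans hk'.1
    have hnn : 0 ≤ 8 * δ / (4 * (qq y : ℝ)) ^ 2 * (1 / (k' : ℝ)) + C * (1 / 2 : ℝ) ^ k' := by
      positivity
    by_cases hk : x.1 ≤ k'
    · simp only [if_pos hk]
      have hg := goodD_of hr hxB hxS
      have ha : (disc x.2.1 x.2.2).natAbs ≤ 64 ^ (k' + 1) :=
        (disc_abs hxB).trans (Nat.pow_le_pow_right (by norm_num) (by omega))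
      have hq' : 4 * qq y ≤ 2 ^ k' := hq.trans (Nat.pow_le_pow_right (by norm_num) hk'.1)
      have h1 := hrow δ y r0 k' _ hδ0 hδ hy hxS hg.cop ha hq' hxP
      have h2 : ∑ x' ∈ Gk δ (qq y) r0 k', al (k', x') * famO (disc x.2.1 x.2.2) (disc x'.1 x'.2) ≤
          1 / ((k' : ℝ) * 8 ^ k') * ∑ x' ∈ Blk (qq y) r0 k',
            ((2 : ℝ) ^ (Int.gcd (disc x.2.1 x.2.2) (disc x'.1 x'.2)).primeFactors.card - 1) := by
        rw [mul_sum]
        have h3 : ∀ x' : ℕ × ℕ, al (k', x') = 1 / ((k' : ℝ) * 8 ^ k') := fun x' => rfl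
        simp only [h3]
        apply sum_le_sum_of_subset_of_nonneg
        · intro z hz
          rw [famG_mem] at hz
          exact hz.1
        · intro z _ _
          have := famO_nonneg (disc x.2.1 x.2.2) (disc z.1 z.2)
          unfold famO at this
          positivity
      refine h2.trans ?_
      have h4 : (0 : ℝ) < 8 ^ k' := by positivity
      calc 1 / ((k' : ℝ) * 8 ^ k') * ∑ x' ∈ Blk (qq y) r0 k',
            ((2 : ℝ) ^ (Int.gcd (disc x.2.1 x.2.2) (disc x'.1 x'.2)).primeFactors.card - 1)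
          ≤ 1 / ((k' : ℝ) * 8 ^ k') * (8 * δ * (8 ^ k' / (4 * (qq y : ℝ)) ^ 2) +
            C * (2 ^ k' * (2 : ℝ) ^ ((k' : ℝ) / 2))) := mul_le_mul_of_nonneg_left h1 (by positivity)
        _ = 8 * δ / (4 * (qq y : ℝ)) ^ 2 * (1 / (k' : ℝ)) +
            C * ((2 ^ k' * (2 : ℝ) ^ ((k' : ℝ) / 2)) / ((k' : ℝ) * 8 ^ k')) := by
            field_simp
        _ ≤ _ := by
            refine add_le_add le_rfl (mul_le_mul_of_nonneg_left ?_ hC)
            rw [div_le_iff₀ (by positivity)]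
            have h5 : (2 : ℝ) ^ ((k' : ℝ) / 2) ≤ 2 ^ k' := by
              rw [← Real.rpow_natCast]
              exact Real.rpow_le_rpow_of_exponent_le (by norm_num) (by linarith)
            have h6 : (1 / 2 : ℝ) ^ k' * (k' * 8 ^ k') = k' * (2 ^ k' * 2 ^ k') := by
              have : (8 : ℝ) ^ k' = 2 ^ k' * 2 ^ k' * 2 ^ k' := by
                rw [← mul_pow, ← mul_pow]
                norm_num
              rw [this, one_div, inv_pow]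
              field_simp
            rw [h6]
            calc (2 : ℝ) ^ k' * (2 : ℝ) ^ ((k' : ℝ) / 2) ≤ 2 ^ k' * 2 ^ k' :=
                  mul_le_mul_of_nonneg_left h5 (by positivity)
              _ ≤ k' * (2 ^ k' * 2 ^ k') := by
                  have : (0 : ℝ) < 2 ^ k' * 2 ^ k' := by positivity
                  nlinarith
    · simp only [if_neg hk, sum_const_zero]
      exact hnn
  refine (sum_le_sum hstep).trans ?_
  rw [sum_add_distrib, ← mul_sum, ← mul_sum]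
  have := mul_le_mul_of_nonneg_left (fam_half k₁ J hk₁) hC
  linarith

theorem family (δ : ℝ) (hδ : 0 < δ) : ∃ y₀ : ℕ, ∀ y r0 : ℕ, y₀ ≤ y → GoodR (qq y) r0 → ∀ T : ℝ,
    ∃ F : Finset (ℕ × ℕ × ℕ),
      (∀ x ∈ F, 1 ≤ x.1 ∧ x.2 ∈ Blk (qq y) r0 x.1 ∧ Squarefree (disc x.2.1 x.2.2)) ∧
      (∀ x ∈ F, ∀ x' ∈ F, disc x.2.1 x.2.2 = disc x'.2.1 x'.2.2 → x = x') ∧
      T ≤ ∑ x ∈ F, al x ∧
      ∑ x ∈ F, ∑ x' ∈ F.erase x, al x * al x' * (kap (disc x.2.1 x.2.2) (disc x'.2.1 x'.2.2) - 1) ≤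
        δ * (∑ x ∈ F, al x) ^ 2 := by
  obtain ⟨C, hC, hrow⟩ := row_sum
  obtain ⟨δ', hδ'⟩ : ∃ δ' : ℝ, δ' = min δ 1 := ⟨_, rfl⟩
  have hδ'0 : 0 < δ' := by rw [hδ']; exact lt_min hδ zero_lt_one
  have hδ'1 : δ' ≤ 1 := by rw [hδ']; exact min_le_right _ _
  have hδ'δ : δ' ≤ δ := by rw [hδ']; exact min_le_left _ _
  obtain ⟨δ₁, hδ₁⟩ : ∃ δ₁ : ℝ, δ₁ = δ' / 200 := ⟨_, rfl⟩
  have hδ₁0 : 0 < δ₁ := by rw [hδ₁]; positivity
  have hδ₁1 : δ₁ ≤ 1 / 20 := by rw [hδ₁]; linarith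
  obtain ⟨y₀, hy₀⟩ := gk_card δ₁ hδ₁0
  refine ⟨max y₀ 3, fun y r0 hy hr T => ?_⟩
  obtain ⟨k₀, hk₀⟩ := hy₀ y r0 ((le_max_left _ _).trans hy) hr
  have hy3 : 3 ≤ y := (le_max_right _ _).trans hy
  obtain ⟨k₁, hk₁⟩ : ∃ k₁ : ℕ, k₁ = max k₀ (4 * qq y) := ⟨_, rfl⟩
  have hqpos := qq_pos y
  have hqposr : (0 : ℝ) < qq y := by exact_mod_cast hqpos
  have hk₁k₀ : k₀ ≤ k₁ := by rw [hk₁]; exact le_max_left _ _
  have hk₁q : 4 * qq y ≤ k₁ := by rw [hk₁]; exact le_max_right _ _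
  have hk₁1 : 1 ≤ k₁ := by omega
  have hq2 : 4 * qq y ≤ 2 ^ k₁ := hk₁q.trans Nat.lt_two_pow_self.le
  obtain ⟨Q2, hQ2⟩ : ∃ Q2 : ℝ, Q2 = (4 * (qq y : ℝ)) ^ 2 := ⟨_, rfl⟩
  have hQ2pos : 0 < Q2 := by rw [hQ2]; positivity
  obtain ⟨J, hJ⟩ := fam_harm k₁ (2 * Q2 * max T (8 * C / δ'))
  obtain ⟨E, hE⟩ : ∃ E : ℝ, E = ∑ x ∈ famF δ₁ (qq y) r0 k₁ J, al x := ⟨_, rfl⟩
  obtain ⟨S, hS⟩ : ∃ S : ℝ, S = ∑ k ∈ Icc k₁ J, 1 / (k : ℝ) := ⟨_, rfl⟩
  rw [← hS] at hJ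
  have hES : S / (2 * Q2) ≤ E := by
    rw [hE, famF_sum, hS, sum_div]
    refine sum_le_sum fun k hk => ?_
    rw [mem_Icc] at hk
    have hk1 : (1 : ℝ) ≤ k := by exact_mod_cast hk₁1.trans hk.1
    have h1 := hk₀ k (hk₁k₀.trans hk.1)
    have h2 : ∑ x ∈ Gk δ₁ (qq y) r0 k, al (k, x) =
        ((Gk δ₁ (qq y) r0 k).card : ℝ) * (1 / ((k : ℝ) * 8 ^ k)) := by
      rw [← nsmul_eq_mul, ← sum_const]
      rfl
    rw [h2]
    rw [← hQ2] at h1
    calc 1 / (k : ℝ) / (2 * Q2) = 1 / 2 * (8 ^ k / Q2) * (1 / ((k : ℝ) * 8 ^ k)) := by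
          field_simp
      _ ≤ _ := mul_le_mul_of_nonneg_right h1 (by positivity)
  have hS2E : S / Q2 ≤ 2 * E := by
    have : S / (2 * Q2) = S / Q2 / 2 := by
      field_simp
    rw [this] at hES
    linarith
  have hEbig : max T (8 * C / δ') ≤ E := by
    refine le_trans ?_ hES
    rw [le_div_iff₀ (by positivity)]
    linarith
  have hE1 : T ≤ E := (le_max_left _ _).trans hEbig
  have hE2 : 8 * C / δ' ≤ E := (le_max_right _ _).trans hEbig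
  have hE0 : 0 ≤ E := by rw [hE]; exact sum_nonneg fun x _ => al_nonneg x
  refine ⟨famF δ₁ (qq y) r0 k₁ J, ?_, ?_, ?_, ?_⟩
  · intro x hx
    rw [famF_mem] at hx
    obtain ⟨⟨hx1, hx2⟩, hxG⟩ := hx
    rw [famG_mem] at hxG
    exact ⟨hk₁1.trans hx1, hxG.1, hxG.2.1⟩
  · intro x hx x' hx' hd
    rw [famF_mem] at hx hx'
    obtain ⟨⟨hx1, hx2⟩, hxG⟩ := hx
    obtain ⟨⟨hx1', hx2'⟩, hxG'⟩ := hx'
    rw [famG_mem] at hxG hxG'
    by_contra hne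
    rcases le_total x.1 x'.1 with h | h
    · exact hxG'.2.2.2 x.1 x.2 h hxG.1 hne hd
    · exact hxG.2.2.2 x'.1 x'.2 h hxG'.1 (fun he => hne he.symm) hd.symm
  · rw [← hE]
    exact hE1
  · rw [← hE]
    set F := famF δ₁ (qq y) r0 k₁ J with hF
    have hmem : ∀ x ∈ F, disc x.2.1 x.2.2 ≠ 0 ∧
        ∑ p ∈ (disc x.2.1 x.2.2).natAbs.primeFactors, 1 / (p : ℝ) ≤ δ₁ := by
      intro x hx
      rw [hF, famF_mem] at hx
      obtain ⟨_, hxG⟩ := hx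
      rw [famG_mem] at hxG
      exact ⟨hxG.2.1.ne_zero, hxG.2.2.1⟩
    have hstep1 : ∑ x ∈ F, ∑ x' ∈ F.erase x,
        al x * al x' * (kap (disc x.2.1 x.2.2) (disc x'.2.1 x'.2.2) - 1) ≤
        ∑ x ∈ F, ∑ x' ∈ F, (al x * al x' * (20 * δ₁) +
          2 * (al x * (al x' * famO (disc x.2.1 x.2.2) (disc x'.2.1 x'.2.2)))) := by
      refine sum_le_sum fun x hx => ?_
      have hnn : ∀ x' : ℕ × ℕ × ℕ, 0 ≤ al x * al x' * (20 * δ₁) +
          2 * (al x * (al x' * famO (disc x.2.1 x.2.2) (disc x'.2.1 x'.2.2))) := by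
        intro x'
        have h1 := al_nonneg x
        have h2 := al_nonneg x'
        have h3 := famO_nonneg (disc x.2.1 x.2.2) (disc x'.2.1 x'.2.2)
        positivity
      calc ∑ x' ∈ F.erase x, al x * al x' * (kap (disc x.2.1 x.2.2) (disc x'.2.1 x'.2.2) - 1)
          ≤ ∑ x' ∈ F.erase x, (al x * al x' * (20 * δ₁) +
            2 * (al x * (al x' * famO (disc x.2.1 x.2.2) (disc x'.2.1 x'.2.2)))) := by
            refine sum_le_sum fun x' hx' => ?_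
            obtain ⟨a1, a2⟩ := hmem x hx
            obtain ⟨b1, b2⟩ := hmem x' (mem_of_mem_erase hx')
            have h1 := fam_kap δ₁ hδ₁0.le hδ₁1 _ _ a1 b1 a2 b2
            have h2 : 0 ≤ al x * al x' := mul_nonneg (al_nonneg x) (al_nonneg x')
            calc al x * al x' * (kap (disc x.2.1 x.2.2) (disc x'.2.1 x'.2.2) - 1) ≤
                al x * al x' * (2 * famO (disc x.2.1 x.2.2) (disc x'.2.1 x'.2.2) + 20 * δ₁) :=
                  mul_le_mul_of_nonneg_left h1 h2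
              _ = _ := by ring
        _ ≤ _ := sum_le_sum_of_subset_of_nonneg (erase_subset _ _) fun x' _ _ => hnn x'
    have hstep2 : ∑ x ∈ F, ∑ x' ∈ F, (al x * al x' * (20 * δ₁) +
          2 * (al x * (al x' * famO (disc x.2.1 x.2.2) (disc x'.2.1 x'.2.2)))) =
        20 * δ₁ * E ^ 2 + 2 * ∑ x ∈ F, ∑ x' ∈ F,
          al x * (al x' * famO (disc x.2.1 x.2.2) (disc x'.2.1 x'.2.2)) := by
      have e1 : ∑ x ∈ F, ∑ x' ∈ F, al x * al x' * (20 * δ₁) = 20 * δ₁ * E ^ 2 := by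
        have e2 : ∑ x ∈ F, ∑ x' ∈ F, al x * al x' * (20 * δ₁) =
            (∑ x ∈ F, al x) * (∑ x' ∈ F, al x') * (20 * δ₁) := by
          rw [sum_mul_sum, sum_mul]
          exact sum_congr rfl fun x _ => by rw [sum_mul]
        rw [e2, ← hE]
        ring
      simp only [sum_add_distrib]
      rw [e1]
      congr 1
      rw [mul_sum]
      exact sum_congr rfl fun x _ => by rw [mul_sum]
    have hrowF : ∀ x ∈ F, ∑ x' ∈ F, (if x.1 ≤ x'.1 then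
        al x' * famO (disc x.2.1 x.2.2) (disc x'.2.1 x'.2.2) else 0) ≤ 16 * δ₁ * E + C := by
      intro x hx
      have h1 := fam_row C δ₁ y r0 k₁ J hC hδ₁0 hδ₁1 hy3 hk₁1 hq2 hrow hr x hx
      rw [← hF, ← hQ2, ← hS] at h1
      refine h1.trans ?_
      have h2 : 8 * δ₁ / Q2 * S = 8 * δ₁ * (S / Q2) := by ring
      rw [h2]
      have h3 : 8 * δ₁ * (S / Q2) ≤ 8 * δ₁ * (2 * E) :=
        mul_le_mul_of_nonneg_left hS2E (by positivity)
      linarith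
    have hstep3 : ∑ x ∈ F, ∑ x' ∈ F,
        al x * (al x' * famO (disc x.2.1 x.2.2) (disc x'.2.1 x'.2.2)) ≤
        2 * (E * (16 * δ₁ * E + C)) := by
      have hA : ∑ x ∈ F, al x * ∑ x' ∈ F, (if x.1 ≤ x'.1 then
          al x' * famO (disc x.2.1 x.2.2) (disc x'.2.1 x'.2.2) else 0) ≤
          E * (16 * δ₁ * E + C) := by
        rw [hE, sum_mul]
        refine sum_le_sum fun x hx => ?_
        rw [← hE]
        exact mul_le_mul_of_nonneg_left (hrowF x hx) (al_nonneg x)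
      have hB : ∑ x ∈ F, ∑ x' ∈ F,
          al x * (al x' * famO (disc x.2.1 x.2.2) (disc x'.2.1 x'.2.2)) ≤
          ∑ x ∈ F, al x * ∑ x' ∈ F, (if x.1 ≤ x'.1 then
            al x' * famO (disc x.2.1 x.2.2) (disc x'.2.1 x'.2.2) else 0) +
          ∑ x ∈ F, al x * ∑ x' ∈ F, (if x.1 ≤ x'.1 then
            al x' * famO (disc x.2.1 x.2.2) (disc x'.2.1 x'.2.2) else 0) := by
        have hsw : ∑ x ∈ F, al x * ∑ x' ∈ F, (if x.1 ≤ x'.1 then
            al x' * famO (disc x.2.1 x.2.2) (disc x'.2.1 x'.2.2) else 0) =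
            ∑ x ∈ F, ∑ x' ∈ F, (if x'.1 ≤ x.1 then
              al x * (al x' * famO (disc x.2.1 x.2.2) (disc x'.2.1 x'.2.2)) else 0) := by
          simp only [mul_sum]
          rw [sum_comm]
          refine sum_congr rfl fun x _ => sum_congr rfl fun x' _ => ?_
          split_ifs
          · rw [famO_comm]
            ring
          · rw [mul_zero]
        nth_rewrite 2 [hsw]
        simp only [mul_sum]
        rw [← sum_add_distrib]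
        refine sum_le_sum fun x _ => ?_
        rw [← sum_add_distrib]
        refine sum_le_sum fun x' _ => ?_
        have h1 : 0 ≤ al x * (al x' * famO (disc x.2.1 x.2.2) (disc x'.2.1 x'.2.2)) :=
          mul_nonneg (al_nonneg x) (mul_nonneg (al_nonneg x') (famO_nonneg _ _))
        rcases le_total x.1 x'.1 with h | h
        · rw [if_pos h]
          split_ifs <;> linarith
        · rw [if_pos h]
          have h2 : 0 ≤ al x * (if x.1 ≤ x'.1 then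
              al x' * famO (disc x.2.1 x.2.2) (disc x'.2.1 x'.2.2) else 0) := by
            split_ifs
            · exact h1
            · rw [mul_zero]
          linarith
      linarith
    have hfin : 20 * δ₁ * E ^ 2 + 2 * (2 * (E * (16 * δ₁ * E + C))) ≤ δ * E ^ 2 := by
      have h1 : 8 * C ≤ δ' * E := by
        rw [div_le_iff₀ hδ'0] at hE2
        linarith
      have h2 : 8 * C * E ≤ δ' * E * E := mul_le_mul_of_nonneg_right h1 hE0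
      have h3 : δ' * E ^ 2 ≤ δ * E ^ 2 := mul_le_mul_of_nonneg_right hδ'δ (by positivity)
      have h4 : 0 ≤ δ' * E ^ 2 := by positivity
      have h5 : 20 * δ₁ * E ^ 2 + 2 * (2 * (E * (16 * δ₁ * E + C))) =
          84 * δ₁ * E ^ 2 + 4 * C * E := by ring
      rw [h5, hδ₁]
      nlinarith
    calc _ ≤ _ := hstep1
      _ = _ := hstep2
      _ ≤ 20 * δ₁ * E ^ 2 + 2 * (2 * (E * (16 * δ₁ * E + C))) := by linarith
      _ ≤ _ := hfin

end Pool.Agent.Work.MP_43ce8a_nt.D
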