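import Pool.Agent.Work.MP_43ce8a_nt.D.Defs

set_option autoImplicit false

/-!
Module SvDy (size S). Reciprocals of primes between y and y^2.

PROOF. Pool.Agent.Work.MP_2dba45_nt.Mert.mertens_one gives C with
|∑_{p ≤ N} log p / p - log N| ≤ C for N ≥ 1. For y ≥ 2 (N₁ = ceil of y minus 1, N₂ = floor of y^2):
∑_{y ≤ p < y²} 1/p ≤ (1/log y) ∑_{y ≤ p < y²} log p / p ≤ (log (y²) - log (y - 1) + 2 C)/log y,
bounded. For 1 ≤ y < 2 only p = 2, 3 can occur. (Alternatively: mertens_third in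
Pool.Agent.Work.MP_73869e_nt.N.)
-/

namespace Pool.Agent.Work.MP_43ce8a_nt.D

open Finset

theorem dyadic : ∃ L₁ : ℝ, 0 ≤ L₁ ∧ ∀ P : Finset ℕ, (∀ p ∈ P, p.Prime) → ∀ y : ℝ, 1 ≤ y →
    ∑ p ∈ P.filter (fun p : ℕ => y ≤ (p : ℝ) ∧ (p : ℝ) < y ^ 2), 1 / (p : ℝ) ≤ L₁ := by
  obtain ⟨C, hC⟩ := Pool.Agent.Work.MP_2dba45_nt.Mert.mertens_one
  have hC0 : 0 ≤ C := le_trans (abs_nonneg _) (hC 1 one_pos)
  have hl2 : 0 < Real.log 2 := Real.log_pos (by norm_num)
  refine ⟨2 + 2 * C / Real.log 2, by positivity, ?_⟩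
  intro P hP y hy
  by_cases hy2 : y < 2
  · -- only 2 and 3
    have hsub : P.filter (fun p : ℕ => y ≤ (p : ℝ) ∧ (p : ℝ) < y ^ 2) ⊆ {2, 3} := by
      intro p hp
      rw [Finset.mem_filter] at hp
      have h1 := (hP p hp.1).two_le
      have h2 : (p : ℝ) < 4 := by nlinarith [hp.2.2]
      have h3 : p < 4 := by exact_mod_cast h2
      have : p = 2 ∨ p = 3 := by omega
      simpa using this
    refine (Finset.sum_le_sum_of_subset_of_nonneg hsub fun p _ _ => by positivity).trans ?_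
    rw [Finset.sum_pair (by norm_num)]
    have : 0 ≤ 2 * C / Real.log 2 := by positivity
    norm_num
    linarith
  · rw [not_lt] at hy2
    have hy0 : 0 < y := by linarith
    have hly : Real.log 2 ≤ Real.log y := Real.log_le_log (by norm_num) hy2
    have hly0 : 0 < Real.log y := lt_of_lt_of_le hl2 hly
    set N1 : ℕ := ⌈y⌉₊ - 1 with hN1
    set N2 : ℕ := ⌊y ^ 2⌋₊ with hN2
    have hceil : 2 ≤ ⌈y⌉₊ := by
      have : (2 : ℝ) ≤ (⌈y⌉₊ : ℝ) := hy2.trans (Nat.le_ceil y)
      exact_mod_cast this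
    have hN1pos : 0 < N1 := by omega
    have hN1r : y / 2 ≤ (N1 : ℝ) := by
      have h1 : (N1 : ℝ) + 1 = (⌈y⌉₊ : ℝ) := by
        have : N1 + 1 = ⌈y⌉₊ := by omega
        exact_mod_cast this
      have h2 := Nat.le_ceil y
      linarith
    have hN2r : (N2 : ℝ) ≤ y ^ 2 := Nat.floor_le (by positivity)
    have hN12 : N1 ≤ N2 := by
      have h1 : (N1 : ℝ) < y := by
        have h1 : (N1 : ℝ) + 1 = (⌈y⌉₊ : ℝ) := by
          have : N1 + 1 = ⌈y⌉₊ := by omega
          exact_mod_cast this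
        have h2 := Nat.ceil_lt_add_one hy0.le
        linarith
      apply Nat.le_floor
      nlinarith
    have hsub : P.filter (fun p : ℕ => y ≤ (p : ℝ) ∧ (p : ℝ) < y ^ 2) ⊆
        (Ioc N1 N2).filter Nat.Prime := by
      intro p hp
      rw [Finset.mem_filter] at hp
      rw [Finset.mem_filter, Finset.mem_Ioc]
      refine ⟨⟨?_, ?_⟩, hP p hp.1⟩
      · have : ⌈y⌉₊ ≤ p := Nat.ceil_le.2 hp.2.1
        omega
      · exact Nat.le_floor hp.2.2.le
    have hterm : ∀ p ∈ P.filter (fun p : ℕ => y ≤ (p : ℝ) ∧ (p : ℝ) < y ^ 2),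
        1 / (p : ℝ) ≤ (1 / Real.log y) * (Real.log p / p) := by
      intro p hp
      rw [Finset.mem_filter] at hp
      have hp0 : (0 : ℝ) < p := by linarith [hp.2.1]
      have h1 : Real.log y ≤ Real.log p := Real.log_le_log hy0 hp.2.1
      rw [div_mul_div_comm, one_mul, div_le_div_iff₀ hp0 (by positivity), one_mul]
      exact mul_le_mul_of_nonneg_right h1 hp0.le
    have h1 : ∑ p ∈ (Ioc N1 N2).filter Nat.Prime, Real.log p / p =
        ∑ p ∈ (Ioc 0 N2).filter Nat.Prime, Real.log p / p -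
          ∑ p ∈ (Ioc 0 N1).filter Nat.Prime, Real.log p / p := by
      rw [Finset.sum_filter, Finset.sum_filter, Finset.sum_filter,
        ← Finset.sum_Ioc_consecutive _ (Nat.zero_le N1) hN12]
      ring
    have hN2pos : 0 < N2 := lt_of_lt_of_le hN1pos hN12
    have h2 := (abs_le.1 (hC N2 hN2pos)).2
    have h3 := (abs_le.1 (hC N1 hN1pos)).1
    have h4 : Real.log N2 ≤ 2 * Real.log y := by
      have : Real.log N2 ≤ Real.log (y ^ 2) :=
        Real.log_le_log (by exact_mod_cast hN2pos) hN2r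
      rwa [Real.log_pow] at this
    have h5 : Real.log y - Real.log 2 ≤ Real.log N1 := by
      rw [← Real.log_div hy0.ne' (by norm_num)]
      exact Real.log_le_log (by positivity) hN1r
    have h6 : ∑ p ∈ (Ioc N1 N2).filter Nat.Prime, Real.log p / p ≤
        Real.log y + Real.log 2 + 2 * C := by
      rw [h1]
      linarith
    calc ∑ p ∈ P.filter (fun p : ℕ => y ≤ (p : ℝ) ∧ (p : ℝ) < y ^ 2), 1 / (p : ℝ)
        ≤ ∑ p ∈ P.filter (fun p : ℕ => y ≤ (p : ℝ) ∧ (p : ℝ) < y ^ 2),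
            (1 / Real.log y) * (Real.log p / p) := Finset.sum_le_sum hterm
      _ ≤ ∑ p ∈ (Ioc N1 N2).filter Nat.Prime, (1 / Real.log y) * (Real.log p / p) := by
          apply Finset.sum_le_sum_of_subset_of_nonneg hsub
          intro p _ _
          have : 0 ≤ Real.log p := Real.log_natCast_nonneg p
          positivity
      _ = (1 / Real.log y) * ∑ p ∈ (Ioc N1 N2).filter Nat.Prime, (Real.log p / p) := by
          rw [Finset.mul_sum]
      _ ≤ (1 / Real.log y) * (Real.log y + Real.log 2 + 2 * C) := by gcongr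
      _ = 1 + Real.log 2 / Real.log y + 2 * C / Real.log y := by
          field_simp
      _ ≤ 1 + 1 + 2 * C / Real.log 2 := by
          gcongr
          rw [div_le_one hly0]
          exact hly
      _ = 2 + 2 * C / Real.log 2 := by ring

end Pool.Agent.Work.MP_43ce8a_nt.D
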