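import Pool.Agent.Work.MP_43ce8a_nt.D.SvFL
import Pool.Agent.Work.MP_43ce8a_nt.D.SvDy

set_option autoImplicit false

/-!
Module Sv (size S). The sieve in the form used here: sieve_fl with L₀ = 4 L₁ (dyadic); for p ≥ 8,
g p ≤ 4 / p ≤ 1 / 2.
-/

namespace Pool.Agent.Work.MP_43ce8a_nt.D

open Finset

open Classical in
theorem sieve : ∃ b₀ : ℕ, ∀ b : ℕ, b₀ ≤ b →
    ∀ (z : ℕ) (P : Finset ℕ) (g : ℕ → ℝ), 2 ≤ z → (∀ p ∈ P, p.Prime ∧ 8 ≤ p ∧ p < z) →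
      (∀ p ∈ P, 0 ≤ g p ∧ g p ≤ 4 / (p : ℝ)) →
      ∀ {ι : Type} (A : Finset ι) (E : ι → ℕ → Prop) (X ρ : ℝ), 0 ≤ X → 0 ≤ ρ →
        (∀ d ⊆ P, ((∏ p ∈ d, p : ℕ) : ℝ) ≤ (z : ℝ) ^ (4 * b + 10) →
          |((A.filter fun a => ∀ p ∈ d, E a p).card : ℝ) - X * ∏ p ∈ d, g p| ≤ ρ) →
        |((A.filter fun a => ∀ p ∈ P, ¬ E a p).card : ℝ) - X * ∏ p ∈ P, (1 - g p)| ≤
          Real.exp (-b) * (X * ∏ p ∈ P, (1 - g p)) + (1 + z) * (z : ℝ) ^ (4 * b + 10) * ρ := by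
  obtain ⟨L₁, hL₁, hdy⟩ := dyadic
  obtain ⟨b₀, hb₀⟩ := sieve_fl (4 * L₁) (by positivity)
  refine ⟨b₀, ?_⟩
  intro b hb z P g hz hP hg ι A E X ρ hX hρ hA
  refine hb₀ b hb z P g hz (fun p hp => ⟨(hP p hp).1, (hP p hp).2.2⟩) ?_ ?_ A E X ρ hX hρ hA
  · intro p hp
    refine ⟨(hg p hp).1, (hg p hp).2.trans ?_⟩
    have h8 : (8 : ℝ) ≤ p := by exact_mod_cast (hP p hp).2.1
    rw [div_le_div_iff₀ (by linarith) (by norm_num)]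
    linarith
  · intro y hy
    have h1 := hdy P (fun p hp => (hP p hp).1) y hy
    calc ∑ p ∈ P.filter (fun p : ℕ => y ≤ (p : ℝ) ∧ (p : ℝ) < y ^ 2), g p
        ≤ ∑ p ∈ P.filter (fun p : ℕ => y ≤ (p : ℝ) ∧ (p : ℝ) < y ^ 2), 4 * (1 / (p : ℝ)) := by
          apply Finset.sum_le_sum
          intro p hp
          have := (hg p (Finset.mem_filter.1 hp).1).2
          calc g p ≤ 4 / (p : ℝ) := this
            _ = 4 * (1 / (p : ℝ)) := by ring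
      _ = 4 * ∑ p ∈ P.filter (fun p : ℕ => y ≤ (p : ℝ) ∧ (p : ℝ) < y ^ 2), 1 / (p : ℝ) := by
          rw [Finset.mul_sum]
      _ ≤ 4 * L₁ := by linarith

end Pool.Agent.Work.MP_43ce8a_nt.D
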