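import Pool.Agent.Work.MP_43ce8a_nt.D.FmD
import Pool.Agent.Work.MP_43ce8a_nt.D.Sv

set_option autoImplicit false

/-!
Module Fm (size M). The first moment.

PROOF. Put q = qq y. (1) ∑_{n ∈ Nset} rep n = card {(w, v) ∈ Sset | ∀ p ∈ pr y z, ¬ p ∣ w² - D v²}:
the pairs (n, v) counted by the left side correspond to (w, v), w > 0 being determined by w² = 4n + D v²
(w ≠ 0 because w ≡ w0 mod q and w0 is prime to q > 1), w ≤ 4 N by Geo.hi. Conversely for (w, v) in Sset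
the integer w² - D v² is ≡ w0² - D v0² ≡ 4 b1 mod 2 q (w ≡ w0 mod q and q even give w² ≡ w0² mod 2q), so
(w² - D v²)/4 =: n is an integer, n ≡ b1 mod q/2; it is in (N, N + H]; and for odd p, p ∣ n iff
p ∣ w² - D v² (Nset_eq, QB). (2) Apply sieve (Sv) with A = Sset, E (w, v) p := (p : ℤ) ∣ w² - D v²,
P = pr y z, g p = rho1 D p / p² (0 ≤ g ≤ 2/p by rho1_le), X = X1, ρ = 20 (z^(4b+10))² √N by fm_level;
1 - g p = (1 - 1/p)(1 - chi D p / p) by rho1_prime, so ∏ (1 - g) = Wz * Pz.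
-/

namespace Pool.Agent.Work.MP_43ce8a_nt.D

open Finset

private theorem fm_dvd {q w w0 v v0 : ℕ} {D : ℤ} {b1 : ℕ} (hq2 : 2 ∣ q) (hw : w % q = w0 % q)
    (hv : v % (2 * q) = v0 % (2 * q))
    (hloc : ((2 * q : ℕ) : ℤ) ∣ (w0 : ℤ) ^ 2 - D * (v0 : ℤ) ^ 2 - 4 * b1) :
    ((2 * q : ℕ) : ℤ) ∣ (w : ℤ) ^ 2 - D * (v : ℤ) ^ 2 - 4 * b1 := by
  have h1 : (q : ℤ) ∣ (w : ℤ) - w0 := by
    have : (w0 : ℕ) ≡ w [MOD q] := hw.symm
    exact (Nat.modEq_iff_dvd).1 this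
  have h2 : ((2 * q : ℕ) : ℤ) ∣ (v : ℤ) - v0 := by
    have : (v0 : ℕ) ≡ v [MOD 2 * q] := hv.symm
    exact (Nat.modEq_iff_dvd).1 this
  have h3 : ((2 * q : ℕ) : ℤ) ∣ (w : ℤ) ^ 2 - (w0 : ℤ) ^ 2 := by
    obtain ⟨t, ht⟩ := h1
    obtain ⟨r, hr⟩ := hq2
    have e1 : (w : ℤ) = w0 + q * t := by linarith
    have e2 : (q : ℤ) = 2 * r := by exact_mod_cast hr
    refine ⟨t * w0 + r * t ^ 2, ?_⟩
    rw [e1]
    push_cast
    have : ((w0 : ℤ) + q * t) ^ 2 - (w0 : ℤ) ^ 2 = 2 * q * (t * w0) + q * (q * t ^ 2) := by ring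
    rw [this]
    conv_lhs => rw [e2]
    rw [e2]
    ring
  have h4 : ((2 * q : ℕ) : ℤ) ∣ D * (v : ℤ) ^ 2 - D * (v0 : ℤ) ^ 2 := by
    have : D * (v : ℤ) ^ 2 - D * (v0 : ℤ) ^ 2 = ((v : ℤ) - v0) * (D * (v + v0)) := by ring
    rw [this]
    exact Dvd.dvd.mul_right h2 _
  have : (w : ℤ) ^ 2 - D * (v : ℤ) ^ 2 - 4 * b1 = ((w : ℤ) ^ 2 - (w0 : ℤ) ^ 2) -
      (D * (v : ℤ) ^ 2 - D * (v0 : ℤ) ^ 2) + ((w0 : ℤ) ^ 2 - D * (v0 : ℤ) ^ 2 - 4 * b1) := by ring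
  rw [this]
  exact dvd_add (dvd_sub h3 h4) hloc

theorem sum_rep_eq {y b1 w0 v0 z : ℕ} {D : ℤ} {N H a h : ℕ} (hy : 8 ≤ y)
    (hb : b1.Coprime (qq y)) (hw : w0.Coprime (qq y))
    (hloc : ((2 * qq y : ℕ) : ℤ) ∣ (w0 : ℤ) ^ 2 - D * (v0 : ℤ) ^ 2 - 4 * b1)
    (hG : Geo D N H a h) :
    ∑ n ∈ Nset (qq y) b1 z N H, rep (qq y) w0 v0 D a h n =
      ((Sset (qq y) w0 v0 D N H a h).filter fun x =>
        ∀ p ∈ pr y z, ¬ (p : ℤ) ∣ (x.1 : ℤ) ^ 2 - D * (x.2 : ℤ) ^ 2).card := by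
  classical
  have hy2 : 2 ≤ y := by omega
  have hqpos := qq_pos y
  have hq2 := (qq_half y).2
  have hMo := Mo_pos y
  have hq16 : 16 ≤ qq y := by unfold qq; omega
  unfold rep
  rw [← Finset.card_sigma]
  symm
  apply Finset.card_bij
    (fun (x : ℕ × ℕ) _ => (⟨(((x.1 : ℤ) ^ 2 - D * (x.2 : ℤ) ^ 2) / 4).toNat, x.2⟩ : (_ : ℕ) × ℕ))
  · rintro ⟨w, v⟩ hx
    rw [Finset.mem_filter] at hx
    obtain ⟨hx1, hx2⟩ := hx
    unfold Sset at hx1
    rw [Finset.mem_filter, Finset.mem_product] at hx1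
    obtain ⟨⟨hw1, hv1⟩, hwq, hvq, hlo, hhi⟩ := hx1
    simp only at hw1 hv1 hwq hvq hlo hhi hx2
    obtain ⟨t, ht⟩ := fm_dvd ⟨qq y / 2, hq2.symm⟩ hwq hvq hloc
    have e1 : (w : ℤ) ^ 2 - D * (v : ℤ) ^ 2 = 4 * (b1 + (qq y / 2 : ℕ) * t) := by
      have h2 : ((2 * qq y : ℕ) : ℤ) = 4 * ((qq y / 2 : ℕ) : ℤ) := by
        have : 2 * qq y = 4 * (qq y / 2) := by omega
        exact_mod_cast this
      rw [h2] at ht
      linarith
    set n' : ℤ := b1 + (qq y / 2 : ℕ) * t with hn'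
    have e2 : ((w : ℤ) ^ 2 - D * (v : ℤ) ^ 2) / 4 = n' := by
      rw [e1]
      exact Int.mul_ediv_cancel_left _ (by norm_num)
    have hpos : 0 ≤ n' := by
      have : (0 : ℤ) ≤ N := by positivity
      linarith
    have e3 : ((n'.toNat : ℕ) : ℤ) = n' := Int.toNat_of_nonneg hpos
    rw [Finset.mem_sigma]
    simp only
    rw [e2]
    constructor
    · rw [Nset_eq hy2 hb, Finset.mem_filter, Finset.mem_filter, Finset.mem_Ioc]
      refine ⟨⟨⟨?_, ?_⟩, ?_⟩, ?_⟩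
      · have : (N : ℤ) < ((n'.toNat : ℕ) : ℤ) := by rw [e3]; linarith
        exact_mod_cast this
      · have : ((n'.toNat : ℕ) : ℤ) ≤ ((N + H : ℕ) : ℤ) := by
          rw [e3]; push_cast; linarith
        exact_mod_cast this
      · have h5 : b1 ≡ n'.toNat [MOD qq y / 2] := by
          rw [Nat.modEq_iff_dvd, e3, hn']
          exact ⟨t, by ring⟩
        exact h5.symm
      · intro p hp hpn
        apply hx2 p hp
        rw [e1, ← e3]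
        exact Dvd.dvd.mul_left (by exact_mod_cast hpn) _
    · rw [Finset.mem_filter]
      refine ⟨hv1, hvq, w, hwq, ?_⟩
      rw [e3]
      linarith
  · rintro ⟨w, v⟩ hx ⟨w', v'⟩ hx' heq
    rw [Finset.mem_filter] at hx hx'
    obtain ⟨hx1, _⟩ := hx
    obtain ⟨hx1', _⟩ := hx'
    unfold Sset at hx1 hx1'
    rw [Finset.mem_filter, Finset.mem_product] at hx1 hx1'
    obtain ⟨⟨hw1, hv1⟩, hwq, hvq, hlo, hhi⟩ := hx1
    obtain ⟨⟨hw1', hv1'⟩, hwq', hvq', hlo', hhi'⟩ := hx1'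
    simp only at hw1 hv1 hwq hvq hlo hhi hw1' hv1' hwq' hvq' hlo' hhi'
    simp only [Sigma.mk.injEq] at heq
    obtain ⟨h1, h2⟩ := heq
    have h2' : v = v' := eq_of_heq h2
    subst h2'
    have key : ∀ w : ℕ, w % qq y = w0 % qq y → 4 * (N : ℤ) < (w : ℤ) ^ 2 - D * (v : ℤ) ^ 2 →
        (w : ℤ) ^ 2 - D * (v : ℤ) ^ 2 =
          4 * (((((w : ℤ) ^ 2 - D * (v : ℤ) ^ 2) / 4).toNat : ℕ) : ℤ) := by
      intro w hwq hlo
      obtain ⟨t, ht⟩ := fm_dvd ⟨qq y / 2, hq2.symm⟩ hwq hvq hloc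
      have e1 : (w : ℤ) ^ 2 - D * (v : ℤ) ^ 2 = 4 * (b1 + (qq y / 2 : ℕ) * t) := by
        have h2 : ((2 * qq y : ℕ) : ℤ) = 4 * ((qq y / 2 : ℕ) : ℤ) := by
          have : 2 * qq y = 4 * (qq y / 2) := by omega
          exact_mod_cast this
        rw [h2] at ht
        linarith
      have e2 : ((w : ℤ) ^ 2 - D * (v : ℤ) ^ 2) / 4 = b1 + (qq y / 2 : ℕ) * t := by
        rw [e1]
        exact Int.mul_ediv_cancel_left _ (by norm_num)
      have hpos : 0 ≤ (b1 : ℤ) + (qq y / 2 : ℕ) * t := by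
        have : (0 : ℤ) ≤ N := by positivity
        linarith
      rw [e2, Int.toNat_of_nonneg hpos, e1]
    have k1 := key w hwq hlo
    have k2 := key w' hwq' hlo'
    rw [h1] at k1
    rw [← k2] at k1
    have h3 : (w : ℤ) ^ 2 = (w' : ℤ) ^ 2 := by linarith
    have h4 : w ^ 2 = w' ^ 2 := by exact_mod_cast h3
    have h5 : w = w' := Nat.pow_left_injective (n := 2) (by norm_num) h4
    rw [h5]
  · rintro ⟨n, v⟩ hx
    rw [Finset.mem_sigma, Finset.mem_filter] at hx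
    obtain ⟨hn, hv, hvq, w, hwq, hw2⟩ := hx
    simp only at hn hv hvq hw2
    rw [Nset_eq hy2 hb, Finset.mem_filter, Finset.mem_filter, Finset.mem_Ioc] at hn
    obtain ⟨⟨⟨hn1, hn2⟩, hnQ⟩, hnp⟩ := hn
    have hn1' : (N : ℤ) < n := by exact_mod_cast hn1
    have hn2' : (n : ℤ) ≤ N + H := by exact_mod_cast hn2
    have hN1 := hG.N1
    refine ⟨(w, v), ?_, ?_⟩
    · rw [Finset.mem_filter]
      unfold Sset
      rw [Finset.mem_filter, Finset.mem_product, Finset.mem_Icc]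
      simp only
      refine ⟨⟨⟨⟨?_, ?_⟩, hv⟩, hwq, hvq, ?_, ?_⟩, ?_⟩
      · by_contra h0
        have hw0 : w = 0 := by omega
        rw [hw0, Nat.zero_mod] at hwq
        have h1 : qq y ∣ w0 := Nat.dvd_of_mod_eq_zero hwq.symm
        have h2 := Nat.Coprime.eq_one_of_dvd hw.symm h1
        omega
      · have h1 := hG.hi v hv
        have h2 : (w : ℤ) ^ 2 ≤ (4 * (N : ℤ)) ^ 2 := by
          have hN' : (1 : ℤ) ≤ N := by exact_mod_cast hN1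
          nlinarith
        have h3 : (w : ℤ) ≤ 4 * (N : ℤ) := by
          apply abs_le_of_sq_le_sq' h2 (by positivity) |>.2
        exact_mod_cast h3
      · linarith
      · linarith
      · intro p hp hpd
        have hpp := (mem_pr.1 hp).2.2
        have hpy := (mem_pr.1 hp).1
        have e : (w : ℤ) ^ 2 - D * (v : ℤ) ^ 2 = ((4 * n : ℕ) : ℤ) := by
          push_cast; linarith
        rw [e] at hpd
        have h1 : p ∣ 4 * n := by exact_mod_cast hpd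
        rcases (hpp.dvd_mul).1 h1 with h2 | h2
        · have : p ≤ 4 := Nat.le_of_dvd (by norm_num) h2
          omega
        · exact hnp p hp h2
    · have e : (w : ℤ) ^ 2 - D * (v : ℤ) ^ 2 = 4 * (n : ℤ) := by linarith
      simp only
      rw [e, Int.mul_ediv_cancel_left _ (by norm_num : (4 : ℤ) ≠ 0), Int.toNat_natCast]

theorem first_moment : ∃ b₀ : ℕ, ∀ b : ℕ, b₀ ≤ b → ∀ (y b1 w0 v0 z : ℕ) (D : ℤ) (N H a h : ℕ),
    8 ≤ y → y < z → b1.Coprime (qq y) → w0.Coprime (qq y) →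
    ((2 * qq y : ℕ) : ℤ) ∣ (w0 : ℤ) ^ 2 - D * (v0 : ℤ) ^ 2 - 4 * b1 → Geo D N H a h →
    |((∑ n ∈ Nset (qq y) b1 z N H, rep (qq y) w0 v0 D a h n : ℕ) : ℝ) -
      X1 (qq y) D N H a h * (Wz y z * Pz D y z)| ≤
      Real.exp (-b) * (X1 (qq y) D N H a h * (Wz y z * Pz D y z)) +
        20 * (1 + z) * (z : ℝ) ^ (3 * (4 * b + 10)) * Real.sqrt N := by
  classical
  obtain ⟨b₀, hb₀⟩ := sieve
  refine ⟨b₀, ?_⟩
  intro b hb y b1 w0 v0 z D N H a h hy hyz hb1 hw0 hloc hG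
  have hy2 : 2 ≤ y := by omega
  have hp2 : ∀ p ∈ pr y z, p ≠ 2 := by
    intro p hp h2
    have := (mem_pr.1 hp).1
    omega
  have key := hb₀ b hb z (pr y z) (fun p => (rho1 D p : ℝ) / (p : ℝ) ^ 2) (by omega)
    (fun p hp => ⟨(mem_pr.1 hp).2.2, by have := (mem_pr.1 hp).1; omega, (mem_pr.1 hp).2.1⟩)
    (fun p hp => ⟨by positivity, by
      have hp0 : (0 : ℝ) < p := by exact_mod_cast (mem_pr.1 hp).2.2.pos
      have h1 : (rho1 D p : ℝ) ≤ 2 * p := by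
        exact_mod_cast rho1_le D (mem_pr.1 hp).2.2 (hp2 p hp)
      rw [div_le_div_iff₀ (by positivity) hp0]
      nlinarith⟩)
    (Sset (qq y) w0 v0 D N H a h)
    (fun x p => (p : ℤ) ∣ (x.1 : ℤ) ^ 2 - D * (x.2 : ℤ) ^ 2)
    (X1 (qq y) D N H a h) (20 * ((z : ℝ) ^ (4 * b + 10)) ^ 2 * Real.sqrt N)
    (X1_nonneg _ hG) (by positivity)
    (by
      intro d hd hdz
      have h1 := fm_level (w0 := w0) (v0 := v0) hy2 hG d hd
      have h2 : 20 * ((∏ p ∈ d, p : ℕ) : ℝ) ^ 2 * Real.sqrt N ≤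
          20 * ((z : ℝ) ^ (4 * b + 10)) ^ 2 * Real.sqrt N := by
        gcongr
      refine le_trans ?_ (h1.trans h2)
      apply le_of_eq
      congr!)
  have hprod : ∏ p ∈ pr y z, (1 - (rho1 D p : ℝ) / (p : ℝ) ^ 2) = Wz y z * Pz D y z := by
    unfold Wz Pz
    rw [← Finset.prod_mul_distrib]
    exact Finset.prod_congr rfl fun p hp => rho1_prime D (mem_pr.1 hp).2.2 (hp2 p hp)
  rw [hprod] at key
  rw [sum_rep_eq hy hb1 hw0 hloc hG]
  have herr : (1 + (z : ℝ)) * (z : ℝ) ^ (4 * b + 10) *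
      (20 * ((z : ℝ) ^ (4 * b + 10)) ^ 2 * Real.sqrt N) =
      20 * (1 + z) * (z : ℝ) ^ (3 * (4 * b + 10)) * Real.sqrt N := by
    have : (z : ℝ) ^ (3 * (4 * b + 10)) =
        (z : ℝ) ^ (4 * b + 10) * ((z : ℝ) ^ (4 * b + 10)) ^ 2 := by
      rw [← pow_mul, ← pow_add]
      congr 1
      ring
    rw [this]
    ring
  rw [herr] at key
  refine le_trans (le_of_eq ?_) key
  congr!

end Pool.Agent.Work.MP_43ce8a_nt.D
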