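import Pool.Agent.Work.MP_43ce8a_nt.D.BlkDefs
import Pool.Agent.Work.MP_43ce8a_nt.D.QB

set_option autoImplicit false

/-!
Module LocData (size M). Local data. qq y = 16 Mo y, Mo y = product of the odd primes ≤ y.

By CRT choose r0 ≡ 1 mod 64, r0 ≡ 2 mod 3, r0 ≡ 0 mod p for all primes 5 ≤ p ≤ y. D0 = 1 - 4 r0³ is
≡ -3 mod 32, ≡ 2 mod 3, ≡ 1 mod p: prime to q. 4 q ∤ 4 r0³ since r0 is odd.
Let b1 be prime to q. It suffices to solve w² - D0 v² ≡ 4 b1 modulo 32 (w odd), modulo 3 (3 ∤ w) and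
modulo every prime 5 ≤ p ≤ y (p ∤ w), and to combine (2 q = 32 * 3 * ∏ p, CRT).
mod 32: w² + 3 v² with w = 1, v odd takes all values 4, 12, 20, 28.
mod 3: w² + v² ≡ b1: (1, 0) for b1 ≡ 1, (1, 1) for b1 ≡ 2.
mod p: w = b1 + 1, v = b1 - 1 if b1 is not -1, otherwise w = 3/2, v = 5/2.
-/

namespace Pool.Agent.Work.MP_43ce8a_nt.D

open Finset

private def locDataSol (D : ℤ) (b1 n : ℕ) : Prop :=
  ∃ w v : ℕ, w.Coprime n ∧ (n : ℤ) ∣ (w : ℤ) ^ 2 - D * (v : ℤ) ^ 2 - 4 * b1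

private theorem locData_cong {D : ℤ} {b1 n w v w' v' : ℕ} (hw : w ≡ w' [MOD n])
    (hv : v ≡ v' [MOD n]) (h : (n : ℤ) ∣ (w' : ℤ) ^ 2 - D * (v' : ℤ) ^ 2 - 4 * b1) :
    (n : ℤ) ∣ (w : ℤ) ^ 2 - D * (v : ℤ) ^ 2 - 4 * b1 := by
  have h1 : (w : ℤ) ≡ w' [ZMOD n] := Int.natCast_modEq_iff.2 hw
  have h2 : (v : ℤ) ≡ v' [ZMOD n] := Int.natCast_modEq_iff.2 hv
  have h3 : (w : ℤ) ^ 2 - D * (v : ℤ) ^ 2 - 4 * b1 ≡ (w' : ℤ) ^ 2 - D * (v' : ℤ) ^ 2 - 4 * b1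
      [ZMOD n] := ((h1.pow 2).sub ((h2.pow 2).mul_left D)).sub_right _
  exact h3.dvd_iff.2 h

private theorem locData_mul {D : ℤ} {b1 m n : ℕ} (h : m.Coprime n) (hm : locDataSol D b1 m)
    (hn : locDataSol D b1 n) : locDataSol D b1 (m * n) := by
  obtain ⟨w, v, hw, hv⟩ := hm
  obtain ⟨w', v', hw', hv'⟩ := hn
  obtain ⟨W, hW1, hW2⟩ := Nat.chineseRemainder h w w'
  obtain ⟨V, hV1, hV2⟩ := Nat.chineseRemainder h v v'
  refine ⟨W, V, ?_, ?_⟩
  · apply Nat.Coprime.mul_right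
    · rw [Nat.Coprime, hW1.gcd_eq]
      exact hw
    · rw [Nat.Coprime, hW2.gcd_eq]
      exact hw'
  · push_cast
    exact (Nat.isCoprime_iff_coprime.2 h).mul_dvd (locData_cong hW1 hV1 hv)
      (locData_cong hW2 hV2 hv')

private theorem locData_two {r0 b1 : ℕ} (hr : r0 % 64 = 1) (hb : b1 % 2 = 1) :
    locDataSol (1 - 4 * (r0 : ℤ) ^ 3) b1 32 := by
  have h1 : (r0 : ℤ) ≡ 1 [ZMOD 32] := by
    have : r0 ≡ 1 [MOD 32] := by unfold Nat.ModEq; omega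
    exact_mod_cast (Int.natCast_modEq_iff.2 this)
  have h2 : ∀ v : ℕ, (1 : ℤ) ^ 2 - (1 - 4 * (r0 : ℤ) ^ 3) * (v : ℤ) ^ 2 - 4 * b1 ≡
      (1 : ℤ) ^ 2 - (1 - 4 * (1 : ℤ) ^ 3) * (v : ℤ) ^ 2 - 4 * b1 [ZMOD 32] := by
    intro v
    exact (((((h1.pow 3).mul_left 4).symm.symm.sub_left 1).mul_right _).sub_left _).sub_right _
  have key : ∃ v : ℕ, (32 : ℤ) ∣ (1 : ℤ) ^ 2 - (1 - 4 * (1 : ℤ) ^ 3) * (v : ℤ) ^ 2 - 4 * b1 := by
    have h8 : b1 % 8 = 1 ∨ b1 % 8 = 3 ∨ b1 % 8 = 5 ∨ b1 % 8 = 7 := by omega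
    rcases h8 with h | h | h | h
    · exact ⟨1, by push_cast; omega⟩
    · exact ⟨5, by push_cast; omega⟩
    · exact ⟨7, by push_cast; omega⟩
    · exact ⟨3, by push_cast; omega⟩
  obtain ⟨v, hv⟩ := key
  refine ⟨1, v, Nat.coprime_one_left _, ?_⟩
  have := (h2 v).dvd_iff.2 hv
  exact_mod_cast this

private theorem locData_three {r0 b1 : ℕ} (hr : r0 % 3 = 2) (hb : b1 % 3 ≠ 0) :
    locDataSol (1 - 4 * (r0 : ℤ) ^ 3) b1 3 := by
  have h1 : (r0 : ℤ) ≡ 2 [ZMOD 3] := by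
    have : r0 ≡ 2 [MOD 3] := by unfold Nat.ModEq; omega
    exact_mod_cast (Int.natCast_modEq_iff.2 this)
  have h2 : ∀ v : ℕ, (1 : ℤ) ^ 2 - (1 - 4 * (r0 : ℤ) ^ 3) * (v : ℤ) ^ 2 - 4 * b1 ≡
      (1 : ℤ) ^ 2 - (1 - 4 * (2 : ℤ) ^ 3) * (v : ℤ) ^ 2 - 4 * b1 [ZMOD 3] := by
    intro v
    exact (((((h1.pow 3).mul_left 4).symm.symm.sub_left 1).mul_right _).sub_left _).sub_right _
  have key : ∃ v : ℕ, (3 : ℤ) ∣ (1 : ℤ) ^ 2 - (1 - 4 * (2 : ℤ) ^ 3) * (v : ℤ) ^ 2 - 4 * b1 := by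
    have h8 : b1 % 3 = 1 ∨ b1 % 3 = 2 := by omega
    rcases h8 with h | h
    · exact ⟨0, by push_cast; omega⟩
    · exact ⟨1, by push_cast; omega⟩
  obtain ⟨v, hv⟩ := key
  refine ⟨1, v, Nat.coprime_one_left _, ?_⟩
  have := (h2 v).dvd_iff.2 hv
  exact_mod_cast this

private theorem locData_prime {r0 b1 p : ℕ} (hp : p.Prime) (h5 : 5 ≤ p) (hr : p ∣ r0) :
    locDataSol (1 - 4 * (r0 : ℤ) ^ 3) b1 p := by
  have h1 : (r0 : ℤ) ≡ 0 [ZMOD p] := by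
    rw [Int.modEq_zero_iff_dvd]
    exact_mod_cast hr
  have h2 : ∀ w v : ℤ, w ^ 2 - (1 - 4 * (r0 : ℤ) ^ 3) * v ^ 2 - 4 * b1 ≡
      w ^ 2 - (1 - 4 * (0 : ℤ) ^ 3) * v ^ 2 - 4 * b1 [ZMOD p] := by
    intro w v
    exact (((((h1.pow 3).mul_left 4).symm.symm.sub_left 1).mul_right _).sub_left _).sub_right _
  by_cases hb : p ∣ b1 + 1
  · obtain ⟨k, hk⟩ := hp.odd_of_ne_two (by omega)
    refine ⟨3 * (k + 1), 5 * (k + 1), ?_, ?_⟩
    · rw [Nat.coprime_comm, hp.coprime_iff_not_dvd, hp.dvd_mul]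
      rintro (h | h)
      · have := Nat.le_of_dvd (by norm_num) h
        omega
      · have := Nat.le_of_dvd (by omega) h
        omega
    · refine (h2 _ _).dvd_iff.2 ?_
      obtain ⟨c, hc⟩ := hb
      have hb' : (b1 : ℤ) = p * c - 1 := by
        have : ((b1 + 1 : ℕ) : ℤ) = ((p * c : ℕ) : ℤ) := by rw [hc]
        push_cast at this
        linarith
      have hp' : (p : ℤ) = 2 * k + 1 := by exact_mod_cast hk
      push_cast
      rw [hb']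
      refine ⟨-4 * c - (8 * k + 12), ?_⟩
      rw [hp']
      ring
  · refine ⟨b1 + 1, b1 + (p - 1), ?_, ?_⟩
    · rw [Nat.coprime_comm, hp.coprime_iff_not_dvd]
      exact hb
    · refine (h2 _ _).dvd_iff.2 ?_
      have e : ((b1 + (p - 1) : ℕ) : ℤ) = b1 + (p - 1) := by
        push_cast [Nat.cast_sub hp.one_le]
        ring
      rw [e]
      push_cast
      exact ⟨2 - 2 * b1 - p, by ring⟩

private theorem locData_fin {D : ℤ} {b1 : ℕ} (s : Finset ℕ) (hs : ∀ p ∈ s, p.Prime ∧ p ≠ 2)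
    (h : ∀ p ∈ s, locDataSol D b1 p) (h32 : locDataSol D b1 32) :
    locDataSol D b1 (32 * ∏ p ∈ s, p) := by
  induction s using Finset.induction_on with
  | empty => simpa using h32
  | insert a s ha ih =>
    rw [Finset.prod_insert ha, ← mul_assoc, mul_comm 32 a, mul_assoc]
    have hp := hs a (mem_insert_self _ _)
    have hs' : ∀ p ∈ s, p.Prime ∧ p ≠ 2 := fun p hps => hs p (mem_insert_of_mem hps)
    refine locData_mul ?_ (h a (mem_insert_self _ _)) (ih hs' fun p hps => h p (mem_insert_of_mem hps))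
    apply Nat.Coprime.mul_right
    · have h1 : (32 : ℕ) = 2 ^ 5 := by norm_num
      rw [h1]
      exact Nat.Coprime.pow_right _ ((Nat.coprime_primes hp.1 Nat.prime_two).2 hp.2)
    · refine Nat.Coprime.prod_right fun p hps => ?_
      rw [Nat.coprime_primes hp.1 (hs' p hps).1]
      rintro rfl
      exact ha hps

theorem loc_data (y : ℕ) (hy : 5 ≤ y) : ∃ r0 : ℕ, GoodR (qq y) r0 ∧ ∀ b1 : ℕ, b1.Coprime (qq y) →
    ∃ w0 v0 : ℕ, w0.Coprime (qq y) ∧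
      ((2 * qq y : ℕ) : ℤ) ∣ (w0 : ℤ) ^ 2 - (1 - 4 * (r0 : ℤ) ^ 3) * (v0 : ℤ) ^ 2 - 4 * b1 := by
  have hco : Nat.Coprime 192 (∏ p ∈ (Icc 5 y).filter Nat.Prime, p) := by
    refine Nat.Coprime.prod_right fun p hp => ?_
    rw [mem_filter, mem_Icc] at hp
    rw [Nat.coprime_comm, hp.2.coprime_iff_not_dvd]
    intro h
    have h1 : (192 : ℕ) = 2 ^ 6 * 3 := by norm_num
    rw [h1, hp.2.dvd_mul] at h
    rcases h with h | h
    · have := Nat.le_of_dvd (by norm_num) (hp.2.dvd_of_dvd_pow h)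
      omega
    · have := Nat.le_of_dvd (by norm_num) h
      omega
  obtain ⟨r0, hr1, hr2⟩ := Nat.chineseRemainder hco 65 0
  have h64 : r0 % 64 = 1 := by
    have : r0 % 192 = 65 := by
      have := hr1
      unfold Nat.ModEq at this
      omega
    omega
  have h3 : r0 % 3 = 2 := by
    have : r0 % 192 = 65 := by
      have := hr1
      unfold Nat.ModEq at this
      omega
    omega
  have hp5 : ∀ p : ℕ, p.Prime → 5 ≤ p → p ≤ y → p ∣ r0 := by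
    intro p hp h5 hpy
    have h1 : p ∣ ∏ p ∈ (Icc 5 y).filter Nat.Prime, p :=
      Finset.dvd_prod_of_mem (fun p => p) (mem_filter.2 ⟨mem_Icc.2 ⟨h5, hpy⟩, hp⟩)
    exact h1.trans ((Nat.modEq_zero_iff_dvd).1 hr2)
  have hpr : ∀ p : ℕ, p.Prime → p = 2 ∨ p = 3 ∨ 5 ≤ p := by
    intro p hp
    have h1 := hp.two_le
    by_cases h4 : p = 4
    · subst h4
      exact absurd hp (by norm_num)
    · omega
  refine ⟨r0, ⟨?_, ?_⟩, ?_⟩
  · have : Nat.Coprime (1 - 4 * (r0 : ℤ) ^ 3).natAbs (qq y) := by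
      apply Nat.Coprime.symm
      apply Nat.coprime_of_dvd
      intro p hp hpq hpD
      rw [prime_dvd_qq (by omega) hp] at hpq
      have hD : (p : ℤ) ∣ 1 - 4 * (r0 : ℤ) ^ 3 := Int.natCast_dvd.2 hpD
      rcases hpr p hp with rfl | rfl | h5
      · have h1 : ((2 : ℕ) : ℤ) ∣ 4 * (r0 : ℤ) ^ 3 := ⟨2 * (r0 : ℤ) ^ 3, by push_cast; ring⟩
        have h2 := (dvd_sub_left h1).1 hD
        norm_num at h2
      · obtain ⟨k, hk⟩ : ∃ k, r0 = 3 * k + 2 := ⟨r0 / 3, by omega⟩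
        have h1 : (3 : ℤ) ∣ 1 - 4 * (r0 : ℤ) ^ 3 - 3 * (-36 * (k : ℤ) ^ 3 - 72 * k ^ 2 - 48 * k - 11) := by
          exact dvd_sub (by exact_mod_cast hD) (dvd_mul_right _ _)
        have h2 : 1 - 4 * (r0 : ℤ) ^ 3 - 3 * (-36 * (k : ℤ) ^ 3 - 72 * k ^ 2 - 48 * k - 11) = 2 := by
          rw [hk]
          push_cast
          ring
        rw [h2] at h1
        norm_num at h1
      · have h1 : (p : ℤ) ∣ 4 * (r0 : ℤ) ^ 3 := by
          have h6 : (p : ℤ) ∣ (r0 : ℤ) := by exact_mod_cast hp5 p hp h5 hpq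
          exact Dvd.dvd.mul_left (dvd_pow h6 (by norm_num)) _
        have h2 := (dvd_sub_left h1).1 hD
        have h7 := Int.eq_one_of_dvd_one (by positivity) h2
        have h8 := hp.one_lt
        omega
    have h9 := Int.isCoprime_iff_gcd_eq_one.2 (show Int.gcd (1 - 4 * (r0 : ℤ) ^ 3) (qq y : ℤ) = 1 by
      unfold Int.gcd
      rw [Int.natAbs_natCast]
      exact this)
    exact h9
  · intro h
    have h1 : (2 : ℤ) ∣ (r0 : ℤ) ^ 3 := by
      obtain ⟨c, hc⟩ := h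
      refine ⟨8 * Mo y * c, ?_⟩
      unfold qq at hc
      push_cast at hc
      linarith
    have h2 : (2 : ℕ) ∣ r0 ^ 3 := by exact_mod_cast h1
    have h4 := Nat.prime_two.dvd_of_dvd_pow h2
    omega
  · intro b1 hb1
    have hb : ∀ p : ℕ, p.Prime → p ≤ y → ¬ p ∣ b1 := by
      intro p hp hpy h
      have h1 := Nat.dvd_gcd h ((prime_dvd_qq (by omega) hp).2 hpy)
      rw [hb1] at h1
      exact hp.one_lt.ne' (Nat.dvd_one.1 h1)
    have hb2 := hb 2 Nat.prime_two (by omega)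
    have hb3 := hb 3 Nat.prime_three (by omega)
    have hsol : locDataSol (1 - 4 * (r0 : ℤ) ^ 3) b1 (32 * Mo y) := by
      refine locData_fin _ ?_ ?_ (locData_two h64 (by omega))
      · intro p hp
        rw [mem_filter, mem_Icc] at hp
        exact ⟨hp.2, by omega⟩
      · intro p hp
        rw [mem_filter, mem_Icc] at hp
        rcases hpr p hp.2 with rfl | rfl | h5
        · omega
        · exact locData_three h3 (by omega)
        · exact locData_prime hp.2 h5 (hp5 p hp.2 h5 hp.1.2)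
    obtain ⟨w, v, hw, hv⟩ := hsol
    refine ⟨w, v, ?_, ?_⟩
    · refine Nat.Coprime.coprime_dvd_right ?_ hw
      unfold qq
      exact ⟨2, by ring⟩
    · have e : 2 * qq y = 32 * Mo y := by
        unfold qq
        ring
      rw [e]
      exact hv

end Pool.Agent.Work.MP_43ce8a_nt.D
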