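import Pool.Agent.Work.MP_43ce8a_nt.D.RhoA

set_option autoImplicit false

/-!
Module RhoH (size M). hh A A' m is the sum of chi (A A') l φ(l)/l over the divisors l of m.

PROOF. Both sides are multiplicative in m (rho_mul; for the right side use
Nat.Coprime.sum_divisors_mul or ArithmeticFunction multiplicativity of ζ * f, f l = chi l φ(l)/l);
induction on coprime factors (Nat.recOnPosPrimePosCoprime or induction_on_primes style). Prime powers
p^α, p odd: the right side is 1 + (1 - 1/p) (χ + χ² + ... + χ^α), χ = chi (A A') p. If p ∤ A A' it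
satisfies the recursion rho_step, because χ^(α+1) + χ^(α+2) = 1 + χ for χ = 1, -1. If p ∣ A A' then
χ = 0 and hh = 1 (rho_ram, rho_ram'; A, A' are squarefree and coprime).
hh_le: |chi l φ(l) / l| ≤ 1. hh_nonneg: by definition.
-/

namespace Pool.Agent.Work.MP_43ce8a_nt.D

open Finset

private noncomputable def rhoHf (D : ℤ) (l : ℕ) : ℝ := chi D l * ((l.totient : ℝ) / (l : ℝ))

private theorem rhoH_f_mul (D : ℤ) {a b : ℕ} (h : a.Coprime b) :
    rhoHf D (a * b) = rhoHf D a * rhoHf D b := by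
  unfold rhoHf
  rw [chi_mul, Nat.totient_mul h]
  push_cast
  rw [mul_div_mul_comm]
  ring

private theorem rhoH_sum_mul (D : ℤ) {m n : ℕ} (h : m.Coprime n) :
    ∑ l ∈ (m * n).divisors, rhoHf D l =
      (∑ l ∈ m.divisors, rhoHf D l) * ∑ l ∈ n.divisors, rhoHf D l := by
  have e : (m * n).divisors = (m.divisors ×ˢ n.divisors).image (fun p : ℕ × ℕ => p.1 * p.2) := by
    rw [Nat.divisors_mul]
    rfl
  rw [e, Finset.sum_image h.mul_injOn_divisors, Finset.sum_product, Finset.sum_mul]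
  refine Finset.sum_congr rfl fun a ha => ?_
  rw [Finset.mul_sum]
  refine Finset.sum_congr rfl fun b hb => ?_
  rw [rhoH_f_mul]
  exact (h.coprime_dvd_left (Nat.dvd_of_mem_divisors ha)).coprime_dvd_right
    (Nat.dvd_of_mem_divisors hb)

private theorem rhoH_chi_pow (D : ℤ) (p i : ℕ) : chi D (p ^ i) = chi D p ^ i := by
  induction i with
  | zero => rw [pow_zero, pow_zero, chi_one]
  | succ i ih => rw [pow_succ, chi_mul, ih, pow_succ]

private theorem rhoH_f_pow (D : ℤ) {p : ℕ} (hp : p.Prime) (i : ℕ) :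
    rhoHf D (p ^ (i + 1)) = (1 - 1 / (p : ℝ)) * chi D p ^ (i + 1) := by
  have hp0 : (p : ℝ) ≠ 0 := by exact_mod_cast hp.ne_zero
  unfold rhoHf
  rw [rhoH_chi_pow, Nat.totient_prime_pow hp (Nat.succ_pos i), Nat.succ_eq_add_one,
    Nat.add_sub_cancel]
  push_cast [Nat.cast_sub hp.one_le]
  rw [pow_succ (p : ℝ) i]
  field_simp

private theorem rhoH_f_one (D : ℤ) : rhoHf D 1 = 1 := by
  unfold rhoHf
  rw [chi_one]
  simp

private theorem rhoH_pow_zero (D : ℤ) {p : ℕ} (hp : p.Prime) (h : chi D p = 0) (n : ℕ) :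
    ∑ l ∈ (p ^ n).divisors, rhoHf D l = 1 := by
  rw [Nat.sum_divisors_prime_pow hp]
  induction n with
  | zero => simp [rhoH_f_one]
  | succ n ih =>
    rw [Finset.sum_range_succ, ih, rhoH_f_pow D hp, h]
    simp

private theorem rhoH_pow_step (D : ℤ) {p : ℕ} (hp : p.Prime) (h : chi D p = 1 ∨ chi D p = -1)
    (n : ℕ) : ∑ l ∈ (p ^ (n + 2)).divisors, rhoHf D l =
      ∑ l ∈ (p ^ n).divisors, rhoHf D l + (1 - 1 / (p : ℝ)) * (1 + chi D p) := by
  rw [Nat.sum_divisors_prime_pow hp, Nat.sum_divisors_prime_pow hp, Finset.sum_range_succ,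
    Finset.sum_range_succ, rhoH_f_pow D hp, rhoH_f_pow D hp]
  rcases h with h | h
  · rw [h]
    ring
  · rw [h, pow_succ (-1 : ℝ) (n + 1)]
    ring

private theorem rhoH_hh_one (A A' : ℤ) : hh A A' 1 = 1 := by
  unfold hh
  rw [rho_one]
  simp

private theorem rhoH_pow (A A' : ℤ) (hs : Squarefree A) (hs' : Squarefree A')
    (hc : IsCoprime A A') {p : ℕ} (hp : p.Prime) (h2 : p ≠ 2) (n : ℕ) :
    hh A A' (p ^ n) = ∑ l ∈ (p ^ n).divisors, rhoHf (A * A') l := by
  have hpi : Prime (p : ℤ) := Nat.prime_iff_prime_int.1 hp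
  have hp0 : ((p ^ n : ℕ) : ℝ) ≠ 0 := by exact_mod_cast pow_ne_zero n hp.ne_zero
  by_cases h : (p : ℤ) ∣ A * A'
  · rw [rhoH_pow_zero (A * A') hp ((chi_eq_zero_iff _ hp h2).2 h)]
    have hr : rho A A' (p ^ n) = p ^ n := by
      rcases hpi.dvd_or_dvd h with h3 | h3
      · refine rho_ram A A' hp h2 h3 (fun h4 => ?_) (fun h4 => ?_) n
        · rw [pow_two] at h4
          exact hpi.not_isUnit (hs _ h4)
        · exact hpi.not_isUnit (hc.isUnit_of_dvd' h3 h4)
      · refine rho_ram' A A' hp h2 h3 (fun h4 => ?_) (fun h4 => ?_) n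
        · rw [pow_two] at h4
          exact hpi.not_isUnit (hs' _ h4)
        · exact hpi.not_isUnit (hc.isUnit_of_dvd' h4 h3)
    unfold hh
    rw [hr, div_self hp0]
  · have hχ : chi (A * A') p = 1 ∨ chi (A * A') p = -1 := by
      rcases chi_cases (A * A') p with h3 | h3 | h3
      · exact absurd ((chi_eq_zero_iff _ hp h2).1 h3) h
      · exact Or.inl h3
      · exact Or.inr h3
    induction n using Nat.twoStepInduction with
    | zero =>
      rw [pow_zero, rhoH_hh_one, Nat.divisors_one, Finset.sum_singleton, rhoH_f_one]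
    | one =>
      have h5 : ∑ l ∈ (p ^ 1).divisors, rhoHf (A * A') l =
          1 + (1 - 1 / (p : ℝ)) * chi (A * A') p := by
        rw [Nat.sum_divisors_prime_pow hp, Finset.sum_range_succ, Finset.sum_range_one, pow_zero,
          rhoH_f_one, rhoH_f_pow _ hp 0]
        ring
      rw [h5, pow_one, rho_prime A A' hp h2 h]
    | more n ih _ =>
      have hp0' : ((p ^ n : ℕ) : ℝ) ≠ 0 := by exact_mod_cast pow_ne_zero n hp.ne_zero
      rw [rho_step A A' hp h2 h, rhoH_pow_step _ hp hχ, ih hp0']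

private theorem rhoH_eq (A A' : ℤ) (hs : Squarefree A) (hs' : Squarefree A')
    (hc : IsCoprime A A') (m : ℕ) (hm : m % 2 = 1) :
    hh A A' m = ∑ l ∈ m.divisors, rhoHf (A * A') l := by
  induction m using Nat.recOnPosPrimePosCoprime with
  | prime_pow p n hp hn =>
    refine rhoH_pow A A' hs hs' hc hp ?_ n
    rintro rfl
    obtain ⟨k, rfl⟩ := Nat.exists_eq_succ_of_ne_zero hn.ne'
    rw [Nat.succ_eq_add_one, pow_succ] at hm
    omega
  | zero => omega
  | one => rw [rhoH_hh_one, Nat.divisors_one, Finset.sum_singleton, rhoH_f_one]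
  | coprime a b ha hb hab iha ihb =>
    have ha2 : a % 2 = 1 := by
      rcases Nat.mod_two_eq_zero_or_one a with h | h
      · rw [Nat.mul_mod, h] at hm
        simp at hm
      · exact h
    have hb2 : b % 2 = 1 := by
      rcases Nat.mod_two_eq_zero_or_one b with h | h
      · rw [Nat.mul_mod, h] at hm
        simp at hm
      · exact h
    rw [rhoH_sum_mul _ hab, ← iha ha2, ← ihb hb2]
    unfold hh
    rw [rho_mul A A' hab]
    push_cast
    rw [mul_div_mul_comm]

theorem hh_eq (A A' : ℤ) (hA : Odd A) (hA' : Odd A') (hs : Squarefree A) (hs' : Squarefree A')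
    (hc : IsCoprime A A') (m : ℕ) (hm : m % 2 = 1) :
    hh A A' m = ∑ l ∈ m.divisors, chi (A * A') l * ((l.totient : ℝ) / (l : ℝ)) :=
  rhoH_eq A A' hs hs' hc m hm

theorem hh_nonneg (A A' : ℤ) (m : ℕ) : 0 ≤ hh A A' m := by
  unfold hh
  positivity

theorem hh_le (A A' : ℤ) (hA : Odd A) (hA' : Odd A') (hs : Squarefree A) (hs' : Squarefree A')
    (hc : IsCoprime A A') (m : ℕ) (hm : m % 2 = 1) : hh A A' m ≤ (m.divisors.card : ℝ) := by
  rw [hh_eq A A' hA hA' hs hs' hc m hm]
  have h : ∀ l ∈ m.divisors, chi (A * A') l * ((l.totient : ℝ) / (l : ℝ)) ≤ 1 := by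
    intro l hl
    have h1 := chi_abs_le (A * A') l
    have h2 : (l.totient : ℝ) / (l : ℝ) ≤ 1 := by
      apply div_le_one_of_le₀
      · exact_mod_cast Nat.totient_le l
      · positivity
    have h3 : 0 ≤ (l.totient : ℝ) / (l : ℝ) := by positivity
    have h4 := (abs_le.1 h1).2
    nlinarith
  calc ∑ l ∈ m.divisors, chi (A * A') l * ((l.totient : ℝ) / (l : ℝ)) ≤ ∑ _l ∈ m.divisors, (1 : ℝ) :=
        Finset.sum_le_sum h
    _ = (m.divisors.card : ℝ) := by simp

end Pool.Agent.Work.MP_43ce8a_nt.D
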