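import Pool.Agent.Work.MP_43ce8a_nt.D.USum
import Pool.Agent.Work.MP_43ce8a_nt.D.TqL
import Pool.Agent.Work.MP_43ce8a_nt.D.RhoH

set_option autoImplicit false

/-!
Module HSum (size M-L). Mean value of hh A A'.

PROOF. D = A A' (odd, squarefree, |D| ≠ 1, prime to q), u n = ∑_{l ∣ n} chi D l. By hh_eq and
φ(l)/l = ∑_{e ∣ l} μ(e)/e: hh m = ∑_{e ∣ m} chi e μ(e)/e * u (m/e). Hence the sum S is
∑_{(e, q d) = 1} chi e μ(e)/e² * S_e, S_e = ∑ u n / n over Y₁/e < n ≤ Y₂/e, n ≡ μ e⁻¹ mod q,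
(n, d) = 1 (all m are prime to q d, e ≤ Y₂). For e ≤ Y₁ use U_sum with Y₁/e, Y₂/e: error
≤ ∑_e e^(-2) C d (Y₁/e)^(-1/3) ≤ 4 C d Y₁^(-1/3). For Y₁ < e ≤ Y₂ ≤ 2 Y₁: only n = 1 can occur,
|S_e| ≤ 1, total ≤ ∑_{e > Y₁} 1/e² ≤ 2/Y₁. Main terms: replace ∑_{e ≤ Y₁} by Tq D (q d)
(Tq_tail; ⌊Y₁⌋₊ ≥ Y₁/2), the cofactor is bounded by log 2 * |Lone| * ∏_{p ∣ q} 2 (a constant depending on
D, q; all local factors of d are between 0 and 1 + 1/p - ... ≤ 1 — note (1 - 1/p)(1 + 1/p) < 1). Then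
Tq D (q d) = Tq D q / ∏_{p ∣ d} (1 - chi p / p²) by Tq_mul (the factors are positive).
-/

namespace Pool.Agent.Work.MP_43ce8a_nt.D

open Finset

/-- inverse of a residue class -/
private theorem hsum_inv {q l : ℕ} (μ : ℕ) (hq : 1 < q) (hl : l.Coprime q) :
    ∃ c : ℕ, ∀ k, (l * k) % q = μ % q ↔ k % q = c % q := by
  obtain ⟨i, _, hi⟩ := Nat.exists_mul_mod_eq_one_of_coprime hl hq
  have hi' : l * i ≡ 1 [MOD q] := by
    unfold Nat.ModEq
    rw [hi, Nat.mod_eq_of_lt hq]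
  refine ⟨i * μ, fun k => ⟨fun h => ?_, fun h => ?_⟩⟩
  · have h1 : l * k ≡ μ [MOD q] := h
    have h2 : i * (l * k) ≡ i * μ [MOD q] := h1.mul_left i
    have h3 : i * (l * k) ≡ k [MOD q] := by
      have : i * (l * k) = (l * i) * k := by ring
      rw [this]
      simpa using hi'.mul_right k
    exact h3.symm.trans h2
  · have h1 : k ≡ i * μ [MOD q] := h
    have h2 : l * k ≡ l * (i * μ) [MOD q] := h1.mul_left l
    have h3 : l * (i * μ) ≡ μ [MOD q] := by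
      have : l * (i * μ) = (l * i) * μ := by ring
      rw [this]
      simpa using hi'.mul_right μ
    exact h2.trans h3

/-- the hyperbola: sum over pairs -/
private theorem hsum_pairs (M : Finset ℕ) (n : ℕ) (hM : M ⊆ Ioc 0 n) (f : ℕ → ℕ → ℝ) :
    ∑ m ∈ M, ∑ l ∈ m.divisors, f l (m / l) =
      ∑ l ∈ Ioc 0 n, ∑ k ∈ (Ioc 0 n).filter (fun k => l * k ∈ M), f l k := by
  classical
  have h1 : ∑ l ∈ Ioc 0 n, ∑ k ∈ (Ioc 0 n).filter (fun k => l * k ∈ M), f l k =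
      ∑ x ∈ ((Ioc 0 n) ×ˢ (Ioc 0 n)).filter (fun x : ℕ × ℕ => x.1 * x.2 ∈ M), f x.1 x.2 := by
    rw [sum_filter, sum_product]
    refine sum_congr rfl fun l _ => ?_
    rw [sum_filter]
  rw [h1, ← sum_fiberwise_of_maps_to (g := fun x : ℕ × ℕ => x.1 * x.2) (t := M)
    (fun x hx => (mem_filter.1 hx).2)]
  refine sum_congr rfl fun m hm => ?_
  have hm0 := mem_Ioc.1 (hM hm)
  rw [← Nat.sum_divisorsAntidiagonal (f := fun l k => f l k)]
  refine sum_congr ?_ fun _ _ => rfl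
  ext x
  rw [Nat.mem_divisorsAntidiagonal, mem_filter, mem_filter, mem_product, mem_Ioc, mem_Ioc]
  constructor
  · rintro ⟨h2, h3⟩
    have hx1 : 0 < x.1 := Nat.pos_of_ne_zero fun h => h3 (by rw [← h2, h, Nat.zero_mul])
    have hx2 : 0 < x.2 := Nat.pos_of_ne_zero fun h => h3 (by rw [← h2, h, Nat.mul_zero])
    have h4 : x.1 ≤ m := by
      rw [← h2]
      exact Nat.le_mul_of_pos_right _ hx2
    have h5 : x.2 ≤ m := by
      rw [← h2]
      exact Nat.le_mul_of_pos_left _ hx1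
    refine ⟨⟨⟨⟨hx1, by omega⟩, hx2, by omega⟩, ?_⟩, h2⟩
    rw [h2]
    exact hm
  · rintro ⟨⟨_, _⟩, h2⟩
    exact ⟨h2, by omega⟩

/-- the inner sets -/
private theorem hsum_set {q d μ l c : ℕ} {Y₁ Y₂ : ℝ} (hl : 0 < l)
    (hld : l.Coprime d) (hc : ∀ k, (l * k) % q = μ % q ↔ k % q = c % q) :
    (Ioc 0 ⌊Y₂⌋₊).filter (fun k => l * k ∈ (Ioc ⌊Y₁⌋₊ ⌊Y₂⌋₊).filter
        (fun m => m % q = μ % q ∧ m.Coprime d)) =
      (Ioc ⌊Y₁ / l⌋₊ ⌊Y₂ / l⌋₊).filter (fun k => k % q = c % q ∧ k.Coprime d) := by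
  ext k
  rw [mem_filter, mem_filter, mem_filter, mem_Ioc, mem_Ioc, mem_Ioc, Nat.floor_div_natCast,
    Nat.floor_div_natCast, hc, Nat.div_lt_iff_lt_mul hl, Nat.le_div_iff_mul_le hl,
    Nat.coprime_mul_iff_left]
  constructor
  · rintro ⟨⟨h1, h2⟩, ⟨h3, h4⟩, h5, _, h6⟩
    exact ⟨⟨by rw [mul_comm]; exact h3, by rw [mul_comm]; exact h4⟩, h5, h6⟩
  · rintro ⟨⟨h1, h2⟩, h3, h4⟩
    have hk : 0 < k := Nat.pos_of_ne_zero fun h => by
      rw [h, Nat.zero_mul] at h1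
      omega
    refine ⟨⟨hk, ?_⟩, ⟨by rw [mul_comm]; exact h1, by rw [mul_comm]; exact h2⟩, h3, hld, h4⟩
    exact (Nat.le_mul_of_pos_right k hl).trans h2

private theorem hsum_empty {q d μ l : ℕ} {Y₁ Y₂ : ℝ} (hμ : μ.Coprime q)
    (h : ¬ l.Coprime (q * d)) :
    (Ioc 0 ⌊Y₂⌋₊).filter (fun k => l * k ∈ (Ioc ⌊Y₁⌋₊ ⌊Y₂⌋₊).filter
        (fun m => m % q = μ % q ∧ m.Coprime d)) = ∅ := by
  rw [filter_eq_empty_iff]
  intro k _ hk
  rw [mem_filter] at hk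
  obtain ⟨_, h1, h2⟩ := hk
  apply h
  rw [Nat.coprime_mul_iff_right]
  refine ⟨?_, (Nat.coprime_mul_iff_left.1 h2).1⟩
  have h3 : l * k ≡ μ [MOD q] := h1
  have h4 : (l * k).Coprime q := by
    have := h3.gcd_eq
    unfold Nat.Coprime
    rw [this]
    exact hμ
  exact (Nat.coprime_mul_iff_left.1 h4).1

private theorem hsum_totient (l : ℕ) (hl : 0 < l) :
    ∑ x ∈ l.divisorsAntidiagonal, ((ArithmeticFunction.moebius x.1 : ℤ) : ℝ) / (x.1 : ℝ) =
      (l.totient : ℝ) / l := by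
  have h := (ArithmeticFunction.sum_eq_iff_sum_mul_moebius_eq (R := ℝ)
    (f := fun n => (n.totient : ℝ)) (g := fun n => (n : ℝ))).1 (fun n _ => by
      exact_mod_cast Nat.sum_totient n) l hl
  rw [← h, sum_div]
  refine sum_congr rfl fun x hx => ?_
  obtain ⟨hx1, hx2⟩ := Nat.mem_divisorsAntidiagonal.1 hx
  have h1 : (x.1 : ℝ) ≠ 0 := by
    intro h0
    apply hx2
    rw [← hx1]
    have : x.1 = 0 := by exact_mod_cast h0
    rw [this, Nat.zero_mul]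
  have h2 : (x.2 : ℝ) ≠ 0 := by
    intro h0
    apply hx2
    rw [← hx1]
    have : x.2 = 0 := by exact_mod_cast h0
    rw [this, Nat.mul_zero]
  have h3 : (l : ℝ) = x.1 * x.2 := by exact_mod_cast hx1.symm
  rw [h3]
  field_simp

/-- `hh` as a convolution -/
private theorem hsum_conv (A A' : ℤ) (hA : Odd A) (hA' : Odd A') (hs : Squarefree A)
    (hs' : Squarefree A') (hc : IsCoprime A A') (m : ℕ) (hm : m % 2 = 1) :
    hh A A' m = ∑ e ∈ m.divisors,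
      (chi (A * A') e * ((ArithmeticFunction.moebius e : ℤ) : ℝ) / (e : ℝ)) *
        ∑ l ∈ (m / e).divisors, chi (A * A') l := by
  set D := A * A' with hD
  have hchi0 : chi D 0 = 0 := chi_even D rfl
  let F1 : ArithmeticFunction ℝ :=
    ⟨fun e => chi D e * ((ArithmeticFunction.moebius e : ℤ) : ℝ) / (e : ℝ), by simp⟩
  let F2 : ArithmeticFunction ℝ := ⟨fun l => chi D l, hchi0⟩
  have h1 : ∀ l, 0 < l → (F1 * F2) l = chi D l * ((l.totient : ℝ) / (l : ℝ)) := by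
    intro l hl
    rw [ArithmeticFunction.mul_apply, ← hsum_totient l hl, mul_sum]
    refine sum_congr rfl fun x hx => ?_
    obtain ⟨hx1, hx2⟩ := Nat.mem_divisorsAntidiagonal.1 hx
    show chi D x.1 * ((ArithmeticFunction.moebius x.1 : ℤ) : ℝ) / (x.1 : ℝ) * chi D x.2 =
      chi D l * (((ArithmeticFunction.moebius x.1 : ℤ) : ℝ) / (x.1 : ℝ))
    rw [← hx1, chi_mul]
    ring
  have h2 : ((F1 * F2) * (ArithmeticFunction.zeta : ArithmeticFunction ℝ)) m =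
      (F1 * (F2 * (ArithmeticFunction.zeta : ArithmeticFunction ℝ))) m := by
    rw [mul_assoc]
  rw [ArithmeticFunction.coe_mul_zeta_apply, ArithmeticFunction.mul_apply] at h2
  rw [hh_eq A A' hA hA' hs hs' hc m hm]
  have h3 : ∑ l ∈ m.divisors, chi D l * ((l.totient : ℝ) / (l : ℝ)) =
      ∑ l ∈ m.divisors, (F1 * F2) l :=
    sum_congr rfl fun l hl => (h1 l (Nat.pos_of_mem_divisors hl)).symm
  rw [h3, h2]
  rw [← Nat.sum_divisorsAntidiagonal (f := fun e k =>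
    (chi D e * ((ArithmeticFunction.moebius e : ℤ) : ℝ) / (e : ℝ)) *
        ∑ l ∈ k.divisors, chi D l)]
  refine sum_congr rfl fun x _ => ?_
  rw [ArithmeticFunction.coe_mul_zeta_apply]
  rfl

theorem H_sum (A A' : ℤ) (hA : Odd A) (hA' : Odd A') (hs : Squarefree A) (hs' : Squarefree A')
    (hc : IsCoprime A A') (h1 : (A * A').natAbs ≠ 1) (q : ℕ) (h4 : 4 ∣ q)
    (hq : IsCoprime (A * A') (q : ℤ)) (hq0 : 0 < q) :
    ∃ C : ℝ, 0 ≤ C ∧ ∀ (d μ : ℕ) (Y₁ Y₂ : ℝ), Squarefree d → d.Coprime q → μ.Coprime q →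
      1 ≤ Y₁ → Y₁ ≤ Y₂ → Y₂ ≤ 2 * Y₁ →
      |∑ m ∈ (Ioc ⌊Y₁⌋₊ ⌊Y₂⌋₊).filter (fun m => m % q = μ % q ∧ m.Coprime d),
          hh A A' m / (m : ℝ) -
        Real.log (Y₂ / Y₁) / q * Gc A A' q *
          ∏ p ∈ d.primeFactors, ((1 - 1 / (p : ℝ)) * (1 - chi (A * A') p / (p : ℝ)) /
            (1 - chi (A * A') p / (p : ℝ) ^ 2))| ≤
        C * d * Y₁ ^ (-(1 / 4) : ℝ) := by
  classical
  set D : ℤ := A * A' with hDdef
  have hD : Odd D := hA.mul hA'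
  have hsD : Squarefree D := by
    rw [hDdef, squarefree_mul_iff]
    exact ⟨hc.isRelPrime, hs, hs'⟩
  obtain ⟨C₀, hC₀, hU⟩ := U_sum D hD hsD h1 q h4 hq hq0
  have hq4 : 4 ≤ q := Nat.le_of_dvd hq0 h4
  have hq1 : 1 < q := by omega
  set C₁ : ℝ := ∑' n : ℕ, 1 / (n : ℝ) ^ (5 / 3 : ℝ) with hC₁
  have hsum : Summable fun n : ℕ => 1 / (n : ℝ) ^ (5 / 3 : ℝ) :=
    Real.summable_one_div_nat_rpow.2 (by norm_num)
  have hC₁0 : 0 ≤ C₁ := tsum_nonneg fun n => by positivity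
  set G : ℝ := Lone D * ∏ p ∈ q.primeFactors, (1 - chi D p / (p : ℝ)) with hG
  refine ⟨C₀ * C₁ + 2 + 4 * |G|, by positivity, ?_⟩
  intro d μ Y₁ Y₂ hd hdq hμ hY1 hY12 hY2
  have hd0 : 0 < d := Nat.pos_of_ne_zero hd.ne_zero
  have hdR : (1 : ℝ) ≤ d := by exact_mod_cast hd0
  have hY0 : 0 < Y₁ := by linarith
  set n₁ : ℕ := ⌊Y₁⌋₊ with hn₁
  set n₂ : ℕ := ⌊Y₂⌋₊ with hn₂
  have hn₁1 : 1 ≤ n₁ := Nat.le_floor (by push_cast; exact hY1)
  have hn12 : n₁ ≤ n₂ := Nat.floor_le_floor hY12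
  set M : Finset ℕ := (Ioc ⌊Y₁⌋₊ ⌊Y₂⌋₊).filter (fun m => m % q = μ % q ∧ m.Coprime d) with hM
  have hMsub : M ⊆ Ioc 0 n₂ := by
    intro m hm
    have := mem_Ioc.1 (mem_filter.1 hm).1
    rw [mem_Ioc]
    omega
  have hModd : ∀ m ∈ M, m % 2 = 1 := by
    intro m hm
    have h2 : m ≡ μ [MOD q] := (mem_filter.1 hm).2.1
    have h3 : m.Coprime q := by
      have := h2.gcd_eq
      unfold Nat.Coprime
      rw [this]
      exact hμ
    have h5 : m.Coprime 2 := Nat.Coprime.coprime_dvd_right ((by norm_num : 2 ∣ 4).trans h4) h3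
    rcases Nat.mod_two_eq_zero_or_one m with h6 | h6
    · exfalso
      have h7 : 2 ∣ m := Nat.dvd_of_mod_eq_zero h6
      have h8 := Nat.dvd_gcd h7 (dvd_refl 2)
      rw [h5] at h8
      omega
    · exact h6
  let u : ℕ → ℝ := fun k => ∑ l ∈ k.divisors, chi D l
  let w : ℕ → ℝ := fun e => chi D e * ((ArithmeticFunction.moebius e : ℤ) : ℝ) / (e : ℝ) ^ 2
  have hw : ∀ e, |w e| ≤ 1 / (e : ℝ) ^ 2 := by
    intro e
    show |chi D e * ((ArithmeticFunction.moebius e : ℤ) : ℝ) / (e : ℝ) ^ 2| ≤ _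
    rw [abs_div, abs_mul, abs_of_nonneg (by positivity : (0 : ℝ) ≤ (e : ℝ) ^ 2)]
    refine div_le_div_of_nonneg_right ?_ (by positivity)
    have h2 : |((ArithmeticFunction.moebius e : ℤ) : ℝ)| ≤ 1 := by
      have := ArithmeticFunction.abs_moebius_le_one (n := e)
      exact_mod_cast this
    exact mul_le_one₀ (chi_abs_le D e) (abs_nonneg _) h2
  have hS : ∑ m ∈ M, hh A A' m / (m : ℝ) = ∑ e ∈ Ioc 0 n₂,
      w e * ∑ k ∈ (Ioc 0 n₂).filter (fun k => e * k ∈ M), u k / (k : ℝ) := by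
    have h2 : ∑ m ∈ M, hh A A' m / (m : ℝ) =
        ∑ m ∈ M, ∑ e ∈ m.divisors, w e * (u (m / e) / ((m / e : ℕ) : ℝ)) := by
      refine sum_congr rfl fun m hm => ?_
      rw [hsum_conv A A' hA hA' hs hs' hc m (hModd m hm), sum_div]
      refine sum_congr rfl fun e he => ?_
      have h3 : e * (m / e) = m := Nat.mul_div_cancel' (Nat.dvd_of_mem_divisors he)
      have h5 : (m : ℝ) = e * ((m / e : ℕ) : ℝ) := by exact_mod_cast h3.symm
      show chi D e * ((ArithmeticFunction.moebius e : ℤ) : ℝ) / (e : ℝ) * u (m / e) / (m : ℝ) =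
        chi D e * ((ArithmeticFunction.moebius e : ℤ) : ℝ) / (e : ℝ) ^ 2 *
          (u (m / e) / ((m / e : ℕ) : ℝ))
      rw [h5, sq, div_mul_eq_mul_div, div_div, div_mul_div_comm, mul_assoc (e : ℝ)]
    rw [h2, hsum_pairs M n₂ hMsub (fun e k => w e * (u k / (k : ℝ)))]
    refine sum_congr rfl fun e _ => ?_
    rw [mul_sum]
  -- the factor for `d`
  set Pd : ℝ := ∏ p ∈ d.primeFactors, ((1 - 1 / (p : ℝ)) * (1 - chi D p / (p : ℝ))) with hPd
  have hPd1 : |Pd| ≤ 1 := by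
    rw [hPd, abs_prod]
    refine prod_le_one (fun p _ => abs_nonneg _) fun p hp => ?_
    have hp1 : (1 : ℝ) < p := by exact_mod_cast (Nat.prime_of_mem_primeFactors hp).one_lt
    have hp0 : (0 : ℝ) < p := by linarith
    have h2 : 0 ≤ 1 - 1 / (p : ℝ) := by
      rw [sub_nonneg, div_le_one hp0]
      linarith
    have h3 := abs_le.1 (chi_abs_le D p)
    have h5 : 0 ≤ 1 - chi D p / (p : ℝ) := by
      rw [sub_nonneg, div_le_one hp0]
      linarith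
    have h6 : 1 - chi D p / (p : ℝ) ≤ 1 + 1 / p := by
      have : -(1 / (p : ℝ)) ≤ chi D p / p := by
        rw [← neg_div]
        exact div_le_div_of_nonneg_right h3.1 hp0.le
      linarith
    rw [abs_of_nonneg (mul_nonneg h2 h5)]
    calc (1 - 1 / (p : ℝ)) * (1 - chi D p / (p : ℝ)) ≤ (1 - 1 / (p : ℝ)) * (1 + 1 / p) :=
          mul_le_mul_of_nonneg_left h6 h2
      _ = 1 - (1 / (p : ℝ)) ^ 2 := by ring
      _ ≤ 1 := by
          have : 0 ≤ (1 / (p : ℝ)) ^ 2 := by positivity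
          linarith
  have hqR : (1 : ℝ) ≤ q := by exact_mod_cast hq0
  have hlog0 : 0 ≤ Real.log (Y₂ / Y₁) := Real.log_nonneg (by rw [one_le_div hY0]; exact hY12)
  have hlog1 : Real.log (Y₂ / Y₁) ≤ 1 := by
    have h2 : Y₂ / Y₁ ≤ 2 := by
      rw [div_le_iff₀ hY0]
      exact hY2
    have h3 : Real.log (Y₂ / Y₁) ≤ Real.log 2 :=
      Real.log_le_log (div_pos (by linarith) hY0) h2
    have h5 := Real.log_two_lt_d9
    linarith
  set K : ℝ := Real.log (Y₂ / Y₁) / q * G * Pd with hK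
  have hKG : |K| ≤ |G| := by
    rw [hK, abs_mul, abs_mul, abs_div, abs_of_nonneg hlog0, abs_of_pos (by linarith : (0:ℝ) < q)]
    have h2 : Real.log (Y₂ / Y₁) / q ≤ 1 := by
      rw [div_le_one (by linarith)]
      linarith
    calc Real.log (Y₂ / Y₁) / q * |G| * |Pd| ≤ 1 * |G| * 1 := by
          refine mul_le_mul (mul_le_mul_of_nonneg_right h2 (abs_nonneg _)) hPd1 (abs_nonneg _) ?_
          positivity
      _ = |G| := by ring
  -- the inner sums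
  let Sn : ℕ → ℝ := fun e => ∑ k ∈ (Ioc 0 n₂).filter (fun k => e * k ∈ M), u k / (k : ℝ)
  have hSn0 : ∀ e, ¬ e.Coprime (q * d) → Sn e = 0 := by
    intro e he
    show ∑ k ∈ (Ioc 0 n₂).filter (fun k => e * k ∈ M), u k / (k : ℝ) = 0
    have h3 : (Ioc 0 n₂).filter (fun k => e * k ∈ M) = ∅ := hsum_empty hμ he
    rw [h3, sum_empty]
  have hSn1 : ∀ e, 0 < e → e ≤ n₁ → e.Coprime (q * d) →
      |Sn e - K| ≤ C₀ * d * (Y₁ / e) ^ (-(1 / 3) : ℝ) := by
    intro e he0 hen hec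
    have heR : (0 : ℝ) < e := by exact_mod_cast he0
    have heq := (Nat.coprime_mul_iff_right.1 hec).1
    have hed := (Nat.coprime_mul_iff_right.1 hec).2
    obtain ⟨c, hcc⟩ := hsum_inv μ hq1 heq
    have h3 : (Ioc 0 n₂).filter (fun k => e * k ∈ M) =
        (Ioc ⌊Y₁ / e⌋₊ ⌊Y₂ / e⌋₊).filter (fun k => k % q = c % q ∧ k.Coprime d) :=
      hsum_set he0 hed hcc
    show |∑ k ∈ (Ioc 0 n₂).filter (fun k => e * k ∈ M), u k / (k : ℝ) - K| ≤ _
    rw [h3]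
    have hcq : c.Coprime q := by
      have h5 : (e * c) % q = μ % q := (hcc c).2 rfl
      have h6 : e * c ≡ μ [MOD q] := h5
      have h7 : (e * c).Coprime q := by
        have := h6.gcd_eq
        unfold Nat.Coprime
        rw [this]
        exact hμ
      exact (Nat.coprime_mul_iff_left.1 h7).2
    have h5 := hU d c (Y₁ / e) (Y₂ / e) hd hdq hcq (by
        rw [one_le_div heR]
        exact (Nat.cast_le.2 hen).trans (Nat.floor_le hY0.le))
      (div_le_div_of_nonneg_right hY12 heR.le) (by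
        rw [← mul_div_assoc]
        exact div_le_div_of_nonneg_right hY2 heR.le)
    have h6 : Y₂ / e / (Y₁ / e) = Y₂ / Y₁ := by
      field_simp
    rw [h6] at h5
    exact h5
  have hSn2 : ∀ e ∈ Ioc n₁ n₂, |Sn e| ≤ 1 := by
    intro e he
    rw [mem_Ioc] at he
    have h2 : ∀ k ∈ (Ioc 0 n₂).filter (fun k => e * k ∈ M), k = 1 := by
      intro k hk
      have h3 := (mem_Ioc.1 (mem_filter.1 hk).1).1
      have h5 := (mem_Ioc.1 (hMsub (mem_filter.1 hk).2)).2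
      by_contra hk1
      have hk2 : 2 ≤ k := by omega
      have h6 : e * 2 ≤ n₂ := (Nat.mul_le_mul_left e hk2).trans h5
      have h7 : ((e * 2 : ℕ) : ℝ) ≤ Y₂ := (Nat.cast_le.2 h6).trans (Nat.floor_le (by linarith))
      have h8 : Y₁ < e := (Nat.floor_lt hY0.le).1 he.1
      push_cast at h7
      linarith
    have h3 : (Ioc 0 n₂).filter (fun k => e * k ∈ M) ⊆ {1} := fun k hk =>
      mem_singleton.2 (h2 k hk)
    have hu1 : u 1 = 1 := by
      show ∑ l ∈ (1 : ℕ).divisors, chi D l = 1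
      rw [Nat.divisors_one, sum_singleton, chi_one]
    show |∑ k ∈ (Ioc 0 n₂).filter (fun k => e * k ∈ M), u k / (k : ℝ)| ≤ 1
    rcases subset_singleton_iff.1 h3 with h5 | h5
    · rw [h5, sum_empty, abs_zero]
      exact zero_le_one
    · rw [h5, sum_singleton, hu1]
      norm_num
  -- the truncated series
  set Tt : ℝ := ∑ e ∈ Ioc 0 n₁, (if e.Coprime (q * d) then
    chi D e * (ArithmeticFunction.moebius e : ℝ) / (e : ℝ) ^ 2 else 0) with hTt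
  have hTq := Tq_tail D (q * d) n₁ hn₁1
  have hsplit : ∑ e ∈ Ioc 0 n₂, w e * Sn e = ∑ e ∈ Ioc 0 n₁, w e * Sn e +
      ∑ e ∈ Ioc n₁ n₂, w e * Sn e := (sum_Ioc_consecutive _ (Nat.zero_le _) hn12).symm
  have hE1 : |∑ e ∈ Ioc 0 n₁, w e * Sn e - Tt * K| ≤ C₀ * C₁ * d * Y₁ ^ (-(1 / 3) : ℝ) := by
    rw [hTt, sum_mul, ← sum_sub_distrib]
    have h2 : ∀ e ∈ Ioc 0 n₁, |w e * Sn e - (if e.Coprime (q * d) then
        chi D e * (ArithmeticFunction.moebius e : ℝ) / (e : ℝ) ^ 2 else 0) * K| ≤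
        C₀ * d * Y₁ ^ (-(1 / 3) : ℝ) * (1 / (e : ℝ) ^ (5 / 3 : ℝ)) := by
      intro e he
      have he0 : 0 < e := (mem_Ioc.1 he).1
      have heR : (0 : ℝ) < e := by exact_mod_cast he0
      by_cases hec : e.Coprime (q * d)
      · rw [if_pos hec]
        have h3 : w e * Sn e - chi D e * (ArithmeticFunction.moebius e : ℝ) / (e : ℝ) ^ 2 * K =
            w e * (Sn e - K) := by
          show w e * Sn e - w e * K = _
          ring
        rw [h3, abs_mul]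
        calc |w e| * |Sn e - K| ≤ 1 / (e : ℝ) ^ 2 * (C₀ * d * (Y₁ / e) ^ (-(1 / 3) : ℝ)) :=
              mul_le_mul (hw e) (hSn1 e he0 (mem_Ioc.1 he).2 hec) (abs_nonneg _) (by positivity)
          _ = C₀ * d * Y₁ ^ (-(1 / 3) : ℝ) * (1 / (e : ℝ) ^ (5 / 3 : ℝ)) := by
              have h5 : (Y₁ / e) ^ (-(1 / 3) : ℝ) = Y₁ ^ (-(1 / 3) : ℝ) * (e : ℝ) ^ (1 / 3 : ℝ) := by
                rw [Real.div_rpow hY0.le heR.le, Real.rpow_neg heR.le, div_inv_eq_mul]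
              have h6 : 1 / (e : ℝ) ^ (5 / 3 : ℝ) = 1 / (e : ℝ) ^ 2 * (e : ℝ) ^ (1 / 3 : ℝ) := by
                have h7 : (e : ℝ) ^ 2 = (e : ℝ) ^ (5 / 3 : ℝ) * (e : ℝ) ^ (1 / 3 : ℝ) := by
                  rw [← Real.rpow_add heR, ← Real.rpow_natCast]
                  norm_num
                have h8 : (e : ℝ) ^ (1 / 3 : ℝ) ≠ 0 := (Real.rpow_pos_of_pos heR _).ne'
                have h9 : (e : ℝ) ^ (5 / 3 : ℝ) ≠ 0 := (Real.rpow_pos_of_pos heR _).ne'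
                rw [h7]
                field_simp
              rw [h5, h6]
              ring
      · rw [if_neg hec, hSn0 e hec, mul_zero, zero_mul, sub_zero, abs_zero]
        have : 0 ≤ Y₁ ^ (-(1 / 3) : ℝ) := Real.rpow_nonneg hY0.le _
        positivity
    refine (abs_sum_le_sum_abs _ _).trans ((sum_le_sum h2).trans ?_)
    rw [← mul_sum]
    have h3 : ∑ e ∈ Ioc 0 n₁, 1 / (e : ℝ) ^ (5 / 3 : ℝ) ≤ C₁ :=
      hsum.sum_le_tsum _ fun e _ => by positivity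
    have h5 : 0 ≤ C₀ * d * Y₁ ^ (-(1 / 3) : ℝ) := by
      have : 0 ≤ Y₁ ^ (-(1 / 3) : ℝ) := Real.rpow_nonneg hY0.le _
      positivity
    calc C₀ * d * Y₁ ^ (-(1 / 3) : ℝ) * ∑ e ∈ Ioc 0 n₁, 1 / (e : ℝ) ^ (5 / 3 : ℝ)
        ≤ C₀ * d * Y₁ ^ (-(1 / 3) : ℝ) * C₁ := mul_le_mul_of_nonneg_left h3 h5
      _ = _ := by ring
  have hE2 : |∑ e ∈ Ioc n₁ n₂, w e * Sn e| ≤ 2 / Y₁ := by
    have h2 : ∀ e ∈ Ioc n₁ n₂, |w e * Sn e| ≤ 1 / Y₁ ^ 2 := by
      intro e he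
      have h3 : Y₁ < e := (Nat.floor_lt hY0.le).1 (mem_Ioc.1 he).1
      rw [abs_mul]
      calc |w e| * |Sn e| ≤ 1 / (e : ℝ) ^ 2 * 1 :=
            mul_le_mul (hw e) (hSn2 e he) (abs_nonneg _) (by positivity)
        _ = 1 / (e : ℝ) ^ 2 := mul_one _
        _ ≤ 1 / Y₁ ^ 2 := by
            apply one_div_le_one_div_of_le (by positivity)
            exact pow_le_pow_left₀ hY0.le h3.le 2
    refine (abs_sum_le_sum_abs _ _).trans ((sum_le_sum h2).trans ?_)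
    rw [sum_const, Nat.card_Ioc, nsmul_eq_mul, Nat.cast_sub hn12]
    have h3 : (n₂ : ℝ) ≤ Y₂ := Nat.floor_le (by linarith)
    have h5 : Y₁ < n₁ + 1 := Nat.lt_floor_add_one Y₁
    have h6 : (n₂ : ℝ) - n₁ ≤ 2 * Y₁ := by linarith
    calc ((n₂ : ℝ) - n₁) * (1 / Y₁ ^ 2) ≤ 2 * Y₁ * (1 / Y₁ ^ 2) :=
          mul_le_mul_of_nonneg_right h6 (by positivity)
      _ = 2 / Y₁ := by field_simp
  have hE3 : |Tt * K - Tq D (q * d) * K| ≤ 4 * |G| / Y₁ := by
    rw [← sub_mul, abs_mul, abs_sub_comm]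
    have h2 : (2 : ℝ) / n₁ ≤ 4 / Y₁ := by
      have h3 : Y₁ < n₁ + 1 := Nat.lt_floor_add_one Y₁
      have h5 : (1 : ℝ) ≤ n₁ := by exact_mod_cast hn₁1
      rw [div_le_div_iff₀ (by linarith) hY0]
      linarith
    calc |Tq D (q * d) - Tt| * |K| ≤ 4 / Y₁ * |G| :=
          mul_le_mul (hTq.trans h2) hKG (abs_nonneg _) (by positivity)
      _ = 4 * |G| / Y₁ := by ring
  -- the main term
  have hpd : ∏ p ∈ d.primeFactors, (1 - chi D p / (p : ℝ) ^ 2) ≠ 0 := by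
    rw [prod_ne_zero_iff]
    intro p hp
    have hp1 : (2 : ℝ) ≤ p := by exact_mod_cast (Nat.prime_of_mem_primeFactors hp).two_le
    have h2 := (abs_le.1 (chi_abs_le D p)).2
    have h3 : chi D p / (p : ℝ) ^ 2 < 1 := by
      rw [div_lt_one (by positivity)]
      nlinarith
    linarith
  have hmul := Tq_mul D q d hq0 hd hdq
  have hmain : Real.log (Y₂ / Y₁) / q * Gc A A' q *
      ∏ p ∈ d.primeFactors, ((1 - 1 / (p : ℝ)) * (1 - chi D p / (p : ℝ)) /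
            (1 - chi D p / (p : ℝ) ^ 2)) = Tq D (q * d) * K := by
    have h2 : Gc A A' q = G * Tq D q := rfl
    have h3 : ∀ a g t r b : ℝ, r ≠ 0 → a * (g * (t * r)) * (b / r) = t * (a * g * b) := by
      intro a g t r b hr
      field_simp
    rw [h2, ← hmul, prod_div_distrib, hK]
    exact h3 _ _ _ _ _ hpd
  have hgoal : |∑ m ∈ M, hh A A' m / (m : ℝ) - Tq D (q * d) * K| ≤
      (C₀ * C₁ + 2 + 4 * |G|) * d * Y₁ ^ (-(1 / 4) : ℝ) := by
    rw [hS]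
    show |∑ e ∈ Ioc 0 n₂, w e * Sn e - Tq D (q * d) * K| ≤ _
    rw [hsplit]
    have h2 : ∑ e ∈ Ioc 0 n₁, w e * Sn e + ∑ e ∈ Ioc n₁ n₂, w e * Sn e - Tq D (q * d) * K =
        (∑ e ∈ Ioc 0 n₁, w e * Sn e - Tt * K) + ∑ e ∈ Ioc n₁ n₂, w e * Sn e +
          (Tt * K - Tq D (q * d) * K) := by ring
    rw [h2]
    refine (abs_add_three _ _ _).trans ((add_le_add (add_le_add hE1 hE2) hE3).trans ?_)
    set E : ℝ := Y₁ ^ (-(1 / 4) : ℝ) with hE
    have hE0 : 0 ≤ E := Real.rpow_nonneg hY0.le _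
    have h3 : Y₁ ^ (-(1 / 3) : ℝ) ≤ E := Real.rpow_le_rpow_of_exponent_le hY1 (by norm_num)
    have h5 : 1 / Y₁ ≤ E := by
      rw [one_div, ← Real.rpow_neg_one]
      exact Real.rpow_le_rpow_of_exponent_le hY1 (by norm_num)
    have h6 : C₀ * C₁ * d * Y₁ ^ (-(1 / 3) : ℝ) ≤ C₀ * C₁ * d * E :=
      mul_le_mul_of_nonneg_left h3 (by positivity)
    have h7 : 2 / Y₁ ≤ 2 * d * E := by
      calc 2 / Y₁ = 2 * (1 / Y₁) := by ring
        _ ≤ 2 * E := by linarith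
        _ ≤ 2 * (d * E) := by
            have : E ≤ d * E := le_mul_of_one_le_left hE0 hdR
            linarith
        _ = _ := by ring
    have h8 : 4 * |G| / Y₁ ≤ 4 * |G| * d * E := by
      calc 4 * |G| / Y₁ = 4 * |G| * (1 / Y₁) := by ring
        _ ≤ 4 * |G| * E := mul_le_mul_of_nonneg_left h5 (by positivity)
        _ ≤ 4 * |G| * (d * E) :=
            mul_le_mul_of_nonneg_left (le_mul_of_one_le_left hE0 hdR) (by positivity)
        _ = _ := by ring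
    have h9 : (C₀ * C₁ + 2 + 4 * |G|) * d * E =
        C₀ * C₁ * d * E + 2 * d * E + 4 * |G| * d * E := by ring
    rw [h9]
    linarith
  rw [hmain]
  exact hgoal

end Pool.Agent.Work.MP_43ce8a_nt.D
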