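import Pool.Agent.Work.MP_43ce8a_nt.D.LatCount
import Pool.Agent.Work.MP_f2148a_nt.DivisorBound

set_option autoImplicit false

/-!
Module LatErr (size M). The error on average over m.

PROOF. err m = C τ(m)² (R/ell m + 1), C from lat_count. Use τ(n) ≤ C₁ n^(1/50)
(exists_card_divisors_le in Pool.Agent.Work.MP_f2148a_nt). Qf x ≠ 0 for x ≠ 0: A x² = A' y² with
x, y ≠ 0 would make A A' a square, impossible as A A' is squarefree (coprime squarefree factors) and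
A A' ≠ 1. Let r = ⌊R^(1/3)⌋. Terms with ell m > r: R/ell ≤ R^(2/3), total ≤ C C₁² (4R)^(1/25) 4R * 2 R^(2/3).
Terms with ell m ≤ r: they are ≤ C C₁² (4R)^(1/25) * 2 R each; the number of such m is at most the number
of pairs (x, m), x ≠ 0, supn x ≤ r, m ∣ Qf x: ≤ ∑_x τ(|Qf x|) ≤ (2 r + 1)² C₁ ((|A| + |A'|) R)^(1/50);
total ≤ C' R^(5/3 + 3/50), and 5/3 + 3/50 ≤ 7/4.
-/

namespace Pool.Agent.Work.MP_43ce8a_nt.D

open Finset

private lemma LatErr_ne (A A' : ℤ) (hs : Squarefree A) (hs' : Squarefree A') (hc : IsCoprime A A')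
    (h1 : A * A' ≠ 1) (x : ℤ × ℤ) (hx : x ≠ 0) : Qf A A' x ≠ 0 := by
  intro h0
  have hA : A ≠ 0 := hs.ne_zero
  have hA' : A' ≠ 0 := hs'.ne_zero
  have h2 : A * x.1 ^ 2 = A' * x.2 ^ 2 := by
    unfold Qf at h0
    linarith
  have hx1 : x.1 ≠ 0 := by
    intro hx1
    rw [hx1] at h2
    have h3 : A' * x.2 ^ 2 = 0 := by rw [← h2]; ring
    rcases mul_eq_zero.1 h3 with h4 | h4
    · exact hA' h4
    · exact hx (Prod.ext hx1 (pow_eq_zero_iff (by norm_num) |>.1 h4))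
  have h3 : A * A' * x.1 ^ 2 = (A' * x.2) ^ 2 := by
    calc A * A' * x.1 ^ 2 = A' * (A * x.1 ^ 2) := by ring
      _ = A' * (A' * x.2 ^ 2) := by rw [h2]
      _ = _ := by ring
  have h4 : x.1 ^ 2 ∣ (A' * x.2) ^ 2 := by rw [← h3]; exact Dvd.intro_left _ rfl
  obtain ⟨z, hz⟩ := (Int.pow_dvd_pow_iff (by norm_num)).1 h4
  have h5 : A * A' = z ^ 2 := by
    rw [hz] at h3
    have h6 : x.1 ^ 2 ≠ 0 := pow_ne_zero 2 hx1
    apply mul_right_cancel₀ h6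
    rw [h3]; ring
  have h6 : Squarefree (A * A') := by
    rw [squarefree_mul_iff]
    exact ⟨hc.isRelPrime, hs, hs'⟩
  rw [h5] at h6
  have h7 : IsUnit z := h6 z (by rw [pow_two])
  have h8 : z ^ 2 = 1 := by
    rcases Int.isUnit_iff.1 h7 with h | h <;> rw [h] <;> norm_num
  exact h1 (h5.trans h8)

private lemma LatErr_card (A A' : ℤ) (hs : Squarefree A) (hs' : Squarefree A')
    (hc : IsCoprime A A') (h1 : A * A' ≠ 1) (C₁ : ℝ) (hC₁ : 1 ≤ C₁)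
    (hdiv : ∀ n : ℕ, 1 ≤ n → ((n.divisors.card : ℕ) : ℝ) ≤ C₁ * (n : ℝ) ^ (1 / 50 : ℝ))
    (R : ℕ) (hR : 1 ≤ R) (M : Finset ℕ) (hM : ∀ m ∈ M, 0 < m)
    (hM' : ∀ m ∈ M, (ell A A' m : ℝ) ≤ (R : ℝ) ^ (1 / 3 : ℝ)) :
    (M.card : ℝ) ≤ 9 * C₁ * ((A.natAbs + A'.natAbs : ℕ) : ℝ) ^ (1 / 50 : ℝ) *
      (R : ℝ) ^ (2 / 3 + 1 / 50 : ℝ) := by
  classical
  have hR1 : (1 : ℝ) ≤ R := by exact_mod_cast hR
  have hR0 : (0 : ℝ) < R := by linarith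
  set ρ : ℕ := ⌊(R : ℝ) ^ (1 / 3 : ℝ)⌋₊ with hρ
  have hρR : (ρ : ℝ) ≤ (R : ℝ) ^ (1 / 3 : ℝ) := Nat.floor_le (by positivity)
  have hR3 : (1 : ℝ) ≤ (R : ℝ) ^ (1 / 3 : ℝ) := Real.one_le_rpow hR1 (by norm_num)
  have hR23 : ((R : ℝ) ^ (1 / 3 : ℝ)) ^ 2 = (R : ℝ) ^ (2 / 3 : ℝ) := by
    rw [← Real.rpow_natCast, ← Real.rpow_mul hR0.le]
    norm_num
  set X : Finset (ℤ × ℤ) := ((Icc (-(ρ : ℤ)) ρ) ×ˢ (Icc (-(ρ : ℤ)) ρ)).erase 0 with hX
  have hXcard : (X.card : ℝ) ≤ 9 * (R : ℝ) ^ (2 / 3 : ℝ) := by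
    have h2 : X.card ≤ (2 * ρ + 1) ^ 2 := by
      refine le_trans (card_erase_le) ?_
      rw [card_product, Int.card_Icc]
      have : ((ρ : ℤ) + 1 - -(ρ : ℤ)).toNat = 2 * ρ + 1 := by omega
      rw [this, pow_two]
    have h3 : (X.card : ℝ) ≤ (2 * (ρ : ℝ) + 1) ^ 2 := by exact_mod_cast h2
    have h4 : (2 * (ρ : ℝ) + 1) ≤ 3 * (R : ℝ) ^ (1 / 3 : ℝ) := by linarith
    have h5 : (2 * (ρ : ℝ) + 1) ^ 2 ≤ (3 * (R : ℝ) ^ (1 / 3 : ℝ)) ^ 2 :=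
      pow_le_pow_left₀ (by positivity) h4 2
    rw [mul_pow, hR23] at h5
    linarith
  have hsub : M ⊆ X.biUnion fun x => (Qf A A' x).natAbs.divisors := by
    intro m hm
    obtain ⟨x, hx0, hx1, hx2⟩ := ell_attained A A' (hM m hm)
    have h2 : supn x ≤ ρ := by
      rw [hx2]
      exact Nat.le_floor (hM' m hm)
    rw [mem_biUnion]
    refine ⟨x, ?_, ?_⟩
    · rw [hX, mem_erase, mem_product, mem_Icc, mem_Icc]
      unfold supn at h2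
      refine ⟨hx0, ⟨?_, ?_⟩, ⟨?_, ?_⟩⟩ <;> omega
    · rw [Nat.mem_divisors]
      exact ⟨Int.natCast_dvd.1 hx1, Int.natAbs_ne_zero.2 (LatErr_ne A A' hs hs' hc h1 x hx0)⟩
  have hB : ∀ x ∈ X, (((Qf A A' x).natAbs.divisors.card : ℕ) : ℝ) ≤
      C₁ * ((A.natAbs + A'.natAbs : ℕ) : ℝ) ^ (1 / 50 : ℝ) * (R : ℝ) ^ (1 / 50 : ℝ) := by
    intro x hx
    rw [hX, mem_erase, mem_product, mem_Icc, mem_Icc] at hx
    obtain ⟨hx0, ⟨a1, a2⟩, ⟨a3, a4⟩⟩ := hx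
    have hne := LatErr_ne A A' hs hs' hc h1 x hx0
    have h2 : 1 ≤ (Qf A A' x).natAbs := Nat.one_le_iff_ne_zero.2 (Int.natAbs_ne_zero.2 hne)
    refine le_trans (hdiv _ h2) ?_
    rw [mul_assoc, ← Real.mul_rpow (by positivity) (by positivity)]
    apply mul_le_mul_of_nonneg_left _ (by linarith)
    apply Real.rpow_le_rpow (by positivity) _ (by norm_num)
    have h3 : (Qf A A' x).natAbs ≤ (A.natAbs + A'.natAbs) * ρ ^ 2 := by
      have b1 : x.1.natAbs ≤ ρ := by omega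
      have b2 : x.2.natAbs ≤ ρ := by omega
      unfold Qf
      calc (A * x.1 ^ 2 - A' * x.2 ^ 2).natAbs ≤ (A * x.1 ^ 2).natAbs + (A' * x.2 ^ 2).natAbs :=
            Int.natAbs_sub_le _ _
        _ = A.natAbs * x.1.natAbs ^ 2 + A'.natAbs * x.2.natAbs ^ 2 := by
            rw [Int.natAbs_mul, Int.natAbs_mul, Int.natAbs_pow, Int.natAbs_pow]
        _ ≤ A.natAbs * ρ ^ 2 + A'.natAbs * ρ ^ 2 :=
            add_le_add (Nat.mul_le_mul_left _ (Nat.pow_le_pow_left b1 2))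
              (Nat.mul_le_mul_left _ (Nat.pow_le_pow_left b2 2))
        _ = _ := by ring
    have h4 : ((ρ : ℝ)) ^ 2 ≤ R := by
      calc ((ρ : ℝ)) ^ 2 ≤ ((R : ℝ) ^ (1 / 3 : ℝ)) ^ 2 := pow_le_pow_left₀ (by positivity) hρR 2
        _ = (R : ℝ) ^ (2 / 3 : ℝ) := hR23
        _ ≤ (R : ℝ) ^ (1 : ℝ) := Real.rpow_le_rpow_of_exponent_le hR1 (by norm_num)
        _ = R := Real.rpow_one _
    calc (((Qf A A' x).natAbs : ℕ) : ℝ) ≤ (((A.natAbs + A'.natAbs) * ρ ^ 2 : ℕ) : ℝ) := by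
          exact_mod_cast h3
      _ = ((A.natAbs + A'.natAbs : ℕ) : ℝ) * (ρ : ℝ) ^ 2 := by push_cast; ring
      _ ≤ _ := mul_le_mul_of_nonneg_left h4 (by positivity)
  have hBB : 0 ≤ C₁ * ((A.natAbs + A'.natAbs : ℕ) : ℝ) ^ (1 / 50 : ℝ) *
      (R : ℝ) ^ (1 / 50 : ℝ) := by positivity
  calc (M.card : ℝ) ≤ ((X.biUnion fun x => (Qf A A' x).natAbs.divisors).card : ℝ) := by
        exact_mod_cast card_le_card hsub
    _ ≤ ((∑ x ∈ X, (Qf A A' x).natAbs.divisors.card : ℕ) : ℝ) := by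
        exact_mod_cast card_biUnion_le
    _ = ∑ x ∈ X, (((Qf A A' x).natAbs.divisors.card : ℕ) : ℝ) := by push_cast; rfl
    _ ≤ ∑ _x ∈ X, C₁ * ((A.natAbs + A'.natAbs : ℕ) : ℝ) ^ (1 / 50 : ℝ) *
          (R : ℝ) ^ (1 / 50 : ℝ) := sum_le_sum hB
    _ = (X.card : ℝ) * (C₁ * ((A.natAbs + A'.natAbs : ℕ) : ℝ) ^ (1 / 50 : ℝ) *
          (R : ℝ) ^ (1 / 50 : ℝ)) := by rw [sum_const, nsmul_eq_mul]
    _ ≤ 9 * (R : ℝ) ^ (2 / 3 : ℝ) * (C₁ * ((A.natAbs + A'.natAbs : ℕ) : ℝ) ^ (1 / 50 : ℝ) *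
          (R : ℝ) ^ (1 / 50 : ℝ)) := mul_le_mul_of_nonneg_right hXcard hBB
    _ = _ := by
        rw [Real.rpow_add hR0]
        ring

open Classical in
theorem pair_err (A A' : ℤ) (hs : Squarefree A) (hs' : Squarefree A') (hc : IsCoprime A A')
    (h1 : A * A' ≠ 1) : ∃ C : ℝ, 0 ≤ C ∧ ∀ R : ℕ, 1 ≤ R → ∃ err : ℕ → ℝ, (∀ m, 0 ≤ err m) ∧
    (∀ (m t c c' a h a' h' : ℕ), m % 2 = 1 → 0 < t → t.Coprime m → h ≤ R → h' ≤ R →
      |(((Ioc a (a + h) ×ˢ Ioc a' (a' + h')).filter fun x : ℕ × ℕ => x.1 % t = c % t ∧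
        x.2 % t = c' % t ∧ (m : ℤ) ∣ Qf A A' ((x.1 : ℤ), (x.2 : ℤ))).card : ℝ) -
          (h : ℝ) * h' * hh A A' m / ((t : ℝ) ^ 2 * m)| ≤ err m) ∧
    ∑ m ∈ (Icc 1 (4 * R)).filter (fun m => m % 2 = 1), err m ≤ C * (R : ℝ) ^ (7 / 4 : ℝ) := by
  obtain ⟨C, hC0, hC⟩ := lat_count
  obtain ⟨C₁, hC₁, hdiv⟩ :=
    Pool.Agent.Work.MP_f2148a_nt.exists_card_divisors_le (1 / 50) (by norm_num)
  set B : ℝ := ((A.natAbs + A'.natAbs : ℕ) : ℝ) ^ (1 / 50 : ℝ) with hB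
  have hB0 : 0 ≤ B := by positivity
  refine ⟨C * (C₁ ^ 2 * (4 : ℝ) ^ (1 / 25 : ℝ)) * (8 + 18 * C₁ * B), by positivity, ?_⟩
  intro R hR
  have hR1 : (1 : ℝ) ≤ R := by exact_mod_cast hR
  have hR0 : (0 : ℝ) < R := by linarith
  refine ⟨fun m => C * (m.divisors.card : ℝ) ^ 2 * ((R : ℝ) / ell A A' m + 1), ?_, ?_, ?_⟩
  · intro m
    positivity
  · intro m t c c' a h a' h' hm ht htm hh hh'
    exact hC A A' hs hs' hc m t c c' a h a' h' R hm ht htm hh hh'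
  · set M := (Icc 1 (4 * R)).filter (fun m => m % 2 = 1) with hM
    set D : ℝ := C₁ ^ 2 * (4 : ℝ) ^ (1 / 25 : ℝ) * (R : ℝ) ^ (1 / 25 : ℝ) with hD
    have hD0 : 0 ≤ D := by positivity
    have hτ : ∀ m ∈ M, ((m.divisors.card : ℕ) : ℝ) ^ 2 ≤ D := by
      intro m hm
      rw [hM, mem_filter, mem_Icc] at hm
      have hm4 : (m : ℝ) ≤ 4 * R := by exact_mod_cast hm.1.2
      have h2 := hdiv m hm.1.1
      have h3 : C₁ * (m : ℝ) ^ (1 / 50 : ℝ) ≤ C₁ * (4 * (R : ℝ)) ^ (1 / 50 : ℝ) := by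
        apply mul_le_mul_of_nonneg_left _ (by linarith)
        exact Real.rpow_le_rpow (by positivity) hm4 (by norm_num)
      calc ((m.divisors.card : ℕ) : ℝ) ^ 2 ≤ (C₁ * (4 * (R : ℝ)) ^ (1 / 50 : ℝ)) ^ 2 :=
            pow_le_pow_left₀ (by positivity) (le_trans h2 h3) 2
        _ = D := by
            rw [hD, mul_pow, ← Real.rpow_natCast ((4 * (R : ℝ)) ^ (1 / 50 : ℝ)),
              ← Real.rpow_mul (by positivity), Real.mul_rpow (by norm_num) (by positivity)]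
            norm_num
            ring
    have hell : ∀ m ∈ M, (1 : ℝ) ≤ ell A A' m := by
      intro m hm
      rw [hM, mem_filter, mem_Icc] at hm
      exact_mod_cast ell_pos A A' (by omega : 0 < m)
    have hsplit : ∀ m ∈ M, C * (m.divisors.card : ℝ) ^ 2 * ((R : ℝ) / ell A A' m + 1) ≤
        C * D * (2 * (R : ℝ) ^ (2 / 3 : ℝ)) +
          (if (ell A A' m : ℝ) ≤ (R : ℝ) ^ (1 / 3 : ℝ) then C * D * (2 * (R : ℝ)) else 0) := by
      intro m hm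
      have h2 := hτ m hm
      have h3 := hell m hm
      have h4 : C * (m.divisors.card : ℝ) ^ 2 * ((R : ℝ) / ell A A' m + 1) ≤
          C * D * ((R : ℝ) / ell A A' m + 1) := by
        apply mul_le_mul_of_nonneg_right _ (by positivity)
        exact mul_le_mul_of_nonneg_left h2 hC0
      refine le_trans h4 ?_
      have hCD : 0 ≤ C * D := by positivity
      have hR23 : (1 : ℝ) ≤ (R : ℝ) ^ (2 / 3 : ℝ) := Real.one_le_rpow hR1 (by norm_num)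
      by_cases h5 : (ell A A' m : ℝ) ≤ (R : ℝ) ^ (1 / 3 : ℝ)
      · rw [if_pos h5]
        have h6 : (R : ℝ) / ell A A' m ≤ R := div_le_self hR0.le h3
        have h7 : C * D * ((R : ℝ) / ell A A' m + 1) ≤ C * D * (2 * R) :=
          mul_le_mul_of_nonneg_left (by linarith) hCD
        have h8 : 0 ≤ C * D * (2 * (R : ℝ) ^ (2 / 3 : ℝ)) := by positivity
        linarith
      · rw [if_neg h5, add_zero]
        apply mul_le_mul_of_nonneg_left _ hCD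
        push Not at h5
        have h6 : (R : ℝ) / ell A A' m ≤ (R : ℝ) ^ (2 / 3 : ℝ) := by
          rw [div_le_iff₀ (by linarith)]
          calc (R : ℝ) = (R : ℝ) ^ (2 / 3 : ℝ) * (R : ℝ) ^ (1 / 3 : ℝ) := by
                rw [← Real.rpow_add hR0]; norm_num
            _ ≤ (R : ℝ) ^ (2 / 3 : ℝ) * ell A A' m :=
                mul_le_mul_of_nonneg_left h5.le (by positivity)
        linarith
    have hcard : (M.card : ℝ) ≤ 4 * R := by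
      have : M.card ≤ 4 * R := by
        refine le_trans (card_filter_le _ _) ?_
        rw [Nat.card_Icc]
        omega
      exact_mod_cast this
    have hcard2 : ((M.filter fun m => (ell A A' m : ℝ) ≤ (R : ℝ) ^ (1 / 3 : ℝ)).card : ℝ) ≤
        9 * C₁ * B * (R : ℝ) ^ (2 / 3 + 1 / 50 : ℝ) := by
      apply LatErr_card A A' hs hs' hc h1 C₁ hC₁ hdiv R hR
      · intro m hm
        rw [mem_filter, hM, mem_filter, mem_Icc] at hm
        omega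
      · intro m hm
        exact (mem_filter.1 hm).2
    have hexp : (R : ℝ) ^ (2 / 3 + 1 / 50 : ℝ) * R * (R : ℝ) ^ (1 / 25 : ℝ) ≤
        (R : ℝ) ^ (7 / 4 : ℝ) := by
      calc (R : ℝ) ^ (2 / 3 + 1 / 50 : ℝ) * R * (R : ℝ) ^ (1 / 25 : ℝ)
          = (R : ℝ) ^ (2 / 3 + 1 / 50 : ℝ) * (R : ℝ) ^ (1 : ℝ) * (R : ℝ) ^ (1 / 25 : ℝ) := by
            rw [Real.rpow_one]
        _ = (R : ℝ) ^ ((2 / 3 + 1 / 50 + 1) + 1 / 25 : ℝ) := by
            rw [← Real.rpow_add hR0, ← Real.rpow_add hR0]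
        _ ≤ _ := Real.rpow_le_rpow_of_exponent_le hR1 (by norm_num)
    have hexp2 : (R : ℝ) ^ (2 / 3 : ℝ) * R * (R : ℝ) ^ (1 / 25 : ℝ) ≤
        (R : ℝ) ^ (7 / 4 : ℝ) := by
      calc (R : ℝ) ^ (2 / 3 : ℝ) * R * (R : ℝ) ^ (1 / 25 : ℝ)
          = (R : ℝ) ^ (2 / 3 : ℝ) * (R : ℝ) ^ (1 : ℝ) * (R : ℝ) ^ (1 / 25 : ℝ) := by
            rw [Real.rpow_one]
        _ = (R : ℝ) ^ ((2 / 3 + 1) + 1 / 25 : ℝ) := by
            rw [← Real.rpow_add hR0, ← Real.rpow_add hR0]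
        _ ≤ _ := Real.rpow_le_rpow_of_exponent_le hR1 (by norm_num)
    calc ∑ m ∈ M, C * (m.divisors.card : ℝ) ^ 2 * ((R : ℝ) / ell A A' m + 1)
        ≤ ∑ m ∈ M, (C * D * (2 * (R : ℝ) ^ (2 / 3 : ℝ)) +
          (if (ell A A' m : ℝ) ≤ (R : ℝ) ^ (1 / 3 : ℝ) then C * D * (2 * (R : ℝ)) else 0)) :=
          sum_le_sum hsplit
      _ = (M.card : ℝ) * (C * D * (2 * (R : ℝ) ^ (2 / 3 : ℝ))) +
          ((M.filter fun m => (ell A A' m : ℝ) ≤ (R : ℝ) ^ (1 / 3 : ℝ)).card : ℝ) *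
            (C * D * (2 * (R : ℝ))) := by
          rw [sum_add_distrib, sum_const, nsmul_eq_mul, ← sum_filter, sum_const, nsmul_eq_mul]
      _ ≤ (4 * R) * (C * D * (2 * (R : ℝ) ^ (2 / 3 : ℝ))) +
          (9 * C₁ * B * (R : ℝ) ^ (2 / 3 + 1 / 50 : ℝ)) * (C * D * (2 * (R : ℝ))) := by
          apply add_le_add
          · exact mul_le_mul_of_nonneg_right hcard (by positivity)
          · exact mul_le_mul_of_nonneg_right hcard2 (by positivity)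
      _ = C * (C₁ ^ 2 * (4 : ℝ) ^ (1 / 25 : ℝ)) * 8 *
            ((R : ℝ) ^ (2 / 3 : ℝ) * R * (R : ℝ) ^ (1 / 25 : ℝ)) +
          C * (C₁ ^ 2 * (4 : ℝ) ^ (1 / 25 : ℝ)) * (18 * C₁ * B) *
            ((R : ℝ) ^ (2 / 3 + 1 / 50 : ℝ) * R * (R : ℝ) ^ (1 / 25 : ℝ)) := by
          rw [hD]; ring
      _ ≤ C * (C₁ ^ 2 * (4 : ℝ) ^ (1 / 25 : ℝ)) * 8 * (R : ℝ) ^ (7 / 4 : ℝ) +
          C * (C₁ ^ 2 * (4 : ℝ) ^ (1 / 25 : ℝ)) * (18 * C₁ * B) * (R : ℝ) ^ (7 / 4 : ℝ) := by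
          apply add_le_add
          · exact mul_le_mul_of_nonneg_left hexp2 (by positivity)
          · exact mul_le_mul_of_nonneg_left hexp (by positivity)
      _ = _ := by ring

end Pool.Agent.Work.MP_43ce8a_nt.D
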