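import Pool.Agent.Work.MP_43ce8a_nt.D.PmLoc
import Pool.Agent.Work.MP_43ce8a_nt.D.LatErr
import Pool.Agent.Work.MP_43ce8a_nt.D.HSum
import Pool.Agent.Work.MP_43ce8a_nt.D.QB

set_option autoImplicit false

/-!
Module PmD (size M-L). Level of distribution for pairs.

PROOF. q = qq y, d₀ = ∏ d (squarefree, prime to q, all its primes in PP), g = g₁ g₂, D = g A, D' = g A'.
The condition ∀ p ∈ d, Ev x p holds iff (v mod d₀, v' mod d₀) ∈ Rcl m d (ev_mod), and forces (m, d₀) = 1.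
So the number is ∑_{m in (Y₁, Y₂], m ≡ μ (q), (m, d₀) = 1} ∑_{(c, c') ∈ Rcl} card {(v, v') in the
rectangle, v ≡ v' ≡ v0 (2 q), v ≡ c, v' ≡ c' (d₀), m ∣ Q}. CRT: t = 2 q d₀, prime to m (m is odd and
prime to q because μ is). m ≤ Y₂ ≤ 4 X, h, h' ≤ X: pair_err with R = X gives for the inner number
h h' hh m / (4 q² d₀² m) + O(err m). With card Rcl = ∏ 4 (p - 2) ≤ d₀² (loc_prod; 4(p-2) ≤ p²):
errors: d₀² ∑ err m ≤ C d₀² X^(7/4). Main: (h h' / (4 q²)) ∏ (4 (p-2)/p²) ∑ hh m / m, and H_sum (all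
chi (A A') p = 1 for p ∈ d because chi D p * chi D' p = chi (g² A A') p) gives
(log(Y₂/Y₁)/q) Gc ∏ ((1 - 1/p)²/(1 - 1/p²)) = ∏ (p - 1)/(p + 1), up to C d₀ Y₁^(-1/4), Y₁ ≥ X/(4 g):
h h' ≤ X² gives ≤ C' d₀ X^(7/4) (C' may depend on g; also 1 ≤ Y₁ is needed in H_sum: if X < 4 g the
whole statement is trivial with a large constant, number and main term are bounded by (4X+1) X² etc.,
or choose the constant so).
-/

namespace Pool.Agent.Work.MP_43ce8a_nt.D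

open Finset

open Classical in
private theorem count_m (q g₁ g₂ : ℕ) (A A' : ℤ) (v0 : ℕ) (d : Finset ℕ)
    (hdp : 0 < ∏ p ∈ d, p) (hdq : (2 * q).Coprime (∏ p ∈ d, p)) :
    ∃ W : ℕ → ℕ, ∀ (m : ℕ) (s : Finset (ℕ × ℕ)),
      (s.filter fun x => x.1 % (2 * q) = v0 % (2 * q) ∧ x.2 % (2 * q) = v0 % (2 * q) ∧
        (m : ℤ) ∣ Qf A A' ((x.1 : ℤ), (x.2 : ℤ)) ∧ ∀ p ∈ d, Ev g₁ g₂ A A' (m, x) p).card =
      ∑ c ∈ Rcl g₁ g₂ A A' m d, (s.filter fun x : ℕ × ℕ =>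
        x.1 % (2 * q * ∏ p ∈ d, p) = W c.1 % (2 * q * ∏ p ∈ d, p) ∧
        x.2 % (2 * q * ∏ p ∈ d, p) = W c.2 % (2 * q * ∏ p ∈ d, p) ∧
        (m : ℤ) ∣ Qf A A' ((x.1 : ℤ), (x.2 : ℤ))).card := by
  set d₀ := ∏ p ∈ d, p with hd₀
  refine ⟨fun n => (Nat.chineseRemainder hdq v0 n : ℕ), fun m s => ?_⟩
  have key : ∀ x n : ℕ, x % (2 * q * d₀) = (Nat.chineseRemainder hdq v0 n : ℕ) % (2 * q * d₀) ↔
      x % (2 * q) = v0 % (2 * q) ∧ x % d₀ = n % d₀ := by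
    intro x n
    have h1 := (Nat.chineseRemainder hdq v0 n).2
    have h2 := Nat.modEq_and_modEq_iff_modEq_mul hdq (a := x)
      (b := (Nat.chineseRemainder hdq v0 n : ℕ))
    constructor
    · intro h
      obtain ⟨h3, h4⟩ := h2.mpr h
      exact ⟨h3.trans h1.1, h4.trans h1.2⟩
    · rintro ⟨h3, h4⟩
      exact h2.mp ⟨Nat.ModEq.trans h3 h1.1.symm, Nat.ModEq.trans h4 h1.2.symm⟩
  have evd : ∀ x : ℕ × ℕ, ∀ p ∈ d,
      (Ev g₁ g₂ A A' (m, x.1 % d₀, x.2 % d₀) p ↔ Ev g₁ g₂ A A' (m, x) p) := by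
    intro x p hp
    exact ev_mod g₁ g₂ A A' m x.1 x.2 d₀ p (dvd_prod_of_mem _ hp)
  rw [card_eq_sum_card_fiberwise (f := fun x : ℕ × ℕ => (x.1 % d₀, x.2 % d₀))
    (t := Rcl g₁ g₂ A A' m d)]
  · refine sum_congr rfl fun c hc => ?_
    unfold Rcl at hc
    rw [mem_filter, mem_product, mem_range, mem_range] at hc
    obtain ⟨⟨hc1, hc2⟩, hcE⟩ := hc
    rw [filter_filter]
    congr 1
    refine filter_congr fun x _ => ?_
    rw [key, key, Nat.mod_eq_of_lt hc1, Nat.mod_eq_of_lt hc2]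
    constructor
    · rintro ⟨⟨h1, h2, h3, h4⟩, h5⟩
      have h6 := Prod.ext_iff.mp h5
      exact ⟨⟨h1, h6.1⟩, ⟨h2, h6.2⟩, h3⟩
    · rintro ⟨⟨h1, h2⟩, ⟨h3, h4⟩, h5⟩
      refine ⟨⟨h1, h3, h5, fun p hp => ?_⟩, Prod.ext h2 h4⟩
      rw [← evd x p hp, h2, h4]
      exact hcE p hp
  · intro x hx
    simp only [coe_filter, Set.mem_setOf_eq] at hx
    simp only [Rcl, coe_filter, mem_product, mem_range, Set.mem_setOf_eq]
    refine ⟨⟨Nat.mod_lt _ hdp, Nat.mod_lt _ hdp⟩, fun p hp => ?_⟩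
    exact (evd x p hp).mpr (hx.2.2.2.2 p hp)

open Classical in
private theorem sum_m (q g₁ g₂ : ℕ) (A A' : ℤ) (μ v0 : ℕ) (d : Finset ℕ) (hd : ∀ p ∈ d, p.Prime)
    (Y₁ Y₂ : ℝ) (a h a' h' : ℕ) :
    ((Tset q μ v0 A A' Y₁ Y₂ a h a' h').filter fun x => ∀ p ∈ d, Ev g₁ g₂ A A' x p).card =
    ∑ m ∈ (Ioc ⌊Y₁⌋₊ ⌊Y₂⌋₊).filter (fun m => m % q = μ % q ∧ m.Coprime (∏ p ∈ d, p)),
      ((Ioc a (a + h) ×ˢ Ioc a' (a' + h')).filter fun x =>
        x.1 % (2 * q) = v0 % (2 * q) ∧ x.2 % (2 * q) = v0 % (2 * q) ∧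
        (m : ℤ) ∣ Qf A A' ((x.1 : ℤ), (x.2 : ℤ)) ∧ ∀ p ∈ d, Ev g₁ g₂ A A' (m, x) p).card := by
  rw [card_eq_sum_card_fiberwise (f := fun x : ℕ × ℕ × ℕ => x.1)
    (t := (Ioc ⌊Y₁⌋₊ ⌊Y₂⌋₊).filter (fun m => m % q = μ % q ∧ m.Coprime (∏ p ∈ d, p)))]
  · refine sum_congr rfl fun m hm => ?_
    rw [mem_filter] at hm
    have : (((Tset q μ v0 A A' Y₁ Y₂ a h a' h').filter fun x => ∀ p ∈ d, Ev g₁ g₂ A A' x p).filter
        fun x => x.1 = m) = ((Ioc a (a + h) ×ˢ Ioc a' (a' + h')).filter fun x =>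
        x.1 % (2 * q) = v0 % (2 * q) ∧ x.2 % (2 * q) = v0 % (2 * q) ∧
        (m : ℤ) ∣ Qf A A' ((x.1 : ℤ), (x.2 : ℤ)) ∧ ∀ p ∈ d, Ev g₁ g₂ A A' (m, x) p).image
          (fun x => (m, x)) := by
      ext x
      simp only [Tset, mem_filter, mem_product, mem_image]
      constructor
      · rintro ⟨⟨⟨⟨h1, h2⟩, h3, h4, h5, h6⟩, h7⟩, h8⟩
        subst h8
        exact ⟨x.2, ⟨h2, h4, h5, h6, h7⟩, rfl⟩
      · rintro ⟨x', ⟨h2, h4, h5, h6, h7⟩, rfl⟩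
        exact ⟨⟨⟨⟨hm.1, h2⟩, hm.2.1, h4, h5, h6⟩, h7⟩, rfl⟩
    rw [this, card_image_of_injective _ (fun x y hxy => (Prod.ext_iff.mp hxy).2)]
  · intro x hx
    simp only [Tset, coe_filter, mem_filter, mem_product, Set.mem_setOf_eq] at hx
    simp only [coe_filter, Set.mem_setOf_eq]
    refine ⟨hx.1.1.1, hx.1.2.1, ?_⟩
    refine Nat.Coprime.prod_right fun p hp => ?_
    rw [Nat.coprime_comm, (hd p hp).coprime_iff_not_dvd]
    exact (hx.2 p hp).1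

open Classical in
theorem pair_level (y g₁ g₂ : ℕ) (A A' : ℤ) (hy : 8 ≤ y) (hg₁ : 0 < g₁) (hg₂ : 0 < g₂)
    (hD : GoodD (qq y) (g₁ * g₂ * A)) (hD' : GoodD (qq y) (g₁ * g₂ * A')) (hc : IsCoprime A A')
    (h1 : (A * A').natAbs ≠ 1) :
    ∃ C : ℝ, 0 ≤ C ∧ ∀ (X μ v0 z a h a' h' : ℕ) (M₁ M₂ : ℝ), 1 ≤ X → (X : ℝ) / 4 ≤ M₁ → M₁ ≤ M₂ →
      M₂ ≤ 2 * M₁ → M₂ ≤ 4 * X → a + h ≤ X → a' + h' ≤ X → μ.Coprime (qq y) →
      ∀ d ⊆ PP (g₁ * g₂ * A) (g₁ * g₂ * A') y z,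
        |(((Tset (qq y) μ v0 A A' (M₁ / g₁) (M₂ / g₁) a h a' h').filter fun x =>
            ∀ p ∈ d, Ev g₁ g₂ A A' x p).card : ℝ) -
          XP (qq y) A A' h h' M₁ M₂ * ∏ p ∈ d, gp p| ≤
          C * ((∏ p ∈ d, p : ℕ) : ℝ) ^ 2 * (X : ℝ) ^ (7 / 4 : ℝ) := by
  have h2q : 2 ∣ qq y := ⟨8 * Mo y, by unfold qq; ring⟩
  have h4q : 4 ∣ qq y := ⟨4 * Mo y, by unfold qq; ring⟩
  have sA : Squarefree A := hD.sqf.squarefree_of_dvd ⟨(g₁ : ℤ) * g₂, by ring⟩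
  have sA' : Squarefree A' := hD'.sqf.squarefree_of_dvd ⟨(g₁ : ℤ) * g₂, by ring⟩
  have cA : IsCoprime A (qq y : ℤ) := hD.cop.of_isCoprime_of_dvd_left ⟨(g₁ : ℤ) * g₂, by ring⟩
  have cA' : IsCoprime A' (qq y : ℤ) := hD'.cop.of_isCoprime_of_dvd_left ⟨(g₁ : ℤ) * g₂, by ring⟩
  have odd : ∀ E : ℤ, IsCoprime E (qq y : ℤ) → Odd E := by
    intro E hE
    rw [← Int.not_even_iff_odd]
    rintro he
    have h2 : (2 : ℤ) ∣ (qq y : ℤ) := by exact_mod_cast h2q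
    have : IsUnit (2 : ℤ) := hE.isUnit_of_dvd' he.two_dvd h2
    rw [Int.isUnit_iff] at this
    omega
  have h1' : A * A' ≠ 1 := by intro h; rw [h] at h1; exact h1 rfl
  obtain ⟨C₁, hC₁, herr⟩ := pair_err A A' sA sA' hc h1'
  obtain ⟨C₂, hC₂, hH⟩ := H_sum A A' (odd A cA) (odd A' cA') sA sA' hc h1 (qq y) h4q
    (cA.mul_left cA') (qq_pos y)
  set G : ℝ := |Gc A A' (qq y)| with hG
  have hG0 : 0 ≤ G := abs_nonneg _
  have hg1R : (1 : ℝ) ≤ g₁ := by exact_mod_cast hg₁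
  refine ⟨C₁ + 4 * g₁ * C₂ + 4 * (4 * g₁) ^ 3 + (4 * g₁) ^ 2 * G, by positivity, ?_⟩
  intro X μ v0 z a h a' h' M₁ M₂ hX hM1 hM12 hM2 hM2X hah hah' hμ d hd
  have hXR : (1 : ℝ) ≤ X := by exact_mod_cast hX
  have hM1pos : 0 < M₁ := by linarith
  have hdpr : d ⊆ pr y z := fun p hp => mem_of_mem_filter p (hd hp)
  have hdP : ∀ p ∈ d, p.Prime ∧ 8 ≤ p := fun p hp => by
    have := mem_pr.mp (hdpr hp)
    exact ⟨this.2.2, by omega⟩
  have hd2 : ∀ p ∈ d, p.Prime ∧ p ≠ 2 := fun p hp => ⟨(hdP p hp).1, by have := (hdP p hp).2; omega⟩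
  have hdpos : 0 < ∏ p ∈ d, p := prod_pos fun p hp => (hdP p hp).1.pos
  have hdq : (∏ p ∈ d, p).Coprime (qq y) := prod_coprime (by omega) hdpr
  have hdsq := prod_squarefree (d := d) (fun p hp => (hdP p hp).1)
  have hd2' : (∏ p ∈ d, p).Coprime 2 := Nat.Coprime.coprime_dvd_right h2q hdq
  have h2qd : (2 * qq y).Coprime (∏ p ∈ d, p) :=
    (Nat.Coprime.mul_right hd2' hdq).symm
  have hqpos := qq_pos y
  have hchi : ∀ p ∈ d, chi (g₁ * g₂ * A) p = 1 ∧ chi (g₁ * g₂ * A') p = 1 := fun p hp =>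
    (mem_filter.mp (hd hp)).2
  have hchiAA : ∀ p ∈ d, chi (A * A') p = 1 := by
    intro p hp
    obtain ⟨e1, e2⟩ := hchi p hp
    rw [chi_left] at e1 e2
    rw [chi_left]
    rcases chi_cases ((g₁ : ℤ) * g₂) p with h | h | h <;> rw [h] at e1 e2
    · linarith
    · rw [one_mul] at e1 e2; rw [e1, e2]; norm_num
    · have e1' : chi A p = -1 := by linarith
      have e2' : chi A' p = -1 := by linarith
      rw [e1', e2']; norm_num
  set d₀ : ℕ := ∏ p ∈ d, p with hd₀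
  have hd0R : (1 : ℝ) ≤ (d₀ : ℝ) := by exact_mod_cast hdpos
  have hX74 : (1 : ℝ) ≤ (X : ℝ) ^ (7 / 4 : ℝ) := Real.one_le_rpow hXR (by norm_num)
  have hd0sq : (1 : ℝ) ≤ (d₀ : ℝ) ^ 2 := one_le_pow₀ hd0R
  have hhX : (h : ℝ) ≤ X := by exact_mod_cast (by omega : h ≤ X)
  have hh'X : (h' : ℝ) ≤ X := by exact_mod_cast (by omega : h' ≤ X)
  have hlog0 : 0 ≤ Real.log (M₂ / M₁) := Real.log_nonneg ((one_le_div hM1pos).mpr hM12)
  have hlog1 : Real.log (M₂ / M₁) ≤ 1 := by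
    have h2 : M₂ / M₁ ≤ 2 := (div_le_iff₀ hM1pos).mpr hM2
    have h3 : Real.log (M₂ / M₁) ≤ Real.log 2 := Real.log_le_log (div_pos (by linarith) hM1pos) h2
    have := Real.log_two_lt_d9
    linarith
  have hqR : (1 : ℝ) ≤ (qq y : ℝ) := by exact_mod_cast hqpos
  have hgp01 : ∀ p ∈ d, 0 ≤ gp p ∧ gp p ≤ 1 := by
    intro p hp
    have hp8 : (8 : ℝ) ≤ p := by exact_mod_cast (hdP p hp).2
    unfold gp
    constructor
    · apply div_nonneg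
      · have h1 : (0 : ℝ) ≤ (p : ℝ) - 2 := by linarith
        have h2 : (0 : ℝ) ≤ (p : ℝ) - 1 := by linarith
        positivity
      · positivity
    · rw [div_le_one (by positivity)]
      have h1 : ((p : ℝ) - 2) * ((p : ℝ) - 1) ≤ (p : ℝ) * p := by nlinarith
      have h2 : (8 : ℝ) * ((p : ℝ) * p) ≤ (p : ℝ) ^ 2 * (p + 1) := by nlinarith [sq_nonneg (p : ℝ)]
      nlinarith
  rcases lt_or_ge (M₁ / g₁) 1 with hsmall | hbig
  · -- trivial range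
    have hXs : (X : ℝ) ≤ 4 * g₁ := by
      rw [div_lt_one (by linarith)] at hsmall
      linarith
    have hcard : ((((Tset (qq y) μ v0 A A' (M₁ / g₁) (M₂ / g₁) a h a' h').filter fun x =>
            ∀ p ∈ d, Ev g₁ g₂ A A' x p).card : ℕ) : ℝ) ≤ 4 * X * (X * X) := by
      have e1 : (((Tset (qq y) μ v0 A A' (M₁ / g₁) (M₂ / g₁) a h a' h').filter fun x =>
            ∀ p ∈ d, Ev g₁ g₂ A A' x p).card) ≤
          (Ioc ⌊M₁ / g₁⌋₊ ⌊M₂ / g₁⌋₊ ×ˢ (Ioc a (a + h) ×ˢ Ioc a' (a' + h'))).card :=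
        card_le_card ((filter_subset _ _).trans (filter_subset _ _))
      rw [card_product, card_product, Nat.card_Ioc, Nat.card_Ioc, Nat.card_Ioc] at e1
      have e2 : ⌊M₂ / g₁⌋₊ - ⌊M₁ / g₁⌋₊ ≤ 4 * X := by
        have : ⌊M₂ / g₁⌋₊ ≤ 4 * X := by
          have e3 : M₂ / g₁ ≤ ((4 * X : ℕ) : ℝ) := by
            push_cast
            exact le_trans (div_le_self (by linarith) hg1R) hM2X
          exact Nat.floor_le_of_le e3
        omega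
      have e4 : a + h - a ≤ X := by omega
      have e5 : a' + h' - a' ≤ X := by omega
      have e6 := e1.trans (Nat.mul_le_mul e2 (Nat.mul_le_mul e4 e5))
      exact_mod_cast e6
    have hmain : |XP (qq y) A A' h h' M₁ M₂ * ∏ p ∈ d, gp p| ≤ X * X * G := by
      rw [abs_mul]
      have e1 : |∏ p ∈ d, gp p| ≤ 1 := by
        rw [abs_of_nonneg (prod_nonneg fun p hp => (hgp01 p hp).1)]
        exact prod_le_one (fun p hp => (hgp01 p hp).1) (fun p hp => (hgp01 p hp).2)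
      have e2 : |XP (qq y) A A' h h' M₁ M₂| ≤ X * X * G := by
        unfold XP
        rw [abs_mul, abs_mul, abs_of_nonneg (by positivity : (0 : ℝ) ≤ (h : ℝ) * h' / (4 * (qq y : ℝ) ^ 2)),
          abs_of_nonneg (by positivity : (0 : ℝ) ≤ Real.log (M₂ / M₁) / (qq y : ℝ))]
        have e3 : (h : ℝ) * h' / (4 * (qq y : ℝ) ^ 2) ≤ X * X := by
          refine le_trans (div_le_self (by positivity) ?_) (by gcongr)
          nlinarith
        have e4 : Real.log (M₂ / M₁) / (qq y : ℝ) ≤ 1 :=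
          le_trans (div_le_self hlog0 hqR) hlog1
        calc (h : ℝ) * h' / (4 * (qq y : ℝ) ^ 2) * (Real.log (M₂ / M₁) / (qq y : ℝ)) * G
            ≤ (X * X) * 1 * G := by gcongr
          _ = X * X * G := by ring
      calc |XP (qq y) A A' h h' M₁ M₂| * |∏ p ∈ d, gp p| ≤ (X * X * G) * 1 := by gcongr
        _ = X * X * G := by ring
    have hT : |((((Tset (qq y) μ v0 A A' (M₁ / g₁) (M₂ / g₁) a h a' h').filter fun x =>
            ∀ p ∈ d, Ev g₁ g₂ A A' x p).card : ℕ) : ℝ) -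
          XP (qq y) A A' h h' M₁ M₂ * ∏ p ∈ d, gp p| ≤ 4 * (4 * g₁) ^ 3 + (4 * g₁) ^ 2 * G := by
      refine le_trans (abs_sub _ _) ?_
      rw [abs_of_nonneg (Nat.cast_nonneg _)]
      have e1 : 4 * (X : ℝ) * (X * X) ≤ 4 * (4 * g₁) ^ 3 := by
        calc 4 * (X : ℝ) * (X * X) = 4 * (X : ℝ) ^ 3 := by ring
          _ ≤ 4 * (4 * g₁) ^ 3 := by gcongr
      have e2 : (X : ℝ) * X * G ≤ (4 * g₁) ^ 2 * G := by
        calc (X : ℝ) * X * G = (X : ℝ) ^ 2 * G := by ring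
          _ ≤ (4 * g₁) ^ 2 * G := by gcongr
      linarith
    refine le_trans hT ?_
    have e1 : (1 : ℝ) ≤ (d₀ : ℝ) ^ 2 * (X : ℝ) ^ (7 / 4 : ℝ) := by nlinarith
    have e2 : 4 * (4 * (g₁ : ℝ)) ^ 3 + (4 * g₁) ^ 2 * G ≤
        C₁ + 4 * g₁ * C₂ + 4 * (4 * g₁) ^ 3 + (4 * g₁) ^ 2 * G := by
      have : 0 ≤ 4 * (g₁ : ℝ) * C₂ := by positivity
      linarith
    have e3 : 0 ≤ C₁ + 4 * g₁ * C₂ + 4 * (4 * g₁) ^ 3 + (4 * g₁) ^ 2 * G := by positivity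
    calc _ ≤ C₁ + 4 * g₁ * C₂ + 4 * (4 * g₁) ^ 3 + (4 * g₁) ^ 2 * G := e2
      _ = (C₁ + 4 * g₁ * C₂ + 4 * (4 * g₁) ^ 3 + (4 * g₁) ^ 2 * G) * 1 := by ring
      _ ≤ (C₁ + 4 * g₁ * C₂ + 4 * (4 * g₁) ^ 3 + (4 * g₁) ^ 2 * G) *
          ((d₀ : ℝ) ^ 2 * (X : ℝ) ^ (7 / 4 : ℝ)) := by gcongr
      _ = _ := by ring
  · -- main range
    obtain ⟨W, hW⟩ := count_m (qq y) g₁ g₂ A A' v0 d hdpos h2qd
    obtain ⟨err, herr0, herr1, herr2⟩ := herr X hX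
    have hsum := sum_m (qq y) g₁ g₂ A A' μ v0 d (fun p hp => (hdP p hp).1) (M₁ / g₁) (M₂ / g₁)
      a h a' h'
    rw [← hd₀] at hsum hW
    set Ms := (Ioc ⌊M₁ / g₁⌋₊ ⌊M₂ / g₁⌋₊).filter
      (fun m => m % qq y = μ % qq y ∧ m.Coprime d₀) with hMs
    set K : ℕ := ∏ p ∈ d, 4 * (p - 2) with hK
    set t : ℕ := 2 * qq y * d₀ with ht
    have htpos : 0 < t := by positivity
    have hm : ∀ m ∈ Ms, m % 2 = 1 ∧ m.Coprime (qq y) ∧ m.Coprime d₀ ∧ 1 ≤ m ∧ m ≤ 4 * X := by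
      intro m hm
      rw [hMs, mem_filter, mem_Ioc] at hm
      have hmq : m.Coprime (qq y) := by
        have : Nat.gcd m (qq y) = Nat.gcd μ (qq y) := Nat.ModEq.gcd_eq hm.2.1
        rw [Nat.Coprime, this]; exact hμ
      have hm2 : m.Coprime 2 := Nat.Coprime.coprime_dvd_right h2q hmq
      refine ⟨?_, hmq, hm.2.2, by omega, ?_⟩
      · have := Nat.coprime_two_right.mp hm2
        exact Nat.odd_iff.mp this
      · have e3 : M₂ / g₁ ≤ ((4 * X : ℕ) : ℝ) := by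
          push_cast
          exact le_trans (div_le_self (by linarith) hg1R) hM2X
        have := Nat.floor_le_of_le e3
        omega
    have hK2 : (K : ℝ) ≤ (d₀ : ℝ) ^ 2 := by
      have : K ≤ d₀ ^ 2 := by
        rw [hK, hd₀, ← prod_pow]
        refine prod_le_prod' fun p hp => ?_
        have h8 := (hdP p hp).2
        nlinarith [h8, Nat.sub_le p 2]
      exact_mod_cast this
    -- inner estimate
    have hinner : ∀ m ∈ Ms, |((((Ioc a (a + h) ×ˢ Ioc a' (a' + h')).filter fun x =>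
        x.1 % (2 * qq y) = v0 % (2 * qq y) ∧ x.2 % (2 * qq y) = v0 % (2 * qq y) ∧
        (m : ℤ) ∣ Qf A A' ((x.1 : ℤ), (x.2 : ℤ)) ∧ ∀ p ∈ d, Ev g₁ g₂ A A' (m, x) p).card : ℕ) : ℝ) -
        K * ((h : ℝ) * h' / (t : ℝ) ^ 2) * (hh A A' m / m)| ≤ K * err m := by
      intro m hmM
      obtain ⟨m1, m2, m3, m4, m5⟩ := hm m hmM
      have hRc : (Rcl g₁ g₂ A A' m d).card = K := by
        refine loc_prod g₁ g₂ A A' m d hd2 hchi fun p hp hpm => ?_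
        have := Nat.Coprime.coprime_dvd_right (dvd_prod_of_mem (fun p => p) hp) m3
        exact (Nat.Prime.coprime_iff_not_dvd (hdP p hp).1).mp this.symm hpm
      rw [hW m]
      have htm : t.Coprime m := by
        rw [ht]
        refine Nat.Coprime.mul_left (Nat.Coprime.mul_left ?_ m2.symm) m3.symm
        exact (Nat.coprime_two_right.mpr (Nat.odd_iff.mpr m1)).symm
      have e1 : (K : ℝ) * ((h : ℝ) * h' / (t : ℝ) ^ 2) * (hh A A' m / m) =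
          ∑ c ∈ Rcl g₁ g₂ A A' m d, (h : ℝ) * h' * hh A A' m / ((t : ℝ) ^ 2 * m) := by
        rw [sum_const, hRc, nsmul_eq_mul]
        field_simp
      have e2 : (K : ℝ) * err m = ∑ c ∈ Rcl g₁ g₂ A A' m d, err m := by
        rw [sum_const, hRc, nsmul_eq_mul]
      rw [e1, e2, Nat.cast_sum, ← sum_sub_distrib]
      refine (abs_sum_le_sum_abs _ _).trans (sum_le_sum fun c _ => ?_)
      exact herr1 m t (W c.1) (W c.2) a h a' h' m1 htpos htm (by omega) (by omega)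
    have hMsub : Ms ⊆ (Icc 1 (4 * X)).filter (fun m => m % 2 = 1) := by
      intro m hmM
      obtain ⟨m1, m2, m3, m4, m5⟩ := hm m hmM
      rw [mem_filter, mem_Icc]
      exact ⟨⟨m4, m5⟩, m1⟩
    have herrsum : ∑ m ∈ Ms, err m ≤ C₁ * (X : ℝ) ^ (7 / 4 : ℝ) :=
      le_trans (sum_le_sum_of_subset_of_nonneg hMsub fun m _ _ => herr0 m) herr2
    have hH1 := hH d₀ μ (M₁ / g₁) (M₂ / g₁) hdsq.1 hdq hμ hbig
      (by gcongr) (by rw [← mul_div_assoc]; gcongr)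
    rw [← hMs, hdsq.2] at hH1
    have hratio : M₂ / g₁ / (M₁ / g₁) = M₂ / M₁ := by
      have : (g₁ : ℝ) ≠ 0 := by positivity
      field_simp
    rw [hratio] at hH1
    set S : ℝ := ∑ m ∈ Ms, hh A A' m / (m : ℝ) with hS
    set P : ℝ := ∏ p ∈ d, ((1 - 1 / (p : ℝ)) * (1 - chi (A * A') p / (p : ℝ)) /
            (1 - chi (A * A') p / (p : ℝ) ^ 2)) with hP
    have hbeta : 0 ≤ (K : ℝ) * ((h : ℝ) * h' / (t : ℝ) ^ 2) := by positivity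
    have hbeta2 : (K : ℝ) * ((h : ℝ) * h' / (t : ℝ) ^ 2) ≤ (X : ℝ) * X := by
      have e1 : (t : ℝ) ^ 2 = 4 * (qq y : ℝ) ^ 2 * (d₀ : ℝ) ^ 2 := by
        rw [ht]; push_cast; ring
      have e2 : (K : ℝ) ≤ (t : ℝ) ^ 2 := by
        rw [e1]
        have : (1 : ℝ) ≤ 4 * (qq y : ℝ) ^ 2 := by nlinarith
        nlinarith
      calc (K : ℝ) * ((h : ℝ) * h' / (t : ℝ) ^ 2) = ((K : ℝ) / (t : ℝ) ^ 2) * ((h : ℝ) * h') := by
            ring
        _ ≤ 1 * ((X : ℝ) * X) := by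
            have : (K : ℝ) / (t : ℝ) ^ 2 ≤ 1 := div_le_one_of_le₀ e2 (by positivity)
            gcongr
        _ = (X : ℝ) * X := by ring
    have hmainid : (K : ℝ) * ((h : ℝ) * h' / (t : ℝ) ^ 2) *
        (Real.log (M₂ / M₁) / (qq y : ℝ) * Gc A A' (qq y) * P) =
        XP (qq y) A A' h h' M₁ M₂ * ∏ p ∈ d, gp p := by
      have e1 : (K : ℝ) = ∏ p ∈ d, (4 * ((p : ℝ) - 2)) := by
        rw [hK]; push_cast
        refine prod_congr rfl fun p hp => ?_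
        have h8 := (hdP p hp).2
        rw [Nat.cast_sub (by omega)]
        norm_num
      have e2 : (d₀ : ℝ) ^ 2 = ∏ p ∈ d, ((p : ℝ) ^ 2) := by
        rw [hd₀]; push_cast
        rw [prod_pow]
      have e3 : (K : ℝ) * P = (d₀ : ℝ) ^ 2 * ∏ p ∈ d, gp p := by
        rw [e1, e2, hP, ← prod_mul_distrib, ← prod_mul_distrib]
        refine prod_congr rfl fun p hp => ?_
        have h8 : (8 : ℝ) ≤ p := by exact_mod_cast (hdP p hp).2
        rw [hchiAA p hp]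
        unfold gp
        have n1 : (p : ℝ) ≠ 0 := by positivity
        have n2 : (p : ℝ) + 1 ≠ 0 := by positivity
        have n3 : (1 : ℝ) - 1 / (p : ℝ) ^ 2 ≠ 0 := by
          have : (1 : ℝ) / (p : ℝ) ^ 2 < 1 := by
            rw [div_lt_one (by positivity)]
            nlinarith
          linarith
        have n4 : (p : ℝ) ^ 2 - 1 ≠ 0 := by nlinarith
        field_simp
        ring
      have e4 : (t : ℝ) ^ 2 = 4 * (qq y : ℝ) ^ 2 * (d₀ : ℝ) ^ 2 := by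
        rw [ht]; push_cast; ring
      unfold XP
      rw [e4]
      have n1 : (d₀ : ℝ) ≠ 0 := by positivity
      have n2 : (qq y : ℝ) ≠ 0 := by positivity
      calc (K : ℝ) * ((h : ℝ) * h' / (4 * (qq y : ℝ) ^ 2 * (d₀ : ℝ) ^ 2)) *
          (Real.log (M₂ / M₁) / (qq y : ℝ) * Gc A A' (qq y) * P) =
          (K * P) * ((h : ℝ) * h' / (4 * (qq y : ℝ) ^ 2 * (d₀ : ℝ) ^ 2)) *
          (Real.log (M₂ / M₁) / (qq y : ℝ) * Gc A A' (qq y)) := by ring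
        _ = _ := by
          rw [e3]
          field_simp
    have hY : (M₁ / g₁) ^ (-(1 / 4) : ℝ) ≤ 4 * g₁ * (X : ℝ) ^ (-(1 / 4) : ℝ) := by
      have e1 : (X : ℝ) / (4 * g₁) ≤ M₁ / g₁ := by
        rw [div_le_div_iff₀ (by positivity) (by positivity)]
        nlinarith
      have e2 : (M₁ / g₁) ^ (-(1 / 4) : ℝ) ≤ ((X : ℝ) / (4 * g₁)) ^ (-(1 / 4) : ℝ) :=
        Real.rpow_le_rpow_of_nonpos (by positivity) e1 (by norm_num)
      refine le_trans e2 ?_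
      rw [Real.div_rpow (by positivity) (by positivity), div_eq_mul_inv, mul_comm,
        ← Real.rpow_neg (by positivity), neg_neg]
      gcongr
      calc (4 * (g₁ : ℝ)) ^ (1 / 4 : ℝ) ≤ (4 * (g₁ : ℝ)) ^ (1 : ℝ) :=
            Real.rpow_le_rpow_of_exponent_le (by linarith) (by norm_num)
        _ = 4 * g₁ := by rw [Real.rpow_one]
    have hX2 : (X : ℝ) * X * (X : ℝ) ^ (-(1 / 4) : ℝ) = (X : ℝ) ^ (7 / 4 : ℝ) := by
      have : (X : ℝ) * X = (X : ℝ) ^ (2 : ℝ) := by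
        rw [Real.rpow_two]; ring
      rw [this, ← Real.rpow_add (by positivity)]
      norm_num
    rw [hsum, Nat.cast_sum]
    have step1 : |∑ m ∈ Ms, ((((Ioc a (a + h) ×ˢ Ioc a' (a' + h')).filter fun x =>
        x.1 % (2 * qq y) = v0 % (2 * qq y) ∧ x.2 % (2 * qq y) = v0 % (2 * qq y) ∧
        (m : ℤ) ∣ Qf A A' ((x.1 : ℤ), (x.2 : ℤ)) ∧ ∀ p ∈ d, Ev g₁ g₂ A A' (m, x) p).card : ℕ) : ℝ) -
        K * ((h : ℝ) * h' / (t : ℝ) ^ 2) * S| ≤ (d₀ : ℝ) ^ 2 * (C₁ * (X : ℝ) ^ (7 / 4 : ℝ)) := by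
      rw [hS, mul_sum, ← sum_sub_distrib]
      refine (abs_sum_le_sum_abs _ _).trans ((sum_le_sum hinner).trans ?_)
      rw [← mul_sum]
      have : 0 ≤ C₁ * (X : ℝ) ^ (7 / 4 : ℝ) := by positivity
      calc (K : ℝ) * ∑ m ∈ Ms, err m ≤ K * (C₁ * (X : ℝ) ^ (7 / 4 : ℝ)) := by gcongr
        _ ≤ _ := by gcongr
    have step2 : |(K : ℝ) * ((h : ℝ) * h' / (t : ℝ) ^ 2) * S -
        XP (qq y) A A' h h' M₁ M₂ * ∏ p ∈ d, gp p| ≤
        (d₀ : ℝ) ^ 2 * (4 * g₁ * C₂ * (X : ℝ) ^ (7 / 4 : ℝ)) := by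
      rw [← hmainid, ← mul_sub, abs_mul, abs_of_nonneg hbeta]
      have hdd : (d₀ : ℝ) ≤ (d₀ : ℝ) ^ 2 := by nlinarith
      calc (K : ℝ) * ((h : ℝ) * h' / (t : ℝ) ^ 2) *
          |S - Real.log (M₂ / M₁) / (qq y : ℝ) * Gc A A' (qq y) * P| ≤
          (X * X) * (C₂ * d₀ * (4 * g₁ * (X : ℝ) ^ (-(1 / 4) : ℝ))) := by
            refine mul_le_mul hbeta2 (le_trans hH1 ?_) (abs_nonneg _) (by positivity)
            gcongr
        _ = d₀ * (4 * g₁ * C₂ * (X * X * (X : ℝ) ^ (-(1 / 4) : ℝ))) := by ring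
        _ = d₀ * (4 * g₁ * C₂ * (X : ℝ) ^ (7 / 4 : ℝ)) := by rw [hX2]
        _ ≤ (d₀ : ℝ) ^ 2 * (4 * g₁ * C₂ * (X : ℝ) ^ (7 / 4 : ℝ)) := by gcongr
    have step3 := abs_sub_le (∑ m ∈ Ms, ((((Ioc a (a + h) ×ˢ Ioc a' (a' + h')).filter fun x =>
        x.1 % (2 * qq y) = v0 % (2 * qq y) ∧ x.2 % (2 * qq y) = v0 % (2 * qq y) ∧
        (m : ℤ) ∣ Qf A A' ((x.1 : ℤ), (x.2 : ℤ)) ∧ ∀ p ∈ d, Ev g₁ g₂ A A' (m, x) p).card : ℕ) : ℝ))
        ((K : ℝ) * ((h : ℝ) * h' / (t : ℝ) ^ 2) * S)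
        (XP (qq y) A A' h h' M₁ M₂ * ∏ p ∈ d, gp p)
    refine le_trans step3 (le_trans (add_le_add step1 step2) ?_)
    have e5 : 0 ≤ (4 * (4 * (g₁ : ℝ)) ^ 3 + (4 * g₁) ^ 2 * G) *
        ((d₀ : ℝ) ^ 2 * (X : ℝ) ^ (7 / 4 : ℝ)) := by positivity
    nlinarith

end Pool.Agent.Work.MP_43ce8a_nt.D
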