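import Pool.Agent.Work.MP_43ce8a_nt.D.PmMap
import Pool.Agent.Work.MP_43ce8a_nt.D.PmD
import Pool.Agent.Work.MP_43ce8a_nt.D.Sv
import Pool.Agent.Work.MP_43ce8a_nt.D.PLow

set_option autoImplicit false

/-!
Module Pm (size M). The second moment.

PROOF. g = gcd(D, D'), A = D/g, A' = D'/g (coprime). |A A'| ≠ 1: otherwise D' = ± D; D' = D is
excluded and D' = - D gives 4 q ∣ 2 D, impossible as D is odd (prime to q). For g₁ ∣ g choose
μf g₁ with g₁ μf g₁ ≡ w0 mod q (g₁ prime to q), μf g₁ prime to q. pair_map, and for each g₁ the sieve (Sv)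
with A = Tset, E = Ev, P = PP D D' y z, g = gp (0 ≤ gp p ≤ 4/p), X = XP (≥ 0: Gc ≥ 0 by Lone_pos and
Tq_pos, log ≥ 0), ρ = C (z^(4b+10))² X^(7/4) from pair_level. The number of g₁ is 2^ω(g); the constants
C of the finitely many g₁ are summed up.
-/

namespace Pool.Agent.Work.MP_43ce8a_nt.D

open Finset

/-- facts on the coprime parts -/
private theorem parts {q : ℕ} (hq : 2 ∣ q) {D D' : ℤ} (hD : GoodD q D) (hD' : GoodD q D')
    (hdd : ((4 * q : ℕ) : ℤ) ∣ D - D') (hne : D ≠ D') :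
    0 < Int.gcd D D' ∧ D = (Int.gcd D D' : ℤ) * (D / Int.gcd D D') ∧
    D' = (Int.gcd D D' : ℤ) * (D' / Int.gcd D D') ∧
    IsCoprime (D / Int.gcd D D') (D' / Int.gcd D D') ∧
    Squarefree (D / Int.gcd D D') ∧ Squarefree (D' / Int.gcd D D') ∧
    Odd (D / Int.gcd D D') ∧ Odd (D' / Int.gcd D D') ∧
    (D / Int.gcd D D' * (D' / Int.gcd D D')).natAbs ≠ 1 ∧
    Squarefree (Int.gcd D D') ∧ (Int.gcd D D').Coprime q := by
  have hD0 : D ≠ 0 := hD.sqf.ne_zero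
  have hg0 : 0 < Int.gcd D D' := Int.gcd_pos_of_ne_zero_left _ hD0
  have e1 : D = (Int.gcd D D' : ℤ) * (D / Int.gcd D D') :=
    (Int.mul_ediv_cancel' (Int.gcd_dvd_left D D')).symm
  have e2 : D' = (Int.gcd D D' : ℤ) * (D' / Int.gcd D D') :=
    (Int.mul_ediv_cancel' (Int.gcd_dvd_right D D')).symm
  set g : ℕ := Int.gcd D D' with hg
  set A : ℤ := D / g with hA
  set A' : ℤ := D' / g with hA'
  have hcop : IsCoprime A A' := by
    rw [Int.isCoprime_iff_gcd_eq_one]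
    have := Int.gcd_div_gcd_div_gcd (i := D) (j := D') (by rw [← hg]; exact hg0)
    exact this
  have sA : Squarefree A := hD.sqf.squarefree_of_dvd ⟨g, by rw [mul_comm]; exact e1⟩
  have sA' : Squarefree A' := hD'.sqf.squarefree_of_dvd ⟨g, by rw [mul_comm]; exact e2⟩
  have odd : ∀ E : ℤ, IsCoprime E (q : ℤ) → Odd E := by
    intro E hE
    rw [← Int.not_even_iff_odd]
    rintro he
    have h2 : (2 : ℤ) ∣ (q : ℤ) := by exact_mod_cast hq
    have : IsUnit (2 : ℤ) := hE.isUnit_of_dvd' he.two_dvd h2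
    rw [Int.isUnit_iff] at this
    omega
  have oD := odd D hD.cop
  have oD' := odd D' hD'.cop
  have oA : Odd A := by rw [e1] at oD; exact (Int.odd_mul.mp oD).2
  have oA' : Odd A' := by rw [e2] at oD'; exact (Int.odd_mul.mp oD').2
  refine ⟨hg0, e1, e2, hcop, sA, sA', oA, oA', ?_, ?_, ?_⟩
  · intro h1
    rw [Int.natAbs_mul] at h1
    have h2 := Nat.eq_one_of_mul_eq_one_right h1
    have h3 := Nat.eq_one_of_mul_eq_one_left h1
    have h2' := Int.natAbs_eq A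
    have h3' := Int.natAbs_eq A'
    rw [h2] at h2'
    rw [h3] at h3'
    have hq4 : (4 : ℤ) ∣ D - D' := dvd_trans ⟨(q : ℤ), by push_cast; ring⟩ hdd
    have key : D = D' ∨ D = -D' := by
      rcases h2' with h | h <;> rcases h3' with h' | h'
      · left; rw [e1, e2, h, h']
      · right; rw [e1, e2, h, h']; push_cast; ring
      · right; rw [e1, e2, h, h']; push_cast; ring
      · left; rw [e1, e2, h, h']
    rcases key with h | h
    · exact hne h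
    · rw [h] at hq4
      obtain ⟨t, ht⟩ := oD'
      omega
  · have h1 : Squarefree (D.natAbs) := Int.squarefree_natAbs.mpr hD.sqf
    refine h1.squarefree_of_dvd ?_
    have := Int.gcd_dvd_left D D'
    rw [← hg] at this
    exact Int.natCast_dvd.mp this
  · have h1 : IsCoprime (g : ℤ) (q : ℤ) := hD.cop.of_isCoprime_of_dvd_left ⟨A, e1⟩
    exact Nat.isCoprime_iff_coprime.mp h1

private theorem two_dvd_qq (y : ℕ) : 2 ∣ qq y := ⟨8 * Mo y, by unfold qq; ring⟩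

theorem Gc_nonneg {y : ℕ} (hy : 8 ≤ y) {D D' : ℤ} (hD : GoodD (qq y) D) (hD' : GoodD (qq y) D')
    (hdd : ((4 * qq y : ℕ) : ℤ) ∣ D - D') (hne : D ≠ D') :
    0 ≤ Gc (D / Int.gcd D D') (D' / Int.gcd D D') (qq y) := by
  have _ := hy
  obtain ⟨-, -, -, hc, sA, sA', oA, oA', h1, -, -⟩ := parts (two_dvd_qq y) hD hD' hdd hne
  unfold Gc
  have hsq : Squarefree (D / Int.gcd D D' * (D' / Int.gcd D D')) :=
    squarefree_mul_iff.mpr ⟨hc.isRelPrime, sA, sA'⟩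
  have hne1 : D / Int.gcd D D' * (D' / Int.gcd D D') ≠ 1 := by
    intro h; rw [h] at h1; exact h1 rfl
  refine mul_nonneg (mul_nonneg (Lone_pos _ (oA.mul oA') hsq hne1).le ?_) (Tq_pos _ _ (qq_pos y)).le
  refine prod_nonneg fun p hp => ?_
  have hp1 : (1 : ℝ) ≤ p := by exact_mod_cast (Nat.prime_of_mem_primeFactors hp).one_lt.le
  have := (abs_le.mp (chi_abs_le (D / Int.gcd D D' * (D' / Int.gcd D D')) p)).2
  rw [sub_nonneg]
  exact div_le_one_of_le₀ (le_trans this hp1) (by linarith)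

private theorem exists_mu {q w g₁ : ℕ} (hq : 0 < q) (hw : w.Coprime q) (hg : g₁.Coprime q) :
    ∃ μ : ℕ, (g₁ * μ) % q = w % q ∧ μ.Coprime q := by
  have h1 : ∃ x : ℕ, (g₁ * x) % q = 1 % q := by
    rcases Nat.lt_or_ge 1 q with h | h
    · obtain ⟨x, -, hx⟩ := Nat.exists_mul_mod_eq_one_of_coprime hg h
      exact ⟨x, by rw [hx, Nat.mod_eq_of_lt h]⟩
    · have : q = 1 := by omega
      subst this
      exact ⟨0, by omega⟩
  obtain ⟨x, hx⟩ := h1
  have h2 : (g₁ * (x * w)) % q = w % q := by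
    rw [← mul_assoc, Nat.mul_mod, hx, ← Nat.mul_mod, one_mul]
  refine ⟨x * w, h2, ?_⟩
  have h3 : Nat.gcd (g₁ * (x * w)) q = Nat.gcd w q := Nat.ModEq.gcd_eq h2
  have h4 : (g₁ * (x * w)).Coprime q := by
    rw [Nat.Coprime, h3]; exact hw
  exact Nat.Coprime.coprime_mul_left h4

theorem pair_moment : ∃ b₀ : ℕ, ∀ b : ℕ, b₀ ≤ b → ∀ (y : ℕ) (D D' : ℤ), 8 ≤ y →
    GoodD (qq y) D → GoodD (qq y) D' → ((4 * qq y : ℕ) : ℤ) ∣ D - D' → D ≠ D' →
    ∃ C : ℝ, 0 ≤ C ∧ ∀ (b1 w0 v0 z N H a h a' h' X : ℕ) (M₁ M₂ : ℝ), y < z →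
      b1.Coprime (qq y) → w0.Coprime (qq y) → GeoP D D' N H a h a' h' X M₁ M₂ →
      ((∑ n ∈ Nset (qq y) b1 z N H, rep (qq y) w0 v0 D a h n * rep (qq y) w0 v0 D' a' h' n : ℕ)
        : ℝ) ≤
        (1 + Real.exp (-b)) * 2 ^ (Int.gcd D D').primeFactors.card *
          (XP (qq y) (D / Int.gcd D D') (D' / Int.gcd D D') h h' M₁ M₂ *
            ∏ p ∈ PP D D' y z, (1 - gp p)) +
        C * (1 + z) * (z : ℝ) ^ (3 * (4 * b + 10)) * (X : ℝ) ^ (7 / 4 : ℝ) := by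
  classical
  obtain ⟨b₀, hb₀⟩ := sieve
  refine ⟨b₀, fun b hb y D D' hy hD hD' hdd hne => ?_⟩
  obtain ⟨hg0, e1, e2, hc, sA, sA', oA, oA', h1, hgs, hgq⟩ := parts (two_dvd_qq y) hD hD' hdd hne
  have hGc := Gc_nonneg hy hD hD' hdd hne
  have hsieve := hb₀ b hb
  clear hb₀
  set g : ℕ := Int.gcd D D' with hg
  set A : ℤ := D / g with hA
  set A' : ℤ := D' / g with hA'
  have hex : ∀ g₁ : ℕ, ∃ C : ℝ, 0 ≤ C ∧ (g₁ ∈ g.divisors →
      ∀ (X μ v0 z a h a' h' : ℕ) (M₁ M₂ : ℝ), 1 ≤ X → (X : ℝ) / 4 ≤ M₁ → M₁ ≤ M₂ →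
      M₂ ≤ 2 * M₁ → M₂ ≤ 4 * X → a + h ≤ X → a' + h' ≤ X → μ.Coprime (qq y) →
      ∀ d ⊆ PP D D' y z,
        |(((Tset (qq y) μ v0 A A' (M₁ / g₁) (M₂ / g₁) a h a' h').filter fun x =>
            ∀ p ∈ d, Ev g₁ (g / g₁) A A' x p).card : ℝ) -
          XP (qq y) A A' h h' M₁ M₂ * ∏ p ∈ d, gp p| ≤
          C * ((∏ p ∈ d, p : ℕ) : ℝ) ^ 2 * (X : ℝ) ^ (7 / 4 : ℝ)) := by
    intro g₁
    by_cases hmem : g₁ ∈ g.divisors
    · have hdv := Nat.dvd_of_mem_divisors hmem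
      have hg1 : 0 < g₁ := Nat.pos_of_dvd_of_pos hdv hg0
      have hg2 : 0 < g / g₁ := Nat.div_pos (Nat.le_of_dvd hg0 hdv) hg1
      have hgg : (g₁ : ℤ) * ((g / g₁ : ℕ) : ℤ) = g := by
        rw [← Nat.cast_mul, Nat.mul_div_cancel' hdv]
      have eD : (g₁ : ℤ) * ((g / g₁ : ℕ) : ℤ) * A = D := by rw [hgg]; exact e1.symm
      have eD' : (g₁ : ℤ) * ((g / g₁ : ℕ) : ℤ) * A' = D' := by rw [hgg]; exact e2.symm
      have := pair_level y g₁ (g / g₁) A A' hy hg1 hg2 (by rw [eD]; exact hD)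
        (by rw [eD']; exact hD') hc h1
      rw [eD, eD'] at this
      obtain ⟨C, hC0, hC⟩ := this
      exact ⟨C, hC0, fun _ => hC⟩
    · exact ⟨0, le_rfl, fun h => absurd h hmem⟩
  choose C hC0 hC using hex
  refine ⟨∑ g₁ ∈ g.divisors, C g₁, sum_nonneg fun i _ => hC0 i, ?_⟩
  intro b1 w0 v0 z N H a h a' h' X M₁ M₂ hyz hb1 hw0 hP
  have hμex : ∀ g₁ : ℕ, ∃ μ : ℕ, g₁ ∈ g.divisors →
      (g₁ * μ) % qq y = w0 % qq y ∧ μ.Coprime (qq y) := by
    intro g₁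
    by_cases hmem : g₁ ∈ g.divisors
    · obtain ⟨μ, h1, h2⟩ := exists_mu (qq_pos y) hw0
        (Nat.Coprime.coprime_dvd_left (Nat.dvd_of_mem_divisors hmem) hgq)
      exact ⟨μ, fun _ => ⟨h1, h2⟩⟩
    · exact ⟨0, fun h => absurd h hmem⟩
  choose μf hμf using hμex
  have hmap := pair_map (v0 := v0) (z := z) hy hw0 hb1 hD hD' hdd hP μf (fun g₁ hg₁ => (hμf g₁ hg₁).1)
  rw [← hg] at hmap
  rw [← hA, ← hA'] at hmap
  have hXP : 0 ≤ XP (qq y) A A' h h' M₁ M₂ := by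
    unfold XP
    have hM1 : 0 < M₁ := by
      have := hP.lo
      have hX : (1 : ℝ) ≤ X := by exact_mod_cast hP.X1
      linarith
    have hlog : 0 ≤ Real.log (M₂ / M₁) :=
      Real.log_nonneg ((one_le_div hM1).mpr hP.le)
    positivity
  have hz1 : (1 : ℝ) ≤ z := by exact_mod_cast (by omega : 1 ≤ z)
  set Q : ℝ := XP (qq y) A A' h h' M₁ M₂ * ∏ p ∈ PP D D' y z, (1 - gp p) with hQ
  have hone : ∀ g₁ ∈ g.divisors,
      ((((Tset (qq y) (μf g₁) v0 A A' (M₁ / g₁) (M₂ / g₁) a h a' h').filter fun x =>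
        ∀ p ∈ PP D D' y z, ¬ Ev g₁ (g / g₁) A A' x p).card : ℕ) : ℝ) ≤
      (1 + Real.exp (-b)) * Q +
        C g₁ * ((1 + z) * (z : ℝ) ^ (3 * (4 * b + 10)) * (X : ℝ) ^ (7 / 4 : ℝ)) := by
    intro g₁ hg₁
    have hs := hsieve z (PP D D' y z) gp (by omega) ?_ ?_
      (Tset (qq y) (μf g₁) v0 A A' (M₁ / g₁) (M₂ / g₁) a h a' h')
      (fun x p => Ev g₁ (g / g₁) A A' x p) (XP (qq y) A A' h h' M₁ M₂)
      (C g₁ * ((z : ℝ) ^ (4 * b + 10)) ^ 2 * (X : ℝ) ^ (7 / 4 : ℝ)) hXP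
      (by have := hC0 g₁; positivity) ?_
    · have h2 := (abs_le.mp hs).2
      have h3 : (1 + (z : ℝ)) * (z : ℝ) ^ (4 * b + 10) *
          (C g₁ * ((z : ℝ) ^ (4 * b + 10)) ^ 2 * (X : ℝ) ^ (7 / 4 : ℝ)) =
          C g₁ * ((1 + z) * (z : ℝ) ^ (3 * (4 * b + 10)) * (X : ℝ) ^ (7 / 4 : ℝ)) := by
        rw [show 3 * (4 * b + 10) = (4 * b + 10) + 2 * (4 * b + 10) by ring, pow_add,
          show (2 * (4 * b + 10)) = (4 * b + 10) * 2 by ring, pow_mul]
        ring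
      rw [h3] at h2
      rw [hQ]
      linarith
    · intro p hp
      have hp' := mem_pr.mp (mem_of_mem_filter p hp)
      exact ⟨hp'.2.2, by omega, hp'.2.1⟩
    · intro p hp
      have hp' := mem_pr.mp (mem_of_mem_filter p hp)
      have hp8 : (8 : ℝ) ≤ p := by exact_mod_cast (by omega : 8 ≤ p)
      unfold gp
      constructor
      · apply div_nonneg
        · have h1 : (0 : ℝ) ≤ (p : ℝ) - 2 := by linarith
          have h2 : (0 : ℝ) ≤ (p : ℝ) - 1 := by linarith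
          positivity
        · positivity
      · rw [div_le_div_iff₀ (by positivity) (by positivity)]
        have : ((p : ℝ) - 2) * ((p : ℝ) - 1) ≤ (p : ℝ) * (p + 1) := by nlinarith
        nlinarith [sq_nonneg (p : ℝ)]
    · intro d hd hdz
      have h4 := hC g₁ hg₁ X (μf g₁) v0 z a h a' h' M₁ M₂ hP.X1 hP.lo hP.le hP.two hP.hi hP.ha hP.ha'
        (hμf g₁ hg₁).2 d hd
      refine le_trans h4 ?_
      have := hC0 g₁
      gcongr
  have hfin : ((∑ n ∈ Nset (qq y) b1 z N H,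
      rep (qq y) w0 v0 D a h n * rep (qq y) w0 v0 D' a' h' n : ℕ) : ℝ) ≤
      ∑ g₁ ∈ g.divisors, ((1 + Real.exp (-b)) * Q +
        C g₁ * ((1 + z) * (z : ℝ) ^ (3 * (4 * b + 10)) * (X : ℝ) ^ (7 / 4 : ℝ))) := by
    refine le_trans (Nat.cast_le.mpr hmap) ?_
    rw [Nat.cast_sum]
    exact sum_le_sum hone
  refine le_trans hfin (le_of_eq ?_)
  rw [sum_add_distrib, sum_const, nsmul_eq_mul]
  have hcard : (g.divisors.card : ℝ) = 2 ^ g.primeFactors.card := by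
    rw [Nat.card_divisors hg0.ne']
    push_cast
    rw [prod_congr rfl (g := fun _ => (2 : ℝ))]
    · rw [prod_const]
    · intro p hp
      have : g.factorization p = 1 := by
        have h1 := (Nat.squarefree_iff_factorization_le_one hg0.ne').mp hgs p
        have h2 := (Nat.prime_of_mem_primeFactors hp).factorization_pos_of_dvd hg0.ne'
          (Nat.dvd_of_mem_primeFactors hp)
        omega
      rw [this]; norm_num
  rw [hcard, ← sum_mul]
  ring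

end Pool.Agent.Work.MP_43ce8a_nt.D
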