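import Pool.Agent.Work.MP_43ce8a_nt.D.BlkG

set_option autoImplicit false

/-!
Module Rc (size M-L). Comparison of the archimedean densities.

Notation: N = X², H = X²/e (exact), W(n, v) = √(4n + D v²) for n in [N, N + H], v in [a, a + h];
Wmin, Wmax its minimum and maximum (n = N resp. N + H; v = a or a + h according to the sign of D);
the same with ' for the other block. M₁ = (Wmin + Wmin')/2, M₂ = (Wmax + Wmax')/2.
Bounds: Wmin² ≥ X²/2, Wmax² ≤ 16 X² (geo_block, also for v = a; or directly), Wmax² - Wmin² =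
4 H + |D| ((a + h)² - a²) ≤ 4 H + |D| * 3 a h ≤ 4 H + 3 * 64 * 64^k a²/e² = 4 H + 12 X²/e² = 4 H (1 + 3/e).
Hence Wmax - Wmin ≤ 2 H (1 + 3/e)/Wmin and Wmax/Wmin ≤ 1 + 2 H (1 + 3/e)/Wmin² ≤ 1 + (4/e)(1 + 3/e)
≤ 1 + 10/e ≤ 2. log(M₂/M₁) ≤ (M₂ - M₁)/M₁ ≤ 2 H (1 + 3/e) (1/Wmin + 1/Wmin')/(Wmin + Wmin') =
2 H (1 + 3/e)/(Wmin Wmin').
X1_low: Lf v = 4 H/(√(4(N+H) + D v²) + √(4N + D v²)) ≥ 2 H/Wmax, so X1 ≥ h H/(q² Wmax) ≥
h H/(4 q² X) = (2 H/q)/(32 q 8^k e²).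
real_compare: X1 X1'/(2 H/q) ≥ h h' H/(2 q³ Wmax Wmax') and
(h h'/(4 q³)) log(M₂/M₁) ≤ (1 + 3/e) h h' H/(2 q³ Wmin Wmin'), and
(1 + 3/e)(1 + 10/e)² ≤ 1 + 200/e for e ≥ 10. (The strict inequality M₁ < in GeoP holds because n > N.)
-/

namespace Pool.Agent.Work.MP_43ce8a_nt.D

open Finset

private theorem rc_ends (D : ℤ) (a h : ℕ) (h1 : 1 ≤ h) : ∃ vl ∈ Ioc a (a + h), ∃ vu ∈ Ioc a (a + h),
    ∀ v ∈ Ioc a (a + h), D * (vl : ℤ) ^ 2 ≤ D * (v : ℤ) ^ 2 ∧ D * (v : ℤ) ^ 2 ≤ D * (vu : ℤ) ^ 2 := by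
  have m1 : a + 1 ∈ Ioc a (a + h) := mem_Ioc.2 ⟨by omega, by omega⟩
  have m2 : a + h ∈ Ioc a (a + h) := mem_Ioc.2 ⟨by omega, by omega⟩
  have hsq : ∀ v ∈ Ioc a (a + h), ((a + 1 : ℕ) : ℤ) ^ 2 ≤ (v : ℤ) ^ 2 ∧
      (v : ℤ) ^ 2 ≤ ((a + h : ℕ) : ℤ) ^ 2 := by
    intro v hv
    have h2 := mem_Ioc.1 hv
    constructor
    · exact_mod_cast Nat.pow_le_pow_left (by omega : a + 1 ≤ v) 2
    · exact_mod_cast Nat.pow_le_pow_left h2.2 2
  rcases le_total 0 D with hD | hD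
  · exact ⟨a + 1, m1, a + h, m2, fun v hv => ⟨mul_le_mul_of_nonneg_left (hsq v hv).1 hD,
      mul_le_mul_of_nonneg_left (hsq v hv).2 hD⟩⟩
  · exact ⟨a + h, m2, a + 1, m1, fun v hv => ⟨mul_le_mul_of_nonpos_left (hsq v hv).2 hD,
      mul_le_mul_of_nonpos_left (hsq v hv).1 hD⟩⟩

private theorem rc_block {q r0 k e X : ℕ} {x : ℕ × ℕ} (hq : 0 < q) (hx : x ∈ Blk q r0 k)
    (he : 10 ≤ e) (hX0 : 0 < X) (hK : 4 * 8 ^ k * e ^ 2 ∣ X) :
    ∃ wl wu : ℝ, 0 < wl ∧ wl ≤ wu ∧ wu ≤ 4 * X ∧ (X : ℝ) ^ 2 ≤ 2 * wl ^ 2 ∧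
      wu ^ 2 - wl ^ 2 ≤ 4 * ((X : ℝ) ^ 2 / e) * (1 + 3 / e) ∧
      (∀ n ∈ Ioc (X ^ 2) (X ^ 2 + X ^ 2 / e), ∀ v ∈ Ioc (aX X k) (aX X k + hX X k e),
        wl < Real.sqrt (4 * n + disc x.1 x.2 * (v : ℝ) ^ 2) ∧
          Real.sqrt (4 * n + disc x.1 x.2 * (v : ℝ) ^ 2) ≤ wu) ∧
      (hX X k e : ℝ) * ((X : ℝ) ^ 2 / e) / ((q : ℝ) ^ 2 * wu) ≤
        X1 q (disc x.1 x.2) (X ^ 2) (X ^ 2 / e) (aX X k) (hX X k e) := by
  have hG := geo_block hx he hX0 hK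
  have hDa := disc_abs hx
  set D := disc x.1 x.2 with hDdef
  set a := aX X k with hadef
  set h := hX X k e with hhdef
  have he0 : (0 : ℝ) < e := by
    have : 0 < e := by omega
    exact_mod_cast this
  have he10 : (10 : ℝ) ≤ e := by exact_mod_cast he
  have hXr : (0 : ℝ) < X := by exact_mod_cast hX0
  have hqr : (0 : ℝ) < q := by exact_mod_cast hq
  have hdv1 : e ∣ X ^ 2 := by
    have h1 : e ∣ 4 * 8 ^ k * e ^ 2 := (dvd_pow_self e two_ne_zero).mul_left _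
    exact (h1.trans hK).trans (dvd_pow_self X two_ne_zero)
  have hdv2 : 4 * 8 ^ k ∣ X := (Dvd.intro _ rfl).trans hK
  have hHr : ((X ^ 2 / e : ℕ) : ℝ) = (X : ℝ) ^ 2 / e := by
    rw [Nat.cast_div hdv1 he0.ne']
    push_cast
    rfl
  have har : (a : ℝ) = (X : ℝ) / (4 * 8 ^ k) := by
    rw [hadef, aX, Nat.cast_div hdv2 (by positivity)]
    push_cast
    rfl
  have hhr : (h : ℝ) = (X : ℝ) / (4 * 8 ^ k * (e : ℝ) ^ 2) := by
    rw [hhdef, hX, Nat.cast_div hK (by push_cast; positivity)]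
    push_cast
    rfl
  obtain ⟨vl, hvl, vu, hvu, hv⟩ := rc_ends D a h hG.h1
  -- real versions of the inequalities
  have hlo : ∀ v ∈ Ioc a (a + h), (X : ℝ) ^ 2 ≤ 2 * (4 * (X : ℝ) ^ 2 + D * (v : ℝ) ^ 2) := by
    intro v hv1
    have h1 := hG.lo v hv1
    have h2 : (((X ^ 2 : ℕ) : ℤ) : ℝ) ≤ ((2 * (4 * ((X ^ 2 : ℕ) : ℤ) + D * (v : ℤ) ^ 2) : ℤ) : ℝ) := by
      exact_mod_cast h1
    push_cast at h2
    exact h2
  have hhi : ∀ v ∈ Ioc a (a + h),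
      4 * ((X : ℝ) ^ 2 + (X : ℝ) ^ 2 / e) + D * (v : ℝ) ^ 2 ≤ 16 * (X : ℝ) ^ 2 := by
    intro v hv1
    have h1 := hG.hi v hv1
    have h2 : ((4 * (((X ^ 2 : ℕ) : ℤ) + ((X ^ 2 / e : ℕ) : ℤ)) + D * (v : ℤ) ^ 2 : ℤ) : ℝ) ≤
        ((16 * ((X ^ 2 : ℕ) : ℤ) : ℤ) : ℝ) := by
      exact_mod_cast h1
    push_cast at h2
    rw [← hHr]
    exact h2
  have hvr : ∀ v ∈ Ioc a (a + h), (D : ℝ) * (vl : ℝ) ^ 2 ≤ D * (v : ℝ) ^ 2 ∧
      (D : ℝ) * (v : ℝ) ^ 2 ≤ D * (vu : ℝ) ^ 2 := by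
    intro v hv1
    have h1 := hv v hv1
    constructor
    · exact_mod_cast h1.1
    · exact_mod_cast h1.2
  set wl := Real.sqrt (4 * (X : ℝ) ^ 2 + D * (vl : ℝ) ^ 2) with hwl
  set wu := Real.sqrt (4 * ((X : ℝ) ^ 2 + (X : ℝ) ^ 2 / e) + D * (vu : ℝ) ^ 2) with hwu
  have hH0 : 0 < (X : ℝ) ^ 2 / e := by positivity
  have h1 := hlo vl hvl
  have h2 := hlo vu hvu
  have h3 := hhi vu hvu
  have hX2 : 0 < (X : ℝ) ^ 2 := by positivity
  have hwl2 : wl ^ 2 = 4 * (X : ℝ) ^ 2 + D * (vl : ℝ) ^ 2 := Real.sq_sqrt (by linarith)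
  have hwu2 : wu ^ 2 = 4 * ((X : ℝ) ^ 2 + (X : ℝ) ^ 2 / e) + D * (vu : ℝ) ^ 2 :=
    Real.sq_sqrt (by linarith)
  have hwlpos : 0 < wl := Real.sqrt_pos.2 (by linarith)
  have hle : wl ≤ wu := by
    refine Real.sqrt_le_sqrt ?_
    have := (hvr vu hvu).1
    linarith
  have hwu4 : wu ≤ 4 * X := by
    rw [hwu, Real.sqrt_le_left (by positivity)]
    linarith
  have hwupos : 0 < wu := hwlpos.trans_le hle
  refine ⟨wl, wu, hwlpos, hle, hwu4, by rw [hwl2]; linarith, ?_, ?_, ?_⟩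
  · -- difference of the squares
    have hvlb := mem_Ioc.1 hvl
    have hvub := mem_Ioc.1 hvu
    have c1 : |(vu : ℝ) ^ 2 - (vl : ℝ) ^ 2| ≤ ((a : ℝ) + h) ^ 2 - (a : ℝ) ^ 2 := by
      have b1 : (a : ℝ) ≤ vl := by exact_mod_cast hvlb.1.le
      have b2 : (vl : ℝ) ≤ a + h := by exact_mod_cast hvlb.2
      have b3 : (a : ℝ) ≤ vu := by exact_mod_cast hvub.1.le
      have b4 : (vu : ℝ) ≤ a + h := by exact_mod_cast hvub.2
      have b0 : (0 : ℝ) ≤ a := by positivity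
      rw [abs_le]
      constructor <;> nlinarith
    have c2 : |(D : ℝ)| ≤ 64 ^ (k + 1) := by
      have : ((D.natAbs : ℕ) : ℝ) ≤ ((64 ^ (k + 1) : ℕ) : ℝ) := by exact_mod_cast hDa
      rw [Nat.cast_natAbs] at this
      push_cast at this
      exact this
    have c3 : (D : ℝ) * (vu : ℝ) ^ 2 - D * (vl : ℝ) ^ 2 ≤
        64 ^ (k + 1) * (((a : ℝ) + h) ^ 2 - (a : ℝ) ^ 2) := by
      calc (D : ℝ) * (vu : ℝ) ^ 2 - D * (vl : ℝ) ^ 2 ≤ |(D : ℝ) * ((vu : ℝ) ^ 2 - (vl : ℝ) ^ 2)| := by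
            rw [← mul_sub]
            exact le_abs_self _
        _ = |(D : ℝ)| * |(vu : ℝ) ^ 2 - (vl : ℝ) ^ 2| := abs_mul _ _
        _ ≤ 64 ^ (k + 1) * (((a : ℝ) + h) ^ 2 - (a : ℝ) ^ 2) := by gcongr
    have c4 : (64 : ℝ) ^ (k + 1) * (((a : ℝ) + h) ^ 2 - (a : ℝ) ^ 2) ≤
        12 * ((X : ℝ) ^ 2 / e) / e := by
      have e1 : (64 : ℝ) ^ (k + 1) = 64 * (8 ^ k) ^ 2 := by
        rw [pow_succ, ← pow_mul, mul_comm k 2, pow_mul]
        norm_num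
        ring
      have e2 : (h : ℝ) = a / (e : ℝ) ^ 2 := by
        rw [hhr, har, div_div]
      have e3 : (8 ^ k : ℝ) * a = X / 4 := by
        rw [har]
        field_simp
      have e4 : (64 : ℝ) ^ (k + 1) * (((a : ℝ) + h) ^ 2 - (a : ℝ) ^ 2) =
          64 * (8 ^ k * a) ^ 2 * (2 / (e : ℝ) ^ 2 + 1 / (e : ℝ) ^ 4) := by
        rw [e1, e2]
        field_simp
        ring
      rw [e4, e3]
      have e5 : 1 / (e : ℝ) ^ 4 ≤ 1 / (e : ℝ) ^ 2 := by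
        refine one_div_le_one_div_of_le (by positivity) ?_
        exact pow_le_pow_right₀ (by linarith) (by norm_num)
      calc 64 * ((X : ℝ) / 4) ^ 2 * (2 / (e : ℝ) ^ 2 + 1 / (e : ℝ) ^ 4)
          ≤ 64 * ((X : ℝ) / 4) ^ 2 * (2 / (e : ℝ) ^ 2 + 1 / (e : ℝ) ^ 2) := by gcongr
        _ = 12 * ((X : ℝ) ^ 2 / e) / e := by
            field_simp
            ring
    rw [hwl2, hwu2]
    have e6 : 4 * ((X : ℝ) ^ 2 / e) * (1 + 3 / e) =
        4 * ((X : ℝ) ^ 2 / e) + 12 * ((X : ℝ) ^ 2 / e) / e := by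
      ring
    rw [e6]
    linarith
  · intro n hn v hv1
    have n1 := mem_Ioc.1 hn
    have n2 : (X : ℝ) ^ 2 < n := by exact_mod_cast n1.1
    have n3 : (n : ℝ) ≤ (X : ℝ) ^ 2 + (X : ℝ) ^ 2 / e := by
      rw [← hHr]
      exact_mod_cast n1.2
    have n4 := hvr v hv1
    constructor
    · refine Real.sqrt_lt_sqrt (by linarith) ?_
      linarith [n4.1]
    · refine Real.sqrt_le_sqrt ?_
      linarith [n4.2]
  · -- lower bound for the main term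
    rw [X1]
    have d1 : ∀ v ∈ Ioc a (a + h), 2 * ((X : ℝ) ^ 2 / e) / wu ≤ Lf D (X ^ 2) (X ^ 2 / e) v := by
      intro v hv1
      rw [Lf, hHr]
      push_cast
      set s := Real.sqrt (4 * ((X : ℝ) ^ 2 + (X : ℝ) ^ 2 / e) + D * (v : ℝ) ^ 2) with hs
      set t := Real.sqrt (4 * (X : ℝ) ^ 2 + D * (v : ℝ) ^ 2) with ht
      have n4 := hvr v hv1
      have n5 := hlo v hv1
      have s2 : s ^ 2 = 4 * ((X : ℝ) ^ 2 + (X : ℝ) ^ 2 / e) + D * (v : ℝ) ^ 2 :=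
        Real.sq_sqrt (by linarith)
      have t2 : t ^ 2 = 4 * (X : ℝ) ^ 2 + D * (v : ℝ) ^ 2 := Real.sq_sqrt (by linarith)
      have s0 : 0 < s := Real.sqrt_pos.2 (by linarith)
      have t0 : 0 < t := Real.sqrt_pos.2 (by linarith)
      have hst : s ≤ wu := by
        refine Real.sqrt_le_sqrt ?_
        linarith [n4.2]
      have hts : t ≤ s := by
        refine Real.sqrt_le_sqrt ?_
        linarith
      have e1 : (s - t) * (s + t) = 4 * ((X : ℝ) ^ 2 / e) := by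
        have : (s - t) * (s + t) = s ^ 2 - t ^ 2 := by ring
        rw [this, s2, t2]
        ring
      have e2 : s + t ≤ 2 * wu := by linarith
      rw [div_le_iff₀ hwupos]
      have e3 : (s - t) * (s + t) ≤ (s - t) * (2 * wu) :=
        mul_le_mul_of_nonneg_left e2 (by linarith)
      linarith
    have d2 : (h : ℝ) * (2 * ((X : ℝ) ^ 2 / e) / wu) ≤
        ∑ v ∈ Ioc a (a + h), Lf D (X ^ 2) (X ^ 2 / e) v := by
      have := Finset.card_nsmul_le_sum (Ioc a (a + h)) _ _ d1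
      rw [Nat.card_Ioc, Nat.add_sub_cancel_left, nsmul_eq_mul] at this
      exact this
    calc (h : ℝ) * ((X : ℝ) ^ 2 / e) / ((q : ℝ) ^ 2 * wu)
        = 1 / (2 * (q : ℝ) ^ 2) * ((h : ℝ) * (2 * ((X : ℝ) ^ 2 / e) / wu)) := by
          field_simp
      _ ≤ 1 / (2 * (q : ℝ) ^ 2) * ∑ v ∈ Ioc a (a + h), Lf D (X ^ 2) (X ^ 2 / e) v :=
          mul_le_mul_of_nonneg_left d2 (by positivity)

private theorem rc_H {e X k : ℕ} (he : 10 ≤ e) (hK : 4 * 8 ^ k * e ^ 2 ∣ X) :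
    ((X ^ 2 / e : ℕ) : ℝ) = (X : ℝ) ^ 2 / e := by
  have he0 : (0 : ℝ) < e := by
    have : 0 < e := by omega
    exact_mod_cast this
  have hdv1 : e ∣ X ^ 2 := by
    have h1 : e ∣ 4 * 8 ^ k * e ^ 2 := (dvd_pow_self e two_ne_zero).mul_left _
    exact (h1.trans hK).trans (dvd_pow_self X two_ne_zero)
  rw [Nat.cast_div hdv1 he0.ne']
  push_cast
  rfl

theorem X1_low {q r0 k e X : ℕ} {x : ℕ × ℕ} (hq : 0 < q) (hx : x ∈ Blk q r0 k) (he : 10 ≤ e)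
    (hX0 : 0 < X) (hK : 4 * 8 ^ k * e ^ 2 ∣ X) :
    (2 * ((X ^ 2 / e : ℕ) : ℝ) / q) / (32 * q * 8 ^ k * (e : ℝ) ^ 2) ≤
      X1 q (disc x.1 x.2) (X ^ 2) (X ^ 2 / e) (aX X k) (hX X k e) := by
  obtain ⟨wl, wu, h1, h2, h3, h4, h5, h6, h7⟩ := rc_block hq hx he hX0 hK
  refine le_trans ?_ h7
  have he0 : (0 : ℝ) < e := by
    have : 0 < e := by omega
    exact_mod_cast this
  have hXr : (0 : ℝ) < X := by exact_mod_cast hX0
  have hqr : (0 : ℝ) < q := by exact_mod_cast hq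
  have hhr : (hX X k e : ℝ) = (X : ℝ) / (4 * 8 ^ k * (e : ℝ) ^ 2) := by
    rw [hX, Nat.cast_div hK (by push_cast; positivity)]
    push_cast
    rfl
  rw [rc_H he hK, hhr]
  have hwu0 : 0 < wu := h1.trans_le h2
  calc 2 * ((X : ℝ) ^ 2 / e) / q / (32 * q * 8 ^ k * (e : ℝ) ^ 2)
      = (X : ℝ) / (4 * 8 ^ k * (e : ℝ) ^ 2) * ((X : ℝ) ^ 2 / e) / ((q : ℝ) ^ 2 * (4 * X)) := by
        field_simp
        norm_num
    _ ≤ (X : ℝ) / (4 * 8 ^ k * (e : ℝ) ^ 2) * ((X : ℝ) ^ 2 / e) / ((q : ℝ) ^ 2 * wu) := by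
        gcongr

private theorem rc_ratio {X e wl wu : ℝ} (he : 10 ≤ e) (h1 : 0 < wl) (h2 : wl ≤ wu)
    (h4 : X ^ 2 ≤ 2 * wl ^ 2) (h5 : wu ^ 2 - wl ^ 2 ≤ 4 * (X ^ 2 / e) * (1 + 3 / e)) :
    wu - wl ≤ 2 * (X ^ 2 / e) * (1 + 3 / e) / wl ∧ wu ≤ (1 + 10 / e) * wl := by
  have he0 : 0 < e := by linarith
  have hA : wu - wl ≤ 2 * (X ^ 2 / e) * (1 + 3 / e) / wl := by
    rw [le_div_iff₀ h1]
    nlinarith
  refine ⟨hA, ?_⟩
  have h6 : 2 * (X ^ 2 / e) * (1 + 3 / e) / wl ≤ 2 * (2 * wl ^ 2 / e) * (1 + 3 / e) / wl := by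
    gcongr
  have h7 : 2 * (2 * wl ^ 2 / e) * (1 + 3 / e) / wl = (4 * (1 + 3 / e)) * (wl / e) := by
    field_simp
    ring
  have h8 : 3 / e ≤ 3 / 10 := by
    gcongr
  have h9 : (4 * (1 + 3 / e)) * (wl / e) ≤ 10 * (wl / e) := by
    gcongr
    linarith
  have h10 : (1 + 10 / e) * wl = wl + 10 * (wl / e) := by ring
  rw [h10]
  linarith

theorem real_compare {q r0 k k' e X : ℕ} {x x' : ℕ × ℕ} (hq : 0 < q) (hx : x ∈ Blk q r0 k)
    (hx' : x' ∈ Blk q r0 k') (he : 10 ≤ e) (hX0 : 0 < X) (hK : 4 * 8 ^ k * e ^ 2 ∣ X)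
    (hK' : 4 * 8 ^ k' * e ^ 2 ∣ X) :
    ∃ M₁ M₂ : ℝ, GeoP (disc x.1 x.2) (disc x'.1 x'.2) (X ^ 2) (X ^ 2 / e) (aX X k) (hX X k e)
        (aX X k') (hX X k' e) X M₁ M₂ ∧
      (hX X k e : ℝ) * (hX X k' e : ℝ) / (4 * (q : ℝ) ^ 2) * (Real.log (M₂ / M₁) / q) ≤
        (1 + 200 / (e : ℝ)) *
          (X1 q (disc x.1 x.2) (X ^ 2) (X ^ 2 / e) (aX X k) (hX X k e) *
            X1 q (disc x'.1 x'.2) (X ^ 2) (X ^ 2 / e) (aX X k') (hX X k' e) /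
              (2 * ((X ^ 2 / e : ℕ) : ℝ) / q)) := by
  obtain ⟨l, u, h1, h2, h3, h4, h5, h6, h7⟩ := rc_block hq hx he hX0 hK
  obtain ⟨l', u', h1', h2', h3', h4', h5', h6', h7'⟩ := rc_block hq hx' he hX0 hK'
  have he0 : (0 : ℝ) < e := by
    have : 0 < e := by omega
    exact_mod_cast this
  have he10 : (10 : ℝ) ≤ e := by exact_mod_cast he
  have hXr : (0 : ℝ) < X := by exact_mod_cast hX0
  have hqr : (0 : ℝ) < q := by exact_mod_cast hq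
  obtain ⟨r1, r2⟩ := rc_ratio he10 h1 h2 h4 h5
  obtain ⟨r1', r2'⟩ := rc_ratio he10 h1' h2' h4' h5'
  have hXl : (X : ℝ) ≤ 2 * l := by nlinarith
  have hXl' : (X : ℝ) ≤ 2 * l' := by nlinarith
  have h10e : 10 / (e : ℝ) ≤ 1 := by
    rw [div_le_one he0]
    exact he10
  have hu2 : u ≤ 2 * l := by nlinarith
  have hu2' : u' ≤ 2 * l' := by nlinarith
  refine ⟨(l + l') / 2, (u + u') / 2, ?_, ?_⟩
  · refine ⟨hX0, by linarith, by linarith, by linarith, by linarith, (block_h he hX0).2,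
      (block_h he hX0).2, ?_⟩
    intro n hn v hv v' hv'
    obtain ⟨a1, a2⟩ := h6 n hn v hv
    obtain ⟨a3, a4⟩ := h6' n hn v' hv'
    constructor <;> linarith
  · rw [rc_H he hK]
    set h := (hX X k e : ℝ) with hh
    set h' := (hX X k' e : ℝ) with hh'
    set H := (X : ℝ) ^ 2 / e with hH
    have hh0 : 0 ≤ h := by positivity
    have hh0' : 0 ≤ h' := by positivity
    have hH0 : 0 < H := by positivity
    have hu0 : 0 < u := h1.trans_le h2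
    have hu0' : 0 < u' := h1'.trans_le h2'
    -- the logarithm
    have g1 : Real.log ((u + u') / 2 / ((l + l') / 2)) ≤ 2 * H * (1 + 3 / e) / (l * l') := by
      have g2 : (0 : ℝ) < (u + u') / 2 / ((l + l') / 2) := by positivity
      have g3 := Real.log_le_sub_one_of_pos g2
      refine g3.trans ?_
      have g4 : (u + u') / 2 / ((l + l') / 2) - 1 = ((u - l) + (u' - l')) / (l + l') := by
        field_simp
        ring
      rw [g4]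
      have g5 : (u - l) + (u' - l') ≤ 2 * H * (1 + 3 / e) / l + 2 * H * (1 + 3 / e) / l' :=
        add_le_add r1 r1'
      calc ((u - l) + (u' - l')) / (l + l')
          ≤ (2 * H * (1 + 3 / e) / l + 2 * H * (1 + 3 / e) / l') / (l + l') := by gcongr
        _ = 2 * H * (1 + 3 / e) / (l * l') := by
            field_simp
            ring
    -- comparison
    have g6 : (1 + 3 / (e : ℝ)) * (u * u') ≤ (1 + 200 / e) * (l * l') := by
      have k1 : u * u' ≤ ((1 + 10 / e) * l) * ((1 + 10 / e) * l') := by gcongr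
      have k2 : (1 + 3 / (e : ℝ)) * ((1 + 10 / e) * (1 + 10 / e)) ≤ 1 + 200 / e := by
        set w := 1 / (e : ℝ) with hw
        have w0 : 0 ≤ w := by positivity
        have w1 : w ≤ 1 / 10 := by
          rw [hw]
          gcongr
        have e1 : 3 / (e : ℝ) = 3 * w := by rw [hw]; ring
        have e2 : 10 / (e : ℝ) = 10 * w := by rw [hw]; ring
        have e3 : 200 / (e : ℝ) = 200 * w := by rw [hw]; ring
        rw [e1, e2, e3]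
        nlinarith [mul_nonneg w0 w0, mul_nonneg w0 (sub_nonneg.2 w1),
          mul_nonneg (mul_nonneg w0 w0) (sub_nonneg.2 w1)]
      calc (1 + 3 / (e : ℝ)) * (u * u')
          ≤ (1 + 3 / (e : ℝ)) * (((1 + 10 / e) * l) * ((1 + 10 / e) * l')) := by gcongr
        _ = ((1 + 3 / (e : ℝ)) * ((1 + 10 / e) * (1 + 10 / e))) * (l * l') := by ring
        _ ≤ (1 + 200 / e) * (l * l') := by gcongr
    calc h * h' / (4 * (q : ℝ) ^ 2) * (Real.log ((u + u') / 2 / ((l + l') / 2)) / q)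
        ≤ h * h' / (4 * (q : ℝ) ^ 2) * ((2 * H * (1 + 3 / e) / (l * l')) / q) := by gcongr
      _ = (h * h' * H / (2 * (q : ℝ) ^ 3)) * ((1 + 3 / e) / (l * l')) := by
          field_simp
          ring
      _ ≤ (h * h' * H / (2 * (q : ℝ) ^ 3)) * ((1 + 200 / e) / (u * u')) := by
          refine mul_le_mul_of_nonneg_left ?_ (by positivity)
          rw [div_le_div_iff₀ (by positivity) (by positivity)]
          exact g6
      _ = (1 + 200 / (e : ℝ)) * ((h * H / ((q : ℝ) ^ 2 * u)) * (h' * H / ((q : ℝ) ^ 2 * u')) /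
            (2 * H / q)) := by
          field_simp
      _ ≤ (1 + 200 / (e : ℝ)) *
          (X1 q (disc x.1 x.2) (X ^ 2) (X ^ 2 / e) (aX X k) (hX X k e) *
            X1 q (disc x'.1 x'.2) (X ^ 2) (X ^ 2 / e) (aX X k') (hX X k' e) /
              (2 * H / q)) := by
          have z1 : 0 ≤ h * H / ((q : ℝ) ^ 2 * u) := by positivity
          have z2 : 0 ≤ h' * H / ((q : ℝ) ^ 2 * u') := by positivity
          have z3 := mul_le_mul h7 h7' z2 (z1.trans h7)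
          gcongr

end Pool.Agent.Work.MP_43ce8a_nt.D
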