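import Mathlib

set_option autoImplicit false

/-!
Module Second (size S-M, Mathlib only). The second moment inequality.

PROOF. E = ∑ al > 0, f n = ∑_i (al_i/c_i) r_i n. ∑_n f ≥ ∑_i (al_i/c_i)(1 - s) c_i U = (1 - s) E U. ∑_n f² =
∑_{i ≠ j} (al_i al_j/(c_i c_j)) ∑_n r_i r_j + ∑_i (al_i/c_i)² ∑_n r_i². The first is ≤
(1 + t) U ∑_{i≠j} al al kap ≤ (1 + t) U (1 + δ) E². For the second r_i² ≤ K r_i, ∑_n r_i ≤ (1 + s) c_i U
≤ 2 c_i U, so it is ≤ ∑_i (al_i²/c_i²) 2 K c_i U ≤ 2 K C U ∑ al_i. Hence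
∑_n (f n - E)² = ∑ f² - 2 E ∑ f + E² card S ≤ E² U ((1 + t)(1 + δ) + 2 K C/E - 2 (1 - s) + 1 + s), and each
n with all r_i n = 0 contributes E² on the left.
-/

namespace Pool.Agent.Work.MP_43ce8a_nt.D

open Finset

open Classical in
theorem second_moment {ι ν : Type} (F : Finset ι) (S : Finset ν) (r : ι → ν → ℝ) (al c : ι → ℝ)
    (kap : ι → ι → ℝ) (U s t δ K C : ℝ)
    (hr : ∀ i ∈ F, ∀ n ∈ S, 0 ≤ r i n ∧ r i n ≤ K) (hal : ∀ i ∈ F, 0 < al i)
    (hc : ∀ i ∈ F, 0 < c i) (hac : ∀ i ∈ F, al i ≤ C * c i) (hU : 0 < U)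
    (hs : 0 ≤ s) (hs1 : s ≤ 1) (ht : 0 ≤ t) (hK : 0 ≤ K)
    (hS : (S.card : ℝ) ≤ (1 + s) * U)
    (h1 : ∀ i ∈ F, |∑ n ∈ S, r i n - c i * U| ≤ s * (c i * U))
    (h2 : ∀ i ∈ F, ∀ j ∈ F, i ≠ j →
      ∑ n ∈ S, r i n * r j n ≤ (1 + t) * kap i j * (c i * c j * U))
    (hk : ∑ i ∈ F, ∑ j ∈ F.erase i, al i * al j * (kap i j - 1) ≤ δ * (∑ i ∈ F, al i) ^ 2)
    (hF : 0 < ∑ i ∈ F, al i) :
    ((S.filter fun n => ∀ i ∈ F, r i n = 0).card : ℝ) ≤
      U * (3 * s + ((1 + t) * (1 + δ) - 1) + 2 * K * C / ∑ i ∈ F, al i) := by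
  set E := ∑ i ∈ F, al i with hE
  set f : ν → ℝ := fun n => ∑ i ∈ F, (al i / c i) * r i n with hf
  -- first moment
  have m1 : (1 - s) * E * U ≤ ∑ n ∈ S, f n := by
    have e1 : ∑ n ∈ S, f n = ∑ i ∈ F, (al i / c i) * ∑ n ∈ S, r i n := by
      simp only [hf]
      rw [Finset.sum_comm]
      refine Finset.sum_congr rfl fun i _ => ?_
      rw [Finset.mul_sum]
    rw [e1, hE, Finset.mul_sum, Finset.sum_mul]
    refine Finset.sum_le_sum fun i hi => ?_
    have hci := hc i hi
    have hali := hal i hi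
    have h3 := (abs_le.1 (h1 i hi)).1
    have h4 : (1 - s) * (c i * U) ≤ ∑ n ∈ S, r i n := by linarith
    calc (1 - s) * al i * U = (al i / c i) * ((1 - s) * (c i * U)) := by
          field_simp
      _ ≤ (al i / c i) * ∑ n ∈ S, r i n :=
          mul_le_mul_of_nonneg_left h4 (by positivity)
  -- second moment
  have m2 : ∑ n ∈ S, f n ^ 2 ≤ (1 + t) * (1 + δ) * E ^ 2 * U + 2 * K * C * U * E := by
    have e1 : ∑ n ∈ S, f n ^ 2 =
        ∑ i ∈ F, ∑ j ∈ F, (al i / c i) * (al j / c j) * ∑ n ∈ S, r i n * r j n := by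
      have e2 : ∀ n ∈ S, f n ^ 2 =
          ∑ i ∈ F, ∑ j ∈ F, (al i / c i) * (al j / c j) * (r i n * r j n) := by
        intro n _
        simp only [hf]
        rw [sq, Finset.sum_mul_sum]
        refine Finset.sum_congr rfl fun i _ => Finset.sum_congr rfl fun j _ => ?_
        ring
      rw [Finset.sum_congr rfl e2, Finset.sum_comm]
      refine Finset.sum_congr rfl fun i _ => ?_
      rw [Finset.sum_comm]
      refine Finset.sum_congr rfl fun j _ => ?_
      rw [Finset.mul_sum]
    have e3 : ∀ i ∈ F, ∑ j ∈ F, (al i / c i) * (al j / c j) * ∑ n ∈ S, r i n * r j n ≤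
        2 * K * C * U * al i + ∑ j ∈ F.erase i, (1 + t) * U * (al i * al j * kap i j) := by
      intro i hi
      rw [← Finset.add_sum_erase F _ hi]
      have hci := hc i hi
      have hali := hal i hi
      refine add_le_add ?_ (Finset.sum_le_sum fun j hj => ?_)
      · have h3 := (abs_le.1 (h1 i hi)).2
        have h4 : ∑ n ∈ S, r i n * r i n ≤ K * (2 * (c i * U)) := by
          calc ∑ n ∈ S, r i n * r i n ≤ ∑ n ∈ S, K * r i n :=
                Finset.sum_le_sum fun n hn =>
                  mul_le_mul_of_nonneg_right (hr i hi n hn).2 (hr i hi n hn).1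
            _ = K * ∑ n ∈ S, r i n := by rw [Finset.mul_sum]
            _ ≤ K * (2 * (c i * U)) := by
                refine mul_le_mul_of_nonneg_left ?_ hK
                have : s * (c i * U) ≤ 1 * (c i * U) :=
                  mul_le_mul_of_nonneg_right hs1 (by positivity)
                linarith
        calc (al i / c i) * (al i / c i) * ∑ n ∈ S, r i n * r i n
            ≤ (al i / c i) * (al i / c i) * (K * (2 * (c i * U))) :=
              mul_le_mul_of_nonneg_left h4 (by positivity)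
          _ = (2 * K * U * al i) * (al i / c i) := by
              field_simp
          _ ≤ (2 * K * U * al i) * C := by
              refine mul_le_mul_of_nonneg_left ?_ (by positivity)
              rw [div_le_iff₀ hci]
              exact hac i hi
          _ = 2 * K * C * U * al i := by ring
      · have hj1 := Finset.ne_of_mem_erase hj
        have hj2 := Finset.mem_of_mem_erase hj
        have hcj := hc j hj2
        have halj := hal j hj2
        calc (al i / c i) * (al j / c j) * ∑ n ∈ S, r i n * r j n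
            ≤ (al i / c i) * (al j / c j) * ((1 + t) * kap i j * (c i * c j * U)) :=
              mul_le_mul_of_nonneg_left (h2 i hi j hj2 (Ne.symm hj1)) (by positivity)
          _ = (1 + t) * U * (al i * al j * kap i j) := by
              field_simp
    have e4 : ∑ i ∈ F, ∑ j ∈ F.erase i, al i * al j ≤ E ^ 2 := by
      rw [hE, sq, Finset.sum_mul_sum]
      refine Finset.sum_le_sum fun i hi => ?_
      refine Finset.sum_le_sum_of_subset_of_nonneg (Finset.erase_subset i F) fun j hj _ => ?_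
      exact mul_nonneg (hal i hi).le (hal j hj).le
    have e5 : ∑ i ∈ F, ∑ j ∈ F.erase i, al i * al j * kap i j ≤ (1 + δ) * E ^ 2 := by
      have : ∑ i ∈ F, ∑ j ∈ F.erase i, al i * al j * kap i j =
          ∑ i ∈ F, ∑ j ∈ F.erase i, al i * al j * (kap i j - 1) +
            ∑ i ∈ F, ∑ j ∈ F.erase i, al i * al j := by
        rw [← Finset.sum_add_distrib]
        refine Finset.sum_congr rfl fun i _ => ?_
        rw [← Finset.sum_add_distrib]
        refine Finset.sum_congr rfl fun j _ => ?_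
        ring
      rw [this]
      linarith
    calc ∑ n ∈ S, f n ^ 2
        ≤ ∑ i ∈ F, (2 * K * C * U * al i +
            ∑ j ∈ F.erase i, (1 + t) * U * (al i * al j * kap i j)) := by
          rw [e1]
          exact Finset.sum_le_sum e3
      _ = 2 * K * C * U * E +
            (1 + t) * U * ∑ i ∈ F, ∑ j ∈ F.erase i, al i * al j * kap i j := by
          rw [Finset.sum_add_distrib, ← Finset.mul_sum, Finset.mul_sum F _ ((1 + t) * U)]
          congr 1
          refine Finset.sum_congr rfl fun i _ => ?_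
          rw [Finset.mul_sum]
      _ ≤ 2 * K * C * U * E + (1 + t) * U * ((1 + δ) * E ^ 2) := by
          have : (0 : ℝ) ≤ (1 + t) * U := by positivity
          have := mul_le_mul_of_nonneg_left e5 this
          linarith
      _ = (1 + t) * (1 + δ) * E ^ 2 * U + 2 * K * C * U * E := by ring
  -- the exceptional set
  have m3 : ((S.filter fun n => ∀ i ∈ F, r i n = 0).card : ℝ) * E ^ 2 ≤
      ∑ n ∈ S, (f n - E) ^ 2 := by
    calc ((S.filter fun n => ∀ i ∈ F, r i n = 0).card : ℝ) * E ^ 2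
        = ∑ n ∈ S.filter fun n => ∀ i ∈ F, r i n = 0, (f n - E) ^ 2 := by
          rw [← nsmul_eq_mul, ← Finset.sum_const]
          refine Finset.sum_congr rfl fun n hn => ?_
          have h0 : f n = 0 := by
            simp only [hf]
            refine Finset.sum_eq_zero fun i hi => ?_
            rw [(Finset.mem_filter.1 hn).2 i hi, mul_zero]
          rw [h0]
          ring
      _ ≤ ∑ n ∈ S, (f n - E) ^ 2 :=
          Finset.sum_le_sum_of_subset_of_nonneg (Finset.filter_subset _ _)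
            fun n _ _ => sq_nonneg _
  have m4 : ∑ n ∈ S, (f n - E) ^ 2 = ∑ n ∈ S, f n ^ 2 - 2 * E * ∑ n ∈ S, f n + E ^ 2 * S.card := by
    have : ∀ n ∈ S, (f n - E) ^ 2 = f n ^ 2 - 2 * E * f n + E ^ 2 := fun n _ => by ring
    rw [Finset.sum_congr rfl this, Finset.sum_add_distrib, Finset.sum_sub_distrib,
      ← Finset.mul_sum, Finset.sum_const, nsmul_eq_mul, mul_comm (E ^ 2)]
  have m5 : 2 * E * ((1 - s) * E * U) ≤ 2 * E * ∑ n ∈ S, f n :=
    mul_le_mul_of_nonneg_left m1 (by positivity)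
  have m6 : E ^ 2 * (S.card : ℝ) ≤ E ^ 2 * ((1 + s) * U) :=
    mul_le_mul_of_nonneg_left hS (by positivity)
  have hE2 : 0 < E ^ 2 := by positivity
  refine le_of_mul_le_mul_right ?_ hE2
  calc ((S.filter fun n => ∀ i ∈ F, r i n = 0).card : ℝ) * E ^ 2
      ≤ (1 + t) * (1 + δ) * E ^ 2 * U + 2 * K * C * U * E - 2 * E * ((1 - s) * E * U) +
          E ^ 2 * ((1 + s) * U) := by
        linarith
    _ = U * (3 * s + ((1 + t) * (1 + δ) - 1) + 2 * K * C / E) * E ^ 2 := by
        field_simp
        ring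

end Pool.Agent.Work.MP_43ce8a_nt.D
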