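import Pool.Agent.Work.MP_43ce8a_nt.D.T0
import Pool.Agent.Work.MP_43ce8a_nt.D.Fm
import Pool.Agent.Work.MP_43ce8a_nt.D.Pm
import Pool.Agent.Work.MP_43ce8a_nt.D.Ec
import Pool.Agent.Work.MP_43ce8a_nt.D.Rc
import Pool.Agent.Work.MP_43ce8a_nt.D.Diag
import Pool.Agent.Work.MP_43ce8a_nt.D.LocData
import Pool.Agent.Work.MP_43ce8a_nt.D.ExcRep
import Pool.Agent.Work.MP_43ce8a_nt.D.Fam
import Pool.Agent.Work.MP_43ce8a_nt.D.Second
import Pool.Agent.Work.MP_43ce8a_nt.D.Zf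

set_option autoImplicit false

/-!
Module ClassB (assembly; done by helper34). The bound for one residue class.
-/

namespace Pool.Agent.Work.MP_43ce8a_nt.D

open Finset Filter

/-- error terms are small -/
theorem err_small (b : ℕ) (A B : ℝ) (hA : 0 ≤ A) (hB : 0 < B) : ∀ᶠ X : ℕ in atTop,
    A * ((1 + (zf b X : ℝ)) * (zf b X : ℝ) ^ (3 * (4 * b + 10)) * (X : ℝ) ^ (7 / 4 : ℝ)) ≤
      B * ((X : ℝ) ^ 2 * (1 / (zf b X : ℝ))) := by
  obtain ⟨X₀, hX₀⟩ := zf_pow b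
  have h1 : Tendsto (fun X : ℕ => (X : ℝ) ^ (3 / 20 : ℝ)) atTop atTop :=
    (tendsto_rpow_atTop (by norm_num)).comp tendsto_natCast_atTop_atTop
  filter_upwards [eventually_ge_atTop X₀, eventually_ge_atTop 1, h1.eventually_ge_atTop (2 * A / B),
    (zf_tendsto b).eventually_ge_atTop 1] with X hX1 hX2 hX3 hX4
  have hz : (0 : ℝ) < zf b X := by exact_mod_cast hX4
  have hXp : (0 : ℝ) < X := by exact_mod_cast hX2
  have h2 := hX₀ X hX1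
  rw [mul_one_div, mul_div_assoc', le_div_iff₀ hz]
  have h3 : (X : ℝ) ^ (1 / 10 : ℝ) * (X : ℝ) ^ (7 / 4 : ℝ) * (X : ℝ) ^ (3 / 20 : ℝ) = (X : ℝ) ^ 2 := by
    rw [← Real.rpow_add hXp, ← Real.rpow_add hXp, ← Real.rpow_natCast]
    norm_num
  have h5 : 0 < (X : ℝ) ^ (7 / 4 : ℝ) := by positivity
  have h6 : 0 < (X : ℝ) ^ (1 / 10 : ℝ) := by positivity
  rw [div_le_iff₀ hB] at hX3
  calc A * ((1 + (zf b X : ℝ)) * (zf b X : ℝ) ^ (3 * (4 * b + 10)) * (X : ℝ) ^ (7 / 4 : ℝ)) * zf b X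
      = A * ((1 + (zf b X : ℝ)) * (zf b X : ℝ) ^ (3 * (4 * b + 10)) * (zf b X : ℝ)) *
          (X : ℝ) ^ (7 / 4 : ℝ) := by ring
    _ ≤ A * (2 * (X : ℝ) ^ (1 / 10 : ℝ)) * (X : ℝ) ^ (7 / 4 : ℝ) := by gcongr
    _ = (2 * A) * ((X : ℝ) ^ (1 / 10 : ℝ) * (X : ℝ) ^ (7 / 4 : ℝ)) := by ring
    _ ≤ ((X : ℝ) ^ (3 / 20 : ℝ) * B) * ((X : ℝ) ^ (1 / 10 : ℝ) * (X : ℝ) ^ (7 / 4 : ℝ)) := by gcongr
    _ = B * ((X : ℝ) ^ (1 / 10 : ℝ) * (X : ℝ) ^ (7 / 4 : ℝ) * (X : ℝ) ^ (3 / 20 : ℝ)) := by ring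
    _ = B * (X : ℝ) ^ 2 := by rw [h3]

/-- lower bound for the first moment coefficients -/
noncomputable def lowc (c : ℝ) (q e : ℕ) (x : ℕ × ℕ × ℕ) : ℝ :=
  1 / (32 * q * 8 ^ x.1 * (e : ℝ) ^ 2) * (c / (1 + Real.log (disc x.2.1 x.2.2).natAbs))

theorem lowc_pos {c : ℝ} {q e : ℕ} (hc : 0 < c) (hq : 0 < q) (he : 0 < e) (x : ℕ × ℕ × ℕ) :
    0 < lowc c q e x := by
  unfold lowc
  have h1 : 0 ≤ Real.log (disc x.2.1 x.2.2).natAbs := Real.log_natCast_nonneg _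
  have hq' : (0 : ℝ) < q := by exact_mod_cast hq
  have he' : (0 : ℝ) < e := by exact_mod_cast he
  positivity

theorem al_le {c : ℝ} {q e r0 : ℕ} (hc : 0 < c) (hq : 0 < q) (he : 0 < e) {x : ℕ × ℕ × ℕ}
    (hk : 1 ≤ x.1) (hx : x.2 ∈ Blk q r0 x.1) (hD : disc x.2.1 x.2.2 ≠ 0) :
    al x ≤ 320 * q * (e : ℝ) ^ 2 / c * lowc c q e x := by
  unfold al lowc
  have hq' : (0 : ℝ) < q := by exact_mod_cast hq
  have he' : (0 : ℝ) < e := by exact_mod_cast he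
  have hk' : (1 : ℝ) ≤ x.1 := by exact_mod_cast hk
  have h0 : 0 < (disc x.2.1 x.2.2).natAbs := Int.natAbs_pos.2 hD
  have h1 : Real.log (disc x.2.1 x.2.2).natAbs ≤ (x.1 + 1) * (6 * Real.log 2) := by
    have h2 : ((disc x.2.1 x.2.2).natAbs : ℝ) ≤ (64 : ℝ) ^ (x.1 + 1) := by
      exact_mod_cast disc_abs hx
    calc Real.log (disc x.2.1 x.2.2).natAbs ≤ Real.log ((64 : ℝ) ^ (x.1 + 1)) :=
          Real.log_le_log (by exact_mod_cast h0) h2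
      _ = (x.1 + 1) * (6 * Real.log 2) := by
          rw [Real.log_pow, show (64 : ℝ) = 2 ^ 6 by norm_num, Real.log_pow]
          push_cast
          ring
  have h3 : 1 + Real.log (disc x.2.1 x.2.2).natAbs ≤ 10 * x.1 := by
    have := Real.log_two_lt_d9
    nlinarith
  have h4 : 0 ≤ Real.log (disc x.2.1 x.2.2).natAbs := Real.log_natCast_nonneg _
  have h5 : c / (10 * x.1) ≤ c / (1 + Real.log (disc x.2.1 x.2.2).natAbs) := by
    gcongr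
  calc 1 / ((x.1 : ℝ) * 8 ^ x.1) = 320 * q * (e : ℝ) ^ 2 / c *
        (1 / (32 * q * 8 ^ x.1 * (e : ℝ) ^ 2) * (c / (10 * x.1))) := by
        field_simp
        norm_num
    _ ≤ _ := by gcongr


/-- coefficient of the first moment -/
noncomputable def ci (y b e X : ℕ) (x : ℕ × ℕ × ℕ) : ℝ :=
  X1 (qq y) (disc x.2.1 x.2.2) (X ^ 2) (X ^ 2 / e) (aX X x.1) (hX X x.1 e) /
    (2 * ((X ^ 2 / e : ℕ) : ℝ) / qq y) * Pz (disc x.2.1 x.2.2) y (zf b X)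

/-- expected number of rough integers -/
noncomputable def UU (y b e X : ℕ) : ℝ := 2 * ((X ^ 2 / e : ℕ) : ℝ) / qq y * Wz y (zf b X)

theorem H_eq {e X : ℕ} (he : 0 < e) (h : e ∣ X) : ((X ^ 2 / e : ℕ) : ℝ) = (X : ℝ) ^ 2 / e := by
  have h1 : e ∣ X ^ 2 := h.trans (Dvd.intro_left (X ^ 1) (by ring))
  rw [Nat.cast_div h1 (by exact_mod_cast he.ne')]
  push_cast
  ring

theorem UU_ge {y b e X : ℕ} (hy : 2 ≤ y) (he : 0 < e) (h : e ∣ X) (hz : y < zf b X) :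
    2 / (e * qq y) * ((X : ℝ) ^ 2 * (1 / (zf b X : ℝ))) ≤ UU y b e X := by
  unfold UU
  rw [H_eq he h]
  have h1 := Wz_ge hy hz
  have hq : (0 : ℝ) < qq y := by exact_mod_cast qq_pos y
  have he' : (0 : ℝ) < e := by exact_mod_cast he
  calc 2 / (e * qq y) * ((X : ℝ) ^ 2 * (1 / (zf b X : ℝ))) =
        2 * ((X : ℝ) ^ 2 / e) / qq y * (1 / (zf b X : ℝ)) := by field_simp
    _ ≤ _ := by gcongr

theorem UU_pos {y b e X : ℕ} (hy : 2 ≤ y) (he : 0 < e) (hX0 : 0 < X) (h : e ∣ X) :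
    0 < UU y b e X := by
  unfold UU
  rw [H_eq he h]
  have h1 := Wz_pos (z := zf b X) hy
  have hq : (0 : ℝ) < qq y := by exact_mod_cast qq_pos y
  have he' : (0 : ℝ) < e := by exact_mod_cast he
  have hX' : (0 : ℝ) < X := by exact_mod_cast hX0
  positivity

theorem ci_ge {y b e X r0 : ℕ} {c : ℝ} (he : 10 ≤ e) (hX0 : 0 < X) {x : ℕ × ℕ × ℕ}
    (hx : x.2 ∈ Blk (qq y) r0 x.1) (hK : 4 * 8 ^ x.1 * e ^ 2 ∣ X) (hc : 0 < c)
    (hP : c / (1 + Real.log (disc x.2.1 x.2.2).natAbs) ≤ Pz (disc x.2.1 x.2.2) y (zf b X)) :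
    lowc c (qq y) e x ≤ ci y b e X x := by
  unfold lowc ci
  have hq := qq_pos y
  have h1 := X1_low hq hx he hX0 hK
  have hq' : (0 : ℝ) < qq y := by exact_mod_cast hq
  have he0 : 0 < e := by omega
  have he' : (0 : ℝ) < e := by exact_mod_cast he0
  have hX' : (0 : ℝ) < X := by exact_mod_cast hX0
  have hed : e ∣ X := (Dvd.intro_left (4 * 8 ^ x.1 * e) (by ring)).trans hK
  have hH : (0 : ℝ) < 2 * ((X ^ 2 / e : ℕ) : ℝ) / qq y := by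
    rw [H_eq he0 hed]
    positivity
  have h2 : 1 / (32 * (qq y : ℝ) * 8 ^ x.1 * (e : ℝ) ^ 2) ≤
      X1 (qq y) (disc x.2.1 x.2.2) (X ^ 2) (X ^ 2 / e) (aX X x.1) (hX X x.1 e) /
        (2 * ((X ^ 2 / e : ℕ) : ℝ) / qq y) := by
    rw [le_div_iff₀ hH]
    calc 1 / (32 * (qq y : ℝ) * 8 ^ x.1 * (e : ℝ) ^ 2) * (2 * ((X ^ 2 / e : ℕ) : ℝ) / qq y) =
        (2 * ((X ^ 2 / e : ℕ) : ℝ) / qq y) / (32 * (qq y : ℝ) * 8 ^ x.1 * (e : ℝ) ^ 2) := by ring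
      _ ≤ _ := h1
  have h3 : 0 ≤ Real.log (disc x.2.1 x.2.2).natAbs := Real.log_natCast_nonneg _
  have h4 : (0 : ℝ) ≤ c / (1 + Real.log (disc x.2.1 x.2.2).natAbs) := by positivity
  exact mul_le_mul h2 hP h4 (le_trans (by positivity) h2)

/-- step 0 -/
theorem step0 (b y e : ℕ) (hb : ∀ b1 z N H : ℕ, y < z → b1.Coprime (qq y) →
      ((Nset (qq y) b1 z N H).card : ℝ) ≤
      (1 + Real.exp (-b)) * (2 * (H : ℝ) / qq y * Wz y z) + (1 + z) * (z : ℝ) ^ (4 * b + 10))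
    (hy : 2 ≤ y) (he : 0 < e) : ∀ᶠ X : ℕ in atTop, e ∣ X → ∀ b1 : ℕ, b1.Coprime (qq y) →
      ((Nset (qq y) b1 (zf b X) (X ^ 2) (X ^ 2 / e)).card : ℝ) ≤
        (1 + 2 * Real.exp (-b)) * UU y b e X := by
  have hq : (0 : ℝ) < qq y := by exact_mod_cast qq_pos y
  have he' : (0 : ℝ) < e := by exact_mod_cast he
  filter_upwards [err_small b 1 (Real.exp (-b) * (2 / (e * qq y))) zero_le_one (by positivity),
    (zf_tendsto b).eventually_gt_atTop y, eventually_ge_atTop 1] with X h1 h2 h3 h4 b1 hb1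
  have h5 := hb b1 (zf b X) (X ^ 2) (X ^ 2 / e) h2 hb1
  have h6 := UU_ge hy he h4 h2
  have hz : (1 : ℝ) ≤ zf b X := by exact_mod_cast (by omega : 1 ≤ zf b X)
  have hX' : (1 : ℝ) ≤ X := by exact_mod_cast h3
  have h7 : (1 + (zf b X : ℝ)) * (zf b X : ℝ) ^ (4 * b + 10) ≤
      1 * ((1 + (zf b X : ℝ)) * (zf b X : ℝ) ^ (3 * (4 * b + 10)) * (X : ℝ) ^ (7 / 4 : ℝ)) := by
    have h8 : (1 : ℝ) ≤ (X : ℝ) ^ (7 / 4 : ℝ) := Real.one_le_rpow hX' (by norm_num)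
    have h9 : (zf b X : ℝ) ^ (4 * b + 10) ≤ (zf b X : ℝ) ^ (3 * (4 * b + 10)) :=
      pow_le_pow_right₀ hz (by omega)
    rw [one_mul]
    calc (1 + (zf b X : ℝ)) * (zf b X : ℝ) ^ (4 * b + 10) ≤
          (1 + (zf b X : ℝ)) * (zf b X : ℝ) ^ (3 * (4 * b + 10)) := by gcongr
      _ ≤ _ := le_mul_of_one_le_right (by positivity) h8
  have h10 : Real.exp (-b) * (2 / (e * qq y)) * ((X : ℝ) ^ 2 * (1 / (zf b X : ℝ))) ≤
      Real.exp (-b) * UU y b e X := by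
    rw [mul_assoc]
    gcongr
  have h11 : (1 + Real.exp (-b)) * (2 * ((X ^ 2 / e : ℕ) : ℝ) / qq y * Wz y (zf b X)) =
      (1 + Real.exp (-b)) * UU y b e X := rfl
  linarith

/-- step 1 -/
theorem step1 (b y e r0 : ℕ) (c : ℝ) (hb : ∀ (b1 w0 v0 z : ℕ) (D : ℤ) (N H a h : ℕ),
      y < z → b1.Coprime (qq y) → w0.Coprime (qq y) →
      ((2 * qq y : ℕ) : ℤ) ∣ (w0 : ℤ) ^ 2 - D * (v0 : ℤ) ^ 2 - 4 * b1 → Geo D N H a h →
      |((∑ n ∈ Nset (qq y) b1 z N H, rep (qq y) w0 v0 D a h n : ℕ) : ℝ) -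
        X1 (qq y) D N H a h * (Wz y z * Pz D y z)| ≤
        Real.exp (-b) * (X1 (qq y) D N H a h * (Wz y z * Pz D y z)) +
          20 * (1 + z) * (z : ℝ) ^ (3 * (4 * b + 10)) * Real.sqrt N)
    (hy : 2 ≤ y) (he : 10 ≤ e) (hc : 0 < c) {x : ℕ × ℕ × ℕ} (hx : x.2 ∈ Blk (qq y) r0 x.1)
    (hP : ∃ z₀ : ℕ, ∀ z : ℕ, z₀ ≤ z → c / (1 + Real.log (disc x.2.1 x.2.2).natAbs) ≤
      Pz (disc x.2.1 x.2.2) y z) :
    ∀ᶠ X : ℕ in atTop, 4 * 8 ^ x.1 * e ^ 2 ∣ X → lowc c (qq y) e x ≤ ci y b e X x ∧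
      ∀ b1 w0 v0 : ℕ, b1.Coprime (qq y) → w0.Coprime (qq y) →
      ((2 * qq y : ℕ) : ℤ) ∣ (w0 : ℤ) ^ 2 - disc x.2.1 x.2.2 * (v0 : ℤ) ^ 2 - 4 * b1 →
      |∑ n ∈ Nset (qq y) b1 (zf b X) (X ^ 2) (X ^ 2 / e),
        (rep (qq y) w0 v0 (disc x.2.1 x.2.2) (aX X x.1) (hX X x.1 e) n : ℝ) -
        ci y b e X x * UU y b e X| ≤ 2 * Real.exp (-b) * (ci y b e X x * UU y b e X) := by
  have hq : (0 : ℝ) < qq y := by exact_mod_cast qq_pos y
  have he0 : 0 < e := by omega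
  have he' : (0 : ℝ) < e := by exact_mod_cast he0
  obtain ⟨z₀, hz₀⟩ := hP
  have hl := lowc_pos hc (qq_pos y) he0 x
  filter_upwards [err_small b 20 (Real.exp (-b) * (lowc c (qq y) e x * (2 / (e * qq y))))
      (by norm_num) (by positivity),
    (zf_tendsto b).eventually_gt_atTop y, eventually_ge_atTop 1,
    (zf_tendsto b).eventually_ge_atTop z₀] with X h1 h2 h3 h4 hK
  have hlc := ci_ge he h3 hx hK hc (hz₀ _ h4)
  refine ⟨hlc, fun b1 w0 v0 hb1 hw0 hloc => ?_⟩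
  have hed : e ∣ X := (Dvd.intro_left (4 * 8 ^ x.1 * e) (by ring)).trans hK
  have h5 := hb b1 w0 v0 (zf b X) (disc x.2.1 x.2.2) (X ^ 2) (X ^ 2 / e) (aX X x.1) (hX X x.1 e)
    h2 hb1 hw0 hloc (geo_block hx he h3 hK)
  have h6 := UU_ge hy he0 hed h2
  have hX' : (1 : ℝ) ≤ X := by exact_mod_cast h3
  have hH : (0 : ℝ) < 2 * ((X ^ 2 / e : ℕ) : ℝ) / qq y := by
    rw [H_eq he0 hed]
    positivity
  have h7 : ci y b e X x * UU y b e X = X1 (qq y) (disc x.2.1 x.2.2) (X ^ 2) (X ^ 2 / e)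
      (aX X x.1) (hX X x.1 e) * (Wz y (zf b X) * Pz (disc x.2.1 x.2.2) y (zf b X)) := by
    unfold ci UU
    rw [div_mul_eq_mul_div, div_mul_eq_mul_div, div_eq_iff hH.ne']
    ring
  have hci0 : 0 ≤ ci y b e X x := hl.le.trans hlc
  have h8 : Real.sqrt ((X ^ 2 : ℕ) : ℝ) ≤ (X : ℝ) ^ (7 / 4 : ℝ) := by
    push_cast
    rw [Real.sqrt_sq (by positivity)]
    calc (X : ℝ) = (X : ℝ) ^ (1 : ℝ) := (Real.rpow_one _).symm
      _ ≤ _ := Real.rpow_le_rpow_of_exponent_le hX' (by norm_num)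
  have h9 : 20 * (1 + (zf b X : ℝ)) * (zf b X : ℝ) ^ (3 * (4 * b + 10)) *
      Real.sqrt ((X ^ 2 : ℕ) : ℝ) ≤
      20 * ((1 + (zf b X : ℝ)) * (zf b X : ℝ) ^ (3 * (4 * b + 10)) * (X : ℝ) ^ (7 / 4 : ℝ)) := by
    calc 20 * (1 + (zf b X : ℝ)) * (zf b X : ℝ) ^ (3 * (4 * b + 10)) *
          Real.sqrt ((X ^ 2 : ℕ) : ℝ) ≤ 20 * (1 + (zf b X : ℝ)) *
          (zf b X : ℝ) ^ (3 * (4 * b + 10)) * (X : ℝ) ^ (7 / 4 : ℝ) := by gcongr
      _ = _ := by ring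
  have h10 : Real.exp (-b) * (lowc c (qq y) e x * (2 / (e * qq y))) *
      ((X : ℝ) ^ 2 * (1 / (zf b X : ℝ))) ≤ Real.exp (-b) * (ci y b e X x * UU y b e X) := by
    calc Real.exp (-b) * (lowc c (qq y) e x * (2 / (e * qq y))) *
          ((X : ℝ) ^ 2 * (1 / (zf b X : ℝ))) = Real.exp (-b) * (lowc c (qq y) e x *
            (2 / (e * qq y) * ((X : ℝ) ^ 2 * (1 / (zf b X : ℝ))))) := by ring
      _ ≤ _ := by gcongr
  rw [← h7] at h5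
  push_cast at h5 ⊢
  have h11 := h9.trans (h1.trans h10)
  push_cast at h11
  linarith

/-- step 2 -/
theorem step2 (b y e r0 : ℕ) (c : ℝ) (hb : ∀ D D' : ℤ, GoodD (qq y) D → GoodD (qq y) D' →
    ((4 * qq y : ℕ) : ℤ) ∣ D - D' → D ≠ D' →
    ∃ C : ℝ, 0 ≤ C ∧ ∀ (b1 w0 v0 z N H a h a' h' X : ℕ) (M₁ M₂ : ℝ), y < z →
      b1.Coprime (qq y) → w0.Coprime (qq y) → GeoP D D' N H a h a' h' X M₁ M₂ →
      ((∑ n ∈ Nset (qq y) b1 z N H, rep (qq y) w0 v0 D a h n * rep (qq y) w0 v0 D' a' h' n : ℕ)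
        : ℝ) ≤
        (1 + Real.exp (-b)) * 2 ^ (Int.gcd D D').primeFactors.card *
          (XP (qq y) (D / Int.gcd D D') (D' / Int.gcd D D') h h' M₁ M₂ *
            ∏ p ∈ PP D D' y z, (1 - gp p)) +
        C * (1 + z) * (z : ℝ) ^ (3 * (4 * b + 10)) * (X : ℝ) ^ (7 / 4 : ℝ))
    (hβ1 : Real.exp (-b) ≤ 1 / 100) (hyβ : 30 / (y : ℝ) ≤ Real.exp (-b))
    (heβ : 200 / (e : ℝ) ≤ Real.exp (-b))
    (hy : 20 ≤ y) (he : 10 ≤ e) (hc : 0 < c) (hr : GoodR (qq y) r0)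
    {x x' : ℕ × ℕ × ℕ} (hx : x.2 ∈ Blk (qq y) r0 x.1)
    (hx' : x'.2 ∈ Blk (qq y) r0 x'.1) (hs : Squarefree (disc x.2.1 x.2.2))
    (hs' : Squarefree (disc x'.2.1 x'.2.2)) (hne : disc x.2.1 x.2.2 ≠ disc x'.2.1 x'.2.2)
    (hP : ∃ z₀ : ℕ, ∀ z : ℕ, z₀ ≤ z → c / (1 + Real.log (disc x.2.1 x.2.2).natAbs) ≤
      Pz (disc x.2.1 x.2.2) y z)
    (hP' : ∃ z₀ : ℕ, ∀ z : ℕ, z₀ ≤ z → c / (1 + Real.log (disc x'.2.1 x'.2.2).natAbs) ≤
      Pz (disc x'.2.1 x'.2.2) y z) :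
    ∀ᶠ X : ℕ in atTop, 4 * 8 ^ x.1 * e ^ 2 ∣ X → 4 * 8 ^ x'.1 * e ^ 2 ∣ X →
      ∀ b1 w0 v0 : ℕ, b1.Coprime (qq y) → w0.Coprime (qq y) →
      ∑ n ∈ Nset (qq y) b1 (zf b X) (X ^ 2) (X ^ 2 / e),
        (rep (qq y) w0 v0 (disc x.2.1 x.2.2) (aX X x.1) (hX X x.1 e) n : ℝ) *
        (rep (qq y) w0 v0 (disc x'.2.1 x'.2.2) (aX X x'.1) (hX X x'.1 e) n : ℝ) ≤
        (1 + 6 * Real.exp (-b)) * kap (disc x.2.1 x.2.2) (disc x'.2.1 x'.2.2) *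
          (ci y b e X x * ci y b e X x' * UU y b e X) := by
  have hq0 := qq_pos y
  have hq : (0 : ℝ) < qq y := by exact_mod_cast hq0
  have he0 : 0 < e := by omega
  have he' : (0 : ℝ) < e := by exact_mod_cast he0
  have hy' : (0 : ℝ) < y := by exact_mod_cast (by omega : 0 < y)
  obtain ⟨z₀, hz₀⟩ := hP
  obtain ⟨z₁, hz₁⟩ := hP'
  have hl := lowc_pos hc (qq_pos y) he0 x
  have hl' := lowc_pos hc (qq_pos y) he0 x'
  have hβ : 0 < Real.exp (-b : ℝ) := Real.exp_pos _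
  set β := Real.exp (-b : ℝ) with hβdef
  set D := disc x.2.1 x.2.2 with hD
  set D' := disc x'.2.1 x'.2.2 with hD'
  have hgD : GoodD (qq y) D := goodD_of hr hx hs
  have hgD' : GoodD (qq y) D' := goodD_of hr hx' hs'
  have hdd : ((4 * qq y : ℕ) : ℤ) ∣ D - D' := disc_sub hx hx'
  obtain ⟨C, hC0, hC⟩ := hb D D' hgD hgD' hdd hne
  obtain ⟨z₂, hz₂⟩ := euler_compare y hy D D' hgD hgD' hdd hne β hβ
  filter_upwards [err_small b C (β * (lowc c (qq y) e x * lowc c (qq y) e x' *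
      (2 / (e * qq y)))) hC0 (by positivity),
    (zf_tendsto b).eventually_gt_atTop y, eventually_ge_atTop 1,
    (zf_tendsto b).eventually_ge_atTop z₀, (zf_tendsto b).eventually_ge_atTop z₁,
    (zf_tendsto b).eventually_ge_atTop z₂] with X h1 h2 h3 h4 h4' h4'' hK hK' b1 w0 v0 hb1 hw0
  have hlc := ci_ge he h3 hx hK hc (hz₀ _ h4)
  have hlc' := ci_ge he h3 hx' hK' hc (hz₁ _ h4')
  have hed : e ∣ X := (Dvd.intro_left (4 * 8 ^ x.1 * e) (by ring)).trans hK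
  have h6 := UU_ge (by omega : 2 ≤ y) he0 hed h2
  have hX' : (1 : ℝ) ≤ X := by exact_mod_cast h3
  have hH : (0 : ℝ) < 2 * ((X ^ 2 / e : ℕ) : ℝ) / qq y := by
    rw [H_eq he0 hed]
    positivity
  obtain ⟨M₁, M₂, hG, hR⟩ := real_compare hq0 hx hx' he h3 hK hK'
  have h5 := hC b1 w0 v0 (zf b X) (X ^ 2) (X ^ 2 / e) (aX X x.1) (hX X x.1 e) (aX X x'.1)
    (hX X x'.1 e) X M₁ M₂ h2 hb1 hw0 hG
  have h7 := hz₂ _ h4''
  have hWP : 0 < Wz y (zf b X) := Wz_pos (by omega)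
  have hP1 : 0 < Pz D y (zf b X) := Pz_pos D (by omega)
  have hP2 : 0 < Pz D' y (zf b X) := Pz_pos D' (by omega)
  set H' := 2 * ((X ^ 2 / e : ℕ) : ℝ) / qq y with hH'
  set Y := X1 (qq y) D (X ^ 2) (X ^ 2 / e) (aX X x.1) (hX X x.1 e) *
            X1 (qq y) D' (X ^ 2) (X ^ 2 / e) (aX X x'.1) (hX X x'.1 e) / H' with hY
  set R := (hX X x.1 e : ℝ) * (hX X x'.1 e : ℝ) / (4 * (qq y : ℝ) ^ 2) *
    (Real.log (M₂ / M₁) / qq y) with hRdef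
  set G := Gc (D / Int.gcd D D') (D' / Int.gcd D D') (qq y) * ∏ p ∈ PP D D' y (zf b X), (1 - gp p)
    with hGdef
  set Q5 := ∏ p ∈ (D * D').natAbs.primeFactors, (1 + 5 / (p : ℝ)) with hQ5
  have hQ50 : 0 ≤ Q5 := Finset.prod_nonneg fun p _ => by positivity
  have hM1 : 0 < M₁ := lt_of_lt_of_le (by positivity) hG.lo
  have hR0 : 0 ≤ R := by
    rw [hRdef]
    have : 0 ≤ Real.log (M₂ / M₁) := Real.log_nonneg (by rw [le_div_iff₀ hM1, one_mul]; exact hG.le)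
    positivity
  have hXP : XP (qq y) (D / Int.gcd D D') (D' / Int.gcd D D') (hX X x.1 e) (hX X x'.1 e) M₁ M₂ *
      ∏ p ∈ PP D D' y (zf b X), (1 - gp p) = R * G := by
    rw [hRdef, hGdef, XP]
    ring
  have hcc : ci y b e X x * ci y b e X x' * UU y b e X =
      Y * (Wz y (zf b X) * Pz D y (zf b X) * Pz D' y (zf b X)) := by
    have hH0 := hH.ne'
    rw [hY]
    unfold ci UU
    rw [← hD, ← hD', ← hH']
    field_simp
  have hcc0 : 0 ≤ ci y b e X x * ci y b e X x' * UU y b e X := by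
    have := hl.le.trans hlc
    have := hl'.le.trans hlc'
    have := (UU_pos (b := b) (by omega : 2 ≤ y) he0 h3 hed).le
    positivity
  have hY0 : 0 ≤ Y := by
    have h8 : 0 < Wz y (zf b X) * Pz D y (zf b X) * Pz D' y (zf b X) := by positivity
    rw [hcc] at hcc0
    exact nonneg_of_mul_nonneg_left hcc0 h8
  set Z := Wz y (zf b X) * Pz D y (zf b X) * Pz D' y (zf b X) with hZ
  have hZ0 : 0 < Z := by positivity
  have hRG : R * G ≤ (1 + β) * (1 + β) * (1 + β) * Q5 * (Y * Z) := by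
    calc R * G ≤ R * ((1 + β) * (1 + 30 / (y : ℝ)) * Q5 * Z) := by gcongr
      _ ≤ ((1 + 200 / (e : ℝ)) * Y) * ((1 + β) * (1 + 30 / (y : ℝ)) * Q5 * Z) := by gcongr
      _ ≤ ((1 + β) * Y) * ((1 + β) * (1 + β) * Q5 * Z) := by gcongr
      _ = _ := by ring
  have hkap : kap D D' = 2 ^ (Int.gcd D D').primeFactors.card * Q5 := rfl
  have hkap1 := one_le_kap D D'
  have herr : C * (1 + (zf b X : ℝ)) * (zf b X : ℝ) ^ (3 * (4 * b + 10)) * (X : ℝ) ^ (7 / 4 : ℝ) ≤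
      β * (kap D D' * (ci y b e X x * ci y b e X x' * UU y b e X)) := by
    calc C * (1 + (zf b X : ℝ)) * (zf b X : ℝ) ^ (3 * (4 * b + 10)) * (X : ℝ) ^ (7 / 4 : ℝ) =
        C * ((1 + (zf b X : ℝ)) * (zf b X : ℝ) ^ (3 * (4 * b + 10)) * (X : ℝ) ^ (7 / 4 : ℝ)) := by
          ring
      _ ≤ _ := h1
      _ = β * (lowc c (qq y) e x * lowc c (qq y) e x' *
            (2 / (e * qq y) * ((X : ℝ) ^ 2 * (1 / (zf b X : ℝ))))) := by ring
      _ ≤ β * (ci y b e X x * ci y b e X x' * UU y b e X) := by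
          have := hl.le.trans hlc
          have := hl'.le.trans hlc'
          gcongr
      _ ≤ _ := by
          have := le_mul_of_one_le_left hcc0 hkap1
          gcongr
  rw [hXP] at h5
  have h10 : (1 + β) * 2 ^ (Int.gcd D D').primeFactors.card * (R * G) ≤
      (1 + β) ^ 4 * (kap D D' * (Y * Z)) := by
    calc (1 + β) * 2 ^ (Int.gcd D D').primeFactors.card * (R * G) ≤
        (1 + β) * 2 ^ (Int.gcd D D').primeFactors.card *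
          ((1 + β) * (1 + β) * (1 + β) * Q5 * (Y * Z)) := by gcongr
      _ = _ := by rw [hkap]; ring
  have h11 : (1 + β) ^ 4 + β ≤ 1 + 6 * β := by
    nlinarith [sq_nonneg β, mul_nonneg hβ.le hβ.le, mul_nonneg hβ.le (mul_nonneg hβ.le hβ.le),
      mul_nonneg (mul_nonneg hβ.le hβ.le) (mul_nonneg hβ.le hβ.le)]
  rw [← hcc] at h10
  push_cast at h5
  have hk0 : 0 ≤ kap D D' * (ci y b e X x * ci y b e X x' * UU y b e X) :=
    mul_nonneg (by linarith) hcc0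
  calc _ ≤ _ := h5
    _ ≤ (1 + β) ^ 4 * (kap D D' * (ci y b e X x * ci y b e X x' * UU y b e X)) +
        β * (kap D D' * (ci y b e X x * ci y b e X x' * UU y b e X)) := add_le_add h10 herr
    _ = ((1 + β) ^ 4 + β) * (kap D D' * (ci y b e X x * ci y b e X x' * UU y b e X)) := by ring
    _ ≤ (1 + 6 * β) * (kap D D' * (ci y b e X x * ci y b e X x' * UU y b e X)) := by gcongr
    _ = _ := by ring

/-- step 3 -/
theorem step3 (b y e r0 : ℕ) (hy : 2 ≤ y) (he : 10 ≤ e) {x : ℕ × ℕ × ℕ}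
    (hx : x.2 ∈ Blk (qq y) r0 x.1) (hs : Squarefree (disc x.2.1 x.2.2)) :
    ∀ᶠ X : ℕ in atTop, 4 * 8 ^ x.1 * e ^ 2 ∣ X → ∀ b1 w0 v0 : ℕ, w0.Coprime (qq y) →
      ∀ n ∈ Nset (qq y) b1 (zf b X) (X ^ 2) (X ^ 2 / e),
        rep (qq y) w0 v0 (disc x.2.1 x.2.2) (aX X x.1) (hX X x.1 e) n ≤ 4 ^ (120 * (4 * b + 10)) := by
  classical
  obtain ⟨X₀, hX₀⟩ := zf_om b
  filter_upwards [eventually_ge_atTop X₀, eventually_ge_atTop 1,
    (zf_tendsto b).eventually_gt_atTop (disc x.2.1 x.2.2).natAbs,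
    (zf_tendsto b).eventually_gt_atTop 2] with X h1 h2 h3 h4 hK b1 w0 v0 hw0 n hn
  rw [Nset, mem_filter, mem_Ioc] at hn
  obtain ⟨⟨hn1, hn2⟩, -, hn4⟩ := hn
  have hge : ∀ p : ℕ, p.Prime → p ∣ n → zf b X ≤ p := fun p hp hpn => by
    by_contra hlt
    exact hn4 p hp (by omega) hpn
  have hle : X ^ 2 / e ≤ X ^ 2 := Nat.div_le_self _ _
  refine rep_le (geo_block hx he h2 hK) ?_ hw0 hn1 hn2 (block_h he h2).1 ?_ hs.ne_zero
    (hX₀ X h1 n (by omega) (by omega) hge)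
  · unfold qq
    exact Dvd.dvd.mul_right (by norm_num) _
  · intro p hp hpn
    have := hge p hp hpn
    omega

open Classical in
theorem class_bound : ∃ b₀ : ℕ, ∀ b : ℕ, b₀ ≤ b → ∃ y e K X₀ : ℕ, 20 ≤ y ∧ 10 ≤ e ∧ 1 ≤ K ∧
    ∀ X : ℕ, X₀ ≤ X → K ∣ X → ∀ b1 : ℕ, b1.Coprime (qq y) →
      (((Nset (qq y) b1 (zf b X) (X ^ 2) (X ^ 2 / e)).filter fun n => ¬ InS n).card : ℝ) ≤
        20 * Real.exp (-b) * (2 * ((X ^ 2 / e : ℕ) : ℝ) / qq y * Wz y (zf b X)) := by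
  obtain ⟨bT, hT0⟩ := T0_upper
  obtain ⟨bF, hF0⟩ := first_moment
  obtain ⟨bP, hP0⟩ := pair_moment
  refine ⟨max (max bT bF) (max bP 5), fun b hb => ?_⟩
  have hbT : bT ≤ b := le_trans (by simp) hb
  have hbF : bF ≤ b := le_trans (by simp) hb
  have hbP : bP ≤ b := le_trans (by simp) hb
  have hb5 : 5 ≤ b := le_trans (by simp) hb
  have hβ : 0 < Real.exp (-b : ℝ) := Real.exp_pos _
  have hβ1 : Real.exp (-b : ℝ) ≤ 1 / 100 := by
    have h1 : Real.exp (-b : ℝ) ≤ Real.exp (-5) := by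
      apply Real.exp_le_exp.2
      have : (5 : ℝ) ≤ b := by exact_mod_cast hb5
      linarith
    have h2 : Real.exp (-5 : ℝ) = (Real.exp (-1)) ^ 5 := by
      rw [← Real.exp_nat_mul]; norm_num
    have h3 : Real.exp (-1 : ℝ) < 0.3678794412 := Real.exp_neg_one_lt_d9
    have h4 : (0 : ℝ) < Real.exp (-1) := Real.exp_pos _
    have h5 : (Real.exp (-1 : ℝ)) ^ 5 ≤ (0.3678794412 : ℝ) ^ 5 := by gcongr
    rw [h2] at h1
    norm_num at h5 ⊢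
    linarith
  obtain ⟨yf, hfam⟩ := family (Real.exp (-b : ℝ)) hβ
  obtain ⟨y, hy⟩ : ∃ y : ℕ, y = max yf (max 20 ⌈30 / Real.exp (-b : ℝ)⌉₊) := ⟨_, rfl⟩
  obtain ⟨e, he⟩ : ∃ e : ℕ, e = max 10 ⌈200 / Real.exp (-b : ℝ)⌉₊ := ⟨_, rfl⟩
  have hyf : yf ≤ y := by rw [hy]; simp
  have hy20 : 20 ≤ y := by rw [hy]; simp
  have he10 : 10 ≤ e := by rw [he]; simp
  have hy' : (0 : ℝ) < y := by exact_mod_cast (by omega : 0 < y)
  have he' : (0 : ℝ) < e := by exact_mod_cast (by omega : 0 < e)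
  have hyβ : 30 / (y : ℝ) ≤ Real.exp (-b : ℝ) := by
    have h1 : ⌈30 / Real.exp (-b : ℝ)⌉₊ ≤ y := by rw [hy]; simp
    have h2 : 30 / Real.exp (-b : ℝ) ≤ y := (Nat.le_ceil _).trans (by exact_mod_cast h1)
    rw [div_le_iff₀ hβ] at h2
    rw [div_le_iff₀ hy']
    linarith
  have heβ : 200 / (e : ℝ) ≤ Real.exp (-b : ℝ) := by
    have h1 : ⌈200 / Real.exp (-b : ℝ)⌉₊ ≤ e := by rw [he]; simp
    have h2 : 200 / Real.exp (-b : ℝ) ≤ e := (Nat.le_ceil _).trans (by exact_mod_cast h1)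
    rw [div_le_iff₀ hβ] at h2
    rw [div_le_iff₀ he']
    linarith
  clear hy he
  obtain ⟨r0, hr0, hloc⟩ := loc_data y (by omega)
  obtain ⟨c, hc, hPl⟩ := Pz_lower y (by omega)
  have hq0 := qq_pos y
  have hq : (0 : ℝ) < qq y := by exact_mod_cast hq0
  set Kd : ℝ := 4 ^ (120 * (4 * b + 10)) with hKd
  have hKd0 : 0 < Kd := by positivity
  set C : ℝ := 320 * qq y * (e : ℝ) ^ 2 / c with hCdef
  have hC0 : 0 < C := by positivity
  obtain ⟨F, hF1, hF2, hF3, hF4⟩ := hfam y r0 hyf hr0 (2 * Kd * C / Real.exp (-b : ℝ))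
  have hq2 : 2 ∣ qq y := by unfold qq; exact Dvd.dvd.mul_right (by norm_num) _
  have hodd : ∀ x ∈ F, Odd (disc x.2.1 x.2.2) := by
    intro x hx
    have h1 := (goodD_of hr0 (hF1 x hx).2.1 (hF1 x hx).2.2).cop
    rw [← Int.not_even_iff_odd]
    intro h2
    have h3 : (2 : ℤ) ∣ (qq y : ℤ) := by exact_mod_cast hq2
    have h4 := h1.isUnit_of_dvd' h2.two_dvd h3
    rw [Int.isUnit_iff] at h4
    omega
  have hPe : ∀ x ∈ F, ∃ z₀ : ℕ, ∀ z : ℕ, z₀ ≤ z →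
      c / (1 + Real.log (disc x.2.1 x.2.2).natAbs) ≤ Pz (disc x.2.1 x.2.2) y z := fun x hx =>
    hPl _ (hodd x hx) (hF1 x hx).2.2 (goodD_of hr0 (hF1 x hx).2.1 (hF1 x hx).2.2).ne
  have E0 := step0 b y e (fun b1 z N H h1 h2 => hT0 b hbT y b1 z N H (by omega) h1 h2)
    (by omega) (by omega)
  have E1 : ∀ᶠ X : ℕ in atTop, ∀ x ∈ F, _ := (Filter.eventually_all_finset F).2 fun x hx =>
    step1 b y e r0 c (fun b1 w0 v0 z D N H a h h1 h2 h3 h4 h5 =>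
      hF0 b hbF y b1 w0 v0 z D N H a h (by omega) h1 h2 h3 h4 h5) (by omega) he10 hc
      (hF1 x hx).2.1 (hPe x hx)
  have E2 : ∀ᶠ X : ℕ in atTop, ∀ x ∈ F, ∀ x' ∈ F.erase x, _ :=
    (Filter.eventually_all_finset F).2 fun x hx =>
      (Filter.eventually_all_finset (F.erase x)).2 fun x' hx' =>
      step2 b y e r0 c (fun D D' h1 h2 h3 h4 => hP0 b hbP y D D' (by omega) h1 h2 h3 h4) hβ1 hyβ
        heβ hy20 he10 hc hr0 (hF1 x hx).2.1 (hF1 x' (mem_of_mem_erase hx')).2.1 (hF1 x hx).2.2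
        (hF1 x' (mem_of_mem_erase hx')).2.2
        (fun hh => (ne_of_mem_erase hx') (hF2 x hx x' (mem_of_mem_erase hx') hh).symm)
        (hPe x hx) (hPe x' (mem_of_mem_erase hx'))
  have E3 : ∀ᶠ X : ℕ in atTop, ∀ x ∈ F, _ := (Filter.eventually_all_finset F).2 fun x hx =>
    step3 b y e r0 (by omega) he10 (hF1 x hx).2.1 (hF1 x hx).2.2
  obtain ⟨X₀, hX₀⟩ := eventually_atTop.1 (((E0.and E1).and (E2.and E3)).and
    (eventually_ge_atTop 1))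
  refine ⟨y, e, 4 * 8 ^ (F.sup fun x => x.1) * e ^ 2, X₀, hy20, he10,
    Nat.succ_le_of_lt (by positivity), fun X hXX hKX b1 hb1 => ?_⟩
  obtain ⟨⟨⟨e0, e1⟩, e2, e3⟩, e4⟩ := hX₀ X hXX
  have hdiv : ∀ x ∈ F, 4 * 8 ^ x.1 * e ^ 2 ∣ X := fun x hx => by
    refine dvd_trans ?_ hKX
    have : x.1 ≤ F.sup fun x => x.1 := Finset.le_sup (f := fun x : ℕ × ℕ × ℕ => x.1) hx
    exact Nat.mul_dvd_mul_right (Nat.mul_dvd_mul_left _ (Nat.pow_dvd_pow _ this)) _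
  have hed : e ∣ X := (Dvd.intro_left (4 * 8 ^ (F.sup fun x => x.1) * e) (by ring)).trans hKX
  obtain ⟨w0, v0, hw0, hwv⟩ := hloc b1 hb1
  have hUpos := UU_pos (b := b) (by omega : 2 ≤ y) (by omega : 0 < e) e4 hed
  have hsum : 0 < ∑ x ∈ F, al x := lt_of_lt_of_le (by positivity) hF3
  have hlocx : ∀ x ∈ F, ((2 * qq y : ℕ) : ℤ) ∣
      (w0 : ℤ) ^ 2 - disc x.2.1 x.2.2 * (v0 : ℤ) ^ 2 - 4 * b1 := by
    intro x hx
    have h1 := disc_mod (hF1 x hx).2.1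
    have h2 : ((2 * qq y : ℕ) : ℤ) ∣ ((4 * qq y : ℕ) : ℤ) := by
      exact_mod_cast (Dvd.intro_left 2 (by ring) : 2 * qq y ∣ 4 * qq y)
    have h3 := dvd_sub hwv ((h2.trans h1).mul_right ((v0 : ℤ) ^ 2))
    have h4 : (w0 : ℤ) ^ 2 - disc x.2.1 x.2.2 * (v0 : ℤ) ^ 2 - 4 * b1 =
      (w0 : ℤ) ^ 2 - (1 - 4 * (r0 : ℤ) ^ 3) * (v0 : ℤ) ^ 2 - 4 * b1 -
        (disc x.2.1 x.2.2 - (1 - 4 * (r0 : ℤ) ^ 3)) * (v0 : ℤ) ^ 2 := by ring
    rw [h4]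
    exact h3
  have hmain := second_moment F (Nset (qq y) b1 (zf b X) (X ^ 2) (X ^ 2 / e))
    (fun x n => (rep (qq y) w0 v0 (disc x.2.1 x.2.2) (aX X x.1) (hX X x.1 e) n : ℝ))
    al (ci y b e X) (fun x x' => kap (disc x.2.1 x.2.2) (disc x'.2.1 x'.2.2)) (UU y b e X)
    (2 * Real.exp (-b : ℝ)) (6 * Real.exp (-b : ℝ)) (Real.exp (-b : ℝ)) Kd C
    (fun x hx n hn => ⟨by positivity, by
      rw [hKd]
      exact_mod_cast e3 x hx (hdiv x hx) b1 w0 v0 hw0 n hn⟩)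
    (fun x hx => by
      have := (hF1 x hx).1
      have h2 : (0 : ℝ) < x.1 := by exact_mod_cast (by omega : 0 < x.1)
      unfold al
      positivity)
    (fun x hx => (lowc_pos (e := e) (q := qq y) hc hq0 (by omega) x).trans_le (e1 x hx (hdiv x hx)).1)
    (fun x hx => (al_le (e := e) (q := qq y) hc hq0 (by omega) (hF1 x hx).1 (hF1 x hx).2.1
      (hF1 x hx).2.2.ne_zero).trans (by
        have := (e1 x hx (hdiv x hx)).1
        rw [← hCdef]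
        exact mul_le_mul_of_nonneg_left this hC0.le))
    hUpos (by positivity) (by linarith) (by positivity) hKd0.le
    (e0 hed b1 hb1)
    (fun x hx => (e1 x hx (hdiv x hx)).2 b1 w0 v0 hb1 hw0 (hlocx x hx))
    (fun x hx x' hx' hne => e2 x hx x' (mem_erase.2 ⟨hne.symm, hx'⟩) (hdiv x hx) (hdiv x' hx')
      b1 w0 v0 hb1 hw0)
    ((sum_congr rfl fun i _ => sum_congr (Finset.ext fun a => by simp only [mem_erase])
      fun _ _ => rfl).trans_le hF4) hsum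
  have hsub : ((Nset (qq y) b1 (zf b X) (X ^ 2) (X ^ 2 / e)).filter fun n => ¬ InS n).card ≤
      ((Nset (qq y) b1 (zf b X) (X ^ 2) (X ^ 2 / e)).filter fun n => ∀ x ∈ F,
        (rep (qq y) w0 v0 (disc x.2.1 x.2.2) (aX X x.1) (hX X x.1 e) n : ℝ) = 0).card := by
    apply card_le_card
    intro n hn
    rw [mem_filter] at hn ⊢
    refine ⟨hn.1, fun x hx => ?_⟩
    have hn1 := hn.1
    rw [Nset, mem_filter, mem_Ioc] at hn1
    have hB : x.2.1 % 2 = 1 := by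
      have h1 := (hF1 x hx).2.1
      rw [Blk, mem_filter] at h1
      have h2 := h1.2.1
      obtain ⟨k, hk⟩ := hq2
      have h3 : x.2.1 % (2 * (4 * k)) = 1 := by
        rw [← h2, hk]; congr 1; ring
      have h4 := Nat.mod_mul_right_mod x.2.1 2 (4 * k)
      omega
    have hr : 0 < x.2.2 := by
      have h1 := (hF1 x hx).2.1
      rw [Blk, mem_filter, mem_product, mem_Ioc, mem_Ioc] at h1
      exact lt_of_le_of_lt (Nat.zero_le _) h1.1.2.1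
    have := exc_rep (a := aX X x.1) (h := hX X x.1 e) (v0 := v0) hq2 hw0 hB hr hn.2
      (fun v hv => (block_r (hF1 x hx).2.1 he10 e4 (hdiv x hx) v hv).trans hn1.1.1)
    exact_mod_cast this
  have hE : 2 * Kd * C / ∑ x ∈ F, al x ≤ Real.exp (-b : ℝ) := by
    rw [div_le_iff₀ hsum]
    rw [div_le_iff₀ hβ] at hF3
    linarith
  calc (((Nset (qq y) b1 (zf b X) (X ^ 2) (X ^ 2 / e)).filter fun n => ¬ InS n).card : ℝ) ≤ _ := by
        exact_mod_cast hsub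
    _ ≤ _ := hmain
    _ ≤ UU y b e X * (20 * Real.exp (-b : ℝ)) := by
        refine mul_le_mul_of_nonneg_left ?_ hUpos.le
        clear_value Kd C
        nlinarith
    _ = _ := by rw [UU]; ring

end Pool.Agent.Work.MP_43ce8a_nt.D
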