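import Mathlib

set_option autoImplicit false

/-!
Counting pairs of residues: Chinese remainder theorem and periodicity (auxiliary to Rho1, RhoA,
PmLoc).
-/

namespace Pool.Agent.Work.MP_43ce8a_nt.D

open Finset

/-- pairs of residues modulo `m n` with a condition modulo `m` and a condition modulo `n` -/
theorem card_crt {m n : ℕ} (h : m.Coprime n) (hm : m ≠ 0) (hn : n ≠ 0) {P Q : ℕ → ℕ → Prop}
    [∀ x y, Decidable (P x y)] [∀ x y, Decidable (Q x y)]
    (hP : ∀ x y, P (x % m) (y % m) ↔ P x y) (hQ : ∀ x y, Q (x % n) (y % n) ↔ Q x y) :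
    ((range (m * n) ×ˢ range (m * n)).filter fun x : ℕ × ℕ => P x.1 x.2 ∧ Q x.1 x.2).card =
      ((range m ×ˢ range m).filter fun x : ℕ × ℕ => P x.1 x.2).card *
      ((range n ×ˢ range n).filter fun x : ℕ × ℕ => Q x.1 x.2).card := by
  rw [← Finset.card_product]
  have hm' : 0 < m := Nat.pos_of_ne_zero hm
  have hn' : 0 < n := Nat.pos_of_ne_zero hn
  refine Finset.card_nbij' (fun x : ℕ × ℕ => ((x.1 % m, x.2 % m), (x.1 % n, x.2 % n)))
    (fun z => ((Nat.chineseRemainder h z.1.1 z.2.1 : ℕ), (Nat.chineseRemainder h z.1.2 z.2.2 : ℕ)))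
    ?_ ?_ ?_ ?_
  · rintro ⟨x, y⟩ hx
    simp only [coe_filter, mem_product, mem_range, Set.mem_ofPred_eq] at hx
    simp only [coe_product, coe_filter, mem_product, mem_range, Set.mem_prod, Set.mem_ofPred_eq]
    exact ⟨⟨⟨Nat.mod_lt _ hm', Nat.mod_lt _ hm'⟩, (hP _ _).2 hx.2.1⟩,
      ⟨Nat.mod_lt _ hn', Nat.mod_lt _ hn'⟩, (hQ _ _).2 hx.2.2⟩
  · rintro ⟨⟨a, b⟩, ⟨c, d⟩⟩ hz
    simp only [coe_product, coe_filter, mem_product, mem_range, Set.mem_prod,
      Set.mem_ofPred_eq] at hz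
    simp only [coe_filter, mem_product, mem_range, Set.mem_ofPred_eq]
    obtain ⟨⟨⟨ha, hb⟩, hp⟩, ⟨hc, hd⟩, hq⟩ := hz
    have e1 := (Nat.chineseRemainder h a c).2
    have e2 := (Nat.chineseRemainder h b d).2
    refine ⟨⟨Nat.chineseRemainder_lt_mul h a c hm hn, Nat.chineseRemainder_lt_mul h b d hm hn⟩,
      ?_, ?_⟩
    · rw [← hP, e1.1, e2.1, Nat.mod_eq_of_lt ha, Nat.mod_eq_of_lt hb]
      exact hp
    · rw [← hQ, e1.2, e2.2, Nat.mod_eq_of_lt hc, Nat.mod_eq_of_lt hd]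
      exact hq
  · rintro ⟨x, y⟩ hx
    simp only [coe_filter, mem_product, mem_range, Set.mem_ofPred_eq] at hx
    obtain ⟨⟨hx1, hy1⟩, -⟩ := hx
    have key : ∀ t, t < m * n → ((Nat.chineseRemainder h (t % m) (t % n) : ℕ)) = t := by
      intro t ht
      have e := (Nat.chineseRemainder h (t % m) (t % n)).2
      have e3 : (Nat.chineseRemainder h (t % m) (t % n) : ℕ) ≡ t [MOD m * n] := by
        rw [← Nat.modEq_and_modEq_iff_modEq_mul h]
        exact ⟨e.1.trans (Nat.mod_modEq _ _), e.2.trans (Nat.mod_modEq _ _)⟩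
      have e4 := Nat.chineseRemainder_lt_mul h (t % m) (t % n) hm hn
      exact Nat.ModEq.eq_of_lt_of_lt e3 e4 ht
    simp only [key x hx1, key y hy1]
  · rintro ⟨⟨a, b⟩, ⟨c, d⟩⟩ hz
    simp only [coe_product, coe_filter, mem_product, mem_range, Set.mem_prod,
      Set.mem_ofPred_eq] at hz
    obtain ⟨⟨⟨ha, hb⟩, hp⟩, ⟨hc, hd⟩, hq⟩ := hz
    have e1 := (Nat.chineseRemainder h a c).2
    have e2 := (Nat.chineseRemainder h b d).2
    have f1 : (Nat.chineseRemainder h a c : ℕ) % m = a := by rw [e1.1, Nat.mod_eq_of_lt ha]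
    have f2 : (Nat.chineseRemainder h b d : ℕ) % m = b := by rw [e2.1, Nat.mod_eq_of_lt hb]
    have f3 : (Nat.chineseRemainder h a c : ℕ) % n = c := by rw [e1.2, Nat.mod_eq_of_lt hc]
    have f4 : (Nat.chineseRemainder h b d : ℕ) % n = d := by rw [e2.2, Nat.mod_eq_of_lt hd]
    simp only [f1, f2, f3, f4]

/-- pairs in a box whose sides are multiples of the modulus -/
theorem card_per (m k l : ℕ) (hm : m ≠ 0) {P : ℕ → ℕ → Prop} [∀ x y, Decidable (P x y)]
    (hP : ∀ x y, P (x % m) (y % m) ↔ P x y) :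
    ((range (m * k) ×ˢ range (m * l)).filter fun x : ℕ × ℕ => P x.1 x.2).card =
      k * l * ((range m ×ˢ range m).filter fun x : ℕ × ℕ => P x.1 x.2).card := by
  have hm' : 0 < m := Nat.pos_of_ne_zero hm
  have h0 : k * l = (range k ×ˢ range l).card := by rw [card_product, card_range, card_range]
  rw [h0, ← Finset.card_product]
  refine Finset.card_nbij' (fun x : ℕ × ℕ => ((x.1 / m, x.2 / m), (x.1 % m, x.2 % m)))
    (fun z => (m * z.1.1 + z.2.1, m * z.1.2 + z.2.2)) ?_ ?_ ?_ ?_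
  · rintro ⟨x, y⟩ hx
    simp only [coe_filter, mem_product, mem_range, Set.mem_ofPred_eq] at hx
    simp only [coe_product, coe_filter, mem_product, mem_range, Set.mem_prod, Set.mem_ofPred_eq,
      coe_range, Set.mem_Iio]
    exact ⟨⟨Nat.div_lt_of_lt_mul hx.1.1, Nat.div_lt_of_lt_mul hx.1.2⟩,
      ⟨Nat.mod_lt _ hm', Nat.mod_lt _ hm'⟩, (hP _ _).2 hx.2⟩
  · rintro ⟨⟨a, b⟩, ⟨c, d⟩⟩ hz
    simp only [coe_product, coe_filter, mem_product, mem_range, Set.mem_prod,
      Set.mem_ofPred_eq, coe_range, Set.mem_Iio] at hz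
    simp only [coe_filter, mem_product, mem_range, Set.mem_ofPred_eq]
    obtain ⟨⟨ha, hb⟩, ⟨hc, hd⟩, hq⟩ := hz
    refine ⟨⟨?_, ?_⟩, ?_⟩
    · calc m * a + c < m * a + m := by omega
        _ = m * (a + 1) := by ring
        _ ≤ m * k := Nat.mul_le_mul_left _ ha
    · calc m * b + d < m * b + m := by omega
        _ = m * (b + 1) := by ring
        _ ≤ m * l := Nat.mul_le_mul_left _ hb
    · rw [← hP, Nat.mul_add_mod, Nat.mul_add_mod, Nat.mod_eq_of_lt hc, Nat.mod_eq_of_lt hd]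
      exact hq
  · rintro ⟨x, y⟩ -
    simp only [Nat.div_add_mod]
  · rintro ⟨⟨a, b⟩, ⟨c, d⟩⟩ hz
    simp only [coe_product, coe_filter, mem_product, mem_range, Set.mem_prod,
      Set.mem_ofPred_eq, coe_range, Set.mem_Iio] at hz
    obtain ⟨⟨ha, hb⟩, ⟨hc, hd⟩, hq⟩ := hz
    have e1 : (m * a + c) / m = a := by
      rw [Nat.mul_add_div hm', Nat.div_eq_of_lt hc, add_zero]
    have e2 : (m * b + d) / m = b := by
      rw [Nat.mul_add_div hm', Nat.div_eq_of_lt hd, add_zero]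
    simp only [e1, e2, Nat.mul_add_mod, Nat.mod_eq_of_lt hc, Nat.mod_eq_of_lt hd]

/-- a box of naturals and the pairs of residue classes -/
theorem card_zmod {m : ℕ} [NeZero m] (P : ZMod m → ZMod m → Prop) [∀ x y, Decidable (P x y)] :
    ((range m ×ˢ range m).filter fun x : ℕ × ℕ => P (x.1 : ZMod m) (x.2 : ZMod m)).card =
      ((univ : Finset (ZMod m × ZMod m)).filter fun z => P z.1 z.2).card := by
  refine Finset.card_nbij' (fun x : ℕ × ℕ => ((x.1 : ZMod m), (x.2 : ZMod m)))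
    (fun z => (z.1.val, z.2.val)) ?_ ?_ ?_ ?_
  · rintro ⟨x, y⟩ hx
    simp only [coe_filter, mem_product, mem_range, Set.mem_ofPred_eq] at hx
    simp only [coe_filter, mem_univ, true_and, Set.mem_ofPred_eq]
    exact hx.2
  · rintro ⟨x, y⟩ hx
    simp only [coe_filter, mem_univ, true_and, Set.mem_ofPred_eq] at hx
    simp only [coe_filter, mem_product, mem_range, Set.mem_ofPred_eq]
    refine ⟨⟨ZMod.val_lt _, ZMod.val_lt _⟩, ?_⟩
    rw [ZMod.natCast_zmod_val, ZMod.natCast_zmod_val]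
    exact hx
  · rintro ⟨x, y⟩ hx
    simp only [coe_filter, mem_product, mem_range, Set.mem_ofPred_eq] at hx
    simp only [ZMod.val_natCast, Nat.mod_eq_of_lt hx.1.1, Nat.mod_eq_of_lt hx.1.2]
  · rintro ⟨x, y⟩ -
    simp only [ZMod.natCast_zmod_val]

/-- a quadratic condition only depends on the residues -/
theorem quad_mod (A A' : ℤ) (m x y : ℕ) :
    (m : ℤ) ∣ A * ((x % m : ℕ) : ℤ) ^ 2 - A' * ((y % m : ℕ) : ℤ) ^ 2 ↔
      (m : ℤ) ∣ A * (x : ℤ) ^ 2 - A' * (y : ℤ) ^ 2 := by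
  rw [← ZMod.intCast_zmod_eq_zero_iff_dvd, ← ZMod.intCast_zmod_eq_zero_iff_dvd]
  push_cast
  exact Iff.rfl

/-- number of solutions of `A x ^ 2 = A' y ^ 2` in `ZMod p` -/
theorem card_quad_prime (A A' : ℤ) {p : ℕ} [Fact p.Prime] (h2 : p ≠ 2) (h : ¬ (p : ℤ) ∣ A)
    (h' : ¬ (p : ℤ) ∣ A') :
    ((((range p ×ˢ range p).filter fun x : ℕ × ℕ =>
      (p : ℤ) ∣ A * (x.1 : ℤ) ^ 2 - A' * (x.2 : ℤ) ^ 2).card : ℕ) : ℤ) =
      1 + ((p : ℤ) - 1) * (1 + legendreSym p (A * A')) := by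
  have hp : p.Prime := Fact.out
  have hA : (A : ZMod p) ≠ 0 := by rwa [Ne, ZMod.intCast_zmod_eq_zero_iff_dvd]
  have hA' : (A' : ZMod p) ≠ 0 := by rwa [Ne, ZMod.intCast_zmod_eq_zero_iff_dvd]
  have e1 : ((range p ×ˢ range p).filter fun x : ℕ × ℕ =>
      (p : ℤ) ∣ A * (x.1 : ℤ) ^ 2 - A' * (x.2 : ℤ) ^ 2).card =
      ((univ : Finset (ZMod p × ZMod p)).filter fun z =>
        (A : ZMod p) * z.1 ^ 2 - (A' : ZMod p) * z.2 ^ 2 = 0).card := by
    refine Eq.trans ?_ (card_zmod (fun x y : ZMod p =>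
      (A : ZMod p) * x ^ 2 - (A' : ZMod p) * y ^ 2 = 0))
    congr 1
    apply Finset.filter_congr
    rintro ⟨x, y⟩ -
    rw [← ZMod.intCast_zmod_eq_zero_iff_dvd]
    push_cast
    rfl
  have e2 : ((univ : Finset (ZMod p × ZMod p)).filter fun z =>
        (A : ZMod p) * z.1 ^ 2 - (A' : ZMod p) * z.2 ^ 2 = 0).card =
      ∑ y : ZMod p, ((univ : Finset (ZMod p)).filter fun x =>
        (A : ZMod p) * x ^ 2 - (A' : ZMod p) * y ^ 2 = 0).card := by
    rw [Finset.card_filter, Fintype.sum_prod_type_right]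
    exact Finset.sum_congr rfl fun y _ => by rw [Finset.card_filter]
  have e3 : ∀ y : ZMod p, y ≠ 0 → ((((univ : Finset (ZMod p)).filter fun x =>
        (A : ZMod p) * x ^ 2 - (A' : ZMod p) * y ^ 2 = 0).card : ℕ) : ℤ) =
      legendreSym p (A * A') + 1 := by
    intro y hy
    rw [← legendreSym.card_sqrts p h2]
    congr 1
    refine Finset.card_nbij' (fun x => (A : ZMod p) * x / y) (fun t => t * y / (A : ZMod p))
      ?_ ?_ ?_ ?_
    · intro x hx
      simp only [coe_filter, mem_univ, true_and, Set.mem_ofPred_eq] at hx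
      simp only [Set.coe_toFinset, Set.mem_ofPred_eq]
      push_cast
      rw [div_pow, div_eq_iff (pow_ne_zero 2 hy)]
      linear_combination (A : ZMod p) * hx
    · intro t ht
      simp only [Set.coe_toFinset, Set.mem_ofPred_eq] at ht
      push_cast at ht
      simp only [coe_filter, mem_univ, true_and, Set.mem_ofPred_eq]
      rw [div_pow, mul_pow, ht]
      field_simp
      ring
    · intro x _
      simp only
      field_simp
    · intro t _
      simp only
      field_simp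
  have e4 : ((univ : Finset (ZMod p)).filter fun x =>
        (A : ZMod p) * x ^ 2 - (A' : ZMod p) * (0 : ZMod p) ^ 2 = 0).card = 1 := by
    rw [Finset.card_eq_one]
    refine ⟨0, ?_⟩
    ext x
    simp only [mem_filter, mem_univ, true_and, mem_singleton]
    constructor
    · intro hx
      have h1 : (A : ZMod p) * x ^ 2 = 0 := by linear_combination hx
      exact pow_eq_zero_iff two_ne_zero |>.1 ((mul_eq_zero.1 h1).resolve_left hA)
    · rintro rfl
      ring
  rw [e1, e2]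
  push_cast
  rw [← Finset.sum_erase_add _ _ (mem_univ (0 : ZMod p)), e4]
  rw [Finset.sum_congr rfl (fun y hy => e3 y (Finset.ne_of_mem_erase hy)), Finset.sum_const,
    Finset.card_erase_of_mem (mem_univ _), Finset.card_univ, ZMod.card, nsmul_eq_mul,
    Nat.cast_sub hp.one_le]
  push_cast
  ring

end Pool.Agent.Work.MP_43ce8a_nt.D
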