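import Mathlib
import Pool.Agent.Work.MP_43ce8a_nt.Basic
import Pool.Agent.Work.MP_73869e_nt.AP.MertQ

set_option autoImplicit false

/-!
Almost all primes are sums of three positive integers with cube product: definitions.
The overview of the proof is in blueprint_43ce8a.md.
-/

namespace Pool.Agent.Work.MP_43ce8a_nt.D

open Finset Filter Pool.Agent.Work.MP_2dba45_nt.Mert

/-- the discriminant of `u ^ 2 + B ^ 3 u v + r ^ 3 v ^ 2` -/
def disc (B r : ℕ) : ℤ := (B : ℤ) ^ 6 - 4 * (r : ℤ) ^ 3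

/-- the product of the odd primes up to `y` -/
def Mo (y : ℕ) : ℕ := ∏ p ∈ (Icc 3 y).filter Nat.Prime, p

/-- the basic modulus -/
def qq (y : ℕ) : ℕ := 16 * Mo y

open Classical in
/-- number of representations `4 n = w ^ 2 - D v ^ 2` with `v` in `(a, a + h]`, `w ≡ w0` mod `q`
and `v ≡ v0` mod `2 q` -/
noncomputable def rep (q w0 v0 : ℕ) (D : ℤ) (a h n : ℕ) : ℕ :=
  ((Ioc a (a + h)).filter fun v => v % (2 * q) = v0 % (2 * q) ∧
    ∃ w : ℕ, w % q = w0 % q ∧ (w : ℤ) ^ 2 = 4 * n + D * (v : ℤ) ^ 2).card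

open Classical in
/-- the integers `n` in `(N, N + H]` congruent to `b` mod `q / 2` without prime factors below `z` -/
noncomputable def Nset (q b z N H : ℕ) : Finset ℕ :=
  (Ioc N (N + H)).filter fun n => n % (q / 2) = b % (q / 2) ∧ ∀ p : ℕ, p.Prime → p < z → ¬ p ∣ n

/-- the quadratic character `n ↦ (D / n)` on odd `n` -/
noncomputable def chi (D : ℤ) (n : ℕ) : ℝ := if n % 2 = 1 then ((jacobiSym D n : ℤ) : ℝ) else 0

/-- the primes strictly between `y` and `z` -/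
def pr (y z : ℕ) : Finset ℕ := (Ioo y z).filter Nat.Prime

noncomputable def Wz (y z : ℕ) : ℝ := ∏ p ∈ pr y z, (1 - 1 / (p : ℝ))

noncomputable def Pz (D : ℤ) (y z : ℕ) : ℝ := ∏ p ∈ pr y z, (1 - chi D p / (p : ℝ))

/-- length of the interval of the admissible `w` for given `v` -/
noncomputable def Lf (D : ℤ) (N H v : ℕ) : ℝ :=
  Real.sqrt (4 * ((N : ℝ) + H) + D * (v : ℝ) ^ 2) - Real.sqrt (4 * (N : ℝ) + D * (v : ℝ) ^ 2)

/-- main term of the first moment -/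
noncomputable def X1 (q : ℕ) (D : ℤ) (N H a h : ℕ) : ℝ :=
  1 / (2 * (q : ℝ) ^ 2) * ∑ v ∈ Ioc a (a + h), Lf D N H v

/-- number of solutions of `A x ^ 2 ≡ A' y ^ 2` mod `m` -/
def rho (A A' : ℤ) (m : ℕ) : ℕ :=
  ((range m ×ˢ range m).filter fun x : ℕ × ℕ =>
    (m : ℤ) ∣ A * (x.1 : ℤ) ^ 2 - A' * (x.2 : ℤ) ^ 2).card

/-- normalised number of solutions -/
noncomputable def hh (A A' : ℤ) (m : ℕ) : ℝ := (rho A A' m : ℝ) / m

/-- the value at `1` of the `L`-function of `chi D` -/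
noncomputable def Lone (D : ℤ) : ℝ := limUnder atTop fun N : ℕ => LL (chi D) N

/-- the product of `1 - chi D p / p ^ 2` over the primes not dividing `q`, as a series -/
noncomputable def Tq (D : ℤ) (q : ℕ) : ℝ :=
  ∑' e : ℕ, if e.Coprime q then chi D e * (ArithmeticFunction.moebius e : ℝ) / (e : ℝ) ^ 2 else 0

/-- mean value of `hh A A'` on integers prime to `q` -/
noncomputable def Gc (A A' : ℤ) (q : ℕ) : ℝ :=
  Lone (A * A') * (∏ p ∈ q.primeFactors, (1 - chi (A * A') p / (p : ℝ))) * Tq (A * A') q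

/-- the sieving density for pairs -/
noncomputable def gp (p : ℕ) : ℝ := 4 * ((p : ℝ) - 2) * ((p : ℝ) - 1) / ((p : ℝ) ^ 2 * ((p : ℝ) + 1))

open Classical in
/-- the primes used in the sieve for pairs -/
noncomputable def PP (D D' : ℤ) (y z : ℕ) : Finset ℕ :=
  (pr y z).filter fun p => chi D p = 1 ∧ chi D' p = 1

/-- admissible discriminants -/
structure GoodD (q : ℕ) (D : ℤ) : Prop where
  sqf : Squarefree D
  cop : IsCoprime D (q : ℤ)
  ne : D ≠ 1

/-- size conditions -/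
structure Geo (D : ℤ) (N H a h : ℕ) : Prop where
  N1 : 1 ≤ N
  H1 : 1 ≤ H
  HN : H ≤ N
  h1 : 1 ≤ h
  hN : (a + h) ^ 2 ≤ N
  lo : ∀ v ∈ Ioc a (a + h), (N : ℤ) ≤ 2 * (4 * N + D * (v : ℤ) ^ 2)
  hi : ∀ v ∈ Ioc a (a + h), 4 * ((N : ℤ) + H) + D * (v : ℤ) ^ 2 ≤ 16 * N

/-- the sup norm on `ℤ × ℤ` -/
def supn (x : ℤ × ℤ) : ℕ := max x.1.natAbs x.2.natAbs

/-- the quadratic form -/
def Qf (A A' : ℤ) (x : ℤ × ℤ) : ℤ := A * x.1 ^ 2 - A' * x.2 ^ 2

end Pool.Agent.Work.MP_43ce8a_nt.D
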