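import Pool.Agent.Work.MP_43ce8a_nt.D.BlkDefs
import Pool.Agent.Work.MP_f2148a_nt.DivisorBound

set_option autoImplicit false

/-!
Module FaDist (size M). Few coincidences of discriminants.

PROOF. Let x = (B, r) in block k, x' = (B', r') in block k' ≤ k, (k', x') ≠ (k, x) and the same
discriminant: B⁶ - 4 r³ = B'⁶ - 4 r'³. If B = B' then r = r' and k = k' (B determines k): excluded. So
c = B⁶ - B'⁶ = 4 (r³ - r'³) ≠ 0. d = r - r' is a nonzero integer, d ∣ c, and for given (B, B', d) the number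
of r is at most 2 (4 d (3 r² - 3 r d + d²) = c is a quadratic equation in r). So the number of x is at most
the number of (B, B') (≤ 2^k * 2^(k+1)) times 2 * 2 card divisors |c| with |c| ≤ 64^(k+1); card divisors
|c| ≤ C₀ |c|^(1/12) ≤ C₀ 2^((k+1)/2) (exists_card_divisors_le). Total ≤ C 4^k 2^(k/2).
-/

namespace Pool.Agent.Work.MP_43ce8a_nt.D

open Finset

private theorem blk_mem {q r0 k : ℕ} {x : ℕ × ℕ} (hx : x ∈ Blk q r0 k) :
    2 ^ k < x.1 ∧ x.1 ≤ 2 ^ (k + 1) ∧ 4 ^ k < x.2 ∧ x.2 ≤ 2 * 4 ^ k := by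
  rw [Blk, mem_filter, mem_product, mem_Ioc, mem_Ioc] at hx
  exact ⟨hx.1.1.1, hx.1.1.2, hx.1.2.1, hx.1.2.2⟩

private theorem same_block {q r0 k k' : ℕ} {x x' : ℕ × ℕ} (hx : x ∈ Blk q r0 k)
    (hx' : x' ∈ Blk q r0 k') (h : x.1 = x'.1) (hk : k' ≤ k) : k' = k := by
  obtain ⟨h1, -, -, -⟩ := blk_mem hx
  obtain ⟨-, h2, -, -⟩ := blk_mem hx'
  by_contra hne
  have h3 : k' + 1 ≤ k := by omega
  have : 2 ^ (k' + 1) ≤ 2 ^ k := Nat.pow_le_pow_right (by norm_num) h3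
  omega

private theorem cube_ge (a b : ℕ) (h : a ^ 3 = b ^ 3) : a = b :=
  Nat.pow_left_injective (n := 3) (by norm_num) h

/-- integers with absolute value dividing `c` -/
private def Dv (c : ℤ) : Finset ℤ :=
  (c.natAbs.divisors.image fun n : ℕ => (n : ℤ)) ∪ (c.natAbs.divisors.image fun n : ℕ => -(n : ℤ))

private theorem card_Dv (c : ℤ) : (Dv c).card ≤ 2 * c.natAbs.divisors.card := by
  refine (card_union_le _ _).trans ?_
  have h1 := card_image_le (s := c.natAbs.divisors) (f := fun n : ℕ => (n : ℤ))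
  have h2 := card_image_le (s := c.natAbs.divisors) (f := fun n : ℕ => -(n : ℤ))
  omega

private theorem mem_Dv {c d : ℤ} (hc : c ≠ 0) (hd : d ∣ c) : d ∈ Dv c := by
  rw [Dv, mem_union, mem_image, mem_image]
  have h1 : d.natAbs ∈ c.natAbs.divisors := by
    rw [Nat.mem_divisors]
    exact ⟨Int.natAbs_dvd_natAbs.2 hd, by omega⟩
  rcases Int.natAbs_eq d with h | h
  · exact Or.inl ⟨d.natAbs, h1, h.symm⟩
  · exact Or.inr ⟨d.natAbs, h1, h.symm⟩

private theorem uniq {r r' s s' : ℤ} (hr : 0 < r) (hr' : 0 < r') (hs : 0 < s) (hs' : 0 < s')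
    (hd : r - r' = s - s') (hne : r ≠ r') (hc : r ^ 3 - r' ^ 3 = s ^ 3 - s' ^ 3) : r = s := by
  have h1 : (r - r') * ((r ^ 2 + r * r' + r' ^ 2) - (s ^ 2 + s * s' + s' ^ 2)) = 0 := by
    have : (r - r') * (s ^ 2 + s * s' + s' ^ 2) = s ^ 3 - s' ^ 3 := by rw [hd]; ring
    linear_combination hc - this
  rcases mul_eq_zero.1 h1 with h | h
  · exact absurd (sub_eq_zero.1 h) hne
  · have e : r' = r - (s - s') := by linarith
    subst e
    have h2 : (r - s) * (r + s + (r - (s - s')) + s' + r) = 0 := by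
      nlinarith [h]
    rcases mul_eq_zero.1 h2 with h3 | h3
    · linarith
    · exfalso
      linarith

open Classical in
theorem dist_most : ∃ C : ℝ, 0 ≤ C ∧ ∀ q r0 k : ℕ, 0 < q →
    (((Blk q r0 k).filter fun x => ∃ k' x', k' ≤ k ∧ x' ∈ Blk q r0 k' ∧ (k', x') ≠ (k, x) ∧
      disc x'.1 x'.2 = disc x.1 x.2).card : ℝ) ≤ C * (4 ^ k * (2 : ℝ) ^ ((k : ℝ) / 2)) := by
  obtain ⟨A, hA1, hA⟩ := MP_f2148a_nt.exists_card_divisors_le (1 / 12) (by norm_num)
  refine ⟨64 * A, by positivity, ?_⟩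
  intro q r0 k hq
  set S := (Blk q r0 k).filter fun x => ∃ k' x', k' ≤ k ∧ x' ∈ Blk q r0 k' ∧ (k', x') ≠ (k, x) ∧
      disc x'.1 x'.2 = disc x.1 x.2 with hS
  set R := range (2 ^ (k + 1) + 1) with hR
  -- data
  have hdat : ∀ x ∈ S, ∃ w : ℕ × ℕ, 0 < w.2 ∧ 0 < x.2 ∧ x.1 ∈ R ∧ w.1 ∈ R ∧
      ((x.1 : ℤ) ^ 6 - (w.1 : ℤ) ^ 6 ≠ 0) ∧
      ((x.1 : ℤ) ^ 6 - (w.1 : ℤ) ^ 6 = 4 * ((x.2 : ℤ) ^ 3 - (w.2 : ℤ) ^ 3)) := by
    intro x hx
    rw [hS, mem_filter] at hx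
    obtain ⟨hxB, k', x', hk', hx', hne, hd⟩ := hx
    obtain ⟨h1, h2, h3, h4⟩ := blk_mem hxB
    obtain ⟨h5, h6, h7, h8⟩ := blk_mem hx'
    have hpow : 2 ^ (k' + 1) ≤ 2 ^ (k + 1) := Nat.pow_le_pow_right (by norm_num) (by omega)
    have hdd : (x.1 : ℤ) ^ 6 - (x'.1 : ℤ) ^ 6 = 4 * ((x.2 : ℤ) ^ 3 - (x'.2 : ℤ) ^ 3) := by
      unfold disc at hd
      linarith
    refine ⟨x', by omega, by omega, mem_range.2 (by omega), mem_range.2 (by omega), ?_, hdd⟩
    intro h0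
    have e1 : (x.1 : ℤ) ^ 6 = (x'.1 : ℤ) ^ 6 := by linarith
    have e2 : x.1 ^ 6 = x'.1 ^ 6 := by exact_mod_cast e1
    have e3 : x.1 = x'.1 := Nat.pow_left_injective (n := 6) (by norm_num) e2
    have e4 : (x.2 : ℤ) ^ 3 = (x'.2 : ℤ) ^ 3 := by linarith
    have e5 : x.2 ^ 3 = x'.2 ^ 3 := by exact_mod_cast e4
    have e6 := cube_ge _ _ e5
    have e7 := same_block hxB hx' e3 hk'
    apply hne
    rw [e7, Prod.mk.injEq]
    exact ⟨rfl, (Prod.ext e3 e6).symm⟩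
  choose! w hw using hdat
  -- injection
  have hcard : S.card ≤ ((R ×ˢ R).sigma fun v => Dv ((v.1 : ℤ) ^ 6 - (v.2 : ℤ) ^ 6)).card := by
    apply card_le_card_of_injOn
      (fun x => (⟨(x.1, (w x).1), (x.2 : ℤ) - (w x).2⟩ : Σ _ : ℕ × ℕ, ℤ))
    · intro x hx
      have hx' : x ∈ S := hx
      obtain ⟨g1, g2, g3, g4, g5, g6⟩ := hw x hx'
      rw [mem_coe, mem_sigma, mem_product]
      refine ⟨⟨g3, g4⟩, ?_⟩
      apply mem_Dv g5
      simp only
      rw [g6]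
      refine ⟨4 * ((x.2 : ℤ) ^ 2 + (x.2 : ℤ) * (w x).2 + ((w x).2 : ℤ) ^ 2), by ring⟩
    · intro x hx y hy hxy
      have hx' : x ∈ S := hx
      have hy' : y ∈ S := hy
      obtain ⟨g1, g2, g3, g4, g5, g6⟩ := hw x hx'
      obtain ⟨l1, l2, l3, l4, l5, l6⟩ := hw y hy'
      simp only [Sigma.mk.injEq, Prod.mk.injEq, heq_eq_eq] at hxy
      obtain ⟨⟨e1, e2⟩, e3⟩ := hxy
      have e4 : (x.2 : ℤ) ^ 3 - ((w x).2 : ℤ) ^ 3 = (y.2 : ℤ) ^ 3 - ((w y).2 : ℤ) ^ 3 := by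
        rw [e1, e2] at g6
        linarith
      have hne : (x.2 : ℤ) ≠ (w x).2 := by
        intro h
        apply g5
        rw [g6, h]
        ring
      have e5 := uniq (by exact_mod_cast g2) (by exact_mod_cast g1) (by exact_mod_cast l2)
        (by exact_mod_cast l1) e3 hne e4
      exact Prod.ext e1 (by exact_mod_cast e5)
  rw [card_sigma] at hcard
  have hterm : ∀ v ∈ R ×ˢ R, ((Dv ((v.1 : ℤ) ^ 6 - (v.2 : ℤ) ^ 6)).card : ℝ) ≤
      2 * (A * (2 * (2 : ℝ) ^ ((k : ℝ) / 2))) := by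
    intro v hv
    rw [mem_product, mem_range, mem_range] at hv
    set c := (v.1 : ℤ) ^ 6 - (v.2 : ℤ) ^ 6 with hc
    have h1 : ((Dv c).card : ℝ) ≤ 2 * (c.natAbs.divisors.card : ℝ) := by exact_mod_cast card_Dv c
    refine h1.trans ?_
    have h2 : (c.natAbs.divisors.card : ℝ) ≤ A * (2 * (2 : ℝ) ^ ((k : ℝ) / 2)) := by
      by_cases h0 : c.natAbs = 0
      · rw [h0, Nat.divisors_zero, card_empty]
        push_cast
        positivity
      · refine (hA _ (by omega)).trans ?_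
        have h3 : c.natAbs ≤ 64 ^ (k + 1) := by
          have b1 : v.1 ^ 6 ≤ 64 ^ (k + 1) := by
            calc v.1 ^ 6 ≤ (2 ^ (k + 1)) ^ 6 := Nat.pow_le_pow_left (by omega) 6
              _ = 64 ^ (k + 1) := by
                rw [← pow_mul, mul_comm (k + 1) 6, pow_mul]; norm_num
          have b2 : v.2 ^ 6 ≤ 64 ^ (k + 1) := by
            calc v.2 ^ 6 ≤ (2 ^ (k + 1)) ^ 6 := Nat.pow_le_pow_left (by omega) 6
              _ = 64 ^ (k + 1) := by
                rw [← pow_mul, mul_comm (k + 1) 6, pow_mul]; norm_num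
          have b3 : c = ((v.1 ^ 6 : ℕ) : ℤ) - ((v.2 ^ 6 : ℕ) : ℤ) := by rw [hc]; push_cast; ring
          omega
        have h4 : ((c.natAbs : ℕ) : ℝ) ^ (1 / 12 : ℝ) ≤ 2 * (2 : ℝ) ^ ((k : ℝ) / 2) := by
          calc ((c.natAbs : ℕ) : ℝ) ^ (1 / 12 : ℝ) ≤ ((64 : ℝ) ^ (k + 1)) ^ (1 / 12 : ℝ) := by
                apply Real.rpow_le_rpow (by positivity) _ (by norm_num)
                exact_mod_cast h3
            _ = (2 : ℝ) ^ (((k : ℝ) + 1) / 2) := by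
                have e64 : (64 : ℝ) = (2 : ℝ) ^ (6 : ℝ) := by
                  rw [show (6 : ℝ) = ((6 : ℕ) : ℝ) by norm_num, Real.rpow_natCast]; norm_num
                rw [← Real.rpow_natCast (64 : ℝ), e64, ← Real.rpow_mul (by norm_num),
                  ← Real.rpow_mul (by norm_num)]
                congr 1
                push_cast
                ring
            _ ≤ (2 : ℝ) ^ (1 + (k : ℝ) / 2) := by
                apply Real.rpow_le_rpow_of_exponent_le (by norm_num)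
                linarith
            _ = 2 * (2 : ℝ) ^ ((k : ℝ) / 2) := by
                rw [Real.rpow_add (by norm_num), Real.rpow_one]
        exact mul_le_mul_of_nonneg_left h4 (by linarith)
    linarith
  have hRc : (R.card : ℝ) ≤ 4 * 2 ^ k := by
    rw [hR, card_range]
    have : 1 ≤ 2 ^ k := Nat.one_le_pow _ _ (by norm_num)
    have h2 : 2 ^ (k + 1) + 1 ≤ 4 * 2 ^ k := by rw [pow_succ]; omega
    exact_mod_cast h2
  calc (S.card : ℝ) ≤ ∑ v ∈ R ×ˢ R, ((Dv ((v.1 : ℤ) ^ 6 - (v.2 : ℤ) ^ 6)).card : ℝ) := by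
        exact_mod_cast hcard
    _ ≤ ∑ v ∈ R ×ˢ R, 2 * (A * (2 * (2 : ℝ) ^ ((k : ℝ) / 2))) := sum_le_sum hterm
    _ = (R.card : ℝ) * R.card * (2 * (A * (2 * (2 : ℝ) ^ ((k : ℝ) / 2)))) := by
        rw [sum_const, card_product, nsmul_eq_mul]
        push_cast
        ring
    _ ≤ (4 * 2 ^ k) * (4 * 2 ^ k) * (2 * (A * (2 * (2 : ℝ) ^ ((k : ℝ) / 2)))) := by
        have hA0 : 0 ≤ A := by linarith
        gcongr
    _ = 64 * A * (4 ^ k * (2 : ℝ) ^ ((k : ℝ) / 2)) := by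
        have : (4 : ℝ) ^ k = 2 ^ k * 2 ^ k := by rw [← mul_pow]; norm_num
        rw [this]
        ring

end Pool.Agent.Work.MP_43ce8a_nt.D
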