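import Pool.Agent.Work.MP_43ce8a_nt.D.FaCnt
import Pool.Agent.Work.MP_43ce8a_nt.D.BlkG

set_option autoImplicit false

/-!
Module FaOm (size M). For most members of a block the sum of 1/p over p ∣ disc is small. q = qq y.

PROOF. All p ∣ disc are > y. ∑_{x ∈ Blk} ∑_{p ∣ disc x} 1/p = ∑_{y < p ≤ 64^(k+1)} (1/p) card {x : p ∣ disc x}
≤ ∑ (1/p)(2^k/Q + 1) 3 (4^k/(Q p) + 1) (cnt_e with e = p, Q = 4 q; |disc| ≤ 64^(k+1) by disc_abs)
≤ 3 (2^k/Q + 1) (4^k/(Q y) + ∑_{p ≤ 64^(k+1)} 1/p), and ∑_{n ≤ 64^(k+1)} 1/n ≤ 1 + (k + 1) log 64. For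
2^k ≥ Q and k large: ≤ (7/y) 8^k/Q². Markov: the number of x with sum > δ is ≤ 7/(δ y) 8^k/Q² ≤
(1/8) 8^k/Q² when y ≥ 56/δ.
-/

namespace Pool.Agent.Work.MP_43ce8a_nt.D

open Finset

private theorem geo_small (c : ℝ) : ∃ k₀ : ℕ, ∀ k : ℕ, k₀ ≤ k → c * ((k : ℝ) + 2) ≤ 2 ^ k := by
  have h1 : Filter.Tendsto (fun k : ℕ => (k : ℝ) ^ 1 / 2 ^ k) Filter.atTop (nhds 0) := by
    have := tendsto_pow_const_div_const_pow_of_one_lt 1 (by norm_num : (1 : ℝ) < 2)
    exact this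
  have h0 : 0 < 1 / (3 * (|c| + 1)) := by positivity
  obtain ⟨k₀, hk⟩ := Filter.eventually_atTop.1
    ((h1.eventually (gt_mem_nhds h0)).and (Filter.eventually_ge_atTop 1))
  refine ⟨k₀, fun k hkk => ?_⟩
  obtain ⟨g, g1⟩ := hk k hkk
  have g1' : (1 : ℝ) ≤ k := by exact_mod_cast g1
  rw [pow_one, div_lt_div_iff₀ (by positivity) (by positivity)] at g
  have h3 : c ≤ |c| := le_abs_self c
  have h4 : 0 ≤ |c| := abs_nonneg c
  have h5 : c * ((k : ℝ) + 2) ≤ |c| * ((k : ℝ) + 2) :=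
    mul_le_mul_of_nonneg_right h3 (by positivity)
  nlinarith [mul_nonneg h4 (by linarith : (0 : ℝ) ≤ (k : ℝ) - 1)]

private theorem sum_inv_sq (y N : ℕ) (hy : 0 < y) (T : Finset ℕ) (hT : ∀ p ∈ T, y < p ∧ p ≤ N) :
    ∑ p ∈ T, 1 / ((p : ℝ) ^ 2) ≤ 1 / (y : ℝ) := by
  by_cases h : y ≤ N
  · calc ∑ p ∈ T, 1 / ((p : ℝ) ^ 2) ≤ ∑ p ∈ Ioc y N, 1 / ((p : ℝ) ^ 2) := by
          apply sum_le_sum_of_subset_of_nonneg
          · intro p hp
            exact mem_Ioc.2 (hT p hp)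
          · intro p _ _
            positivity
      _ ≤ 1 / (y : ℝ) := by
          have := sum_Ioc_inv_sq_le_sub (α := ℝ) (k := y) (n := N) (by omega) h
          have h2 : (0 : ℝ) ≤ (N : ℝ)⁻¹ := by positivity
          simp only [one_div]
          linarith
  · have : T = ∅ := by
      rw [eq_empty_iff_forall_notMem]
      intro p hp
      have := hT p hp
      omega
    rw [this, sum_empty]
    positivity

private theorem sum_inv (y N : ℕ) (T : Finset ℕ) (hT : ∀ p ∈ T, y < p ∧ p ≤ N) :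
    ∑ p ∈ T, 1 / (p : ℝ) ≤ 1 + Real.log N := by
  calc ∑ p ∈ T, 1 / (p : ℝ) ≤ ∑ p ∈ Icc 1 N, 1 / (p : ℝ) := by
        apply sum_le_sum_of_subset_of_nonneg
        · intro p hp
          have := hT p hp
          exact mem_Icc.2 ⟨by omega, this.2⟩
        · intro p _ _
          positivity
    _ ≤ 1 + Real.log N := by
        have h := harmonic_le_one_add_log N
        rw [harmonic_eq_sum_Icc] at h
        push_cast at h
        simpa [one_div] using h

private theorem pf_gt {y r0 k p : ℕ} {x : ℕ × ℕ} (hy : 2 ≤ y) (hr : GoodR (qq y) r0)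
    (hx : x ∈ Blk (qq y) r0 k) (hp : p.Prime) (hd : (p : ℤ) ∣ disc x.1 x.2) : y < p := by
  by_contra hle
  have h1 : p ∣ qq y := (prime_dvd_qq hy hp).2 (by omega)
  have h2 : (p : ℤ) ∣ (qq y : ℤ) := by exact_mod_cast h1
  have h3 := disc_mod hx
  have h4 : (p : ℤ) ∣ ((4 * qq y : ℕ) : ℤ) := by
    push_cast
    exact Dvd.dvd.mul_left h2 _
  have h5 : (p : ℤ) ∣ 1 - 4 * (r0 : ℤ) ^ 3 := by
    have := dvd_sub hd (h4.trans h3)
    simpa using this
  have h6 := hr.cop.isUnit_of_dvd' h5 h2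
  exact (Nat.prime_iff_prime_int.1 hp).not_isUnit h6

open Classical in
theorem om_most (δ : ℝ) (hδ : 0 < δ) : ∃ y₀ : ℕ, ∀ y r0 : ℕ, y₀ ≤ y → GoodR (qq y) r0 →
    ∃ k₀ : ℕ, ∀ k : ℕ, k₀ ≤ k →
      (((Blk (qq y) r0 k).filter fun x =>
        δ < ∑ p ∈ (disc x.1 x.2).natAbs.primeFactors, 1 / (p : ℝ)).card : ℝ) ≤
        1 / 8 * (8 ^ k / (4 * (qq y : ℝ)) ^ 2) := by
  refine ⟨max 64 ⌈96 / δ⌉₊, fun y r0 hy hr => ?_⟩
  have hy64 : 64 ≤ y := le_trans (le_max_left _ _) hy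
  have hyδ : 96 / δ ≤ y := (Nat.le_ceil _).trans (by exact_mod_cast le_trans (le_max_right _ _) hy)
  have hy0 : (0 : ℝ) < y := by
    have : (64 : ℝ) ≤ y := by exact_mod_cast hy64
    linarith
  set q := qq y with hq
  have hq0 : 0 < q := qq_pos y
  have h2q : 2 ∣ q := ⟨q / 2, by have := (qq_half y).2; omega⟩
  set Q : ℝ := 4 * (q : ℝ) with hQ
  have hq1 : (1 : ℝ) ≤ q := by exact_mod_cast hq0
  have hQ1 : 4 ≤ Q := by rw [hQ]; linarith
  have hQ0 : 0 < Q := by linarith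
  obtain ⟨k₁, hk₁⟩ := geo_small (30 * Q * (16 / δ))
  refine ⟨max k₁ (4 * q), fun k hk => ?_⟩
  have hkk₁ : k₁ ≤ k := le_trans (le_max_left _ _) hk
  have hkq : 4 * q ≤ k := le_trans (le_max_right _ _) hk
  have hk2 : k ≤ 2 ^ k := Nat.lt_two_pow_self.le
  have hk2' : Q ≤ 2 ^ k := by
    rw [hQ]
    exact_mod_cast hkq.trans hk2
  set TP := (Ioc y (64 ^ (k + 1))).filter Nat.Prime with hTP
  set S := (Blk q r0 k).filter fun x =>
        δ < ∑ p ∈ (disc x.1 x.2).natAbs.primeFactors, 1 / (p : ℝ) with hS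
  have hfac : (2 : ℝ) ^ k / Q + 1 ≤ 2 * (2 ^ k / Q) := by
    have : 1 ≤ (2 : ℝ) ^ k / Q := by rw [le_div_iff₀ hQ0]; linarith
    linarith
  have hlogN : Real.log ((64 ^ (k + 1) : ℕ) : ℝ) ≤ 5 * (k + 1) := by
    push_cast
    rw [Real.log_pow]
    push_cast
    have h64 : Real.log 64 ≤ 5 := by
      have : (64 : ℝ) = 2 ^ 6 := by norm_num
      rw [this, Real.log_pow]
      push_cast
      linarith [Real.log_two_lt_d9]
    have hk0 : (0 : ℝ) ≤ (k : ℝ) + 1 := by positivity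
    nlinarith
  have hmark : δ * (S.card : ℝ) ≤ ∑ x ∈ Blk q r0 k,
      ∑ p ∈ (disc x.1 x.2).natAbs.primeFactors, 1 / (p : ℝ) := by
    calc δ * (S.card : ℝ) = ∑ x ∈ S, δ := by rw [sum_const, nsmul_eq_mul, mul_comm]
      _ ≤ ∑ x ∈ S, ∑ p ∈ (disc x.1 x.2).natAbs.primeFactors, 1 / (p : ℝ) := by
          apply sum_le_sum
          intro x hx
          exact (mem_filter.1 hx).2.le
      _ ≤ ∑ x ∈ Blk q r0 k, ∑ p ∈ (disc x.1 x.2).natAbs.primeFactors, 1 / (p : ℝ) := by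
          apply sum_le_sum_of_subset_of_nonneg (filter_subset _ _)
          intro x _ _
          positivity
  have hswap : ∑ x ∈ Blk q r0 k, ∑ p ∈ (disc x.1 x.2).natAbs.primeFactors, 1 / (p : ℝ) ≤
      ∑ p ∈ TP, (1 / (p : ℝ)) *
        (((Blk q r0 k).filter fun x => (p : ℤ) ∣ disc x.1 x.2).card : ℝ) := by
    calc ∑ x ∈ Blk q r0 k, ∑ p ∈ (disc x.1 x.2).natAbs.primeFactors, 1 / (p : ℝ)
        ≤ ∑ x ∈ Blk q r0 k, ∑ p ∈ TP, if (p : ℤ) ∣ disc x.1 x.2 then 1 / (p : ℝ) else 0 := by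
          apply sum_le_sum
          intro x hx
          rw [← sum_filter]
          apply sum_le_sum_of_subset_of_nonneg
          · intro p hp
            have hpp := Nat.prime_of_mem_primeFactors hp
            have hpd := Nat.dvd_of_mem_primeFactors hp
            have hpd' : (p : ℤ) ∣ disc x.1 x.2 := Int.natCast_dvd.2 hpd
            have hgt := pf_gt (by omega) hr hx hpp hpd'
            have hle := Nat.le_of_dvd (Nat.pos_of_ne_zero (by
              intro h0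
              rw [h0] at hp
              simp at hp)) hpd
            rw [mem_filter, hTP, mem_filter, mem_Ioc]
            exact ⟨⟨⟨hgt, hle.trans (disc_abs hx)⟩, hpp⟩, hpd'⟩
          · intro p _ _
            positivity
      _ = ∑ p ∈ TP, ∑ x ∈ Blk q r0 k, if (p : ℤ) ∣ disc x.1 x.2 then 1 / (p : ℝ) else 0 :=
          sum_comm
      _ = ∑ p ∈ TP, (1 / (p : ℝ)) *
        (((Blk q r0 k).filter fun x => (p : ℤ) ∣ disc x.1 x.2).card : ℝ) := by
          apply sum_congr rfl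
          intro p _
          rw [← sum_filter, sum_const, nsmul_eq_mul, mul_comm]
  have hmain : ∑ p ∈ TP, (1 / (p : ℝ)) *
        (((Blk q r0 k).filter fun x => (p : ℤ) ∣ disc x.1 x.2).card : ℝ) ≤
      6 * (8 ^ k / Q ^ 2) * (1 / y) + 6 * (2 ^ k / Q) * (5 * (k + 2)) := by
    calc ∑ p ∈ TP, (1 / (p : ℝ)) *
        (((Blk q r0 k).filter fun x => (p : ℤ) ∣ disc x.1 x.2).card : ℝ)
        ≤ ∑ p ∈ TP, (6 * (8 ^ k / Q ^ 2) * (1 / (p : ℝ) ^ 2) +
          6 * (2 ^ k / Q) * (1 / (p : ℝ))) := by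
          apply sum_le_sum
          intro p hp
          rw [hTP, mem_filter, mem_Ioc] at hp
          have hpp := hp.2
          have hp0 : (0 : ℝ) < p := by exact_mod_cast hpp.pos
          have hcq : p.Coprime q := by
            rw [hpp.coprime_iff_not_dvd]
            intro h
            have := (prime_dvd_qq (y := y) (by omega) hpp).1 h
            omega
          have hc3 : p.Coprime 3 := by
            rw [hpp.coprime_iff_not_dvd]
            intro h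
            have := Nat.le_of_dvd (by norm_num) h
            omega
          have h := cnt_e q r0 k p hq0 h2q hpp.squarefree hcq hc3
          rw [hpp.primeFactors, card_singleton, pow_one] at h
          have e : (4 : ℝ) ^ k / (4 * q * (p : ℝ)) = (4 : ℝ) ^ k / Q * (1 / (p : ℝ)) := by
            rw [hQ]
            field_simp
          rw [e] at h
          have h' : (((Blk q r0 k).filter fun x => (p : ℤ) ∣ disc x.1 x.2).card : ℝ) ≤
              (2 * (2 ^ k / Q)) * (3 * (4 ^ k / Q * (1 / (p : ℝ)) + 1)) := by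
            refine h.trans ?_
            apply mul_le_mul_of_nonneg_right _ (by positivity)
            exact hfac
          calc (1 / (p : ℝ)) * (((Blk q r0 k).filter fun x => (p : ℤ) ∣ disc x.1 x.2).card : ℝ)
              ≤ (1 / (p : ℝ)) * ((2 * (2 ^ k / Q)) * (3 * (4 ^ k / Q * (1 / (p : ℝ)) + 1))) :=
                mul_le_mul_of_nonneg_left h' (by positivity)
            _ = 6 * (8 ^ k / Q ^ 2) * (1 / (p : ℝ) ^ 2) + 6 * (2 ^ k / Q) * (1 / (p : ℝ)) := by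
                have h8 : (8 : ℝ) ^ k = 2 ^ k * 4 ^ k := by rw [← mul_pow]; norm_num
                rw [h8]
                field_simp
                ring
      _ = 6 * (8 ^ k / Q ^ 2) * ∑ p ∈ TP, (1 / (p : ℝ) ^ 2) +
          6 * (2 ^ k / Q) * ∑ p ∈ TP, (1 / (p : ℝ)) := by
          rw [sum_add_distrib, mul_sum, mul_sum]
      _ ≤ 6 * (8 ^ k / Q ^ 2) * (1 / y) + 6 * (2 ^ k / Q) * (5 * (k + 2)) := by
          have e1 : ∑ p ∈ TP, (1 / ((p : ℝ) ^ 2)) ≤ 1 / (y : ℝ) := by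
            apply sum_inv_sq y (64 ^ (k + 1)) (by omega) TP
            intro p hp
            rw [hTP, mem_filter, mem_Ioc] at hp
            exact hp.1
          have e2 : ∑ p ∈ TP, (1 / (p : ℝ)) ≤ 5 * (k + 2) := by
            refine (sum_inv y (64 ^ (k + 1)) TP ?_).trans ?_
            · intro p hp
              rw [hTP, mem_filter, mem_Ioc] at hp
              exact hp.1
            · linarith
          gcongr
  have h1 : 6 * ((8 : ℝ) ^ k / Q ^ 2) * (1 / y) ≤ δ / 16 * (8 ^ k / Q ^ 2) := by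
    have : 6 * (1 / (y : ℝ)) ≤ δ / 16 := by
      rw [div_le_iff₀ hδ] at hyδ
      rw [mul_one_div, div_le_div_iff₀ hy0 (by norm_num)]
      linarith
    calc 6 * ((8 : ℝ) ^ k / Q ^ 2) * (1 / y) = (6 * (1 / (y : ℝ))) * (8 ^ k / Q ^ 2) := by ring
      _ ≤ δ / 16 * (8 ^ k / Q ^ 2) := mul_le_mul_of_nonneg_right this (by positivity)
  have h2 : 6 * ((2 : ℝ) ^ k / Q) * (5 * (k + 2)) ≤ δ / 16 * (8 ^ k / Q ^ 2) := by
    have h := hk₁ k hkk₁
    have h24 : (2 : ℝ) ^ k ≤ 4 ^ k := by gcongr; norm_num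
    have h3 : 30 * Q * (16 / δ) * ((k : ℝ) + 2) ≤ 4 ^ k := h.trans h24
    have h4 : 30 * Q * ((k : ℝ) + 2) ≤ δ / 16 * 4 ^ k := by
      have e : 30 * Q * ((k : ℝ) + 2) = δ / 16 * (30 * Q * (16 / δ) * ((k : ℝ) + 2)) := by
        field_simp
      rw [e]
      exact mul_le_mul_of_nonneg_left h3 (by positivity)
    have h8 : (8 : ℝ) ^ k = 2 ^ k * 4 ^ k := by rw [← mul_pow]; norm_num
    calc 6 * ((2 : ℝ) ^ k / Q) * (5 * (k + 2)) = (2 ^ k / Q ^ 2) * (30 * Q * ((k : ℝ) + 2)) := by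
          field_simp
          ring
      _ ≤ (2 ^ k / Q ^ 2) * (δ / 16 * 4 ^ k) := mul_le_mul_of_nonneg_left h4 (by positivity)
      _ = δ / 16 * (8 ^ k / Q ^ 2) := by rw [h8]; ring
  have h3 : δ * (S.card : ℝ) ≤ δ * (1 / 8 * (8 ^ k / Q ^ 2)) := by
    have := hmark.trans (hswap.trans hmain)
    linarith
  exact le_of_mul_le_mul_left h3 hδ

end Pool.Agent.Work.MP_43ce8a_nt.D
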