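import Pool.Agent.Work.MP_43ce8a_nt.D.FaSqf
import Pool.Agent.Work.MP_43ce8a_nt.D.FaOm
import Pool.Agent.Work.MP_43ce8a_nt.D.FaDist

set_option autoImplicit false

/-!
Module FaBlock (size S-M). The good members of a block.

PROOF. card Blk ≥ (2^k/Q - 1)(4^k/Q - 1) ≥ (7/8) 8^k/Q² for large k (blk_card_ge), minus the three
exceptional sets: sqf_most, om_most (≤ 1/8 each), dist_most (≤ C 8^k 2^(-k/2) ≤ (1/8) 8^k/Q² for large k).
-/

namespace Pool.Agent.Work.MP_43ce8a_nt.D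

open Finset

open Classical in
/-- good members of a block -/
noncomputable def Gk (δ : ℝ) (q r0 k : ℕ) : Finset (ℕ × ℕ) :=
  (Blk q r0 k).filter fun x => Squarefree (disc x.1 x.2) ∧
    ∑ p ∈ (disc x.1 x.2).natAbs.primeFactors, 1 / (p : ℝ) ≤ δ ∧
    ∀ k' x', k' ≤ k → x' ∈ Blk q r0 k' → (k', x') ≠ (k, x) → disc x'.1 x'.2 ≠ disc x.1 x.2

theorem gk_card (δ : ℝ) (hδ : 0 < δ) : ∃ y₀ : ℕ, ∀ y r0 : ℕ, y₀ ≤ y → GoodR (qq y) r0 →
    ∃ k₀ : ℕ, ∀ k : ℕ, k₀ ≤ k → 1 / 2 * (8 ^ k / (4 * (qq y : ℝ)) ^ 2) ≤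
      ((Gk δ (qq y) r0 k).card : ℝ) := by
  classical
  obtain ⟨y₁, hy₁⟩ := om_most δ hδ
  obtain ⟨C, hC0, hC⟩ := dist_most
  refine ⟨max 64 y₁, fun y r0 hy hr => ?_⟩
  have hy64 : 64 ≤ y := le_trans (le_max_left _ _) hy
  obtain ⟨k₁, hk₁⟩ := hy₁ y r0 (le_trans (le_max_right _ _) hy) hr
  obtain ⟨k₂, hk₂⟩ := sqf_most y r0 hy64 hr
  set q := qq y with hq
  have hq0 : 0 < q := qq_pos y
  set Q : ℝ := 4 * (q : ℝ) with hQ
  have hq1 : (1 : ℝ) ≤ q := by exact_mod_cast hq0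
  have hQ1 : 4 ≤ Q := by rw [hQ]; linarith
  have hQ0 : 0 < Q := by linarith
  refine ⟨max (max k₁ k₂) (max (64 * q) ⌈(8 * C * Q ^ 2) ^ 2⌉₊), fun k hk => ?_⟩
  have a1 : k₁ ≤ k := le_trans (le_trans (le_max_left _ _) (le_max_left _ _)) hk
  have a2 : k₂ ≤ k := le_trans (le_trans (le_max_right _ _) (le_max_left _ _)) hk
  have a3 : 64 * q ≤ k := le_trans (le_trans (le_max_left _ _) (le_max_right _ _)) hk
  have a4 : ⌈(8 * C * Q ^ 2) ^ 2⌉₊ ≤ k := le_trans (le_trans (le_max_right _ _) (le_max_right _ _)) hk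
  have a5 : (8 * C * Q ^ 2) ^ 2 ≤ (k : ℝ) := (Nat.le_ceil _).trans (by exact_mod_cast a4)
  have hk2 : k ≤ 2 ^ k := Nat.lt_two_pow_self.le
  have hk2' : (k : ℝ) ≤ 2 ^ k := by exact_mod_cast hk2
  have h16 : 16 * Q ≤ 2 ^ k := by
    rw [hQ]
    have : (64 * q : ℝ) ≤ k := by exact_mod_cast a3
    linarith
  have h8 : (8 : ℝ) ^ k = 2 ^ k * 4 ^ k := by rw [← mul_pow]; norm_num
  have h24 : (2 : ℝ) ^ k ≤ 4 ^ k := by gcongr; norm_num
  have h4p : (0 : ℝ) < 4 ^ k := by positivity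
  -- lower bound for the block
  have hblk : 7 / 8 * ((8 : ℝ) ^ k / Q ^ 2) ≤ ((Blk q r0 k).card : ℝ) := by
    have h := blk_card_ge q r0 k hq0 (by omega)
    rw [← hQ] at h
    refine le_trans ?_ h
    have e : ((2 : ℝ) ^ k / Q - 1) * (4 ^ k / Q - 1) = 8 ^ k / Q ^ 2 - (2 ^ k + 4 ^ k) / Q + 1 := by
      rw [h8]
      field_simp
      ring
    rw [e]
    have h2 : ((2 : ℝ) ^ k + 4 ^ k) / Q ≤ 1 / 8 * (8 ^ k / Q ^ 2) := by
      rw [h8, ← mul_div_assoc, div_le_div_iff₀ hQ0 (by positivity)]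
      have h3 : ((2 : ℝ) ^ k + 4 ^ k) * Q ^ 2 ≤ (2 * 4 ^ k) * Q ^ 2 := by
        apply mul_le_mul_of_nonneg_right _ (by positivity)
        linarith
      have h4 : (16 * Q) * (4 ^ k * Q) ≤ 2 ^ k * (4 ^ k * Q) :=
        mul_le_mul_of_nonneg_right h16 (by positivity)
      nlinarith
    linarith
  -- coincidences
  have hdist : C * ((4 : ℝ) ^ k * (2 : ℝ) ^ ((k : ℝ) / 2)) ≤ 1 / 8 * (8 ^ k / Q ^ 2) := by
    set w : ℝ := (2 : ℝ) ^ ((k : ℝ) / 2) with hw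
    have hw0 : 0 < w := by positivity
    have hww : w * w = 2 ^ k := by
      rw [hw, ← Real.rpow_add (by norm_num), ← Real.rpow_natCast]
      congr 1
      ring
    have hwc : 8 * C * Q ^ 2 ≤ w := by
      by_contra hlt
      push Not at hlt
      have : w * w < (8 * C * Q ^ 2) ^ 2 := by nlinarith
      linarith
    rw [h8, ← hww, ← mul_div_assoc, le_div_iff₀ (by positivity)]
    have : (8 * C * Q ^ 2) * (w * 4 ^ k) ≤ w * (w * 4 ^ k) :=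
      mul_le_mul_of_nonneg_right hwc (by positivity)
    linarith
  have hsub : Blk q r0 k ⊆ Gk δ q r0 k ∪
      (((Blk q r0 k).filter fun x => ¬ Squarefree (disc x.1 x.2)) ∪
      (((Blk q r0 k).filter fun x =>
        δ < ∑ p ∈ (disc x.1 x.2).natAbs.primeFactors, 1 / (p : ℝ)) ∪
      ((Blk q r0 k).filter fun x => ∃ k' x', k' ≤ k ∧ x' ∈ Blk q r0 k' ∧ (k', x') ≠ (k, x) ∧
        disc x'.1 x'.2 = disc x.1 x.2))) := by
    intro x hx
    simp only [mem_union, mem_filter, Gk]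
    by_cases b1 : Squarefree (disc x.1 x.2)
    · by_cases b2 : δ < ∑ p ∈ (disc x.1 x.2).natAbs.primeFactors, 1 / (p : ℝ)
      · exact Or.inr (Or.inr (Or.inl ⟨hx, b2⟩))
      · by_cases b3 : ∃ k' x', k' ≤ k ∧ x' ∈ Blk q r0 k' ∧ (k', x') ≠ (k, x) ∧
          disc x'.1 x'.2 = disc x.1 x.2
        · exact Or.inr (Or.inr (Or.inr ⟨hx, b3⟩))
        · refine Or.inl ⟨hx, b1, not_lt.1 b2, fun k' x' c1 c2 c3 c4 => b3 ⟨k', x', c1, c2, c3, c4⟩⟩
    · exact Or.inr (Or.inl ⟨hx, b1⟩)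
  have hc1 := (card_le_card hsub).trans (card_union_le _ _)
  have hc2 := card_union_le ((Blk q r0 k).filter fun x => ¬ Squarefree (disc x.1 x.2))
      (((Blk q r0 k).filter fun x =>
        δ < ∑ p ∈ (disc x.1 x.2).natAbs.primeFactors, 1 / (p : ℝ)) ∪
      ((Blk q r0 k).filter fun x => ∃ k' x', k' ≤ k ∧ x' ∈ Blk q r0 k' ∧ (k', x') ≠ (k, x) ∧
        disc x'.1 x'.2 = disc x.1 x.2))
  have hc3 := card_union_le ((Blk q r0 k).filter fun x =>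
        δ < ∑ p ∈ (disc x.1 x.2).natAbs.primeFactors, 1 / (p : ℝ))
      ((Blk q r0 k).filter fun x => ∃ k' x', k' ≤ k ∧ x' ∈ Blk q r0 k' ∧ (k', x') ≠ (k, x) ∧
        disc x'.1 x'.2 = disc x.1 x.2)
  have hc4 := hc1.trans (Nat.add_le_add_left (hc2.trans (Nat.add_le_add_left hc3 _)) _)
  have hc5 := (Nat.cast_le (α := ℝ)).2 hc4
  rw [Nat.cast_add, Nat.cast_add, Nat.cast_add] at hc5
  have g1 := hk₁ k a1
  have g2 := hk₂ k a2
  have g3 := (hC q r0 k hq0).trans hdist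
  linarith

end Pool.Agent.Work.MP_43ce8a_nt.D
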