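import Pool.Agent.Work.MP_43ce8a_nt.D.BlkDefs

set_option autoImplicit false

/-!
Module FaCnt (size M). Counting in a block. disc B r = B⁶ - 4 r³, q even, positive.

blk_card: number of B in (2^k, 2^(k+1)], B ≡ 1 mod 4 q, is 2^k/(4 q) + O(1), of r: 4^k/(4 q) + O(1).
cnt_e: e squarefree, prime to q and to 3 (and odd since q is even). For fixed B the congruence
4 r³ ≡ B⁶ mod e has at most 3^ω(e) solutions r mod e (CRT; mod a prime p ≥ 5 a cubic polynomial with
nonzero leading coefficient has at most 3 roots), and with r ≡ r0 mod 4 q each of them gives one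
class mod 4 q e, at most 4^k/(4 q e) + 1 elements in (4^k, 2 * 4^k].
cnt_sq: p ≥ 5 prime, p ∤ q, p ∤ B: 4 r³ ≡ B⁶ mod p² has at most 3 solutions mod p² (each root mod p is
simple: derivative 12 r² is a unit; if r, r' ≡ the same root mod p then r³ ≡ r'³ mod p² gives
(r - r')(r² + r r' + r'²) ≡ 0 mod p² with second factor ≡ 3 r² a unit).
cnt_both: both coordinates in one class mod p: classes mod 4 q p.
-/

namespace Pool.Agent.Work.MP_43ce8a_nt.D

open Finset

private theorem cls_card (a b m v : ℕ) (hab : a ≤ b) (hm : 0 < m) :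
    (((Ioc a b).filter fun x => x % m = v).card : ℝ) ≤ ((b : ℝ) - a) / m + 1 ∧
    (v < m → ((b : ℝ) - a) / m - 1 ≤ (((Ioc a b).filter fun x => x % m = v).card : ℝ)) := by
  by_cases hv : v < m
  · have e : ((Ioc a b).filter fun x => x % m = v) = {x ∈ Ioc a b | x ≡ v [MOD m]} := by
      apply filter_congr
      intro x _
      unfold Nat.ModEq
      rw [Nat.mod_eq_of_lt hv]
    have h := Nat.Ioc_filter_modEq_card a b hm v
    rw [← e] at h
    have hm' : (0 : ℚ) < m := by exact_mod_cast hm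
    set X : ℚ := ((b : ℚ) - v) / m with hX
    set Y : ℚ := ((a : ℚ) - v) / m with hY
    have hXY : Y ≤ X := by
      rw [hX, hY]
      have : (a : ℚ) ≤ b := by exact_mod_cast hab
      gcongr
    have hfl : ⌊Y⌋ ≤ ⌊X⌋ := Int.floor_mono hXY
    rw [max_eq_left (by omega)] at h
    have hd : X - Y = ((b : ℚ) - a) / m := by
      rw [hX, hY]; ring
    have h1 := Int.floor_le X
    have h2 := Int.lt_floor_add_one X
    have h3 := Int.floor_le Y
    have h4 := Int.lt_floor_add_one Y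
    have hq : ((((Ioc a b).filter fun x => x % m = v).card : ℕ) : ℚ) = (⌊X⌋ : ℚ) - ⌊Y⌋ := by
      exact_mod_cast h
    have u1 : ((((Ioc a b).filter fun x => x % m = v).card : ℕ) : ℚ) ≤ ((b : ℚ) - a) / m + 1 := by
      rw [hq, ← hd]; linarith
    have u2 : ((b : ℚ) - a) / m - 1 ≤ ((((Ioc a b).filter fun x => x % m = v).card : ℕ) : ℚ) := by
      rw [hq, ← hd]; linarith
    have w1 := (Rat.cast_le (K := ℝ)).2 u1
    have w2 := (Rat.cast_le (K := ℝ)).2 u2
    push_cast at w1 w2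
    exact ⟨w1, fun _ => w2⟩
  · refine ⟨?_, fun h => absurd h hv⟩
    have e : ((Ioc a b).filter fun x => x % m = v) = ∅ := by
      apply filter_eq_empty_iff.2
      intro x _ h
      exact hv (h ▸ Nat.mod_lt _ hm)
    rw [e, card_empty]
    have : (a : ℝ) ≤ b := by exact_mod_cast hab
    have : 0 ≤ ((b : ℝ) - a) / m := div_nonneg (by linarith) (by positivity)
    push_cast
    linarith

private theorem blk_eq (q r0 k : ℕ) : Blk q r0 k =
    ((Ioc (2 ^ k) (2 ^ (k + 1))).filter fun x => x % (4 * q) = 1) ×ˢ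
      ((Ioc (4 ^ k) (2 * 4 ^ k)).filter fun x => x % (4 * q) = r0 % (4 * q)) := by
  ext ⟨x, y⟩
  simp only [Blk, mem_filter, mem_product]
  tauto

private theorem len2 (k : ℕ) : (((2 ^ (k + 1) : ℕ) : ℝ) - ((2 ^ k : ℕ) : ℝ)) = 2 ^ k := by
  push_cast
  ring

private theorem len4 (k : ℕ) : (((2 * 4 ^ k : ℕ) : ℝ) - ((4 ^ k : ℕ) : ℝ)) = 4 ^ k := by
  push_cast
  ring

private theorem le2 (k : ℕ) : 2 ^ k ≤ 2 ^ (k + 1) := Nat.pow_le_pow_right (by norm_num) (by omega)

private theorem le4 (k : ℕ) : 4 ^ k ≤ 2 * 4 ^ k := by omega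

theorem blk_card_le (q r0 k : ℕ) (hq : 0 < q) :
    ((Blk q r0 k).card : ℝ) ≤ (2 ^ k / (4 * q) + 1) * (4 ^ k / (4 * q) + 1) := by
  rw [blk_eq, card_product]
  have h1 := (cls_card (2 ^ k) (2 ^ (k + 1)) (4 * q) 1 (le2 k) (by omega)).1
  have h2 := (cls_card (4 ^ k) (2 * 4 ^ k) (4 * q) (r0 % (4 * q)) (le4 k) (by omega)).1
  rw [len2] at h1
  rw [len4] at h2
  push_cast at h1 h2 ⊢
  exact mul_le_mul h1 h2 (by positivity) (by positivity)

theorem blk_card_ge (q r0 k : ℕ) (hq : 0 < q) (hk : 4 * q ≤ 2 ^ k) :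
    (2 ^ k / (4 * (q : ℝ)) - 1) * (4 ^ k / (4 * q) - 1) ≤ ((Blk q r0 k).card : ℝ) := by
  rw [blk_eq, card_product]
  have h1 := (cls_card (2 ^ k) (2 ^ (k + 1)) (4 * q) 1 (le2 k) (by omega)).2 (by omega)
  have h2 := (cls_card (4 ^ k) (2 * 4 ^ k) (4 * q) (r0 % (4 * q)) (le4 k) (by omega)).2
    (Nat.mod_lt _ (by omega))
  rw [len2] at h1
  rw [len4] at h2
  push_cast at h1 h2 ⊢
  have hq' : (0 : ℝ) < 4 * q := by positivity
  have hk' : (4 * (q : ℝ)) ≤ 2 ^ k := by exact_mod_cast hk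
  have h4 : (2 : ℝ) ^ k ≤ 4 ^ k := by gcongr; norm_num
  have g1 : 0 ≤ (2 : ℝ) ^ k / (4 * (q : ℝ)) - 1 := by
    rw [sub_nonneg, le_div_iff₀ hq']; linarith
  have g2 : 0 ≤ (4 : ℝ) ^ k / (4 * (q : ℝ)) - 1 := by
    rw [sub_nonneg, le_div_iff₀ hq']; linarith
  exact mul_le_mul h1 h2 g2 (le_trans g1 h1)

/-- the fibre over one B: r in a class mod 4 q and in one of few classes mod m -/
private theorem fib_le (q r0 k m : ℕ) (hq : 0 < q) (hm : 0 < m) (hc : Nat.Coprime (4 * q) m)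
    (T : Finset ℕ) (P : ℕ → Prop) [DecidablePred P] (hT : ∀ r, P r → r % m ∈ T) :
    (((Ioc (4 ^ k) (2 * 4 ^ k)).filter fun r => r % (4 * q) = r0 % (4 * q) ∧ P r).card : ℝ) ≤
      T.card * (4 ^ k / (4 * q * m) + 1) := by
  have hsub : ((Ioc (4 ^ k) (2 * 4 ^ k)).filter fun r => r % (4 * q) = r0 % (4 * q) ∧ P r) ⊆
      T.biUnion fun t => (Ioc (4 ^ k) (2 * 4 ^ k)).filter fun r =>
        r % (4 * q * m) = (Nat.chineseRemainder hc r0 t : ℕ) % (4 * q * m) := by
    intro r hr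
    rw [mem_filter] at hr
    rw [mem_biUnion]
    refine ⟨r % m, hT r hr.2.2, ?_⟩
    rw [mem_filter]
    refine ⟨hr.1, ?_⟩
    have h := (Nat.chineseRemainder hc r0 (r % m)).2
    have h1 : r ≡ (Nat.chineseRemainder hc r0 (r % m) : ℕ) [MOD 4 * q] :=
      Nat.ModEq.trans hr.2.1 h.1.symm
    have h2 : r ≡ (Nat.chineseRemainder hc r0 (r % m) : ℕ) [MOD m] :=
      Nat.ModEq.trans (Nat.mod_modEq r m).symm h.2.symm
    exact (Nat.modEq_and_modEq_iff_modEq_mul hc).1 ⟨h1, h2⟩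
  calc (((Ioc (4 ^ k) (2 * 4 ^ k)).filter fun r => r % (4 * q) = r0 % (4 * q) ∧ P r).card : ℝ)
      ≤ ((T.biUnion fun t => (Ioc (4 ^ k) (2 * 4 ^ k)).filter fun r =>
        r % (4 * q * m) = (Nat.chineseRemainder hc r0 t : ℕ) % (4 * q * m)).card : ℝ) := by
        exact_mod_cast card_le_card hsub
    _ ≤ ∑ t ∈ T, (((Ioc (4 ^ k) (2 * 4 ^ k)).filter fun r =>
        r % (4 * q * m) = (Nat.chineseRemainder hc r0 t : ℕ) % (4 * q * m)).card : ℝ) := by
        exact_mod_cast card_biUnion_le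
    _ ≤ ∑ t ∈ T, ((4 : ℝ) ^ k / (4 * q * m) + 1) := by
        apply sum_le_sum
        intro t _
        have h2 := (cls_card (4 ^ k) (2 * 4 ^ k) (4 * q * m)
          ((Nat.chineseRemainder hc r0 t : ℕ) % (4 * q * m)) (le4 k) (by positivity)).1
        rw [len4] at h2
        push_cast at h2
        exact h2
    _ = T.card * (4 ^ k / (4 * q * m) + 1) := by
        rw [sum_const, nsmul_eq_mul]

/-- sum over the fibres -/
private theorem sum_fib (q r0 k : ℕ) (hq : 0 < q) (P : ℕ → ℕ → Prop)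
    [∀ B, DecidablePred (P B)] [DecidablePred fun x : ℕ × ℕ => P x.1 x.2] (K : ℝ)
    (h0 : 0 ≤ K)
    (h : ∀ B, (((Ioc (4 ^ k) (2 * 4 ^ k)).filter fun r =>
      r % (4 * q) = r0 % (4 * q) ∧ P B r).card : ℝ) ≤ K) :
    (((Blk q r0 k).filter fun x => P x.1 x.2).card : ℝ) ≤ (2 ^ k / (4 * q) + 1) * K := by
  have hsub : ((Blk q r0 k).filter fun x => P x.1 x.2) ⊆
      ((Ioc (2 ^ k) (2 ^ (k + 1))).filter fun x => x % (4 * q) = 1).biUnion fun B =>
        ((Ioc (4 ^ k) (2 * 4 ^ k)).filter fun r => r % (4 * q) = r0 % (4 * q) ∧ P B r).image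
          fun r => (B, r) := by
    rintro ⟨B, r⟩ hx
    rw [mem_filter, blk_eq, mem_product] at hx
    obtain ⟨⟨h1, h2⟩, h3⟩ := hx
    rw [mem_biUnion]
    refine ⟨B, h1, ?_⟩
    rw [mem_image]
    simp only at h2 h3
    rw [mem_filter] at h2
    exact ⟨r, mem_filter.2 ⟨h2.1, h2.2, h3⟩, rfl⟩
  calc (((Blk q r0 k).filter fun x => P x.1 x.2).card : ℝ)
      ≤ ((((Ioc (2 ^ k) (2 ^ (k + 1))).filter fun x => x % (4 * q) = 1).biUnion fun B =>
        ((Ioc (4 ^ k) (2 * 4 ^ k)).filter fun r => r % (4 * q) = r0 % (4 * q) ∧ P B r).image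
          fun r => (B, r)).card : ℝ) := by exact_mod_cast card_le_card hsub
    _ ≤ ∑ B ∈ ((Ioc (2 ^ k) (2 ^ (k + 1))).filter fun x => x % (4 * q) = 1),
        ((((Ioc (4 ^ k) (2 * 4 ^ k)).filter fun r => r % (4 * q) = r0 % (4 * q) ∧ P B r).image
          fun r => (B, r)).card : ℝ) := by exact_mod_cast card_biUnion_le
    _ ≤ ∑ B ∈ ((Ioc (2 ^ k) (2 ^ (k + 1))).filter fun x => x % (4 * q) = 1), K := by
        apply sum_le_sum
        intro B _
        refine le_trans ?_ (h B)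
        exact_mod_cast card_image_le
    _ = (((Ioc (2 ^ k) (2 ^ (k + 1))).filter fun x => x % (4 * q) = 1).card : ℝ) * K := by
        rw [sum_const, nsmul_eq_mul]
    _ ≤ (2 ^ k / (4 * q) + 1) * K := by
        have h1 := (cls_card (2 ^ k) (2 ^ (k + 1)) (4 * q) 1 (le2 k) (by omega)).1
        rw [len2] at h1
        push_cast at h1
        exact mul_le_mul_of_nonneg_right h1 h0

/-- residues mod m solving 4 t³ ≡ b -/
def cubRt (b : ℤ) (m : ℕ) : Finset ℕ := (range m).filter fun t => (m : ℤ) ∣ b - 4 * (t : ℤ) ^ 3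

theorem mem_cubRt_mod {b : ℤ} {m : ℕ} (hm : 0 < m) {r : ℕ} (h : (m : ℤ) ∣ b - 4 * (r : ℤ) ^ 3) :
    r % m ∈ cubRt b m := by
  rw [cubRt, mem_filter, mem_range]
  refine ⟨Nat.mod_lt _ hm, ?_⟩
  have e : ((r % m : ℕ) : ℤ) ≡ (r : ℤ) [ZMOD (m : ℤ)] := by
    push_cast
    exact Int.mod_modEq _ _
  have e2 : b - 4 * ((r % m : ℕ) : ℤ) ^ 3 ≡ b - 4 * (r : ℤ) ^ 3 [ZMOD (m : ℤ)] :=
    Int.ModEq.sub (Int.ModEq.refl _) ((e.pow 3).mul_left 4)
  exact Int.modEq_zero_iff_dvd.1 (e2.trans (Int.modEq_zero_iff_dvd.2 h))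

private theorem cubRt_prime (b : ℤ) {p : ℕ} (hp : p.Prime) (h2 : p ≠ 2) : (cubRt b p).card ≤ 3 := by
  classical
  have := Fact.mk hp
  have h4 : (4 : ZMod p) ≠ 0 := by
    intro h
    have : ((4 : ℕ) : ZMod p) = 0 := by exact_mod_cast h
    rw [ZMod.natCast_eq_zero_iff] at this
    have h22 : p ∣ 2 ^ 2 := by norm_num; exact this
    exact h2 ((Nat.prime_dvd_prime_iff_eq hp Nat.prime_two).1 (hp.dvd_of_dvd_pow h22))
  have hinj : Set.InjOn (fun t : ℕ => (t : ZMod p)) (cubRt b p) := by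
    intro x hx y hy hxy
    simp only [cubRt, coe_filter, mem_range, Set.mem_ofPred_eq] at hx hy
    have := (ZMod.natCast_eq_natCast_iff' x y p).1 hxy
    rwa [Nat.mod_eq_of_lt hx.1, Nat.mod_eq_of_lt hy.1] at this
  rw [← card_image_of_injOn hinj]
  calc ((cubRt b p).image fun t : ℕ => (t : ZMod p)).card
      ≤ (Polynomial.nthRoots 3 ((b : ZMod p) / 4)).toFinset.card := by
        apply card_le_card
        intro z hz
        rw [mem_image] at hz
        obtain ⟨t, ht, rfl⟩ := hz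
        rw [Multiset.mem_toFinset, Polynomial.mem_nthRoots (by norm_num)]
        rw [cubRt, mem_filter] at ht
        have h1 := (ZMod.intCast_zmod_eq_zero_iff_dvd _ p).2 ht.2
        push_cast at h1
        rw [eq_div_iff h4]
        linear_combination -h1
    _ ≤ Multiset.card (Polynomial.nthRoots 3 ((b : ZMod p) / 4)) := Multiset.toFinset_card_le _
    _ ≤ 3 := Polynomial.card_nthRoots _ _

private theorem cubRt_sqf (b : ℤ) {e : ℕ} (he : Squarefree e) (h2 : e.Coprime 2) :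
    (cubRt b e).card ≤ 3 ^ e.primeFactors.card := by
  classical
  have he0 : e ≠ 0 := he.ne_zero
  have hmap : (cubRt b e).card ≤ (e.primeFactors.pi fun p => cubRt b p).card := by
    apply card_le_card_of_injOn (fun t => fun p _ => t % p)
    · intro t ht
      have ht' : t ∈ cubRt b e := ht
      rw [cubRt, mem_filter] at ht'
      have : (fun p (_ : p ∈ e.primeFactors) => t % p) ∈ (e.primeFactors.pi fun p => cubRt b p) := by
        rw [mem_pi]
        intro p hp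
        have hpp := Nat.prime_of_mem_primeFactors hp
        apply mem_cubRt_mod hpp.pos
        exact (Int.natCast_dvd_natCast.2 (Nat.dvd_of_mem_primeFactors hp)).trans ht'.2
      exact this
    · intro x hx y hy hxy
      have hx' : x ∈ cubRt b e := hx
      have hy' : y ∈ cubRt b e := hy
      rw [cubRt, mem_filter, mem_range] at hx' hy'
      have hall : ∀ p ∈ e.primeFactors, (p : ℤ) ∣ (x : ℤ) - y := by
        intro p hp
        have := congrFun (congrFun hxy p) hp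
        simp only at this
        have h3 : (y : ℤ) ≡ x [ZMOD (p : ℤ)] :=
          Int.natCast_modEq_iff.2 (show y % p = x % p from this.symm)
        exact Int.modEq_iff_dvd.1 h3
      have hprod : ((∏ p ∈ e.primeFactors, p : ℕ) : ℤ) ∣ (x : ℤ) - y := by
        rw [Nat.cast_prod]
        apply Finset.prod_dvd_of_coprime
        · intro p hp p' hp' hne
          have hp1 := Nat.prime_of_mem_primeFactors (by simpa using hp)
          have hp2 := Nat.prime_of_mem_primeFactors (by simpa using hp')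
          have := (Nat.coprime_primes hp1 hp2).2 hne
          exact Nat.isCoprime_iff_coprime.2 this
        · exact hall
      rw [Nat.prod_primeFactors_of_squarefree he] at hprod
      have h5 : (y : ℤ) ≡ x [ZMOD (e : ℤ)] := Int.modEq_iff_dvd.2 hprod
      have h6 : y % e = x % e := Int.natCast_modEq_iff.1 h5
      rw [Nat.mod_eq_of_lt hx'.1, Nat.mod_eq_of_lt hy'.1] at h6
      exact h6.symm
  refine hmap.trans ?_
  rw [card_pi]
  calc ∏ p ∈ e.primeFactors, (cubRt b p).card ≤ ∏ p ∈ e.primeFactors, 3 := by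
        apply prod_le_prod' 
        intro p hp
        apply cubRt_prime b (Nat.prime_of_mem_primeFactors hp)
        rintro rfl
        have hd := Nat.dvd_of_mem_primeFactors hp
        have := Nat.Coprime.eq_one_of_dvd (Nat.Coprime.symm h2) hd
        omega
    _ = 3 ^ e.primeFactors.card := by rw [prod_const]

theorem cubRt_sq (b : ℤ) {p : ℕ} (hp : p.Prime) (h5 : 5 ≤ p) (hb : ¬ (p : ℤ) ∣ b) :
    (cubRt b (p ^ 2)).card ≤ 3 := by
  classical
  refine le_trans ?_ (cubRt_prime b hp (by omega))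
  apply card_le_card_of_injOn (fun t => t % p)
  · intro t ht
    have ht' : t ∈ cubRt b (p ^ 2) := ht
    rw [cubRt, mem_filter] at ht'
    have : t % p ∈ cubRt b p := by
      apply mem_cubRt_mod hp.pos
      refine dvd_trans ?_ ht'.2
      push_cast
      exact dvd_pow_self _ (by norm_num)
    exact this
  · intro x hx y hy hxy
    have hx' : x ∈ cubRt b (p ^ 2) := hx
    have hy' : y ∈ cubRt b (p ^ 2) := hy
    rw [cubRt, mem_filter, mem_range] at hx' hy'
    have hxp : x % p = y % p := hxy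
    have hpi : Prime (p : ℤ) := Nat.prime_iff_prime_int.1 hp
    have h1 : (p : ℤ) ∣ (x : ℤ) - y := by
      have h3 : (y : ℤ) ≡ x [ZMOD (p : ℤ)] :=
        Int.natCast_modEq_iff.2 (show y % p = x % p from hxp.symm)
      exact Int.modEq_iff_dvd.1 h3
    have hd2 : (p : ℤ) ∣ b - 4 * (x : ℤ) ^ 3 := by
      refine dvd_trans ?_ hx'.2
      push_cast
      exact dvd_pow_self _ (by norm_num)
    have hxn : ¬ (p : ℤ) ∣ x := by
      intro h
      apply hb
      have : (p : ℤ) ∣ 4 * (x : ℤ) ^ 3 := Dvd.dvd.mul_left (dvd_pow h (by norm_num)) _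
      have := dvd_add hd2 this
      simpa using this
    have h4 : ((p : ℤ) ^ 2) ∣ 4 * (((x : ℤ) - y) * ((x : ℤ) ^ 2 + x * y + y ^ 2)) := by
      have := dvd_sub hy'.2 hx'.2
      push_cast at this
      have e : b - 4 * (y : ℤ) ^ 3 - (b - 4 * (x : ℤ) ^ 3) =
        4 * (((x : ℤ) - y) * ((x : ℤ) ^ 2 + x * y + y ^ 2)) := by ring
      rwa [e] at this
    have hc4 : IsCoprime ((p : ℤ) ^ 2) (4 * ((x : ℤ) ^ 2 + x * y + y ^ 2)) := by
      apply IsCoprime.pow_left
      rw [Prime.coprime_iff_not_dvd hpi]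
      intro h
      have h12 : (p : ℤ) ∣ 12 * (x : ℤ) ^ 2 := by
        have e : 12 * (x : ℤ) ^ 2 = 4 * ((x : ℤ) ^ 2 + x * y + y ^ 2) +
          ((x : ℤ) - y) * (4 * (y + 2 * x)) := by ring
        rw [e]
        exact dvd_add h (Dvd.dvd.mul_right h1 _)
      rcases hpi.dvd_or_dvd h12 with h' | h'
      · have h'' : p ∣ 12 := by exact_mod_cast h'
        have hle := Nat.le_of_dvd (by norm_num) h''
        interval_cases p <;> revert h'' hp <;> decide
      · exact hxn (hpi.dvd_of_dvd_pow h')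
    have h6 : ((p : ℤ) ^ 2) ∣ (x : ℤ) - y := by
      apply hc4.dvd_of_dvd_mul_left
      have e : 4 * (((x : ℤ) - y) * ((x : ℤ) ^ 2 + x * y + y ^ 2)) =
        4 * ((x : ℤ) ^ 2 + x * y + y ^ 2) * ((x : ℤ) - y) := by ring
      rwa [e] at h4
    have h7 : (y : ℤ) ≡ x [ZMOD ((p ^ 2 : ℕ) : ℤ)] := by
      apply Int.modEq_iff_dvd.2
      push_cast
      exact h6
    have h8 : y % (p ^ 2) = x % (p ^ 2) := Int.natCast_modEq_iff.1 h7
    rw [Nat.mod_eq_of_lt hx'.1, Nat.mod_eq_of_lt hy'.1] at h8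
    exact h8.symm

open Classical in
theorem cnt_e (q r0 k e : ℕ) (hq : 0 < q) (h2 : 2 ∣ q) (he : Squarefree e) (hc : e.Coprime q)
    (h3 : e.Coprime 3) :
    (((Blk q r0 k).filter fun x => (e : ℤ) ∣ disc x.1 x.2).card : ℝ) ≤
      (2 ^ k / (4 * q) + 1) * (3 ^ e.primeFactors.card * (4 ^ k / (4 * q * e) + 1)) := by
  have he0 : 0 < e := Nat.pos_of_ne_zero he.ne_zero
  have hc2 : e.Coprime 2 := Nat.Coprime.coprime_dvd_right h2 hc
  have hc4 : Nat.Coprime (4 * q) e := by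
    apply Nat.Coprime.symm
    apply Nat.Coprime.mul_right _ hc
    exact Nat.Coprime.pow_right 2 hc2
  apply sum_fib q r0 k hq (fun B r => (e : ℤ) ∣ disc B r) _ (by positivity)
  intro B
  refine (fib_le q r0 k e hq he0 hc4 (cubRt ((B : ℤ) ^ 6) e) (fun r => (e : ℤ) ∣ disc B r)
    (fun r hr => mem_cubRt_mod he0 hr)).trans ?_
  have h := cubRt_sqf ((B : ℤ) ^ 6) he hc2
  have h' : ((cubRt ((B : ℤ) ^ 6) e).card : ℝ) ≤ 3 ^ e.primeFactors.card := by exact_mod_cast h
  exact mul_le_mul_of_nonneg_right h' (by positivity)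

open Classical in
theorem cnt_sq (q r0 k p : ℕ) (hq : 0 < q) (h2 : 2 ∣ q) (hp : p.Prime) (h5 : 5 ≤ p)
    (hc : p.Coprime q) :
    (((Blk q r0 k).filter fun x => ¬ p ∣ x.1 ∧ (p : ℤ) ^ 2 ∣ disc x.1 x.2).card : ℝ) ≤
      (2 ^ k / (4 * q) + 1) * (3 * (4 ^ k / (4 * q * (p : ℝ) ^ 2) + 1)) := by
  have hp2 : 0 < p ^ 2 := by have := hp.pos; positivity
  have hc2 : p.Coprime 2 := Nat.Coprime.coprime_dvd_right h2 hc
  have hc4 : Nat.Coprime (4 * q) (p ^ 2) := by
    apply Nat.Coprime.symm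
    apply Nat.Coprime.pow_left
    apply Nat.Coprime.mul_right _ hc
    exact Nat.Coprime.pow_right 2 hc2
  apply sum_fib q r0 k hq (fun B r => ¬ p ∣ B ∧ (p : ℤ) ^ 2 ∣ disc B r) _ (by positivity)
  intro B
  by_cases hB : p ∣ B
  · have e : ((Ioc (4 ^ k) (2 * 4 ^ k)).filter fun r =>
      r % (4 * q) = r0 % (4 * q) ∧ ¬ p ∣ B ∧ (p : ℤ) ^ 2 ∣ disc B r) = ∅ := by
      apply filter_eq_empty_iff.2
      intro r _ h
      exact h.2.1 hB
    rw [e, card_empty]
    push_cast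
    positivity
  · refine (fib_le q r0 k (p ^ 2) hq hp2 hc4 (cubRt ((B : ℤ) ^ 6) (p ^ 2))
      (fun r => ¬ p ∣ B ∧ (p : ℤ) ^ 2 ∣ disc B r)
      (fun r hr => mem_cubRt_mod hp2 (by push_cast; exact hr.2))).trans ?_
    have hb : ¬ (p : ℤ) ∣ (B : ℤ) ^ 6 := by
      intro h
      have := (Nat.prime_iff_prime_int.1 hp).dvd_of_dvd_pow h
      exact hB (by exact_mod_cast this)
    have h := cubRt_sq ((B : ℤ) ^ 6) hp h5 hb
    have h' : ((cubRt ((B : ℤ) ^ 6) (p ^ 2)).card : ℝ) ≤ 3 := by exact_mod_cast h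
    push_cast
    exact mul_le_mul_of_nonneg_right h' (by positivity)

open Classical in
theorem cnt_both (q r0 k p : ℕ) (hq : 0 < q) (hp : p.Prime) (hc : p.Coprime (4 * q)) :
    (((Blk q r0 k).filter fun x => p ∣ x.1 ∧ p ∣ x.2).card : ℝ) ≤
      (2 ^ k / (4 * q * p) + 1) * (4 ^ k / (4 * q * p) + 1) := by
  have hp0 := hp.pos
  have hc' : Nat.Coprime (4 * q) p := hc.symm
  have hsub : ((Blk q r0 k).filter fun x => p ∣ x.1 ∧ p ∣ x.2) ⊆
      ((Ioc (2 ^ k) (2 ^ (k + 1))).filter fun x =>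
        x % (4 * q * p) = (Nat.chineseRemainder hc' 1 0 : ℕ) % (4 * q * p)) ×ˢ
      ((Ioc (4 ^ k) (2 * 4 ^ k)).filter fun x =>
        x % (4 * q * p) = (Nat.chineseRemainder hc' r0 0 : ℕ) % (4 * q * p)) := by
    rintro ⟨B, r⟩ hx
    rw [mem_filter, blk_eq, mem_product, mem_filter, mem_filter] at hx
    obtain ⟨⟨⟨h1, h1'⟩, ⟨h2, h2'⟩⟩, h3, h4⟩ := hx
    simp only at h1 h1' h2 h2' h3 h4
    rw [mem_product, mem_filter, mem_filter]
    refine ⟨⟨h1, ?_⟩, ⟨h2, ?_⟩⟩
    · have h := (Nat.chineseRemainder hc' 1 0).2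
      have g1 : B ≡ (Nat.chineseRemainder hc' 1 0 : ℕ) [MOD 4 * q] := by
        refine Nat.ModEq.trans ?_ h.1.symm
        show B % (4 * q) = 1 % (4 * q)
        rw [h1', Nat.mod_eq_of_lt (by omega)]
      have g2 : B ≡ (Nat.chineseRemainder hc' 1 0 : ℕ) [MOD p] := by
        refine Nat.ModEq.trans ?_ h.2.symm
        exact (Nat.modEq_zero_iff_dvd).2 h3
      exact (Nat.modEq_and_modEq_iff_modEq_mul hc').1 ⟨g1, g2⟩
    · have h := (Nat.chineseRemainder hc' r0 0).2
      have g1 : r ≡ (Nat.chineseRemainder hc' r0 0 : ℕ) [MOD 4 * q] :=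
        Nat.ModEq.trans h2' h.1.symm
      have g2 : r ≡ (Nat.chineseRemainder hc' r0 0 : ℕ) [MOD p] := by
        refine Nat.ModEq.trans ?_ h.2.symm
        exact (Nat.modEq_zero_iff_dvd).2 h4
      exact (Nat.modEq_and_modEq_iff_modEq_mul hc').1 ⟨g1, g2⟩
  have hcard := card_le_card hsub
  rw [card_product] at hcard
  have hcard' := (Nat.cast_le (α := ℝ)).2 hcard
  rw [Nat.cast_mul] at hcard'
  have h1 := (cls_card (2 ^ k) (2 ^ (k + 1)) (4 * q * p)
    ((Nat.chineseRemainder hc' 1 0 : ℕ) % (4 * q * p)) (le2 k) (by positivity)).1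
  have h2 := (cls_card (4 ^ k) (2 * 4 ^ k) (4 * q * p)
    ((Nat.chineseRemainder hc' r0 0 : ℕ) % (4 * q * p)) (le4 k) (by positivity)).1
  rw [len2] at h1
  rw [len4] at h2
  push_cast at h1 h2
  refine hcard'.trans ?_
  exact mul_le_mul h1 h2 (by positivity) (by positivity)

end Pool.Agent.Work.MP_43ce8a_nt.D
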