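import Pool.Agent.Work.MP_43ce8a_nt.D.FaCnt
import Pool.Agent.Work.MP_43ce8a_nt.D.BlkG

set_option autoImplicit false

/-!
Module FaSqfBig (size M). Large square factors of B⁶ - 4 r³.

PROOF. Let x = (B, r) be in the block (B odd because q is even; D = disc is odd, so nonzero),
gcd(B, r) = 1, p prime, p > 3 * 4^k (so p ≥ 5), p² ∣ D. Then p² ≤ |D| ≤ 64^(k+1), p ≤ 8^(k+1). p ∤ B
(B ≤ 2^(k+1) < p). Put t = r B⁻² in ZMod (p²): 4 t³ = 1; this equation has at most 3 solutions t (as in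
FaCnt.cnt_sq: at most 3 roots mod p, each lifts uniquely). For given p and t there is at most one pair:
if (B, r), (B₁, r₁) have the same t then p² ∣ r B₁² - r₁ B², of absolute value ≤ 8 * 16^k < 9 * 16^k < p²
(0 < r ≤ 2 * 4^k, B₁² ≤ 4 * 4^k), so r B₁² = r₁ B²; gcd(r, B²) = 1 = gcd(r₁, B₁²) give
B² = B₁², r = r₁. So the number of pairs is at most 3 times the number of primes ≤ 8^(k+1).
-/

namespace Pool.Agent.Work.MP_43ce8a_nt.D

open Finset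

private theorem blk_mem {q r0 k : ℕ} {x : ℕ × ℕ} (hx : x ∈ Blk q r0 k) :
    2 ^ k < x.1 ∧ x.1 ≤ 2 ^ (k + 1) ∧ 4 ^ k < x.2 ∧ x.2 ≤ 2 * 4 ^ k ∧ x.1 % (4 * q) = 1 := by
  rw [Blk, mem_filter, mem_product, mem_Ioc, mem_Ioc] at hx
  exact ⟨hx.1.1.1, hx.1.1.2, hx.1.2.1, hx.1.2.2, hx.2.1⟩

private theorem disc_ne {q r0 k : ℕ} {x : ℕ × ℕ} (hx : x ∈ Blk q r0 k) : disc x.1 x.2 ≠ 0 := by
  obtain ⟨-, -, -, -, h⟩ := blk_mem hx
  have hodd : x.1 % 2 = 1 := by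
    have h1 : x.1 = 4 * q * (x.1 / (4 * q)) + 1 := by
      have := Nat.div_add_mod x.1 (4 * q)
      omega
    have h2 : 4 * q * (x.1 / (4 * q)) = 2 * (2 * q * (x.1 / (4 * q))) := by ring
    omega
  have h3 : Odd ((x.1 : ℤ) ^ 6) := by
    apply Odd.pow
    rw [Int.odd_iff]
    omega
  intro h0
  unfold disc at h0
  obtain ⟨c, hc⟩ := h3
  omega

private theorem one_p (q r0 k p : ℕ) (hp : p.Prime) (hpk : 3 * 4 ^ k < p) (S : Finset (ℕ × ℕ))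
    (hS : ∀ x ∈ S, x ∈ Blk q r0 k ∧ x.1.Coprime x.2 ∧ (p : ℤ) ^ 2 ∣ disc x.1 x.2) :
    S.card ≤ 3 := by
  have h4k : 1 ≤ 4 ^ k := Nat.one_le_pow _ _ (by norm_num)
  have h5 : 5 ≤ p := by
    have h4 : 4 ≤ p := by omega
    rcases Nat.eq_or_lt_of_le h4 with h | h
    · rw [← h] at hp
      exact absurd hp (by norm_num)
    · omega
  have hp2 : 0 < p ^ 2 := by positivity
  have : NeZero (p ^ 2) := ⟨hp2.ne'⟩
  have hcop : ∀ x ∈ S, x.1.Coprime (p ^ 2) := by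
    intro x hx
    obtain ⟨h1, h2, h3, h4, -⟩ := blk_mem (hS x hx).1
    apply Nat.Coprime.pow_right
    apply Nat.Coprime.symm
    rw [hp.coprime_iff_not_dvd]
    intro hd
    have h6 := Nat.le_of_dvd (by omega) hd
    have h7 : 2 ^ (k + 1) ≤ 2 * 4 ^ k := by
      rw [pow_succ, mul_comm]
      have : 2 ^ k ≤ 4 ^ k := Nat.pow_le_pow_left (by norm_num) k
      omega
    omega
  refine le_trans ?_ (cubRt_sq 1 hp h5 (by
    intro h
    have := Int.le_of_dvd (by norm_num) h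
    have : (5 : ℤ) ≤ p := by exact_mod_cast h5
    omega))
  apply card_le_card_of_injOn
    (fun x : ℕ × ℕ => ((x.2 : ZMod (p ^ 2)) * ((x.1 : ZMod (p ^ 2))⁻¹) ^ 2).val)
  · intro x hx
    have hx' : x ∈ S := hx
    have hinv := ZMod.coe_mul_inv_eq_one x.1 (hcop x hx')
    have : ((x.2 : ZMod (p ^ 2)) * ((x.1 : ZMod (p ^ 2))⁻¹) ^ 2).val ∈ cubRt 1 (p ^ 2) := by
      rw [cubRt, mem_filter, mem_range]
      refine ⟨ZMod.val_lt _, ?_⟩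
      rw [← ZMod.intCast_zmod_eq_zero_iff_dvd]
      push_cast
      rw [ZMod.natCast_zmod_val]
      have hd := (hS x hx').2.2
      have hd' : ((p ^ 2 : ℕ) : ℤ) ∣ disc x.1 x.2 := by push_cast; exact hd
      rw [← ZMod.intCast_zmod_eq_zero_iff_dvd] at hd'
      unfold disc at hd'
      push_cast at hd'
      have e1 : (4 : ZMod (p ^ 2)) * ((x.2 : ZMod (p ^ 2)) * ((x.1 : ZMod (p ^ 2))⁻¹) ^ 2) ^ 3 =
        (4 * (x.2 : ZMod (p ^ 2)) ^ 3) * ((x.1 : ZMod (p ^ 2))⁻¹) ^ 6 := by ring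
      have e2 : 4 * (x.2 : ZMod (p ^ 2)) ^ 3 = (x.1 : ZMod (p ^ 2)) ^ 6 := by
        linear_combination -hd'
      rw [e1, e2, ← mul_pow, hinv]
      ring
    exact this
  · intro x hx y hy hxy
    have hx' : x ∈ S := hx
    have hy' : y ∈ S := hy
    have hxy' : (x.2 : ZMod (p ^ 2)) * ((x.1 : ZMod (p ^ 2))⁻¹) ^ 2 =
      (y.2 : ZMod (p ^ 2)) * ((y.1 : ZMod (p ^ 2))⁻¹) ^ 2 := ZMod.val_injective _ hxy
    have i1 := ZMod.coe_mul_inv_eq_one x.1 (hcop x hx')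
    have i2 := ZMod.coe_mul_inv_eq_one y.1 (hcop y hy')
    have e : (x.2 : ZMod (p ^ 2)) * (y.1 : ZMod (p ^ 2)) ^ 2 =
        (y.2 : ZMod (p ^ 2)) * (x.1 : ZMod (p ^ 2)) ^ 2 := by
      calc (x.2 : ZMod (p ^ 2)) * (y.1 : ZMod (p ^ 2)) ^ 2
          = ((x.1 : ZMod (p ^ 2)) * ((x.1 : ZMod (p ^ 2))⁻¹)) ^ 2 *
            ((x.2 : ZMod (p ^ 2)) * (y.1 : ZMod (p ^ 2)) ^ 2) := by rw [i1]; ring
        _ = ((x.2 : ZMod (p ^ 2)) * ((x.1 : ZMod (p ^ 2))⁻¹) ^ 2) *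
            ((x.1 : ZMod (p ^ 2)) ^ 2 * (y.1 : ZMod (p ^ 2)) ^ 2) := by ring
        _ = ((y.2 : ZMod (p ^ 2)) * ((y.1 : ZMod (p ^ 2))⁻¹) ^ 2) *
            ((x.1 : ZMod (p ^ 2)) ^ 2 * (y.1 : ZMod (p ^ 2)) ^ 2) := by rw [hxy']
        _ = ((y.1 : ZMod (p ^ 2)) * ((y.1 : ZMod (p ^ 2))⁻¹)) ^ 2 *
            ((y.2 : ZMod (p ^ 2)) * (x.1 : ZMod (p ^ 2)) ^ 2) := by ring
        _ = (y.2 : ZMod (p ^ 2)) * (x.1 : ZMod (p ^ 2)) ^ 2 := by rw [i2]; ring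
    obtain ⟨hB1, hB2, hr1, hr2, -⟩ := blk_mem (hS x hx').1
    obtain ⟨hC1, hC2, hs1, hs2, -⟩ := blk_mem (hS y hy').1
    have c1 := (hS x hx').2.1
    have c2 := (hS y hy').2.1
    have hsq : 9 * 16 ^ k < p ^ 2 := by
      have h1 : (3 * 4 ^ k) ^ 2 < p ^ 2 := Nat.pow_lt_pow_left hpk (by norm_num)
      have h2 : (3 * 4 ^ k) ^ 2 = 9 * 16 ^ k := by
        rw [mul_pow, ← pow_mul, mul_comm k 2, pow_mul]; norm_num
      omega
    have hbd : ∀ a b : ℕ, a ≤ 2 * 4 ^ k → b ≤ 2 ^ (k + 1) → a * b ^ 2 < p ^ 2 := by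
      intro a b ha hb
      have h1 : b ^ 2 ≤ (2 ^ (k + 1)) ^ 2 := Nat.pow_le_pow_left hb 2
      have h2 : (2 ^ (k + 1)) ^ 2 = 4 * 4 ^ k := by
        rw [← pow_mul, mul_comm (k + 1) 2, pow_mul, show (2 : ℕ) ^ 2 = 4 from rfl, pow_succ,
          mul_comm]
      have h3 : a * b ^ 2 ≤ (2 * 4 ^ k) * (4 * 4 ^ k) := Nat.mul_le_mul ha (by omega)
      have h4 : (2 * 4 ^ k) * (4 * 4 ^ k) = 8 * 16 ^ k := by
        have : (16 : ℕ) ^ k = 4 ^ k * 4 ^ k := by rw [← mul_pow, show 4 * 4 = 16 from rfl]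
        rw [this]; ring
      have h16 : 1 ≤ 16 ^ k := Nat.one_le_pow _ _ (by norm_num)
      omega
    have hcast : ((x.2 * y.1 ^ 2 : ℕ) : ZMod (p ^ 2)) = ((y.2 * x.1 ^ 2 : ℕ) : ZMod (p ^ 2)) := by
      push_cast
      exact e
    have heq := (ZMod.natCast_eq_natCast_iff' _ _ _).1 hcast
    rw [Nat.mod_eq_of_lt (hbd _ _ hr2 hC2), Nat.mod_eq_of_lt (hbd _ _ hs2 hB2)] at heq
    have d1 : x.2 ∣ y.2 := by
      have : x.2 ∣ y.2 * x.1 ^ 2 := ⟨y.1 ^ 2, heq.symm⟩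
      exact (Nat.Coprime.pow_right 2 c1.symm).dvd_of_dvd_mul_right this
    have d2 : y.2 ∣ x.2 := by
      have : y.2 ∣ x.2 * y.1 ^ 2 := ⟨x.1 ^ 2, heq⟩
      exact (Nat.Coprime.pow_right 2 c2.symm).dvd_of_dvd_mul_right this
    have h2 : x.2 = y.2 := Nat.dvd_antisymm d1 d2
    rw [h2] at heq
    have h3 := Nat.eq_of_mul_eq_mul_left (by omega : 0 < y.2) heq
    have h4 : y.1 = x.1 := Nat.pow_left_injective (n := 2) (by norm_num) h3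
    exact Prod.ext h4.symm h2

open Classical in
theorem sqf_big (q r0 k : ℕ) (hq : 0 < q) (h2 : 2 ∣ q) :
    ((Blk q r0 k).filter fun x => x.1.Coprime x.2 ∧ ∃ p : ℕ, p.Prime ∧ 3 * 4 ^ k < p ∧
      (p : ℤ) ^ 2 ∣ disc x.1 x.2).card ≤ 3 * ((range (8 ^ (k + 1) + 1)).filter Nat.Prime).card := by
  have hsub : ((Blk q r0 k).filter fun x => x.1.Coprime x.2 ∧ ∃ p : ℕ, p.Prime ∧ 3 * 4 ^ k < p ∧
      (p : ℤ) ^ 2 ∣ disc x.1 x.2) ⊆ ((range (8 ^ (k + 1) + 1)).filter Nat.Prime).biUnion fun p =>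
        (Blk q r0 k).filter fun x => x.1.Coprime x.2 ∧ 3 * 4 ^ k < p ∧ (p : ℤ) ^ 2 ∣ disc x.1 x.2 := by
    intro x hx
    rw [mem_filter] at hx
    obtain ⟨h1, h2, p, hp, h3, h4⟩ := hx
    rw [mem_biUnion]
    refine ⟨p, mem_filter.2 ⟨mem_range.2 ?_, hp⟩, mem_filter.2 ⟨h1, h2, h3, h4⟩⟩
    have h5 := Nat.le_of_dvd (Int.natAbs_pos.2 (disc_ne h1)) (Int.natAbs_dvd_natAbs.2 h4)
    rw [Int.natAbs_pow, Int.natAbs_natCast] at h5
    have h6 := h5.trans (disc_abs h1)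
    have h7 : (64 : ℕ) ^ (k + 1) = (8 ^ (k + 1)) ^ 2 := by
      rw [← pow_mul, mul_comm (k + 1) 2, pow_mul]; norm_num
    rw [h7] at h6
    have := (Nat.pow_le_pow_iff_left (by norm_num : 2 ≠ 0)).1 h6
    omega
  refine (card_le_card hsub).trans (card_biUnion_le.trans ?_)
  calc ∑ p ∈ (range (8 ^ (k + 1) + 1)).filter Nat.Prime, ((Blk q r0 k).filter fun x =>
        x.1.Coprime x.2 ∧ 3 * 4 ^ k < p ∧ (p : ℤ) ^ 2 ∣ disc x.1 x.2).card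
      ≤ ∑ p ∈ (range (8 ^ (k + 1) + 1)).filter Nat.Prime, 3 := by
        apply sum_le_sum
        intro p hp
        have hpp := (mem_filter.1 hp).2
        by_cases hpk : 3 * 4 ^ k < p
        · apply one_p q r0 k p hpp hpk
          intro x hx
          rw [mem_filter] at hx
          exact ⟨hx.1, hx.2.1, hx.2.2.2⟩
        · rw [filter_eq_empty_iff.2 (fun x _ h => hpk h.2.1), card_empty]
          omega
    _ = 3 * ((range (8 ^ (k + 1) + 1)).filter Nat.Prime).card := by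
        rw [sum_const, smul_eq_mul, mul_comm]

end Pool.Agent.Work.MP_43ce8a_nt.D
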