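import Pool.Agent.Work.MP_43ce8a_nt.D.FaCnt
import Pool.Agent.Work.MP_43ce8a_nt.D.FaSqfBig
import Pool.Agent.Work.MP_43ce8a_nt.D.QB

set_option autoImplicit false

/-!
Module FaSqf (size M). Most discriminants of a block are squarefree. q = qq y.

PROOF. disc ≡ 1 - 4 r0³ is prime to q (disc_mod, GoodR), so all its prime factors are > y. If disc is
not squarefree then some p² ∣ disc, p > y. Cases: (i) p ∣ B; then p ∣ r: cnt_both, p ≤ 2^(k+1);
(ii) some prime divides both B and r: also case (i); otherwise gcd(B, r) = 1 and p ∤ B: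
(iii) p ≤ 3 * 4^k: cnt_sq; (iv) p > 3 * 4^k: sqf_big. With Q = 4 q and sums over primes p > y
(∑ 1/p² ≤ 1/y, ∑_{p ≤ 2^(k+1)} 1/p ≤ k + 2):
(i) ∑ (2^k/(Q p) + 1)(4^k/(Q p) + 1) ≤ 8^k/(Q² y) + (k + 2)(2^k + 4^k)/Q + 2^(k+1);
(iii) ∑ (2^k/Q + 1) 3 (4^k/(Q p²) + 1) ≤ 3 (2^k/Q + 1)(4^k/(Q y) + π(3 * 4^k));
(iv) 3 π(8^(k+1)).
Since π(x) = o(x) (Mathlib: Chebyshev bound Chebyshev.eventually_primeCounting_le or
primeCounting ≤ ..., see Pool usage; π(x) ≤ 2 x/log x for large x) the total is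
≤ (4/y) 8^k/Q² + o(8^k) ≤ (1/8) 8^k/Q² for y ≥ 64 and k ≥ k₀(q).
-/

namespace Pool.Agent.Work.MP_43ce8a_nt.D

open Finset

private theorem pi_small {ε : ℝ} (hε : 0 < ε) : ∃ n₀ : ℕ, ∀ n : ℕ, n₀ ≤ n →
    (((range (n + 1)).filter Nat.Prime).card : ℝ) ≤ ε * n := by
  have h1 := Chebyshev.eventually_primeCounting_le (ε := 1) one_pos
  have hK : 0 < (Real.log 4 + 1) / ε := by
    have : 0 < Real.log 4 := Real.log_pos (by norm_num)
    positivity
  have h2 : ∀ᶠ x : ℝ in Filter.atTop, (Real.log 4 + 1) / ε ≤ Real.log x :=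
    Real.tendsto_log_atTop.eventually_ge_atTop _
  have h3 := (h1.and (h2.and (Filter.eventually_ge_atTop (1 : ℝ))))
  obtain ⟨n₀, hn⟩ := Filter.eventually_atTop.1 (tendsto_natCast_atTop_atTop.eventually h3)
  refine ⟨n₀, fun n hnn => ?_⟩
  obtain ⟨g1, g2, g3⟩ := hn n hnn
  have hcard : ((range (n + 1)).filter Nat.Prime).card = Nat.primeCounting ⌊(n : ℝ)⌋₊ := by
    rw [Nat.floor_natCast, Nat.primeCounting, ← Nat.primesBelow_card_eq_primeCounting']
    rfl
  rw [hcard]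
  refine g1.trans ?_
  have hl : 0 < Real.log (n : ℝ) := lt_of_lt_of_le hK g2
  rw [div_le_iff₀ hl]
  rw [div_le_iff₀ hε] at g2
  nlinarith

private theorem geo_small (c : ℝ) : ∃ k₀ : ℕ, ∀ k : ℕ, k₀ ≤ k → c * ((k : ℝ) + 2) ≤ 2 ^ k := by
  have h1 : Filter.Tendsto (fun k : ℕ => (k : ℝ) ^ 1 / 2 ^ k) Filter.atTop (nhds 0) := by
    have := tendsto_pow_const_div_const_pow_of_one_lt 1 (by norm_num : (1 : ℝ) < 2)
    exact this
  have h0 : 0 < 1 / (3 * (|c| + 1)) := by positivity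
  obtain ⟨k₀, hk⟩ := Filter.eventually_atTop.1
    ((h1.eventually (gt_mem_nhds h0)).and (Filter.eventually_ge_atTop 1))
  refine ⟨k₀, fun k hkk => ?_⟩
  obtain ⟨g, g1⟩ := hk k hkk
  have g1' : (1 : ℝ) ≤ k := by exact_mod_cast g1
  rw [pow_one, div_lt_div_iff₀ (by positivity) (by positivity)] at g
  have h3 : c ≤ |c| := le_abs_self c
  have h4 : 0 ≤ |c| := abs_nonneg c
  have h5 : c * ((k : ℝ) + 2) ≤ |c| * ((k : ℝ) + 2) :=
    mul_le_mul_of_nonneg_right h3 (by positivity)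
  nlinarith [mul_nonneg h4 (by linarith : (0 : ℝ) ≤ (k : ℝ) - 1)]

private theorem sum_inv_sq (y N : ℕ) (hy : 0 < y) (T : Finset ℕ) (hT : ∀ p ∈ T, y < p ∧ p ≤ N) :
    ∑ p ∈ T, 1 / ((p : ℝ) ^ 2) ≤ 1 / (y : ℝ) := by
  by_cases h : y ≤ N
  · calc ∑ p ∈ T, 1 / ((p : ℝ) ^ 2) ≤ ∑ p ∈ Ioc y N, 1 / ((p : ℝ) ^ 2) := by
          apply sum_le_sum_of_subset_of_nonneg
          · intro p hp
            exact mem_Ioc.2 (hT p hp)
          · intro p _ _
            positivity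
      _ ≤ 1 / (y : ℝ) := by
          have := sum_Ioc_inv_sq_le_sub (α := ℝ) (k := y) (n := N) (by omega) h
          have h2 : (0 : ℝ) ≤ (N : ℝ)⁻¹ := by positivity
          simp only [one_div]
          linarith
  · have : T = ∅ := by
      rw [eq_empty_iff_forall_notMem]
      intro p hp
      have := hT p hp
      omega
    rw [this, sum_empty]
    positivity

private theorem sum_inv (y N : ℕ) (T : Finset ℕ) (hN : 0 < N) (hT : ∀ p ∈ T, y < p ∧ p ≤ N) :
    ∑ p ∈ T, 1 / (p : ℝ) ≤ 1 + Real.log N := by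
  calc ∑ p ∈ T, 1 / (p : ℝ) ≤ ∑ p ∈ Icc 1 N, 1 / (p : ℝ) := by
        apply sum_le_sum_of_subset_of_nonneg
        · intro p hp
          have := hT p hp
          exact mem_Icc.2 ⟨by omega, this.2⟩
        · intro p _ _
          positivity
    _ ≤ 1 + Real.log N := by
        have h := harmonic_le_one_add_log N
        rw [harmonic_eq_sum_Icc] at h
        push_cast at h
        simpa [one_div] using h

private theorem pf_gt {y r0 k p : ℕ} {x : ℕ × ℕ} (hy : 2 ≤ y) (hr : GoodR (qq y) r0)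
    (hx : x ∈ Blk (qq y) r0 k) (hp : p.Prime) (hd : (p : ℤ) ∣ disc x.1 x.2) : y < p := by
  by_contra hle
  have h1 : p ∣ qq y := (prime_dvd_qq hy hp).2 (by omega)
  have h2 : (p : ℤ) ∣ (qq y : ℤ) := by exact_mod_cast h1
  have h3 := disc_mod hx
  have h4 : (p : ℤ) ∣ ((4 * qq y : ℕ) : ℤ) := by
    push_cast
    exact Dvd.dvd.mul_left h2 _
  have h5 : (p : ℤ) ∣ 1 - 4 * (r0 : ℤ) ^ 3 := by
    have := dvd_sub hd (h4.trans h3)
    simpa using this
  have h6 := hr.cop.isUnit_of_dvd' h5 h2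
  exact (Nat.prime_iff_prime_int.1 hp).not_isUnit h6

open Classical in
theorem sqf_most (y r0 : ℕ) (hy : 64 ≤ y) (hr : GoodR (qq y) r0) : ∃ k₀ : ℕ, ∀ k : ℕ, k₀ ≤ k →
    (((Blk (qq y) r0 k).filter fun x => ¬ Squarefree (disc x.1 x.2)).card : ℝ) ≤
      1 / 8 * (8 ^ k / (4 * (qq y : ℝ)) ^ 2) := by
  set q := qq y with hq
  have hq0 : 0 < q := qq_pos y
  have h2q : 2 ∣ q := ⟨q / 2, by have := (qq_half y).2; omega⟩
  set Q : ℝ := 4 * (q : ℝ) with hQ
  have hq1 : (1 : ℝ) ≤ q := by exact_mod_cast hq0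
  have hQ1 : 4 ≤ Q := by rw [hQ]; linarith
  have hQ0 : 0 < Q := by linarith
  set ε : ℝ := 1 / (192 * 24 * Q ^ 2) with hε
  have hε0 : 0 < ε := by positivity
  obtain ⟨n₀, hn₀⟩ := pi_small hε0
  obtain ⟨k₁, hk₁⟩ := geo_small (768 * Q ^ 2)
  refine ⟨max (max k₁ n₀) (4 * q), fun k hk => ?_⟩
  have hkk₁ : k₁ ≤ k := le_trans (le_trans (le_max_left _ _) (le_max_left _ _)) hk
  have hkn : n₀ ≤ k := le_trans (le_trans (le_max_right _ _) (le_max_left _ _)) hk
  have hkq : 4 * q ≤ k := le_trans (le_max_right _ _) hk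
  have hk2 : k ≤ 2 ^ k := Nat.lt_two_pow_self.le
  have hk4 : k ≤ 4 ^ k := hk2.trans (Nat.pow_le_pow_left (by norm_num) k)
  have hk8 : k ≤ 8 ^ k := hk2.trans (Nat.pow_le_pow_left (by norm_num) k)
  set TA := (Ioc y (2 ^ (k + 1))).filter Nat.Prime with hTA
  set TC := (Ioc y (3 * 4 ^ k)).filter Nat.Prime with hTC
  have hsub : ((Blk q r0 k).filter fun x => ¬ Squarefree (disc x.1 x.2)) ⊆
      (TA.biUnion fun p => (Blk q r0 k).filter fun x => p ∣ x.1 ∧ p ∣ x.2) ∪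
      ((TC.biUnion fun p => (Blk q r0 k).filter fun x => ¬ p ∣ x.1 ∧ (p : ℤ) ^ 2 ∣ disc x.1 x.2) ∪
      ((Blk q r0 k).filter fun x => x.1.Coprime x.2 ∧ ∃ p : ℕ, p.Prime ∧ 3 * 4 ^ k < p ∧
      (p : ℤ) ^ 2 ∣ disc x.1 x.2)) := by
    intro x hx
    rw [mem_filter] at hx
    obtain ⟨hxB, hns⟩ := hx
    rw [← Int.squarefree_natAbs, Nat.squarefree_iff_prime_squarefree] at hns
    push Not at hns
    obtain ⟨p, hp, hpd⟩ := hns
    have hpd' : (p : ℤ) ^ 2 ∣ disc x.1 x.2 := by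
      rw [← Int.natAbs_dvd_natAbs, Int.natAbs_pow, Int.natAbs_natCast, pow_two]
      exact hpd
    have hp1 : (p : ℤ) ∣ disc x.1 x.2 := (dvd_pow_self _ (by norm_num)).trans hpd'
    have hyp := pf_gt (by omega) hr hxB hp hp1
    have hxm := hxB
    rw [Blk, mem_filter, mem_product, mem_Ioc, mem_Ioc] at hxm
    have hboth : ∀ p' : ℕ, p'.Prime → p' ∣ x.1 → p' ∣ x.2 →
        x ∈ (TA.biUnion fun p => (Blk q r0 k).filter fun x => p ∣ x.1 ∧ p ∣ x.2) := by
      intro p' hp' h1 h2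
      have hd : (p' : ℤ) ∣ disc x.1 x.2 := by
        unfold disc
        apply dvd_sub
        · exact dvd_pow (by exact_mod_cast h1) (by norm_num)
        · exact Dvd.dvd.mul_left (dvd_pow (by exact_mod_cast h2) (by norm_num)) _
      have hy' := pf_gt (by omega) hr hxB hp' hd
      rw [mem_biUnion]
      refine ⟨p', ?_, mem_filter.2 ⟨hxB, h1, h2⟩⟩
      rw [hTA, mem_filter, mem_Ioc]
      have := Nat.le_of_dvd (by omega) h1
      exact ⟨⟨hy', by omega⟩, hp'⟩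
    rw [mem_union, mem_union]
    by_cases hc : x.1.Coprime x.2
    · by_cases hpB : p ∣ x.1
      · left
        apply hboth p hp hpB
        have h4 : (p : ℤ) ∣ 4 * (x.2 : ℤ) ^ 3 := by
          have h5 : (p : ℤ) ∣ (x.1 : ℤ) ^ 6 := dvd_pow (by exact_mod_cast hpB) (by norm_num)
          have := dvd_sub h5 hp1
          unfold disc at this
          simpa using this
        rcases (Nat.prime_iff_prime_int.1 hp).dvd_or_dvd h4 with h6 | h6
        · have : p ∣ 4 := by exact_mod_cast h6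
          have := Nat.le_of_dvd (by norm_num) this
          omega
        · have := (Nat.prime_iff_prime_int.1 hp).dvd_of_dvd_pow h6
          exact_mod_cast this
      · right
        by_cases hple : p ≤ 3 * 4 ^ k
        · left
          rw [mem_biUnion]
          refine ⟨p, ?_, mem_filter.2 ⟨hxB, hpB, hpd'⟩⟩
          rw [hTC, mem_filter, mem_Ioc]
          exact ⟨⟨hyp, hple⟩, hp⟩
        · right
          exact mem_filter.2 ⟨hxB, hc, p, hp, by omega, hpd'⟩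
    · left
      obtain ⟨p', hp', h1, h2⟩ := Nat.Prime.not_coprime_iff_dvd.1 hc
      exact hboth p' hp' h1 h2
  -- the three bounds
  have hcop : ∀ p : ℕ, p.Prime → y < p → p.Coprime q := by
    intro p hp hyp
    rw [hp.coprime_iff_not_dvd]
    intro h
    have := (prime_dvd_qq (y := y) (by omega) hp).1 h
    omega
  have hA : ((TA.biUnion fun p => (Blk q r0 k).filter fun x => p ∣ x.1 ∧ p ∣ x.2).card : ℝ) ≤
      1 / 64 * (8 ^ k / Q ^ 2) + ((2 : ℝ) ^ k + 4 ^ k) / Q * (k + 2) + 2 * 2 ^ k := by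
    have hlogN : Real.log ((2 ^ (k + 1) : ℕ) : ℝ) ≤ k + 1 := by
      push_cast
      rw [Real.log_pow]
      push_cast
      have : Real.log 2 ≤ 1 := by linarith [Real.log_two_lt_d9]
      have hk0 : (0 : ℝ) ≤ (k : ℝ) + 1 := by positivity
      nlinarith
    calc ((TA.biUnion fun p => (Blk q r0 k).filter fun x => p ∣ x.1 ∧ p ∣ x.2).card : ℝ)
        ≤ ∑ p ∈ TA, (((Blk q r0 k).filter fun x => p ∣ x.1 ∧ p ∣ x.2).card : ℝ) := by
          exact_mod_cast card_biUnion_le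
      _ ≤ ∑ p ∈ TA, ((8 ^ k / Q ^ 2) * (1 / ((p : ℝ) ^ 2)) +
            ((2 : ℝ) ^ k + 4 ^ k) / Q * (1 / (p : ℝ)) + 1) := by
          apply sum_le_sum
          intro p hp
          rw [hTA, mem_filter, mem_Ioc] at hp
          have hpp := hp.2
          have hpc : p.Coprime (4 * q) := by
            apply Nat.Coprime.mul_right _ (hcop p hpp hp.1.1)
            rw [hpp.coprime_iff_not_dvd]
            intro h
            have := Nat.le_of_dvd (by norm_num) h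
            omega
          refine (cnt_both q r0 k p hq0 hpp hpc).trans (le_of_eq ?_)
          have hp0 : (0 : ℝ) < p := by exact_mod_cast hpp.pos
          have h8 : (8 : ℝ) ^ k = 2 ^ k * 4 ^ k := by rw [← mul_pow]; norm_num
          rw [h8, hQ]
          field_simp
          ring
      _ = (8 ^ k / Q ^ 2) * ∑ p ∈ TA, (1 / ((p : ℝ) ^ 2)) +
            ((2 : ℝ) ^ k + 4 ^ k) / Q * ∑ p ∈ TA, (1 / (p : ℝ)) + TA.card := by
          rw [sum_add_distrib, sum_add_distrib, mul_sum, mul_sum, sum_const, nsmul_eq_mul, mul_one]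
      _ ≤ (8 ^ k / Q ^ 2) * (1 / 64) + ((2 : ℝ) ^ k + 4 ^ k) / Q * (k + 2) + 2 * 2 ^ k := by
          have e1 : ∑ p ∈ TA, (1 / ((p : ℝ) ^ 2)) ≤ 1 / 64 := by
            refine (sum_inv_sq y (2 ^ (k + 1)) (by omega) TA ?_).trans ?_
            · intro p hp
              rw [hTA, mem_filter, mem_Ioc] at hp
              exact hp.1
            · have : (64 : ℝ) ≤ y := by exact_mod_cast hy
              exact one_div_le_one_div_of_le (by norm_num) this
          have e2 : ∑ p ∈ TA, (1 / (p : ℝ)) ≤ k + 2 := by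
            refine (sum_inv y (2 ^ (k + 1)) TA (by positivity) ?_).trans ?_
            · intro p hp
              rw [hTA, mem_filter, mem_Ioc] at hp
              exact hp.1
            · linarith
          have e3 : (TA.card : ℝ) ≤ 2 * 2 ^ k := by
            have : TA.card ≤ 2 ^ (k + 1) := by
              refine (card_filter_le _ _).trans ?_
              rw [Nat.card_Ioc]
              omega
            calc (TA.card : ℝ) ≤ ((2 ^ (k + 1) : ℕ) : ℝ) := by exact_mod_cast this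
              _ = 2 * 2 ^ k := by push_cast; ring
          gcongr
      _ = _ := by ring
  have hk2' : Q ≤ 2 ^ k := by
    rw [hQ]
    exact_mod_cast hkq.trans hk2
  have hC : ((TC.biUnion fun p => (Blk q r0 k).filter fun x =>
      ¬ p ∣ x.1 ∧ (p : ℤ) ^ 2 ∣ disc x.1 x.2).card : ℝ) ≤
      6 / 64 * (8 ^ k / Q ^ 2) + 18 * ε * 8 ^ k := by
    have hfac : (2 : ℝ) ^ k / Q + 1 ≤ 2 * (2 ^ k / Q) := by
      have : 1 ≤ (2 : ℝ) ^ k / Q := by rw [le_div_iff₀ hQ0]; linarith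
      linarith
    have hTCc : (TC.card : ℝ) ≤ ε * (3 * 4 ^ k) := by
      have h1 := hn₀ (3 * 4 ^ k) (by omega)
      refine le_trans ?_ (h1.trans (le_of_eq (by push_cast; ring)))
      have : TC.card ≤ ((range (3 * 4 ^ k + 1)).filter Nat.Prime).card := by
        apply card_le_card
        intro p hp
        rw [hTC, mem_filter, mem_Ioc] at hp
        exact mem_filter.2 ⟨mem_range.2 (by omega), hp.2⟩
      exact_mod_cast this
    calc ((TC.biUnion fun p => (Blk q r0 k).filter fun x =>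
      ¬ p ∣ x.1 ∧ (p : ℤ) ^ 2 ∣ disc x.1 x.2).card : ℝ)
        ≤ ∑ p ∈ TC, (((Blk q r0 k).filter fun x =>
            ¬ p ∣ x.1 ∧ (p : ℤ) ^ 2 ∣ disc x.1 x.2).card : ℝ) := by
          exact_mod_cast card_biUnion_le
      _ ≤ ∑ p ∈ TC, (2 * ((2 : ℝ) ^ k / Q)) * (3 * ((4 : ℝ) ^ k / Q * (1 / (p : ℝ) ^ 2) + 1)) := by
          apply sum_le_sum
          intro p hp
          rw [hTC, mem_filter, mem_Ioc] at hp
          have hpp := hp.2
          have h := cnt_sq q r0 k p hq0 h2q hpp (by omega) (hcop p hpp hp.1.1)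
          have hp0 : (0 : ℝ) < p := by exact_mod_cast hpp.pos
          have e : (4 : ℝ) ^ k / (4 * q * (p : ℝ) ^ 2) = (4 : ℝ) ^ k / Q * (1 / (p : ℝ) ^ 2) := by
            rw [hQ]
            field_simp
          rw [e] at h
          refine h.trans ?_
          apply mul_le_mul_of_nonneg_right _ (by positivity)
          exact hfac
      _ = (2 * ((2 : ℝ) ^ k / Q)) * (3 * ((4 : ℝ) ^ k / Q * ∑ p ∈ TC, (1 / (p : ℝ) ^ 2) +
            TC.card)) := by
          rw [← mul_sum, ← mul_sum, sum_add_distrib, ← mul_sum, sum_const, nsmul_eq_mul, mul_one]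
      _ ≤ (2 * ((2 : ℝ) ^ k / Q)) * (3 * ((4 : ℝ) ^ k / Q * (1 / 64) + ε * (3 * 4 ^ k))) := by
          have e1 : ∑ p ∈ TC, (1 / ((p : ℝ) ^ 2)) ≤ 1 / 64 := by
            refine (sum_inv_sq y (3 * 4 ^ k) (by omega) TC ?_).trans ?_
            · intro p hp
              rw [hTC, mem_filter, mem_Ioc] at hp
              exact hp.1
            · have : (64 : ℝ) ≤ y := by exact_mod_cast hy
              exact one_div_le_one_div_of_le (by norm_num) this
          gcongr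
      _ ≤ 6 / 64 * (8 ^ k / Q ^ 2) + 18 * ε * 8 ^ k := by
          have h8 : (8 : ℝ) ^ k = 2 ^ k * 4 ^ k := by rw [← mul_pow]; norm_num
          have e1 : (2 * ((2 : ℝ) ^ k / Q)) * (3 * ((4 : ℝ) ^ k / Q * (1 / 64) +
            ε * (3 * 4 ^ k))) = 6 / 64 * (8 ^ k / Q ^ 2) + 18 * ε * 8 ^ k / Q := by
            rw [h8]
            field_simp
            ring
          rw [e1]
          have : 18 * ε * 8 ^ k / Q ≤ 18 * ε * 8 ^ k := div_le_self (by positivity) (by linarith)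
          linarith
  have hD : ((((Blk q r0 k).filter fun x => x.1.Coprime x.2 ∧ ∃ p : ℕ, p.Prime ∧ 3 * 4 ^ k < p ∧
      (p : ℤ) ^ 2 ∣ disc x.1 x.2)).card : ℝ) ≤ 24 * ε * 8 ^ k := by
    have h1 := sqf_big q r0 k hq0 h2q
    have h2 := hn₀ (8 ^ (k + 1)) (by rw [pow_succ]; omega)
    have h3 : ((((Blk q r0 k).filter fun x => x.1.Coprime x.2 ∧ ∃ p : ℕ, p.Prime ∧
      3 * 4 ^ k < p ∧ (p : ℤ) ^ 2 ∣ disc x.1 x.2)).card : ℝ) ≤
      3 * (((range (8 ^ (k + 1) + 1)).filter Nat.Prime).card : ℝ) := by exact_mod_cast h1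
    refine h3.trans ?_
    have h4 : ε * ((8 ^ (k + 1) : ℕ) : ℝ) = 8 * ε * 8 ^ k := by push_cast; ring
    rw [h4] at h2
    linarith
  have htot : (((Blk q r0 k).filter fun x => ¬ Squarefree (disc x.1 x.2)).card : ℝ) ≤
      (1 / 64 * (8 ^ k / Q ^ 2) + ((2 : ℝ) ^ k + 4 ^ k) / Q * (k + 2) + 2 * 2 ^ k) +
      ((6 / 64 * (8 ^ k / Q ^ 2) + 18 * ε * 8 ^ k) + 24 * ε * 8 ^ k) := by
    have h1 := (card_le_card hsub).trans (card_union_le _ _)
    have h2 := card_union_le (TC.biUnion fun p => (Blk q r0 k).filter fun x =>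
      ¬ p ∣ x.1 ∧ (p : ℤ) ^ 2 ∣ disc x.1 x.2)
      ((Blk q r0 k).filter fun x => x.1.Coprime x.2 ∧ ∃ p : ℕ, p.Prime ∧ 3 * 4 ^ k < p ∧
      (p : ℤ) ^ 2 ∣ disc x.1 x.2)
    have h3 := h1.trans (Nat.add_le_add_left h2 _)
    have h4 := (Nat.cast_le (α := ℝ)).2 h3
    rw [Nat.cast_add, Nat.cast_add] at h4
    linarith
  refine htot.trans ?_
  -- asymptotics
  have hU : 42 * ε * 8 ^ k = 42 / (192 * 24) * (8 ^ k / Q ^ 2) := by
    rw [hε]
    field_simp
  have h2k1 : (1 : ℝ) ≤ 2 ^ k := one_le_pow₀ (by norm_num)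
  have h24 : (2 : ℝ) ^ k ≤ 4 ^ k := by gcongr; norm_num
  have hk0 : (0 : ℝ) ≤ k := by positivity
  have hE : ((2 : ℝ) ^ k + 4 ^ k) / Q * (k + 2) + 2 * 2 ^ k ≤ 4 * (k + 2) * 4 ^ k := by
    have e1 : ((2 : ℝ) ^ k + 4 ^ k) / Q ≤ 2 * 4 ^ k := by
      refine (div_le_self (by positivity) (by linarith)).trans ?_
      linarith
    have e2 : ((2 : ℝ) ^ k + 4 ^ k) / Q * (k + 2) ≤ 2 * 4 ^ k * (k + 2) :=
      mul_le_mul_of_nonneg_right e1 (by positivity)
    have e3 : (2 : ℝ) * 2 ^ k ≤ 2 * 4 ^ k * (k + 2) := by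
      have : (4 : ℝ) ^ k ≤ 4 ^ k * (k + 2) := by
        have : (0 : ℝ) ≤ 4 ^ k := by positivity
        nlinarith
      linarith
    linarith
  have hE2 : 4 * ((k : ℝ) + 2) * 4 ^ k ≤ 1 / 192 * (8 ^ k / Q ^ 2) := by
    have h := hk₁ k hkk₁
    have h8 : (8 : ℝ) ^ k = 2 ^ k * 4 ^ k := by rw [← mul_pow]; norm_num
    rw [h8, ← mul_div_assoc, le_div_iff₀ (by positivity)]
    have h4 : (0 : ℝ) < 4 ^ k := by positivity
    have := mul_le_mul_of_nonneg_right h h4.le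
    nlinarith
  have hU0 : 0 ≤ (8 : ℝ) ^ k / Q ^ 2 := by positivity
  have hfin : 7 / 64 * ((8 : ℝ) ^ k / Q ^ 2) + 1 / 192 * (8 ^ k / Q ^ 2) +
      42 / (192 * 24) * (8 ^ k / Q ^ 2) ≤ 1 / 8 * (8 ^ k / Q ^ 2) := by
    nlinarith
  linarith

end Pool.Agent.Work.MP_43ce8a_nt.D
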