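import Mathlib

set_option autoImplicit false

/-!
Module Fin (size M, Mathlib only). From short windows to density zero.

PROOF. Let E(N) = card {p < N : p prime, P p}. Fix ε, take e, K, X₀ from the hypothesis. By strong
induction E(N) ≤ N₁ + 12 ε N/log N for all N ≥ 2, where N₁ is large in terms of e, K, X₀: for N > N₁ there
is a multiple X ≥ X₀ of K with N e/(e + 1) < X² and X² + 1 ≤ 2 e N/(2 e + 1). The primes in
(X², N) lie in (X², X² + X²/e], so E(N) ≤ E(X² + 1) + ε (X²/e)/log X. The number of primes < N is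
≥ (1/4) N/log N for large N (Chebyshev.pi_ge), so the quotient is eventually ≤ 49 ε.
-/

namespace Pool.Agent.Work.MP_43ce8a_nt.D

open Finset Filter

private lemma Fin_choose (e K N : ℕ) (he : 1 ≤ e) (hK : 1 ≤ K)
    (hN : ((2 * K + K ^ 2 + 1) * ((2 * e + 1) * (e + 1))) ^ 2 ≤ N) :
    ∃ X : ℕ, K ∣ X ∧ 1 ≤ X ∧ N * e < X ^ 2 * (e + 1) ∧ (X ^ 2 + 1) * (2 * e + 1) ≤ 2 * e * N := by
  set s := Nat.sqrt (N * e / (e + 1)) with hs
  have h1 : s * s ≤ N * e / (e + 1) := Nat.sqrt_le _
  have h2 : N * e / (e + 1) < (s + 1) * (s + 1) := Nat.lt_succ_sqrt _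
  have h3 : s * s * (e + 1) ≤ N * e := by
    calc s * s * (e + 1) ≤ N * e / (e + 1) * (e + 1) := Nat.mul_le_mul_right _ h1
      _ ≤ N * e := Nat.div_mul_le_self _ _
  have h4 : N * e < (s + 1) * (s + 1) * (e + 1) := by
    have := (Nat.div_lt_iff_lt_mul (by omega : 0 < e + 1)).1 h2
    exact this
  set X := K * (s / K + 1) with hX
  have hX1 : s + 1 ≤ X := by
    have := Nat.lt_mul_div_succ s (by omega : 0 < K)
    rw [hX]; omega
  have hX2 : X ≤ s + K := by
    have := Nat.mul_div_le s K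
    rw [hX, mul_add, mul_one]; omega
  refine ⟨X, Dvd.intro _ rfl, by omega, ?_, ?_⟩
  · calc N * e < (s + 1) * (s + 1) * (e + 1) := h4
      _ ≤ X ^ 2 * (e + 1) := by
        apply Nat.mul_le_mul_right
        rw [pow_two]
        exact Nat.mul_le_mul hX1 hX1
  · -- real estimates
    have hNR : ((2 * (K : ℝ) + K ^ 2 + 1) * ((2 * e + 1) * (e + 1))) ^ 2 ≤ (N : ℝ) := by
      exact_mod_cast hN
    have hN0 : (0 : ℝ) ≤ N := Nat.cast_nonneg _
    have hT0 : (0 : ℝ) ≤ (2 * (K : ℝ) + K ^ 2 + 1) * ((2 * e + 1) * (e + 1)) := by positivity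
    have hsq : (2 * (K : ℝ) + K ^ 2 + 1) * ((2 * e + 1) * (e + 1)) ≤ Real.sqrt N :=
      Real.le_sqrt_of_sq_le hNR
    have hss : Real.sqrt N * Real.sqrt N = N := Real.mul_self_sqrt hN0
    have heR : (1 : ℝ) ≤ e := by exact_mod_cast he
    have hKR : (1 : ℝ) ≤ K := by exact_mod_cast hK
    have hsN : (s : ℝ) ≤ Real.sqrt N := by
      apply Real.le_sqrt_of_sq_le
      have h5 : s * s ≤ N := by
        refine le_trans h1 ?_
        rw [Nat.div_le_iff_le_mul_add_pred (by omega : 0 < e + 1)]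
        nlinarith
      have : ((s * s : ℕ) : ℝ) ≤ N := by exact_mod_cast h5
      push_cast at this
      nlinarith
    have hS1 : 1 ≤ Real.sqrt N := by
      have : (1 : ℝ) ≤ (2 * (K : ℝ) + K ^ 2 + 1) * ((2 * e + 1) * (e + 1)) := by
        have a1 : (1 : ℝ) ≤ 2 * (K : ℝ) + K ^ 2 + 1 := by nlinarith
        have a2 : (1 : ℝ) ≤ (2 * (e : ℝ) + 1) * (e + 1) := by nlinarith
        nlinarith
      linarith
    have h3R : (s : ℝ) * s * (e + 1) ≤ N * e := by exact_mod_cast h3
    have hXR : (X : ℝ) ≤ s + K := by exact_mod_cast hX2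
    have hX2R : (X : ℝ) ^ 2 + 1 ≤ s * s + (2 * K + K ^ 2 + 1) * Real.sqrt N := by
      have a1 : (X : ℝ) ^ 2 ≤ (s + K) ^ 2 := pow_le_pow_left₀ (Nat.cast_nonneg _) hXR 2
      have a2 : (s : ℝ) * (2 * K) ≤ Real.sqrt N * (2 * K) :=
        mul_le_mul_of_nonneg_right hsN (by positivity)
      have a3 : ((K : ℝ) ^ 2 + 1) * 1 ≤ (K ^ 2 + 1) * Real.sqrt N :=
        mul_le_mul_of_nonneg_left hS1 (by positivity)
      nlinarith
    have hfin : ((X : ℝ) ^ 2 + 1) * (2 * e + 1) ≤ 2 * e * N := by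
      have a0 : (0 : ℝ) < e + 1 := by positivity
      have a1 : ((X : ℝ) ^ 2 + 1) * (e + 1) ≤ N * e +
          (2 * K + K ^ 2 + 1) * Real.sqrt N * (e + 1) := by
        calc ((X : ℝ) ^ 2 + 1) * (e + 1) ≤
            (s * s + (2 * K + K ^ 2 + 1) * Real.sqrt N) * (e + 1) :=
              mul_le_mul_of_nonneg_right hX2R a0.le
          _ ≤ _ := by nlinarith
      have a2 : (2 * (K : ℝ) + K ^ 2 + 1) * ((2 * e + 1) * (e + 1)) * Real.sqrt N ≤ N := by
        calc (2 * (K : ℝ) + K ^ 2 + 1) * ((2 * e + 1) * (e + 1)) * Real.sqrt N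
            ≤ Real.sqrt N * Real.sqrt N := mul_le_mul_of_nonneg_right hsq (Real.sqrt_nonneg _)
          _ = N := hss
      have a3 : ((X : ℝ) ^ 2 + 1) * (2 * e + 1) * (e + 1) ≤ 2 * e * N * (e + 1) := by
        calc ((X : ℝ) ^ 2 + 1) * (2 * e + 1) * (e + 1)
            = (((X : ℝ) ^ 2 + 1) * (e + 1)) * (2 * e + 1) := by ring
          _ ≤ (N * e + (2 * K + K ^ 2 + 1) * Real.sqrt N * (e + 1)) * (2 * e + 1) :=
              mul_le_mul_of_nonneg_right a1 (by positivity)
          _ = N * e * (2 * e + 1) +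
              (2 * (K : ℝ) + K ^ 2 + 1) * ((2 * e + 1) * (e + 1)) * Real.sqrt N := by ring
          _ ≤ N * e * (2 * e + 1) + N := by linarith
          _ ≤ 2 * e * N * (e + 1) := by nlinarith
      exact le_of_mul_le_mul_right a3 a0
    exact_mod_cast hfin

private lemma Fin_arith (e : ℝ) (l : ℝ) (he : 1 ≤ e) (hl : 12 * e + 1 ≤ l) :
    2 * e / (2 * e + 1) / (l - Real.log 2) ≤ (1 - 1 / (4 * e)) / l := by
  have h2 : Real.log 2 ≤ 1 := by
    have := Real.log_two_lt_d9; linarith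
  have h3 : 0 ≤ Real.log 2 := Real.log_nonneg (by norm_num)
  have hl0 : 0 < l := by linarith
  have hl1 : 0 < l - Real.log 2 := by linarith
  rw [div_le_div_iff₀ hl1 hl0]
  have h4 : 2 * e / (2 * e + 1) ≤ 1 - 1 / (3 * e) := by
    have h5 : 1 / (3 * e) ≤ 1 / (2 * e + 1) := one_div_le_one_div_of_le (by linarith) (by linarith)
    have h6 : 2 * e / (2 * e + 1) = 1 - 1 / (2 * e + 1) := by field_simp; ring
    linarith
  have h7 : (1 - 1 / (3 * e)) * l ≤ (1 - 1 / (4 * e)) * (l - Real.log 2) := by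
    have h8 : (1 - 1 / (4 * e)) * Real.log 2 ≤ 1 := by
      have : 0 ≤ 1 / (4 * e) := by positivity
      nlinarith
    have h9 : 1 ≤ l * (1 / (12 * e)) := by
      rw [mul_one_div, le_div_iff₀ (by positivity)]
      linarith
    have h10 : 1 / (12 * e) = 1 / (3 * e) - 1 / (4 * e) := by field_simp; norm_num
    rw [h10] at h9
    nlinarith
  calc 2 * e / (2 * e + 1) * l ≤ (1 - 1 / (3 * e)) * l := mul_le_mul_of_nonneg_right h4 hl0.le
    _ ≤ _ := h7

open Classical in
private lemma Fin_ind (P : ℕ → Prop) (ε : ℝ) (hε : 0 < ε) (e K X₀ : ℕ) (he : 1 ≤ e) (hK : 1 ≤ K)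
    (h : ∀ X : ℕ, X₀ ≤ X → K ∣ X →
      (((Ioc (X ^ 2) (X ^ 2 + X ^ 2 / e)).filter fun p => p.Prime ∧ P p).card : ℝ) ≤
        ε * ((X : ℝ) ^ 2 / e) / Real.log X) :
    ∃ N₁ : ℝ, 0 ≤ N₁ ∧ ∀ N : ℕ, 2 ≤ N →
      (((range N).filter fun p => p.Prime ∧ P p).card : ℝ) ≤ N₁ + 12 * ε * N / Real.log N := by
  set M : ℕ := ((2 * K + K ^ 2 + 1) * ((2 * e + 1) * (e + 1))) ^ 2 + 2 * X₀ ^ 2 +
    ⌈Real.exp (12 * e + 1)⌉₊ + 8 with hM
  refine ⟨M, Nat.cast_nonneg _, ?_⟩
  intro N
  induction N using Nat.strong_induction_on with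
  | _ N ih =>
  intro hN2
  have hlogN : 0 < Real.log N := Real.log_pos (by exact_mod_cast (by omega : 1 < N))
  rcases Nat.lt_or_ge M N with hMN | hMN
  swap
  · have h1 : ((range N).filter fun p => p.Prime ∧ P p).card ≤ N := by
      refine le_trans (card_filter_le _ _) ?_
      rw [card_range]
    have h2 : (((range N).filter fun p => p.Prime ∧ P p).card : ℝ) ≤ M := by
      exact_mod_cast le_trans h1 hMN
    have h3 : 0 ≤ 12 * ε * N / Real.log N := by positivity
    linarith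
  · obtain ⟨X, hKX, hX1, hXa, hXb⟩ := Fin_choose e K N he hK (by rw [hM] at hMN; omega)
    have heR : (1 : ℝ) ≤ e := by exact_mod_cast he
    have he0 : (0 : ℝ) < e := by linarith
    have hXN : X ^ 2 + 1 < N := by
      by_contra hc
      push Not at hc
      have : N * (2 * e + 1) ≤ (X ^ 2 + 1) * (2 * e + 1) := Nat.mul_le_mul_right _ hc
      nlinarith
    have hN2X : N ≤ 2 * X ^ 2 := by
      by_contra hc
      push Not at hc
      have h3 : X ^ 2 * (e + 1) ≤ X ^ 2 * (2 * e) := Nat.mul_le_mul_left _ (by omega)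
      have h4 : 2 * X ^ 2 * e ≤ N * e := Nat.mul_le_mul_right _ hc.le
      nlinarith
    have hX0 : X₀ ≤ X := by
      by_contra hc
      push Not at hc
      have h3 : X ^ 2 ≤ X₀ ^ 2 := Nat.pow_le_pow_left hc.le 2
      rw [hM] at hMN
      omega
    -- the decomposition
    have hsub : ((range N).filter fun p => p.Prime ∧ P p) ⊆
        ((range (X ^ 2 + 1)).filter fun p => p.Prime ∧ P p) ∪
        ((Ioc (X ^ 2) (X ^ 2 + X ^ 2 / e)).filter fun p => p.Prime ∧ P p) := by
      intro p hp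
      rw [mem_filter, mem_range] at hp
      rw [mem_union, mem_filter, mem_filter, mem_range, mem_Ioc]
      rcases Nat.lt_or_ge p (X ^ 2 + 1) with h3 | h3
      · exact Or.inl ⟨h3, hp.2⟩
      · refine Or.inr ⟨⟨by omega, ?_⟩, hp.2⟩
        have h4 : N - X ^ 2 ≤ X ^ 2 / e := by
          rw [Nat.le_div_iff_mul_le (by omega)]
          rw [Nat.sub_mul]
          have : N * e < X ^ 2 * e + X ^ 2 := by nlinarith
          omega
        omega
    have hcard : (((range N).filter fun p => p.Prime ∧ P p).card : ℝ) ≤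
        (((range (X ^ 2 + 1)).filter fun p => p.Prime ∧ P p).card : ℝ) +
        (((Ioc (X ^ 2) (X ^ 2 + X ^ 2 / e)).filter fun p => p.Prime ∧ P p).card : ℝ) := by
      exact_mod_cast le_trans (card_le_card hsub) (card_union_le _ _)
    have hih := ih (X ^ 2 + 1) hXN (by nlinarith)
    have hwin := h X hX0 hKX
    -- logarithms
    have hXR1 : (1 : ℝ) ≤ X := by exact_mod_cast hX1
    have hNR : (0 : ℝ) < N := by exact_mod_cast (by omega : 0 < N)
    have hN2XR : (N : ℝ) ≤ 2 * (X : ℝ) ^ 2 := by exact_mod_cast hN2X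
    have hl : 12 * (e : ℝ) + 1 ≤ Real.log N := by
      rw [Real.le_log_iff_exp_le hNR]
      refine le_trans (Nat.le_ceil _) ?_
      exact_mod_cast (by rw [hM] at hMN; omega : ⌈Real.exp (12 * e + 1)⌉₊ ≤ N)
    have hl2 : Real.log 2 ≤ 1 := by
      have := Real.log_two_lt_d9; linarith
    have hlX2 : Real.log N - Real.log 2 ≤ Real.log ((X : ℝ) ^ 2) := by
      rw [← Real.log_div hNR.ne' (by norm_num)]
      apply Real.log_le_log (by positivity)
      rw [div_le_iff₀ (by norm_num)]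
      linarith
    have hlX : Real.log N / 3 ≤ Real.log X := by
      rw [Real.log_pow] at hlX2
      push_cast at hlX2
      linarith
    have hlX1 : Real.log N - Real.log 2 ≤ Real.log ((X ^ 2 + 1 : ℕ) : ℝ) := by
      refine le_trans hlX2 (Real.log_le_log (by positivity) ?_)
      push_cast
      linarith
    have hpos1 : 0 < Real.log N - Real.log 2 := by linarith
    have hXbR : ((X : ℝ) ^ 2 + 1) * (2 * e + 1) ≤ 2 * e * N := by exact_mod_cast hXb
    have hX2N : (X : ℝ) ^ 2 ≤ N := by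
      have : (X : ℝ) ^ 2 + 1 < N := by exact_mod_cast hXN
      linarith
    have hA : 12 * ε * ((X ^ 2 + 1 : ℕ) : ℝ) / Real.log ((X ^ 2 + 1 : ℕ) : ℝ) ≤
        12 * ε * N * ((1 - 1 / (4 * (e : ℝ))) / Real.log N) := by
      have h5 : ((X ^ 2 + 1 : ℕ) : ℝ) ≤ N * (2 * e / (2 * e + 1)) := by
        push_cast
        rw [← mul_div_assoc, le_div_iff₀ (by positivity)]
        linarith
      calc 12 * ε * ((X ^ 2 + 1 : ℕ) : ℝ) / Real.log ((X ^ 2 + 1 : ℕ) : ℝ)
          ≤ 12 * ε * (N * (2 * e / (2 * e + 1))) / (Real.log N - Real.log 2) := by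
            apply div_le_div₀ (by positivity) _ hpos1 hlX1
            exact mul_le_mul_of_nonneg_left h5 (by positivity)
        _ = 12 * ε * N * (2 * e / (2 * e + 1) / (Real.log N - Real.log 2)) := by ring
        _ ≤ _ := mul_le_mul_of_nonneg_left (Fin_arith e (Real.log N) heR hl) (by positivity)
    have hB : ε * ((X : ℝ) ^ 2 / e) / Real.log X ≤ 3 * ε * N / (e * Real.log N) := by
      calc ε * ((X : ℝ) ^ 2 / e) / Real.log X ≤ ε * (N / e) / (Real.log N / 3) := by
            apply div_le_div₀ (by positivity) _ (by positivity) hlX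
            apply mul_le_mul_of_nonneg_left _ hε.le
            exact div_le_div_of_nonneg_right hX2N he0.le
        _ = _ := by field_simp
    have hC : 12 * ε * N * ((1 - 1 / (4 * (e : ℝ))) / Real.log N) + 3 * ε * N / (e * Real.log N) =
        12 * ε * N / Real.log N := by
      field_simp
      ring
    linarith

open Classical in
theorem density_of_windows (P : ℕ → Prop)
    (h : ∀ ε : ℝ, 0 < ε → ∃ e K X₀ : ℕ, 1 ≤ e ∧ 1 ≤ K ∧ ∀ X : ℕ, X₀ ≤ X → K ∣ X →
      (((Ioc (X ^ 2) (X ^ 2 + X ^ 2 / e)).filter fun p => p.Prime ∧ P p).card : ℝ) ≤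
        ε * ((X : ℝ) ^ 2 / e) / Real.log X) :
    Tendsto (fun N : ℕ => (((range N).filter fun p => p.Prime ∧ P p).card : ℝ) /
      (((range N).filter Nat.Prime).card : ℝ)) atTop (nhds 0) := by
  -- lower bound for the number of primes
  have hpi : ∀ᶠ N : ℕ in atTop, (N : ℝ) / (4 * Real.log N) ≤
      (((range N).filter Nat.Prime).card : ℝ) := by
    have h1 : ∀ᶠ x : ℝ in atTop, Real.log x ≤ (1 / 8) * x := by
      have h2 := Real.isLittleO_log_id_atTop.def (by norm_num : (0 : ℝ) < 1 / 8)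
      filter_upwards [h2, eventually_ge_atTop (1 : ℝ)] with x hx hx1
      simp only [id] at hx
      rw [Real.norm_of_nonneg (Real.log_nonneg hx1), Real.norm_of_nonneg (by linarith)] at hx
      exact hx
    have h3 : ∀ᶠ N : ℕ in atTop, Real.log N ≤ (1 / 8) * N :=
      tendsto_natCast_atTop_atTop.eventually h1
    filter_upwards [h3, eventually_ge_atTop 10] with N hN hN10
    obtain ⟨n, rfl⟩ : ∃ n, N = n + 1 := ⟨N - 1, by omega⟩
    have h4 : ((range (n + 1)).filter Nat.Prime).card = Nat.primeCounting n := by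
      rw [Nat.primeCounting, Nat.primeCounting', Nat.count_eq_card_filter_range]
    rw [h4]
    refine le_trans ?_ (Chebyshev.pi_ge n)
    have hn : (9 : ℝ) ≤ n := by exact_mod_cast (by omega : 9 ≤ n)
    have hln : 0 < Real.log n := Real.log_pos (by linarith)
    have hln1 : 0 < Real.log ((n + 1 : ℕ) : ℝ) := Real.log_pos (by push_cast; linarith)
    have hle : Real.log n ≤ Real.log ((n + 1 : ℕ) : ℝ) :=
      Real.log_le_log (by linarith) (by push_cast; linarith)
    have hlog2 := Real.log_two_gt_d9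
    push_cast at hN hln1 hle ⊢
    have h5 : ((n : ℝ) + 1) / 4 ≤ n * Real.log 2 - Real.log (n + 1) := by nlinarith
    calc ((n : ℝ) + 1) / (4 * Real.log (n + 1)) = ((n : ℝ) + 1) / 4 / Real.log (n + 1) := by
          rw [div_div]
      _ ≤ (n * Real.log 2 - Real.log (n + 1)) / Real.log (n + 1) :=
          div_le_div_of_nonneg_right h5 hln1.le
      _ ≤ (n * Real.log 2 - Real.log (n + 1)) / Real.log n :=
          div_le_div_of_nonneg_left (by linarith) hln hle
  rw [Metric.tendsto_atTop']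
  intro δ hδ
  obtain ⟨e, K, X₀, he, hK, hw⟩ := h (δ / 96) (by positivity)
  obtain ⟨N₁, hN₁, hind⟩ := Fin_ind P (δ / 96) (by positivity) e K X₀ he hK hw
  have hsmall : ∀ᶠ N : ℕ in atTop, 4 * N₁ * Real.log N / N < δ / 2 := by
    have h1 : Tendsto (fun x : ℝ => Real.log x / x) atTop (nhds 0) := by
      simpa using Real.isLittleO_log_id_atTop.tendsto_div_nhds_zero
    have h2 : Tendsto (fun x : ℝ => 4 * N₁ * (Real.log x / x)) atTop (nhds (4 * N₁ * 0)) :=
      h1.const_mul _
    rw [mul_zero] at h2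
    have h3 := (h2.comp tendsto_natCast_atTop_atTop).eventually (gt_mem_nhds (by positivity :
      (0 : ℝ) < δ / 2))
    filter_upwards [h3] with N hN
    have : 4 * N₁ * Real.log N / N = 4 * N₁ * (Real.log N / N) := by ring
    rw [this]
    exact hN
  obtain ⟨N₂, hN₂⟩ := eventually_atTop.1 ((hpi.and hsmall).and (eventually_ge_atTop 2))
  refine ⟨N₂, fun N hN => ?_⟩
  obtain ⟨⟨h1, h2⟩, h3⟩ := hN₂ N hN.le
  have hlogN : 0 < Real.log N := Real.log_pos (by exact_mod_cast (by omega : 1 < N))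
  have hNR : (0 : ℝ) < N := by exact_mod_cast (by omega : 0 < N)
  have hq : 0 < (N : ℝ) / (4 * Real.log N) := by positivity
  rw [Real.dist_eq, sub_zero, abs_of_nonneg (by positivity)]
  have hi := hind N h3
  calc (((range N).filter fun p => p.Prime ∧ P p).card : ℝ) /
      (((range N).filter Nat.Prime).card : ℝ)
      ≤ (N₁ + 12 * (δ / 96) * N / Real.log N) / ((N : ℝ) / (4 * Real.log N)) := by
        apply div_le_div₀ (by positivity) hi hq h1
    _ = 4 * N₁ * Real.log N / N + δ / 2 := by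
        field_simp
        ring
    _ < δ := by linarith

end Pool.Agent.Work.MP_43ce8a_nt.D
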