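import Pool.Agent.Work.MP_43ce8a_nt.D.Defs
import Pool.Agent.Work.MP_43ce8a_nt.D.CrtCnt

set_option autoImplicit false

/-!
Module Rho1 (size M). Solutions of x ^ 2 ≡ D y ^ 2 modulo squarefree numbers.

rho1_prime: for an odd prime p with p ∤ D: y = 0 gives x = 0; for each of the p - 1 values y ≠ 0
there are 1 + chi D p values x (x = t y, t ^ 2 = D; use ZMod p and legendreSym / jacobiSym
conversion: chi D p = jacobiSym D p = legendreSym p D; number of square roots of D in ZMod p is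
legendreSym + 1, legendreSym.card_sqrts). So rho1 = 1 + (p - 1)(1 + chi). For p ∣ D: rho1 = p, chi = 0.
In both cases p ^ 2 - rho1 = (p - 1)(p - chi).
rho1_prod: Chinese remainder theorem, induction on the finset; distinct primes are coprime.
-/

namespace Pool.Agent.Work.MP_43ce8a_nt.D

open Finset

/-- number of solutions of `x ^ 2 ≡ D y ^ 2` mod `d` -/
def rho1 (D : ℤ) (d : ℕ) : ℕ :=
  ((range d ×ˢ range d).filter fun x : ℕ × ℕ => (d : ℤ) ∣ (x.1 : ℤ) ^ 2 - D * (x.2 : ℤ) ^ 2).card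

private theorem rho1_chi (D : ℤ) {p : ℕ} [Fact p.Prime] (h2 : p ≠ 2) :
    chi D p = ((legendreSym p D : ℤ) : ℝ) := by
  have hp : p.Prime := Fact.out
  unfold chi
  rw [if_pos (Nat.odd_iff.1 (hp.odd_of_ne_two h2)), ← jacobiSym.legendreSym.to_jacobiSym]

private theorem rho1_ndvd (D : ℤ) {p : ℕ} (hp : p.Prime) (h2 : p ≠ 2) (h : ¬ (p : ℤ) ∣ D) :
    (rho1 D p : ℝ) = 1 + ((p : ℝ) - 1) * (1 + chi D p) := by
  have : Fact p.Prime := ⟨hp⟩
  have h1 : ¬ (p : ℤ) ∣ 1 := by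
    intro h1
    have := Int.eq_one_of_dvd_one (by positivity) h1
    have h3 := hp.one_lt
    omega
  have h3 := card_quad_prime 1 D h2 h1 h
  simp only [one_mul] at h3
  have h4 : ((rho1 D p : ℕ) : ℤ) = 1 + ((p : ℤ) - 1) * (1 + legendreSym p D) := h3
  rw [rho1_chi D h2]
  exact_mod_cast h4

private theorem rho1_dvd (D : ℤ) {p : ℕ} (hp : p.Prime) (h : (p : ℤ) ∣ D) : rho1 D p = p := by
  have e : ((range p ×ˢ range p).filter fun x : ℕ × ℕ =>
      (p : ℤ) ∣ (x.1 : ℤ) ^ 2 - D * (x.2 : ℤ) ^ 2) = {0} ×ˢ range p := by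
    ext ⟨x, y⟩
    simp only [mem_filter, mem_product, mem_range, mem_singleton]
    have h1 : (p : ℤ) ∣ (x : ℤ) ^ 2 - D * (y : ℤ) ^ 2 ↔ p ∣ x := by
      rw [dvd_sub_left (Dvd.dvd.mul_right h _)]
      constructor
      · intro h2
        have h3 : p ∣ x ^ 2 := by exact_mod_cast h2
        exact hp.dvd_of_dvd_pow h3
      · intro h2
        have h3 : p ∣ x ^ 2 := dvd_pow h2 two_ne_zero
        exact_mod_cast h3
    rw [h1]
    constructor
    · rintro ⟨⟨hx, hy⟩, hd⟩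
      exact ⟨Nat.eq_zero_of_dvd_of_lt hd hx, hy⟩
    · rintro ⟨rfl, hy⟩
      exact ⟨⟨hp.pos, hy⟩, dvd_zero _⟩
  unfold rho1
  rw [e, card_product, card_singleton, card_range, one_mul]

theorem rho1_prime (D : ℤ) {p : ℕ} (hp : p.Prime) (h2 : p ≠ 2) :
    1 - (rho1 D p : ℝ) / (p : ℝ) ^ 2 = (1 - 1 / (p : ℝ)) * (1 - chi D p / (p : ℝ)) := by
  have hp0 : (p : ℝ) ≠ 0 := by exact_mod_cast hp.ne_zero
  by_cases h : (p : ℤ) ∣ D
  · have : Fact p.Prime := ⟨hp⟩
    have h3 : chi D p = 0 := by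
      rw [rho1_chi D h2, Int.cast_eq_zero, legendreSym.eq_zero_iff,
        ZMod.intCast_zmod_eq_zero_iff_dvd]
      exact h
    rw [rho1_dvd D hp h, h3]
    field_simp
    ring
  · rw [rho1_ndvd D hp h2 h]
    field_simp
    ring

private theorem rho1_chi_le (D : ℤ) {p : ℕ} (hp : p.Prime) (h2 : p ≠ 2) : chi D p ≤ 1 := by
  have : Fact p.Prime := ⟨hp⟩
  unfold chi
  rw [if_pos (Nat.odd_iff.1 (hp.odd_of_ne_two h2))]
  rcases jacobiSym.trichotomy D p with h | h | h <;> rw [h] <;> norm_num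

theorem rho1_le (D : ℤ) {p : ℕ} (hp : p.Prime) (h2 : p ≠ 2) : rho1 D p ≤ 2 * p := by
  by_cases h : (p : ℤ) ∣ D
  · rw [rho1_dvd D hp h]
    omega
  · have h3 := rho1_ndvd D hp h2 h
    have h4 := rho1_chi_le D hp h2
    have h5 : (1 : ℝ) ≤ p := by exact_mod_cast hp.one_le
    have h6 : (rho1 D p : ℝ) ≤ 2 * p := by
      rw [h3]
      nlinarith
    exact_mod_cast h6

private theorem rho1_mul (D : ℤ) {m n : ℕ} (h : m.Coprime n) (hm : m ≠ 0) (hn : n ≠ 0) :
    rho1 D (m * n) = rho1 D m * rho1 D n := by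
  unfold rho1
  have hq : ∀ k x y : ℕ, (k : ℤ) ∣ ((x % k : ℕ) : ℤ) ^ 2 - D * ((y % k : ℕ) : ℤ) ^ 2 ↔
      (k : ℤ) ∣ (x : ℤ) ^ 2 - D * (y : ℤ) ^ 2 := by
    intro k x y
    have := quad_mod 1 D k x y
    simpa only [one_mul] using this
  rw [← card_crt h hm hn (P := fun x y : ℕ => (m : ℤ) ∣ (x : ℤ) ^ 2 - D * (y : ℤ) ^ 2)
    (Q := fun x y : ℕ => (n : ℤ) ∣ (x : ℤ) ^ 2 - D * (y : ℤ) ^ 2) (hq m) (hq n)]
  congr 1
  apply Finset.filter_congr
  rintro ⟨x, y⟩ -
  have hc : IsCoprime (m : ℤ) (n : ℤ) := Nat.isCoprime_iff_coprime.2 h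
  push_cast
  constructor
  · intro h1
    exact ⟨dvd_of_mul_right_dvd h1, dvd_of_mul_left_dvd h1⟩
  · rintro ⟨h1, h2⟩
    exact hc.mul_dvd h1 h2

theorem rho1_prod (D : ℤ) (d : Finset ℕ) (hd : ∀ p ∈ d, p.Prime) :
    rho1 D (∏ p ∈ d, p) = ∏ p ∈ d, rho1 D p := by
  induction d using Finset.induction_on with
  | empty =>
    rw [Finset.prod_empty, Finset.prod_empty]
    unfold rho1
    simp
  | insert a s ha ih =>
    rw [Finset.prod_insert ha, Finset.prod_insert ha]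
    have hp := hd a (mem_insert_self _ _)
    have hs : ∀ p ∈ s, p.Prime := fun p hps => hd p (mem_insert_of_mem hps)
    have hc : a.Coprime (∏ p ∈ s, p) := by
      refine Nat.Coprime.prod_right fun p hps => ?_
      rw [Nat.coprime_primes hp (hs p hps)]
      rintro rfl
      exact ha hps
    rw [rho1_mul D hc hp.ne_zero (Finset.prod_ne_zero_iff.2 fun p hps => (hs p hps).ne_zero), ih hs]

theorem rho1_le_sq (D : ℤ) (d : ℕ) : rho1 D d ≤ d ^ 2 := by
  unfold rho1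
  refine (Finset.card_filter_le _ _).trans ?_
  rw [card_product, card_range, pow_two]

end Pool.Agent.Work.MP_43ce8a_nt.D
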