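import Pool.Agent.Work.MP_43ce8a_nt.D.ApC
import Pool.Agent.Work.MP_43ce8a_nt.D.Rho1
import Pool.Agent.Work.MP_43ce8a_nt.D.QB

set_option autoImplicit false

/-!
Module FmD (size M-L). Level of distribution for one form.

Sset = pairs (w, v) with v in (a, a + h], w ≡ w0 (q), v ≡ v0 (2 q), 4 N < w² - D v² ≤ 4 (N + H).
fm_level: for d₀ = ∏ d squarefree and prime to q, the condition d₀ ∣ w² - D v² means that
(w, v) mod d₀ is one of the rho1 D d₀ solutions (c, c'). For each of them CRT gives one class of w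
modulo q d₀ and one class of v modulo 2 q d₀. For fixed v the w are the integers with
√(4N + D v²) < w ≤ √(4(N+H) + D v²) (Geo.lo: the radicand is ≥ N/2 > 0; these are the w in
[1, 4 N] because Geo.hi gives w² ≤ 16 N ≤ (4N)²), so by count_ap their number is
Lf D N H v / (q d₀) + O(1). Then mono_ap for f v = Lf D N H v: it is monotone in v (if D < 0) or
antitone (if D > 0), since √(s + 4H) - √s is decreasing in s; 0 ≤ Lf ≤ √(16 N) = 4 √N. Sum over the v: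
(1/(q d₀)) (1/(2 q d₀) ∑ Lf + O(2 * 4 √N)) + O(number of v ≤ h + 1 ≤ √N + 1 ≤ 2 √N)
= X1 / d₀² + O(8 √N + 2 √N). Multiply by rho1 D d₀ ≤ d₀².
-/

namespace Pool.Agent.Work.MP_43ce8a_nt.D

open Finset

/-- pairs `(w, v)` counted by the first moment -/
def Sset (q w0 v0 : ℕ) (D : ℤ) (N H a h : ℕ) : Finset (ℕ × ℕ) :=
  (Icc 1 (4 * N) ×ˢ Ioc a (a + h)).filter fun x => x.1 % q = w0 % q ∧ x.2 % (2 * q) = v0 % (2 * q) ∧
    4 * (N : ℤ) < (x.1 : ℤ) ^ 2 - D * (x.2 : ℤ) ^ 2 ∧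
    (x.1 : ℤ) ^ 2 - D * (x.2 : ℤ) ^ 2 ≤ 4 * ((N : ℤ) + H)

private theorem fm_lo {D : ℤ} {N H a h : ℕ} (hG : Geo D N H a h) {v : ℕ} (hv : v ∈ Ioc a (a + h)) :
    0 < 4 * (N : ℝ) + D * (v : ℝ) ^ 2 := by
  have h1 := hG.lo v hv
  have h2 : (N : ℝ) ≤ 2 * (4 * N + D * (v : ℝ) ^ 2) := by exact_mod_cast h1
  have h3 : (1 : ℝ) ≤ N := by exact_mod_cast hG.N1
  linarith

private theorem fm_hi {D : ℤ} {N H a h : ℕ} (hG : Geo D N H a h) {v : ℕ} (hv : v ∈ Ioc a (a + h)) :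
    4 * ((N : ℝ) + H) + D * (v : ℝ) ^ 2 ≤ 16 * N := by
  have h1 := hG.hi v hv
  exact_mod_cast h1

theorem Lf_bounds {D : ℤ} {N H a h : ℕ} (hG : Geo D N H a h) {v : ℕ} (hv : v ∈ Ioc a (a + h)) :
    0 ≤ Lf D N H v ∧ Lf D N H v ≤ 4 * Real.sqrt N := by
  unfold Lf
  have h1 := fm_lo hG hv
  have h2 := fm_hi hG hv
  constructor
  · rw [sub_nonneg]
    apply Real.sqrt_le_sqrt
    have : (0 : ℝ) ≤ H := Nat.cast_nonneg H
    linarith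
  · have h3 : Real.sqrt (4 * ((N : ℝ) + H) + D * (v : ℝ) ^ 2) ≤ Real.sqrt (16 * N) :=
      Real.sqrt_le_sqrt h2
    have h4 : Real.sqrt (16 * N) = 4 * Real.sqrt N := by
      rw [Real.sqrt_mul (by norm_num)]
      congr 1
      rw [show (16 : ℝ) = 4 ^ 2 by norm_num, Real.sqrt_sq (by norm_num)]
    have h5 := Real.sqrt_nonneg (4 * (N : ℝ) + D * (v : ℝ) ^ 2)
    linarith

private theorem fm_sqrt {s s' r : ℝ} (hs : 0 ≤ s) (hss : s ≤ s') (hr : 0 < r) :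
    Real.sqrt (r + s') - Real.sqrt s' ≤ Real.sqrt (r + s) - Real.sqrt s := by
  have h1 := Real.sq_sqrt (by linarith : 0 ≤ r + s')
  have h2 := Real.sq_sqrt (by linarith : 0 ≤ s')
  have h3 := Real.sq_sqrt (by linarith : 0 ≤ r + s)
  have h4 := Real.sq_sqrt hs
  have h5 : Real.sqrt (r + s) ≤ Real.sqrt (r + s') := Real.sqrt_le_sqrt (by linarith)
  have h6 : Real.sqrt s ≤ Real.sqrt s' := Real.sqrt_le_sqrt hss
  have h7 : 0 < Real.sqrt (r + s) := Real.sqrt_pos.2 (by linarith)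
  have h8 := Real.sqrt_nonneg s
  have h9 : Real.sqrt s ≤ Real.sqrt (r + s) := Real.sqrt_le_sqrt (by linarith)
  set A := Real.sqrt (r + s')
  set B := Real.sqrt s'
  set C := Real.sqrt (r + s)
  set E := Real.sqrt s
  by_contra hcon
  push Not at hcon
  have h10 : (A - B) * (A + B) = (C - E) * (C + E) := by nlinarith
  have h11 : (C - E) * (C + E) < (A - B) * (C + E) := by
    apply mul_lt_mul_of_pos_right hcon
    linarith
  have h12 : (A - B) * (C + E) ≤ (A - B) * (A + B) := by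
    apply mul_le_mul_of_nonneg_left (by linarith)
    linarith
  linarith

theorem Lf_mono {D : ℤ} {N H a h : ℕ} (hG : Geo D N H a h) :
    (∀ v ∈ Ioc a (a + h), ∀ v' ∈ Ioc a (a + h), v ≤ v' → Lf D N H v ≤ Lf D N H v') ∨
      (∀ v ∈ Ioc a (a + h), ∀ v' ∈ Ioc a (a + h), v ≤ v' → Lf D N H v' ≤ Lf D N H v) := by
  have hH : (0 : ℝ) < 4 * H := by
    have : (1 : ℝ) ≤ H := by exact_mod_cast hG.H1
    linarith
  have key : ∀ v ∈ Ioc a (a + h), ∀ v' ∈ Ioc a (a + h),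
      (D : ℝ) * (v : ℝ) ^ 2 ≤ D * (v' : ℝ) ^ 2 → Lf D N H v' ≤ Lf D N H v := by
    intro v hv v' hv' hle
    have h1 := fm_sqrt (fm_lo hG hv).le
      (show 4 * (N : ℝ) + D * (v : ℝ) ^ 2 ≤ 4 * (N : ℝ) + D * (v' : ℝ) ^ 2 by linarith) hH
    unfold Lf
    have e1 : 4 * ((N : ℝ) + H) + D * (v : ℝ) ^ 2 = 4 * H + (4 * N + D * (v : ℝ) ^ 2) := by ring
    have e2 : 4 * ((N : ℝ) + H) + D * (v' : ℝ) ^ 2 = 4 * H + (4 * N + D * (v' : ℝ) ^ 2) := by ring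
    rw [e1, e2]
    exact h1
  rcases le_total D 0 with hD | hD
  · left
    intro v hv v' hv' hvv
    apply key v' hv' v hv
    have h1 : (D : ℝ) ≤ 0 := by exact_mod_cast hD
    have h2 : (v : ℝ) ^ 2 ≤ (v' : ℝ) ^ 2 := by
      have : (v : ℝ) ≤ v' := by exact_mod_cast hvv
      gcongr
    nlinarith
  · right
    intro v hv v' hv' hvv
    apply key v hv v' hv'
    have h1 : (0 : ℝ) ≤ D := by exact_mod_cast hD
    have h2 : (v : ℝ) ^ 2 ≤ (v' : ℝ) ^ 2 := by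
      have : (v : ℝ) ≤ v' := by exact_mod_cast hvv
      gcongr
    nlinarith

theorem X1_nonneg {D : ℤ} {N H a h : ℕ} (q : ℕ) (hG : Geo D N H a h) : 0 ≤ X1 q D N H a h := by
  unfold X1
  have := sum_nonneg fun v hv => (Lf_bounds hG hv).1
  positivity

private theorem fm_crt (q m w0 c : ℕ) (h : q.Coprime m) (hc : c < m) :
    ∃ w1, ∀ w, (w % q = w0 % q ∧ w % m = c) ↔ w % (q * m) = w1 % (q * m) := by
  obtain ⟨k, hk1, hk2⟩ := Nat.chineseRemainder h w0 c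
  refine ⟨k, fun w => ?_⟩
  have h1 := Nat.modEq_and_modEq_iff_modEq_mul h (a := w) (b := k)
  unfold Nat.ModEq at *
  rw [← h1, hk1, hk2, Nat.mod_eq_of_lt hc]

private theorem fm_w {D : ℤ} {N H a h : ℕ} (hG : Geo D N H a h) {v : ℕ}
    (hv : v ∈ Ioc a (a + h)) (t w1 : ℕ) :
    ((Icc 1 (4 * N)).filter fun w => w % t = w1 % t ∧
      4 * (N : ℤ) < (w : ℤ) ^ 2 - D * (v : ℤ) ^ 2 ∧
      (w : ℤ) ^ 2 - D * (v : ℤ) ^ 2 ≤ 4 * ((N : ℤ) + H)) =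
    (Ioc ⌊Real.sqrt (4 * (N : ℝ) + D * (v : ℝ) ^ 2)⌋₊
      ⌊Real.sqrt (4 * ((N : ℝ) + H) + D * (v : ℝ) ^ 2)⌋₊).filter fun w => w % t = w1 % t := by
  have hlo := fm_lo hG hv
  have hhi := fm_hi hG hv
  have hN1 : (1 : ℝ) ≤ N := by exact_mod_cast hG.N1
  have hH0 : (0 : ℝ) ≤ H := Nat.cast_nonneg H
  ext w
  rw [mem_filter, mem_filter, mem_Icc, mem_Ioc]
  rcases Nat.eq_zero_or_pos w with rfl | hw
  · simp
  have hwr : (0 : ℝ) < w := by exact_mod_cast hw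
  rw [Nat.floor_lt (Real.sqrt_nonneg _), Nat.le_floor_iff (Real.sqrt_nonneg _),
    Real.sqrt_lt' hwr, Real.le_sqrt' hwr]
  have e1 : 4 * (N : ℤ) < (w : ℤ) ^ 2 - D * (v : ℤ) ^ 2 ↔
      4 * (N : ℝ) + D * (v : ℝ) ^ 2 < (w : ℝ) ^ 2 := by
    rw [lt_sub_iff_add_lt]
    exact_mod_cast Iff.rfl
  have e2 : (w : ℤ) ^ 2 - D * (v : ℤ) ^ 2 ≤ 4 * ((N : ℤ) + H) ↔
      (w : ℝ) ^ 2 ≤ 4 * ((N : ℝ) + H) + D * (v : ℝ) ^ 2 := by
    rw [sub_le_iff_le_add]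
    exact_mod_cast Iff.rfl
  rw [e1, e2]
  constructor
  · rintro ⟨-, h1, h2, h3⟩
    exact ⟨⟨h2, h3⟩, h1⟩
  · rintro ⟨⟨h2, h3⟩, h1⟩
    refine ⟨⟨hw, ?_⟩, h1, h2, h3⟩
    have h4 : (w : ℝ) ^ 2 ≤ (4 * N) ^ 2 := by nlinarith
    have h5 : (w : ℝ) ≤ 4 * N := by
      apply le_of_sq_le_sq h4
      linarith
    exact_mod_cast h5

private theorem fm_class {D : ℤ} {N H a h : ℕ} (hG : Geo D N H a h) (t s w1 v1 : ℕ)
    (ht : 0 < t) (hs : 0 < s) :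
    |(((Icc 1 (4 * N) ×ˢ Ioc a (a + h)).filter fun x : ℕ × ℕ =>
        x.1 % t = w1 % t ∧ x.2 % s = v1 % s ∧ 4 * (N : ℤ) < (x.1 : ℤ) ^ 2 - D * (x.2 : ℤ) ^ 2 ∧
        (x.1 : ℤ) ^ 2 - D * (x.2 : ℤ) ^ 2 ≤ 4 * ((N : ℤ) + H)).card : ℝ) -
      1 / ((t : ℝ) * s) * ∑ v ∈ Ioc a (a + h), Lf D N H v| ≤ 9 * Real.sqrt N := by
  have htr : (1 : ℝ) ≤ t := by exact_mod_cast ht
  have h1 : (((Icc 1 (4 * N) ×ˢ Ioc a (a + h)).filter fun x : ℕ × ℕ =>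
        x.1 % t = w1 % t ∧ x.2 % s = v1 % s ∧ 4 * (N : ℤ) < (x.1 : ℤ) ^ 2 - D * (x.2 : ℤ) ^ 2 ∧
        (x.1 : ℤ) ^ 2 - D * (x.2 : ℤ) ^ 2 ≤ 4 * ((N : ℤ) + H)).card : ℝ) =
      ∑ v ∈ (Ioc a (a + h)).filter (fun v => v % s = v1 % s),
        (((Icc 1 (4 * N)).filter fun w => w % t = w1 % t ∧
          4 * (N : ℤ) < (w : ℤ) ^ 2 - D * (v : ℤ) ^ 2 ∧
          (w : ℤ) ^ 2 - D * (v : ℤ) ^ 2 ≤ 4 * ((N : ℤ) + H)).card : ℝ) := by
    rw [← Nat.cast_sum]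
    congr 1
    rw [card_filter, sum_product_right, sum_filter]
    refine sum_congr rfl fun v _ => ?_
    by_cases hv : v % s = v1 % s
    · rw [if_pos hv, card_filter]
      refine sum_congr rfl fun w _ => ?_
      congr 1
      simp [hv]
    · rw [if_neg hv]
      exact sum_eq_zero fun w _ => if_neg fun h => hv h.2.1
  rw [h1]
  have h2 : ∀ v ∈ (Ioc a (a + h)).filter (fun v => v % s = v1 % s),
      |(((Icc 1 (4 * N)).filter fun w => w % t = w1 % t ∧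
          4 * (N : ℤ) < (w : ℤ) ^ 2 - D * (v : ℤ) ^ 2 ∧
          (w : ℤ) ^ 2 - D * (v : ℤ) ^ 2 ≤ 4 * ((N : ℤ) + H)).card : ℝ) -
        1 / (t : ℝ) * Lf D N H v| ≤ 1 := by
    intro v hv
    rw [mem_filter] at hv
    rw [fm_w hG hv.1]
    have hlo := fm_lo hG hv.1
    have hH0 : (0 : ℝ) ≤ H := Nat.cast_nonneg H
    have h3 := count_ap t w1 ht (Real.sqrt (4 * (N : ℝ) + D * (v : ℝ) ^ 2))
      (Real.sqrt (4 * ((N : ℝ) + H) + D * (v : ℝ) ^ 2)) (Real.sqrt_nonneg _)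
      (Real.sqrt_le_sqrt (by linarith))
    rw [div_eq_inv_mul] at h3
    rw [one_div]
    exact h3
  have h3 := mono_ap (fun v => Lf D N H v) a h s v1 hs (4 * Real.sqrt N) (by positivity)
    (Lf_mono hG) (fun v hv => Lf_bounds hG hv)
  set S1 := (Ioc a (a + h)).filter (fun v => v % s = v1 % s) with hS1
  set c : ℕ → ℝ := fun v => (((Icc 1 (4 * N)).filter fun w => w % t = w1 % t ∧
          4 * (N : ℤ) < (w : ℤ) ^ 2 - D * (v : ℤ) ^ 2 ∧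
          (w : ℤ) ^ 2 - D * (v : ℤ) ^ 2 ≤ 4 * ((N : ℤ) + H)).card : ℝ) with hc
  have h4 : |∑ v ∈ S1, c v - 1 / (t : ℝ) * ∑ v ∈ S1, Lf D N H v| ≤ Real.sqrt N := by
    rw [mul_sum, ← sum_sub_distrib]
    refine (abs_sum_le_sum_abs _ _).trans ((sum_le_sum h2).trans ?_)
    rw [sum_const, nsmul_eq_mul, mul_one]
    have h5 : S1.card ≤ h := by
      refine (card_filter_le _ _).trans ?_
      rw [Nat.card_Ioc]
      omega
    apply Real.le_sqrt_of_sq_le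
    have h6 : S1.card ^ 2 ≤ N := by
      have : S1.card ^ 2 ≤ (a + h) ^ 2 := Nat.pow_le_pow_left (by omega) 2
      exact this.trans hG.hN
    exact_mod_cast h6
  have h5 : |1 / (t : ℝ) * ∑ v ∈ S1, Lf D N H v -
      1 / ((t : ℝ) * s) * ∑ v ∈ Ioc a (a + h), Lf D N H v| ≤ 8 * Real.sqrt N := by
    have e1 : 1 / (t : ℝ) * ∑ v ∈ S1, Lf D N H v -
        1 / ((t : ℝ) * s) * ∑ v ∈ Ioc a (a + h), Lf D N H v =
        1 / (t : ℝ) * (∑ v ∈ S1, Lf D N H v - 1 / (s : ℝ) * ∑ v ∈ Ioc a (a + h), Lf D N H v) := by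
      field_simp
    rw [e1, abs_mul, abs_of_nonneg (by positivity)]
    have h6 : 1 / (t : ℝ) ≤ 1 := by
      rw [div_le_one (by linarith)]
      exact htr
    calc 1 / (t : ℝ) * |∑ v ∈ S1, Lf D N H v - 1 / (s : ℝ) * ∑ v ∈ Ioc a (a + h), Lf D N H v|
        ≤ 1 * (2 * (4 * Real.sqrt N)) := mul_le_mul h6 h3 (abs_nonneg _) zero_le_one
      _ = 8 * Real.sqrt N := by ring
  rw [abs_le] at h4 h5 ⊢
  constructor <;> linarith [h4.1, h4.2, h5.1, h5.2]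

theorem fm_level {y z w0 v0 : ℕ} {D : ℤ} {N H a h : ℕ} (hy : 2 ≤ y) (hG : Geo D N H a h)
    (d : Finset ℕ) (hd : d ⊆ pr y z) :
    |(((Sset (qq y) w0 v0 D N H a h).filter fun x =>
        ∀ p ∈ d, (p : ℤ) ∣ (x.1 : ℤ) ^ 2 - D * (x.2 : ℤ) ^ 2).card : ℝ) -
      X1 (qq y) D N H a h * ∏ p ∈ d, (rho1 D p : ℝ) / (p : ℝ) ^ 2| ≤
      20 * ((∏ p ∈ d, p : ℕ) : ℝ) ^ 2 * Real.sqrt N := by
  have hdp : ∀ p ∈ d, p.Prime := fun p hp => (mem_pr.1 (hd hp)).2.2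
  set m : ℕ := ∏ p ∈ d, p with hm
  have hm0 : 0 < m := prod_pos fun p hp => (hdp p hp).pos
  have hmq : (qq y).Coprime m := (prod_coprime hy hd).symm
  have hmq2 : (2 * qq y).Coprime m := by
    refine Nat.Coprime.mul_left ?_ hmq
    exact Nat.Coprime.coprime_dvd_left ((prime_dvd_qq hy Nat.prime_two).2 hy) hmq
  have hq := qq_pos y
  have hdvd : ∀ n : ℤ, (∀ p ∈ d, (p : ℤ) ∣ n) ↔ (m : ℤ) ∣ n := by
    intro n
    constructor
    · intro hn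
      rw [Int.natCast_dvd, hm]
      refine Finset.prod_primes_dvd _ (fun p hp => (hdp p hp).prime) fun p hp => ?_
      exact Int.natCast_dvd.1 (hn p hp)
    · intro hn p hp
      refine dvd_trans ?_ hn
      exact_mod_cast dvd_prod_of_mem (fun p => p) hp
  set R := (range m ×ˢ range m).filter fun x : ℕ × ℕ =>
    (m : ℤ) ∣ (x.1 : ℤ) ^ 2 - D * (x.2 : ℤ) ^ 2 with hR
  have hRc : R.card = rho1 D m := rfl
  set F := (Sset (qq y) w0 v0 D N H a h).filter fun x =>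
        ∀ p ∈ d, (p : ℤ) ∣ (x.1 : ℤ) ^ 2 - D * (x.2 : ℤ) ^ 2 with hF
  have hmod : ∀ x : ℕ × ℕ, (m : ℤ) ∣ (x.1 : ℤ) ^ 2 - D * (x.2 : ℤ) ^ 2 ↔
      (m : ℤ) ∣ ((x.1 % m : ℕ) : ℤ) ^ 2 - D * ((x.2 % m : ℕ) : ℤ) ^ 2 := by
    intro x
    have e1 : ((x.1 % m : ℕ) : ℤ) ≡ (x.1 : ℤ) [ZMOD m] := by
      push_cast
      exact Int.mod_modEq _ _
    have e2 : ((x.2 % m : ℕ) : ℤ) ≡ (x.2 : ℤ) [ZMOD m] := by
      push_cast
      exact Int.mod_modEq _ _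
    have e3 := (e1.pow 2).sub ((e2.pow 2).mul_left D)
    rw [← Int.modEq_zero_iff_dvd, ← Int.modEq_zero_iff_dvd]
    exact ⟨fun h => e3.trans h, fun h => e3.symm.trans h⟩
  have hmaps : ∀ x ∈ F, ((x.1 % m, x.2 % m) : ℕ × ℕ) ∈ R := by
    intro x hx
    rw [hF, mem_filter, hdvd] at hx
    rw [hR, mem_filter, mem_product, mem_range, mem_range]
    exact ⟨⟨Nat.mod_lt _ hm0, Nat.mod_lt _ hm0⟩, (hmod x).1 hx.2⟩
  have hcard : (F.card : ℝ) = ∑ c ∈ R, ((F.filter fun x => (x.1 % m, x.2 % m) = c).card : ℝ) := by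
    rw [card_eq_sum_card_fiberwise (f := fun x : ℕ × ℕ => (x.1 % m, x.2 % m)) hmaps]
    push_cast
    rfl
  have hclass : ∀ c ∈ R, |((F.filter fun x => (x.1 % m, x.2 % m) = c).card : ℝ) -
      1 / (m : ℝ) ^ 2 * X1 (qq y) D N H a h| ≤ 9 * Real.sqrt N := by
    intro c hc
    rw [hR, mem_filter, mem_product, mem_range, mem_range] at hc
    obtain ⟨w1, hw1⟩ := fm_crt (qq y) m w0 c.1 hmq hc.1.1
    obtain ⟨v1, hv1⟩ := fm_crt (2 * qq y) m v0 c.2 hmq2 hc.1.2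
    have e1 : (F.filter fun x => (x.1 % m, x.2 % m) = c) =
        (Icc 1 (4 * N) ×ˢ Ioc a (a + h)).filter fun x : ℕ × ℕ =>
        x.1 % (qq y * m) = w1 % (qq y * m) ∧ x.2 % (2 * qq y * m) = v1 % (2 * qq y * m) ∧
        4 * (N : ℤ) < (x.1 : ℤ) ^ 2 - D * (x.2 : ℤ) ^ 2 ∧
        (x.1 : ℤ) ^ 2 - D * (x.2 : ℤ) ^ 2 ≤ 4 * ((N : ℤ) + H) := by
      ext x
      rw [hF]
      unfold Sset
      rw [mem_filter, mem_filter, mem_filter, mem_filter, hdvd, ← hw1, ← hv1]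
      constructor
      · rintro ⟨⟨⟨h1, h2, h3, h4, h5⟩, h6⟩, h7⟩
        rw [← h7]
        exact ⟨h1, ⟨h2, rfl⟩, ⟨h3, rfl⟩, h4, h5⟩
      · rintro ⟨h1, ⟨h2, h6⟩, ⟨h3, h7⟩, h4, h5⟩
        refine ⟨⟨⟨h1, h2, h3, h4, h5⟩, ?_⟩, Prod.ext h6 h7⟩
        rw [hmod, h6, h7]
        exact hc.2
    have h1 := fm_class hG (qq y * m) (2 * qq y * m) w1 v1 (Nat.mul_pos hq hm0)
      (Nat.mul_pos (by omega) hm0)
    rw [e1]
    have e2 : 1 / (((qq y * m : ℕ) : ℝ) * ((2 * qq y * m : ℕ) : ℝ)) *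
        ∑ v ∈ Ioc a (a + h), Lf D N H v = 1 / (m : ℝ) ^ 2 * X1 (qq y) D N H a h := by
      unfold X1
      push_cast
      field_simp
    rw [e2] at h1
    exact h1
  have hprod : ∏ p ∈ d, (rho1 D p : ℝ) / (p : ℝ) ^ 2 = (R.card : ℝ) / (m : ℝ) ^ 2 := by
    rw [hRc, prod_div_distrib, rho1_prod D d hdp, hm, prod_pow]
    push_cast
    rfl
  rw [hprod, hcard]
  have e3 : ∑ c ∈ R, ((F.filter fun x => (x.1 % m, x.2 % m) = c).card : ℝ) -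
      X1 (qq y) D N H a h * ((R.card : ℝ) / (m : ℝ) ^ 2) =
      ∑ c ∈ R, (((F.filter fun x => (x.1 % m, x.2 % m) = c).card : ℝ) -
        1 / (m : ℝ) ^ 2 * X1 (qq y) D N H a h) := by
    rw [sum_sub_distrib, sum_const, nsmul_eq_mul]
    ring
  rw [e3]
  refine (abs_sum_le_sum_abs _ _).trans ((sum_le_sum hclass).trans ?_)
  rw [sum_const, nsmul_eq_mul]
  have h6 : (R.card : ℝ) ≤ (m : ℝ) ^ 2 := by
    rw [hRc]
    exact_mod_cast rho1_le_sq D m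
  have h7 := Real.sqrt_nonneg (N : ℝ)
  calc (R.card : ℝ) * (9 * Real.sqrt N) ≤ (m : ℝ) ^ 2 * (9 * Real.sqrt N) := by gcongr
    _ ≤ 20 * (m : ℝ) ^ 2 * Real.sqrt N := by nlinarith [sq_nonneg (m : ℝ), mul_nonneg (sq_nonneg (m : ℝ)) h7]

end Pool.Agent.Work.MP_43ce8a_nt.D
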