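import Pool.Agent.Work.MP_43ce8a_nt.D.LatP

set_option autoImplicit false

/-!
Module Lat (size S-M). Decompositions for odd m.

dec_one: the subgroup ⊤, k = 1. dec_mul: index type ι × ι', L (i, i') = L i ⊓ L' i', sign the product;
m n ∣ Q x iff m ∣ Q x and n ∣ Q x (coprime); (m n) • x ∈ both.
dec_odd: induction over the prime factorisation (Nat.recOnPosPrimePosCoprime), (α + 1)² =
(card of the divisors of p^α)², and card divisors is multiplicative (Nat.Coprime.card_divisors_mul).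
HasDec is monotone in k.
-/

namespace Pool.Agent.Work.MP_43ce8a_nt.D

open Finset

theorem dec_one (A A' : ℤ) : HasDec A A' 1 1 := by
  classical
  refine ⟨Unit, inferInstance, fun _ => ⊤, fun _ => 1, ?_, ?_, ?_, ?_, ?_⟩
  · simp
  · intro _; left; rfl
  · intro _ x _; simp
  · intro _ x; exact AddSubgroup.mem_top _
  · intro x
    simp

theorem dec_mul (A A' : ℤ) {m n k l : ℕ} (h : m.Coprime n) (hm : HasDec A A' m k)
    (hn : HasDec A A' n l) : HasDec A A' (m * n) (k * l) := by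
  classical
  obtain ⟨ι, hι, L, s, h1, h2, h3, h4, h5⟩ := hm
  obtain ⟨κ, hκ, M, t, g1, g2, g3, g4, g5⟩ := hn
  have hQ : ∀ x, ((m * n : ℕ) : ℤ) ∣ Qf A A' x ↔ (m : ℤ) ∣ Qf A A' x ∧ (n : ℤ) ∣ Qf A A' x := by
    intro x
    rw [Nat.cast_mul]
    constructor
    · intro hx
      exact ⟨dvd_trans (Dvd.intro _ rfl) hx, dvd_trans (Dvd.intro_left _ rfl) hx⟩
    · rintro ⟨hx, hx'⟩
      exact IsCoprime.mul_dvd (Nat.isCoprime_iff_coprime.2 h) hx hx'
  refine ⟨ι × κ, inferInstance, fun i => L i.1 ⊓ M i.2, fun i => s i.1 * t i.2, ?_, ?_, ?_, ?_, ?_⟩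
  · rw [Fintype.card_prod]
    exact Nat.mul_le_mul h1 g1
  · rintro ⟨i, j⟩
    rcases h2 i with h6 | h6 <;> rcases g2 j with g6 | g6 <;> simp [h6, g6]
  · rintro ⟨i, j⟩ x hx
    have hx' := AddSubgroup.mem_inf.1 hx
    exact (hQ x).2 ⟨h3 i x hx'.1, g3 j x hx'.2⟩
  · rintro ⟨i, j⟩ x
    refine AddSubgroup.mem_inf.2 ⟨?_, ?_⟩
    · rw [mul_comm, mul_nsmul]
      exact h4 i (n • x)
    · rw [mul_nsmul]
      exact g4 j (m • x)
  · intro x
    have e : (if ((m * n : ℕ) : ℤ) ∣ Qf A A' x then (1 : ℤ) else 0) =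
        (if (m : ℤ) ∣ Qf A A' x then (1 : ℤ) else 0) *
          (if (n : ℤ) ∣ Qf A A' x then (1 : ℤ) else 0) := by
      rw [if_congr (hQ x) rfl rfl]
      by_cases a1 : (m : ℤ) ∣ Qf A A' x <;> by_cases a2 : (n : ℤ) ∣ Qf A A' x <;>
        simp [a1, a2]
    rw [e, h5 x, g5 x, Fintype.sum_prod_type, sum_mul_sum]
    apply sum_congr rfl
    intro i _
    apply sum_congr rfl
    intro j _
    by_cases a1 : x ∈ L i <;> by_cases a2 : x ∈ M j <;> simp [a1, a2, AddSubgroup.mem_inf]

private lemma Lat_odd (A A' : ℤ) (hs : Squarefree A) (hs' : Squarefree A') (hc : IsCoprime A A')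
    (m : ℕ) : 0 < m → m % 2 = 1 → HasDec A A' m (m.divisors.card ^ 2) := by
  induction m using Nat.recOnPosPrimePosCoprime with
  | prime_pow p n hp hn =>
    intro _ hodd
    have h2 : p ≠ 2 := by
      rintro rfl
      have : 2 ∣ 2 ^ n := dvd_pow_self _ (by omega)
      omega
    have := dec_pp A A' hs hs' hc hp h2 n
    rwa [Nat.divisors_prime_pow hp, card_map, card_range]
  | zero => intro h; omega
  | one =>
    intro _ _
    simpa using dec_one A A'
  | coprime a b ha hb hab iha ihb =>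
    intro _ hodd
    have ha2 : a % 2 = 1 := by
      rcases Nat.mod_two_eq_zero_or_one a with h | h
      · rw [Nat.mul_mod, h] at hodd; simp at hodd
      · exact h
    have hb2 : b % 2 = 1 := by
      rcases Nat.mod_two_eq_zero_or_one b with h | h
      · rw [Nat.mul_mod, h] at hodd; simp at hodd
      · exact h
    have := dec_mul A A' hab (iha (by omega) ha2) (ihb (by omega) hb2)
    rwa [hab.card_divisors_mul, mul_pow]

theorem dec_odd (A A' : ℤ) (hs : Squarefree A) (hs' : Squarefree A') (hc : IsCoprime A A')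
    (m : ℕ) (hm : m % 2 = 1) : HasDec A A' m (m.divisors.card ^ 2) :=
  Lat_odd A A' hs hs' hc m (by omega) hm

end Pool.Agent.Work.MP_43ce8a_nt.D
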