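import Pool.Agent.Work.MP_43ce8a_nt.D.Defs

set_option autoImplicit false

/-!
Module LcAvg (size S-M). Averaging over the cosets of a subgroup of finite index, indices.

coset_avg: the finite quotient (ℤ × ℤ) ⧸ L has L.index elements, and a finite set S is the disjoint
union over the cosets; so if all coset counts are within M of each other then each is within M of the
average card S / index.
box_count: if m • x ∈ L for all x, the number of points of L in the box [0, m)² is m² / index: the count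
for the coset t + L is independent of t (shifting by an element of ℤ² and reducing modulo m permutes
the box), then average. So index * count = m².
index_inf: L ⊓ t ℤ² (tZ t) has index t² * index for t prime to m: index L divides m² (box_count),
index (tZ t) = t², the indices are coprime (Subgroup.index_inf_eq... relIndex arguments, or: the map
ℤ² → ℤ²/L × ℤ²/tℤ² is surjective by Bezout u m + v t = 1 with kernel the intersection).
-/

namespace Pool.Agent.Work.MP_43ce8a_nt.D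

open Finset

/-- the lattice `t ℤ ^ 2` -/
def tZ (t : ℕ) : AddSubgroup (ℤ × ℤ) where
  carrier := {x | (t : ℤ) ∣ x.1 ∧ (t : ℤ) ∣ x.2}
  zero_mem' := ⟨dvd_zero _, dvd_zero _⟩
  add_mem' := fun h h' => ⟨dvd_add h.1 h'.1, dvd_add h.2 h'.2⟩
  neg_mem' := fun h => ⟨(dvd_neg).2 h.1, (dvd_neg).2 h.2⟩

theorem mem_tZ (t : ℕ) (x : ℤ × ℤ) : x ∈ tZ t ↔ (t : ℤ) ∣ x.1 ∧ (t : ℤ) ∣ x.2 := Iff.rfl

open Classical in
theorem coset_avg (L : AddSubgroup (ℤ × ℤ)) (hL : L.index ≠ 0) (S : Finset (ℤ × ℤ)) (M : ℝ)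
    (h : ∀ t t' : ℤ × ℤ, |((S.filter fun x => x - t ∈ L).card : ℝ) -
      ((S.filter fun x => x - t' ∈ L).card : ℝ)| ≤ M) (t : ℤ × ℤ) :
    |((S.filter fun x => x - t ∈ L).card : ℝ) - (S.card : ℝ) / L.index| ≤ M := by
  haveI : L.FiniteIndex := ⟨hL⟩
  haveI : Fintype ((ℤ × ℤ) ⧸ L) := AddSubgroup.fintypeQuotientOfFiniteIndex
  have hidx : L.index = Fintype.card ((ℤ × ℤ) ⧸ L) := by
    rw [AddSubgroup.index_eq_card, Nat.card_eq_fintype_card]
  have hpos : (0 : ℝ) < L.index := by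
    have : 0 < L.index := Nat.pos_of_ne_zero hL
    exact_mod_cast this
  have h1 : (S.card : ℝ) = ∑ q : (ℤ × ℤ) ⧸ L,
      ((S.filter fun x => x - Quotient.out q ∈ L).card : ℝ) := by
    have h2 := card_eq_sum_card_fiberwise (s := S) (t := univ)
      (f := fun x => (QuotientAddGroup.mk x : (ℤ × ℤ) ⧸ L)) (fun x _ => mem_coe.2 (mem_univ _))
    rw [h2, Nat.cast_sum]
    refine sum_congr rfl fun q _ => ?_
    congr 2
    apply filter_congr
    intro x _
    have h3 : (QuotientAddGroup.mk (Quotient.out q) : (ℤ × ℤ) ⧸ L) = q :=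
      QuotientAddGroup.out_eq' q
    constructor
    · intro h4
      rw [← h3] at h4
      have h5 := QuotientAddGroup.eq.1 h4.symm
      rwa [neg_add_eq_sub] at h5
    · intro h4
      rw [← h3]
      apply Eq.symm
      rw [QuotientAddGroup.eq, neg_add_eq_sub]
      exact h4
  set N := ((S.filter fun x => x - t ∈ L).card : ℝ) with hN
  have h4 : N - (S.card : ℝ) / L.index = (∑ q : (ℤ × ℤ) ⧸ L,
      (N - ((S.filter fun x => x - Quotient.out q ∈ L).card : ℝ))) / L.index := by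
    rw [sum_sub_distrib, sum_const, card_univ, ← hidx, nsmul_eq_mul, ← h1]
    field_simp
  rw [h4, abs_div, abs_of_pos hpos, div_le_iff₀ hpos]
  refine (abs_sum_le_sum_abs _ _).trans ?_
  refine (sum_le_card_nsmul univ _ M fun q _ => h t _).trans ?_
  rw [card_univ, ← hidx, nsmul_eq_mul, mul_comm]

open Classical in
theorem box_count (L : AddSubgroup (ℤ × ℤ)) (m : ℕ) (hm : 0 < m) (h : ∀ x, m • x ∈ L) :
    L.index ≠ 0 ∧ L.index * ((range m ×ˢ range m).filter fun x : ℕ × ℕ =>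
      ((x.1 : ℤ), (x.2 : ℤ)) ∈ L).card = m ^ 2 := by
  have hmz : (0 : ℤ) < m := by exact_mod_cast hm
  have hmem : ∀ x : ℤ × ℤ, (m : ℤ) ∣ x.1 → (m : ℤ) ∣ x.2 → x ∈ L := by
    rintro ⟨x, y⟩ ⟨k, hk⟩ ⟨k', hk'⟩
    have h1 := h (k, k')
    have h2 : m • (k, k') = (x, y) := by
      simp only at hk hk'
      rw [hk, hk']
      simp
    rwa [h2] at h1
  -- reduction modulo `m`
  let red : ℤ × ℤ → ℤ × ℤ := fun x => (x.1 % m, x.2 % m)
  have hred : ∀ x, x - red x ∈ L := by
    intro x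
    apply hmem
    · exact Int.dvd_self_sub_emod
    · exact Int.dvd_self_sub_emod
  let S : Finset (ℤ × ℤ) := Ico 0 (m : ℤ) ×ˢ Ico 0 (m : ℤ)
  have hredS : ∀ x, red x ∈ S := by
    intro x
    rw [mem_product, mem_Ico, mem_Ico]
    exact ⟨⟨Int.emod_nonneg _ hmz.ne', Int.emod_lt_of_pos _ hmz⟩,
      ⟨Int.emod_nonneg _ hmz.ne', Int.emod_lt_of_pos _ hmz⟩⟩
  have hfin : Finite ((ℤ × ℤ) ⧸ L) := by
    have hsurj : Function.Surjective (fun x : S => (QuotientAddGroup.mk x.1 : (ℤ × ℤ) ⧸ L)) := by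
      intro q
      obtain ⟨x, rfl⟩ := QuotientAddGroup.mk_surjective q
      refine ⟨⟨red x, hredS x⟩, ?_⟩
      simp only
      rw [QuotientAddGroup.eq, neg_add_eq_sub]
      exact hred x
    exact Finite.of_surjective _ hsurj
  have hL : L.index ≠ 0 := by
    rw [AddSubgroup.index_eq_card]
    exact Nat.card_ne_zero.2 ⟨inferInstance, hfin⟩
  refine ⟨hL, ?_⟩
  have hle : ∀ t t' : ℤ × ℤ, (S.filter fun x => x - t ∈ L).card ≤
      (S.filter fun x => x - t' ∈ L).card := by
    intro t t'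
    apply card_le_card_of_injOn (fun x => red (x + (t' - t)))
    · intro x hx
      obtain ⟨hx1, hx2⟩ := mem_filter.1 (mem_coe.1 hx)
      rw [mem_coe, mem_filter]
      refine ⟨hredS _, ?_⟩
      have h1 := hred (x + (t' - t))
      have h2 : red (x + (t' - t)) - t' = (x - t) - (x + (t' - t) - red (x + (t' - t))) := by
        abel
      rw [h2]
      exact L.sub_mem hx2 h1
    · intro x hx y hy hxy
      have hx1 := (mem_filter.1 (mem_coe.1 hx)).1
      have hy1 := (mem_filter.1 (mem_coe.1 hy)).1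
      rw [mem_product, mem_Ico, mem_Ico] at hx1 hy1
      simp only [red, Prod.mk.injEq, Prod.fst_add, Prod.snd_add] at hxy
      have key : ∀ p q s : ℤ, 0 ≤ p → p < m → 0 ≤ q → q < m → (p + s) % m = (q + s) % m →
          p = q := by
        intro p q s h1 h2 h3 h4 h5
        have h6 : (m : ℤ) ∣ (p + s) - (q + s) := Int.ModEq.dvd (Eq.symm h5)
        rw [add_sub_add_right_eq_sub] at h6
        have h7 : p - q = 0 := Int.eq_zero_of_abs_lt_dvd h6 (by
          rw [abs_lt]
          constructor <;> linarith)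
        linarith
      refine Prod.ext (key _ _ _ hx1.1.1 hx1.1.2 hy1.1.1 hy1.1.2 hxy.1)
        (key _ _ _ hx1.2.1 hx1.2.2 hy1.2.1 hy1.2.2 hxy.2)
  have havg := coset_avg L hL S 0 (fun t t' => by
    rw [le_antisymm (hle t t') (hle t' t)]
    simp) 0
  have hcard : S.card = m ^ 2 := by
    rw [card_product, Int.card_Ico, sub_zero, Int.toNat_natCast, sq]
  have hcnt : (S.filter fun x => x - 0 ∈ L).card = ((range m ×ˢ range m).filter
      fun x : ℕ × ℕ => ((x.1 : ℤ), (x.2 : ℤ)) ∈ L).card := by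
    symm
    apply card_bij (fun x _ => ((x.1 : ℤ), (x.2 : ℤ)))
    · rintro ⟨x, y⟩ hx
      rw [mem_filter, mem_product, mem_range, mem_range] at hx
      rw [mem_filter, mem_product, mem_Ico, mem_Ico, sub_zero]
      refine ⟨⟨⟨by positivity, ?_⟩, ⟨by positivity, ?_⟩⟩, hx.2⟩
      · exact Nat.cast_lt.2 hx.1.1
      · exact Nat.cast_lt.2 hx.1.2
    · rintro ⟨x, y⟩ _ ⟨x', y'⟩ _ hxy
      simp only [Prod.mk.injEq, Nat.cast_inj] at hxy
      rw [hxy.1, hxy.2]
    · rintro ⟨x, y⟩ hx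
      rw [mem_filter, mem_product, mem_Ico, mem_Ico, sub_zero] at hx
      obtain ⟨⟨⟨h1, h2⟩, ⟨h3, h4⟩⟩, h5⟩ := hx
      simp only at h1 h2 h3 h4
      refine ⟨(x.toNat, y.toNat), ?_, ?_⟩
      · rw [mem_filter, mem_product, mem_range, mem_range]
        simp only
        rw [Int.toNat_of_nonneg h1, Int.toNat_of_nonneg h3]
        refine ⟨⟨?_, ?_⟩, h5⟩
        · omega
        · omega
      · simp only
        rw [Int.toNat_of_nonneg h1, Int.toNat_of_nonneg h3]
  have h1 : ((S.filter fun x => x - 0 ∈ L).card : ℝ) = (S.card : ℝ) / L.index := by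
    have := abs_nonpos_iff.1 havg
    linarith
  have hpos : (0 : ℝ) < L.index := by
    have : 0 < L.index := Nat.pos_of_ne_zero hL
    exact_mod_cast this
  rw [hcnt, hcard, eq_div_iff hpos.ne'] at h1
  rw [mul_comm]
  exact_mod_cast h1

theorem index_inf (L : AddSubgroup (ℤ × ℤ)) (m t : ℕ) (hm : 0 < m) (ht : 0 < t)
    (hmt : t.Coprime m) (h : ∀ x, m • x ∈ L) : (L ⊓ tZ t).index = t ^ 2 * L.index := by
  classical
  obtain ⟨h1, h2⟩ := box_count L m hm h
  obtain ⟨h3, h4⟩ := box_count (L ⊓ tZ t) (t * m) (Nat.mul_pos ht hm) (by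
    intro x
    refine AddSubgroup.mem_inf.2 ⟨?_, ?_⟩
    · rw [mul_smul]
      exact L.nsmul_mem (h x) t
    · rw [mem_tZ]
      refine ⟨⟨m * x.1, ?_⟩, ⟨m * x.2, ?_⟩⟩
      · simp [mul_assoc]
      · simp [mul_assoc])
  set c := ((range m ×ˢ range m).filter fun x : ℕ × ℕ => ((x.1 : ℤ), (x.2 : ℤ)) ∈ L).card with hc
  have htz : (0 : ℤ) < t := by exact_mod_cast ht
  have hcnt : ((range (t * m) ×ˢ range (t * m)).filter
      fun x : ℕ × ℕ => ((x.1 : ℤ), (x.2 : ℤ)) ∈ L ⊓ tZ t).card = c := by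
    symm
    apply card_bij (fun x _ => (t * x.1, t * x.2))
    · rintro ⟨x, y⟩ hx
      rw [mem_filter, mem_product, mem_range, mem_range] at hx
      rw [mem_filter, mem_product, mem_range, mem_range]
      simp only at hx ⊢
      refine ⟨⟨(Nat.mul_lt_mul_left ht).2 hx.1.1, (Nat.mul_lt_mul_left ht).2 hx.1.2⟩,
        AddSubgroup.mem_inf.2 ⟨?_, ?_⟩⟩
      · have h5 := L.nsmul_mem hx.2 t
        simpa using h5
      · rw [mem_tZ]
        push_cast
        exact ⟨Dvd.intro _ rfl, Dvd.intro _ rfl⟩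
    · rintro ⟨x, y⟩ _ ⟨x', y'⟩ _ hxy
      simp only [Prod.mk.injEq] at hxy
      rw [Nat.eq_of_mul_eq_mul_left ht hxy.1, Nat.eq_of_mul_eq_mul_left ht hxy.2]
    · rintro ⟨x, y⟩ hx
      rw [mem_filter, mem_product, mem_range, mem_range] at hx
      obtain ⟨⟨h5, h6⟩, h7, h8⟩ := hx
      simp only at h5 h6 h7 h8
      obtain ⟨⟨x', hx'⟩, ⟨y', hy'⟩⟩ : t ∣ x ∧ t ∣ y := by
        obtain ⟨h9, h10⟩ := (mem_tZ t _).1 h8
        exact ⟨Int.natCast_dvd_natCast.1 h9, Int.natCast_dvd_natCast.1 h10⟩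
      subst hx' hy'
      refine ⟨(x', y'), ?_, rfl⟩
      rw [mem_filter, mem_product, mem_range, mem_range]
      refine ⟨⟨(Nat.mul_lt_mul_left ht).1 h5, (Nat.mul_lt_mul_left ht).1 h6⟩, ?_⟩
      -- Bezout
      have hb : IsCoprime (t : ℤ) (m : ℤ) := Nat.isCoprime_iff_coprime.2 hmt
      obtain ⟨u, v, huv⟩ := hb
      have e1 : (t : ℤ) • ((x' : ℤ), (y' : ℤ)) ∈ L := by
        have : (t : ℤ) • ((x' : ℤ), (y' : ℤ)) = (((t * x' : ℕ) : ℤ), ((t * y' : ℕ) : ℤ)) := by
          simp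
        rw [this]
        exact h7
      have e2 : (m : ℤ) • ((x' : ℤ), (y' : ℤ)) ∈ L := by
        rw [natCast_zsmul]
        exact h _
      have e3 : ((x' : ℤ), (y' : ℤ)) = u • ((t : ℤ) • ((x' : ℤ), (y' : ℤ))) +
          v • ((m : ℤ) • ((x' : ℤ), (y' : ℤ))) := by
        rw [smul_smul, smul_smul, ← add_smul, huv, one_smul]
      simp only
      rw [e3]
      exact L.add_mem (L.zsmul_mem e1 u) (L.zsmul_mem e2 v)
  rw [hcnt] at h4
  have hc0 : 0 < c := by
    rcases Nat.eq_zero_or_pos c with h5 | h5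
    · rw [h5, mul_zero] at h2
      have := pow_pos hm 2
      omega
    · exact h5
  apply Nat.eq_of_mul_eq_mul_right hc0
  rw [h4, mul_assoc, h2]
  ring

end Pool.Agent.Work.MP_43ce8a_nt.D
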