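import Mathlib

set_option autoImplicit false

/-!
Module LcLine (size M, Mathlib only). Points of an arithmetic progression P + ℤ e in a rectangle,
e = (α, β), as a function of the invariant s = α P.2 - β P.1.

PROOF. The points of P + ℤ e in the rectangle correspond to the integers i with x₁ = P.1 + i α in
(a, a + h] and x₂ = P.2 + i β = (s + β x₁)/α in (a', a' + h']. As a condition on the real number x₁ this
is an interval I_s (open, closed or half-open) with end points
β > 0: max a ((α a' - s)/β), min (a + h) ((α (a' + h') - s)/β);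
β < 0: max a ((α (a' + h') - s)/β), min (a + h) ((α a' - s)/β);
β = 0: (a, a + h] if α a' < s ≤ α (a' + h'), else empty.
f s = max 0 (right end - left end) / α (for β = 0: h / α or 0). The number of i with
P.1 + i α in an interval of length λ is λ / α + O(1) (if the interval is empty, 0; note that right end
< left end gives empty). Quasi-concavity: for β ≠ 0, right end - left end is concave in s (a minimum of
affine functions minus a maximum of affine functions), and max 0 of a concave function is quasi-concave;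
for β = 0 f is a multiple of the indicator function of an interval.
Support: on the closed rectangle α x₂ - β x₁ takes its values in an interval
[s₀, s₀ + α h' + |β| h], s₀ = α a' - β (a + h) if β ≥ 0 and α a' - β a if β < 0.
-/

namespace Pool.Agent.Work.MP_43ce8a_nt.D

open Finset

/-- Counting integers between two real numbers. -/
private theorem cnt (Z : Finset ℤ) (u v : ℝ) (h1 : ∀ i : ℤ, u < i → (i : ℝ) < v → i ∈ Z)
    (h2 : ∀ i ∈ Z, u ≤ (i : ℝ) ∧ (i : ℝ) ≤ v) : |(Z.card : ℝ) - max 0 (v - u)| ≤ 2 := by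
  rcases lt_or_ge v u with huv | huv
  · have h3 : Z = ∅ := by
      rw [eq_empty_iff_forall_notMem]
      intro i hi
      have := h2 i hi
      linarith
    rw [h3, max_eq_left (by linarith)]
    simp
  · rw [max_eq_right (by linarith)]
    have h3 : Z ⊆ Icc ⌈u⌉ ⌊v⌋ := by
      intro i hi
      obtain ⟨h4, h5⟩ := h2 i hi
      rw [mem_Icc]
      exact ⟨Int.ceil_le.2 h4, Int.le_floor.2 h5⟩
    have h4 : Ioo ⌊u⌋ ⌈v⌉ ⊆ Z := by
      intro i hi
      rw [mem_Ioo] at hi
      exact h1 i (Int.floor_lt.1 hi.1) (Int.lt_ceil.1 hi.2)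
    have h5 := card_le_card h3
    have h6 := card_le_card h4
    rw [Int.card_Icc] at h5
    rw [Int.card_Ioo] at h6
    have h7 : (⌊v⌋ : ℝ) ≤ v := Int.floor_le v
    have h8 : u ≤ (⌈u⌉ : ℝ) := Int.le_ceil u
    have h9 : v ≤ (⌈v⌉ : ℝ) := Int.le_ceil v
    have h10 : (⌊u⌋ : ℝ) ≤ u := Int.floor_le u
    have h11 : v < (⌊v⌋ : ℝ) + 1 := Int.lt_floor_add_one v
    have h12 : (⌈u⌉ : ℝ) < u + 1 := Int.ceil_lt_add_one u
    have h13 : ((Z.card : ℤ) : ℝ) ≤ v - u + 1 := by
      rcases le_or_gt 0 (⌊v⌋ + 1 - ⌈u⌉) with h | h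
      · have h14 : (Z.card : ℤ) ≤ ⌊v⌋ + 1 - ⌈u⌉ := by omega
        have h15 : ((Z.card : ℤ) : ℝ) ≤ ((⌊v⌋ + 1 - ⌈u⌉ : ℤ) : ℝ) := by exact_mod_cast h14
        push_cast at h15 ⊢
        linarith
      · have h14 : Z.card = 0 := by omega
        rw [h14]
        push_cast
        linarith
    have h14 : v - u - 1 ≤ ((Z.card : ℤ) : ℝ) := by
      have h14 : ⌈v⌉ - ⌊u⌋ - 1 ≤ (Z.card : ℤ) := by omega
      have h15 : ((⌈v⌉ - ⌊u⌋ - 1 : ℤ) : ℝ) ≤ ((Z.card : ℤ) : ℝ) := by exact_mod_cast h14
      push_cast at h15 ⊢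
      linarith
    push_cast at h13 h14
    rw [abs_le]
    constructor <;> linarith

/-- The points of the progression, by their index. -/
private theorem exists_Z (α β : ℤ) (hα : 0 < α) (a h a' h' : ℕ) (P : ℤ × ℤ)
    (R : Finset (ℕ × ℕ)) (hR : ∀ x, x ∈ R ↔ x ∈ Ioc a (a + h) ×ˢ Ioc a' (a' + h') ∧
      ∃ i : ℤ, (x.1 : ℤ) = P.1 + i * α ∧ (x.2 : ℤ) = P.2 + i * β) :
    ∃ Z : Finset ℤ, Z.card = R.card ∧ ∀ i : ℤ, i ∈ Z ↔
      ((a : ℤ) < P.1 + i * α ∧ P.1 + i * α ≤ a + h) ∧
      ((a' : ℤ) < P.2 + i * β ∧ P.2 + i * β ≤ a' + h') := by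
  classical
  have hidx : ∀ (x : ℕ × ℕ) (i : ℤ), (x.1 : ℤ) = P.1 + i * α → ((x.1 : ℤ) - P.1) / α = i := by
    intro x i h1
    rw [h1, add_sub_cancel_left, Int.mul_ediv_cancel _ hα.ne']
  refine ⟨R.image fun x => ((x.1 : ℤ) - P.1) / α, ?_, fun i => ?_⟩
  · apply card_image_of_injOn
    intro x hx y hy hxy
    obtain ⟨_, i, h1, h2⟩ := (hR x).1 (mem_coe.1 hx)
    obtain ⟨_, j, h3, h4⟩ := (hR y).1 (mem_coe.1 hy)
    simp only at hxy
    rw [hidx x i h1, hidx y j h3] at hxy
    subst hxy
    have e1 : (x.1 : ℤ) = y.1 := h1.trans h3.symm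
    have e2 : (x.2 : ℤ) = y.2 := h2.trans h4.symm
    exact Prod.ext (by exact_mod_cast e1) (by exact_mod_cast e2)
  · rw [mem_image]
    constructor
    · rintro ⟨x, hx, rfl⟩
      obtain ⟨h0, j, h1, h2⟩ := (hR x).1 hx
      rw [hidx x j h1]
      rw [mem_product, mem_Ioc, mem_Ioc] at h0
      rw [← h1, ← h2]
      omega
    · rintro ⟨⟨h1, h2⟩, h3, h4⟩
      have e1 : ((P.1 + i * α).toNat : ℤ) = P.1 + i * α := Int.toNat_of_nonneg (by omega)
      have e2 : ((P.2 + i * β).toNat : ℤ) = P.2 + i * β := Int.toNat_of_nonneg (by omega)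
      refine ⟨((P.1 + i * α).toNat, (P.2 + i * β).toNat), ?_, hidx _ i e1⟩
      rw [hR, mem_product, mem_Ioc, mem_Ioc]
      refine ⟨⟨⟨?_, ?_⟩, ?_, ?_⟩, i, e1, e2⟩ <;> omega

/-- Quasi-concavity. -/
private theorem qc (lo hi : ℤ → ℝ) (A B : ℝ) (α : ℝ) (hα : 0 < α)
    (hc : ∀ s t, hi s - lo s = hi t - lo t)
    (hm : (∀ s t, s ≤ t → lo t ≤ lo s) ∨ (∀ s t, s ≤ t → lo s ≤ lo t)) (s t u : ℤ) (hst : s ≤ t)
    (htu : t ≤ u) :
    min (max 0 ((min B (hi s) - max A (lo s)) / α)) (max 0 ((min B (hi u) - max A (lo u)) / α)) ≤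
      max 0 ((min B (hi t) - max A (lo t)) / α) := by
  set g : ℤ → ℝ := fun s => min B (hi s) - max A (lo s) with hg
  have key : min (g s) (g u) ≤ g t := by
    set m := min (g s) (g u) with hmdef
    have h1 : m ≤ g s := min_le_left _ _
    have h2 : m ≤ g u := min_le_right _ _
    simp only [hg] at h1 h2 ⊢
    have a1 := min_le_left B (hi s)
    have a2 := min_le_right B (hi s)
    have a3 := le_max_left A (lo s)
    have a4 := le_max_right A (lo s)
    have b1 := min_le_left B (hi u)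
    have b2 := min_le_right B (hi u)
    have b3 := le_max_left A (lo u)
    have b4 := le_max_right A (lo u)
    have c1 := hc s t
    have c2 := hc u t
    rcases hm with hm | hm
    · have d1 := hm s t hst
      have d2 := hm t u htu
      rcases le_total B (hi t) with e1 | e1 <;> rcases le_total A (lo t) with e2 | e2
      · rw [min_eq_left e1, max_eq_right e2]
        linarith
      · rw [min_eq_left e1, max_eq_left e2]
        linarith
      · rw [min_eq_right e1, max_eq_right e2]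
        linarith
      · rw [min_eq_right e1, max_eq_left e2]
        linarith
    · have d1 := hm s t hst
      have d2 := hm t u htu
      rcases le_total B (hi t) with e1 | e1 <;> rcases le_total A (lo t) with e2 | e2
      · rw [min_eq_left e1, max_eq_right e2]
        linarith
      · rw [min_eq_left e1, max_eq_left e2]
        linarith
      · rw [min_eq_right e1, max_eq_right e2]
        linarith
      · rw [min_eq_right e1, max_eq_left e2]
        linarith
  have key2 : min (g s / α) (g u / α) ≤ g t / α := by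
    rw [min_div_div_right hα.le]
    exact div_le_div_of_nonneg_right key hα.le
  have e : min (max 0 (g s / α)) (max 0 (g u / α)) = max 0 (min (g s / α) (g u / α)) :=
    (max_min_distrib_left _ _ _).symm
  rw [e]
  exact max_le_max le_rfl key2

/-- The general case: an abstract interval. -/
private theorem gen (α β : ℤ) (hα : 0 < α) (a h a' h' : ℕ) (lo hi : ℤ → ℝ)
    (hc : ∀ s t, hi s - lo s = hi t - lo t)
    (hm : (∀ s t, s ≤ t → lo t ≤ lo s) ∨ (∀ s t, s ≤ t → lo s ≤ lo t))
    (hin : ∀ (s : ℤ) (t : ℝ), lo s < t → t < hi s →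
      (α : ℝ) * a' < s + β * t ∧ (s : ℝ) + β * t < α * (a' + h'))
    (hout : ∀ (s : ℤ) (t : ℝ), (α : ℝ) * a' < s + β * t → (s : ℝ) + β * t ≤ α * (a' + h') →
      lo s ≤ t ∧ t ≤ hi s) (s₀ s₁ : ℤ)
    (hs₀ : ∀ s, s < s₀ → (a + h : ℝ) ≤ lo s ∨ hi s ≤ a)
    (hs₁ : ∀ s, s₁ < s → (a + h : ℝ) ≤ lo s ∨ hi s ≤ a)
    (R : ℤ × ℤ → Finset (ℕ × ℕ)) (hR : ∀ P x, x ∈ R P ↔ x ∈ Ioc a (a + h) ×ˢ Ioc a' (a' + h') ∧
      ∃ i : ℤ, (x.1 : ℤ) = P.1 + i * α ∧ (x.2 : ℤ) = P.2 + i * β) :
    ∃ f : ℤ → ℝ, (∀ s, 0 ≤ f s) ∧ (∀ s, f s ≤ (h : ℝ) / α) ∧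
      (∀ s t u : ℤ, s ≤ t → t ≤ u → min (f s) (f u) ≤ f t) ∧
      (∀ s, s ∉ Icc s₀ s₁ → f s = 0) ∧
      ∀ P : ℤ × ℤ, |((R P).card : ℝ) - f (α * P.2 - β * P.1)| ≤ 2 := by
  have hαr : (0 : ℝ) < α := by exact_mod_cast hα
  refine ⟨fun s => max 0 ((min (a + h : ℝ) (hi s) - max (a : ℝ) (lo s)) / α), fun s => ?_,
    fun s => ?_, fun s t u hst htu => ?_, fun s hs => ?_, fun P => ?_⟩
  · exact le_max_left _ _
  · apply max_le
    · positivity
    · apply div_le_div_of_nonneg_right _ hαr.le
      have h1 := min_le_left (a + h : ℝ) (hi s)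
      have h2 := le_max_left (a : ℝ) (lo s)
      linarith
  · exact qc lo hi a (a + h) α hαr hc hm s t u hst htu
  · have h1 : (a + h : ℝ) ≤ lo s ∨ hi s ≤ a := by
      rw [mem_Icc, not_and_or, not_le, not_le] at hs
      rcases hs with hs | hs
      · exact hs₀ s hs
      · exact hs₁ s hs
    apply max_eq_left
    apply div_nonpos_of_nonpos_of_nonneg _ hαr.le
    have h2 := min_le_left (a + h : ℝ) (hi s)
    have h3 := min_le_right (a + h : ℝ) (hi s)
    have h4 := le_max_left (a : ℝ) (lo s)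
    have h5 := le_max_right (a : ℝ) (lo s)
    rcases h1 with h1 | h1 <;> linarith
  · obtain ⟨Z, hZc, hZ⟩ := exists_Z α β hα a h a' h' P (R P) (hR P)
    rw [← hZc]
    set s : ℤ := α * P.2 - β * P.1 with hs
    have hlin : ∀ i : ℤ, (s : ℝ) + β * ((P.1 : ℝ) + i * α) = α * ((P.2 : ℝ) + i * β) := by
      intro i
      rw [hs]
      push_cast
      ring
    have h1 := cnt Z ((max (a : ℝ) (lo s) - P.1) / α) ((min (a + h : ℝ) (hi s) - P.1) / α)
      (fun i hi1 hi2 => ?_) (fun i hi1 => ?_)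
    · have e : (min (a + h : ℝ) (hi s) - P.1) / α - (max (a : ℝ) (lo s) - P.1) / α =
          (min (a + h : ℝ) (hi s) - max (a : ℝ) (lo s)) / α := by
        rw [← sub_div]
        congr 1
        ring
      rwa [e] at h1
    · rw [div_lt_iff₀ hαr] at hi1
      rw [lt_div_iff₀ hαr] at hi2
      have h2 := le_max_left (a : ℝ) (lo s)
      have h3 := le_max_right (a : ℝ) (lo s)
      have h4 := min_le_left (a + h : ℝ) (hi s)
      have h5 := min_le_right (a + h : ℝ) (hi s)
      obtain ⟨h6, h7⟩ := hin s ((P.1 : ℝ) + i * α) (by linarith) (by linarith)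
      rw [hlin] at h6 h7
      have h8 := lt_of_mul_lt_mul_left h6 hαr.le
      have h9 := lt_of_mul_lt_mul_left h7 hαr.le
      rw [hZ]
      refine ⟨⟨?_, ?_⟩, ?_, ?_⟩
      · have : (a : ℝ) < ((P.1 + i * α : ℤ) : ℝ) := by
          push_cast
          linarith
        exact_mod_cast this
      · have : ((P.1 + i * α : ℤ) : ℝ) ≤ ((a + h : ℤ) : ℝ) := by
          push_cast
          linarith
        exact_mod_cast this
      · have : ((a' : ℤ) : ℝ) < ((P.2 + i * β : ℤ) : ℝ) := by
          push_cast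
          linarith
        exact_mod_cast this
      · have : ((P.2 + i * β : ℤ) : ℝ) ≤ ((a' + h' : ℤ) : ℝ) := by
          push_cast
          linarith
        exact_mod_cast this
    · obtain ⟨⟨h2, h3⟩, h4, h5⟩ := (hZ i).1 hi1
      have h2' : (a : ℝ) < (P.1 : ℝ) + i * α := by exact_mod_cast h2
      have h3' : (P.1 : ℝ) + i * α ≤ a + h := by exact_mod_cast h3
      have h4' : (a' : ℝ) < (P.2 : ℝ) + i * β := by exact_mod_cast h4
      have h5' : (P.2 : ℝ) + i * β ≤ a' + h' := by exact_mod_cast h5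
      obtain ⟨h6, h7⟩ := hout s ((P.1 : ℝ) + i * α) (by
        rw [hlin]
        exact mul_lt_mul_of_pos_left h4' hαr) (by
        rw [hlin]
        exact mul_le_mul_of_nonneg_left h5' hαr.le)
      constructor
      · rw [div_le_iff₀ hαr]
        have := max_le h2'.le h6
        linarith
      · rw [le_div_iff₀ hαr]
        have := le_min h3' h7
        linarith

open Classical in
theorem line_fn (α β : ℤ) (hα : 0 < α) (hβ : |β| ≤ α) (a h a' h' : ℕ) :
    ∃ (f : ℤ → ℝ) (s₀ : ℤ), (∀ s, 0 ≤ f s) ∧ (∀ s, f s ≤ (h : ℝ) / α) ∧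
      (∀ s t u : ℤ, s ≤ t → t ≤ u → min (f s) (f u) ≤ f t) ∧
      (∀ s, s ∉ Icc s₀ (s₀ + α * h' + |β| * h) → f s = 0) ∧
      (∀ x ∈ Ioc a (a + h) ×ˢ Ioc a' (a' + h'),
        α * (x.2 : ℤ) - β * (x.1 : ℤ) ∈ Icc s₀ (s₀ + α * h' + |β| * h)) ∧
      ∀ P : ℤ × ℤ, |(((Ioc a (a + h) ×ˢ Ioc a' (a' + h')).filter fun x : ℕ × ℕ =>
        ∃ i : ℤ, (x.1 : ℤ) = P.1 + i * α ∧ (x.2 : ℤ) = P.2 + i * β).card : ℝ) -
          f (α * P.2 - β * P.1)| ≤ 2 := by
  have _ := hβ
  have hαr : (0 : ℝ) < α := by exact_mod_cast hα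
  have hR : ∀ (P : ℤ × ℤ) (x : ℕ × ℕ), x ∈ ((Ioc a (a + h) ×ˢ Ioc a' (a' + h')).filter
      fun x : ℕ × ℕ => ∃ i : ℤ, (x.1 : ℤ) = P.1 + i * α ∧ (x.2 : ℤ) = P.2 + i * β) ↔
      x ∈ Ioc a (a + h) ×ˢ Ioc a' (a' + h') ∧
      ∃ i : ℤ, (x.1 : ℤ) = P.1 + i * α ∧ (x.2 : ℤ) = P.2 + i * β := fun P x => mem_filter
  rcases lt_trichotomy β 0 with hb | hb | hb
  · -- negative
    have hbr : (β : ℝ) < 0 := by exact_mod_cast hb
    obtain ⟨f, h1, h2, h3, h4, h5⟩ := gen α β hα a h a' h'
      (fun s => (α * (a' + h') - s) / β) (fun s => (α * a' - s) / β)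
      (fun s t => by ring)
      (Or.inr fun s t hst => by
        have hst' : (s : ℝ) ≤ t := by exact_mod_cast hst
        rw [div_le_div_right_of_neg hbr]
        linarith)
      (fun s t h1 h2 => by
        rw [div_lt_iff_of_neg hbr] at h1
        rw [lt_div_iff_of_neg hbr] at h2
        constructor <;> nlinarith)
      (fun s t h1 h2 => by
        rw [div_le_iff_of_neg hbr, le_div_iff_of_neg hbr]
        constructor <;> nlinarith)
      (α * a' - β * a) (α * a' - β * a + α * h' + |β| * h)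
      (fun s hs => by
        right
        have hs' : (s : ℝ) < α * a' - β * a := by exact_mod_cast hs
        rw [div_le_iff_of_neg hbr]
        nlinarith)
      (fun s hs => by
        left
        rw [abs_of_neg hb] at hs
        have hs' : (α : ℝ) * a' - β * a + α * h' + -β * h < s := by exact_mod_cast hs
        rw [le_div_iff_of_neg hbr]
        nlinarith) _ hR
    refine ⟨f, α * a' - β * a, h1, h2, h3, h4, fun x hx => ?_, h5⟩
    rw [mem_product, mem_Ioc, mem_Ioc] at hx
    obtain ⟨⟨x1, x2⟩, x3, x4⟩ := hx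
    have x1' : (a : ℤ) ≤ x.1 := by omega
    have x2' : (x.1 : ℤ) ≤ a + h := by omega
    have x3' : (a' : ℤ) ≤ x.2 := by omega
    have x4' : (x.2 : ℤ) ≤ a' + h' := by omega
    rw [mem_Icc, abs_of_neg hb]
    constructor <;> nlinarith
  · -- zero
    subst hb
    refine ⟨fun s => if α * a' < s ∧ s ≤ α * (a' + h') then (h : ℝ) / α else 0, α * a',
      fun s => ?_, fun s => ?_, fun s t u hst htu => ?_, fun s hs => ?_, fun x hx => ?_,
      fun P => ?_⟩
    · beta_reduce
      split_ifs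
      · positivity
      · exact le_rfl
    · beta_reduce
      split_ifs
      · exact le_rfl
      · positivity
    · have hnn : (0 : ℝ) ≤ if α * a' < t ∧ t ≤ α * (a' + h') then (h : ℝ) / α else 0 := by
        split_ifs
        · positivity
        · exact le_rfl
      by_cases h1 : α * a' < s ∧ s ≤ α * (a' + h')
      · by_cases h2 : α * a' < u ∧ u ≤ α * (a' + h')
        · simp only
          rw [if_pos h1, if_pos h2, if_pos ⟨by linarith [h1.1], by linarith [h2.2]⟩, min_self]
        · refine le_trans (min_le_right _ _) ?_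
          simp only
          rw [if_neg h2]
          exact hnn
      · refine le_trans (min_le_left _ _) ?_
        simp only
        rw [if_neg h1]
        exact hnn
    · simp only
      rw [if_neg]
      rintro ⟨h1, h2⟩
      apply hs
      rw [mem_Icc]
      simp only [abs_zero, zero_mul, add_zero]
      exact ⟨h1.le, by linarith⟩
    · rw [mem_product, mem_Ioc, mem_Ioc] at hx
      obtain ⟨⟨x1, x2⟩, x3, x4⟩ := hx
      have x3' : (a' : ℤ) ≤ x.2 := by omega
      have x4' : (x.2 : ℤ) ≤ a' + h' := by omega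
      rw [mem_Icc]
      simp only [abs_zero, zero_mul, add_zero, sub_zero]
      constructor <;> nlinarith
    · obtain ⟨Z, hZc, hZ⟩ := exists_Z α 0 hα a h a' h' P _ (hR P)
      rw [← hZc]
      simp only [zero_mul, sub_zero]
      simp only [mul_zero, add_zero] at hZ
      by_cases h1 : α * a' < α * P.2 ∧ α * P.2 ≤ α * (a' + h')
      · rw [if_pos h1]
        have h2 : (a' : ℤ) < P.2 := lt_of_mul_lt_mul_left h1.1 hα.le
        have h3 : P.2 ≤ a' + h' := le_of_mul_le_mul_left h1.2 hα
        have h4 := cnt Z (((a : ℝ) - P.1) / α) (((a + h : ℝ) - P.1) / α)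
          (fun i hi1 hi2 => ?_) (fun i hi1 => ?_)
        · have e : ((a + h : ℝ) - P.1) / α - ((a : ℝ) - P.1) / α = (h : ℝ) / α := by
            rw [← sub_div]
            congr 1
            ring
          rw [e, max_eq_right (by positivity)] at h4
          exact h4
        · rw [div_lt_iff₀ hαr] at hi1
          rw [lt_div_iff₀ hαr] at hi2
          rw [hZ]
          refine ⟨⟨?_, ?_⟩, h2, h3⟩
          · have : (a : ℝ) < ((P.1 + i * α : ℤ) : ℝ) := by
              push_cast
              linarith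
            exact_mod_cast this
          · have : ((P.1 + i * α : ℤ) : ℝ) ≤ ((a + h : ℤ) : ℝ) := by
              push_cast
              linarith
            exact_mod_cast this
        · obtain ⟨⟨h5, h6⟩, _⟩ := (hZ i).1 hi1
          have h5' : (a : ℝ) < (P.1 : ℝ) + i * α := by exact_mod_cast h5
          have h6' : (P.1 : ℝ) + i * α ≤ a + h := by exact_mod_cast h6
          rw [div_le_iff₀ hαr, le_div_iff₀ hαr]
          constructor <;> linarith
      · rw [if_neg h1]
        have h2 : Z = ∅ := by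
          rw [eq_empty_iff_forall_notMem]
          intro i hi
          obtain ⟨_, h3, h4⟩ := (hZ i).1 hi
          exact h1 ⟨mul_lt_mul_of_pos_left h3 hα, mul_le_mul_of_nonneg_left h4 hα.le⟩
        rw [h2]
        simp
  · -- positive
    have hbr : (0 : ℝ) < β := by exact_mod_cast hb
    obtain ⟨f, h1, h2, h3, h4, h5⟩ := gen α β hα a h a' h'
      (fun s => (α * a' - s) / β) (fun s => (α * (a' + h') - s) / β)
      (fun s t => by ring)
      (Or.inl fun s t hst => by
        have hst' : (s : ℝ) ≤ t := by exact_mod_cast hst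
        apply div_le_div_of_nonneg_right _ hbr.le
        linarith)
      (fun s t h1 h2 => by
        rw [div_lt_iff₀ hbr] at h1
        rw [lt_div_iff₀ hbr] at h2
        constructor <;> nlinarith)
      (fun s t h1 h2 => by
        rw [div_le_iff₀ hbr, le_div_iff₀ hbr]
        constructor <;> nlinarith)
      (α * a' - β * (a + h)) (α * a' - β * (a + h) + α * h' + |β| * h)
      (fun s hs => by
        left
        have hs' : (s : ℝ) < α * a' - β * (a + h) := by exact_mod_cast hs
        rw [le_div_iff₀ hbr]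
        nlinarith)
      (fun s hs => by
        right
        rw [abs_of_pos hb] at hs
        have hs' : (α : ℝ) * a' - β * (a + h) + α * h' + β * h < s := by exact_mod_cast hs
        rw [div_le_iff₀ hbr]
        nlinarith) _ hR
    refine ⟨f, α * a' - β * (a + h), h1, h2, h3, h4, fun x hx => ?_, h5⟩
    rw [mem_product, mem_Ioc, mem_Ioc] at hx
    obtain ⟨⟨x1, x2⟩, x3, x4⟩ := hx
    have x1' : (a : ℤ) ≤ x.1 := by omega
    have x2' : (x.1 : ℤ) ≤ a + h := by omega
    have x3' : (a' : ℤ) ≤ x.2 := by omega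
    have x4' : (x.2 : ℤ) ≤ a' + h' := by omega
    rw [mem_Icc, abs_of_pos hb]
    constructor <;> nlinarith

end Pool.Agent.Work.MP_43ce8a_nt.D
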