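import Pool.Agent.Work.MP_43ce8a_nt.D.LcUni
import Pool.Agent.Work.MP_43ce8a_nt.D.LcLine
import Pool.Agent.Work.MP_43ce8a_nt.D.LcAvg

set_option autoImplicit false

/-!
Module Lc (size M-L). Lattice points of a coset in a rectangle.

PROOF. L has nonzero elements (index finite); let e be one with minimal sup norm α ≥ ℓ. Exchanging the
coordinates (and the roles of (a, h), (a', h')) and replacing e by -e we may assume e = (α, β),
|β| ≤ α. λ x = α x.2 - β x.1 is additive; λ x = 0 with x ∈ L gives x = k e, k integer: x = (i, j) with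
α j = β i; reduce i modulo α: x - k e = (i', j') with |i'| ≤ α/2, |j'| = |β i'|/α ≤ α/2, an element of L of
sup norm < α, so it is 0. λ maps L onto D ℤ, D > 0 (finite index), and D ≥ α²/2: take x ∈ L with
λ x = D and subtract a multiple of e to get |x.1| ≤ α/2; x ≠ 0 so |x.2| ≥ α and
D = |α x.2 - β x.1| ≥ α² - α²/2.
The points of the coset t + L in the rectangle, sorted by s = λ x: s ranges over λ t + D ℤ, and for such
s the points of t + L with λ = s are P_s + ℤ e (P_s any one of them). By line_fn their number in the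
rectangle is f s + O(2), and only s in Icc s₀ (s₀ + α h' + |β| h) matter: these are at most
2 α R / D + 1 ≤ 4 R / α + 1 values of s ≡ λ t mod D. So the count is ∑_{s ≡ λ t (D)} f s + O(8 R/α + 2)
and by unimodal_shift (F = h/α ≤ R/α) two cosets differ by at most 2 R/α + 16 R/α + 4. Now coset_avg
with S = the rectangle, card S = h h'.
-/

namespace Pool.Agent.Work.MP_43ce8a_nt.D

open Finset

/-- the invariant -/
private def lam (α β : ℤ) : ℤ × ℤ →+ ℤ where
  toFun x := α * x.2 - β * x.1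
  map_zero' := by simp
  map_add' x y := by
    simp only [Prod.fst_add, Prod.snd_add]
    ring

private theorem lam_apply (α β : ℤ) (x : ℤ × ℤ) : lam α β x = α * x.2 - β * x.1 := rfl

private theorem red (α : ℤ) (hα : 0 < α) (i : ℤ) : ∃ k : ℤ, |2 * (i - k * α)| ≤ α := by
  refine ⟨(2 * i + α) / (2 * α), ?_⟩
  have h1 := Int.emod_nonneg (2 * i + α) (show (2 * α) ≠ 0 by omega)
  have h2 := Int.emod_lt_of_pos (2 * i + α) (show 0 < 2 * α by omega)
  have h3 := Int.mul_ediv_add_emod (2 * i + α) (2 * α)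
  set k := (2 * i + α) / (2 * α)
  have h4 : 2 * α * k = 2 * (k * α) := by ring
  rw [h4] at h3
  rw [abs_le]
  constructor <;> linarith

private theorem supn_lt {α : ℤ} (x : ℤ × ℤ) (h1 : |x.1| < α) (h2 : |x.2| < α) :
    ¬ α ≤ (supn x : ℤ) := by
  unfold supn
  rw [not_le, Nat.cast_max, Int.natCast_natAbs, Int.natCast_natAbs]
  exact max_lt h1 h2

private theorem card_class (s₀ s₁ c : ℤ) (D : ℕ) (hD : 0 < D) (h : s₀ ≤ s₁) :
    (((Icc s₀ s₁).filter fun s => (D : ℤ) ∣ s - c).card : ℝ) ≤ ((s₁ - s₀ : ℤ) : ℝ) / D + 1 := by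
  have hDz : (0 : ℤ) < D := by exact_mod_cast hD
  have hDr : (0 : ℝ) < D := by exact_mod_cast hD
  have h1 : ((Icc s₀ s₁).filter fun s => (D : ℤ) ∣ s - c).card ≤
      (Icc (0 : ℤ) ((s₁ - s₀) / D)).card := by
    apply card_le_card_of_injOn (fun s => (s - s₀) / D)
    · intro s hs
      obtain ⟨hs1, hs2⟩ := mem_filter.1 (mem_coe.1 hs)
      rw [mem_Icc] at hs1
      rw [mem_coe, mem_Icc]
      exact ⟨Int.ediv_nonneg (by linarith) hDz.le, Int.ediv_le_ediv hDz (by linarith)⟩
    · intro s hs s' hs' he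
      obtain ⟨hs1, hs2⟩ := mem_filter.1 (mem_coe.1 hs)
      obtain ⟨hs1', hs2'⟩ := mem_filter.1 (mem_coe.1 hs')
      simp only at he
      have h3 := Int.mul_ediv_add_emod (s - s₀) D
      have h4 := Int.mul_ediv_add_emod (s' - s₀) D
      have h5 := Int.emod_nonneg (s - s₀) hDz.ne'
      have h6 := Int.emod_nonneg (s' - s₀) hDz.ne'
      have h7 := Int.emod_lt_of_pos (s - s₀) hDz
      have h8 := Int.emod_lt_of_pos (s' - s₀) hDz
      rw [he] at h3
      have h9 : (D : ℤ) ∣ s - s' := by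
        have := dvd_sub hs2 hs2'
        rwa [sub_sub_sub_cancel_right] at this
      have h10 : s - s' = 0 := Int.eq_zero_of_abs_lt_dvd h9 (by
        rw [abs_lt]
        constructor <;> linarith)
      linarith
  rw [Int.card_Icc] at h1
  have h2 : 0 ≤ (s₁ - s₀) / (D : ℤ) := Int.ediv_nonneg (by linarith) hDz.le
  have h3 : (((Icc s₀ s₁).filter fun s => (D : ℤ) ∣ s - c).card : ℤ) ≤ (s₁ - s₀) / (D : ℤ) + 1 := by
    omega
  have h4 : ((((Icc s₀ s₁).filter fun s => (D : ℤ) ∣ s - c).card : ℤ) : ℝ) ≤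
      (((s₁ - s₀) / (D : ℤ) + 1 : ℤ) : ℝ) := by exact_mod_cast h3
  push_cast at h4
  refine h4.trans ?_
  have h5 : (((s₁ - s₀) / (D : ℤ) : ℤ) : ℝ) ≤ ((s₁ - s₀ : ℤ) : ℝ) / D := by
    rw [le_div_iff₀ hDr]
    have h6 := Int.ediv_mul_le (s₁ - s₀) hDz.ne'
    exact_mod_cast h6
  linarith

open Classical in
/-- count of the coset of `t` -/
private noncomputable def NN (L : AddSubgroup (ℤ × ℤ)) (t : ℤ × ℤ) (a h a' h' : ℕ) : ℕ :=
  ((Ioc a (a + h) ×ˢ Ioc a' (a' + h')).filter fun x : ℕ × ℕ =>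
      ((x.1 : ℤ), (x.2 : ℤ)) - t ∈ L).card

private theorem core (L : AddSubgroup (ℤ × ℤ)) (hL : L.index ≠ 0) (α β : ℤ) (hα : 0 < α)
    (hβ : |β| ≤ α) (he : (α, β) ∈ L) (hmin : ∀ x ∈ L, x ≠ 0 → α ≤ (supn x : ℤ))
    (a h a' h' R : ℕ) (hR : h ≤ R) (hR' : h' ≤ R) (t t' : ℤ × ℤ) :
    |(NN L t a h a' h' : ℝ) - NN L t' a h a' h'| ≤ 18 * ((R : ℝ) / α) + 4 := by
  classical
  have hαr : (0 : ℝ) < α := by exact_mod_cast hα
  have hα0 : α ≠ 0 := hα.ne'
  -- elements of `L` with invariant zero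
  have hzero : ∀ x ∈ L, α * x.2 - β * x.1 = 0 → ∃ k : ℤ, x.1 = k * α ∧ x.2 = k * β := by
    intro x hx hx0
    obtain ⟨k, hk⟩ := red α hα x.1
    have hy : x - k • (α, β) ∈ L := L.sub_mem hx (L.zsmul_mem he k)
    have hy0 : x - k • (α, β) = 0 := by
      by_contra hne
      have h1 := hmin _ hy hne
      refine supn_lt _ ?_ ?_ h1
      · have e1 : (x - k • (α, β)).1 = x.1 - k * α := by simp
        rw [e1]
        rw [abs_mul, abs_two] at hk
        have := abs_nonneg (x.1 - k * α)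
        linarith
      · have e1 : (x - k • (α, β)).2 = x.2 - k * β := by simp
        rw [e1]
        have e2 : α * (x.2 - k * β) = β * (x.1 - k * α) := by linarith
        have e3 : α * |x.2 - k * β| = |β| * |x.1 - k * α| := by
          have := congrArg abs e2
          rwa [abs_mul, abs_mul, abs_of_pos hα] at this
        rw [abs_mul, abs_two] at hk
        have h2 := abs_nonneg (x.1 - k * α)
        have h3 := abs_nonneg β
        have h4 : |β| * |x.1 - k * α| ≤ α * |x.1 - k * α| := mul_le_mul_of_nonneg_right hβ h2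
        have h5 : |x.2 - k * β| ≤ |x.1 - k * α| := by
          rw [← e3] at h4
          exact le_of_mul_le_mul_left h4 hα
        linarith
    refine ⟨k, ?_, ?_⟩
    · have := congrArg Prod.fst hy0
      simp at this
      linarith
    · have := congrArg Prod.snd hy0
      simp at this
      linarith
  -- the image
  obtain ⟨d, hd⟩ := Int.subgroup_cyclic (L.map (lam α β))
  have himg : ∀ y : ℤ, (∃ x ∈ L, α * x.2 - β * x.1 = y) ↔ (d.natAbs : ℤ) ∣ y := by
    intro y
    have h1 : (∃ x ∈ L, α * x.2 - β * x.1 = y) ↔ y ∈ L.map (lam α β) := by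
      rw [AddSubgroup.mem_map]
      rfl
    rw [h1, hd, AddSubgroup.mem_closure_singleton, Int.natAbs_dvd]
    constructor
    · rintro ⟨n, hn⟩
      exact ⟨n, by rw [← hn, smul_eq_mul, mul_comm]⟩
    · rintro ⟨n, hn⟩
      exact ⟨n, by rw [hn, smul_eq_mul, mul_comm]⟩
  set D := d.natAbs with hDdef
  have hD : 0 < D := by
    rcases Nat.eq_zero_or_pos D with h0 | h0
    · exfalso
      have h1 : L.index • ((0 : ℤ), (1 : ℤ)) ∈ L := by
        haveI : L.FiniteIndex := ⟨hL⟩
        exact L.nsmul_index_mem _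
      have h2 := (himg (α * L.index)).1 ⟨_, h1, by simp⟩
      rw [h0] at h2
      have h3 : α * L.index = 0 := by
        rw [← zero_dvd_iff]
        exact_mod_cast h2
      rcases mul_eq_zero.1 h3 with h4 | h4
      · exact hα0 h4
      · exact hL (by exact_mod_cast h4)
    · exact h0
  have hDbig : α * α ≤ 2 * (D : ℤ) := by
    obtain ⟨x, hx, hxD⟩ := (himg D).2 (dvd_refl _)
    obtain ⟨k, hk⟩ := red α hα x.1
    have hy : x - k • (α, β) ∈ L := L.sub_mem hx (L.zsmul_mem he k)
    have e1 : (x - k • (α, β)).1 = x.1 - k * α := by simp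
    have e2 : (x - k • (α, β)).2 = x.2 - k * β := by simp
    have e3 : α * (x.2 - k * β) - β * (x.1 - k * α) = D := by linarith
    have hne : x - k • (α, β) ≠ 0 := by
      intro h0
      have a1 := congrArg Prod.fst h0
      have a2 := congrArg Prod.snd h0
      rw [e1] at a1
      rw [e2] at a2
      simp only [Prod.fst_zero, Prod.snd_zero] at a1 a2
      rw [a1, a2] at e3
      have : (0 : ℤ) < D := by exact_mod_cast hD
      linarith
    have h1 := hmin _ hy hne
    rw [abs_mul, abs_two] at hk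
    have h2 := abs_nonneg (x.1 - k * α)
    have h3 : α ≤ |x.2 - k * β| := by
      by_contra hcon
      push Not at hcon
      refine supn_lt _ ?_ ?_ h1
      · rw [e1]
        linarith
      · rw [e2]
        exact hcon
    have h4 : α * |x.2 - k * β| ≤ |β| * |x.1 - k * α| + D := by
      have h5 : α * (x.2 - k * β) = β * (x.1 - k * α) + D := by linarith
      have h6 := congrArg abs h5
      rw [abs_mul, abs_of_pos hα] at h6
      rw [h6]
      refine (abs_add_le _ _).trans ?_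
      rw [abs_mul, Nat.abs_cast]
    have h5 : |β| * |x.1 - k * α| ≤ α * |x.1 - k * α| := mul_le_mul_of_nonneg_right hβ h2
    nlinarith
  -- the function
  obtain ⟨f, s₀, f1, f2, f3, f4, f5, f6⟩ := line_fn α β hα hβ a h a' h'
  set s₁ := s₀ + α * h' + |β| * h with hs₁
  have hs01 : s₀ ≤ s₁ := by
    have h1 : 0 ≤ α * h' := by positivity
    have h2 : 0 ≤ |β| * h := by positivity
    linarith
  have hlen : ((s₁ - s₀ : ℤ) : ℝ) / D + 1 ≤ 4 * ((R : ℝ) / α) + 1 := by
    have h1 : ((s₁ - s₀ : ℤ) : ℝ) ≤ 2 * (α * R) := by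
      have h2 : s₁ - s₀ ≤ 2 * (α * R) := by
        have h3 : α * h' ≤ α * R := mul_le_mul_of_nonneg_left (by exact_mod_cast hR') hα.le
        have h4 : |β| * h ≤ α * R := mul_le_mul hβ (by exact_mod_cast hR) (by positivity) hα.le
        linarith
      exact_mod_cast h2
    have hDr : (0 : ℝ) < D := by exact_mod_cast hD
    have hDb : (α : ℝ) * α ≤ 2 * D := by exact_mod_cast hDbig
    have h5 : ((s₁ - s₀ : ℤ) : ℝ) / D ≤ 4 * ((R : ℝ) / α) := by
      rw [div_le_iff₀ hDr]
      refine h1.trans ?_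
      have h6 : 4 * ((R : ℝ) / α) * D = 2 * (R / α) * (2 * D) := by ring
      rw [h6]
      have h7 : 2 * ((α : ℝ) * R) = 2 * (R / α) * (α * α) := by
        field_simp
      rw [h7]
      exact mul_le_mul_of_nonneg_left hDb (by positivity)
    linarith
  -- the count of a coset
  have hcount : ∀ t : ℤ × ℤ, |(NN L t a h a' h' : ℝ) -
      ∑ s ∈ (Icc s₀ s₁).filter (fun s => (D : ℤ) ∣ s - (α * t.2 - β * t.1)), f s| ≤
        2 * (4 * ((R : ℝ) / α) + 1) := by
    intro t
    set A := (Ioc a (a + h) ×ˢ Ioc a' (a' + h')).filter fun x : ℕ × ℕ =>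
      ((x.1 : ℤ), (x.2 : ℤ)) - t ∈ L with hA
    set St := (Icc s₀ s₁).filter (fun s => (D : ℤ) ∣ s - (α * t.2 - β * t.1)) with hSt
    have hmap : ∀ x ∈ A, α * (x.2 : ℤ) - β * (x.1 : ℤ) ∈ St := by
      intro x hx
      obtain ⟨hx1, hx2⟩ := mem_filter.1 hx
      rw [mem_filter]
      refine ⟨f5 x hx1, ?_⟩
      rw [← himg]
      refine ⟨_, hx2, ?_⟩
      simp only [Prod.fst_sub, Prod.snd_sub]
      ring
    have h1 : (NN L t a h a' h' : ℝ) = ∑ s ∈ St,
        ((A.filter fun x => α * (x.2 : ℤ) - β * (x.1 : ℤ) = s).card : ℝ) := by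
      have h2 := card_eq_sum_card_fiberwise (s := A) (t := St)
        (f := fun x : ℕ × ℕ => α * (x.2 : ℤ) - β * (x.1 : ℤ))
        (fun x hx => mem_coe.2 (hmap x (mem_coe.1 hx)))
      have h3 : NN L t a h a' h' = A.card := rfl
      rw [h3, h2]
      push_cast
      rfl
    rw [h1, ← sum_sub_distrib]
    refine (abs_sum_le_sum_abs _ _).trans ?_
    have h2 : ∀ s ∈ St, |((A.filter fun x => α * (x.2 : ℤ) - β * (x.1 : ℤ) = s).card : ℝ) - f s| ≤
        2 := by
      intro s hs
      obtain ⟨_, hs2⟩ := mem_filter.1 hs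
      obtain ⟨y, hy, hys⟩ := (himg _).2 hs2
      have h3 := f6 (t + y)
      have h4 : α * (t + y).2 - β * (t + y).1 = s := by
        simp only [Prod.fst_add, Prod.snd_add]
        linarith
      rw [h4] at h3
      suffices h30 : (A.filter fun x => α * (x.2 : ℤ) - β * (x.1 : ℤ) = s) =
          (Ioc a (a + h) ×ˢ Ioc a' (a' + h')).filter fun x : ℕ × ℕ =>
            ∃ i : ℤ, (x.1 : ℤ) = (t + y).1 + i * α ∧ (x.2 : ℤ) = (t + y).2 + i * β by
        rw [h30]
        exact h3
      ext x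
      rw [mem_filter, mem_filter, mem_filter, and_assoc]
      refine and_congr_right fun _ => ?_
      constructor
      · rintro ⟨h5, h6⟩
        have h7 : ((x.1 : ℤ), (x.2 : ℤ)) - (t + y) ∈ L := by
          have := L.sub_mem h5 hy
          rwa [sub_sub] at this
        obtain ⟨k, hk1, hk2⟩ := hzero _ h7 (by
          simp only [Prod.fst_sub, Prod.snd_sub]
          have : α * ((x.2 : ℤ) - (t + y).2) - β * ((x.1 : ℤ) - (t + y).1) =
            (α * (x.2 : ℤ) - β * (x.1 : ℤ)) - (α * (t + y).2 - β * (t + y).1) := by ring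
          rw [this, h6, h4, sub_self])
        refine ⟨k, ?_, ?_⟩
        · simp only [Prod.fst_sub] at hk1
          linarith
        · simp only [Prod.snd_sub] at hk2
          linarith
      · rintro ⟨k, hk1, hk2⟩
        constructor
        · have h5 : ((x.1 : ℤ), (x.2 : ℤ)) - t = y + k • (α, β) := by
            apply Prod.ext
            · simp only [Prod.fst_sub, Prod.fst_add, Prod.smul_fst, smul_eq_mul]
              rw [hk1]
              simp only [Prod.fst_add]
              ring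
            · simp only [Prod.snd_sub, Prod.snd_add, Prod.smul_snd, smul_eq_mul]
              rw [hk2]
              simp only [Prod.snd_add]
              ring
          rw [h5]
          exact L.add_mem hy (L.zsmul_mem he k)
        · rw [hk1, hk2, ← h4]
          ring
    refine (sum_le_card_nsmul St _ 2 h2).trans ?_
    rw [nsmul_eq_mul]
    have h3 := card_class s₀ s₁ (α * t.2 - β * t.1) D hD hs01
    have h4 := h3.trans hlen
    linarith
  have h1 := hcount t
  have h2 := hcount t'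
  have h3 := unimodal_shift f ((h : ℝ) / α) f1 f2 f3 (Icc s₀ s₁) f4 D hD
    (α * t.2 - β * t.1) (α * t'.2 - β * t'.1)
  have h4 : (h : ℝ) / α ≤ (R : ℝ) / α := by
    apply div_le_div_of_nonneg_right _ hαr.le
    exact_mod_cast hR
  rw [abs_le] at h1 h2 h3 ⊢
  constructor <;> linarith

private theorem core2 (L : AddSubgroup (ℤ × ℤ)) (hL : L.index ≠ 0) (α β : ℤ) (hα : 0 < α)
    (hβ : |β| ≤ α) (he : (α, β) ∈ L) (hmin : ∀ x ∈ L, x ≠ 0 → α ≤ (supn x : ℤ))
    (a h a' h' R : ℕ) (hR : h ≤ R) (hR' : h' ≤ R) (t : ℤ × ℤ) :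
    |(NN L t a h a' h' : ℝ) - (h : ℝ) * h' / L.index| ≤ 18 * ((R : ℝ) / α) + 4 := by
  classical
  let emb : ℕ × ℕ ↪ ℤ × ℤ := ⟨fun x => ((x.1 : ℤ), (x.2 : ℤ)), fun x y hxy => by
    simp only [Prod.mk.injEq, Nat.cast_inj] at hxy
    exact Prod.ext hxy.1 hxy.2⟩
  set S := (Ioc a (a + h) ×ˢ Ioc a' (a' + h')).map emb with hS
  have hN : ∀ t : ℤ × ℤ, (S.filter fun x => x - t ∈ L).card = NN L t a h a' h' := by
    intro t
    rw [hS, filter_map, card_map]
    rfl
  have h1 := coset_avg L hL S (18 * ((R : ℝ) / α) + 4) (fun t t' => by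
    rw [hN, hN]
    exact core L hL α β hα hβ he hmin a h a' h' R hR hR' t t') t
  rw [hN] at h1
  have h2 : (S.card : ℝ) = h * h' := by
    rw [hS, card_map, card_product, Nat.card_Ioc, Nat.card_Ioc]
    push_cast
    simp
  rwa [h2] at h1

open Classical in
theorem lattice_rect : ∃ C : ℝ, 0 ≤ C ∧ ∀ (L : AddSubgroup (ℤ × ℤ)), L.index ≠ 0 →
    ∀ ℓ : ℕ, 1 ≤ ℓ → (∀ x ∈ L, x ≠ 0 → ℓ ≤ supn x) →
    ∀ (t : ℤ × ℤ) (a h a' h' R : ℕ), h ≤ R → h' ≤ R →
    |(((Ioc a (a + h) ×ˢ Ioc a' (a' + h')).filter fun x : ℕ × ℕ =>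
      ((x.1 : ℤ), (x.2 : ℤ)) - t ∈ L).card : ℝ) - (h : ℝ) * h' / L.index| ≤
      C * ((R : ℝ) / ℓ + 1) := by
  refine ⟨18, by norm_num, fun L hL ℓ hℓ hmin t a h a' h' R hR hR' => ?_⟩
  have hℓr : (0 : ℝ) < ℓ := by exact_mod_cast hℓ
  -- a nonzero element of minimal sup norm
  have hex : ∃ n : ℕ, ∃ x ∈ L, x ≠ 0 ∧ supn x = n := by
    haveI : L.FiniteIndex := ⟨hL⟩
    refine ⟨_, L.index • ((1 : ℤ), (0 : ℤ)), L.nsmul_index_mem _, ?_, rfl⟩
    intro h0
    have := congrArg Prod.fst h0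
    simp at this
    exact hL this
  obtain ⟨e, heL, he0, hen⟩ := Nat.find_spec hex
  have hle : ∀ x ∈ L, x ≠ 0 → supn e ≤ supn x := by
    intro x hx hx0
    rw [hen]
    exact Nat.find_min' hex ⟨x, hx, hx0, rfl⟩
  have heℓ : ℓ ≤ supn e := hmin e heL he0
  have hfin : ∀ (α : ℤ), α = supn e → 18 * ((R : ℝ) / α) + 4 ≤ 18 * ((R : ℝ) / ℓ + 1) := by
    intro α hα
    have h1 : (α : ℝ) = supn e := by
      rw [hα]
      simp
    have h2 : (ℓ : ℝ) ≤ α := by
      rw [h1]
      exact_mod_cast heℓ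
    have h3 : (R : ℝ) / α ≤ (R : ℝ) / ℓ := div_le_div_of_nonneg_left (by positivity) hℓr h2
    linarith
  have hpos : (0 : ℤ) < supn e := by
    have : 0 < supn e := by omega
    exact_mod_cast this
  rcases le_total |e.2| |e.1| with h12 | h12
  · have hsup : (supn e : ℤ) = |e.1| := by
      unfold supn
      rw [Nat.cast_max, Int.natCast_natAbs, Int.natCast_natAbs, max_eq_left h12]
    have key : ∃ β : ℤ, |β| ≤ |e.1| ∧ (|e.1|, β) ∈ L := by
      rcases abs_cases e.1 with ⟨h1, _⟩ | ⟨h1, _⟩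
      · exact ⟨e.2, h12, by rw [h1]; exact heL⟩
      · refine ⟨-e.2, by rw [abs_neg]; exact h12, ?_⟩
        rw [h1]
        exact L.neg_mem heL
    obtain ⟨β, hβ, hβL⟩ := key
    have h1 := core2 L hL |e.1| β (hsup ▸ hpos) hβ hβL (fun x hx hx0 => by
      rw [← hsup]
      exact_mod_cast hle x hx hx0) a h a' h' R hR hR' t
    exact h1.trans (hfin _ hsup.symm)
  · have hsup : (supn e : ℤ) = |e.2| := by
      unfold supn
      rw [Nat.cast_max, Int.natCast_natAbs, Int.natCast_natAbs, max_eq_right h12]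
    set sw : ℤ × ℤ →+ ℤ × ℤ := (AddEquiv.prodComm (M := ℤ) (N := ℤ)).toAddMonoidHom with hsw
    have hsurj : Function.Surjective sw := (AddEquiv.prodComm (M := ℤ) (N := ℤ)).surjective
    have hmemsw : ∀ x : ℤ × ℤ, x ∈ L.comap sw ↔ (x.2, x.1) ∈ L := fun x => Iff.rfl
    have hidx : (L.comap sw).index = L.index := AddSubgroup.index_comap_of_surjective L hsurj
    have key : ∃ β : ℤ, |β| ≤ |e.2| ∧ (|e.2|, β) ∈ L.comap sw := by
      rcases abs_cases e.2 with ⟨h1, _⟩ | ⟨h1, _⟩
      · refine ⟨e.1, h12, ?_⟩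
        rw [h1, hmemsw]
        exact heL
      · refine ⟨-e.1, by rw [abs_neg]; exact h12, ?_⟩
        rw [h1, hmemsw]
        exact L.neg_mem heL
    obtain ⟨β, hβ, hβL⟩ := key
    have h1 := core2 (L.comap sw) (by rw [hidx]; exact hL) |e.2| β (hsup ▸ hpos) hβ hβL
      (fun x hx hx0 => by
        rw [← hsup]
        have h2 : (x.2, x.1) ≠ (0 : ℤ × ℤ) := by
          intro h3
          apply hx0
          have a1 := congrArg Prod.fst h3
          have a2 := congrArg Prod.snd h3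
          exact Prod.ext a2 a1
        have h3 := hle _ ((hmemsw x).1 hx) h2
        have h4 : supn (x.2, x.1) = supn x := by
          unfold supn
          exact max_comm _ _
        rw [h4] at h3
        exact_mod_cast h3) a' h' a h R hR' hR (t.2, t.1)
    rw [hidx] at h1
    have h2 : NN (L.comap sw) (t.2, t.1) a' h' a h = ((Ioc a (a + h) ×ˢ Ioc a' (a' + h')).filter
        fun x : ℕ × ℕ => ((x.1 : ℤ), (x.2 : ℤ)) - t ∈ L).card := by
      unfold NN
      apply card_bij (fun x _ => (x.2, x.1))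
      · intro x hx
        rw [mem_filter, mem_product] at hx ⊢
        exact ⟨⟨hx.1.2, hx.1.1⟩, hx.2⟩
      · intro x _ y _ hxy
        simp only [Prod.mk.injEq] at hxy
        exact Prod.ext hxy.2 hxy.1
      · intro x hx
        rw [mem_filter, mem_product] at hx
        refine ⟨(x.2, x.1), ?_, rfl⟩
        rw [mem_filter, mem_product]
        exact ⟨⟨hx.1.2, hx.1.1⟩, hx.2⟩
    rw [h2, mul_comm (h' : ℝ) h] at h1
    exact h1.trans (hfin _ hsup.symm)

end Pool.Agent.Work.MP_43ce8a_nt.D
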