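import Pool.Agent.Work.MP_43ce8a_nt.D.Lat
import Pool.Agent.Work.MP_43ce8a_nt.D.Lc

set_option autoImplicit false

/-!
Module LatCount (size M). Points of a rectangle in given classes mod t with m ∣ A x² - A' y².

PROOF. Let L i, s i be a decomposition (dec_odd). dens: summing the indicator identity over the box
[0, m)² and using box_count: rho A A' m = ∑ s i m² / index (L i), i.e.
∑ s i / index (L i) = rho / m². For each i the set {x ∈ L i, x ≡ (c, c') mod t} is a coset x₀ + (L i ⊓ tZ t),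
with x₀ ≡ (c, c') mod t and x₀ ≡ 0 mod m (CRT, m • ℤ² ⊆ L i), the index of L i ⊓ tZ t is
t² index (L i) (index_inf), and all its nonzero elements x satisfy m ∣ Qf x, hence ell ≤ supn x. So by
lattice_rect the number of its points in the rectangle is h h' / (t² index) + O(C (R/ell + 1)). Sum
over i with the signs: at most τ(m)² terms. ell ≥ 1: the set is nonempty ((m, 0)) and supn x ≥ 1 for
x ≠ 0.
-/

namespace Pool.Agent.Work.MP_43ce8a_nt.D

open Finset

/-- the smallest sup norm of a nonzero `x` with `m ∣ Qf A A' x` -/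
noncomputable def ell (A A' : ℤ) (m : ℕ) : ℕ :=
  sInf {n | ∃ x : ℤ × ℤ, x ≠ 0 ∧ (m : ℤ) ∣ Qf A A' x ∧ supn x = n}

private lemma LatCount_att (A A' : ℤ) {m : ℕ} (hm : 0 < m) :
    ∃ x : ℤ × ℤ, x ≠ 0 ∧ (m : ℤ) ∣ Qf A A' x ∧ supn x = ell A A' m := by
  have h : {n | ∃ x : ℤ × ℤ, x ≠ 0 ∧ (m : ℤ) ∣ Qf A A' x ∧ supn x = n}.Nonempty := by
    refine ⟨_, ((m : ℤ), 0), ?_, ?_, rfl⟩
    · intro h
      have := congrArg Prod.fst h
      simp at this
      omega
    · unfold Qf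
      exact dvd_sub (Dvd.dvd.mul_left (dvd_pow_self _ (by norm_num)) _) (by simp)
  exact Nat.sInf_mem h

theorem ell_pos (A A' : ℤ) {m : ℕ} (hm : 0 < m) : 1 ≤ ell A A' m := by
  obtain ⟨x, hx, -, h⟩ := LatCount_att A A' hm
  rw [← h]
  by_contra hc
  apply hx
  unfold supn at hc
  have h1 : x.1.natAbs = 0 := by omega
  have h2 : x.2.natAbs = 0 := by omega
  exact Prod.ext (Int.natAbs_eq_zero.1 h1) (Int.natAbs_eq_zero.1 h2)

theorem ell_le (A A' : ℤ) {m : ℕ} {x : ℤ × ℤ} (hx : x ≠ 0) (h : (m : ℤ) ∣ Qf A A' x) :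
    ell A A' m ≤ supn x :=
  Nat.sInf_le ⟨x, hx, h, rfl⟩

theorem ell_attained (A A' : ℤ) {m : ℕ} (hm : 0 < m) :
    ∃ x : ℤ × ℤ, x ≠ 0 ∧ (m : ℤ) ∣ Qf A A' x ∧ supn x = ell A A' m :=
  LatCount_att A A' hm

private lemma LatCount_crt {m t : ℕ} (htm : t.Coprime m) (c : ℕ) :
    ∃ w : ℤ, (t : ℤ) ∣ c - m * w := by
  have h : IsCoprime (t : ℤ) (m : ℤ) := Nat.isCoprime_iff_coprime.2 htm
  obtain ⟨a, b, hab⟩ := h
  refine ⟨b * c, a * c, ?_⟩
  linear_combination (-(c : ℤ)) * hab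

open Classical in
theorem lat_count : ∃ C : ℝ, 0 ≤ C ∧ ∀ (A A' : ℤ), Squarefree A → Squarefree A' → IsCoprime A A' →
    ∀ (m t c c' a h a' h' R : ℕ), m % 2 = 1 → 0 < t → t.Coprime m → h ≤ R → h' ≤ R →
    |(((Ioc a (a + h) ×ˢ Ioc a' (a' + h')).filter fun x : ℕ × ℕ => x.1 % t = c % t ∧
      x.2 % t = c' % t ∧ (m : ℤ) ∣ Qf A A' ((x.1 : ℤ), (x.2 : ℤ))).card : ℝ) -
        (h : ℝ) * h' * hh A A' m / ((t : ℝ) ^ 2 * m)| ≤
      C * (m.divisors.card : ℝ) ^ 2 * ((R : ℝ) / ell A A' m + 1) := by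
  obtain ⟨C, hC0, hC⟩ := lattice_rect
  refine ⟨C, hC0, ?_⟩
  intro A A' hs hs' hc m t c c' a h a' h' R hm ht htm hhR hhR'
  have hm0 : 0 < m := by omega
  obtain ⟨ι, hι, L, s, h1, h2, h3, h4, h5⟩ := dec_odd A A' hs hs' hc m hm
  -- the density
  have hbox : ∀ i, (L i).index ≠ 0 ∧ (L i).index *
      ((range m ×ˢ range m).filter fun x : ℕ × ℕ => ((x.1 : ℤ), (x.2 : ℤ)) ∈ L i).card = m ^ 2 :=
    fun i => box_count (L i) m hm0 (h4 i)
  have hmR : (m : ℝ) ≠ 0 := by exact_mod_cast hm0.ne'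
  have htR : (t : ℝ) ≠ 0 := by exact_mod_cast ht.ne'
  have hrho : (rho A A' m : ℝ) = ∑ i, (s i : ℝ) * ((m : ℝ) ^ 2 / (L i).index) := by
    have e1 : (rho A A' m : ℤ) = ∑ i, s i *
        (((range m ×ˢ range m).filter fun x : ℕ × ℕ => ((x.1 : ℤ), (x.2 : ℤ)) ∈ L i).card : ℤ) := by
      unfold rho
      rw [card_filter]
      push_cast
      calc (∑ x ∈ range m ×ˢ range m, if (m : ℤ) ∣ A * (x.1 : ℤ) ^ 2 - A' * (x.2 : ℤ) ^ 2
            then (1 : ℤ) else 0)
          = ∑ x ∈ range m ×ˢ range m, ∑ i, if ((x.1 : ℤ), (x.2 : ℤ)) ∈ L i then s i else 0 := by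
            apply sum_congr rfl
            intro x _
            rw [← h5]
            rfl
        _ = ∑ i, ∑ x ∈ range m ×ˢ range m, if ((x.1 : ℤ), (x.2 : ℤ)) ∈ L i then s i else 0 :=
            sum_comm
        _ = _ := by
            apply sum_congr rfl
            intro i _
            rw [card_filter, Nat.cast_sum, mul_sum]
            apply sum_congr rfl
            intro x _
            split_ifs <;> simp
    have e2 : (rho A A' m : ℝ) = ∑ i, (s i : ℝ) *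
        (((range m ×ˢ range m).filter fun x : ℕ × ℕ => ((x.1 : ℤ), (x.2 : ℤ)) ∈ L i).card : ℝ) := by
      exact_mod_cast e1
    rw [e2]
    apply sum_congr rfl
    intro i _
    obtain ⟨g1, g2⟩ := hbox i
    have g3 : ((L i).index : ℝ) ≠ 0 := by exact_mod_cast g1
    congr 1
    rw [eq_div_iff g3, mul_comm]
    exact_mod_cast g2
  have hmain : (h : ℝ) * h' * hh A A' m / ((t : ℝ) ^ 2 * m) =
      ∑ i, (s i : ℝ) * ((h : ℝ) * h' / ((L i ⊓ tZ t).index : ℝ)) := by
    unfold hh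
    rw [hrho, sum_div, mul_sum, sum_div]
    apply sum_congr rfl
    intro i _
    rw [index_inf (L i) m t hm0 ht htm (h4 i)]
    obtain ⟨g1, -⟩ := hbox i
    have g3 : ((L i).index : ℝ) ≠ 0 := by exact_mod_cast g1
    push_cast
    field_simp
  -- the count
  obtain ⟨w, hw⟩ := LatCount_crt htm c
  obtain ⟨w', hw'⟩ := LatCount_crt htm c'
  have hcount : (((Ioc a (a + h) ×ˢ Ioc a' (a' + h')).filter fun x : ℕ × ℕ => x.1 % t = c % t ∧
      x.2 % t = c' % t ∧ (m : ℤ) ∣ Qf A A' ((x.1 : ℤ), (x.2 : ℤ))).card : ℤ) =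
      ∑ i, s i * (((Ioc a (a + h) ×ˢ Ioc a' (a' + h')).filter fun x : ℕ × ℕ =>
        ((x.1 : ℤ), (x.2 : ℤ)) - ((m : ℤ) * w, (m : ℤ) * w') ∈ L i ⊓ tZ t).card : ℤ) := by
    have hmod : ∀ (x c : ℕ) (w : ℤ), (t : ℤ) ∣ c - m * w →
        (x % t = c % t ↔ (t : ℤ) ∣ (x : ℤ) - m * w) := by
      intro x c w hw
      constructor
      · intro hx
        have h6 : (t : ℤ) ∣ (x : ℤ) - c := by
          have : (x : ℤ) % t = c % t := by exact_mod_cast hx
          exact Int.ModEq.dvd this.symm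
        have : (x : ℤ) - m * w = (x - c) + (c - m * w) := by ring
        rw [this]
        exact dvd_add h6 hw
      · intro hx
        have h6 : (t : ℤ) ∣ (x : ℤ) - c := by
          have : (x : ℤ) - c = (x - m * w) - (c - m * w) := by ring
          rw [this]
          exact dvd_sub hx hw
        have : (c : ℤ) % t = x % t := Int.ModEq.symm ((Int.modEq_iff_dvd.2 (by
          have := (dvd_neg).2 h6
          rwa [neg_sub] at this)))
        have h7 : c % t = x % t := by exact_mod_cast this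
        exact h7.symm
    have hmem : ∀ i (x : ℕ × ℕ), ((x.1 : ℤ), (x.2 : ℤ)) - ((m : ℤ) * w, (m : ℤ) * w') ∈ L i ⊓ tZ t ↔
        (((x.1 : ℤ), (x.2 : ℤ)) ∈ L i ∧ x.1 % t = c % t ∧ x.2 % t = c' % t) := by
      intro i x
      rw [AddSubgroup.mem_inf, mem_tZ, hmod x.1 c w hw, hmod x.2 c' w' hw']
      have h6 : (((m : ℤ) * w, (m : ℤ) * w') : ℤ × ℤ) ∈ L i := by
        have := h4 i (w, w')
        have e : m • ((w, w') : ℤ × ℤ) = ((m : ℤ) * w, (m : ℤ) * w') := by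
          ext <;> simp
        rwa [e] at this
      constructor
      · rintro ⟨g1, g2, g3⟩
        refine ⟨?_, g2, g3⟩
        have := (L i).add_mem g1 h6
        rwa [sub_add_cancel] at this
      · rintro ⟨g1, g2, g3⟩
        exact ⟨(L i).sub_mem g1 h6, g2, g3⟩
    rw [card_filter]
    push_cast
    calc (∑ x ∈ Ioc a (a + h) ×ˢ Ioc a' (a' + h'), if x.1 % t = c % t ∧
          x.2 % t = c' % t ∧ (m : ℤ) ∣ Qf A A' ((x.1 : ℤ), (x.2 : ℤ)) then (1 : ℤ) else 0)
        = ∑ x ∈ Ioc a (a + h) ×ˢ Ioc a' (a' + h'), ∑ i,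
            if ((x.1 : ℤ), (x.2 : ℤ)) - ((m : ℤ) * w, (m : ℤ) * w') ∈ L i ⊓ tZ t then s i else 0 := by
          apply sum_congr rfl
          intro x _
          by_cases g1 : x.1 % t = c % t ∧ x.2 % t = c' % t
          · have e1 : (if x.1 % t = c % t ∧ x.2 % t = c' % t ∧
                (m : ℤ) ∣ Qf A A' ((x.1 : ℤ), (x.2 : ℤ)) then (1 : ℤ) else 0) =
                if (m : ℤ) ∣ Qf A A' ((x.1 : ℤ), (x.2 : ℤ)) then (1 : ℤ) else 0 := by
              apply if_congr _ rfl rfl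
              exact ⟨fun g => g.2.2, fun g => ⟨g1.1, g1.2, g⟩⟩
            rw [e1, h5]
            apply sum_congr rfl
            intro i _
            apply if_congr _ rfl rfl
            rw [hmem]
            exact ⟨fun g => ⟨g, g1⟩, fun g => g.1⟩
          · rw [if_neg (fun g => g1 ⟨g.1, g.2.1⟩)]
            symm
            apply sum_eq_zero
            intro i _
            rw [if_neg]
            intro g
            exact g1 ((hmem i x).1 g).2
      _ = ∑ i, ∑ x ∈ Ioc a (a + h) ×ˢ Ioc a' (a' + h'),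
            if ((x.1 : ℤ), (x.2 : ℤ)) - ((m : ℤ) * w, (m : ℤ) * w') ∈ L i ⊓ tZ t then s i else 0 :=
          sum_comm
      _ = _ := by
          apply sum_congr rfl
          intro i _
          rw [card_filter, Nat.cast_sum, mul_sum]
          apply sum_congr rfl
          intro x _
          split_ifs <;> simp
  have hcountR : (((Ioc a (a + h) ×ˢ Ioc a' (a' + h')).filter fun x : ℕ × ℕ => x.1 % t = c % t ∧
      x.2 % t = c' % t ∧ (m : ℤ) ∣ Qf A A' ((x.1 : ℤ), (x.2 : ℤ))).card : ℝ) =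
      ∑ i, (s i : ℝ) * (((Ioc a (a + h) ×ˢ Ioc a' (a' + h')).filter fun x : ℕ × ℕ =>
        ((x.1 : ℤ), (x.2 : ℤ)) - ((m : ℤ) * w, (m : ℤ) * w') ∈ L i ⊓ tZ t).card : ℝ) := by
    exact_mod_cast hcount
  rw [hcountR, hmain, ← sum_sub_distrib]
  have hell := ell_pos A A' hm0
  have hE : 0 ≤ C * ((R : ℝ) / ell A A' m + 1) := by positivity
  calc |∑ i, ((s i : ℝ) * (((Ioc a (a + h) ×ˢ Ioc a' (a' + h')).filter fun x : ℕ × ℕ =>
        ((x.1 : ℤ), (x.2 : ℤ)) - ((m : ℤ) * w, (m : ℤ) * w') ∈ L i ⊓ tZ t).card : ℝ) -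
        (s i : ℝ) * ((h : ℝ) * h' / ((L i ⊓ tZ t).index : ℝ)))|
      ≤ ∑ i, |((s i : ℝ) * (((Ioc a (a + h) ×ˢ Ioc a' (a' + h')).filter fun x : ℕ × ℕ =>
        ((x.1 : ℤ), (x.2 : ℤ)) - ((m : ℤ) * w, (m : ℤ) * w') ∈ L i ⊓ tZ t).card : ℝ) -
        (s i : ℝ) * ((h : ℝ) * h' / ((L i ⊓ tZ t).index : ℝ)))| := abs_sum_le_sum_abs _ _
    _ ≤ ∑ _i : ι, C * ((R : ℝ) / ell A A' m + 1) := by
        apply sum_le_sum
        intro i _
        rw [← mul_sub, abs_mul]
        have hsi : |(s i : ℝ)| = 1 := by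
          rcases h2 i with g | g <;> simp [g]
        rw [hsi, one_mul]
        apply hC (L i ⊓ tZ t) _ (ell A A' m) hell _ _ a h a' h' R hhR hhR'
        · rw [index_inf (L i) m t hm0 ht htm (h4 i)]
          exact mul_ne_zero (pow_ne_zero 2 ht.ne') (hbox i).1
        · intro x hx hx0
          exact ell_le A A' hx0 (h3 i x (AddSubgroup.mem_inf.1 hx).1)
    _ = (Fintype.card ι : ℝ) * (C * ((R : ℝ) / ell A A' m + 1)) := by
        rw [sum_const, card_univ, nsmul_eq_mul]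
    _ ≤ (m.divisors.card : ℝ) ^ 2 * (C * ((R : ℝ) / ell A A' m + 1)) := by
        apply mul_le_mul_of_nonneg_right _ hE
        exact_mod_cast h1
    _ = _ := by ring

end Pool.Agent.Work.MP_43ce8a_nt.D
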