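import Pool.Agent.Work.MP_43ce8a_nt.D.Defs

set_option autoImplicit false

/-!
Decompositions of the set of solutions of A x ^ 2 ≡ A' y ^ 2 mod m into lattices with signs (definition).
-/

namespace Pool.Agent.Work.MP_43ce8a_nt.D

open Finset

open Classical in
/-- the set of `x` with `m ∣ Qf A A' x` is a signed union of at most `k` subgroups containing `m ℤ ^ 2` -/
def HasDec (A A' : ℤ) (m k : ℕ) : Prop :=
  ∃ (ι : Type) (_ : Fintype ι) (L : ι → AddSubgroup (ℤ × ℤ)) (s : ι → ℤ),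
    Fintype.card ι ≤ k ∧ (∀ i, s i = 1 ∨ s i = -1) ∧ (∀ i, ∀ x ∈ L i, (m : ℤ) ∣ Qf A A' x) ∧
    (∀ i x, m • x ∈ L i) ∧
    ∀ x, (if (m : ℤ) ∣ Qf A A' x then (1 : ℤ) else 0) = ∑ i, if x ∈ L i then s i else 0

end Pool.Agent.Work.MP_43ce8a_nt.D
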