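import Pool.Agent.Work.MP_43ce8a_nt.D.LatDefs

set_option autoImplicit false

/-!
Module LatP (size M-L). Decompositions for prime powers. p odd prime.

dec_split: p ∤ A A' and A A' is a square mod p. Then there is an integer λ (prime to p) with
p^α ∣ A λ² - A' (so A x² - A' y² ≡ A (x - λ y)(x + λ y) mod p^α: A'/A is a
square mod p, lift to p^α, Hensel or induction: if A λ² - A' = p^α u, replace λ by λ + p^α w).
So p^α ∣ Q x iff v(x - λ y) + v(x + λ y) ≥ α, v the p-adic valuation (∞ for 0). Lattices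
L_j = {x | p^j ∣ x.1 - λ x.2 ∧ p^(α-j) ∣ x.1 + λ x.2}, 0 ≤ j ≤ α, sign +1, and L_j ⊓ L_{j+1},
0 ≤ j < α, sign -1. The j with x ∈ L_j form an interval of integers (α - v₂ ≤ j ≤ v₁), so
∑_j [x ∈ L_j] - ∑_j [x ∈ L_j ⊓ L_{j+1}] is 1 if x lies in some L_j and 0 otherwise. All L_j contain
p^α ℤ². Number 2 α + 1 ≤ (α + 1)².
dec_inert: A A' is not a square mod p: p^α ∣ Q x iff p^⌈α/2⌉ divides x.1 and x.2 (p ∣ Q x forces
p ∣ x.1, x.2; induction). One lattice.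
dec_ram: p ∣ A, p² ∤ A, p ∤ A': v(A x.1²) is odd, v(A' x.2²) is even, so v(Q) is the minimum: one
lattice {p^⌈(α-1)/2⌉ ∣ x.1, p^⌈α/2⌉ ∣ x.2} (induction on α also works, exchanging the roles).
dec_ram': the same with the roles of A, A' exchanged (Qf A A' (x, y) = - Qf A' A (y, x)).
dec_pp: all cases together.
-/

namespace Pool.Agent.Work.MP_43ce8a_nt.D

open Finset

/-- the subgroup of pairs with `a ∣ x.1 + l x.2` and `b ∣ x.1 + k x.2` -/
private def LatP_sub (a b l k l' k' : ℤ) : AddSubgroup (ℤ × ℤ) where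
  carrier := {x | a ∣ l * x.1 + l' * x.2 ∧ b ∣ k * x.1 + k' * x.2}
  zero_mem' := by simp
  add_mem' := by
    rintro x y ⟨h1, h2⟩ ⟨h3, h4⟩
    refine ⟨?_, ?_⟩
    · have : l * (x + y).1 + l' * (x + y).2 = (l * x.1 + l' * x.2) + (l * y.1 + l' * y.2) := by
        simp only [Prod.fst_add, Prod.snd_add]; ring
      rw [this]; exact dvd_add h1 h3
    · have : k * (x + y).1 + k' * (x + y).2 = (k * x.1 + k' * x.2) + (k * y.1 + k' * y.2) := by
        simp only [Prod.fst_add, Prod.snd_add]; ring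
      rw [this]; exact dvd_add h2 h4
  neg_mem' := by
    rintro x ⟨h1, h2⟩
    refine ⟨?_, ?_⟩
    · have : l * (-x).1 + l' * (-x).2 = -(l * x.1 + l' * x.2) := by
        simp only [Prod.fst_neg, Prod.snd_neg]; ring
      rw [this]; exact (dvd_neg).2 h1
    · have : k * (-x).1 + k' * (-x).2 = -(k * x.1 + k' * x.2) := by
        simp only [Prod.fst_neg, Prod.snd_neg]; ring
      rw [this]; exact (dvd_neg).2 h2

private lemma LatP_mem (a b l k l' k' : ℤ) (x : ℤ × ℤ) :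
    x ∈ LatP_sub a b l k l' k' ↔ a ∣ l * x.1 + l' * x.2 ∧ b ∣ k * x.1 + k' * x.2 := Iff.rfl

open Classical in
private lemma LatP_conv (P : ℕ → Prop) (n : ℕ)
    (h : ∀ i j, i ≤ j → P i → P (j + 1) → P j) :
    (if ∃ j ≤ n, P j then (1 : ℤ) else 0) =
      (∑ j ∈ range (n + 1), if P j then (1 : ℤ) else 0) -
        ∑ j ∈ range n, if P j ∧ P (j + 1) then (1 : ℤ) else 0 := by
  induction n with
  | zero =>
    rw [sum_range_succ, range_zero, sum_empty, sum_empty]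
    simp
  | succ n ih =>
    rw [sum_range_succ (n := n + 1), sum_range_succ (fun j => if P j ∧ P (j + 1) then (1 : ℤ) else 0) n]
    have e : (∑ j ∈ range (n + 1), if P j then (1 : ℤ) else 0) =
        (if ∃ j ≤ n, P j then (1 : ℤ) else 0) +
          ∑ j ∈ range n, if P j ∧ P (j + 1) then (1 : ℤ) else 0 := by
      rw [ih]; ring
    rw [e]
    have key : (if ∃ j ≤ n + 1, P j then (1 : ℤ) else 0) =
        (if ∃ j ≤ n, P j then (1 : ℤ) else 0) + (if P (n + 1) then (1 : ℤ) else 0) -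
          (if P n ∧ P (n + 1) then (1 : ℤ) else 0) := by
      by_cases h1 : ∃ j ≤ n, P j
      · have h1' : ∃ j ≤ n + 1, P j := by
          obtain ⟨j, hj, hP⟩ := h1
          exact ⟨j, by omega, hP⟩
        by_cases h2 : P (n + 1)
        · have h3 : P n := by
            obtain ⟨j, hj, hP⟩ := h1
            exact h j n hj hP h2
          simp [h1, h1', h2, h3]
        · simp [h1, h1', h2]
      · by_cases h2 : P (n + 1)
        · have h1' : ∃ j ≤ n + 1, P j := ⟨n + 1, le_rfl, h2⟩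
          have h3 : ¬ P n := fun h3 => h1 ⟨n, le_rfl, h3⟩
          simp [h1, h1', h2, h3]
        · have h1' : ¬ ∃ j ≤ n + 1, P j := by
            rintro ⟨j, hj, hP⟩
            rcases Nat.lt_or_ge j (n + 1) with h4 | h4
            · exact h1 ⟨j, by omega, hP⟩
            · have : j = n + 1 := by omega
              subst this
              exact h2 hP
          simp [h1, h1', h2]
    rw [key]
    ring

private lemma LatP_dvd_mul {p : ℕ} (hp : p.Prime) (α : ℕ) (u v : ℤ) :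
    (p : ℤ) ^ α ∣ u * v ↔ ∃ j ≤ α, (p : ℤ) ^ j ∣ u ∧ (p : ℤ) ^ (α - j) ∣ v := by
  constructor
  · intro h
    have h1 : p ^ α ∣ u.natAbs * v.natAbs := by
      have := Int.natAbs_dvd_natAbs.2 h
      rwa [Int.natAbs_mul, Int.natAbs_pow, Int.natAbs_natCast] at this
    obtain ⟨a, b, ha, hb, hab⟩ := (Nat.dvd_mul).1 h1
    obtain ⟨j, hj, rfl⟩ := (Nat.dvd_prime_pow hp).1 (Dvd.intro b hab)
    refine ⟨j, hj, ?_, ?_⟩
    · have : ((p ^ j : ℕ) : ℤ) ∣ u := Int.natCast_dvd.2 ha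
      exact_mod_cast this
    · have hb2 : b = p ^ (α - j) := by
        have h3 : p ^ j * b = p ^ j * p ^ (α - j) := by
          rw [hab, ← pow_add]; congr 1; omega
        exact Nat.eq_of_mul_eq_mul_left (pow_pos hp.pos j) h3
      have : ((b : ℕ) : ℤ) ∣ v := Int.natCast_dvd.2 hb
      rw [hb2] at this
      exact_mod_cast this
  · rintro ⟨j, hj, h1, h2⟩
    have : (p : ℤ) ^ α = (p : ℤ) ^ j * (p : ℤ) ^ (α - j) := by
      rw [← pow_add]; congr 1; omega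
    rw [this]
    exact mul_dvd_mul h1 h2

private lemma LatP_hensel (A A' : ℤ) {p : ℕ} [Fact p.Prime] (h2 : p ≠ 2)
    (h : ¬ (p : ℤ) ∣ A * A') (hsq : IsSquare ((A * A' : ℤ) : ZMod p)) (α : ℕ) :
    ∃ l : ℤ, (p : ℤ) ^ (α + 1) ∣ A * l ^ 2 - A' := by
  have hp : p.Prime := Fact.out
  have hpZ : Prime (p : ℤ) := Nat.prime_iff_prime_int.1 hp
  have hA : ¬ (p : ℤ) ∣ A := fun h' => h (Dvd.dvd.mul_right h' _)
  have hA' : ¬ (p : ℤ) ∣ A' := fun h' => h (Dvd.dvd.mul_left h' _)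
  have hAz : (A : ZMod p) ≠ 0 := fun h' => hA ((ZMod.intCast_zmod_eq_zero_iff_dvd _ _).1 h')
  induction α with
  | zero =>
    obtain ⟨s, hs⟩ := hsq
    obtain ⟨l, hl⟩ := ZMod.intCast_surjective (s / (A : ZMod p))
    refine ⟨l, ?_⟩
    rw [zero_add, pow_one, ← ZMod.intCast_zmod_eq_zero_iff_dvd]
    push_cast
    rw [hl, div_pow]
    push_cast at hs
    have : (A : ZMod p) * (s ^ 2 / (A : ZMod p) ^ 2) = A' := by
      rw [pow_two s, ← hs]
      field_simp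
    rw [this, sub_self]
  | succ n ih =>
    obtain ⟨l, u, hu⟩ := ih
    have hl : ¬ (p : ℤ) ∣ l := by
      intro hl
      apply hA'
      have h3 : (p : ℤ) ∣ A * l ^ 2 - A' := by
        rw [hu]; exact Dvd.dvd.mul_right (dvd_pow_self _ (by omega)) _
      have h4 : (p : ℤ) ∣ A * l ^ 2 := Dvd.dvd.mul_left (dvd_pow hl (by norm_num)) _
      have := dvd_sub h4 h3
      simpa using this
    have hc : IsCoprime (2 * A * l) (p : ℤ) := by
      apply IsCoprime.symm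
      rw [hpZ.coprime_iff_not_dvd]
      intro hd
      rcases hpZ.dvd_or_dvd hd with h5 | h5
      · rcases hpZ.dvd_or_dvd h5 with h6 | h6
        · have : p ∣ 2 := by exact_mod_cast h6
          have := (Nat.prime_dvd_prime_iff_eq hp Nat.prime_two).1 this
          exact h2 this
        · exact hA h6
      · exact hl h5
    obtain ⟨a, b, hab⟩ := hc
    refine ⟨l + (p : ℤ) ^ (n + 1) * (-(a * u)), ?_⟩
    have e : A * (l + (p : ℤ) ^ (n + 1) * (-(a * u))) ^ 2 - A' =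
        (p : ℤ) ^ (n + 1 + 1) * (u * b + (p : ℤ) ^ n * A * (a * u) ^ 2) := by
      have h7 : A * (l + (p : ℤ) ^ (n + 1) * (-(a * u))) ^ 2 - A' =
          (A * l ^ 2 - A') - (p : ℤ) ^ (n + 1) * u * (a * (2 * A * l)) +
            (p : ℤ) ^ (n + 1) * (p : ℤ) ^ (n + 1) * A * (a * u) ^ 2 := by ring
      rw [h7, hu]
      have h8 : a * (2 * A * l) = 1 - b * p := by linarith
      rw [h8]
      ring
    rw [e]
    exact Dvd.intro _ rfl

private lemma LatP_smul_mem (a b l k l' k' : ℤ) (n : ℕ) (ha : a ∣ n) (hb : b ∣ n) (x : ℤ × ℤ) :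
    n • x ∈ LatP_sub a b l k l' k' := by
  rw [LatP_mem, Prod.smul_fst, Prod.smul_snd, nsmul_eq_mul, nsmul_eq_mul]
  refine ⟨?_, ?_⟩
  · have : l * (↑n * x.1) + l' * (↑n * x.2) = n * (l * x.1 + l' * x.2) := by ring
    rw [this]; exact Dvd.dvd.mul_right ha _
  · have : k * (↑n * x.1) + k' * (↑n * x.2) = n * (k * x.1 + k' * x.2) := by ring
    rw [this]; exact Dvd.dvd.mul_right hb _

theorem dec_split (A A' : ℤ) {p : ℕ} [Fact p.Prime] (h2 : p ≠ 2) (h : ¬ (p : ℤ) ∣ A * A')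
    (hsq : IsSquare ((A * A' : ℤ) : ZMod p)) (α : ℕ) : HasDec A A' (p ^ α) ((α + 1) ^ 2) := by
  classical
  have hp : p.Prime := Fact.out
  have hpZ : Prime (p : ℤ) := Nat.prime_iff_prime_int.1 hp
  have hA : ¬ (p : ℤ) ∣ A := fun h' => h (Dvd.dvd.mul_right h' _)
  obtain ⟨l, hl⟩ := LatP_hensel A A' h2 h hsq α
  have hl' : (p : ℤ) ^ α ∣ A * l ^ 2 - A' := dvd_trans (pow_dvd_pow _ (by omega)) hl
  have hQ : ∀ x : ℤ × ℤ, ((p ^ α : ℕ) : ℤ) ∣ Qf A A' x ↔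
      ∃ j ≤ α, (p : ℤ) ^ j ∣ x.1 - l * x.2 ∧ (p : ℤ) ^ (α - j) ∣ x.1 + l * x.2 := by
    intro x
    rw [← LatP_dvd_mul hp, Nat.cast_pow]
    have e : Qf A A' x = A * ((x.1 - l * x.2) * (x.1 + l * x.2)) +
        (A * l ^ 2 - A') * x.2 ^ 2 := by
      unfold Qf; ring
    rw [e]
    have hc : IsCoprime ((p : ℤ) ^ α) A := by
      apply IsCoprime.pow_left
      rw [hpZ.coprime_iff_not_dvd]
      exact hA
    constructor
    · intro h3
      have h4 : (p : ℤ) ^ α ∣ A * ((x.1 - l * x.2) * (x.1 + l * x.2)) := by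
        have := dvd_sub h3 (Dvd.dvd.mul_right hl' (x.2 ^ 2))
        simpa using this
      exact hc.dvd_of_dvd_mul_left h4
    · intro h3
      exact dvd_add (Dvd.dvd.mul_left h3 _) (Dvd.dvd.mul_right hl' _)
  set L : ℕ → AddSubgroup (ℤ × ℤ) := fun j =>
    LatP_sub ((p : ℤ) ^ j) ((p : ℤ) ^ (α - j)) 1 1 (-l) l with hL
  have hLm : ∀ j x, x ∈ L j ↔ (p : ℤ) ^ j ∣ x.1 - l * x.2 ∧ (p : ℤ) ^ (α - j) ∣ x.1 + l * x.2 := by
    intro j x
    rw [hL]
    simp only [LatP_mem]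
    rw [show (1 : ℤ) * x.1 + -l * x.2 = x.1 - l * x.2 by ring,
      show (1 : ℤ) * x.1 + l * x.2 = x.1 + l * x.2 by ring]
  refine ⟨Fin (α + 1) ⊕ Fin α, inferInstance,
    Sum.elim (fun j => L j) (fun j => L j ⊓ L (j + 1)), Sum.elim (fun _ => 1) (fun _ => -1),
    ?_, ?_, ?_, ?_, ?_⟩
  · rw [Fintype.card_sum, Fintype.card_fin, Fintype.card_fin]
    nlinarith
  · rintro (j | j)
    · left; rfl
    · right; rfl
  · rintro (j | j) x hx
    · simp only [Sum.elim_inl] at hx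
      exact (hQ x).2 ⟨j, by omega, (hLm _ _).1 hx⟩
    · simp only [Sum.elim_inr] at hx
      exact (hQ x).2 ⟨j, by omega, (hLm _ _).1 (AddSubgroup.mem_inf.1 hx).1⟩
  · have h5 : ∀ j : ℕ, j ≤ α → ∀ x, p ^ α • x ∈ L j := by
      intro j hj x
      apply LatP_smul_mem
      · rw [Nat.cast_pow]; exact pow_dvd_pow _ hj
      · rw [Nat.cast_pow]; exact pow_dvd_pow _ (by omega)
    rintro (j | j) x
    · exact h5 j (by omega) x
    · exact AddSubgroup.mem_inf.2 ⟨h5 j (by omega) x, h5 (j + 1) (by omega) x⟩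
  · intro x
    rw [Fintype.sum_sum_type]
    simp only [Sum.elim_inl, Sum.elim_inr]
    have h6 := LatP_conv (fun j => j ≤ α ∧ x ∈ L j) α (by
      rintro i j hij ⟨hi, hi'⟩ ⟨hj, hj'⟩
      refine ⟨by omega, ?_⟩
      rw [hLm] at hi' hj' ⊢
      refine ⟨dvd_trans (pow_dvd_pow _ (by omega)) hj'.1,
        dvd_trans (pow_dvd_pow _ (by omega)) hi'.2⟩)
    have e1 : (∃ j ≤ α, j ≤ α ∧ x ∈ L j) ↔ ((p ^ α : ℕ) : ℤ) ∣ Qf A A' x := by
      rw [hQ]
      constructor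
      · rintro ⟨j, hj, -, hx⟩
        exact ⟨j, hj, (hLm _ _).1 hx⟩
      · rintro ⟨j, hj, hx⟩
        exact ⟨j, hj, hj, (hLm _ _).2 hx⟩
    rw [Finset.sum_range, Finset.sum_range] at h6
    refine Eq.trans ?_ (h6.trans ?_)
    · by_cases hh : ∃ j ≤ α, j ≤ α ∧ x ∈ L j
      · rw [if_pos hh, if_pos (e1.1 hh)]
      · rw [if_neg hh, if_neg (fun h' => hh (e1.2 h'))]
    rw [sub_eq_add_neg, ← sum_neg_distrib]
    congr 1
    · apply sum_congr rfl
      intro j _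
      have h7 : (j : ℕ) ≤ α := by omega
      by_cases h9 : x ∈ L j
      · exact (if_pos ⟨h7, h9⟩).trans (if_pos h9).symm
      · exact (if_neg (fun h' => h9 h'.2)).trans (if_neg h9).symm
    · apply sum_congr rfl
      intro j _
      have h7 : (j : ℕ) ≤ α := by omega
      have h8 : (j : ℕ) + 1 ≤ α := by omega
      by_cases h9 : x ∈ L j ⊓ L (j + 1)
      · have h10 := AddSubgroup.mem_inf.1 h9
        rw [if_pos ⟨⟨h7, h10.1⟩, h8, h10.2⟩]
        exact (if_pos h9).symm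
      · have h10 : ¬ (((j : ℕ) ≤ α ∧ x ∈ L j) ∧ ((j : ℕ) + 1 ≤ α ∧ x ∈ L (j + 1))) := fun h' =>
          h9 (AddSubgroup.mem_inf.2 ⟨h'.1.2, h'.2.2⟩)
        rw [if_neg h10, neg_zero]
        exact (if_neg h9).symm

private lemma LatP_single (A A' : ℤ) (m k a b : ℕ) (hk : 1 ≤ k) (ha : a ∣ m) (hb : b ∣ m)
    (h : ∀ x : ℤ × ℤ, (m : ℤ) ∣ Qf A A' x ↔ (a : ℤ) ∣ x.1 ∧ (b : ℤ) ∣ x.2) :
    HasDec A A' m k := by
  classical
  have hm : ∀ x : ℤ × ℤ, x ∈ LatP_sub a b 1 0 0 1 ↔ (m : ℤ) ∣ Qf A A' x := by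
    intro x
    rw [LatP_mem, h]
    simp
  refine ⟨Unit, inferInstance, fun _ => LatP_sub a b 1 0 0 1, fun _ => 1, ?_, ?_, ?_, ?_, ?_⟩
  · simpa using hk
  · intro _; left; rfl
  · intro _ x hx
    exact (hm x).1 hx
  · intro _ x
    exact LatP_smul_mem _ _ _ _ _ _ _ (Int.natCast_dvd_natCast.2 ha)
      (Int.natCast_dvd_natCast.2 hb) x
  · intro x
    simp only [univ_unique, sum_const, card_singleton, one_smul]
    by_cases hx : (m : ℤ) ∣ Qf A A' x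
    · rw [if_pos hx, if_pos ((hm x).2 hx)]
    · rw [if_neg hx, if_neg (fun h' => hx ((hm x).1 h'))]

private lemma LatP_induct (A A' : ℤ) {p : ℕ} (hp : p.Prime) (c : ℕ → ℕ) (d : ℕ → ℕ)
    (hc0 : c 0 = 0) (hd0 : d 0 = 0) (hc : ∀ n, c (n + 2) = c n + 1) (hd : ∀ n, d (n + 2) = d n + 1)
    (h1 : ∀ x : ℤ × ℤ, (p : ℤ) ∣ Qf A A' x ↔ (p : ℤ) ^ c 1 ∣ x.1 ∧ (p : ℤ) ^ d 1 ∣ x.2)
    (h2 : ∀ x : ℤ × ℤ, (p : ℤ) ^ 2 ∣ Qf A A' x → (p : ℤ) ∣ x.1 ∧ (p : ℤ) ∣ x.2) (n : ℕ) :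
    ∀ x : ℤ × ℤ, (p : ℤ) ^ n ∣ Qf A A' x ↔ (p : ℤ) ^ c n ∣ x.1 ∧ (p : ℤ) ^ d n ∣ x.2 := by
  have hpp : (p : ℤ) ≠ 0 := by exact_mod_cast hp.ne_zero
  induction n using Nat.twoStepInduction with
  | zero => intro x; simp [hc0, hd0]
  | one => intro x; rw [pow_one]; exact h1 x
  | more n ih _ =>
    intro x
    have key : ∀ u v : ℤ, (p : ℤ) ^ (n + 2) ∣ Qf A A' ((p : ℤ) * u, (p : ℤ) * v) ↔
        (p : ℤ) ^ c (n + 2) ∣ (p : ℤ) * u ∧ (p : ℤ) ^ d (n + 2) ∣ (p : ℤ) * v := by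
      intro u v
      have e : Qf A A' ((p : ℤ) * u, (p : ℤ) * v) = (p : ℤ) ^ 2 * Qf A A' (u, v) := by
        unfold Qf; ring
      rw [e, show (p : ℤ) ^ (n + 2) = (p : ℤ) ^ 2 * (p : ℤ) ^ n by ring,
        mul_dvd_mul_iff_left (pow_ne_zero 2 hpp), ih, hc, hd,
        show (p : ℤ) ^ (c n + 1) = (p : ℤ) * (p : ℤ) ^ c n by ring,
        show (p : ℤ) ^ (d n + 1) = (p : ℤ) * (p : ℤ) ^ d n by ring,
        mul_dvd_mul_iff_left hpp, mul_dvd_mul_iff_left hpp]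
    constructor
    · intro h3
      obtain ⟨⟨u, hu⟩, ⟨v, hv⟩⟩ := h2 x (dvd_trans (pow_dvd_pow _ (by omega)) h3)
      have hx : x = ((p : ℤ) * u, (p : ℤ) * v) := Prod.ext hu hv
      rw [hx] at h3 ⊢
      exact (key u v).1 h3
    · rintro ⟨h3, h4⟩
      obtain ⟨u, hu⟩ : (p : ℤ) ∣ x.1 := dvd_trans (by
        rw [hc]; exact dvd_pow_self _ (by omega)) h3
      obtain ⟨v, hv⟩ : (p : ℤ) ∣ x.2 := dvd_trans (by
        rw [hd]; exact dvd_pow_self _ (by omega)) h4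
      have hx : x = ((p : ℤ) * u, (p : ℤ) * v) := Prod.ext hu hv
      rw [hx] at h3 h4 ⊢
      exact (key u v).2 ⟨h3, h4⟩

theorem dec_inert (A A' : ℤ) {p : ℕ} [Fact p.Prime] (h2 : p ≠ 2)
    (hsq : ¬ IsSquare ((A * A' : ℤ) : ZMod p)) (α : ℕ) : HasDec A A' (p ^ α) ((α + 1) ^ 2) := by
  have hp : p.Prime := Fact.out
  have hpZ : Prime (p : ℤ) := Nat.prime_iff_prime_int.1 hp
  have h : ¬ (p : ℤ) ∣ A * A' := by
    intro h
    apply hsq
    rw [(ZMod.intCast_zmod_eq_zero_iff_dvd _ _).2 h]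
    exact IsSquare.zero
  have hA : ¬ (p : ℤ) ∣ A := fun h' => h (Dvd.dvd.mul_right h' _)
  have hA' : ¬ (p : ℤ) ∣ A' := fun h' => h (Dvd.dvd.mul_left h' _)
  have base : ∀ x : ℤ × ℤ, (p : ℤ) ∣ Qf A A' x → (p : ℤ) ∣ x.1 ∧ (p : ℤ) ∣ x.2 := by
    intro x hx
    have hy : (p : ℤ) ∣ x.2 := by
      by_contra hy
      apply hsq
      have hyz : ((x.2 : ℤ) : ZMod p) ≠ 0 := fun h' =>
        hy ((ZMod.intCast_zmod_eq_zero_iff_dvd _ _).1 h')
      have h3 := (ZMod.intCast_zmod_eq_zero_iff_dvd _ _).2 hx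
      unfold Qf at h3
      push_cast at h3
      refine ⟨(A : ZMod p) * (x.1 : ZMod p) / (x.2 : ZMod p), ?_⟩
      push_cast
      have h4 : (A' : ZMod p) * (x.2 : ZMod p) ^ 2 = (A : ZMod p) * (x.1 : ZMod p) ^ 2 := by
        have := sub_eq_zero.1 h3
        exact this.symm
      field_simp
      calc (A : ZMod p) * A' * (x.2 : ZMod p) ^ 2 = A * ((A' : ZMod p) * (x.2 : ZMod p) ^ 2) := by
            ring
        _ = _ := by rw [h4]; ring
    refine ⟨?_, hy⟩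
    have h5 : (p : ℤ) ∣ A * x.1 ^ 2 := by
      have h6 : A * x.1 ^ 2 = Qf A A' x + A' * x.2 ^ 2 := by unfold Qf; ring
      rw [h6]
      exact dvd_add hx (Dvd.dvd.mul_left (dvd_pow hy (by norm_num)) _)
    rcases hpZ.dvd_or_dvd h5 with h6 | h6
    · exact absurd h6 hA
    · exact hpZ.dvd_of_dvd_pow h6
  have main := LatP_induct A A' hp (fun n => (n + 1) / 2) (fun n => (n + 1) / 2) rfl rfl
    (fun n => by show (n + 2 + 1) / 2 = (n + 1) / 2 + 1; omega)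
    (fun n => by show (n + 2 + 1) / 2 = (n + 1) / 2 + 1; omega)
    (fun x => by
      show _ ↔ (p : ℤ) ^ 1 ∣ x.1 ∧ (p : ℤ) ^ 1 ∣ x.2
      rw [pow_one]
      constructor
      · exact base x
      · rintro ⟨h3, h4⟩
        exact dvd_sub (Dvd.dvd.mul_left (dvd_pow h3 (by norm_num)) _)
          (Dvd.dvd.mul_left (dvd_pow h4 (by norm_num)) _))
    (fun x hx => base x (dvd_trans (dvd_pow_self _ (by norm_num)) hx)) α
  apply LatP_single A A' (p ^ α) _ (p ^ ((α + 1) / 2)) (p ^ ((α + 1) / 2))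
    (Nat.one_le_pow _ _ (by omega)) (pow_dvd_pow _ (by omega)) (pow_dvd_pow _ (by omega))
  intro x
  push_cast
  exact main x

theorem dec_ram (A A' : ℤ) {p : ℕ} (hp : p.Prime) (h2 : p ≠ 2) (h : (p : ℤ) ∣ A)
    (h' : ¬ (p : ℤ) ^ 2 ∣ A) (hA' : ¬ (p : ℤ) ∣ A') (α : ℕ) :
    HasDec A A' (p ^ α) ((α + 1) ^ 2) := by
  have hpZ : Prime (p : ℤ) := Nat.prime_iff_prime_int.1 hp
  have hpp : (p : ℤ) ≠ 0 := by exact_mod_cast hp.ne_zero
  have base : ∀ x : ℤ × ℤ, (p : ℤ) ∣ Qf A A' x → (p : ℤ) ∣ x.2 := by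
    intro x hx
    have h5 : (p : ℤ) ∣ A' * x.2 ^ 2 := by
      have h6 : A' * x.2 ^ 2 = A * x.1 ^ 2 - Qf A A' x := by unfold Qf; ring
      rw [h6]
      exact dvd_sub (Dvd.dvd.mul_right h _) hx
    rcases hpZ.dvd_or_dvd h5 with h6 | h6
    · exact absurd h6 hA'
    · exact hpZ.dvd_of_dvd_pow h6
  have base2 : ∀ x : ℤ × ℤ, (p : ℤ) ^ 2 ∣ Qf A A' x → (p : ℤ) ∣ x.1 ∧ (p : ℤ) ∣ x.2 := by
    intro x hx
    have hy := base x (dvd_trans (dvd_pow_self _ (by norm_num)) hx)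
    refine ⟨?_, hy⟩
    have h5 : (p : ℤ) ^ 2 ∣ A * x.1 ^ 2 := by
      have h6 : A * x.1 ^ 2 = Qf A A' x + A' * x.2 ^ 2 := by unfold Qf; ring
      rw [h6]
      exact dvd_add hx (Dvd.dvd.mul_left (pow_dvd_pow_of_dvd hy 2) _)
    obtain ⟨A1, hA1⟩ := h
    rw [hA1] at h5 h'
    have h7 : (p : ℤ) ∣ A1 * x.1 ^ 2 := by
      rw [pow_two, mul_assoc] at h5
      exact (mul_dvd_mul_iff_left hpp).1 h5
    rcases hpZ.dvd_or_dvd h7 with h8 | h8
    · exact absurd (by rw [pow_two]; exact mul_dvd_mul_left _ h8) h'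
    · exact hpZ.dvd_of_dvd_pow h8
  have main := LatP_induct A A' hp (fun n => n / 2) (fun n => (n + 1) / 2) rfl rfl
    (fun n => by show (n + 2) / 2 = n / 2 + 1; omega)
    (fun n => by show (n + 2 + 1) / 2 = (n + 1) / 2 + 1; omega)
    (fun x => by
      show _ ↔ (p : ℤ) ^ 0 ∣ x.1 ∧ (p : ℤ) ^ 1 ∣ x.2
      rw [pow_one, pow_zero]
      constructor
      · intro hx
        exact ⟨one_dvd _, base x hx⟩
      · rintro ⟨h3, h4⟩
        exact dvd_sub (Dvd.dvd.mul_right h _)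
          (Dvd.dvd.mul_left (dvd_pow h4 (by norm_num)) _))
    base2 α
  apply LatP_single A A' (p ^ α) _ (p ^ (α / 2)) (p ^ ((α + 1) / 2))
    (Nat.one_le_pow _ _ (by omega)) (pow_dvd_pow _ (by omega)) (pow_dvd_pow _ (by omega))
  intro x
  push_cast
  exact main x

private lemma LatP_swap (A A' : ℤ) {m k : ℕ} (h : HasDec A' A m k) : HasDec A A' m k := by
  classical
  obtain ⟨ι, hι, L, s, h1, h2, h3, h4, h5⟩ := h
  have hQ : ∀ x : ℤ × ℤ, (m : ℤ) ∣ Qf A A' x ↔ (m : ℤ) ∣ Qf A' A (x.2, x.1) := by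
    intro x
    have e : Qf A A' x = - Qf A' A (x.2, x.1) := by unfold Qf; ring
    rw [e, dvd_neg]
  have hm : ∀ i (x : ℤ × ℤ), x ∈ (L i).comap (AddEquiv.prodComm : ℤ × ℤ ≃+ ℤ × ℤ).toAddMonoidHom ↔
      (x.2, x.1) ∈ L i := by
    intro i x
    rw [AddSubgroup.mem_comap]
    rfl
  refine ⟨ι, hι, fun i => (L i).comap (AddEquiv.prodComm : ℤ × ℤ ≃+ ℤ × ℤ).toAddMonoidHom, s, h1, h2,
    ?_, ?_, ?_⟩
  · intro i x hx
    exact (hQ x).2 (h3 i _ ((hm i x).1 hx))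
  · intro i x
    rw [hm]
    exact h4 i (x.2, x.1)
  · intro x
    have := h5 (x.2, x.1)
    rw [if_congr (hQ x) rfl rfl, this]
    apply sum_congr rfl
    intro i _
    rw [if_congr (hm i x) rfl rfl]

theorem dec_ram' (A A' : ℤ) {p : ℕ} (hp : p.Prime) (h2 : p ≠ 2) (h : (p : ℤ) ∣ A')
    (h' : ¬ (p : ℤ) ^ 2 ∣ A') (hA : ¬ (p : ℤ) ∣ A) (α : ℕ) :
    HasDec A A' (p ^ α) ((α + 1) ^ 2) :=
  LatP_swap A A' (dec_ram A' A hp h2 h h' hA α)

theorem dec_pp (A A' : ℤ) (hs : Squarefree A) (hs' : Squarefree A') (hc : IsCoprime A A')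
    {p : ℕ} (hp : p.Prime) (h2 : p ≠ 2) (α : ℕ) : HasDec A A' (p ^ α) ((α + 1) ^ 2) := by
  have : Fact p.Prime := ⟨hp⟩
  have hpZ : Prime (p : ℤ) := Nat.prime_iff_prime_int.1 hp
  have hsq : ∀ B : ℤ, Squarefree B → ¬ (p : ℤ) ^ 2 ∣ B := by
    intro B hB hd
    rw [pow_two] at hd
    exact hpZ.not_isUnit (hB _ hd)
  by_cases h3 : (p : ℤ) ∣ A
  · apply dec_ram A A' hp h2 h3 (hsq A hs)
    intro h4
    exact hpZ.not_isUnit (hc.isUnit_of_dvd' h3 h4)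
  · by_cases h4 : (p : ℤ) ∣ A'
    · exact dec_ram' A A' hp h2 h4 (hsq A' hs') h3 α
    · by_cases h5 : IsSquare ((A * A' : ℤ) : ZMod p)
      · apply dec_split A A' h2 _ h5
        intro h6
        rcases hpZ.dvd_or_dvd h6 with h7 | h7
        · exact h3 h7
        · exact h4 h7
      · exact dec_inert A A' h2 h5 α

end Pool.Agent.Work.MP_43ce8a_nt.D
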