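import Mathlib

set_option autoImplicit false

/-!
Module LcUni (size S-M, Mathlib only). Sums of a unimodal function over two residue classes.

PROOF. If S is empty everything is 0. Let s₀ be a point where f is maximal (on S; 0 elsewhere, so
maximal everywhere). By hq, f is monotone on (-∞, s₀] and antitone on [s₀, ∞). For s ≡ c let σ s be
the element of the class c' in [s, s + D), τ s the one in (s - D, s]. If s ≤ s₀ - D then σ s < s₀ and
f s ≤ f (σ s); if s ≥ s₀ + D then τ s > s₀ and f s ≤ f (τ s). σ on the first kind and τ on the second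
kind are injective with disjoint images, and at most 2 elements s ≡ c lie strictly between s₀ - D and
s₀ + D. So ∑_c f ≤ ∑_{c'} f + 2 F (elements outside S contribute 0; f ≥ 0). Exchange c and c'.
-/

namespace Pool.Agent.Work.MP_43ce8a_nt.D

open Finset

private theorem piece_le (f : ℤ → ℝ) (F : ℝ) (hF : ∀ s, f s ≤ F) (hF0 : 0 ≤ F) (D : ℕ)
    (c lo : ℤ) (A : Finset ℤ) (hA : ∀ s ∈ A, (D : ℤ) ∣ s - c ∧ lo ≤ s ∧ s < lo + D) :
    ∑ s ∈ A, f s ≤ F := by
  have h1 : A.card ≤ 1 := by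
    rw [card_le_one]
    intro s hs t ht
    obtain ⟨h1, h2, h3⟩ := hA s hs
    obtain ⟨h4, h5, h6⟩ := hA t ht
    have h7 : (D : ℤ) ∣ s - t := by
      have := dvd_sub h1 h4
      rwa [sub_sub_sub_cancel_right] at this
    have h8 : s - t = 0 := Int.eq_zero_of_abs_lt_dvd h7 (by
      rw [abs_lt]
      constructor <;> linarith)
    linarith
  have h2 := sum_le_card_nsmul A f F fun s _ => hF s
  refine h2.trans ?_
  rw [nsmul_eq_mul]
  have h3 : (A.card : ℝ) ≤ 1 := by exact_mod_cast h1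
  nlinarith

private theorem one_side (f : ℤ → ℝ) (F : ℝ) (hf0 : ∀ s, 0 ≤ f s) (hF : ∀ s, f s ≤ F)
    (hq : ∀ s t u : ℤ, s ≤ t → t ≤ u → min (f s) (f u) ≤ f t)
    (S : Finset ℤ) (hS : ∀ s, s ∉ S → f s = 0) (D : ℕ) (hD : 0 < D) (c c' : ℤ) :
    ∑ s ∈ S.filter (fun s => (D : ℤ) ∣ s - c), f s ≤
      ∑ s ∈ S.filter (fun s => (D : ℤ) ∣ s - c'), f s + 2 * F := by
  classical
  have hF0 : 0 ≤ F := (hf0 0).trans (hF 0)
  have hDz : (0 : ℤ) < D := by exact_mod_cast hD
  rcases S.eq_empty_or_nonempty with rfl | hne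
  · simp only [filter_empty, sum_empty]
    linarith
  obtain ⟨s₀, hs₀, hmax⟩ := exists_max_image S f hne
  have hmax' : ∀ s, f s ≤ f s₀ := by
    intro s
    by_cases hs : s ∈ S
    · exact hmax s hs
    · rw [hS s hs]
      exact hf0 _
  have hup : ∀ s t, s ≤ t → t ≤ s₀ → f s ≤ f t := by
    intro s t h1 h2
    have h3 := hq s t s₀ h1 h2
    rwa [min_eq_left (hmax' s)] at h3
  have hdown : ∀ t u, s₀ ≤ t → t ≤ u → f u ≤ f t := by
    intro t u h1 h2
    have h3 := hq s₀ t u h1 h2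
    rwa [min_eq_right (hmax' u)] at h3
  set A := S.filter (fun s => (D : ℤ) ∣ s - c) with hA
  set A1 := A.filter (fun s => s < s₀ - D) with hA1
  set A2 := A.filter (fun s => s₀ - D ≤ s ∧ s < s₀) with hA2
  set A3 := A.filter (fun s => s₀ ≤ s ∧ s < s₀ + D) with hA3
  set A4 := A.filter (fun s => s₀ + D ≤ s) with hA4
  have hsplit : ∑ s ∈ A, f s = ∑ s ∈ A1, f s + ∑ s ∈ A2, f s + ∑ s ∈ A3, f s + ∑ s ∈ A4, f s := by
    have e1 : ∑ s ∈ A1, f s = ∑ s ∈ A, if s < s₀ - D then f s else 0 := sum_filter _ _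
    have e2 : ∑ s ∈ A2, f s = ∑ s ∈ A, if s₀ - D ≤ s ∧ s < s₀ then f s else 0 := sum_filter _ _
    have e3 : ∑ s ∈ A3, f s = ∑ s ∈ A, if s₀ ≤ s ∧ s < s₀ + D then f s else 0 := sum_filter _ _
    have e4 : ∑ s ∈ A4, f s = ∑ s ∈ A, if s₀ + D ≤ s then f s else 0 := sum_filter _ _
    rw [e1, e2, e3, e4, ← sum_add_distrib, ← sum_add_distrib, ← sum_add_distrib]
    refine sum_congr rfl fun s _ => ?_
    by_cases h1 : s < s₀ - D
    · rw [if_pos h1, if_neg (by omega), if_neg (by omega), if_neg (by omega)]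
      ring
    · by_cases h2 : s < s₀
      · rw [if_neg h1, if_pos (by omega), if_neg (by omega), if_neg (by omega)]
        ring
      · by_cases h3 : s < s₀ + D
        · rw [if_neg h1, if_neg (by omega), if_pos (by omega), if_neg (by omega)]
          ring
        · rw [if_neg h1, if_neg (by omega), if_neg (by omega), if_pos (by omega)]
          ring
  have hmemA : ∀ s ∈ A, (D : ℤ) ∣ s - c := fun s hs => (mem_filter.1 hs).2
  have h2 : ∑ s ∈ A2, f s ≤ F := by
    apply piece_le f F hF hF0 D c (s₀ - D) A2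
    intro s hs
    obtain ⟨h1, h2, h3⟩ := mem_filter.1 hs
    exact ⟨hmemA s h1, h2, by linarith⟩
  have h3 : ∑ s ∈ A3, f s ≤ F := by
    apply piece_le f F hF hF0 D c s₀ A3
    intro s hs
    obtain ⟨h1, h2, h3⟩ := mem_filter.1 hs
    exact ⟨hmemA s h1, h2, h3⟩
  set r := (c' - c) % D with hr
  have hr0 : 0 ≤ r := Int.emod_nonneg _ hDz.ne'
  have hrD : r < D := Int.emod_lt_of_pos _ hDz
  have hrd : (D : ℤ) ∣ c' - c - r := Int.dvd_self_sub_emod
  set r' := (c - c') % D with hr'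
  have hr0' : 0 ≤ r' := Int.emod_nonneg _ hDz.ne'
  have hrD' : r' < D := Int.emod_lt_of_pos _ hDz
  have hrd' : (D : ℤ) ∣ c - c' - r' := Int.dvd_self_sub_emod
  set B1 := A1.image (fun s => s + r) with hB1
  set B4 := A4.image (fun s => s - r') with hB4
  have h1 : ∑ s ∈ A1, f s ≤ ∑ s ∈ B1, f s := by
    rw [hB1, sum_image (fun x _ y _ h => by simpa using h)]
    apply sum_le_sum
    intro s hs
    have := (mem_filter.1 hs).2
    exact hup _ _ (by linarith) (by linarith)
  have h4 : ∑ s ∈ A4, f s ≤ ∑ s ∈ B4, f s := by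
    rw [hB4, sum_image (fun x _ y _ h => by simpa using h)]
    apply sum_le_sum
    intro s hs
    have := (mem_filter.1 hs).2
    exact hdown _ _ (by linarith) (by linarith)
  have hdis : Disjoint B1 B4 := by
    rw [disjoint_left]
    intro t ht1 ht4
    obtain ⟨s, hs, rfl⟩ := mem_image.1 ht1
    obtain ⟨s', hs', he⟩ := mem_image.1 ht4
    have h5 := (mem_filter.1 hs).2
    have h6 := (mem_filter.1 hs').2
    linarith
  have h5 : ∑ s ∈ B1, f s + ∑ s ∈ B4, f s ≤ ∑ s ∈ S.filter (fun s => (D : ℤ) ∣ s - c'), f s := by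
    rw [← sum_union hdis]
    have h6 : ∑ s ∈ (B1 ∪ B4).filter (fun s => s ∈ S), f s = ∑ s ∈ B1 ∪ B4, f s := by
      apply sum_filter_of_ne
      intro s _ hne
      by_contra h
      exact hne (hS s h)
    rw [← h6]
    apply sum_le_sum_of_subset_of_nonneg
    · intro t ht
      obtain ⟨ht1, ht2⟩ := mem_filter.1 ht
      rw [mem_filter]
      refine ⟨ht2, ?_⟩
      rcases mem_union.1 ht1 with h | h
      · obtain ⟨s, hs, rfl⟩ := mem_image.1 h
        have h7 := hmemA s (mem_filter.1 hs).1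
        have h8 : s + r - c' = (s - c) - (c' - c - r) := by ring
        rw [h8]
        exact dvd_sub h7 hrd
      · obtain ⟨s, hs, rfl⟩ := mem_image.1 h
        have h7 := hmemA s (mem_filter.1 hs).1
        have h8 : s - r' - c' = (s - c) + (c - c' - r') := by ring
        rw [h8]
        exact dvd_add h7 hrd'
    · intro s _ _
      exact hf0 s
  rw [hsplit]
  linarith

theorem unimodal_shift (f : ℤ → ℝ) (F : ℝ) (hf0 : ∀ s, 0 ≤ f s) (hF : ∀ s, f s ≤ F)
    (hq : ∀ s t u : ℤ, s ≤ t → t ≤ u → min (f s) (f u) ≤ f t)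
    (S : Finset ℤ) (hS : ∀ s, s ∉ S → f s = 0) (D : ℕ) (hD : 0 < D) (c c' : ℤ) :
    |∑ s ∈ S.filter (fun s => (D : ℤ) ∣ s - c), f s -
      ∑ s ∈ S.filter (fun s => (D : ℤ) ∣ s - c'), f s| ≤ 2 * F := by
  have h1 := one_side f F hf0 hF hq S hS D hD c c'
  have h2 := one_side f F hf0 hF hq S hS D hD c' c
  rw [abs_le]
  constructor <;> linarith

end Pool.Agent.Work.MP_43ce8a_nt.D
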