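import Pool.Agent.Work.MP_43ce8a_nt.D.WinB
import Pool.Agent.Work.MP_43ce8a_nt.D.Fin

set_option autoImplicit false

namespace Pool.Agent.Work.MP_43ce8a_nt.D

open Finset Filter

open Classical in
theorem almost_all : Tendsto (fun N : ℕ => (((range N).filter fun p => p.Prime ∧ ¬ InS p).card : ℝ) /
    (((range N).filter Nat.Prime).card : ℝ)) atTop (nhds 0) := by
  have h := density_of_windows (fun p => ¬ InS p) (fun ε hε => by
    obtain ⟨e, K, X₀, h1, h2, h3⟩ := window_bound ε hε
    exact ⟨e, K, X₀, h1, h2, fun X hX hK => by convert h3 X hX hK⟩)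
  refine h.congr fun N => ?_
  congr 2
  congr 1
  ext x
  simp only [mem_filter]

end Pool.Agent.Work.MP_43ce8a_nt.D
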