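import Pool.Agent.Work.MP_43ce8a_nt.D.Defs
import Pool.Agent.Work.MP_73869e_nt.N

set_option autoImplicit false

/-!
Module MertW (size S). Upper bound for ∏ (1 - 1/p), from mertens_third (MP_73869e_nt/N.lean, with
mert y the product over the primes ≤ y, see MP_73869e_nt/Defs.lean): mert (z - 1) log(z - 1) converges, so
it is bounded for large z, and log(z - 1) ≥ (1/2) log z for z ≥ 3; for the remaining finitely many z
use a larger constant (products ≤ 1, log z bounded).
qhalf: 8 Mo y has exactly the primes ≤ y as prime factors: φ(M)/M = ∏_{p ∣ M} (1 - 1/p)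
(Nat.totient_eq_mul_prod_factors).
-/

namespace Pool.Agent.Work.MP_43ce8a_nt.D

open Finset

theorem mertW : ∃ C : ℝ, 0 < C ∧ ∀ z : ℕ, 2 ≤ z →
    ∏ p ∈ (range z).filter Nat.Prime, (1 - 1 / (p : ℝ)) ≤ C / Real.log z := by
  have h1 : Filter.Tendsto (fun n : ℕ => Pool.Agent.Work.MP_73869e_nt.mert (n : ℝ) *
      Real.log (n : ℝ)) Filter.atTop (nhds (Real.exp (-Real.eulerMascheroniConstant))) :=
    Pool.Agent.Work.MP_73869e_nt.mertens_third.comp tendsto_natCast_atTop_atTop
  obtain ⟨C1, hC1⟩ := h1.bddAbove_range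
  have hC : ∀ n : ℕ, Pool.Agent.Work.MP_73869e_nt.mert (n : ℝ) * Real.log (n : ℝ) ≤ C1 :=
    fun n => hC1 ⟨n, rfl⟩
  refine ⟨2 * max C1 0 + 1, by positivity, fun z hz => ?_⟩
  have hlog : 0 < Real.log z := Real.log_pos (by exact_mod_cast (by omega : 1 < z))
  rw [le_div_iff₀ hlog]
  rcases Nat.lt_or_ge z 3 with h3 | h3
  · have hz2 : z = 2 := by omega
    subst hz2
    have e1 : (range 2).filter Nat.Prime = ∅ := by decide
    rw [e1, prod_empty, one_mul]
    have e2 : Real.log ((2 : ℕ) : ℝ) ≤ 1 := by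
      have := Real.log_two_lt_d9
      push_cast
      linarith
    have e3 : 0 ≤ max C1 0 := le_max_right _ _
    linarith
  · obtain ⟨n, rfl⟩ : ∃ n, z = n + 1 := ⟨z - 1, by omega⟩
    have hn : 2 ≤ n := by omega
    have e1 : ∏ p ∈ (range (n + 1)).filter Nat.Prime, (1 - 1 / (p : ℝ)) =
        Pool.Agent.Work.MP_73869e_nt.mert (n : ℝ) := by
      unfold Pool.Agent.Work.MP_73869e_nt.mert
      rw [Nat.floor_natCast]
      congr 1
      ext p
      simp only [mem_filter, mem_range, mem_Icc]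
      constructor
      · rintro ⟨a, b⟩
        exact ⟨⟨b.one_lt.le, by omega⟩, b⟩
      · rintro ⟨a, b⟩
        exact ⟨by omega, b⟩
    have e0 : 0 ≤ Pool.Agent.Work.MP_73869e_nt.mert (n : ℝ) := by
      rw [← e1]
      refine prod_nonneg fun p hp => ?_
      have hp1 : (1 : ℝ) < p := by exact_mod_cast (mem_filter.1 hp).2.one_lt
      rw [sub_nonneg, div_le_one (by linarith)]
      exact hp1.le
    have e2 : Real.log ((n + 1 : ℕ) : ℝ) ≤ 2 * Real.log n := by
      have hn' : (2 : ℝ) ≤ n := by exact_mod_cast hn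
      have : 2 * Real.log (n : ℝ) = Real.log ((n : ℝ) ^ 2) := by
        rw [Real.log_pow]
        norm_num
      rw [this]
      apply Real.log_le_log (by positivity)
      push_cast
      nlinarith
    rw [e1]
    have e3 := hC n
    have e4 : C1 ≤ max C1 0 := le_max_left _ _
    have e5 := mul_le_mul_of_nonneg_left e2 e0
    nlinarith

theorem qhalf (y : ℕ) (hy : 2 ≤ y) : ((qq y / 2).totient : ℝ) / ((qq y / 2 : ℕ) : ℝ) =
    ∏ p ∈ (range (y + 1)).filter Nat.Prime, (1 - 1 / (p : ℝ)) := by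
  have h0 : qq y / 2 = 8 * Mo y := by
    unfold qq
    omega
  have hpr : ∀ p ∈ (Icc 3 y).filter Nat.Prime, p.Prime := fun p hp => (mem_filter.1 hp).2
  have hMo : Mo y ≠ 0 := by
    unfold Mo
    exact prod_ne_zero_iff.2 fun p hp => (hpr p hp).ne_zero
  have hpf : (8 * Mo y).primeFactors = (range (y + 1)).filter Nat.Prime := by
    rw [Nat.primeFactors_mul (by norm_num) hMo]
    have h8 : Nat.primeFactors 8 = {2} := by
      have : (8 : ℕ) = 2 ^ 3 := by norm_num
      rw [this, Nat.primeFactors_prime_pow (by norm_num) Nat.prime_two]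
    have hM : (Mo y).primeFactors = (Icc 3 y).filter Nat.Prime := by
      unfold Mo
      exact Nat.primeFactors_prod hpr
    rw [h8, hM]
    ext p
    simp only [mem_union, mem_singleton, mem_filter, mem_Icc, mem_range]
    constructor
    · rintro (rfl | ⟨⟨a, b⟩, c⟩)
      · exact ⟨by omega, Nat.prime_two⟩
      · exact ⟨by omega, c⟩
    · rintro ⟨a, b⟩
      have := b.two_le
      by_cases hp : p = 2
      · exact Or.inl hp
      · exact Or.inr ⟨⟨by omega, by omega⟩, b⟩
  rw [h0, ← hpf]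
  have h1 := Nat.totient_eq_mul_prod_factors (8 * Mo y)
  have h2 : ((8 * Mo y).totient : ℝ) = ((8 * Mo y : ℕ) : ℝ) *
      ∏ p ∈ (8 * Mo y).primeFactors, (1 - 1 / (p : ℝ)) := by
    have := congrArg (fun x : ℚ => (x : ℝ)) h1
    push_cast at this ⊢
    rw [this]
    simp only [one_div]
  rw [h2, mul_div_cancel_left₀]
  exact_mod_cast (by positivity : 8 * Mo y ≠ 0)

theorem split_W {y z : ℕ} (hz : y < z) :
    (∏ p ∈ (range (y + 1)).filter Nat.Prime, (1 - 1 / (p : ℝ))) * Wz y z =
      ∏ p ∈ (range z).filter Nat.Prime, (1 - 1 / (p : ℝ)) := by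
  unfold Wz pr
  rw [← prod_union]
  · congr 1
    ext p
    simp only [mem_union, mem_filter, mem_range, mem_Ioo]
    constructor
    · rintro (⟨a, b⟩ | ⟨⟨a, b⟩, c⟩)
      · exact ⟨by omega, b⟩
      · exact ⟨by omega, c⟩
    · rintro ⟨a, b⟩
      by_cases h : p < y + 1
      · exact Or.inl ⟨h, b⟩
      · exact Or.inr ⟨⟨by omega, a⟩, b⟩
  · rw [disjoint_left]
    intro p hp hp'
    simp only [mem_filter, mem_range, mem_Ioo] at hp hp'
    omega

end Pool.Agent.Work.MP_43ce8a_nt.D
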