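import Pool.Agent.Work.MP_43ce8a_nt.D.Defs

set_option autoImplicit false

/-!
Definitions for the second moment.

If 4 n = w² - D v² = w'² - D' v'², put m0 = (w + w')/2, k0 = (w - w')/2; then
4 m0 k0 = D v² - D' v'². With g = gcd(D, D'), D = g A, D' = g A', g₁ = gcd(m0, g), g₂ = g / g₁,
m = m0 / g₁: k0 = g₂ Q / (4 m), Q = A v² - A' v'², m ∣ Q and
64 m² n = (4 g₁ m² + g₂ Q)² - 16 g₁ g₂ A m² v² .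
-/

namespace Pool.Agent.Work.MP_43ce8a_nt.D

open Finset

/-- triples `(m, v, v')` -/
noncomputable def Tset (q μ v0 : ℕ) (A A' : ℤ) (Y₁ Y₂ : ℝ) (a h a' h' : ℕ) : Finset (ℕ × ℕ × ℕ) :=
  (Ioc ⌊Y₁⌋₊ ⌊Y₂⌋₊ ×ˢ (Ioc a (a + h) ×ˢ Ioc a' (a' + h'))).filter fun x =>
    x.1 % q = μ % q ∧ x.2.1 % (2 * q) = v0 % (2 * q) ∧ x.2.2 % (2 * q) = v0 % (2 * q) ∧
      (x.1 : ℤ) ∣ Qf A A' ((x.2.1 : ℤ), (x.2.2 : ℤ))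

/-- the sieving event for a prime -/
def Ev (g₁ g₂ : ℕ) (A A' : ℤ) (x : ℕ × ℕ × ℕ) (p : ℕ) : Prop :=
  ¬ p ∣ x.1 ∧ ¬ p ∣ x.2.1 ∧ ¬ p ∣ x.2.2 ∧
    (p : ℤ) ∣ (4 * (g₁ : ℤ) * (x.1 : ℤ) ^ 2 + g₂ * Qf A A' ((x.2.1 : ℤ), (x.2.2 : ℤ))) ^ 2 -
      16 * g₁ * g₂ * A * (x.1 : ℤ) ^ 2 * (x.2.1 : ℤ) ^ 2

/-- size conditions for pairs: `(w + w') / 2` lies between `M₁` and `M₂` -/
structure GeoP (D D' : ℤ) (N H a h a' h' X : ℕ) (M₁ M₂ : ℝ) : Prop where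
  X1 : 1 ≤ X
  lo : (X : ℝ) / 4 ≤ M₁
  le : M₁ ≤ M₂
  two : M₂ ≤ 2 * M₁
  hi : M₂ ≤ 4 * X
  ha : a + h ≤ X
  ha' : a' + h' ≤ X
  hM : ∀ n ∈ Ioc N (N + H), ∀ v ∈ Ioc a (a + h), ∀ v' ∈ Ioc a' (a' + h'),
    M₁ < (Real.sqrt (4 * n + D * (v : ℝ) ^ 2) + Real.sqrt (4 * n + D' * (v' : ℝ) ^ 2)) / 2 ∧
    (Real.sqrt (4 * n + D * (v : ℝ) ^ 2) + Real.sqrt (4 * n + D' * (v' : ℝ) ^ 2)) / 2 ≤ M₂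

/-- main term for triples -/
noncomputable def XP (q : ℕ) (A A' : ℤ) (h h' : ℕ) (M₁ M₂ : ℝ) : ℝ :=
  (h : ℝ) * h' / (4 * (q : ℝ) ^ 2) * (Real.log (M₂ / M₁) / q) * Gc A A' q

end Pool.Agent.Work.MP_43ce8a_nt.D
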