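import Pool.Agent.Work.MP_43ce8a_nt.D.PmDefs
import Pool.Agent.Work.MP_43ce8a_nt.D.ChA
import Pool.Agent.Work.MP_43ce8a_nt.D.CrtCnt

set_option autoImplicit false

/-!
Module PmLoc (size M-L). Local count for the pair sieve.

ev_mod: Ev depends only on v, v' mod p (and m mod p).
loc_prime: p odd prime, D = g₁ g₂ A and D' = g₁ g₂ A' nonzero squares mod p, p ∤ m. In ZMod p let
s² = D, t² = D', s, t ≠ 0. Multiply the event by g₁² (nonzero): with m0 = g₁ m,
(4 g₁ m² + g₂ Q)² g₁² = (4 m0² + D v² - D' v'²)², 16 g₁ g₂ A m² v² g₁² = 16 m0² D v². So the event is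
(4 m0² + (s v)² - (t v')²)² = (4 m0 s v)², i.e. with x = s v, x' = t v':
(4 m0² + x² - x'² - 4 m0 x)(4 m0² + x² - x'² + 4 m0 x) = ((2 m0 - x)² - x'²)((2 m0 + x)² - x'²) = 0, i.e.
one of x + x' = 2 m0, x - x' = 2 m0, -x - x' = 2 m0, -x + x' = 2 m0 holds. On x, x' ≠ 0 these four
sets are disjoint (p odd, m0 ≠ 0) and each has p - 2 elements (x ≠ 0, x ≠ ± 2 m0 resp.). Total 4 (p - 2).
loc_prod: CRT over the primes of d (as in Rho1.rho1_prod).
-/

namespace Pool.Agent.Work.MP_43ce8a_nt.D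

open Finset

open Classical in
/-- residue classes of `(v, v')` modulo `∏ d` for which the event holds for all primes of `d` -/
noncomputable def Rcl (g₁ g₂ : ℕ) (A A' : ℤ) (m : ℕ) (d : Finset ℕ) : Finset (ℕ × ℕ) :=
  (range (∏ p ∈ d, p) ×ˢ range (∏ p ∈ d, p)).filter fun c => ∀ p ∈ d, Ev g₁ g₂ A A' (m, c.1, c.2) p

private theorem pmLoc_cast {M p : ℕ} (h : p ∣ M) (v : ℕ) : ((v % M : ℕ) : ZMod p) = (v : ZMod p) := by
  rw [ZMod.natCast_eq_natCast_iff]
  exact (Nat.mod_modEq v M).of_dvd h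

private theorem pmLoc_ev (g₁ g₂ : ℕ) (A A' : ℤ) (m v v' p : ℕ) :
    Ev g₁ g₂ A A' (m, v, v') p ↔ (m : ZMod p) ≠ 0 ∧ (v : ZMod p) ≠ 0 ∧ (v' : ZMod p) ≠ 0 ∧
      (4 * (g₁ : ZMod p) * (m : ZMod p) ^ 2 + g₂ * ((A : ZMod p) * (v : ZMod p) ^ 2 -
        (A' : ZMod p) * (v' : ZMod p) ^ 2)) ^ 2 -
        16 * g₁ * g₂ * (A : ZMod p) * (m : ZMod p) ^ 2 * (v : ZMod p) ^ 2 = 0 := by
  unfold Ev Qf
  simp only
  rw [← ZMod.intCast_zmod_eq_zero_iff_dvd, ← ZMod.natCast_eq_zero_iff, ← ZMod.natCast_eq_zero_iff,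
    ← ZMod.natCast_eq_zero_iff]
  push_cast
  exact Iff.rfl

theorem ev_mod (g₁ g₂ : ℕ) (A A' : ℤ) (m v v' M p : ℕ) (h : p ∣ M) :
    Ev g₁ g₂ A A' (m, v % M, v' % M) p ↔ Ev g₁ g₂ A A' (m, v, v') p := by
  rw [pmLoc_ev, pmLoc_ev, pmLoc_cast h, pmLoc_cast h]

private theorem pmLoc_count {p : ℕ} [hf : Fact p.Prime] (h2 : p ≠ 2) (c s t : ZMod p) (hc : c ≠ 0)
    (hs : s ≠ 0) (ht : t ≠ 0) [∀ x y : ZMod p, Decidable (x ≠ 0 ∧ y ≠ 0 ∧
      (c ^ 2 + (s * x) ^ 2 - (t * y) ^ 2) ^ 2 - (2 * c * (s * x)) ^ 2 = 0)] :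
    ((univ : Finset (ZMod p × ZMod p)).filter fun z => z.1 ≠ 0 ∧ z.2 ≠ 0 ∧
      (c ^ 2 + (s * z.1) ^ 2 - (t * z.2) ^ 2) ^ 2 - (2 * c * (s * z.1)) ^ 2 = 0).card =
      4 * (p - 2) := by
  have hp : p.Prime := hf.out
  have h20 : (2 : ZMod p) ≠ 0 := by
    intro h
    have h1 : ((2 : ℕ) : ZMod p) = 0 := by exact_mod_cast h
    rw [ZMod.natCast_eq_zero_iff] at h1
    exact h2 ((Nat.prime_dvd_prime_iff_eq hp Nat.prime_two).1 h1)
  have hneg : (1 : ZMod p) ≠ -1 := by
    intro h
    apply h20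
    linear_combination h
  have hcardS : (({1, -1} : Finset (ZMod p)) ×ˢ (({1, -1} : Finset (ZMod p)) ×ˢ
      ((univ : Finset (ZMod p)) \ {0, c}))).card = 4 * (p - 2) := by
    rw [card_product, card_product, Finset.card_pair hneg, Finset.card_sdiff_of_subset
      (subset_univ _), Finset.card_pair hc.symm, Finset.card_univ, ZMod.card]
    ring
  rw [← hcardS]
  symm
  refine Finset.card_bij (fun z _ => (z.1 * z.2.2 / s, z.2.1 * (c - z.2.2) / t)) ?_ ?_ ?_
  · rintro ⟨e, f, y⟩ hz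
    simp only [mem_product, mem_insert, mem_singleton, mem_sdiff, mem_univ, true_and,
      not_or] at hz
    obtain ⟨he, hff, hy0, hyc⟩ := hz
    have he2 : e ^ 2 = 1 := by rcases he with rfl | rfl <;> ring
    have hf2 : f ^ 2 = 1 := by rcases hff with rfl | rfl <;> ring
    have he0 : e ≠ 0 := by
      rintro rfl
      exact zero_ne_one (by rw [← he2]; ring)
    have hf0 : f ≠ 0 := by
      rintro rfl
      exact zero_ne_one (by rw [← hf2]; ring)
    simp only [mem_filter, mem_univ, true_and]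
    have hcy : c - y ≠ 0 := sub_ne_zero.2 (Ne.symm hyc)
    refine ⟨div_ne_zero (mul_ne_zero he0 hy0) hs, div_ne_zero (mul_ne_zero hf0 hcy) ht, ?_⟩
    have e1 : s * (e * y / s) = e * y := by field_simp
    have e2 : t * (f * (c - y) / t) = f * (c - y) := by field_simp
    rw [e1, e2]
    linear_combination (2 * (c ^ 2 + e ^ 2 * y ^ 2 - f ^ 2 * (c - y) ^ 2) * y ^ 2 -
      (e ^ 2 - 1) * y ^ 4 - 4 * c ^ 2 * y ^ 2) * he2 +
      (-(2 * (c ^ 2 + y ^ 2) * (c - y) ^ 2) + (f ^ 2 + 1) * (c - y) ^ 4) * hf2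
  · rintro ⟨e, f, y⟩ hz ⟨e', f', y'⟩ hz' heq
    simp only [mem_product, mem_insert, mem_singleton, mem_sdiff, mem_univ, true_and,
      not_or] at hz hz'
    obtain ⟨he, hff, hy0, hyc⟩ := hz
    obtain ⟨he', hff', hy0', hyc'⟩ := hz'
    rw [Prod.mk.injEq, div_left_inj' hs, div_left_inj' ht] at heq
    obtain ⟨h1, h3⟩ := heq
    have hcy : c - y ≠ 0 := sub_ne_zero.2 (Ne.symm hyc)
    have hmul2 : ∀ w : ZMod p, 2 * w = 0 → w = 0 := fun w hw => (mul_eq_zero.1 hw).resolve_left h20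
    rcases he with rfl | rfl <;> rcases he' with rfl | rfl <;> rcases hff with rfl | rfl <;>
      rcases hff' with rfl | rfl
    · have : y = y' := by linear_combination h1
      rw [this]
    · have : y = y' := by linear_combination h1
      subst this
      exact absurd (hmul2 (c - y) (by linear_combination h3)) hcy
    · have : y = y' := by linear_combination h1
      subst this
      exact absurd (hmul2 (c - y) (by linear_combination -h3)) hcy
    · have : y = y' := by linear_combination h1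
      rw [this]
    · have : y' = -y := by linear_combination h1
      subst this
      exact absurd (hmul2 y (by linear_combination -h3)) hy0
    · have : y' = -y := by linear_combination h1
      subst this
      exact absurd (hmul2 c (by linear_combination h3)) hc
    · have : y' = -y := by linear_combination h1
      subst this
      exact absurd (hmul2 c (by linear_combination -h3)) hc
    · have : y' = -y := by linear_combination h1
      subst this
      exact absurd (hmul2 y (by linear_combination h3)) hy0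
    · have : y' = -y := by linear_combination -h1
      subst this
      exact absurd (hmul2 y (by linear_combination -h3)) hy0
    · have : y' = -y := by linear_combination -h1
      subst this
      exact absurd (hmul2 c (by linear_combination h3)) hc
    · have : y' = -y := by linear_combination -h1
      subst this
      exact absurd (hmul2 c (by linear_combination -h3)) hc
    · have : y' = -y := by linear_combination -h1
      subst this
      exact absurd (hmul2 y (by linear_combination h3)) hy0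
    · have : y = y' := by linear_combination -h1
      rw [this]
    · have : y = y' := by linear_combination -h1
      subst this
      exact absurd (hmul2 (c - y) (by linear_combination h3)) hcy
    · have : y = y' := by linear_combination -h1
      subst this
      exact absurd (hmul2 (c - y) (by linear_combination -h3)) hcy
    · have : y = y' := by linear_combination -h1
      rw [this]
  · rintro ⟨v, v'⟩ hz
    simp only [mem_filter, mem_univ, true_and] at hz
    obtain ⟨hv, hv', hE⟩ := hz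
    have hx : s * v ≠ 0 := mul_ne_zero hs hv
    have hx' : t * v' ≠ 0 := mul_ne_zero ht hv'
    have hfac : ((c - s * v - t * v') * (c - s * v + t * v')) *
        ((c + s * v - t * v') * (c + s * v + t * v')) = 0 := by
      rw [← hE]
      ring
    have mk : ∀ e f y : ZMod p, (e = 1 ∨ e = -1) → (f = 1 ∨ f = -1) → y ≠ 0 → y ≠ c →
        e * y = s * v → f * (c - y) = t * v' →
        ∃ a, ∃ (_ : a ∈ (({1, -1} : Finset (ZMod p)) ×ˢ (({1, -1} : Finset (ZMod p)) ×ˢ
          ((univ : Finset (ZMod p)) \ {0, c})))), (a.1 * a.2.2 / s, a.2.1 * (c - a.2.2) / t) =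
          (v, v') := by
      intro e f y he hff hy0 hyc h1 h3
      refine ⟨(e, f, y), ?_, ?_⟩
      · simp only [mem_product, mem_insert, mem_singleton, mem_sdiff, mem_univ, true_and, not_or]
        exact ⟨he, hff, hy0, hyc⟩
      · simp only
        rw [h1, h3, mul_div_cancel_left₀ _ hs, mul_div_cancel_left₀ _ ht]
    rcases mul_eq_zero.1 hfac with h | h
    · rcases mul_eq_zero.1 h with h | h
      · refine mk 1 1 (s * v) (Or.inl rfl) (Or.inl rfl) hx ?_ (by ring) (by linear_combination h)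
        intro h5
        apply hx'
        linear_combination -h - h5
      · refine mk 1 (-1) (s * v) (Or.inl rfl) (Or.inr rfl) hx ?_ (by ring)
          (by linear_combination -h)
        intro h5
        apply hx'
        linear_combination h + h5
    · rcases mul_eq_zero.1 h with h | h
      · refine mk (-1) 1 (-(s * v)) (Or.inr rfl) (Or.inl rfl) (neg_ne_zero.2 hx) ?_ (by ring)
          (by linear_combination h)
        intro h5
        apply hx'
        linear_combination -h - h5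
      · refine mk (-1) (-1) (-(s * v)) (Or.inr rfl) (Or.inr rfl) (neg_ne_zero.2 hx) ?_ (by ring)
          (by linear_combination -h)
        intro h5
        apply hx'
        linear_combination h + h5

theorem loc_prime (g₁ g₂ : ℕ) (A A' : ℤ) (m p : ℕ) (hp : p.Prime) (h2 : p ≠ 2)
    (h : chi (g₁ * g₂ * A) p = 1) (h' : chi (g₁ * g₂ * A') p = 1) (hm : ¬ p ∣ m) :
    (Rcl g₁ g₂ A A' m {p}).card = 4 * (p - 2) := by
  classical
  have hf : Fact p.Prime := ⟨hp⟩
  obtain ⟨hD0, s, hs⟩ := (chi_eq_one_iff _ h2).1 h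
  obtain ⟨hD0', t, ht⟩ := (chi_eq_one_iff _ h2).1 h'
  push_cast at hD0 hs hD0' ht
  have hm0 : (m : ZMod p) ≠ 0 := by rwa [Ne, ZMod.natCast_eq_zero_iff]
  have hg : (g₁ : ZMod p) ≠ 0 := by
    intro h0
    apply hD0
    rw [h0]
    ring
  have hs0 : s ≠ 0 := by
    rintro rfl
    apply hD0
    rw [hs]
    ring
  have ht0 : t ≠ 0 := by
    rintro rfl
    apply hD0'
    rw [ht]
    ring
  have h20 : (2 : ZMod p) ≠ 0 := by
    intro h
    have h1 : ((2 : ℕ) : ZMod p) = 0 := by exact_mod_cast h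
    rw [ZMod.natCast_eq_zero_iff] at h1
    exact h2 ((Nat.prime_dvd_prime_iff_eq hp Nat.prime_two).1 h1)
  have hc : (2 * g₁ * m : ZMod p) ≠ 0 := mul_ne_zero (mul_ne_zero h20 hg) hm0
  rw [← pmLoc_count h2 (2 * g₁ * m : ZMod p) s t hc hs0 ht0]
  refine Eq.trans ?_ (card_zmod (fun x y : ZMod p => x ≠ 0 ∧ y ≠ 0 ∧
      ((2 * g₁ * m : ZMod p) ^ 2 + (s * x) ^ 2 - (t * y) ^ 2) ^ 2 -
        (2 * (2 * g₁ * m : ZMod p) * (s * x)) ^ 2 = 0))
  unfold Rcl
  rw [Finset.prod_singleton]
  congr 1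
  apply Finset.filter_congr
  rintro ⟨v, v'⟩ _
  simp only [mem_singleton, forall_eq]
  rw [pmLoc_ev]
  have key : ((2 * g₁ * m : ZMod p) ^ 2 + (s * v) ^ 2 - (t * v') ^ 2) ^ 2 -
        (2 * (2 * g₁ * m : ZMod p) * (s * v)) ^ 2 = (g₁ : ZMod p) ^ 2 *
      ((4 * (g₁ : ZMod p) * (m : ZMod p) ^ 2 + g₂ * ((A : ZMod p) * (v : ZMod p) ^ 2 -
        (A' : ZMod p) * (v' : ZMod p) ^ 2)) ^ 2 -
        16 * g₁ * g₂ * (A : ZMod p) * (m : ZMod p) ^ 2 * (v : ZMod p) ^ 2) := by
    have e1 : (s * v) ^ 2 = (g₁ * g₂ * A : ZMod p) * v ^ 2 := by rw [hs]; ring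
    have e2 : (t * v') ^ 2 = (g₁ * g₂ * A' : ZMod p) * v' ^ 2 := by rw [ht]; ring
    have e3 : (2 * (2 * g₁ * m : ZMod p) * (s * v)) ^ 2 =
        16 * (g₁ : ZMod p) ^ 2 * m ^ 2 * ((g₁ * g₂ * A : ZMod p) * v ^ 2) := by
      rw [mul_pow, e1]
      ring
    rw [e1, e2, e3]
    ring
  rw [key]
  constructor
  · rintro ⟨-, a1, a2, a3⟩
    exact ⟨a1, a2, by rw [a3, mul_zero]⟩
  · rintro ⟨a1, a2, a3⟩
    exact ⟨hm0, a1, a2, (mul_eq_zero.1 a3).resolve_left (pow_ne_zero 2 hg)⟩

theorem loc_prod (g₁ g₂ : ℕ) (A A' : ℤ) (m : ℕ) (d : Finset ℕ) (hd : ∀ p ∈ d, p.Prime ∧ p ≠ 2)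
    (h : ∀ p ∈ d, chi (g₁ * g₂ * A) p = 1 ∧ chi (g₁ * g₂ * A') p = 1)
    (hm : ∀ p ∈ d, ¬ p ∣ m) : (Rcl g₁ g₂ A A' m d).card = ∏ p ∈ d, 4 * (p - 2) := by
  classical
  induction d using Finset.induction_on with
  | empty =>
    unfold Rcl
    simp
  | insert a s ha ih =>
    have hp := hd a (mem_insert_self _ _)
    have hs : ∀ p ∈ s, p.Prime ∧ p ≠ 2 := fun p hps => hd p (mem_insert_of_mem hps)
    have hc : a.Coprime (∏ p ∈ s, p) := by
      refine Nat.Coprime.prod_right fun p hps => ?_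
      rw [Nat.coprime_primes hp.1 (hs p hps).1]
      rintro rfl
      exact ha hps
    rw [Finset.prod_insert ha, ← ih hs (fun p hps => h p (mem_insert_of_mem hps))
      (fun p hps => hm p (mem_insert_of_mem hps)),
      ← loc_prime g₁ g₂ A A' m a hp.1 hp.2 (h a (mem_insert_self _ _)).1
        (h a (mem_insert_self _ _)).2 (hm a (mem_insert_self _ _))]
    have e := card_crt hc hp.1.ne_zero (Finset.prod_ne_zero_iff.2 fun p hps => (hs p hps).1.ne_zero)
      (P := fun x y : ℕ => ∀ p ∈ ({a} : Finset ℕ), Ev g₁ g₂ A A' (m, x, y) p)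
      (Q := fun x y : ℕ => ∀ p ∈ s, Ev g₁ g₂ A A' (m, x, y) p)
      (fun x y => by
        simp only [mem_singleton, forall_eq]
        exact ev_mod g₁ g₂ A A' m x y a a dvd_rfl)
      (fun x y => forall₂_congr fun p hps =>
        ev_mod g₁ g₂ A A' m x y _ p (Finset.dvd_prod_of_mem (fun p => p) hps))
    have e0 : (Rcl g₁ g₂ A A' m {a}).card = ((range a ×ˢ range a).filter fun x : ℕ × ℕ =>
        ∀ p ∈ ({a} : Finset ℕ), Ev g₁ g₂ A A' (m, x.1, x.2) p).card := by
      unfold Rcl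
      rw [Finset.prod_singleton]
    rw [e0]
    refine Eq.trans ?_ e
    unfold Rcl
    rw [Finset.prod_insert ha]
    congr 1
    apply Finset.filter_congr
    rintro ⟨x, y⟩ _
    simp only [mem_insert, forall_eq_or_imp, mem_singleton, forall_eq]

theorem loc_empty (g₁ g₂ : ℕ) (A A' : ℤ) (m : ℕ) (d : Finset ℕ) (p : ℕ) (hp : p ∈ d) (hm : p ∣ m) :
    Rcl g₁ g₂ A A' m d = ∅ := by
  classical
  unfold Rcl
  rw [Finset.filter_eq_empty_iff]
  intro x _ h
  exact (h p hp).1 hm

end Pool.Agent.Work.MP_43ce8a_nt.D
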