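import Pool.Agent.Work.MP_43ce8a_nt.D.PmDefs
import Pool.Agent.Work.MP_43ce8a_nt.D.QB
import Pool.Agent.Work.MP_43ce8a_nt.D.ChA

set_option autoImplicit false

/-!
Module PmMap (size M-L). The parametrisation of pairs of representations.

PROOF. q = qq y. The left side counts (n, v, v'): n ∈ Nset, v, v' in their ranges, with unique w, w' > 0
(naturals, w, w' ≡ w0 mod q, so prime to q and nonzero), w² = 4n + D v², w'² = 4n + D' v'². w, w' are odd,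
w - w' divisible by q (even): m0 = (w + w')/2 > 0, k0 = (w - w')/2 are integers, 4 m0 k0 = D v² - D' v'².
Now v ≡ v' mod 2 q gives v² ≡ v'² mod 4 q (v² - v'² = (v - v')(v + v'), both even... v - v' = 2 q j and
v + v' is even), D ≡ D' mod 4 q, so 4 q ∣ 4 m0 k0, q ∣ m0 k0. m0 = w' + k0 with q/2 ∣ k0, and q/2
(= 8 Mo y, same prime factors as q) : m0 ≡ w' mod q/2 is prime to q. So q ∣ k0 and m0 ≡ w' ≡ w0 mod q.
g = gcd(D, D') is squarefree, prime to q; g₁ = gcd(m0, g), m = m0/g₁. g₂ = g/g₁ is prime to m0 (g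
squarefree). Dividing: m ∣ g₂ (A v² - A' v'²) up to the factor 4: 4 m k0 = g₂ Q, so m ∣ Q. m ≡ μf g₁ mod q
because g₁ m ≡ w0 ≡ g₁ μf g₁. M₁/g₁ < m ≤ M₂/g₁ by hM (m0 = (w + w')/2, w = √(4n + D v²) as real).
So (m, v, v') ∈ Tset for the index g₁. If p ∈ PP and Ev holds then, from
(4 g₁ m² + g₂ Q)² = (4 m (m0 + k0))² = 16 m² w² and 16 g₁ g₂ A m² v² = 16 m² D v², p divides 64 m² n,
p ∤ m, p odd: p ∣ n, impossible. Injectivity: (g₁, m, v, v') determines m0, k0, w, n.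
(Finset.card_le_card_of_injOn into a sigma finset, after writing rep as a card.)
-/

namespace Pool.Agent.Work.MP_43ce8a_nt.D

open Finset

/-- half sum and half difference -/
private theorem pmmap_half {q M w0 v0 n v v' w w' : ℕ} {D D' : ℤ} (hq : q = 16 * M)
    (hw0 : w0.Coprime q) (hdd : ((4 * q : ℕ) : ℤ) ∣ D - D') (hw : w % q = w0 % q)
    (hw' : w' % q = w0 % q) (hv : v % (2 * q) = v0 % (2 * q)) (hv' : v' % (2 * q) = v0 % (2 * q))
    (e : (w : ℤ) ^ 2 = 4 * n + D * (v : ℤ) ^ 2) (e' : (w' : ℤ) ^ 2 = 4 * n + D' * (v' : ℤ) ^ 2) :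
    ∃ k0 : ℤ, (w : ℤ) = ((w + w') / 2 : ℕ) + k0 ∧ (w' : ℤ) = ((w + w') / 2 : ℕ) - k0 ∧
      ((w + w') / 2) % q = w0 % q ∧ ((w + w') / 2).Coprime q ∧
      4 * (((w + w') / 2 : ℕ) : ℤ) * k0 = D * (v : ℤ) ^ 2 - D' * (v' : ℤ) ^ 2 := by
  have hwc : w'.Coprime q := by
    have h : w' ≡ w0 [MOD q] := hw'
    have := h.gcd_eq
    unfold Nat.Coprime
    rw [this]
    exact hw0
  have h1 : (q : ℤ) ∣ (w : ℤ) - w' := by
    have h : w' ≡ w [MOD q] := hw'.trans hw.symm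
    exact Nat.modEq_iff_dvd.1 h
  obtain ⟨j, hj⟩ := h1
  have hq' : (q : ℤ) = 16 * M := by rw [hq]; push_cast; ring
  have h2 : (w : ℤ) - w' = 2 * (8 * M * j) := by rw [hj, hq']; ring
  set k0 : ℤ := 8 * M * j with hk0
  have hm0 : (((w + w') / 2 : ℕ) : ℤ) = w' + k0 := by
    have : ((w + w' : ℕ) : ℤ) = 2 * (w' + k0) := by push_cast; linarith
    omega
  set m0 : ℕ := (w + w') / 2 with hm0def
  have h4 : 4 * (m0 : ℤ) * k0 = D * (v : ℤ) ^ 2 - D' * (v' : ℤ) ^ 2 := by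
    have h5 : (w : ℤ) = w' + 2 * k0 := by linarith
    have h6 : D * (v : ℤ) ^ 2 - D' * (v' : ℤ) ^ 2 = (w : ℤ) ^ 2 - (w' : ℤ) ^ 2 := by
      rw [e, e']; ring
    rw [h6, hm0, h5]
    ring
  have hvv : ((2 * q : ℕ) : ℤ) ∣ (v : ℤ) - v' := by
    have h : v' ≡ v [MOD 2 * q] := hv'.trans hv.symm
    exact Nat.modEq_iff_dvd.1 h
  have h5 : (4 * (q : ℤ)) ∣ D * (v : ℤ) ^ 2 - D' * (v' : ℤ) ^ 2 := by
    obtain ⟨r, hr⟩ := hvv
    obtain ⟨t, ht⟩ := hdd
    push_cast at hr ht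
    have hv1 : (v : ℤ) = v' + 2 * q * r := by linarith
    have hD1 : D = D' + 4 * q * t := by linarith
    refine ⟨D' * (r * (v' + q * r)) + t * (v : ℤ) ^ 2, ?_⟩
    rw [hD1, hv1]
    ring
  have h6 : (q : ℤ) ∣ (m0 : ℤ) * k0 := by
    rw [← h4] at h5
    obtain ⟨t, ht⟩ := h5
    exact ⟨t, by linarith⟩
  have h7 : IsCoprime (m0 : ℤ) (q : ℤ) := by
    have h8 : IsCoprime (w' : ℤ) (8 * (M : ℤ)) := by
      have h9 : IsCoprime (w' : ℤ) (q : ℤ) := Nat.isCoprime_iff_coprime.2 hwc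
      exact h9.of_isCoprime_of_dvd_right ⟨2, by rw [hq']; ring⟩
    have h9 : IsCoprime (m0 : ℤ) (8 * (M : ℤ)) := by
      rw [hm0, hk0]
      exact h8.add_mul_left_left j
    have h10 : IsCoprime (m0 : ℤ) ((8 * (M : ℤ)) ^ 2) := h9.pow_right
    exact h10.of_isCoprime_of_dvd_right ⟨4 * M, by rw [hq']; ring⟩
  have h8 : (q : ℤ) ∣ k0 := h7.symm.dvd_of_dvd_mul_left h6
  refine ⟨k0, by linarith, by linarith, ?_, Nat.isCoprime_iff_coprime.1 h7, h4⟩
  have h9 : w' ≡ m0 [MOD q] := by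
    rw [Nat.modEq_iff_dvd, hm0]
    have : (w' : ℤ) + k0 - w' = k0 := by ring
    rw [this]
    exact h8
  exact h9.symm.trans hw'

/-- division by the common divisor -/
private theorem pmmap_div {m0 g v v' : ℕ} {k0 A A' : ℤ} (hg : Squarefree g) (hm0 : 0 < m0)
    (h : 4 * (m0 : ℤ) * k0 = g * Qf A A' ((v : ℤ), (v' : ℤ))) :
    m0 = m0.gcd g * (m0 / m0.gcd g) ∧ g = m0.gcd g * (g / m0.gcd g) ∧
      4 * ((m0 / m0.gcd g : ℕ) : ℤ) * k0 =
        ((g / m0.gcd g : ℕ) : ℤ) * Qf A A' ((v : ℤ), (v' : ℤ)) ∧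
      ((m0 / m0.gcd g : ℕ) : ℤ) ∣ Qf A A' ((v : ℤ), (v' : ℤ)) := by
  set g₁ := m0.gcd g with hg₁
  have e1 : m0 = g₁ * (m0 / g₁) := (Nat.mul_div_cancel' (Nat.gcd_dvd_left _ _)).symm
  have e2 : g = g₁ * (g / g₁) := (Nat.mul_div_cancel' (Nat.gcd_dvd_right _ _)).symm
  have hg₁0 : 0 < g₁ := Nat.gcd_pos_of_pos_left _ hm0
  set m := m0 / g₁ with hm
  set g₂ := g / g₁ with hg₂
  have h1 : 4 * (m : ℤ) * k0 = (g₂ : ℤ) * Qf A A' ((v : ℤ), (v' : ℤ)) := by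
    have h2 : (g₁ : ℤ) * (4 * (m : ℤ) * k0) =
        (g₁ : ℤ) * ((g₂ : ℤ) * Qf A A' ((v : ℤ), (v' : ℤ))) := by
      have h3 : (m0 : ℤ) = g₁ * m := by exact_mod_cast e1
      have h4 : (g : ℤ) = g₁ * g₂ := by exact_mod_cast e2
      rw [h3, h4] at h
      linarith
    exact mul_left_cancel₀ (by exact_mod_cast hg₁0.ne') h2
  refine ⟨e1, e2, h1, ?_⟩
  -- coprimality
  have hcop : Nat.Coprime m g₂ := by
    rw [Nat.coprime_iff_gcd_eq_one] 
    by_contra hne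
    obtain ⟨p, hp, hpd⟩ := Nat.exists_prime_and_dvd hne
    have hpm : p ∣ m := hpd.trans (Nat.gcd_dvd_left _ _)
    have hpg : p ∣ g₂ := hpd.trans (Nat.gcd_dvd_right _ _)
    have hpm0 : p ∣ m0 := by rw [e1]; exact hpm.mul_left _
    have hpg0 : p ∣ g := by rw [e2]; exact hpg.mul_left _
    have hpg₁ : p ∣ g₁ := Nat.dvd_gcd hpm0 hpg0
    have hpp : p * p ∣ g := by
      rw [e2]
      exact Nat.mul_dvd_mul hpg₁ hpg
    have := hg p hpp
    exact hp.one_lt.ne' (Nat.isUnit_iff.1 this)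
  have h3 : IsCoprime (m : ℤ) (g₂ : ℤ) := Nat.isCoprime_iff_coprime.2 hcop
  exact h3.dvd_of_dvd_mul_left ⟨4 * k0, by linarith⟩

private theorem pmmap_sqrt {x : ℤ} {w : ℕ} (h : (w : ℤ) ^ 2 = x) : Nat.sqrt x.toNat = w := by
  have h1 : x.toNat = w ^ 2 := by
    rw [← h]
    have : ((w : ℤ) ^ 2) = ((w ^ 2 : ℕ) : ℤ) := by push_cast; ring
    rw [this, Int.toNat_natCast]
  rw [h1, Nat.sqrt_eq']

open Classical in
theorem pair_map {y b1 w0 v0 z : ℕ} {D D' : ℤ} {N H a h a' h' X : ℕ} {M₁ M₂ : ℝ} (hy : 8 ≤ y)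
    (hw : w0.Coprime (qq y)) (hb : b1.Coprime (qq y))
    (hD : GoodD (qq y) D) (hD' : GoodD (qq y) D') (hdd : ((4 * qq y : ℕ) : ℤ) ∣ D - D')
    (hP : GeoP D D' N H a h a' h' X M₁ M₂) (μf : ℕ → ℕ)
    (hμ : ∀ g₁ ∈ (Int.gcd D D').divisors, (g₁ * μf g₁) % qq y = w0 % qq y) :
    ∑ n ∈ Nset (qq y) b1 z N H, rep (qq y) w0 v0 D a h n * rep (qq y) w0 v0 D' a' h' n ≤
      ∑ g₁ ∈ (Int.gcd D D').divisors,
        ((Tset (qq y) (μf g₁) v0 (D / Int.gcd D D') (D' / Int.gcd D D') (M₁ / g₁) (M₂ / g₁)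
          a h a' h').filter fun x => ∀ p ∈ PP D D' y z,
            ¬ Ev g₁ (Int.gcd D D' / g₁) (D / Int.gcd D D') (D' / Int.gcd D D') x p).card := by
  classical
  set q := qq y with hqdef
  set g : ℕ := Int.gcd D D' with hgdef
  have hq : q = 16 * Mo y := rfl
  have hMpos : 0 < Mo y := Mo_pos y
  have hqpos : 0 < q := by omega
  have hDg : D = g * (D / g) := (Int.mul_ediv_cancel' (Int.gcd_dvd_left D D')).symm
  have hDg' : D' = g * (D' / g) := (Int.mul_ediv_cancel' (Int.gcd_dvd_right D D')).symm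
  set A : ℤ := D / g with hA
  set A' : ℤ := D' / g with hA'
  have hg0 : g ≠ 0 := by
    intro h0
    have : D = 0 := by rw [hDg, h0]; simp
    exact hD.sqf.ne_zero this
  have hgsq : Squarefree g := by
    have h1 : Squarefree (g : ℤ) := hD.sqf.squarefree_of_dvd (Int.gcd_dvd_left D D')
    exact Int.squarefree_natCast.1 h1
  have hgq : g.Coprime q := by
    have h1 : IsCoprime (g : ℤ) (q : ℤ) :=
      hD.cop.of_isCoprime_of_dvd_left (Int.gcd_dvd_left D D')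
    exact Nat.isCoprime_iff_coprime.1 h1
  let W : ℕ → ℤ → ℕ → ℕ := fun n E v => Nat.sqrt (4 * (n : ℤ) + E * (v : ℤ) ^ 2).toNat
  -- left side
  have hL : ∑ n ∈ Nset q b1 z N H, rep q w0 v0 D a h n * rep q w0 v0 D' a' h' n =
      ((Nset q b1 z N H).sigma (fun n =>
        ((Ioc a (a + h)).filter fun v => v % (2 * q) = v0 % (2 * q) ∧
          ∃ w : ℕ, w % q = w0 % q ∧ (w : ℤ) ^ 2 = 4 * n + D * (v : ℤ) ^ 2) ×ˢ
        ((Ioc a' (a' + h')).filter fun v => v % (2 * q) = v0 % (2 * q) ∧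
          ∃ w : ℕ, w % q = w0 % q ∧ (w : ℤ) ^ 2 = 4 * n + D' * (v : ℤ) ^ 2))).card := by
    rw [card_sigma]
    refine sum_congr rfl fun n _ => ?_
    rw [card_product]
    rfl
  rw [hL, ← card_sigma]
  -- facts
  have key : ∀ n v v', n ∈ Nset q b1 z N H → v ∈ Ioc a (a + h) → v' ∈ Ioc a' (a' + h') →
      v % (2 * q) = v0 % (2 * q) → v' % (2 * q) = v0 % (2 * q) →
      ∀ w w' : ℕ, w % q = w0 % q → w' % q = w0 % q → (w : ℤ) ^ 2 = 4 * n + D * (v : ℤ) ^ 2 →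
      (w' : ℤ) ^ 2 = 4 * n + D' * (v' : ℤ) ^ 2 →
      W n D v = w ∧ W n D' v' = w' ∧ 0 < (w + w') / 2 ∧
      (w : ℤ) = 2 * ((w + w') / 2 : ℕ) - w' ∧
      4 * (((w + w') / 2 : ℕ) : ℤ) * ((w : ℤ) - ((w + w') / 2 : ℕ)) =
        D * (v : ℤ) ^ 2 - D' * (v' : ℤ) ^ 2 ∧
      (⟨((w + w') / 2).gcd g, ((w + w') / 2) / ((w + w') / 2).gcd g, v, v'⟩ :
        Σ _ : ℕ, ℕ × ℕ × ℕ) ∈ (Finset.sigma g.divisors fun g₁ =>
          (Tset q (μf g₁) v0 A A' (M₁ / g₁) (M₂ / g₁) a h a' h').filter fun x =>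
            ∀ p ∈ PP D D' y z, ¬ Ev g₁ (g / g₁) A A' x p) := by
    intro n v v' hn hv hv' hvm hvm' w w' hw1 hw1' e e'
    obtain ⟨k0, hk, hk', hm0q, hm0c, h4⟩ := pmmap_half hq hw hdd hw1 hw1' hvm hvm' e e'
    set m0 : ℕ := (w + w') / 2 with hm0
    have hm0pos : 0 < m0 := by
      rcases Nat.eq_zero_or_pos m0 with h0 | h0
      · rw [h0, Nat.coprime_zero_left] at hm0c
        omega
      · exact h0
    have h4' : 4 * (m0 : ℤ) * k0 = g * Qf A A' ((v : ℤ), (v' : ℤ)) := by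
      rw [h4]
      unfold Qf
      conv_lhs => rw [hDg, hDg']
      ring
    obtain ⟨e1, e2, e3, e4⟩ := pmmap_div hgsq hm0pos h4'
    set g₁ := m0.gcd g with hg₁
    set m := m0 / g₁ with hm
    set g₂ := g / g₁ with hg₂
    have hg₁pos : 0 < g₁ := Nat.gcd_pos_of_pos_left _ hm0pos
    have hg₁mem : g₁ ∈ g.divisors := Nat.mem_divisors.2 ⟨Nat.gcd_dvd_right _ _, hg0⟩
    refine ⟨pmmap_sqrt e, pmmap_sqrt e', hm0pos, by linarith, by rw [hk] at *; rw [← h4]; ring_nf, ?_⟩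
    rw [mem_sigma]
    refine ⟨hg₁mem, ?_⟩
    rw [mem_filter]
    have hm0R : (m0 : ℝ) = g₁ * m := by exact_mod_cast e1
    have hg₁R : (0 : ℝ) < g₁ := by exact_mod_cast hg₁pos
    constructor
    · unfold Tset
      rw [mem_filter, mem_product, mem_product]
      refine ⟨⟨?_, hv, hv'⟩, ?_, hvm, hvm', e4⟩
      · -- size
        have hnI : n ∈ Ioc N (N + H) := by
          unfold Nset at hn
          exact (mem_filter.1 hn).1
        obtain ⟨hM1, hM2⟩ := hP.hM n hnI v hv v' hv'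
        have hsw : Real.sqrt (4 * n + D * (v : ℝ) ^ 2) = w := by
          have : (4 * n + D * (v : ℝ) ^ 2 : ℝ) = (w : ℝ) ^ 2 := by exact_mod_cast e.symm
          rw [this, Real.sqrt_sq (Nat.cast_nonneg w)]
        have hsw' : Real.sqrt (4 * n + D' * (v' : ℝ) ^ 2) = w' := by
          have : (4 * n + D' * (v' : ℝ) ^ 2 : ℝ) = (w' : ℝ) ^ 2 := by exact_mod_cast e'.symm
          rw [this, Real.sqrt_sq (Nat.cast_nonneg w')]
        rw [hsw, hsw'] at hM1 hM2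
        have hm0w : ((w : ℝ) + w') / 2 = m0 := by
          have h5 : (w : ℤ) + w' = 2 * m0 := by linarith
          have h6 : (w : ℝ) + w' = 2 * m0 := by exact_mod_cast h5
          rw [h6]
          ring
        rw [hm0w, hm0R] at hM1 hM2
        have hX1 : (1 : ℝ) ≤ X := by exact_mod_cast hP.X1
        have hM₁ : 0 ≤ M₁ := by
          have := hP.lo
          linarith
        rw [mem_Ioc]
        constructor
        · show ⌊M₁ / g₁⌋₊ < m
          rw [Nat.floor_lt (by positivity), div_lt_iff₀ hg₁R]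
          linarith
        · show m ≤ ⌊M₂ / g₁⌋₊
          apply Nat.le_floor
          rw [le_div_iff₀ hg₁R]
          linarith
      · -- residue
        show m % q = μf g₁ % q
        have h5 : g₁ * m ≡ g₁ * μf g₁ [MOD q] := by
          rw [← e1]
          exact hm0q.trans (hμ g₁ hg₁mem).symm
        have h6 : q.gcd g₁ = 1 := by
          have : g₁.Coprime q := Nat.Coprime.coprime_dvd_left (Nat.gcd_dvd_right _ _) hgq
          exact this.symm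
        exact Nat.ModEq.cancel_left_of_coprime h6 h5
    · intro p hp hEv
      unfold PP at hp
      rw [mem_filter] at hp
      have hp1 := mem_pr.1 hp.1
      obtain ⟨hE1, hE2, hE3, hE4⟩ := hEv
      simp only at hE1 hE2 hE3 hE4
      have hpp : p.Prime := hp1.2.2
      have h5 : (4 * (g₁ : ℤ) * (m : ℤ) ^ 2 + g₂ * Qf A A' ((v : ℤ), (v' : ℤ))) ^ 2 -
          16 * g₁ * g₂ * A * (m : ℤ) ^ 2 * (v : ℤ) ^ 2 = ((64 * m ^ 2 * n : ℕ) : ℤ) := by
        have h6 : 4 * (g₁ : ℤ) * (m : ℤ) ^ 2 + g₂ * Qf A A' ((v : ℤ), (v' : ℤ)) =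
            4 * m * w := by
          rw [← e3, hk]
          have h7 : (m0 : ℤ) = g₁ * m := by exact_mod_cast e1
          rw [h7]
          ring
        have h8 : 16 * (g₁ : ℤ) * g₂ * A * (m : ℤ) ^ 2 * (v : ℤ) ^ 2 =
            16 * (m : ℤ) ^ 2 * (D * (v : ℤ) ^ 2) := by
          have h9 : (g : ℤ) = g₁ * g₂ := by exact_mod_cast e2
          conv_rhs => rw [hDg, h9]
          ring
        rw [h6, h8]
        push_cast
        have h10 : (4 * (m : ℤ) * w) ^ 2 = 16 * (m : ℤ) ^ 2 * (w : ℤ) ^ 2 := by ring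
        rw [h10, e]
        ring
      have hE4' : (p : ℤ) ∣ ((64 * m ^ 2 * n : ℕ) : ℤ) := by
        rw [← h5]
        exact hE4
      have h6 : p ∣ 64 * m ^ 2 * n := by exact_mod_cast hE4'
      rcases (Nat.Prime.dvd_mul hpp).1 h6 with h7 | h7
      · rcases (Nat.Prime.dvd_mul hpp).1 h7 with h8 | h8
        · have h9 : p ∣ 2 ^ 6 := by
            have : (64 : ℕ) = 2 ^ 6 := by norm_num
            rw [← this]
            exact h8
          have h10 : p ∣ 2 := hpp.dvd_of_dvd_pow h9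
          have h11 := Nat.le_of_dvd (by norm_num) h10
          omega
        · exact hE1 (hpp.dvd_of_dvd_pow h8)
      · unfold Nset at hn
        exact (mem_filter.1 hn).2.2 p hpp hp1.2.1 h7
  refine card_le_card_of_injOn (fun x : (Σ _ : ℕ, ℕ × ℕ) =>
    (⟨((W x.1 D x.2.1 + W x.1 D' x.2.2) / 2).gcd g,
      ((W x.1 D x.2.1 + W x.1 D' x.2.2) / 2) / ((W x.1 D x.2.1 + W x.1 D' x.2.2) / 2).gcd g,
      x.2.1, x.2.2⟩ : Σ _ : ℕ, ℕ × ℕ × ℕ)) ?_ ?_
  · rintro ⟨n, v, v'⟩ hx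
    rw [mem_coe, mem_sigma, mem_product, mem_filter, mem_filter] at hx
    obtain ⟨hn, ⟨hv, hvm, w, hw1, e⟩, hv', hvm', w', hw1', e'⟩ := hx
    obtain ⟨k1, k2, _, _, _, k5⟩ := key n v v' hn hv hv' hvm hvm' w w' hw1 hw1' e e'
    rw [mem_coe]
    simp only at k5 ⊢
    rw [k1, k2]
    exact k5
  · rintro ⟨n, v, v'⟩ hx ⟨n₁, v₁, v₁'⟩ hx₁ hxx
    rw [mem_coe, mem_sigma, mem_product, mem_filter, mem_filter] at hx hx₁
    obtain ⟨hn, ⟨hv, hvm, w, hw1, e⟩, hv', hvm', w', hw1', e'⟩ := hx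
    obtain ⟨hn₁, ⟨hv₁, hvm₁, w₁, hw1₁, e₁⟩, hv₁', hvm₁', w₁', hw1₁', e₁'⟩ := hx₁
    simp only at hn hv hvm hw1 e hv' hvm' hw1' e' hn₁ hv₁ hvm₁ hw1₁ e₁ hv₁' hvm₁' hw1₁' e₁'
    obtain ⟨k1, k2, k3, k4, k5, _⟩ := key n v v' hn hv hv' hvm hvm' w w' hw1 hw1' e e'
    obtain ⟨l1, l2, l3, l4, l5, _⟩ :=
      key n₁ v₁ v₁' hn₁ hv₁ hv₁' hvm₁ hvm₁' w₁ w₁' hw1₁ hw1₁' e₁ e₁'
    simp only [k1, k2, l1, l2] at hxx
    have h1 := congrArg Sigma.fst hxx
    simp only at h1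
    have h2 : (((w + w') / 2) / ((w + w') / 2).gcd g, v, v') =
        (((w₁ + w₁') / 2) / ((w₁ + w₁') / 2).gcd g, v₁, v₁') := by
      simpa using (Sigma.mk.inj_iff.1 hxx).2
    simp only [Prod.mk.injEq] at h2
    obtain ⟨h2, hvv, hvv'⟩ := h2
    have hm : (w + w') / 2 = (w₁ + w₁') / 2 := by
      calc (w + w') / 2 = ((w + w') / 2).gcd g * ((w + w') / 2 / ((w + w') / 2).gcd g) :=
            (Nat.mul_div_cancel' (Nat.gcd_dvd_left ((w + w') / 2) g)).symm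
        _ = ((w₁ + w₁') / 2).gcd g * ((w₁ + w₁') / 2 / ((w₁ + w₁') / 2).gcd g) := by
            rw [h2, h1]
        _ = (w₁ + w₁') / 2 := Nat.mul_div_cancel' (Nat.gcd_dvd_left ((w₁ + w₁') / 2) g)
    have hww : (w : ℤ) = w₁ := by
      rw [← hvv, ← hvv', ← hm] at l5
      rw [← l5] at k5
      have h3 : (4 * (((w + w') / 2 : ℕ) : ℤ)) ≠ 0 := by
        have : (0 : ℤ) < ((w + w') / 2 : ℕ) := by exact_mod_cast k3
        positivity
      have h4 := mul_left_cancel₀ h3 k5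
      linarith
    have hnn : n = n₁ := by
      rw [← hww, ← hvv] at e₁
      have : (4 * n : ℤ) = 4 * n₁ := by linarith
      omega
    rw [hnn, hvv, hvv']

end Pool.Agent.Work.MP_43ce8a_nt.D
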