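import Pool.Agent.Work.MP_43ce8a_nt.D.ChA
import Pool.Agent.Work.MP_43ce8a_nt.D.CrtCnt

set_option autoImplicit false

/-!
Module RhoA (size M-L). Solutions of A x ^ 2 ≡ A' y ^ 2 modulo prime powers.

rho_mul: Chinese remainder theorem, (x, y) mod m n ↦ ((x, y) mod m, (x, y) mod n).
rho_one: clear. rho_prime: y = 0 forces x = 0; for y ≠ 0 the number of x is the number of square roots
of A'/A in ZMod p, which is 1 + chi (A A') p (A A' is a square iff A'/A is).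
rho_step (p odd, p ∤ A A'): solutions mod p^(α+2). Those with p ∤ x (then p ∤ y): for each unit y mod
p^(α+2) the x are the square roots of the unit A'/A y² : 2 if it is a square mod p, else 0, so
p^(α+1) (p - 1) (1 + χ) solutions. Those with p ∣ x and p ∣ y: x = p x', y = p y' with x', y' mod
p^(α+1) and A x'² ≡ A' y'² mod p^α: there are p² rho(p^α) of them. (p ∣ x iff p ∣ y.)
Dividing by p^(α+2): hh (p^(α+2)) = hh (p^α) + (1 - 1/p)(1 + χ).
rho_ram (p ∣ A, p² ∤ A, p ∤ A'): induction on α for both orders of (A, A') at once: p ∣ y, y = p y1,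
A = p A1; the condition is A1 x² ≡ p A' y1² mod p^(α-1), with x mod p^α and y1 mod p^(α-1), i.e.
p times the number for (A1, p A') at p^(α-1). rho_ram' follows by symmetry.
-/

namespace Pool.Agent.Work.MP_43ce8a_nt.D

open Finset

theorem rho_one (A A' : ℤ) : rho A A' 1 = 1 := by
  unfold rho
  simp

private theorem rhoA_zero (A A' : ℤ) : rho A A' 0 = 0 := by
  unfold rho
  simp

theorem rho_mul (A A' : ℤ) {m n : ℕ} (h : m.Coprime n) : rho A A' (m * n) = rho A A' m * rho A A' n := by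
  by_cases hm : m = 0
  · subst hm
    rw [zero_mul, rhoA_zero, zero_mul]
  by_cases hn : n = 0
  · subst hn
    rw [mul_zero, rhoA_zero, mul_zero]
  unfold rho
  rw [← card_crt h hm hn (P := fun x y : ℕ => (m : ℤ) ∣ A * (x : ℤ) ^ 2 - A' * (y : ℤ) ^ 2)
    (Q := fun x y : ℕ => (n : ℤ) ∣ A * (x : ℤ) ^ 2 - A' * (y : ℤ) ^ 2) (quad_mod A A' m)
    (quad_mod A A' n)]
  congr 1
  apply Finset.filter_congr
  rintro ⟨x, y⟩ -
  have hc : IsCoprime (m : ℤ) (n : ℤ) := Nat.isCoprime_iff_coprime.2 h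
  push_cast
  constructor
  · intro h1
    exact ⟨dvd_of_mul_right_dvd h1, dvd_of_mul_left_dvd h1⟩
  · rintro ⟨h1, h2⟩
    exact hc.mul_dvd h1 h2

private theorem rhoA_chi (D : ℤ) {p : ℕ} [Fact p.Prime] (h2 : p ≠ 2) :
    chi D p = ((legendreSym p D : ℤ) : ℝ) := by
  have hp : p.Prime := Fact.out
  unfold chi
  rw [if_pos (Nat.odd_iff.1 (hp.odd_of_ne_two h2)), ← jacobiSym.legendreSym.to_jacobiSym]

theorem rho_prime (A A' : ℤ) {p : ℕ} (hp : p.Prime) (h2 : p ≠ 2) (h : ¬ (p : ℤ) ∣ A * A') :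
    hh A A' p = 1 + (1 - 1 / (p : ℝ)) * chi (A * A') p := by
  have : Fact p.Prime := ⟨hp⟩
  have hA : ¬ (p : ℤ) ∣ A := fun h1 => h (Dvd.dvd.mul_right h1 _)
  have hA' : ¬ (p : ℤ) ∣ A' := fun h1 => h (Dvd.dvd.mul_left h1 _)
  have h3 : ((rho A A' p : ℕ) : ℤ) = 1 + ((p : ℤ) - 1) * (1 + legendreSym p (A * A')) :=
    card_quad_prime A A' h2 hA hA'
  have h4 : (rho A A' p : ℝ) = 1 + ((p : ℝ) - 1) * (1 + chi (A * A') p) := by
    rw [rhoA_chi _ h2]
    exact_mod_cast h3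
  have hp0 : (p : ℝ) ≠ 0 := by exact_mod_cast hp.ne_zero
  unfold hh
  rw [h4]
  field_simp
  ring

/-- square roots modulo prime powers -/
private theorem rhoA_hensel {p : ℕ} (hp : p.Prime) (h2 : p ≠ 2) {c : ℤ} (hc : ¬ (p : ℤ) ∣ c)
    (h : ∃ r : ℤ, (p : ℤ) ∣ r ^ 2 - c) (k : ℕ) : ∃ r : ℤ, (p : ℤ) ^ (k + 1) ∣ r ^ 2 - c := by
  have hpi : Prime (p : ℤ) := Nat.prime_iff_prime_int.1 hp
  induction k with
  | zero => simpa using h
  | succ k ih =>
    obtain ⟨r, s, hs⟩ := ih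
    have hr : ¬ (p : ℤ) ∣ 2 * r := by
      intro h3
      rcases hpi.dvd_or_dvd h3 with h4 | h4
      · have h5 : p ∣ 2 := by exact_mod_cast h4
        exact h2 ((Nat.prime_dvd_prime_iff_eq hp Nat.prime_two).1 h5)
      · apply hc
        have h5 : (p : ℤ) ∣ r ^ 2 := dvd_pow h4 two_ne_zero
        have h6 : (p : ℤ) ∣ r ^ 2 - c := by
          rw [hs, pow_succ', mul_assoc]
          exact dvd_mul_right _ _
        have h7 := dvd_sub h5 h6
        rwa [sub_sub_cancel] at h7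
    have hco : IsCoprime (2 * r) (p : ℤ) := (hpi.coprime_iff_not_dvd.2 hr).symm
    obtain ⟨a, b, hab⟩ := hco
    refine ⟨r + (p : ℤ) ^ (k + 1) * (-(s * a)), s * b + (p : ℤ) ^ k * (s * a) ^ 2, ?_⟩
    have e : (r + (p : ℤ) ^ (k + 1) * (-(s * a))) ^ 2 - c =
        (r ^ 2 - c) - (p : ℤ) ^ (k + 1) * (s * (a * (2 * r))) +
          ((p : ℤ) ^ (k + 1)) ^ 2 * (s * a) ^ 2 := by ring
    rw [e, hs]
    have h8 : a * (2 * r) = 1 - b * p := by linear_combination hab
    rw [h8]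
    ring

private theorem rhoA_roots {p : ℕ} [hf : Fact p.Prime] (h2 : p ≠ 2) {c : ℤ} (hc : ¬ (p : ℤ) ∣ c)
    (k : ℕ) [NeZero (p ^ (k + 1))] :
    ((((univ : Finset (ZMod (p ^ (k + 1)))).filter fun t =>
      t ^ 2 = (c : ZMod (p ^ (k + 1)))).card : ℕ) : ℤ) = 1 + legendreSym p c := by
  have hp : p.Prime := hf.out
  have hpi : Prime (p : ℤ) := Nat.prime_iff_prime_int.1 hp
  have hc0 : (c : ZMod p) ≠ 0 := by rwa [Ne, ZMod.intCast_zmod_eq_zero_iff_dvd]
  have hdp : (p : ℤ) ∣ (p : ℤ) ^ (k + 1) := dvd_pow_self _ (Nat.succ_ne_zero k)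
  by_cases hsq : IsSquare (c : ZMod p)
  · rw [(legendreSym.eq_one_iff p hc0).2 hsq]
    obtain ⟨r0, hr0⟩ := hsq
    obtain ⟨r, hr⟩ := rhoA_hensel hp h2 hc ⟨(r0.val : ℤ), by
      rw [← ZMod.intCast_zmod_eq_zero_iff_dvd]
      push_cast
      rw [ZMod.natCast_zmod_val, hr0]
      ring⟩ k
    have hrp : ¬ (p : ℤ) ∣ 2 * r := by
      intro h3
      rcases hpi.dvd_or_dvd h3 with h4 | h4
      · have h5 : p ∣ 2 := by exact_mod_cast h4
        exact h2 ((Nat.prime_dvd_prime_iff_eq hp Nat.prime_two).1 h5)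
      · apply hc
        have h5 : (p : ℤ) ∣ r ^ 2 := dvd_pow h4 two_ne_zero
        have h6 : (p : ℤ) ∣ r ^ 2 - c := hdp.trans hr
        have h7 := dvd_sub h5 h6
        rwa [sub_sub_cancel] at h7
    have key : ∀ t : ℤ, ((p ^ (k + 1) : ℕ) : ℤ) ∣ t ^ 2 - c →
        ((p ^ (k + 1) : ℕ) : ℤ) ∣ t - r ∨ ((p ^ (k + 1) : ℕ) : ℤ) ∣ t + r := by
      intro t ht
      push_cast at ht ⊢
      have h3 : (p : ℤ) ^ (k + 1) ∣ (t - r) * (t + r) := by
        have := dvd_sub ht hr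
        have e : t ^ 2 - c - (r ^ 2 - c) = (t - r) * (t + r) := by ring
        rwa [e] at this
      by_cases h4 : (p : ℤ) ∣ t - r
      · left
        have h5 : ¬ (p : ℤ) ∣ t + r := by
          intro h5
          apply hrp
          have := dvd_sub h5 h4
          have e : t + r - (t - r) = 2 * r := by ring
          rwa [e] at this
        have h6 : IsCoprime ((p : ℤ) ^ (k + 1)) (t + r) :=
          (hpi.coprime_iff_not_dvd.2 h5).pow_left
        exact h6.dvd_of_dvd_mul_right h3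
      · right
        have h6 : IsCoprime ((p : ℤ) ^ (k + 1)) (t - r) :=
          (hpi.coprime_iff_not_dvd.2 h4).pow_left
        exact h6.dvd_of_dvd_mul_left h3
    have e : ((univ : Finset (ZMod (p ^ (k + 1)))).filter fun t =>
        t ^ 2 = (c : ZMod (p ^ (k + 1)))) = {(r : ZMod (p ^ (k + 1))), -(r : ZMod (p ^ (k + 1)))} := by
      ext t
      simp only [mem_filter, mem_univ, true_and, mem_insert, mem_singleton]
      constructor
      · intro ht
        have h3 := key (t.val : ℤ) (by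
          rw [← ZMod.intCast_zmod_eq_zero_iff_dvd]
          push_cast
          rw [ZMod.natCast_zmod_val, ht, sub_self])
        rcases h3 with h3 | h3
        · left
          rw [← ZMod.intCast_zmod_eq_zero_iff_dvd] at h3
          push_cast at h3
          rw [ZMod.natCast_zmod_val] at h3
          exact sub_eq_zero.1 h3
        · right
          rw [← ZMod.intCast_zmod_eq_zero_iff_dvd] at h3
          push_cast at h3
          rw [ZMod.natCast_zmod_val] at h3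
          exact eq_neg_of_add_eq_zero_left h3
      · have h4 : ((r : ZMod (p ^ (k + 1)))) ^ 2 = c := by
          have h5 : (((r ^ 2 - c : ℤ)) : ZMod (p ^ (k + 1))) = 0 := by
            rw [ZMod.intCast_zmod_eq_zero_iff_dvd]
            push_cast
            exact hr
          push_cast at h5
          exact sub_eq_zero.1 h5
        rintro (rfl | rfl)
        · exact h4
        · rw [neg_sq]
          exact h4
    rw [e, Finset.card_pair]
    · norm_num
    · intro h3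
      have h4 : (((2 * r : ℤ)) : ZMod (p ^ (k + 1))) = 0 := by
        push_cast
        linear_combination h3
      rw [ZMod.intCast_zmod_eq_zero_iff_dvd] at h4
      push_cast at h4
      exact hrp (hdp.trans h4)
  · rw [(legendreSym.eq_neg_one_iff p).2 hsq]
    have e : ((univ : Finset (ZMod (p ^ (k + 1)))).filter fun t =>
        t ^ 2 = (c : ZMod (p ^ (k + 1)))) = ∅ := by
      rw [Finset.filter_eq_empty_iff]
      intro t _ ht
      apply hsq
      refine ⟨ZMod.castHom (dvd_pow_self p (Nat.succ_ne_zero k)) (ZMod p) t, ?_⟩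
      rw [← pow_two, ← map_pow, ht, map_intCast]
    rw [e, card_empty]
    norm_num

private theorem rhoA_unit {p : ℕ} [hf : Fact p.Prime] {A A' : ℤ} (hA : ¬ (p : ℤ) ∣ A) (k : ℕ)
    [NeZero (p ^ (k + 1))] (y : ℕ) (hy : y.Coprime (p ^ (k + 1))) :
    ((range (p ^ (k + 1))).filter fun x : ℕ =>
      ((p ^ (k + 1) : ℕ) : ℤ) ∣ A * (x : ℤ) ^ 2 - A' * (y : ℤ) ^ 2).card =
    ((univ : Finset (ZMod (p ^ (k + 1)))).filter fun t =>
      t ^ 2 = ((A * A' : ℤ) : ZMod (p ^ (k + 1)))).card := by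
  have hp : p.Prime := hf.out
  have hpi : Prime (p : ℤ) := Nat.prime_iff_prime_int.1 hp
  obtain ⟨ui, hui⟩ : ∃ ui, (y : ZMod (p ^ (k + 1))) * ui = 1 :=
    ((ZMod.isUnit_iff_coprime _ _).2 hy).exists_right_inv
  obtain ⟨ai, hai⟩ : ∃ ai, (A : ZMod (p ^ (k + 1))) * ai = 1 := by
    have h1 : IsCoprime A ((p ^ (k + 1) : ℕ) : ℤ) := by
      push_cast
      exact (hpi.coprime_iff_not_dvd.2 hA).symm.pow_right
    obtain ⟨s, t, hst⟩ := h1
    have h2 : ((s * A + t * ((p ^ (k + 1) : ℕ) : ℤ) : ℤ) : ZMod (p ^ (k + 1))) = 1 := by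
      rw [hst, Int.cast_one]
    rw [Int.cast_add, Int.cast_mul, Int.cast_mul, Int.cast_natCast, ZMod.natCast_self, mul_zero,
      add_zero] at h2
    exact ⟨s, by rw [mul_comm]; exact h2⟩
  have hcast : ∀ x : ℕ, ((p ^ (k + 1) : ℕ) : ℤ) ∣ A * (x : ℤ) ^ 2 - A' * (y : ℤ) ^ 2 ↔
      (A : ZMod (p ^ (k + 1))) * (x : ZMod (p ^ (k + 1))) ^ 2 =
        A' * (y : ZMod (p ^ (k + 1))) ^ 2 := by
    intro x
    rw [← ZMod.intCast_zmod_eq_zero_iff_dvd]
    push_cast
    exact sub_eq_zero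
  refine Finset.card_nbij' (fun x : ℕ => (A : ZMod (p ^ (k + 1))) * x * ui)
    (fun t => (t * y * ai).val) ?_ ?_ ?_ ?_
  · intro x hx
    simp only [coe_filter, mem_range, Set.mem_ofPred_eq] at hx
    simp only [coe_filter, mem_univ, true_and, Set.mem_ofPred_eq]
    have h1 := (hcast x).1 hx.2
    push_cast
    linear_combination (A : ZMod (p ^ (k + 1))) * ui ^ 2 * h1 +
      (A : ZMod (p ^ (k + 1))) * A' * ((y : ZMod (p ^ (k + 1))) * ui + 1) * hui
  · intro t ht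
    simp only [coe_filter, mem_univ, true_and, Set.mem_ofPred_eq] at ht
    simp only [coe_filter, mem_range, Set.mem_ofPred_eq]
    refine ⟨ZMod.val_lt _, ?_⟩
    rw [hcast, ZMod.natCast_zmod_val]
    push_cast at ht
    linear_combination (A : ZMod (p ^ (k + 1))) * (y : ZMod (p ^ (k + 1))) ^ 2 * ai ^ 2 * ht +
      (y : ZMod (p ^ (k + 1))) ^ 2 * A' * ((A : ZMod (p ^ (k + 1))) * ai + 1) * hai
  · intro x hx
    simp only [coe_filter, mem_range, Set.mem_ofPred_eq] at hx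
    have e : (A : ZMod (p ^ (k + 1))) * x * ui * y * ai = (x : ZMod (p ^ (k + 1))) := by
      linear_combination (x : ZMod (p ^ (k + 1))) * (A : ZMod (p ^ (k + 1))) * ai * hui +
        (x : ZMod (p ^ (k + 1))) * hai
    show ((A : ZMod (p ^ (k + 1))) * x * ui * y * ai).val = x
    rw [e, ZMod.val_natCast, Nat.mod_eq_of_lt hx.1]
  · intro t _
    show (A : ZMod (p ^ (k + 1))) * (((t * y * ai).val : ℕ) : ZMod (p ^ (k + 1))) * ui = t
    rw [ZMod.natCast_zmod_val]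
    linear_combination t * (A : ZMod (p ^ (k + 1))) * ai * hui + t * hai

private theorem rhoA_step_count (A A' : ℤ) {p : ℕ} (hp : p.Prime) (h2 : p ≠ 2)
    (h : ¬ (p : ℤ) ∣ A * A') (α : ℕ) :
    ((rho A A' (p ^ (α + 2)) : ℕ) : ℤ) = (p : ℤ) * p * (rho A A' (p ^ α) : ℕ) +
      (p : ℤ) ^ (α + 1) * (p - 1) * (1 + @legendreSym p ⟨hp⟩ (A * A')) := by
  have hf : Fact p.Prime := ⟨hp⟩
  have hpi : Prime (p : ℤ) := Nat.prime_iff_prime_int.1 hp
  have hA : ¬ (p : ℤ) ∣ A := fun h1 => h (Dvd.dvd.mul_right h1 _)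
  have hne : NeZero (p ^ (α + 1 + 1)) := ⟨pow_ne_zero _ hp.ne_zero⟩
  have hsplit := Finset.card_filter_add_card_filter_not (s := (range (p ^ (α + 2)) ×ˢ
    range (p ^ (α + 2))).filter fun x : ℕ × ℕ =>
    ((p ^ (α + 2) : ℕ) : ℤ) ∣ A * (x.1 : ℤ) ^ 2 - A' * (x.2 : ℤ) ^ 2) (fun x => p ∣ x.2)
  have hrho : rho A A' (p ^ (α + 2)) = ((range (p ^ (α + 2)) ×ˢ
    range (p ^ (α + 2))).filter fun x : ℕ × ℕ =>
    ((p ^ (α + 2) : ℕ) : ℤ) ∣ A * (x.1 : ℤ) ^ 2 - A' * (x.2 : ℤ) ^ 2).card := rfl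
  rw [hrho, ← hsplit]
  -- the solutions divisible by p
  have e1 : (((range (p ^ (α + 2)) ×ˢ range (p ^ (α + 2))).filter fun x : ℕ × ℕ =>
      ((p ^ (α + 2) : ℕ) : ℤ) ∣ A * (x.1 : ℤ) ^ 2 - A' * (x.2 : ℤ) ^ 2).filter
      fun x => p ∣ x.2).card = p * p * rho A A' (p ^ α) := by
    unfold rho
    rw [← card_per (p ^ α) p p (pow_ne_zero _ hp.ne_zero)
      (P := fun x y : ℕ => ((p ^ α : ℕ) : ℤ) ∣ A * (x : ℤ) ^ 2 - A' * (y : ℤ) ^ 2)
      (quad_mod A A' (p ^ α))]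
    have hpp : ∀ a b : ℤ, (p : ℤ) ^ (α + 2) ∣ A * (p * a) ^ 2 - A' * (p * b) ^ 2 ↔
        (p : ℤ) ^ α ∣ A * a ^ 2 - A' * b ^ 2 := by
      intro a b
      have e : A * (p * a) ^ 2 - A' * (p * b) ^ 2 = (p : ℤ) ^ 2 * (A * a ^ 2 - A' * b ^ 2) := by
        ring
      rw [e, pow_add, mul_comm ((p : ℤ) ^ α)]
      exact mul_dvd_mul_iff_left (pow_ne_zero 2 hpi.ne_zero)
    refine Finset.card_nbij' (fun x : ℕ × ℕ => (x.1 / p, x.2 / p))
      (fun x : ℕ × ℕ => (p * x.1, p * x.2)) ?_ ?_ ?_ ?_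
    · rintro ⟨x, y⟩ hx
      simp only [coe_filter, mem_filter, mem_product, mem_range, Set.mem_ofPred_eq] at hx
      simp only [coe_filter, mem_product, mem_range, Set.mem_ofPred_eq]
      obtain ⟨⟨⟨hx1, hy1⟩, hd⟩, y', rfl⟩ := hx
      have hpx : p ∣ x := by
        have h3 : (p : ℤ) ∣ A * (x : ℤ) ^ 2 := by
          have h4 : (p : ℤ) ∣ A * (x : ℤ) ^ 2 - A' * ((p * y' : ℕ) : ℤ) ^ 2 := by
            refine dvd_trans ?_ hd
            push_cast
            exact dvd_pow_self _ (by omega)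
          have h5 : (p : ℤ) ∣ A' * ((p * y' : ℕ) : ℤ) ^ 2 := by
            push_cast
            exact ⟨A' * (p * y' ^ 2), by ring⟩
          exact (dvd_sub_left h5).1 h4
        have h4 := (hpi.dvd_or_dvd h3).resolve_left hA
        have h5 := hpi.dvd_of_dvd_pow h4
        exact_mod_cast h5
      obtain ⟨x', rfl⟩ := hpx
      rw [Nat.mul_div_cancel_left _ hp.pos, Nat.mul_div_cancel_left _ hp.pos]
      push_cast at hd ⊢
      rw [hpp] at hd
      refine ⟨⟨?_, ?_⟩, hd⟩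
      · have : p * x' < p * (p ^ α * p) := by
          calc p * x' < p ^ (α + 2) := hx1
            _ = p * (p ^ α * p) := by ring
        exact Nat.lt_of_mul_lt_mul_left this
      · have : p * y' < p * (p ^ α * p) := by
          calc p * y' < p ^ (α + 2) := hy1
            _ = p * (p ^ α * p) := by ring
        exact Nat.lt_of_mul_lt_mul_left this
    · rintro ⟨x, y⟩ hx
      simp only [coe_filter, mem_product, mem_range, Set.mem_ofPred_eq] at hx
      simp only [coe_filter, mem_filter, mem_product, mem_range, Set.mem_ofPred_eq]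
      obtain ⟨⟨hx1, hy1⟩, hd⟩ := hx
      refine ⟨⟨⟨?_, ?_⟩, ?_⟩, dvd_mul_right _ _⟩
      · calc p * x < p * (p ^ α * p) := Nat.mul_lt_mul_of_pos_left hx1 hp.pos
          _ = p ^ (α + 2) := by ring
      · calc p * y < p * (p ^ α * p) := Nat.mul_lt_mul_of_pos_left hy1 hp.pos
          _ = p ^ (α + 2) := by ring
      · push_cast at hd ⊢
        rw [hpp]
        exact hd
    · rintro ⟨x, y⟩ hx
      simp only [coe_filter, mem_filter, mem_product, mem_range, Set.mem_ofPred_eq] at hx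
      obtain ⟨⟨⟨hx1, hy1⟩, hd⟩, y', rfl⟩ := hx
      have hpx : p ∣ x := by
        have h3 : (p : ℤ) ∣ A * (x : ℤ) ^ 2 := by
          have h4 : (p : ℤ) ∣ A * (x : ℤ) ^ 2 - A' * ((p * y' : ℕ) : ℤ) ^ 2 := by
            refine dvd_trans ?_ hd
            push_cast
            exact dvd_pow_self _ (by omega)
          have h5 : (p : ℤ) ∣ A' * ((p * y' : ℕ) : ℤ) ^ 2 := by
            push_cast
            exact ⟨A' * (p * y' ^ 2), by ring⟩
          exact (dvd_sub_left h5).1 h4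
        have h4 := (hpi.dvd_or_dvd h3).resolve_left hA
        have h5 := hpi.dvd_of_dvd_pow h4
        exact_mod_cast h5
      obtain ⟨x', rfl⟩ := hpx
      simp only [Nat.mul_div_cancel_left _ hp.pos]
    · rintro ⟨x, y⟩ _
      simp only [Nat.mul_div_cancel_left _ hp.pos]
  -- the unit solutions
  have e2 : ((((range (p ^ (α + 2)) ×ˢ range (p ^ (α + 2))).filter fun x : ℕ × ℕ =>
      ((p ^ (α + 2) : ℕ) : ℤ) ∣ A * (x.1 : ℤ) ^ 2 - A' * (x.2 : ℤ) ^ 2).filter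
      fun x => ¬ p ∣ x.2).card : ℤ) =
      (p : ℤ) ^ (α + 1) * (p - 1) * (1 + legendreSym p (A * A')) := by
    have e3 : (((range (p ^ (α + 2)) ×ˢ range (p ^ (α + 2))).filter fun x : ℕ × ℕ =>
      ((p ^ (α + 2) : ℕ) : ℤ) ∣ A * (x.1 : ℤ) ^ 2 - A' * (x.2 : ℤ) ^ 2).filter
      fun x => ¬ p ∣ x.2).card = ∑ y ∈ (range (p ^ (α + 2))).filter
        (fun y => (p ^ (α + 2)).Coprime y), ((range (p ^ (α + 2))).filter fun x : ℕ =>
      ((p ^ (α + 2) : ℕ) : ℤ) ∣ A * (x : ℤ) ^ 2 - A' * (y : ℤ) ^ 2).card := by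
      rw [Finset.filter_filter, Finset.card_filter, Finset.sum_product_right, Finset.sum_filter]
      refine Finset.sum_congr rfl fun y _ => ?_
      rw [Finset.card_filter]
      have hiff : (p ^ (α + 2)).Coprime y ↔ ¬ p ∣ y := by
        rw [Nat.coprime_pow_left_iff (by omega), hp.coprime_iff_not_dvd]
      by_cases hy : p ∣ y
      · rw [if_neg (fun h3 => hiff.1 h3 hy)]
        exact Finset.sum_eq_zero fun x _ => if_neg fun h3 => h3.2 hy
      · rw [if_pos (hiff.2 hy)]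
        refine Finset.sum_congr rfl fun x _ => ?_
        simp only [hy, not_false_iff, and_true]
    rw [e3]
    push_cast
    have e4 : ∀ y ∈ (range (p ^ (α + 2))).filter (fun y => (p ^ (α + 2)).Coprime y),
        ((((range (p ^ (α + 2))).filter fun x : ℕ =>
        ((p : ℤ) ^ (α + 2)) ∣ A * (x : ℤ) ^ 2 - A' * (y : ℤ) ^ 2).card : ℕ) : ℤ) =
        1 + legendreSym p (A * A') := by
      intro y hy
      rw [mem_filter] at hy
      have h3 := rhoA_unit (A' := A') hA (α + 1) y hy.2.symm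
      rw [← rhoA_roots h2 h (α + 1), ← h3]
      push_cast
      rfl
    rw [Finset.sum_congr rfl e4, Finset.sum_const, ← Nat.totient_eq_card_coprime,
      Nat.totient_prime_pow hp (by omega), nsmul_eq_mul]
    push_cast [Nat.cast_sub hp.one_le]
    norm_num
  rw [e1]
  push_cast
  push_cast at e2
  rw [e2]

theorem rho_step (A A' : ℤ) {p : ℕ} (hp : p.Prime) (h2 : p ≠ 2) (h : ¬ (p : ℤ) ∣ A * A') (α : ℕ) :
    hh A A' (p ^ (α + 2)) = hh A A' (p ^ α) + (1 - 1 / (p : ℝ)) * (1 + chi (A * A') p) := by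
  have hf : Fact p.Prime := ⟨hp⟩
  have h3 := rhoA_step_count A A' hp h2 h α
  have h4 : (rho A A' (p ^ (α + 2)) : ℝ) = (p : ℝ) * p * (rho A A' (p ^ α) : ℕ) +
      (p : ℝ) ^ (α + 1) * (p - 1) * (1 + chi (A * A') p) := by
    rw [rhoA_chi _ h2]
    exact_mod_cast h3
  have hp0 : (p : ℝ) ≠ 0 := by exact_mod_cast hp.ne_zero
  unfold hh
  rw [h4]
  push_cast
  field_simp
  ring

private theorem rhoA_symm (A A' : ℤ) (m : ℕ) : rho A A' m = rho A' A m := by
  unfold rho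
  refine Finset.card_nbij' (fun x : ℕ × ℕ => (x.2, x.1)) (fun x : ℕ × ℕ => (x.2, x.1)) ?_ ?_ ?_ ?_
  · rintro ⟨x, y⟩ hx
    simp only [coe_filter, mem_product, mem_range, Set.mem_ofPred_eq] at hx ⊢
    exact ⟨⟨hx.1.2, hx.1.1⟩, (dvd_sub_comm).1 hx.2⟩
  · rintro ⟨x, y⟩ hx
    simp only [coe_filter, mem_product, mem_range, Set.mem_ofPred_eq] at hx ⊢
    exact ⟨⟨hx.1.2, hx.1.1⟩, (dvd_sub_comm).1 hx.2⟩
  · rintro ⟨x, y⟩ _
    rfl
  · rintro ⟨x, y⟩ _
    rfl

private theorem rhoA_ram {p : ℕ} (hp : p.Prime) (α : ℕ) : ∀ A A' : ℤ, (p : ℤ) ∣ A →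
    ¬ (p : ℤ) ^ 2 ∣ A → ¬ (p : ℤ) ∣ A' → rho A A' (p ^ α) = p ^ α := by
  have hpi : Prime (p : ℤ) := Nat.prime_iff_prime_int.1 hp
  induction α with
  | zero => intro A A' _ _ _; rw [pow_zero, rho_one]
  | succ α ih =>
    rintro A A' ⟨A₁, rfl⟩ h' hA'
    have hA₁ : ¬ (p : ℤ) ∣ A₁ := by
      intro h3
      apply h'
      rw [pow_two]
      exact mul_dvd_mul_left _ h3
    have h3 : rho A₁ (p * A') (p ^ α) = p ^ α := by
      rw [rhoA_symm]
      refine ih (p * A') A₁ (dvd_mul_right _ _) ?_ hA₁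
      intro h4
      rw [pow_two] at h4
      exact hA' ((mul_dvd_mul_iff_left hpi.ne_zero).1 h4)
    have hpp : ∀ a b : ℤ, (p : ℤ) ^ (α + 1) ∣ p * A₁ * a ^ 2 - A' * (p * b) ^ 2 ↔
        (p : ℤ) ^ α ∣ A₁ * a ^ 2 - p * A' * b ^ 2 := by
      intro a b
      have e : p * A₁ * a ^ 2 - A' * (p * b) ^ 2 = (p : ℤ) * (A₁ * a ^ 2 - p * A' * b ^ 2) := by
        ring
      rw [e, pow_succ']
      exact mul_dvd_mul_iff_left hpi.ne_zero
    have hpy : ∀ x y : ℕ, (p : ℤ) ^ (α + 1) ∣ p * A₁ * (x : ℤ) ^ 2 - A' * (y : ℤ) ^ 2 → p ∣ y := by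
      intro x y hd
      have h4 : (p : ℤ) ∣ p * A₁ * (x : ℤ) ^ 2 - A' * (y : ℤ) ^ 2 :=
        dvd_trans (dvd_pow_self _ (by omega)) hd
      have h5 : (p : ℤ) ∣ p * A₁ * (x : ℤ) ^ 2 := ⟨A₁ * (x : ℤ) ^ 2, by ring⟩
      have h6 : (p : ℤ) ∣ A' * (y : ℤ) ^ 2 := (dvd_sub_right h5).1 h4
      have h7 := (hpi.dvd_or_dvd h6).resolve_left hA'
      have h8 := hpi.dvd_of_dvd_pow h7
      exact_mod_cast h8
    have e1 : rho (p * A₁) A' (p ^ (α + 1)) = p * 1 * rho A₁ (p * A') (p ^ α) := by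
      unfold rho
      rw [← card_per (p ^ α) p 1 (pow_ne_zero _ hp.ne_zero)
        (P := fun x y : ℕ => ((p ^ α : ℕ) : ℤ) ∣ A₁ * (x : ℤ) ^ 2 - p * A' * (y : ℤ) ^ 2)
        (quad_mod A₁ (p * A') (p ^ α)), mul_one]
      refine Finset.card_nbij' (fun x : ℕ × ℕ => (x.1, x.2 / p))
        (fun x : ℕ × ℕ => (x.1, p * x.2)) ?_ ?_ ?_ ?_
      · rintro ⟨x, y⟩ hx
        simp only [coe_filter, mem_product, mem_range, Set.mem_ofPred_eq] at hx ⊢
        obtain ⟨⟨hx1, hy1⟩, hd⟩ := hx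
        push_cast at hd
        obtain ⟨y', rfl⟩ := hpy x y hd
        rw [Nat.mul_div_cancel_left _ hp.pos]
        push_cast at hd ⊢
        rw [hpp] at hd
        refine ⟨⟨by rwa [← pow_succ], ?_⟩, hd⟩
        have : p * y' < p * p ^ α := by rwa [← pow_succ']
        exact Nat.lt_of_mul_lt_mul_left this
      · rintro ⟨x, y⟩ hx
        simp only [coe_filter, mem_product, mem_range, Set.mem_ofPred_eq] at hx ⊢
        obtain ⟨⟨hx1, hy1⟩, hd⟩ := hx
        push_cast at hd ⊢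
        rw [hpp]
        refine ⟨⟨by rwa [pow_succ], ?_⟩, hd⟩
        rw [pow_succ']
        exact Nat.mul_lt_mul_of_pos_left hy1 hp.pos
      · rintro ⟨x, y⟩ hx
        simp only [coe_filter, mem_product, mem_range, Set.mem_ofPred_eq] at hx
        obtain ⟨⟨hx1, hy1⟩, hd⟩ := hx
        push_cast at hd
        obtain ⟨y', rfl⟩ := hpy x y hd
        simp only [Nat.mul_div_cancel_left _ hp.pos]
      · rintro ⟨x, y⟩ _
        simp only [Nat.mul_div_cancel_left _ hp.pos]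
    rw [e1, h3, mul_one, pow_succ']

theorem rho_ram (A A' : ℤ) {p : ℕ} (hp : p.Prime) (h2 : p ≠ 2) (h : (p : ℤ) ∣ A)
    (h' : ¬ (p : ℤ) ^ 2 ∣ A) (hA' : ¬ (p : ℤ) ∣ A') (α : ℕ) : rho A A' (p ^ α) = p ^ α :=
  rhoA_ram hp α A A' h h' hA'

theorem rho_ram' (A A' : ℤ) {p : ℕ} (hp : p.Prime) (h2 : p ≠ 2) (h : (p : ℤ) ∣ A')
    (h' : ¬ (p : ℤ) ^ 2 ∣ A') (hA : ¬ (p : ℤ) ∣ A) (α : ℕ) : rho A A' (p ^ α) = p ^ α := by
  rw [rhoA_symm]
  exact rhoA_ram hp α A' A h h' hA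

end Pool.Agent.Work.MP_43ce8a_nt.D
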