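import Pool.Agent.Work.MP_43ce8a_nt.D.Defs
import Pool.Agent.Work.MP_2dba45_nt.Sv.BHc

set_option autoImplicit false

/-!
Module SvFL (size M). The fundamental lemma of the sieve, deduced from the weights of
Pool.Agent.Work.MP_2dba45_nt.Sv.brun_hooley (statement: see Sv/BHc.lean).

PROOF. b₀ from brun_hooley L₀. Let lp, dp be the weights. For a in A put
B a = P.filter (E a ·) (classical). Then for d ⊆ P: (∀ p ∈ d, E a p) iff d ⊆ B a, so with
A_d = card {a in A | ∀ p ∈ d, E a p} we have ∑_{a in A} ∑_{d ∈ (B a).powerset} f d =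
∑_{d ∈ P.powerset} f d * A_d for every f, and S = card {a | B a = ∅} = ∑_a (if B a = ∅ then 1 else 0).
UPPER: S ≤ ∑_d lp d A_d ≤ X ∑_d lp d G d + ρ * card {d : lp d ≠ 0}, G d = ∏_{p ∈ d} g p. The number
of d ⊆ P with product ≤ z ^ (4b+10) is at most z ^ (4b+10) (d ↦ product is injective on sets of
primes, with values in [1, z^(4b+10)]), and |lp d| ≤ 1, lp d ≠ 0 only for those d.
LOWER: S ≥ ∑_a ∑_{d ⊆ B a} (lp d - dp d) = ∑_d (lp d - dp d) A_d ≥
X ∑_d (lp d - dp d) G d - (1 + z) z^(4b+10) ρ, and ∑ lp G ≥ ∏ (1 - g), ∑ dp G ≤ e^(-b) ∏ (1 - g).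
For the upper bound one needs ∑_d lp d G d ≤ (1 + e^(-b)) ∏_{p ∈ P} (1 - g p): use the product
measure mu B = ∏_{p ∈ B} g p * ∏_{p ∈ P \ B} (1 - g p) ≥ 0 on subsets B of P. For d ⊆ P,
∑_{B ⊇ d} mu B = G d (write B = d ∪ B', Finset.prod_add / Finset.prod_one_sub...). Hence
∑_d lp d G d - ∏ (1 - g) = ∑_B mu B (∑_{d ⊆ B} lp d - [B = ∅]) ≤ ∑_B mu B ∑_{d ⊆ B} dp d
= ∑_d dp d G d ≤ e^(-b) ∏ (1 - g).
-/

namespace Pool.Agent.Work.MP_43ce8a_nt.D

open Finset

section FL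

private theorem svfl_mu (P : Finset ℕ) (g : ℕ → ℝ) {d : Finset ℕ} (hd : d ⊆ P) :
    ∑ B ∈ P.powerset, (if d ⊆ B then (∏ p ∈ B, g p) * ∏ p ∈ P \ B, (1 - g p) else 0) =
      ∏ p ∈ d, g p := by
  classical
  have h1 := Finset.prod_add g (fun i => if i ∈ d then (0 : ℝ) else 1 - g i) P
  have h2 : ∏ i ∈ P, (g i + (if i ∈ d then (0 : ℝ) else 1 - g i)) = ∏ p ∈ d, g p := by
    have h3 : ∀ i ∈ P, (g i + (if i ∈ d then (0 : ℝ) else 1 - g i)) =
        if i ∈ d then g i else 1 := by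
      intro i _
      split_ifs
      · ring
      · ring
    rw [Finset.prod_congr rfl h3, ← Finset.prod_filter]
    congr 1
    ext i
    rw [Finset.mem_filter]
    exact ⟨fun h => h.2, fun h => ⟨hd h, h⟩⟩
  rw [← h2, h1]
  apply Finset.sum_congr rfl
  intro B hB
  split_ifs with hdB
  · congr 1
    apply Finset.prod_congr rfl
    intro i hi
    rw [Finset.mem_sdiff] at hi
    rw [if_neg (fun h => hi.2 (hdB h))]
  · symm
    apply mul_eq_zero_of_right
    rw [Finset.not_subset] at hdB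
    obtain ⟨i, hid, hiB⟩ := hdB
    exact Finset.prod_eq_zero (Finset.mem_sdiff.2 ⟨hd hid, hiB⟩) (if_pos hid)

private theorem svfl_swap (P : Finset ℕ) (g : ℕ → ℝ) (f : Finset ℕ → ℝ) :
    ∑ B ∈ P.powerset, ((∏ p ∈ B, g p) * ∏ p ∈ P \ B, (1 - g p)) * ∑ d ∈ B.powerset, f d =
      ∑ d ∈ P.powerset, f d * ∏ p ∈ d, g p := by
  classical
  have h1 : ∀ B ∈ P.powerset, ((∏ p ∈ B, g p) * ∏ p ∈ P \ B, (1 - g p)) *
      ∑ d ∈ B.powerset, f d = ∑ d ∈ P.powerset, f d *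
        (if d ⊆ B then (∏ p ∈ B, g p) * ∏ p ∈ P \ B, (1 - g p) else 0) := by
    intro B hB
    rw [Finset.mem_powerset] at hB
    rw [Finset.mul_sum]
    have h2 : B.powerset = P.powerset.filter (fun d => d ⊆ B) := by
      ext d
      rw [Finset.mem_filter, Finset.mem_powerset, Finset.mem_powerset]
      exact ⟨fun h => ⟨h.trans hB, h⟩, fun h => h.2⟩
    rw [h2, Finset.sum_filter]
    apply Finset.sum_congr rfl
    intro d _
    split_ifs
    · ring
    · ring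
  rw [Finset.sum_congr rfl h1, Finset.sum_comm]
  apply Finset.sum_congr rfl
  intro d hd
  rw [← Finset.mul_sum, svfl_mu P g (Finset.mem_powerset.1 hd)]

private theorem svfl_count (P : Finset ℕ) (hP : ∀ p ∈ P, p.Prime) (Z : ℕ) :
    ((P.powerset.filter (fun d => (∏ p ∈ d, p) ≤ Z)).card : ℝ) ≤ Z := by
  classical
  have h1 : (P.powerset.filter (fun d => (∏ p ∈ d, p) ≤ Z)).card ≤ (Icc 1 Z).card := by
    apply Finset.card_le_card_of_injOn (fun d => ∏ p ∈ d, p)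
    · intro d hd
      rw [Finset.mem_coe, Finset.mem_filter, Finset.mem_powerset] at hd
      rw [Finset.mem_coe, Finset.mem_Icc]
      exact ⟨Finset.prod_pos fun p hp => (hP p (hd.1 hp)).pos, hd.2⟩
    · intro d hd d' hd' h
      rw [Finset.mem_coe, Finset.mem_filter, Finset.mem_powerset] at hd hd'
      have h' : ∏ p ∈ d, p = ∏ p ∈ d', p := h
      have e1 := Nat.primeFactors_prod (s := d) (fun p hp => hP p (hd.1 hp))
      have e2 := Nat.primeFactors_prod (s := d') (fun p hp => hP p (hd'.1 hp))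
      rw [← e1, ← e2, h']
  rw [Nat.card_Icc] at h1
  have : (P.powerset.filter (fun d => (∏ p ∈ d, p) ≤ Z)).card ≤ Z := by omega
  exact_mod_cast this

open Classical in
/-- comparison of `∑ f d A_d` with `X ∑ f d G d`. -/
private theorem svfl_err (P : Finset ℕ) (hP : ∀ p ∈ P, p.Prime) (Z : ℕ) (f : Finset ℕ → ℝ)
    (c X ρ : ℝ) (hc : 0 ≤ c) (hρ : 0 ≤ ρ) (g : ℕ → ℝ) (hf : ∀ d, |f d| ≤ c)
    (hf0 : ∀ d, f d ≠ 0 → (∏ p ∈ d, p) ≤ Z)
    (Ad : Finset ℕ → ℝ) (hA : ∀ d ⊆ P, (∏ p ∈ d, p) ≤ Z → |Ad d - X * ∏ p ∈ d, g p| ≤ ρ) :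
    |∑ d ∈ P.powerset, f d * Ad d - X * ∑ d ∈ P.powerset, f d * ∏ p ∈ d, g p| ≤
      c * Z * ρ := by
  have h1 : ∑ d ∈ P.powerset, f d * Ad d - X * ∑ d ∈ P.powerset, f d * ∏ p ∈ d, g p =
      ∑ d ∈ P.powerset, f d * (Ad d - X * ∏ p ∈ d, g p) := by
    rw [Finset.mul_sum, ← Finset.sum_sub_distrib]
    apply Finset.sum_congr rfl
    intro d _
    ring
  rw [h1]
  refine (Finset.abs_sum_le_sum_abs _ _).trans ?_
  have h2 : ∀ d ∈ P.powerset, |f d * (Ad d - X * ∏ p ∈ d, g p)| ≤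
      if (∏ p ∈ d, p) ≤ Z then c * ρ else 0 := by
    intro d hd
    rw [Finset.mem_powerset] at hd
    split_ifs with h
    · rw [abs_mul]
      exact mul_le_mul (hf d) (hA d hd h) (abs_nonneg _) hc
    · have : f d = 0 := by
        by_contra h0
        exact h (hf0 d h0)
      rw [this, zero_mul, abs_zero]
  refine (Finset.sum_le_sum h2).trans ?_
  rw [← Finset.sum_filter, Finset.sum_const, nsmul_eq_mul]
  have h3 := svfl_count P hP Z
  calc ((P.powerset.filter (fun d => (∏ p ∈ d, p) ≤ Z)).card : ℝ) * (c * ρ) ≤ Z * (c * ρ) := by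
        gcongr
    _ = c * Z * ρ := by ring

open Classical in
theorem sieve_fl (L₀ : ℝ) (hL₀ : 0 ≤ L₀) : ∃ b₀ : ℕ, ∀ b : ℕ, b₀ ≤ b →
    ∀ (z : ℕ) (P : Finset ℕ) (g : ℕ → ℝ), 2 ≤ z → (∀ p ∈ P, p.Prime ∧ p < z) →
      (∀ p ∈ P, 0 ≤ g p ∧ g p ≤ 1 / 2) →
      (∀ y : ℝ, 1 ≤ y → ∑ p ∈ P.filter (fun p : ℕ => y ≤ (p : ℝ) ∧ (p : ℝ) < y ^ 2), g p ≤ L₀) →
      ∀ {ι : Type} (A : Finset ι) (E : ι → ℕ → Prop) (X ρ : ℝ), 0 ≤ X → 0 ≤ ρ →
        (∀ d ⊆ P, ((∏ p ∈ d, p : ℕ) : ℝ) ≤ (z : ℝ) ^ (4 * b + 10) →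
          |((A.filter fun a => ∀ p ∈ d, E a p).card : ℝ) - X * ∏ p ∈ d, g p| ≤ ρ) →
        |((A.filter fun a => ∀ p ∈ P, ¬ E a p).card : ℝ) - X * ∏ p ∈ P, (1 - g p)| ≤
          Real.exp (-b) * (X * ∏ p ∈ P, (1 - g p)) + (1 + z) * (z : ℝ) ^ (4 * b + 10) * ρ := by
  obtain ⟨b₀, hb₀⟩ := Pool.Agent.Work.MP_2dba45_nt.Sv.brun_hooley L₀ hL₀
  refine ⟨b₀, ?_⟩
  intro b hb z P g hz hP hg hy ι A E X ρ hX hρ hAd
  obtain ⟨lp, dp, hlp, hdp, hsupp, hB, hlow, hdG⟩ :=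
    hb₀ b hb z P g hz (fun p hp => ⟨(hP p hp).1.two_le, (hP p hp).2⟩) hg hy
  have hPp : ∀ p ∈ P, p.Prime := fun p hp => (hP p hp).1
  set Z : ℕ := z ^ (4 * b + 10) with hZ
  have hZr : (Z : ℝ) = (z : ℝ) ^ (4 * b + 10) := by rw [hZ]; push_cast; ring
  set Ad : Finset ℕ → ℝ := fun d => ((A.filter fun a => ∀ p ∈ d, E a p).card : ℝ) with hAddef
  have hA : ∀ d ⊆ P, (∏ p ∈ d, p) ≤ Z → |Ad d - X * ∏ p ∈ d, g p| ≤ ρ := by
    intro d hd hdZ
    apply hAd d hd
    rw [← hZr]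
    exact_mod_cast hdZ
  set Bs : ι → Finset ℕ := fun a => P.filter (E a) with hBs
  have hBsP : ∀ a, Bs a ⊆ P := fun a => Finset.filter_subset _ _
  -- exchange of sums
  have hex : ∀ f : Finset ℕ → ℝ, ∑ a ∈ A, ∑ d ∈ (Bs a).powerset, f d =
      ∑ d ∈ P.powerset, f d * Ad d := by
    intro f
    have h1 : ∀ a ∈ A, ∑ d ∈ (Bs a).powerset, f d =
        ∑ d ∈ P.powerset, if (∀ p ∈ d, E a p) then f d else 0 := by
      intro a _
      rw [← Finset.sum_filter]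
      congr 1
      ext d
      rw [Finset.mem_filter, Finset.mem_powerset, Finset.mem_powerset]
      constructor
      · intro h
        exact ⟨h.trans (hBsP a), fun p hp => (Finset.mem_filter.1 (h hp)).2⟩
      · rintro ⟨h1, h2⟩ p hp
        exact Finset.mem_filter.2 ⟨h1 hp, h2 p hp⟩
    rw [Finset.sum_congr rfl h1, Finset.sum_comm]
    apply Finset.sum_congr rfl
    intro d _
    rw [← Finset.sum_filter, Finset.sum_const, nsmul_eq_mul]
    exact mul_comm _ _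
  -- the sifted sum
  have hS : ((A.filter fun a => ∀ p ∈ P, ¬ E a p).card : ℝ) =
      ∑ a ∈ A, if Bs a = ∅ then (1 : ℝ) else 0 := by
    rw [← Finset.sum_filter, Finset.sum_const, nsmul_eq_mul, mul_one]
    congr 2
    ext a
    rw [Finset.mem_filter, Finset.mem_filter]
    have : Bs a = ∅ ↔ ∀ p ∈ P, ¬ E a p := by
      rw [hBs]
      exact Finset.filter_eq_empty_iff
    rw [this]
  set Pi : ℝ := ∏ p ∈ P, (1 - g p) with hPi
  have hPi0 : 0 ≤ Pi := Finset.prod_nonneg fun p hp => by linarith [(hg p hp).2]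
  -- errors
  have herr1 := svfl_err P hPp Z lp 1 X ρ zero_le_one hρ g hlp
    (fun d hd => by
      have := (hsupp d (Or.inl hd)).2
      rw [← hZr] at this
      exact_mod_cast this) Ad hA
  have herr2 := svfl_err P hPp Z dp z X ρ (by positivity) hρ g hdp
    (fun d hd => by
      have := (hsupp d (Or.inr hd)).2
      rw [← hZr] at this
      exact_mod_cast this) Ad hA
  rw [abs_le] at herr1 herr2
  -- the upper bound for ∑ lp G
  have hup : ∑ d ∈ P.powerset, lp d * ∏ p ∈ d, g p ≤ (1 + Real.exp (-b)) * Pi := by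
    have e1 := svfl_swap P g lp
    have e2 := svfl_swap P g dp
    have e3 : ∑ B ∈ P.powerset, ((∏ p ∈ B, g p) * ∏ p ∈ P \ B, (1 - g p)) *
        (if B = ∅ then (1 : ℝ) else 0) = Pi := by
      rw [Finset.sum_eq_single ∅]
      · simp [hPi]
      · intro B _ hB
        rw [if_neg hB, mul_zero]
      · intro h
        exact absurd (Finset.empty_mem_powerset P) h
    have e4 : ∑ B ∈ P.powerset, ((∏ p ∈ B, g p) * ∏ p ∈ P \ B, (1 - g p)) *
        (∑ d ∈ B.powerset, lp d - (if B = ∅ then (1 : ℝ) else 0)) ≤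
        ∑ B ∈ P.powerset, ((∏ p ∈ B, g p) * ∏ p ∈ P \ B, (1 - g p)) *
          ∑ d ∈ B.powerset, dp d := by
      apply Finset.sum_le_sum
      intro B hBP
      rw [Finset.mem_powerset] at hBP
      apply mul_le_mul_of_nonneg_left (hB B hBP).2
      apply mul_nonneg
      · exact Finset.prod_nonneg fun p hp => (hg p (hBP hp)).1
      · exact Finset.prod_nonneg fun p hp => by
          have := (hg p (Finset.mem_sdiff.1 hp).1).2
          linarith
    have e5 : ∑ B ∈ P.powerset, ((∏ p ∈ B, g p) * ∏ p ∈ P \ B, (1 - g p)) *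
        (∑ d ∈ B.powerset, lp d - (if B = ∅ then (1 : ℝ) else 0)) =
        ∑ d ∈ P.powerset, lp d * ∏ p ∈ d, g p - Pi := by
      rw [← e1, ← e3, ← Finset.sum_sub_distrib]
      apply Finset.sum_congr rfl
      intro B _
      ring
    rw [e5, e2] at e4
    linarith
  rw [hS, abs_le]
  constructor
  · -- lower bound
    have h1 : ∑ a ∈ A, ∑ d ∈ (Bs a).powerset, (lp d - dp d) ≤
        ∑ a ∈ A, if Bs a = ∅ then (1 : ℝ) else 0 := by
      apply Finset.sum_le_sum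
      intro a _
      rw [Finset.sum_sub_distrib]
      linarith [(hB (Bs a) (hBsP a)).2]
    rw [hex] at h1
    have h2 : ∑ d ∈ P.powerset, (lp d - dp d) * Ad d =
        ∑ d ∈ P.powerset, lp d * Ad d - ∑ d ∈ P.powerset, dp d * Ad d := by
      rw [← Finset.sum_sub_distrib]
      apply Finset.sum_congr rfl
      intro d _
      ring
    rw [h2] at h1
    have h3 := mul_le_mul_of_nonneg_left hlow hX
    have h4 := mul_le_mul_of_nonneg_left hdG hX
    rw [← hZr]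
    have e1 := herr1.1
    have e2 := herr2.2
    nlinarith
  · have h1 : (∑ a ∈ A, if Bs a = ∅ then (1 : ℝ) else 0) ≤
        ∑ a ∈ A, ∑ d ∈ (Bs a).powerset, lp d := by
      apply Finset.sum_le_sum
      intro a _
      exact (hB (Bs a) (hBsP a)).1
    rw [hex] at h1
    have h3 := mul_le_mul_of_nonneg_left hup hX
    have h5 : (0 : ℝ) ≤ z * Z * ρ := by positivity
    rw [← hZr]
    have e1 := herr1.2
    nlinarith

end FL

end Pool.Agent.Work.MP_43ce8a_nt.D
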