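import Pool.Agent.Work.MP_43ce8a_nt.D.Sv
import Pool.Agent.Work.MP_43ce8a_nt.D.QB
import Pool.Agent.Work.MP_43ce8a_nt.D.ApC

set_option autoImplicit false

/-!
Module T0 (size S-M). Upper bound for the number of rough integers in a class.

PROOF. Apply sieve (Sv) to A = integers n in (N, N + H] with n ≡ b1 mod q / 2 (Nset_eq),
E n p := p ∣ n, P = pr y z, g p = 1 / p, X = H / (q / 2) = 2 H / q, ρ = 1: for d ⊆ P with product
d₀ (prime to q), p ∣ n for all p ∈ d iff d₀ ∣ n, and by CRT this is one residue class modulo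
(q / 2) d₀, so the number differs from H / ((q / 2) d₀) by at most 1. 1 - g p = 1 - 1 / p gives Wz.
-/

namespace Pool.Agent.Work.MP_43ce8a_nt.D

open Finset

theorem T0_upper : ∃ b₀ : ℕ, ∀ b : ℕ, b₀ ≤ b → ∀ y b1 z N H : ℕ, 8 ≤ y → y < z →
    b1.Coprime (qq y) →
    ((Nset (qq y) b1 z N H).card : ℝ) ≤
      (1 + Real.exp (-b)) * (2 * (H : ℝ) / qq y * Wz y z) + (1 + z) * (z : ℝ) ^ (4 * b + 10) := by
  classical
  obtain ⟨b₀, hb₀⟩ := sieve
  refine ⟨b₀, ?_⟩
  intro b hb y b1 z N H hy hyz hb1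
  have hy2 : 2 ≤ y := by omega
  have hqpos := qq_pos y
  have hq2 := (qq_half y).2
  set Q : ℕ := qq y / 2 with hQ
  have hQpos : 0 < Q := by omega
  have hQr : ((qq y : ℕ) : ℝ) = 2 * (Q : ℝ) := by
    have : qq y = 2 * Q := hq2.symm
    exact_mod_cast this
  have hQ0 : (0 : ℝ) < Q := by exact_mod_cast hQpos
  have key := hb₀ b hb z (pr y z) (fun p => 1 / (p : ℝ)) (by omega)
    (fun p hp => ⟨(mem_pr.1 hp).2.2, by have := (mem_pr.1 hp).1; omega, (mem_pr.1 hp).2.1⟩)
    (fun p hp => ⟨by positivity, by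
      have : (0 : ℝ) < p := by exact_mod_cast (mem_pr.1 hp).2.2.pos
      gcongr
      norm_num⟩)
    ((Ioc N (N + H)).filter fun n => n % Q = b1 % Q) (fun n p => p ∣ n)
    (2 * (H : ℝ) / qq y) 1 (by positivity) zero_le_one
    (by
      intro d hd _
      have hprime : ∀ p ∈ d, p.Prime := fun p hp => (mem_pr.1 (hd hp)).2.2
      set d0 : ℕ := ∏ p ∈ d, p with hd0
      have hd0pos : 0 < d0 := Finset.prod_pos fun p hp => (hprime p hp).pos
      have hcop : Q.Coprime d0 := by
        have h1 := prod_coprime hy2 hd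
        rw [← hd0] at h1
        exact (Nat.Coprime.coprime_dvd_right ⟨2, by rw [← hq2]; ring⟩ h1).symm
      have hdvd : ∀ n : ℕ, (∀ p ∈ d, p ∣ n) ↔ d0 ∣ n := by
        intro n
        constructor
        · intro h
          exact Finset.prod_primes_dvd n (fun p hp => (hprime p hp).prime) h
        · intro h p hp
          exact (Finset.dvd_prod_of_mem _ hp).trans h
      obtain ⟨c, hc1, hc2⟩ := Nat.chineseRemainder hcop b1 0
      have hset : (((Ioc N (N + H)).filter fun n => n % Q = b1 % Q).filter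
          fun n => ∀ p ∈ d, p ∣ n) =
          (Ioc ⌊(N : ℝ)⌋₊ ⌊((N : ℝ) + H)⌋₊).filter fun n => n % (Q * d0) = c % (Q * d0) := by
        have e1 : ⌊((N : ℝ) + H)⌋₊ = N + H := by
          have : ((N : ℝ) + H) = ((N + H : ℕ) : ℝ) := by push_cast; ring
          rw [this, Nat.floor_natCast]
        rw [Nat.floor_natCast, e1]
        ext n
        simp only [Finset.mem_filter]
        rw [and_assoc, hdvd n]
        apply and_congr_right
        intro _
        have h2 : n % (Q * d0) = c % (Q * d0) ↔ n ≡ c [MOD Q * d0] := Iff.rfl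
        rw [h2, ← Nat.modEq_and_modEq_iff_modEq_mul hcop]
        constructor
        · rintro ⟨h3, h4⟩
          have h3' : n ≡ b1 [MOD Q] := h3
          exact ⟨h3'.trans hc1.symm, ((Nat.modEq_zero_iff_dvd).2 h4).trans hc2.symm⟩
        · rintro ⟨h3, h4⟩
          exact ⟨h3.trans hc1, (Nat.modEq_zero_iff_dvd).1 (h4.trans hc2)⟩
      have hcount := count_ap (Q * d0) c (Nat.mul_pos hQpos hd0pos) (N : ℝ) ((N : ℝ) + H)
        (by positivity) (by linarith [Nat.cast_nonneg (α := ℝ) H])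
      rw [← hset] at hcount
      have hprod : 2 * (H : ℝ) / qq y * ∏ p ∈ d, 1 / (p : ℝ) =
          ((N : ℝ) + H - N) / ((Q * d0 : ℕ) : ℝ) := by
        rw [hQr, Finset.prod_div_distrib, Finset.prod_const_one, hd0]
        push_cast
        have : (0 : ℝ) < ∏ p ∈ d, (p : ℝ) := Finset.prod_pos fun p hp => by
          exact_mod_cast (hprime p hp).pos
        field_simp
        ring
      rw [hprod]
      convert hcount using 6)
  have hN : Nset (qq y) b1 z N H = ((Ioc N (N + H)).filter fun n => n % Q = b1 % Q).filter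
      fun n => ∀ p ∈ pr y z, ¬ p ∣ n := Nset_eq hy2 hb1 N H
  have h1 := (abs_le.1 key).2
  have h2 : ∏ p ∈ pr y z, (1 - 1 / (p : ℝ)) = Wz y z := rfl
  rw [h2] at h1
  have h3 := sub_le_iff_le_add.1 h1
  refine le_trans (le_of_eq ?_) (h3.trans (le_of_eq ?_))
  · rw [hN]
    congr!
  · ring

end Pool.Agent.Work.MP_43ce8a_nt.D
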