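import Pool.Agent.Work.MP_43ce8a_nt.D.ChA

set_option autoImplicit false

/-!
Module UA (size M). Harmonic sums over a residue class, with a coprimality condition.

harm_class: ∑ 1/k over α < k ≤ β, k ≡ c mod q. If k, k + q are consecutive members then
(1/q) ∫_k^{k+q} dx/x lies between 1/(k+q) and 1/k; so the sum differs from (1/q) log(β/α) by at most
2/α when α ≥ 1 (terms are ≤ 1/α). For 0 < α < 1: β ≤ 2 α < 2, the sum is at most 1 ≤ 1/α and
(1/q) log(β/α) ≤ log 2 ≤ 1/α.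
harm_cop: detect k.Coprime d by ∑_{f ∣ gcd(k, d)} μ(f); k = f k', k' ≡ c f⁻¹ mod q (f prime to q), and
∑_{f ∣ d} μ(f) / f = ∏_{p ∣ d} (1 - 1/p); the error is ∑_{f ∣ d} (1/f) * 2 f/α = 2 τ(d)/α ≤ 2 d/α.
-/

namespace Pool.Agent.Work.MP_43ce8a_nt.D

open Finset

theorem ua_members (q c a b : ℕ) (hq : 0 < q) : ∃ k0 m : ℕ, a < k0 ∧ k0 ≤ a + q ∧
    b < k0 + q * m ∧ (∀ j < m, k0 + q * j ≤ b) ∧
    ∀ f : ℕ → ℝ, ∑ k ∈ (Ioc a b).filter (fun k => k % q = c % q), f k =
      ∑ j ∈ range m, f (k0 + q * j) := by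
  set r : ℕ := (c + (q - 1) * (a + 1)) % q with hr
  have hrq : r < q := Nat.mod_lt _ hq
  have hk0 : (a + 1 + r) % q = c % q := by
    have h1 : a + 1 + r ≡ a + 1 + (c + (q - 1) * (a + 1)) [MOD q] :=
      Nat.ModEq.add_left _ (Nat.mod_modEq _ _)
    have h2 : a + 1 + (c + (q - 1) * (a + 1)) = c + q * (a + 1) := by
      obtain ⟨q', rfl⟩ : ∃ q', q = q' + 1 := ⟨q - 1, by omega⟩
      rw [Nat.add_sub_cancel]
      ring
    rw [h2] at h1
    have h3 : c + q * (a + 1) ≡ c [MOD q] := by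
      unfold Nat.ModEq
      rw [Nat.add_mul_mod_self_left]
    exact h1.trans h3
  set k0 : ℕ := a + 1 + r with hk0def
  set m : ℕ := (b + q - k0) / q with hm
  have hm1 : q * m ≤ b + q - k0 := Nat.mul_div_le _ _
  have hm2 : b + q - k0 < q * m + q := by
    have := Nat.lt_mul_div_succ (b + q - k0) hq
    rw [← hm] at this
    calc b + q - k0 < q * (m + 1) := this
      _ = q * m + q := by ring
  have hlast : b < k0 + q * m := by omega
  have hle : ∀ j < m, k0 + q * j ≤ b := by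
    intro j hj
    have h1 : q * (j + 1) ≤ q * m := Nat.mul_le_mul_left _ hj
    have h2 : q * (j + 1) = q * j + q := by ring
    omega
  refine ⟨k0, m, by omega, by omega, hlast, hle, ?_⟩
  intro f
  symm
  apply Finset.sum_nbij (fun j => k0 + q * j)
  · intro j hj
    rw [Finset.mem_range] at hj
    rw [Finset.mem_filter, Finset.mem_Ioc]
    refine ⟨⟨by omega, hle j hj⟩, ?_⟩
    rw [Nat.add_mul_mod_self_left, hk0]
  · intro j _ j' _ h
    have h' : k0 + q * j = k0 + q * j' := h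
    exact Nat.eq_of_mul_eq_mul_left hq (by omega)
  · intro k hk
    rw [Finset.mem_coe, Finset.mem_filter, Finset.mem_Ioc] at hk
    obtain ⟨⟨hk1, hk2⟩, hk3⟩ := hk
    have hmod : k0 ≡ k [MOD q] := hk0.trans hk3.symm
    have hge : k0 ≤ k := by
      by_contra hlt
      rw [not_le] at hlt
      have h1 : q ∣ k0 - k := (Nat.modEq_iff_dvd' hlt.le).1 hmod.symm
      have h2 := Nat.le_of_dvd (by omega) h1
      omega
    obtain ⟨j, hj⟩ := (Nat.modEq_iff_dvd' hge).1 hmod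
    have hkj : k0 + q * j = k := by omega
    refine ⟨j, ?_, hkj⟩
    rw [Finset.mem_coe, Finset.mem_range]
    by_contra hge'
    rw [not_lt] at hge'
    have : q * m ≤ q * j := Nat.mul_le_mul_left _ hge'
    omega
  · intro j _
    rfl

/-- `1 / (x + t) ≤ log ((x + t) / x) / t ≤ 1 / x` -/
private theorem ua_log {x t : ℝ} (hx : 0 < x) (ht : 0 < t) :
    1 / (x + t) ≤ (Real.log (x + t) - Real.log x) / t ∧
      (Real.log (x + t) - Real.log x) / t ≤ 1 / x := by
  have hxt : 0 < x + t := by linarith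
  constructor
  · rw [le_div_iff₀ ht, ← Real.log_div hxt.ne' hx.ne']
    have h1 := Real.one_sub_inv_le_log_of_pos (div_pos hxt hx)
    have h2 : 1 - ((x + t) / x)⁻¹ = 1 / (x + t) * t := by
      rw [inv_div]
      field_simp
      ring
    linarith
  · rw [div_le_iff₀ ht, ← Real.log_div hxt.ne' hx.ne']
    have h1 := Real.log_le_sub_one_of_pos (div_pos hxt hx)
    have h2 : (x + t) / x - 1 = 1 / x * t := by
      field_simp
      ring
    linarith

theorem harm_class (q c : ℕ) (hq : 0 < q) (α β : ℝ) (hα : 0 < α) (h1 : α ≤ β) (h2 : β ≤ 2 * α) :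
    |∑ k ∈ (Ioc ⌊α⌋₊ ⌊β⌋₊).filter (fun k => k % q = c % q), 1 / (k : ℝ) -
      Real.log (β / α) / q| ≤ 2 / α := by
  obtain ⟨k0, m, hk1, hk2, hlast, hle, hsum⟩ := ua_members q c ⌊α⌋₊ ⌊β⌋₊ hq
  rw [hsum (fun k => 1 / (k : ℝ))]
  have hβ : 0 < β := by linarith
  have hqr : (0 : ℝ) < q := by exact_mod_cast hq
  have hk0α : α < k0 := (Nat.floor_lt hα.le).1 hk1
  have hk0pos : (0 : ℝ) < k0 := by linarith
  have hk0le : (k0 : ℝ) ≤ α + q := by
    have e1 : (k0 : ℝ) ≤ (⌊α⌋₊ : ℝ) + q := by exact_mod_cast hk2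
    have e2 := Nat.floor_le hα.le
    linarith
  have hlastβ : β < (k0 : ℝ) + q * m := by
    have e1 := (Nat.floor_lt hβ.le).1 hlast
    push_cast at e1
    exact e1
  have hlogdiv : Real.log (β / α) = Real.log β - Real.log α := Real.log_div hβ.ne' hα.ne'
  have hα2 : (0 : ℝ) < 1 / α := by positivity
  -- lower bound
  have hlow : Real.log (β / α) / q - 1 / α ≤ ∑ j ∈ range m, 1 / ((k0 + q * j : ℕ) : ℝ) := by
    have e1 : ∀ j ∈ range m, (Real.log ((k0 : ℝ) + q * ((j + 1 : ℕ) : ℝ)) -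
        Real.log ((k0 : ℝ) + q * (j : ℝ))) / q ≤ 1 / ((k0 + q * j : ℕ) : ℝ) := by
      intro j _
      have h3 := (ua_log (x := (k0 : ℝ) + q * (j : ℝ)) (t := q) (by positivity) hqr).2
      have e : (k0 : ℝ) + q * (j : ℝ) + q = (k0 : ℝ) + q * ((j + 1 : ℕ) : ℝ) := by
        push_cast; ring
      rw [e] at h3
      push_cast
      push_cast at h3
      exact h3
    have e2 := Finset.sum_le_sum e1
    rw [← Finset.sum_div, Finset.sum_range_sub
      (fun j : ℕ => Real.log ((k0 : ℝ) + q * (j : ℝ)))] at e2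
    have e3 : Real.log β ≤ Real.log ((k0 : ℝ) + q * (m : ℝ)) := Real.log_le_log hβ hlastβ.le
    have e4 : Real.log ((k0 : ℝ) + q * ((0 : ℕ) : ℝ)) ≤ Real.log α + q / α := by
      have h5 : (k0 : ℝ) + q * ((0 : ℕ) : ℝ) = k0 := by push_cast; ring
      rw [h5]
      have h6 : Real.log k0 ≤ Real.log (α + q) := Real.log_le_log hk0pos hk0le
      have h7 := (ua_log hα hqr).2
      rw [div_le_iff₀ hqr] at h7
      have h8 : 1 / α * q = q / α := by ring
      linarith
    have e5 : (Real.log β - (Real.log α + q / α)) / q ≤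
        (Real.log ((k0 : ℝ) + q * (m : ℝ)) - Real.log ((k0 : ℝ) + q * ((0 : ℕ) : ℝ))) / q := by
      gcongr
    have e6 : (Real.log β - (Real.log α + q / α)) / q = Real.log (β / α) / q - 1 / α := by
      rw [hlogdiv]
      field_simp
      ring
    linarith
  -- upper bound
  have hup : ∑ j ∈ range m, 1 / ((k0 + q * j : ℕ) : ℝ) ≤ Real.log (β / α) / q + 1 / α := by
    rcases Nat.eq_zero_or_pos m with hm | hm
    · rw [hm, Finset.sum_range_zero]
      have : 0 ≤ Real.log (β / α) := Real.log_nonneg (by rwa [one_le_div hα])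
      positivity
    · obtain ⟨m', rfl⟩ : ∃ m', m = m' + 1 := ⟨m - 1, by omega⟩
      rw [Finset.sum_range_succ']
      have e1 : ∀ j ∈ range m', 1 / ((k0 + q * (j + 1) : ℕ) : ℝ) ≤
          (Real.log ((k0 : ℝ) + q * ((j + 1 : ℕ) : ℝ)) -
            Real.log ((k0 : ℝ) + q * (j : ℝ))) / q := by
        intro j _
        have h3 := (ua_log (x := (k0 : ℝ) + q * (j : ℝ)) (t := q) (by positivity) hqr).1
        have e : (k0 : ℝ) + q * (j : ℝ) + q = (k0 : ℝ) + q * ((j + 1 : ℕ) : ℝ) := by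
          push_cast; ring
        rw [e] at h3
        push_cast
        push_cast at h3
        exact h3
      have e2 := Finset.sum_le_sum e1
      rw [← Finset.sum_div, Finset.sum_range_sub
        (fun j : ℕ => Real.log ((k0 : ℝ) + q * (j : ℝ)))] at e2
      have h4 : ((k0 + q * m' : ℕ) : ℝ) ≤ β := by
        have := hle m' (Nat.lt_succ_self _)
        exact (Nat.le_floor_iff hβ.le).1 this
      have e3 : Real.log ((k0 : ℝ) + q * (m' : ℝ)) ≤ Real.log β := by
        apply Real.log_le_log (by positivity)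
        push_cast at h4
        exact h4
      have e4 : Real.log α ≤ Real.log ((k0 : ℝ) + q * ((0 : ℕ) : ℝ)) := by
        have h5 : (k0 : ℝ) + q * ((0 : ℕ) : ℝ) = k0 := by push_cast; ring
        rw [h5]
        exact Real.log_le_log hα hk0α.le
      have e5 : (Real.log ((k0 : ℝ) + q * (m' : ℝ)) -
          Real.log ((k0 : ℝ) + q * ((0 : ℕ) : ℝ))) / q ≤ (Real.log β - Real.log α) / q := by
        gcongr
      have e6 : 1 / ((k0 + q * 0 : ℕ) : ℝ) ≤ 1 / α := by
        rw [mul_zero, add_zero]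
        exact one_div_le_one_div_of_le hα hk0α.le
      rw [hlogdiv]
      linarith
  have h22 : 2 / α = 1 / α + 1 / α := by ring
  rw [abs_le, h22]
  constructor
  · linarith
  · linarith

/-- `∑ μ(f) over f ∣ gcd (k, d)` -/
theorem ua_mu (k d : ℕ) (hk : k ≠ 0) (hd : d ≠ 0) :
    (if k.Coprime d then (1 : ℝ) else 0) =
      ∑ f ∈ d.divisors, if f ∣ k then ((ArithmeticFunction.moebius f : ℤ) : ℝ) else 0 := by
  have h1 : d.divisors.filter (fun f => f ∣ k) = (Nat.gcd k d).divisors := by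
    ext f
    rw [Finset.mem_filter, Nat.mem_divisors, Nat.mem_divisors, Nat.dvd_gcd_iff]
    constructor
    · rintro ⟨⟨h1, _⟩, h2⟩
      exact ⟨⟨h2, h1⟩, Nat.gcd_ne_zero_left hk⟩
    · rintro ⟨⟨h1, h2⟩, _⟩
      exact ⟨⟨h2, hd⟩, h1⟩
  rw [← Finset.sum_filter, h1]
  have h2 : ∑ f ∈ (Nat.gcd k d).divisors, ArithmeticFunction.moebius f =
      if Nat.gcd k d = 1 then 1 else 0 := by
    have := congrArg (fun F : ArithmeticFunction ℤ => F (Nat.gcd k d))
      ArithmeticFunction.moebius_mul_coe_zeta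
    simp only [ArithmeticFunction.coe_mul_zeta_apply, ArithmeticFunction.one_apply] at this
    exact this
  have h3 : ∑ f ∈ (Nat.gcd k d).divisors, ((ArithmeticFunction.moebius f : ℤ) : ℝ) =
      ((∑ f ∈ (Nat.gcd k d).divisors, ArithmeticFunction.moebius f : ℤ) : ℝ) := by
    push_cast
    rfl
  rw [h3, h2]
  by_cases h : k.Coprime d
  · rw [if_pos h, if_pos h]
    norm_num
  · rw [if_neg h, if_neg h]
    norm_num

theorem ua_prod (d : ℕ) (hd : Squarefree d) :
    ∑ f ∈ d.divisors, ((ArithmeticFunction.moebius f : ℤ) : ℝ) * (1 / (f : ℝ)) =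
      ∏ p ∈ d.primeFactors, (1 - 1 / (p : ℝ)) := by
  let g : ArithmeticFunction ℝ := ⟨fun n => 1 / (n : ℝ), by simp⟩
  have hg : g.IsMultiplicative := by
    constructor
    · simp [g]
    · intro a b _
      show 1 / ((a * b : ℕ) : ℝ) = 1 / (a : ℝ) * (1 / (b : ℝ))
      push_cast
      rw [div_mul_div_comm, one_mul]
  exact (hg.prodPrimeFactors_one_sub_of_squarefree g hd).symm

theorem ua_floor {f : ℕ} (hf : 0 < f) {x : ℝ} (hx : 0 ≤ x) (k : ℕ) :
    f * k ≤ ⌊x⌋₊ ↔ k ≤ ⌊x / f⌋₊ := by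
  have hfr : (0 : ℝ) < f := by exact_mod_cast hf
  rw [Nat.le_floor_iff hx, Nat.le_floor_iff (by positivity), le_div_iff₀ hfr]
  push_cast
  rw [mul_comm]

theorem ua_inv {f q : ℕ} (h : f.Coprime q) (hq : 0 < q) : ∃ g : ℕ, f * g ≡ 1 [MOD q] := by
  rcases Nat.lt_or_ge 1 q with h1 | h1
  · obtain ⟨g, _, hg⟩ := Nat.exists_mul_mod_eq_one_of_coprime h h1
    refine ⟨g, ?_⟩
    unfold Nat.ModEq
    rw [hg, Nat.mod_eq_of_lt h1]
  · have : q = 1 := by omega
    subst this
    exact ⟨0, Nat.modEq_one⟩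

/-- the multiples of `f` in a class -/
theorem ua_mult (q c f : ℕ) (hq : 0 < q) (hf : 0 < f) (hfq : f.Coprime q)
    (α β : ℝ) (hα : 0 ≤ α) (hβ : 0 ≤ β) (F : ℕ → ℝ) : ∃ c' : ℕ,
    ∑ k ∈ (Ioc ⌊α⌋₊ ⌊β⌋₊).filter (fun k => k % q = c % q), (if f ∣ k then F k else 0) =
      ∑ k ∈ (Ioc ⌊α / f⌋₊ ⌊β / f⌋₊).filter (fun k => k % q = c' % q), F (f * k) := by
  obtain ⟨g, hg⟩ := ua_inv hfq hq
  refine ⟨g * c, ?_⟩
  rw [← Finset.sum_filter]
  symm
  apply Finset.sum_nbij (fun k => f * k)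
  · intro k hk
    rw [Finset.mem_filter, Finset.mem_Ioc] at hk
    rw [Finset.mem_filter, Finset.mem_filter, Finset.mem_Ioc]
    obtain ⟨⟨hk1, hk2⟩, hk3⟩ := hk
    refine ⟨⟨⟨?_, (ua_floor hf hβ k).2 hk2⟩, ?_⟩, dvd_mul_right _ _⟩
    · by_contra h
      rw [not_lt, ua_floor hf hα] at h
      omega
    · have h1 : k ≡ g * c [MOD q] := hk3
      have h2 : f * k ≡ f * (g * c) [MOD q] := h1.mul_left f
      have h3 : f * (g * c) ≡ c [MOD q] := by
        have h4 : f * g ≡ 1 [MOD q] := hg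
        have := h4.mul_right c
        rwa [one_mul, mul_assoc] at this
      exact h2.trans h3
  · intro k _ k' _ h
    exact Nat.eq_of_mul_eq_mul_left hf h
  · intro k hk
    rw [Finset.mem_coe, Finset.mem_filter, Finset.mem_filter, Finset.mem_Ioc] at hk
    obtain ⟨⟨⟨hk1, hk2⟩, hk3⟩, k', rfl⟩ := hk
    refine ⟨k', ?_, rfl⟩
    rw [Finset.mem_coe, Finset.mem_filter, Finset.mem_Ioc]
    refine ⟨⟨?_, (ua_floor hf hβ k').1 hk2⟩, ?_⟩
    · by_contra h
      rw [not_lt, ← ua_floor hf hα] at h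
      omega
    · have h1 : f * k' ≡ c [MOD q] := hk3
      have h2 : g * (f * k') ≡ g * c [MOD q] := h1.mul_left g
      have h3 : g * (f * k') ≡ k' [MOD q] := by
        have h4 : f * g ≡ 1 [MOD q] := hg
        have := h4.mul_right k'
        rw [one_mul] at this
        have e : g * (f * k') = f * g * k' := by ring
        rw [e]
        exact this
      exact h3.symm.trans h2
  · intro k _
    rfl

theorem harm_cop (q c d : ℕ) (hq : 0 < q) (hd : Squarefree d) (hdq : d.Coprime q) (α β : ℝ)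
    (hα : 0 < α) (h1 : α ≤ β) (h2 : β ≤ 2 * α) :
    |∑ k ∈ (Ioc ⌊α⌋₊ ⌊β⌋₊).filter (fun k => k % q = c % q ∧ k.Coprime d), 1 / (k : ℝ) -
      Real.log (β / α) / q * ∏ p ∈ d.primeFactors, (1 - 1 / (p : ℝ))| ≤ 2 * d / α := by
  have hd0 : d ≠ 0 := hd.ne_zero
  have hβ : 0 < β := by linarith
  -- expand the coprimality
  have e1 : ∑ k ∈ (Ioc ⌊α⌋₊ ⌊β⌋₊).filter (fun k => k % q = c % q ∧ k.Coprime d), 1 / (k : ℝ) =
      ∑ f ∈ d.divisors, ((ArithmeticFunction.moebius f : ℤ) : ℝ) *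
        ∑ k ∈ (Ioc ⌊α⌋₊ ⌊β⌋₊).filter (fun k => k % q = c % q),
          (if f ∣ k then 1 / (k : ℝ) else 0) := by
    rw [← Finset.filter_filter, Finset.sum_filter]
    have h3 : ∀ k ∈ (Ioc ⌊α⌋₊ ⌊β⌋₊).filter (fun k => k % q = c % q),
        (if k.Coprime d then 1 / (k : ℝ) else 0) =
        ∑ f ∈ d.divisors, ((ArithmeticFunction.moebius f : ℤ) : ℝ) *
          (if f ∣ k then 1 / (k : ℝ) else 0) := by
      intro k hk
      rw [Finset.mem_filter, Finset.mem_Ioc] at hk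
      have hk0 : k ≠ 0 := by omega
      have h4 := ua_mu k d hk0 hd0
      have h5 : (if k.Coprime d then 1 / (k : ℝ) else 0) =
          (if k.Coprime d then (1 : ℝ) else 0) * (1 / (k : ℝ)) := by
        split_ifs <;> ring
      rw [h5, h4, Finset.sum_mul]
      apply Finset.sum_congr rfl
      intro f _
      split_ifs <;> ring
    rw [Finset.sum_congr rfl h3, Finset.sum_comm]
    apply Finset.sum_congr rfl
    intro f _
    rw [Finset.mul_sum]
  rw [e1, ← ua_prod d hd, Finset.mul_sum, ← Finset.sum_sub_distrib]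
  refine (Finset.abs_sum_le_sum_abs _ _).trans ?_
  have hterm : ∀ f ∈ d.divisors, |((ArithmeticFunction.moebius f : ℤ) : ℝ) *
        ∑ k ∈ (Ioc ⌊α⌋₊ ⌊β⌋₊).filter (fun k => k % q = c % q),
          (if f ∣ k then 1 / (k : ℝ) else 0) -
      Real.log (β / α) / q * (((ArithmeticFunction.moebius f : ℤ) : ℝ) * (1 / (f : ℝ)))| ≤
      2 / α := by
    intro f hf
    rw [Nat.mem_divisors] at hf
    have hf0 : 0 < f := Nat.pos_of_dvd_of_pos hf.1 (Nat.pos_of_ne_zero hd0)
    have hfr : (0 : ℝ) < f := by exact_mod_cast hf0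
    have hfq : f.Coprime q := Nat.Coprime.coprime_dvd_left hf.1 hdq
    obtain ⟨c', hc'⟩ := ua_mult q c f hq hf0 hfq α β hα.le hβ.le (fun k => 1 / (k : ℝ))
    rw [hc']
    have h3 : ∑ k ∈ (Ioc ⌊α / f⌋₊ ⌊β / f⌋₊).filter (fun k => k % q = c' % q),
        1 / ((f * k : ℕ) : ℝ) = (1 / (f : ℝ)) *
        ∑ k ∈ (Ioc ⌊α / f⌋₊ ⌊β / f⌋₊).filter (fun k => k % q = c' % q), 1 / (k : ℝ) := by
      rw [Finset.mul_sum]
      apply Finset.sum_congr rfl
      intro k _
      push_cast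
      rw [div_mul_div_comm, one_mul]
    rw [h3]
    have h4 := harm_class q c' hq (α / f) (β / f) (by positivity) (by gcongr)
      (by
        rw [← mul_div_assoc]
        gcongr)
    have h5 : β / f / (α / f) = β / α := by
      field_simp
    rw [h5] at h4
    have h6 : ((ArithmeticFunction.moebius f : ℤ) : ℝ) * ((1 / (f : ℝ)) *
        ∑ k ∈ (Ioc ⌊α / f⌋₊ ⌊β / f⌋₊).filter (fun k => k % q = c' % q), 1 / (k : ℝ)) -
      Real.log (β / α) / q * (((ArithmeticFunction.moebius f : ℤ) : ℝ) * (1 / (f : ℝ))) =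
      ((ArithmeticFunction.moebius f : ℤ) : ℝ) * ((1 / (f : ℝ)) *
        (∑ k ∈ (Ioc ⌊α / f⌋₊ ⌊β / f⌋₊).filter (fun k => k % q = c' % q), 1 / (k : ℝ) -
          Real.log (β / α) / q)) := by ring
    rw [h6, abs_mul, abs_mul]
    have h7 : |((ArithmeticFunction.moebius f : ℤ) : ℝ)| ≤ 1 := by
      rw [← Int.cast_abs]
      exact_mod_cast ArithmeticFunction.abs_moebius_le_one
    have h8 : |1 / (f : ℝ)| = 1 / f := abs_of_pos (by positivity)
    rw [h8]
    calc |((ArithmeticFunction.moebius f : ℤ) : ℝ)| * (1 / (f : ℝ) *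
          |∑ k ∈ (Ioc ⌊α / f⌋₊ ⌊β / f⌋₊).filter (fun k => k % q = c' % q), 1 / (k : ℝ) -
            Real.log (β / α) / q|) ≤ 1 * (1 / (f : ℝ) * (2 / (α / f))) := by
          gcongr
      _ = 2 / α := by
          field_simp
  refine (Finset.sum_le_sum hterm).trans ?_
  rw [Finset.sum_const, nsmul_eq_mul]
  have h3 : ((d.divisors.card : ℕ) : ℝ) ≤ d := by exact_mod_cast Nat.card_divisors_le_self d
  calc ((d.divisors.card : ℕ) : ℝ) * (2 / α) ≤ d * (2 / α) := by gcongr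
    _ = 2 * d / α := by ring

end Pool.Agent.Work.MP_43ce8a_nt.D
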