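import Pool.Agent.Work.MP_43ce8a_nt.D.ChC
import Pool.Agent.Work.MP_43ce8a_nt.D.UA

set_option autoImplicit false

/-!
Module UB (size M). Tails of character sums over a residue class, with a coprimality condition.

tail_class: Abel summation with class_sum (partial sums over (T, ·] bounded by |D|):
|∑_{T < l ≤ T', l ≡ c} chi l / l| ≤ 2 |D| / T for real T > 0 (for T < 1 the range starts at l = 1
and the bound 2|D| ≤ 2|D|/T holds as well).
tail_cop: (l, d) = 1 detected by μ(f), f ∣ d: l = f l', chi l = chi f chi l', l' ≡ c f⁻¹ mod q,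
T / f < l' ≤ T' / f: each f gives (1/f) * 2 |D| f / T; at most τ(d) ≤ d of them.
head_cop: ∑_{l ≤ L, (l, q d) = 1} chi l / l. Detect (l, q d) = 1 by f ∣ rad (q d) (odd f are enough):
∑_f μ(f) chi f / f * LL (chi D) (L / f), and |LL - Lone| ≤ 4 |D| f / L (Lone_close: for N = ⌊L/f⌋,
1/(N+1) ≤ f / L); ∑_f μ(f) chi f / f = ∏_{p ∣ q d} (1 - chi p / p). The number of f is at most
q d. (chi l = 0 for even l, so p = 2 needs no care.)
-/

namespace Pool.Agent.Work.MP_43ce8a_nt.D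

open Finset Pool.Agent.Work.MP_2dba45_nt.Mert

theorem tail_class (D : ℤ) (hD : Odd D) (hs : Squarefree D) (h1 : D.natAbs ≠ 1) (q c : ℕ)
    (h4 : 4 ∣ q) (hq : IsCoprime D (q : ℤ)) (hq0 : 0 < q) (T T' : ℝ) (hT : 0 < T) (hTT : T ≤ T') :
    |∑ l ∈ (Ioc ⌊T⌋₊ ⌊T'⌋₊).filter (fun l => l % q = c % q), chi D l / (l : ℝ)| ≤
      2 * D.natAbs / T := by
  have hD0 : D ≠ 0 := by rintro rfl; exact absurd hD (by decide)
  have hk0 : 0 < D.natAbs := Int.natAbs_pos.mpr hD0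
  have hB1 : (1 : ℝ) ≤ (D.natAbs : ℝ) := by exact_mod_cast hk0
  have hfl : ⌊T⌋₊ ≤ ⌊T'⌋₊ := Nat.floor_mono hTT
  have key := Pool.Agent.Work.MP_73869e_nt.AP.MertQ.abel_boundB
    (fun n => if n % q = c % q then chi D n else 0) (fun n => 1 / (n : ℝ)) (D.natAbs : ℝ) hB1
    (⌊T⌋₊ + 1) (⌊T'⌋₊ + 1) (by omega)
    (by
      intro m hm
      have h2 := class_sum D hD hs h1 q c h4 hq hq0 ⌊T⌋₊ (m - 1)
      have h3 : Ico (⌊T⌋₊ + 1) m = Ioc ⌊T⌋₊ (m - 1) := by
        ext n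
        rw [Finset.mem_Ico, Finset.mem_Ioc]
        omega
      rw [h3, ← Finset.sum_filter]
      exact h2)
    (fun n _ => by positivity)
    (fun n hn => by
      apply one_div_le_one_div_of_le
      · exact_mod_cast (by omega : 0 < n)
      · push_cast; linarith)
  have h5 : ∑ l ∈ (Ioc ⌊T⌋₊ ⌊T'⌋₊).filter (fun l => l % q = c % q), chi D l / (l : ℝ) =
      ∑ n ∈ Ico (⌊T⌋₊ + 1) (⌊T'⌋₊ + 1), (if n % q = c % q then chi D n else 0) *
        (1 / (n : ℝ)) := by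
    have h3 : Ico (⌊T⌋₊ + 1) (⌊T'⌋₊ + 1) = Ioc ⌊T⌋₊ ⌊T'⌋₊ := by
      ext n
      rw [Finset.mem_Ico, Finset.mem_Ioc]
      omega
    rw [h3, Finset.sum_filter]
    apply Finset.sum_congr rfl
    intro n _
    split_ifs <;> ring
  rw [h5]
  refine key.trans ?_
  have h6 : T < ((⌊T⌋₊ + 1 : ℕ) : ℝ) := by
    push_cast
    exact Nat.lt_floor_add_one T
  have h7 : (1 : ℝ) / ((⌊T⌋₊ + 1 : ℕ) : ℝ) ≤ 1 / T := one_div_le_one_div_of_le hT h6.le
  calc (D.natAbs : ℝ) * (1 / ((⌊T⌋₊ + 1 : ℕ) : ℝ)) ≤ (D.natAbs : ℝ) * (1 / T) := by gcongr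
    _ = D.natAbs / T := by ring
    _ ≤ 2 * D.natAbs / T := by gcongr; linarith

private theorem ub_mu_le (f : ℕ) : |((ArithmeticFunction.moebius f : ℤ) : ℝ)| ≤ 1 := by
  rw [← Int.cast_abs]
  exact_mod_cast ArithmeticFunction.abs_moebius_le_one

/-- expansion of the coprimality condition -/
private theorem ub_exp (s : Finset ℕ) (hs : ∀ k ∈ s, k ≠ 0) (d : ℕ) (hd : d ≠ 0) (F : ℕ → ℝ) :
    ∑ k ∈ s.filter (fun k => k.Coprime d), F k =
      ∑ f ∈ d.divisors, ((ArithmeticFunction.moebius f : ℤ) : ℝ) *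
        ∑ k ∈ s, (if f ∣ k then F k else 0) := by
  rw [Finset.sum_filter]
  have h3 : ∀ k ∈ s, (if k.Coprime d then F k else 0) =
      ∑ f ∈ d.divisors, ((ArithmeticFunction.moebius f : ℤ) : ℝ) *
        (if f ∣ k then F k else 0) := by
    intro k hk
    have h4 := ua_mu k d (hs k hk) hd
    have h5 : (if k.Coprime d then F k else 0) =
        (if k.Coprime d then (1 : ℝ) else 0) * F k := by
      split_ifs <;> ring
    rw [h5, h4, Finset.sum_mul]
    apply Finset.sum_congr rfl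
    intro f _
    split_ifs <;> ring
  rw [Finset.sum_congr rfl h3, Finset.sum_comm]
  apply Finset.sum_congr rfl
  intro f _
  rw [Finset.mul_sum]

theorem tail_cop (D : ℤ) (hD : Odd D) (hs : Squarefree D) (h1 : D.natAbs ≠ 1) (q c d : ℕ)
    (h4 : 4 ∣ q) (hq : IsCoprime D (q : ℤ)) (hq0 : 0 < q) (hd : Squarefree d) (hdq : d.Coprime q)
    (T T' : ℝ) (hT : 0 < T) (hTT : T ≤ T') :
    |∑ l ∈ (Ioc ⌊T⌋₊ ⌊T'⌋₊).filter (fun l => l % q = c % q ∧ l.Coprime d), chi D l / (l : ℝ)| ≤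
      2 * D.natAbs * d / T := by
  have hd0 : d ≠ 0 := hd.ne_zero
  have hT' : 0 < T' := by linarith
  rw [← Finset.filter_filter, ub_exp _ (fun k hk => by
    rw [Finset.mem_filter, Finset.mem_Ioc] at hk
    omega) d hd0]
  refine (Finset.abs_sum_le_sum_abs _ _).trans ?_
  have hterm : ∀ f ∈ d.divisors, |((ArithmeticFunction.moebius f : ℤ) : ℝ) *
        ∑ k ∈ (Ioc ⌊T⌋₊ ⌊T'⌋₊).filter (fun k => k % q = c % q),
          (if f ∣ k then chi D k / (k : ℝ) else 0)| ≤ 2 * D.natAbs / T := by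
    intro f hf
    rw [Nat.mem_divisors] at hf
    have hf0 : 0 < f := Nat.pos_of_dvd_of_pos hf.1 (Nat.pos_of_ne_zero hd0)
    have hfr : (0 : ℝ) < f := by exact_mod_cast hf0
    have hfq : f.Coprime q := Nat.Coprime.coprime_dvd_left hf.1 hdq
    obtain ⟨c', hc'⟩ := ua_mult q c f hq0 hf0 hfq T T' hT.le hT'.le
      (fun k => chi D k / (k : ℝ))
    rw [hc']
    have h3 : ∑ k ∈ (Ioc ⌊T / f⌋₊ ⌊T' / f⌋₊).filter (fun k => k % q = c' % q),
        chi D (f * k) / ((f * k : ℕ) : ℝ) = (chi D f / (f : ℝ)) *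
        ∑ k ∈ (Ioc ⌊T / f⌋₊ ⌊T' / f⌋₊).filter (fun k => k % q = c' % q),
          chi D k / (k : ℝ) := by
      rw [Finset.mul_sum]
      apply Finset.sum_congr rfl
      intro k _
      rw [chi_mul]
      push_cast
      rw [div_mul_div_comm]
    rw [h3]
    have h5 := tail_class D hD hs h1 q c' h4 hq hq0 (T / f) (T' / f) (by positivity)
      (by gcongr)
    rw [abs_mul, abs_mul, abs_div, abs_of_pos hfr]
    calc |((ArithmeticFunction.moebius f : ℤ) : ℝ)| * (|chi D f| / f *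
          |∑ k ∈ (Ioc ⌊T / f⌋₊ ⌊T' / f⌋₊).filter (fun k => k % q = c' % q),
            chi D k / (k : ℝ)|) ≤ 1 * (1 / f * (2 * D.natAbs / (T / f))) := by
          gcongr
          · exact ub_mu_le f
          · exact chi_abs_le D f
      _ = 2 * D.natAbs / T := by
          field_simp
  refine (Finset.sum_le_sum hterm).trans ?_
  rw [Finset.sum_const, nsmul_eq_mul]
  have h3 : ((d.divisors.card : ℕ) : ℝ) ≤ d := by exact_mod_cast Nat.card_divisors_le_self d
  calc ((d.divisors.card : ℕ) : ℝ) * (2 * D.natAbs / T) ≤ d * (2 * D.natAbs / T) := by gcongr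
    _ = 2 * D.natAbs * d / T := by ring

private theorem ub_prod (D : ℤ) (d : ℕ) (hd : Squarefree d) :
    ∑ f ∈ d.divisors, ((ArithmeticFunction.moebius f : ℤ) : ℝ) * (chi D f / (f : ℝ)) =
      ∏ p ∈ d.primeFactors, (1 - chi D p / (p : ℝ)) := by
  let g : ArithmeticFunction ℝ := ⟨fun n => chi D n / (n : ℝ), by simp⟩
  have hg : g.IsMultiplicative := by
    constructor
    · show chi D 1 / ((1 : ℕ) : ℝ) = 1
      rw [chi_one]
      simp
    · intro a b _
      show chi D (a * b) / ((a * b : ℕ) : ℝ) = chi D a / (a : ℝ) * (chi D b / (b : ℝ))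
      rw [chi_mul]
      push_cast
      rw [div_mul_div_comm]
  exact (hg.prodPrimeFactors_one_sub_of_squarefree g hd).symm

/-- the multiples of `f` up to `L` -/
private theorem ub_mult (D : ℤ) (f : ℕ) (hf : 0 < f) (L : ℝ) (hL : 0 ≤ L) :
    ∑ k ∈ Ioc 0 ⌊L⌋₊, (if f ∣ k then chi D k / (k : ℝ) else 0) =
      (chi D f / (f : ℝ)) * LL (chi D) ⌊L / f⌋₊ := by
  unfold LL
  rw [← Finset.sum_filter, Finset.mul_sum]
  symm
  apply Finset.sum_nbij (fun k => f * k)
  · intro k hk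
    rw [Finset.mem_Ioc] at hk
    rw [Finset.mem_filter, Finset.mem_Ioc]
    exact ⟨⟨Nat.mul_pos hf hk.1, (ua_floor hf hL k).2 hk.2⟩, dvd_mul_right _ _⟩
  · intro k _ k' _ h
    exact Nat.eq_of_mul_eq_mul_left hf h
  · intro k hk
    rw [Finset.mem_coe, Finset.mem_filter, Finset.mem_Ioc] at hk
    obtain ⟨⟨hk1, hk2⟩, k', rfl⟩ := hk
    refine ⟨k', ?_, rfl⟩
    rw [Finset.mem_coe, Finset.mem_Ioc]
    exact ⟨Nat.pos_of_mul_pos_left hk1, (ua_floor hf hL k').1 hk2⟩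
  · intro k _
    rw [chi_mul]
    push_cast
    rw [div_mul_div_comm]

theorem head_cop (D : ℤ) (hD : Odd D) (hs : Squarefree D) (h1 : D ≠ 1) (q d : ℕ) (hq0 : 0 < q)
    (hd : Squarefree d) (hdq : d.Coprime q) (L : ℝ) (hL : 0 < L) :
    |∑ l ∈ (Ioc 0 ⌊L⌋₊).filter (fun l => l.Coprime (q * d)), chi D l / (l : ℝ) -
      (Lone D * ∏ p ∈ q.primeFactors, (1 - chi D p / (p : ℝ))) *
        ∏ p ∈ d.primeFactors, (1 - chi D p / (p : ℝ))| ≤ 4 * D.natAbs * (q * d) / L := by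
  have hd0 : d ≠ 0 := hd.ne_zero
  have hqd0 : q * d ≠ 0 := Nat.mul_ne_zero hq0.ne' hd0
  set R : ℕ := ∏ p ∈ (q * d).primeFactors, p with hR
  have hRprime : ∀ p ∈ (q * d).primeFactors, p.Prime := fun p hp => Nat.prime_of_mem_primeFactors hp
  have hRpf : R.primeFactors = (q * d).primeFactors := Nat.primeFactors_prod hRprime
  have hRsq : Squarefree R := (Finset.squarefree_prod_of_pairwise_isCoprime (by
      intro p hp p' hp' hne
      exact Nat.coprime_iff_isRelPrime.1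
        ((Nat.coprime_primes (hRprime p hp) (hRprime p' hp')).2 hne))
    (fun p hp => (hRprime p hp).squarefree))
  have hR0 : R ≠ 0 := hRsq.ne_zero
  have hRle : R ≤ q * d := Nat.le_of_dvd (Nat.pos_of_ne_zero hqd0) (Nat.prod_primeFactors_dvd _)
  have hcop : ∀ l : ℕ, l ≠ 0 → (l.Coprime (q * d) ↔ l.Coprime R) := by
    intro l hl
    rw [← Nat.disjoint_primeFactors hl hqd0, ← Nat.disjoint_primeFactors hl hR0, hRpf]
  have e1 : ∑ l ∈ (Ioc 0 ⌊L⌋₊).filter (fun l => l.Coprime (q * d)), chi D l / (l : ℝ) =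
      ∑ f ∈ R.divisors, ((ArithmeticFunction.moebius f : ℤ) : ℝ) *
        ((chi D f / (f : ℝ)) * LL (chi D) ⌊L / f⌋₊) := by
    have h2 : (Ioc 0 ⌊L⌋₊).filter (fun l => l.Coprime (q * d)) =
        (Ioc 0 ⌊L⌋₊).filter (fun l => l.Coprime R) := by
      apply Finset.filter_congr
      intro l hl
      rw [Finset.mem_Ioc] at hl
      exact hcop l (by omega)
    rw [h2, ub_exp _ (fun k hk => by
      rw [Finset.mem_Ioc] at hk
      omega) R hR0]
    apply Finset.sum_congr rfl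
    intro f hf
    have hf0 : 0 < f := Nat.pos_of_mem_divisors hf
    rw [ub_mult D f hf0 L hL.le]
  have e2 : (Lone D * ∏ p ∈ q.primeFactors, (1 - chi D p / (p : ℝ))) *
        ∏ p ∈ d.primeFactors, (1 - chi D p / (p : ℝ)) =
      ∑ f ∈ R.divisors, Lone D * (((ArithmeticFunction.moebius f : ℤ) : ℝ) *
        (chi D f / (f : ℝ))) := by
    rw [← Finset.mul_sum, ub_prod D R hRsq, hRpf, Nat.primeFactors_mul hq0.ne' hd0,
      Finset.prod_union (Nat.Coprime.disjoint_primeFactors hdq.symm), mul_assoc]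
  rw [e1, e2, ← Finset.sum_sub_distrib]
  refine (Finset.abs_sum_le_sum_abs _ _).trans ?_
  have hterm : ∀ f ∈ R.divisors, |((ArithmeticFunction.moebius f : ℤ) : ℝ) *
        ((chi D f / (f : ℝ)) * LL (chi D) ⌊L / f⌋₊) -
      Lone D * (((ArithmeticFunction.moebius f : ℤ) : ℝ) * (chi D f / (f : ℝ)))| ≤
      4 * D.natAbs / L := by
    intro f hf
    have hf0 : 0 < f := Nat.pos_of_mem_divisors hf
    have hfr : (0 : ℝ) < f := by exact_mod_cast hf0
    have h2 := Lone_close D hD hs h1 ⌊L / f⌋₊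
    have h3 : L / f < (⌊L / f⌋₊ : ℝ) + 1 := Nat.lt_floor_add_one _
    have h4 : 4 * (D.natAbs : ℝ) / ((⌊L / f⌋₊ : ℝ) + 1) ≤ 4 * (D.natAbs : ℝ) / (L / f) := by
      gcongr
    have h5 : ((ArithmeticFunction.moebius f : ℤ) : ℝ) *
        ((chi D f / (f : ℝ)) * LL (chi D) ⌊L / f⌋₊) -
      Lone D * (((ArithmeticFunction.moebius f : ℤ) : ℝ) * (chi D f / (f : ℝ))) =
        -(((ArithmeticFunction.moebius f : ℤ) : ℝ) * ((chi D f / (f : ℝ)) *
          (Lone D - LL (chi D) ⌊L / f⌋₊))) := by ring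
    rw [h5, abs_neg, abs_mul, abs_mul, abs_div, abs_of_pos hfr]
    calc |((ArithmeticFunction.moebius f : ℤ) : ℝ)| * (|chi D f| / f *
          |Lone D - LL (chi D) ⌊L / f⌋₊|) ≤ 1 * (1 / f * (4 * (D.natAbs : ℝ) / (L / f))) := by
          gcongr
          · exact ub_mu_le f
          · exact chi_abs_le D f
          · exact h2.trans h4
      _ = 4 * D.natAbs / L := by
          field_simp
  refine (Finset.sum_le_sum hterm).trans ?_
  rw [Finset.sum_const, nsmul_eq_mul]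
  have h3 : ((R.divisors.card : ℕ) : ℝ) ≤ (q : ℝ) * d := by
    exact_mod_cast (Nat.card_divisors_le_self R).trans hRle
  calc ((R.divisors.card : ℕ) : ℝ) * (4 * D.natAbs / L) ≤ ((q : ℝ) * d) * (4 * D.natAbs / L) := by
        gcongr
    _ = 4 * D.natAbs * (q * d) / L := by ring

end Pool.Agent.Work.MP_43ce8a_nt.D
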