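import Pool.Agent.Work.MP_43ce8a_nt.D.UA
import Pool.Agent.Work.MP_43ce8a_nt.D.UB

set_option autoImplicit false

/-!
Module USum (size M-L). The Dirichlet hyperbola method.

PROOF. Write m = l k, so (1/m) ∑_{l ∣ m} chi l = ∑_{l k = m} chi l / (l k); all l, k are prime to q d.
Put L = Y₁^(1/2).
Part l ≤ L: ∑_{l ≤ L, (l, q d) = 1} (chi l / l) ∑_{Y₁/l < k ≤ Y₂/l, k ≡ μ l⁻¹ mod q, (k, d) = 1} 1/k.
By harm_cop the inner sum is (log(Y₂/Y₁)/q) ∏_{p ∣ d} (1 - 1/p) + O(2 d l / Y₁); the errors sum to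
≤ 2 d L / Y₁, and by head_cop the main terms give the claimed main term up to
(log 2) * 4 |D| q d / (q L).
Part l > L: then k < Y₂ / L ≤ 2 Y₁^(1/2); for fixed k (prime to q d) the sum over l in
(max(L, Y₁/k), Y₂/k], l ≡ μ k⁻¹ mod q, (l, d) = 1 of chi l / l is ≤ 2 |D| d / L by tail_cop
(it is empty when Y₂/k ≤ L). Total ≤ (1 + log(2 Y₁)) 2 |D| d / L.
Everything is ≤ C d Y₁^(-1/3).
-/

namespace Pool.Agent.Work.MP_43ce8a_nt.D

open Finset

/-- inverse of a residue class -/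
private theorem usum_inv {q l : ℕ} (μ : ℕ) (hq : 1 < q) (hl : l.Coprime q) :
    ∃ c : ℕ, ∀ k, (l * k) % q = μ % q ↔ k % q = c % q := by
  obtain ⟨i, _, hi⟩ := Nat.exists_mul_mod_eq_one_of_coprime hl hq
  have hi' : l * i ≡ 1 [MOD q] := by
    unfold Nat.ModEq
    rw [hi, Nat.mod_eq_of_lt hq]
  refine ⟨i * μ, fun k => ⟨fun h => ?_, fun h => ?_⟩⟩
  · have h1 : l * k ≡ μ [MOD q] := h
    have h2 : i * (l * k) ≡ i * μ [MOD q] := h1.mul_left i
    have h3 : i * (l * k) ≡ k [MOD q] := by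
      have : i * (l * k) = (l * i) * k := by ring
      rw [this]
      simpa using hi'.mul_right k
    exact h3.symm.trans h2
  · have h1 : k ≡ i * μ [MOD q] := h
    have h2 : l * k ≡ l * (i * μ) [MOD q] := h1.mul_left l
    have h3 : l * (i * μ) ≡ μ [MOD q] := by
      have : l * (i * μ) = (l * i) * μ := by ring
      rw [this]
      simpa using hi'.mul_right μ
    exact h2.trans h3

/-- the hyperbola: sum over pairs -/
private theorem usum_pairs (M : Finset ℕ) (n : ℕ) (hM : M ⊆ Ioc 0 n) (f : ℕ → ℕ → ℝ) :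
    ∑ m ∈ M, ∑ l ∈ m.divisors, f l (m / l) =
      ∑ l ∈ Ioc 0 n, ∑ k ∈ (Ioc 0 n).filter (fun k => l * k ∈ M), f l k := by
  classical
  have h1 : ∑ l ∈ Ioc 0 n, ∑ k ∈ (Ioc 0 n).filter (fun k => l * k ∈ M), f l k =
      ∑ x ∈ ((Ioc 0 n) ×ˢ (Ioc 0 n)).filter (fun x : ℕ × ℕ => x.1 * x.2 ∈ M), f x.1 x.2 := by
    rw [sum_filter, sum_product]
    refine sum_congr rfl fun l _ => ?_
    rw [sum_filter]
  rw [h1, ← sum_fiberwise_of_maps_to (g := fun x : ℕ × ℕ => x.1 * x.2) (t := M)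
    (fun x hx => (mem_filter.1 hx).2)]
  refine sum_congr rfl fun m hm => ?_
  have hm0 := mem_Ioc.1 (hM hm)
  rw [← Nat.sum_divisorsAntidiagonal (f := fun l k => f l k)]
  refine sum_congr ?_ fun _ _ => rfl
  ext x
  rw [Nat.mem_divisorsAntidiagonal, mem_filter, mem_filter, mem_product, mem_Ioc, mem_Ioc]
  constructor
  · rintro ⟨h2, h3⟩
    have hx1 : 0 < x.1 := Nat.pos_of_ne_zero fun h => h3 (by rw [← h2, h, Nat.zero_mul])
    have hx2 : 0 < x.2 := Nat.pos_of_ne_zero fun h => h3 (by rw [← h2, h, Nat.mul_zero])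
    have h4 : x.1 ≤ m := by
      rw [← h2]
      exact Nat.le_mul_of_pos_right _ hx2
    have h5 : x.2 ≤ m := by
      rw [← h2]
      exact Nat.le_mul_of_pos_left _ hx1
    refine ⟨⟨⟨⟨hx1, by omega⟩, hx2, by omega⟩, ?_⟩, h2⟩
    rw [h2]
    exact hm
  · rintro ⟨⟨_, _⟩, h2⟩
    exact ⟨h2, by omega⟩

/-- the inner sets -/
private theorem usum_set {q d μ l c : ℕ} {Y₁ Y₂ : ℝ} (hl : 0 < l)
    (hld : l.Coprime d) (hc : ∀ k, (l * k) % q = μ % q ↔ k % q = c % q) :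
    (Ioc 0 ⌊Y₂⌋₊).filter (fun k => l * k ∈ (Ioc ⌊Y₁⌋₊ ⌊Y₂⌋₊).filter
        (fun m => m % q = μ % q ∧ m.Coprime d)) =
      (Ioc ⌊Y₁ / l⌋₊ ⌊Y₂ / l⌋₊).filter (fun k => k % q = c % q ∧ k.Coprime d) := by
  ext k
  rw [mem_filter, mem_filter, mem_filter, mem_Ioc, mem_Ioc, mem_Ioc, Nat.floor_div_natCast,
    Nat.floor_div_natCast, hc, Nat.div_lt_iff_lt_mul hl, Nat.le_div_iff_mul_le hl,
    Nat.coprime_mul_iff_left]
  constructor
  · rintro ⟨⟨h1, h2⟩, ⟨h3, h4⟩, h5, _, h6⟩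
    exact ⟨⟨by rw [mul_comm]; exact h3, by rw [mul_comm]; exact h4⟩, h5, h6⟩
  · rintro ⟨⟨h1, h2⟩, h3, h4⟩
    have hk : 0 < k := Nat.pos_of_ne_zero fun h => by
      rw [h, Nat.zero_mul] at h1
      omega
    refine ⟨⟨hk, ?_⟩, ⟨by rw [mul_comm]; exact h1, by rw [mul_comm]; exact h2⟩, h3, hld, h4⟩
    exact (Nat.le_mul_of_pos_right k hl).trans h2

private theorem usum_empty {q d μ l : ℕ} {Y₁ Y₂ : ℝ} (hμ : μ.Coprime q)
    (h : ¬ l.Coprime (q * d)) :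
    (Ioc 0 ⌊Y₂⌋₊).filter (fun k => l * k ∈ (Ioc ⌊Y₁⌋₊ ⌊Y₂⌋₊).filter
        (fun m => m % q = μ % q ∧ m.Coprime d)) = ∅ := by
  rw [filter_eq_empty_iff]
  intro k _ hk
  rw [mem_filter] at hk
  obtain ⟨_, h1, h2⟩ := hk
  apply h
  rw [Nat.coprime_mul_iff_right]
  refine ⟨?_, (Nat.coprime_mul_iff_left.1 h2).1⟩
  have h3 : l * k ≡ μ [MOD q] := h1
  have h4 : (l * k).Coprime q := by
    have := h3.gcd_eq
    unfold Nat.Coprime
    rw [this]
    exact hμ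
  exact (Nat.coprime_mul_iff_left.1 h4).1

private theorem usum_harm (K : ℕ) (hK : 1 ≤ K) : ∑ k ∈ Ioc 0 K, 1 / (k : ℝ) ≤ 1 + Real.log K := by
  have h := harmonic_le_one_add_log K
  rw [harmonic_eq_sum_Icc] at h
  push_cast at h
  have h2 : Icc 1 K = Ioc 0 K := by
    ext x
    rw [mem_Icc, mem_Ioc]
    omega
  rw [h2] at h
  simpa [one_div] using h

theorem U_sum (D : ℤ) (hD : Odd D) (hs : Squarefree D) (h1 : D.natAbs ≠ 1) (q : ℕ)
    (h4 : 4 ∣ q) (hq : IsCoprime D (q : ℤ)) (hq0 : 0 < q) :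
    ∃ C : ℝ, 0 ≤ C ∧ ∀ (d μ : ℕ) (Y₁ Y₂ : ℝ), Squarefree d → d.Coprime q → μ.Coprime q →
      1 ≤ Y₁ → Y₁ ≤ Y₂ → Y₂ ≤ 2 * Y₁ →
      |∑ m ∈ (Ioc ⌊Y₁⌋₊ ⌊Y₂⌋₊).filter (fun m => m % q = μ % q ∧ m.Coprime d),
          (∑ l ∈ m.divisors, chi D l) / (m : ℝ) -
        Real.log (Y₂ / Y₁) / q * (Lone D * ∏ p ∈ q.primeFactors, (1 - chi D p / (p : ℝ))) *
          ∏ p ∈ d.primeFactors, ((1 - 1 / (p : ℝ)) * (1 - chi D p / (p : ℝ)))| ≤
        C * d * Y₁ ^ (-(1 / 3) : ℝ) := by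
  classical
  have hq4 : 4 ≤ q := Nat.le_of_dvd hq0 h4
  have hq1 : 1 < q := by omega
  have hDne : D ≠ 1 := by
    rintro rfl
    exact h1 rfl
  have hD0 : D ≠ 0 := hs.ne_zero
  have hDabs : (1 : ℝ) ≤ D.natAbs := by
    have : 0 < D.natAbs := Int.natAbs_pos.2 hD0
    exact_mod_cast this
  refine ⟨16 * D.natAbs, by positivity, ?_⟩
  intro d μ Y₁ Y₂ hd hdq hμ hY1 hY12 hY2
  have hd0 : 0 < d := Nat.pos_of_ne_zero hd.ne_zero
  have hdR : (1 : ℝ) ≤ d := by exact_mod_cast hd0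
  have hY0 : 0 < Y₁ := by linarith
  set L : ℝ := Real.sqrt Y₁ with hL
  have hLL : L * L = Y₁ := Real.mul_self_sqrt hY0.le
  have hL1 : 1 ≤ L := by
    rw [hL, Real.one_le_sqrt]
    exact hY1
  have hL0 : 0 < L := by linarith
  have hLY : L ≤ Y₁ := by nlinarith
  set n₂ : ℕ := ⌊Y₂⌋₊ with hn₂
  set M : Finset ℕ := (Ioc ⌊Y₁⌋₊ ⌊Y₂⌋₊).filter (fun m => m % q = μ % q ∧ m.Coprime d) with hM
  have hMsub : M ⊆ Ioc 0 n₂ := by
    intro m hm
    have := mem_Ioc.1 (mem_filter.1 hm).1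
    rw [mem_Ioc]
    omega
  -- the sum over pairs
  let f : ℕ → ℕ → ℝ := fun l k => chi D l / ((l : ℝ) * k)
  have hS : ∑ m ∈ M, (∑ l ∈ m.divisors, chi D l) / (m : ℝ) =
      ∑ l ∈ Ioc 0 n₂, ∑ k ∈ (Ioc 0 n₂).filter (fun k => l * k ∈ M), f l k := by
    rw [← usum_pairs M n₂ hMsub]
    refine sum_congr rfl fun m _ => ?_
    rw [sum_div]
    refine sum_congr rfl fun l hl => ?_
    show chi D l / (m : ℝ) = chi D l / ((l : ℝ) * ((m / l : ℕ) : ℝ))
    have h2 : l * (m / l) = m := Nat.mul_div_cancel' (Nat.dvd_of_mem_divisors hl)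
    have h3 : (l : ℝ) * ((m / l : ℕ) : ℝ) = m := by exact_mod_cast h2
    rw [h3]
  have hfl : ⌊L⌋₊ ≤ n₂ := Nat.floor_le_floor (hLY.trans hY12)
  have hsplit : ∑ l ∈ Ioc 0 n₂, ∑ k ∈ (Ioc 0 n₂).filter (fun k => l * k ∈ M), f l k =
      ∑ l ∈ Ioc 0 ⌊L⌋₊, ∑ k ∈ (Ioc 0 n₂).filter (fun k => l * k ∈ M), f l k +
      ∑ l ∈ Ioc ⌊L⌋₊ n₂, ∑ k ∈ (Ioc 0 n₂).filter (fun k => l * k ∈ M), f l k :=
    (sum_Ioc_consecutive _ (Nat.zero_le _) hfl).symm
  -- part A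
  set P : ℝ := ∏ p ∈ d.primeFactors, (1 - 1 / (p : ℝ)) with hP
  set R : ℝ := Real.log (Y₂ / Y₁) / q * P with hR
  have hqR : (1 : ℝ) ≤ q := by exact_mod_cast hq0
  have hP0 : 0 ≤ P := by
    refine prod_nonneg fun p hp => ?_
    have : (1 : ℝ) ≤ p := by exact_mod_cast (Nat.prime_of_mem_primeFactors hp).one_lt.le
    rw [sub_nonneg, div_le_one (by linarith)]
    exact this
  have hP1 : P ≤ 1 := by
    refine prod_le_one (fun p hp => ?_) fun p hp => ?_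
    · have : (1 : ℝ) ≤ p := by exact_mod_cast (Nat.prime_of_mem_primeFactors hp).one_lt.le
      rw [sub_nonneg, div_le_one (by linarith)]
      exact this
    · have : 0 ≤ 1 / (p : ℝ) := by positivity
      linarith
  have hlog0 : 0 ≤ Real.log (Y₂ / Y₁) := Real.log_nonneg (by rw [one_le_div hY0]; exact hY12)
  have hlog1 : Real.log (Y₂ / Y₁) ≤ 1 := by
    have h2 : Y₂ / Y₁ ≤ 2 := by
      rw [div_le_iff₀ hY0]
      exact hY2
    have h3 : Real.log (Y₂ / Y₁) ≤ Real.log 2 :=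
      Real.log_le_log (div_pos (by linarith) hY0) h2
    have h4 := Real.log_two_lt_d9
    linarith
  have hR0 : 0 ≤ R := by positivity
  have hRq : R * q ≤ 1 := by
    have : R * q = Real.log (Y₂ / Y₁) * P := by
      rw [hR]
      field_simp
    rw [this]
    exact mul_le_one₀ hlog1 hP0 hP1
  have hA : |∑ l ∈ Ioc 0 ⌊L⌋₊, ∑ k ∈ (Ioc 0 n₂).filter (fun k => l * k ∈ M), f l k -
      (∑ l ∈ (Ioc 0 ⌊L⌋₊).filter (fun l => l.Coprime (q * d)), chi D l / (l : ℝ)) * R| ≤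
      2 * d / L := by
    rw [sum_mul, sum_filter, ← sum_sub_distrib]
    have h2 : ∀ l ∈ Ioc 0 ⌊L⌋₊, |∑ k ∈ (Ioc 0 n₂).filter (fun k => l * k ∈ M), f l k -
        (if l.Coprime (q * d) then chi D l / (l : ℝ) * R else 0)| ≤ 2 * d / Y₁ := by
      intro l hl
      have hl0 : 0 < l := (mem_Ioc.1 hl).1
      have hlR : (0 : ℝ) < l := by exact_mod_cast hl0
      by_cases hlc : l.Coprime (q * d)
      · rw [if_pos hlc]
        have hlq := (Nat.coprime_mul_iff_right.1 hlc).1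
        have hld := (Nat.coprime_mul_iff_right.1 hlc).2
        obtain ⟨c, hc⟩ := usum_inv μ hq1 hlq
        have h3 : (Ioc 0 n₂).filter (fun k => l * k ∈ M) =
            (Ioc ⌊Y₁ / l⌋₊ ⌊Y₂ / l⌋₊).filter (fun k => k % q = c % q ∧ k.Coprime d) :=
          usum_set hl0 hld hc
        rw [h3]
        have h4 : ∑ k ∈ (Ioc ⌊Y₁ / l⌋₊ ⌊Y₂ / l⌋₊).filter (fun k => k % q = c % q ∧ k.Coprime d),
            f l k = chi D l / (l : ℝ) *
            ∑ k ∈ (Ioc ⌊Y₁ / l⌋₊ ⌊Y₂ / l⌋₊).filter (fun k => k % q = c % q ∧ k.Coprime d),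
              1 / (k : ℝ) := by
          rw [mul_sum]
          refine sum_congr rfl fun k _ => ?_
          show chi D l / ((l : ℝ) * k) = chi D l / (l : ℝ) * (1 / (k : ℝ))
          rw [div_mul_div_comm, mul_one]
        rw [h4, ← mul_sub]
        have h5 := harm_cop q c d hq0 hd hdq (Y₁ / l) (Y₂ / l) (by positivity)
          (div_le_div_of_nonneg_right hY12 hlR.le) (by
            rw [← mul_div_assoc]
            exact div_le_div_of_nonneg_right hY2 hlR.le)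
        have h6 : Y₂ / l / (Y₁ / l) = Y₂ / Y₁ := by
          field_simp
        rw [h6] at h5
        rw [abs_mul, abs_div, abs_of_pos hlR]
        have h7 : |chi D l| / (l : ℝ) ≤ 1 / l :=
          div_le_div_of_nonneg_right (chi_abs_le D l) hlR.le
        calc |chi D l| / (l : ℝ) * |∑ k ∈ (Ioc ⌊Y₁ / l⌋₊ ⌊Y₂ / l⌋₊).filter
              (fun k => k % q = c % q ∧ k.Coprime d), 1 / (k : ℝ) - R|
            ≤ 1 / l * (2 * d / (Y₁ / l)) := by
              refine mul_le_mul h7 h5 (abs_nonneg _) (by positivity)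
          _ = 2 * d / Y₁ := by field_simp
      · rw [if_neg hlc, sub_zero]
        have h3 : (Ioc 0 n₂).filter (fun k => l * k ∈ M) = ∅ := usum_empty hμ hlc
        rw [h3, sum_empty, abs_zero]
        positivity
    calc |∑ l ∈ Ioc 0 ⌊L⌋₊, (∑ k ∈ (Ioc 0 n₂).filter (fun k => l * k ∈ M), f l k -
          (if l.Coprime (q * d) then chi D l / (l : ℝ) * R else 0))|
        ≤ ∑ l ∈ Ioc 0 ⌊L⌋₊, 2 * d / Y₁ := (abs_sum_le_sum_abs _ _).trans (sum_le_sum h2)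
      _ = ⌊L⌋₊ * (2 * d / Y₁) := by rw [sum_const, Nat.card_Ioc, nsmul_eq_mul, Nat.sub_zero]
      _ ≤ L * (2 * d / Y₁) :=
          mul_le_mul_of_nonneg_right (Nat.floor_le hL0.le) (by positivity)
      _ = 2 * d / L := by
          rw [← hLL]
          field_simp
  -- part B
  have hB : |∑ l ∈ Ioc ⌊L⌋₊ n₂, ∑ k ∈ (Ioc 0 n₂).filter (fun k => l * k ∈ M), f l k| ≤
      2 * D.natAbs * d / L * (1 + Real.log (2 * L)) := by
    have h2 : ∑ l ∈ Ioc ⌊L⌋₊ n₂, ∑ k ∈ (Ioc 0 n₂).filter (fun k => l * k ∈ M), f l k =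
        ∑ k ∈ Ioc 0 n₂, 1 / (k : ℝ) *
          ∑ l ∈ (Ioc ⌊L⌋₊ n₂).filter (fun l => l * k ∈ M), chi D l / (l : ℝ) := by
      have h3 : ∀ l ∈ Ioc ⌊L⌋₊ n₂, ∑ k ∈ (Ioc 0 n₂).filter (fun k => l * k ∈ M), f l k =
          ∑ k ∈ Ioc 0 n₂, if l * k ∈ M then f l k else 0 := fun l _ => sum_filter _ _
      rw [sum_congr rfl h3, sum_comm]
      refine sum_congr rfl fun k _ => ?_
      rw [mul_sum, sum_filter]
      refine sum_congr rfl fun l _ => ?_
      split_ifs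
      · show chi D l / ((l : ℝ) * k) = 1 / (k : ℝ) * (chi D l / (l : ℝ))
        rw [div_mul_div_comm, one_mul, mul_comm (k : ℝ)]
      · rfl
    have h3 : ∀ k ∈ Ioc 0 n₂, ⌊2 * L⌋₊ < k →
        ∑ l ∈ (Ioc ⌊L⌋₊ n₂).filter (fun l => l * k ∈ M), chi D l / (l : ℝ) = 0 := by
      intro k _ hk
      have h4 : (Ioc ⌊L⌋₊ n₂).filter (fun l => l * k ∈ M) = ∅ := by
        rw [filter_eq_empty_iff]
        intro l hl hlk
        have h5 : L < l := (Nat.floor_lt hL0.le).1 (mem_Ioc.1 hl).1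
        have h6 : 2 * L < k := (Nat.floor_lt (by linarith)).1 hk
        have h7 := (mem_Ioc.1 (hMsub hlk)).2
        have h8 : ((l * k : ℕ) : ℝ) ≤ Y₂ :=
          (Nat.cast_le.2 h7).trans (Nat.floor_le (by linarith))
        push_cast at h8
        have h9 : L * (2 * L) < l * k := mul_lt_mul'' h5 h6 hL0.le (by linarith)
        nlinarith
      rw [h4, sum_empty]
    have h4 : ∀ k ∈ Ioc 0 n₂, |∑ l ∈ (Ioc ⌊L⌋₊ n₂).filter (fun l => l * k ∈ M),
        chi D l / (l : ℝ)| ≤ 2 * D.natAbs * d / L := by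
      intro k hk
      have hk0 : 0 < k := (mem_Ioc.1 hk).1
      have hkR : (0 : ℝ) < k := by exact_mod_cast hk0
      have h5 : (Ioc ⌊L⌋₊ n₂).filter (fun l => l * k ∈ M) =
          ((Ioc 0 n₂).filter (fun l => k * l ∈ M)).filter (fun l => ⌊L⌋₊ < l) := by
        ext l
        constructor
        · intro h
          have h6 := mem_filter.1 h
          have h7 := mem_Ioc.1 h6.1
          refine mem_filter.2 ⟨mem_filter.2 ⟨mem_Ioc.2 ⟨by omega, h7.2⟩, ?_⟩, h7.1⟩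
          rw [mul_comm]
          exact h6.2
        · intro h
          have h6 := mem_filter.1 h
          have h7 := mem_filter.1 h6.1
          have h8 := mem_Ioc.1 h7.1
          refine mem_filter.2 ⟨mem_Ioc.2 ⟨h6.2, h8.2⟩, ?_⟩
          rw [mul_comm]
          exact h7.2
      rw [h5]
      by_cases hkc : k.Coprime (q * d)
      · have hkq := (Nat.coprime_mul_iff_right.1 hkc).1
        have hkd := (Nat.coprime_mul_iff_right.1 hkc).2
        obtain ⟨c, hc⟩ := usum_inv μ hq1 hkq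
        have h3 : (Ioc 0 n₂).filter (fun l => k * l ∈ M) =
            (Ioc ⌊Y₁ / k⌋₊ ⌊Y₂ / k⌋₊).filter (fun l => l % q = c % q ∧ l.Coprime d) :=
          usum_set hk0 hkd hc
        rw [h3]
        set T : ℝ := max L (Y₁ / k) with hT
        have hTL : L ≤ T := le_max_left _ _
        have hT0 : 0 < T := by linarith
        have h6 : ((Ioc ⌊Y₁ / k⌋₊ ⌊Y₂ / k⌋₊).filter
            (fun l => l % q = c % q ∧ l.Coprime d)).filter (fun l => ⌊L⌋₊ < l) =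
            (Ioc ⌊T⌋₊ ⌊Y₂ / k⌋₊).filter (fun l => l % q = c % q ∧ l.Coprime d) := by
          have h7 : ⌊T⌋₊ = max ⌊L⌋₊ ⌊Y₁ / k⌋₊ := Monotone.map_max Nat.floor_mono
          ext l
          rw [mem_filter, mem_filter, mem_filter, mem_Ioc, mem_Ioc, h7, max_lt_iff]
          tauto
        rw [h6]
        by_cases hTT : T ≤ Y₂ / k
        · refine (tail_cop D hD hs h1 q c d h4 hq hq0 hd hdq T (Y₂ / k) hT0 hTT).trans ?_
          exact div_le_div_of_nonneg_left (by positivity) hL0 hTL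
        · have h7 : Ioc ⌊T⌋₊ ⌊Y₂ / k⌋₊ = ∅ := by
            rw [Ioc_eq_empty_iff, not_lt]
            exact Nat.floor_le_floor (not_le.1 hTT).le
          rw [h7, filter_empty, sum_empty, abs_zero]
          positivity
      · have h3 : (Ioc 0 n₂).filter (fun l => k * l ∈ M) = ∅ := usum_empty hμ hkc
        rw [h3, filter_empty, sum_empty, abs_zero]
        positivity
    rw [h2]
    have h5 : ∑ k ∈ Ioc 0 n₂, 1 / (k : ℝ) *
          ∑ l ∈ (Ioc ⌊L⌋₊ n₂).filter (fun l => l * k ∈ M), chi D l / (l : ℝ) =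
        ∑ k ∈ (Ioc 0 n₂).filter (fun k => k ≤ ⌊2 * L⌋₊), 1 / (k : ℝ) *
          ∑ l ∈ (Ioc ⌊L⌋₊ n₂).filter (fun l => l * k ∈ M), chi D l / (l : ℝ) := by
      rw [sum_filter]
      refine sum_congr rfl fun k hk => ?_
      split_ifs with h
      · rfl
      · rw [h3 k hk (not_le.1 h), mul_zero]
    rw [h5]
    have h6 : (Ioc 0 n₂).filter (fun k => k ≤ ⌊2 * L⌋₊) ⊆ Ioc 0 ⌊2 * L⌋₊ := by
      intro k hk
      rw [mem_filter, mem_Ioc] at hk
      rw [mem_Ioc]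
      exact ⟨hk.1.1, hk.2⟩
    have h7 : 1 ≤ ⌊2 * L⌋₊ := Nat.le_floor (by push_cast; linarith)
    calc |∑ k ∈ (Ioc 0 n₂).filter (fun k => k ≤ ⌊2 * L⌋₊), 1 / (k : ℝ) *
          ∑ l ∈ (Ioc ⌊L⌋₊ n₂).filter (fun l => l * k ∈ M), chi D l / (l : ℝ)|
        ≤ ∑ k ∈ (Ioc 0 n₂).filter (fun k => k ≤ ⌊2 * L⌋₊),
          1 / (k : ℝ) * (2 * D.natAbs * d / L) := by
          refine (abs_sum_le_sum_abs _ _).trans (sum_le_sum fun k hk => ?_)
          rw [abs_mul, abs_of_nonneg (by positivity : (0 : ℝ) ≤ 1 / (k : ℝ))]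
          exact mul_le_mul_of_nonneg_left (h4 k (mem_filter.1 hk).1) (by positivity)
      _ ≤ ∑ k ∈ Ioc 0 ⌊2 * L⌋₊, 1 / (k : ℝ) * (2 * D.natAbs * d / L) :=
          sum_le_sum_of_subset_of_nonneg h6 fun k _ _ => by positivity
      _ = (∑ k ∈ Ioc 0 ⌊2 * L⌋₊, 1 / (k : ℝ)) * (2 * D.natAbs * d / L) := by rw [sum_mul]
      _ ≤ (1 + Real.log (2 * L)) * (2 * D.natAbs * d / L) := by
          refine mul_le_mul_of_nonneg_right ?_ (by positivity)
          refine (usum_harm _ h7).trans ?_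
          have h8 : Real.log (⌊2 * L⌋₊ : ℝ) ≤ Real.log (2 * L) :=
            Real.log_le_log (by exact_mod_cast h7) (Nat.floor_le (by linarith))
          linarith
      _ = 2 * D.natAbs * d / L * (1 + Real.log (2 * L)) := mul_comm _ _
  -- the main term
  have hH := head_cop D hD hs hDne q d hq0 hd hdq L hL0
  set Hd : ℝ := ∑ l ∈ (Ioc 0 ⌊L⌋₊).filter (fun l => l.Coprime (q * d)), chi D l / (l : ℝ) with hHd
  set Ma : ℝ := (Lone D * ∏ p ∈ q.primeFactors, (1 - chi D p / (p : ℝ))) *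
        ∏ p ∈ d.primeFactors, (1 - chi D p / (p : ℝ)) with hMa
  have hmain : Real.log (Y₂ / Y₁) / q *
      (Lone D * ∏ p ∈ q.primeFactors, (1 - chi D p / (p : ℝ))) *
          ∏ p ∈ d.primeFactors, ((1 - 1 / (p : ℝ)) * (1 - chi D p / (p : ℝ))) = Ma * R := by
    rw [prod_mul_distrib, hMa, hR, hP]
    ring
  rw [hS, hsplit, hmain]
  have hC : |Hd * R - Ma * R| ≤ 4 * D.natAbs * d / L := by
    rw [← sub_mul, abs_mul, abs_of_nonneg hR0]
    calc |Hd - Ma| * R ≤ 4 * D.natAbs * (q * d) / L * R := mul_le_mul_of_nonneg_right hH hR0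
      _ = 4 * D.natAbs * d / L * (R * q) := by ring
      _ ≤ 4 * D.natAbs * d / L * 1 := mul_le_mul_of_nonneg_left hRq (by positivity)
      _ = _ := mul_one _
  -- final numerics
  have hY3 : Y₁ ^ (-(1 / 3) : ℝ) = L ^ (-(2 / 3) : ℝ) := by
    rw [hL, Real.sqrt_eq_rpow, ← Real.rpow_mul hY0.le]
    norm_num
  have hlogL : 1 + Real.log (2 * L) ≤ 5 * L ^ (1 / 3 : ℝ) := by
    rw [Real.log_mul two_ne_zero hL0.ne']
    have h2 := Real.log_le_rpow_div hL0.le (by norm_num : (0 : ℝ) < 1 / 3)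
    have h3 := Real.log_two_lt_d9
    have h4 : (1 : ℝ) ≤ L ^ (1 / 3 : ℝ) := Real.one_le_rpow hL1 (by norm_num)
    have h5 : L ^ (1 / 3 : ℝ) / (1 / 3) = 3 * L ^ (1 / 3 : ℝ) := by ring
    rw [h5] at h2
    linarith
  have hLpow : L ^ (1 / 3 : ℝ) / L = L ^ (-(2 / 3) : ℝ) := by
    rw [div_eq_mul_inv, ← Real.rpow_neg_one L, ← Real.rpow_add hL0]
    norm_num
  have hLinv : 1 / L ≤ L ^ (-(2 / 3) : ℝ) := by
    rw [← hLpow]
    exact div_le_div_of_nonneg_right (Real.one_le_rpow hL1 (by norm_num)) hL0.le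
  set E : ℝ := L ^ (-(2 / 3) : ℝ) with hE
  have hE0 : 0 ≤ E := Real.rpow_nonneg hL0.le _
  rw [hY3]
  set SA := ∑ l ∈ Ioc 0 ⌊L⌋₊, ∑ k ∈ (Ioc 0 n₂).filter (fun k => l * k ∈ M), f l k with hSA
  set SB := ∑ l ∈ Ioc ⌊L⌋₊ n₂, ∑ k ∈ (Ioc 0 n₂).filter (fun k => l * k ∈ M), f l k with hSB
  have htot : SA + SB - Ma * R = (SA - Hd * R) + (Hd * R - Ma * R) + SB := by ring
  rw [htot]
  have h5 : |(SA - Hd * R) + (Hd * R - Ma * R) + SB| ≤
      2 * d / L + 4 * D.natAbs * d / L + 2 * D.natAbs * d / L * (1 + Real.log (2 * L)) :=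
    (abs_add_three _ _ _).trans (add_le_add (add_le_add hA hC) hB)
  refine h5.trans ?_
  have h6 : 2 * D.natAbs * d / L * (1 + Real.log (2 * L)) ≤ 10 * (D.natAbs * d * E) := by
    calc 2 * D.natAbs * d / L * (1 + Real.log (2 * L))
        ≤ 2 * D.natAbs * d / L * (5 * L ^ (1 / 3 : ℝ)) :=
          mul_le_mul_of_nonneg_left hlogL (by positivity)
      _ = 10 * (D.natAbs * d * (L ^ (1 / 3 : ℝ) / L)) := by ring
      _ = _ := by rw [hLpow]
  have h7 : 2 * (d : ℝ) / L ≤ 2 * (D.natAbs * d * E) := by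
    calc 2 * (d : ℝ) / L = 2 * (d * (1 / L)) := by ring
      _ ≤ 2 * (d * E) := by gcongr
      _ ≤ 2 * (D.natAbs * d * E) := by
          have : (d : ℝ) * E ≤ D.natAbs * (d * E) :=
            le_mul_of_one_le_left (by positivity) hDabs
          linarith
  have h8 : 4 * (D.natAbs : ℝ) * d / L ≤ 4 * (D.natAbs * d * E) := by
    calc 4 * (D.natAbs : ℝ) * d / L = 4 * (D.natAbs * d * (1 / L)) := by ring
      _ ≤ 4 * (D.natAbs * d * E) := by gcongr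
  have h9 : 16 * (D.natAbs : ℝ) * d * E = 16 * (D.natAbs * d * E) := by ring
  rw [h9]
  linarith

end Pool.Agent.Work.MP_43ce8a_nt.D
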