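import Pool.Agent.Work.MP_43ce8a_nt.D.ClassB
import Pool.Agent.Work.MP_43ce8a_nt.D.MertW

set_option autoImplicit false

/-!
Module WinB (size M). Exceptional primes in a window.

PROOF. m = 4b + 10. C from mertW, b ≥ b₀ with 1000 C m exp(-b) ≤ ε (m exp(-b) tends to 0); y, e, K, X₀
from class_bound; enlarge X₀ so that zf b X > y (zf_tendsto), zf_log holds. Let p be a prime in
(X², X² + X²/e], p ∉ S. p > X² ≥ X ≥ zf b X (zf_le) and p > y, so p is prime to q = qq y; with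
b1 = p % (q/2) (prime to q/2 = 8 Mo y, hence to q): p ∈ Nset q b1 (zf b X) (X²) (X²/e) (no prime below
z divides p). So the number of such p is at most the sum over b1 < q/2, b1 prime to q/2 (φ(q/2) classes)
of the class_bound: φ(q/2) * 20 exp(-b) * H/(q/2) * Wz = 20 exp(-b) H ∏_{p<z} (1 - 1/p) (qhalf, split_W)
≤ 20 exp(-b) H C/log z ≤ 20 exp(-b) H C * 50 m/log X ≤ ε H/log X, H = X²/e (natural division) ≤
(X : ℝ)²/e.
-/

namespace Pool.Agent.Work.MP_43ce8a_nt.D

open Finset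

private lemma WinB_choose (C ε : ℝ) (hε : 0 < ε) (b₀ : ℕ) :
    ∃ b : ℕ, b₀ ≤ b ∧ 1000 * C * (4 * (b : ℝ) + 10) * Real.exp (-(b : ℝ)) ≤ ε := by
  have h1 := Real.tendsto_pow_mul_exp_neg_atTop_nhds_zero 1
  have h0 := Real.tendsto_pow_mul_exp_neg_atTop_nhds_zero 0
  have h2 : Filter.Tendsto (fun x : ℝ => 4000 * C * (x ^ 1 * Real.exp (-x)) +
      10000 * C * (x ^ 0 * Real.exp (-x))) Filter.atTop
      (nhds (4000 * C * 0 + 10000 * C * 0)) := (h1.const_mul _).add (h0.const_mul _)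
  rw [mul_zero, mul_zero, add_zero] at h2
  have h3 := (h2.comp tendsto_natCast_atTop_atTop).eventually (ge_mem_nhds hε)
  obtain ⟨N, hN⟩ := Filter.eventually_atTop.1 h3
  refine ⟨max N b₀, le_max_right _ _, ?_⟩
  have h4 := hN (max N b₀) (le_max_left _ _)
  simp only [Function.comp_apply] at h4
  calc 1000 * C * (4 * ((max N b₀ : ℕ) : ℝ) + 10) * Real.exp (-((max N b₀ : ℕ) : ℝ))
      = 4000 * C * (((max N b₀ : ℕ) : ℝ) ^ 1 * Real.exp (-((max N b₀ : ℕ) : ℝ))) +
        10000 * C * (((max N b₀ : ℕ) : ℝ) ^ 0 * Real.exp (-((max N b₀ : ℕ) : ℝ))) := by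
        rw [pow_one, pow_zero]; ring
    _ ≤ ε := h4

private lemma WinB_cop {y p : ℕ} (hp : p.Prime) (hy : y < p) (h2 : 2 < p) :
    p.Coprime (qq y / 2) := by
  have h0 : qq y / 2 = 8 * Mo y := by
    unfold qq
    omega
  rw [h0, hp.coprime_iff_not_dvd]
  intro hd
  rcases (Nat.Prime.dvd_mul hp).1 hd with h | h
  · have h3 : p ∣ 2 ^ 3 := by simpa using h
    have h4 := (Nat.prime_dvd_prime_iff_eq hp Nat.prime_two).1 (hp.dvd_of_dvd_pow h3)
    omega
  · unfold Mo at h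
    obtain ⟨r, hr, hpr⟩ := (Prime.dvd_finsetProd_iff hp.prime _).1 h
    rw [mem_filter, mem_Icc] at hr
    have h4 := (Nat.prime_dvd_prime_iff_eq hp hr.2).1 hpr
    omega

open Classical in
theorem window_bound (ε : ℝ) (hε : 0 < ε) : ∃ e K X₀ : ℕ, 1 ≤ e ∧ 1 ≤ K ∧ ∀ X : ℕ, X₀ ≤ X →
    K ∣ X → (((Ioc (X ^ 2) (X ^ 2 + X ^ 2 / e)).filter fun p => p.Prime ∧ ¬ InS p).card : ℝ) ≤
      ε * ((X : ℝ) ^ 2 / e) / Real.log X := by
  obtain ⟨C, hC0, hC⟩ := mertW
  obtain ⟨b₀, hb₀⟩ := class_bound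
  obtain ⟨b, hb, hbε⟩ := WinB_choose C ε hε b₀
  obtain ⟨y, e, K, X₀, hy, he, hK, hcl⟩ := hb₀ b hb
  obtain ⟨X₁, hX₁⟩ := zf_log b
  obtain ⟨X₂, hX₂⟩ := Filter.eventually_atTop.1 ((zf_tendsto b).eventually
    (Filter.eventually_gt_atTop y))
  refine ⟨e, K, X₀ + X₁ + X₂ + 2, by omega, hK, ?_⟩
  intro X hX hKX
  have hz : y < zf b X := hX₂ X (by omega)
  have hzX : zf b X ≤ X := zf_le b X (by omega)
  have hlog := hX₁ X (by omega)
  set z := zf b X with hzdef
  set q := qq y with hq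
  set H := X ^ 2 / e with hH
  have hMo : 0 < Mo y := by
    unfold Mo
    apply prod_pos
    intro p hp
    exact (mem_filter.1 hp).2.pos
  have hq2 : q / 2 = 8 * Mo y := by
    rw [hq]; unfold qq; omega
  have hq2pos : 0 < q / 2 := by omega
  have hqR : (q : ℝ) = 2 * ((q / 2 : ℕ) : ℝ) := by
    have : q = 2 * (q / 2) := by
      rw [hq2, hq]; unfold qq; ring
    exact_mod_cast this
  -- the covering
  have hsub : ((Ioc (X ^ 2) (X ^ 2 + H)).filter fun p => p.Prime ∧ ¬ InS p) ⊆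
      ((range (q / 2)).filter fun a => (q / 2).Coprime a).biUnion fun b1 =>
        (Nset q b1 z (X ^ 2) H).filter fun n => ¬ InS n := by
    intro p hp
    rw [mem_filter] at hp
    obtain ⟨hpI, hpP, hpS⟩ := hp
    have hpI' := mem_Ioc.1 hpI
    have hXp : X < p := by nlinarith
    rw [mem_biUnion]
    refine ⟨p % (q / 2), ?_, ?_⟩
    · rw [mem_filter, mem_range]
      refine ⟨Nat.mod_lt _ hq2pos, ?_⟩
      have h3 : p.Coprime (q / 2) := WinB_cop hpP (by omega) (by omega)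
      rw [Nat.coprime_iff_gcd_eq_one, Nat.gcd_comm, ← Nat.gcd_rec, Nat.gcd_comm]
      exact h3
    · rw [mem_filter]
      refine ⟨?_, hpS⟩
      unfold Nset
      rw [mem_filter]
      refine ⟨hpI, by rw [Nat.mod_mod], ?_⟩
      intro l hl hlz hlp
      have := (Nat.prime_dvd_prime_iff_eq hl hpP).1 hlp
      omega
  have hbd : ∀ b1 ∈ ((range (q / 2)).filter fun a => (q / 2).Coprime a),
      ((((Nset q b1 z (X ^ 2) H).filter fun n => ¬ InS n).card : ℕ) : ℝ) ≤
        20 * Real.exp (-b) * (2 * (H : ℝ) / q * Wz y z) := by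
    intro b1 hb1
    rw [mem_filter] at hb1
    apply hcl X (by omega) hKX b1
    have h3 : b1.Coprime ((q / 2) ^ 2) := Nat.Coprime.pow_right 2 hb1.2.symm
    apply Nat.Coprime.coprime_dvd_right _ h3
    rw [hq2, hq]
    unfold qq
    exact ⟨4 * Mo y, by ring⟩
  have hcard : ((((range (q / 2)).filter fun a => (q / 2).Coprime a).card : ℕ) : ℝ) =
      ((q / 2).totient : ℝ) := by
    rw [Nat.totient_eq_card_coprime]
  have hWpos : 0 ≤ ∏ p ∈ (range z).filter Nat.Prime, (1 - 1 / (p : ℝ)) := by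
    apply prod_nonneg
    intro p hp
    have h3 : (1 : ℝ) ≤ p := by exact_mod_cast (mem_filter.1 hp).2.one_le
    have : 1 / (p : ℝ) ≤ 1 := by
      rw [div_le_one (by linarith)]; exact h3
    linarith
  have hXR : (1 : ℝ) < X := by exact_mod_cast (by omega : 1 < X)
  have hlX : 0 < Real.log X := Real.log_pos hXR
  have hm : (0 : ℝ) < 50 * (4 * (b : ℝ) + 10) := by positivity
  have hlz : 0 < Real.log X / (50 * (4 * (b : ℝ) + 10)) := by positivity
  have hE : (0 : ℝ) ≤ Real.exp (-(b : ℝ)) := (Real.exp_pos _).le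
  have hHR : (H : ℝ) ≤ (X : ℝ) ^ 2 / e := by
    have := @Nat.cast_div_le ℝ _ _ _ (X ^ 2) e
    push_cast at this
    exact this
  calc (((Ioc (X ^ 2) (X ^ 2 + H)).filter fun p => p.Prime ∧ ¬ InS p).card : ℝ)
      ≤ ((((range (q / 2)).filter fun a => (q / 2).Coprime a).biUnion fun b1 =>
        (Nset q b1 z (X ^ 2) H).filter fun n => ¬ InS n).card : ℝ) := by
        exact_mod_cast card_le_card hsub
    _ ≤ ((∑ b1 ∈ ((range (q / 2)).filter fun a => (q / 2).Coprime a),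
        ((Nset q b1 z (X ^ 2) H).filter fun n => ¬ InS n).card : ℕ) : ℝ) := by
        exact_mod_cast card_biUnion_le
    _ = ∑ b1 ∈ ((range (q / 2)).filter fun a => (q / 2).Coprime a),
        ((((Nset q b1 z (X ^ 2) H).filter fun n => ¬ InS n).card : ℕ) : ℝ) := by
        push_cast; rfl
    _ ≤ ∑ _b1 ∈ ((range (q / 2)).filter fun a => (q / 2).Coprime a),
        20 * Real.exp (-b) * (2 * (H : ℝ) / q * Wz y z) := sum_le_sum hbd
    _ = ((q / 2).totient : ℝ) * (20 * Real.exp (-b) * (2 * (H : ℝ) / q * Wz y z)) := by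
        rw [sum_const, nsmul_eq_mul, hcard]
    _ = 20 * Real.exp (-b) * H * ((((q / 2).totient : ℝ) / ((q / 2 : ℕ) : ℝ)) * Wz y z) := by
        rw [hqR]
        have h3 : ((q / 2 : ℕ) : ℝ) ≠ 0 := by exact_mod_cast hq2pos.ne'
        field_simp
    _ = 20 * Real.exp (-b) * H * ∏ p ∈ (range z).filter Nat.Prime, (1 - 1 / (p : ℝ)) := by
        rw [hq, qhalf y (by omega), split_W hz]
    _ ≤ 20 * Real.exp (-b) * H * (C / Real.log z) := by
        apply mul_le_mul_of_nonneg_left (hC z (by omega)) (by positivity)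
    _ ≤ 20 * Real.exp (-b) * H * (C / (Real.log X / (50 * (4 * (b : ℝ) + 10)))) := by
        apply mul_le_mul_of_nonneg_left _ (by positivity)
        exact div_le_div_of_nonneg_left hC0.le hlz hlog
    _ = (1000 * C * (4 * (b : ℝ) + 10) * Real.exp (-(b : ℝ))) * H / Real.log X := by
        field_simp
        ring
    _ ≤ ε * ((X : ℝ) ^ 2 / e) / Real.log X := by
        apply div_le_div_of_nonneg_right _ hlX.le
        exact mul_le_mul hbε hHR (by positivity) hε.le

end Pool.Agent.Work.MP_43ce8a_nt.D
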