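import Pool.Agent.Work.MP_43ce8a_nt.D.Defs

set_option autoImplicit false

/-!
Module Zf (size M). Elementary asymptotics for the sifting level z = zf b X = ⌊X^(1/(40 (4b+10)))⌋.
Write m = 4 b + 10.

zf_pow: z ≤ X^(1/(40 m)), 1 + z ≤ 2 z for z ≥ 1, so (1+z) z^(3m) z ≤ 2 z^(3m+2) ≤ 2 X^((3m+2)/(40m)) and
(3m+2)/(40m) ≤ 1/10.
zf_log: z ≥ X^(1/(40m)) - 1 ≥ X^(1/(50m)) for large X.
zf_om: the prime factors of n (with multiplicity Ω = n.primeFactorsList.length) are ≥ z ≥ X^(1/(50m)), so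
X^(Ω/(50m)) ≤ n ≤ 2 X² ≤ X^(21/10) for large X, Ω ≤ 105 m ≤ 120 m.
Wz_ge: ∏_{y<p<z} (1 - 1/p) ≥ ∏_{2 ≤ n < z} (1 - 1/n) = 1/(z - 1) ≥ 1/z.
-/

namespace Pool.Agent.Work.MP_43ce8a_nt.D

open Finset Filter

/-- the sifting level -/
noncomputable def zf (b X : ℕ) : ℕ := ⌊(X : ℝ) ^ (1 / (40 * (4 * (b : ℝ) + 10)))⌋₊

private theorem zfa_pos (b : ℕ) : (0 : ℝ) < 1 / (40 * (4 * (b : ℝ) + 10)) := by positivity

theorem zf_tendsto (b : ℕ) : Tendsto (zf b) atTop atTop := by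
  have h1 : Tendsto (fun X : ℕ => (X : ℝ) ^ (1 / (40 * (4 * (b : ℝ) + 10)))) atTop atTop :=
    (tendsto_rpow_atTop (zfa_pos b)).comp tendsto_natCast_atTop_atTop
  exact tendsto_nat_floor_atTop.comp h1

theorem zf_le (b X : ℕ) (hX : 1 ≤ X) : zf b X ≤ X := by
  refine Nat.floor_le_of_le ?_
  have h1 : (1 : ℝ) ≤ X := by exact_mod_cast hX
  calc (X : ℝ) ^ (1 / (40 * (4 * (b : ℝ) + 10))) ≤ (X : ℝ) ^ (1 : ℝ) := by
        refine Real.rpow_le_rpow_of_exponent_le h1 ?_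
        rw [div_le_one (by positivity)]
        have : (0 : ℝ) ≤ b := by positivity
        linarith
    _ = X := Real.rpow_one _

private theorem zfa_le (b X : ℕ) : (zf b X : ℝ) ≤ (X : ℝ) ^ (1 / (40 * (4 * (b : ℝ) + 10))) :=
  Nat.floor_le (by positivity)

private theorem zfa_one (b X : ℕ) (hX : 1 ≤ X) : 1 ≤ zf b X := by
  refine Nat.le_floor ?_
  have h1 : (1 : ℝ) ≤ X := by exact_mod_cast hX
  push_cast
  exact Real.one_le_rpow h1 (zfa_pos b).le

theorem zf_pow (b : ℕ) : ∃ X₀ : ℕ, ∀ X : ℕ, X₀ ≤ X →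
    (1 + (zf b X : ℝ)) * (zf b X : ℝ) ^ (3 * (4 * b + 10)) * (zf b X : ℝ) ≤
      2 * (X : ℝ) ^ (1 / 10 : ℝ) := by
  refine ⟨1, fun X hX => ?_⟩
  have h1 : (1 : ℝ) ≤ X := by exact_mod_cast hX
  have hz : (1 : ℝ) ≤ zf b X := by exact_mod_cast zfa_one b X hX
  have hz2 := zfa_le b X
  calc (1 + (zf b X : ℝ)) * (zf b X : ℝ) ^ (3 * (4 * b + 10)) * (zf b X : ℝ)
      ≤ (2 * (zf b X : ℝ)) * (zf b X : ℝ) ^ (3 * (4 * b + 10)) * (zf b X : ℝ) := by
        gcongr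
        linarith
    _ = 2 * (zf b X : ℝ) ^ (3 * (4 * b + 10) + 2) := by ring
    _ ≤ 2 * ((X : ℝ) ^ (1 / (40 * (4 * (b : ℝ) + 10)))) ^ (3 * (4 * b + 10) + 2) := by gcongr
    _ = 2 * (X : ℝ) ^ ((1 / (40 * (4 * (b : ℝ) + 10))) * ((3 * (4 * b + 10) + 2 : ℕ) : ℝ)) := by
        rw [Real.rpow_mul (by positivity), Real.rpow_natCast]
    _ ≤ 2 * (X : ℝ) ^ (1 / 10 : ℝ) := by
        refine mul_le_mul_of_nonneg_left ?_ (by norm_num)
        refine Real.rpow_le_rpow_of_exponent_le h1 ?_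
        push_cast
        rw [one_div_mul_eq_div, div_le_div_iff₀ (by positivity) (by norm_num)]
        have : (0 : ℝ) ≤ b := by positivity
        nlinarith

theorem zf_log (b : ℕ) : ∃ X₀ : ℕ, ∀ X : ℕ, X₀ ≤ X →
    Real.log X / (50 * (4 * (b : ℝ) + 10)) ≤ Real.log (zf b X) := by
  have h1 : Tendsto (fun X : ℕ => (X : ℝ) ^ (1 / (200 * (4 * (b : ℝ) + 10)))) atTop atTop :=
    (tendsto_rpow_atTop (by positivity)).comp tendsto_natCast_atTop_atTop
  obtain ⟨X₀, hX₀⟩ := Filter.eventually_atTop.1 (h1.eventually_ge_atTop 2)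
  refine ⟨max X₀ 1, fun X hX => ?_⟩
  have hX1 : 1 ≤ X := (le_max_right _ _).trans hX
  have h2 := hX₀ X ((le_max_left _ _).trans hX)
  have hX2 : (1 : ℝ) ≤ X := by exact_mod_cast hX1
  have hXp : (0 : ℝ) < X := by linarith
  have h3 : (1 : ℝ) ≤ (X : ℝ) ^ (1 / (50 * (4 * (b : ℝ) + 10))) :=
    Real.one_le_rpow hX2 (by positivity)
  have h4 : (X : ℝ) ^ (1 / (40 * (4 * (b : ℝ) + 10))) =
      (X : ℝ) ^ (1 / (50 * (4 * (b : ℝ) + 10))) * (X : ℝ) ^ (1 / (200 * (4 * (b : ℝ) + 10))) := by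
    rw [← Real.rpow_add hXp]
    congr 1
    have : (4 * (b : ℝ) + 10) ≠ 0 := by positivity
    field_simp
    norm_num
  have h5 : (X : ℝ) ^ (1 / (50 * (4 * (b : ℝ) + 10))) ≤ zf b X := by
    have h6 := (Nat.lt_floor_add_one ((X : ℝ) ^ (1 / (40 * (4 * (b : ℝ) + 10))))).le
    have h7 : (zf b X : ℝ) = (⌊(X : ℝ) ^ (1 / (40 * (4 * (b : ℝ) + 10)))⌋₊ : ℝ) := rfl
    rw [h7]
    nlinarith
  calc Real.log X / (50 * (4 * (b : ℝ) + 10)) =
        Real.log ((X : ℝ) ^ (1 / (50 * (4 * (b : ℝ) + 10)))) := by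
        rw [Real.log_rpow hXp]
        ring
    _ ≤ Real.log (zf b X) := Real.log_le_log (by positivity) h5

theorem zf_om (b : ℕ) : ∃ X₀ : ℕ, ∀ X : ℕ, X₀ ≤ X → ∀ n : ℕ, 0 < n → n ≤ 2 * X ^ 2 →
    (∀ p : ℕ, p.Prime → p ∣ n → zf b X ≤ p) → n.primeFactorsList.length ≤ 120 * (4 * b + 10) := by
  obtain ⟨X₀, hX₀⟩ := zf_log b
  refine ⟨max X₀ (2 ^ 10), fun X hX n hn hnX hp => ?_⟩
  have hl := hX₀ X ((le_max_left _ _).trans hX)
  have hX1 : 2 ^ 10 ≤ X := (le_max_right _ _).trans hX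
  have hX2 : (2 : ℝ) ^ 10 ≤ X := by exact_mod_cast hX1
  have hXp : (0 : ℝ) < X := lt_of_lt_of_le (by norm_num) hX2
  have hz1 : 1 ≤ zf b X := zfa_one b X (le_trans (by norm_num) hX1)
  have hzp : (0 : ℝ) < zf b X := by exact_mod_cast hz1
  have h1 : (zf b X) ^ n.primeFactorsList.length ≤ n := by
    calc (zf b X) ^ n.primeFactorsList.length ≤ n.primeFactorsList.prod :=
          List.pow_card_le_prod _ _ fun p hpm =>
            hp p (Nat.prime_of_mem_primeFactorsList hpm) (Nat.dvd_of_mem_primeFactorsList hpm)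
      _ = n := Nat.prod_primeFactorsList hn.ne'
  have h2 : (n.primeFactorsList.length : ℝ) * Real.log (zf b X) ≤ Real.log n := by
    rw [← Real.log_pow]
    exact Real.log_le_log (by positivity) (by exact_mod_cast h1)
  have h3 : Real.log n ≤ Real.log 2 + 2 * Real.log X := by
    have h4 : (n : ℝ) ≤ 2 * (X : ℝ) ^ 2 := by exact_mod_cast hnX
    calc Real.log n ≤ Real.log (2 * (X : ℝ) ^ 2) :=
          Real.log_le_log (by exact_mod_cast hn) h4
      _ = Real.log 2 + 2 * Real.log X := by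
          rw [Real.log_mul (by norm_num) (by positivity), Real.log_pow]
          norm_num
  have h4 : 10 * Real.log 2 ≤ Real.log X := by
    have := Real.log_le_log (by norm_num) hX2
    rw [Real.log_pow] at this
    exact_mod_cast this
  have hlogX : 0 < Real.log X := by
    have := Real.log_pos (by norm_num : (1 : ℝ) < 2)
    linarith
  have hmp : (0 : ℝ) < 50 * (4 * (b : ℝ) + 10) := by positivity
  have h5 : (n.primeFactorsList.length : ℝ) * (Real.log X / (50 * (4 * (b : ℝ) + 10))) ≤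
      (21 / 10) * Real.log X := by
    calc (n.primeFactorsList.length : ℝ) * (Real.log X / (50 * (4 * (b : ℝ) + 10)))
        ≤ (n.primeFactorsList.length : ℝ) * Real.log (zf b X) :=
          mul_le_mul_of_nonneg_left hl (by positivity)
      _ ≤ (21 / 10) * Real.log X := by linarith
  have h6 : (n.primeFactorsList.length : ℝ) ≤ (21 / 10) * (50 * (4 * (b : ℝ) + 10)) := by
    rw [mul_div_assoc', div_le_iff₀ hmp] at h5
    have h7 : (n.primeFactorsList.length : ℝ) * Real.log X ≤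
        ((21 / 10) * (50 * (4 * (b : ℝ) + 10))) * Real.log X := by linarith
    exact le_of_mul_le_mul_right h7 hlogX
  have h8 : (n.primeFactorsList.length : ℝ) ≤ ((120 * (4 * b + 10) : ℕ) : ℝ) := by
    push_cast
    have : (0 : ℝ) ≤ b := by positivity
    linarith
  exact_mod_cast h8

theorem Wz_ge {y z : ℕ} (hy : 2 ≤ y) (hz : y < z) : 1 / (z : ℝ) ≤ Wz y z := by
  have hfac : ∀ n : ℕ, 2 ≤ n → 0 ≤ 1 - 1 / (n : ℝ) ∧ 1 - 1 / (n : ℝ) ≤ 1 := by
    intro n hn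
    have h1 : (2 : ℝ) ≤ n := by exact_mod_cast hn
    have h2 : 1 / (n : ℝ) ≤ 1 := by
      rw [div_le_one (by linarith)]
      linarith
    have h3 : 0 ≤ 1 / (n : ℝ) := by positivity
    constructor <;> linarith
  have hprod : ∀ m : ℕ, ∏ n ∈ Ico 2 (m + 2), (1 - 1 / (n : ℝ)) = 1 / ((m : ℝ) + 1) := by
    intro m
    induction m with
    | zero => simp
    | succ m ih =>
      rw [show m + 1 + 2 = (m + 2) + 1 by ring, Finset.prod_Ico_succ_top (by omega), ih]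
      push_cast
      have h1 : (m : ℝ) + 1 ≠ 0 := by positivity
      have h2 : (m : ℝ) + 2 ≠ 0 := by positivity
      have h3 : (m : ℝ) + 1 + 1 ≠ 0 := by positivity
      field_simp
      ring
  have hsub : pr y z ⊆ Ico 2 z := by
    intro p hp
    have h1 := mem_Ioo.1 (mem_filter.1 hp).1
    rw [mem_Ico]
    omega
  obtain ⟨m, rfl⟩ : ∃ m, z = m + 2 := ⟨z - 2, by omega⟩
  calc 1 / (((m + 2 : ℕ)) : ℝ) ≤ 1 / ((m : ℝ) + 1) := by
        push_cast
        refine one_div_le_one_div_of_le (by positivity) (by linarith)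
    _ = ∏ n ∈ Ico 2 (m + 2), (1 - 1 / (n : ℝ)) := (hprod m).symm
    _ = (∏ n ∈ Ico 2 (m + 2) \ pr y (m + 2), (1 - 1 / (n : ℝ))) *
          ∏ n ∈ pr y (m + 2), (1 - 1 / (n : ℝ)) := (Finset.prod_sdiff hsub).symm
    _ ≤ 1 * ∏ n ∈ pr y (m + 2), (1 - 1 / (n : ℝ)) := by
        refine mul_le_mul_of_nonneg_right ?_ ?_
        · exact Finset.prod_le_one
            (fun n hn => (hfac n (mem_Ico.1 (mem_sdiff.1 hn).1).1).1)
            (fun n hn => (hfac n (mem_Ico.1 (mem_sdiff.1 hn).1).1).2)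
        · exact Finset.prod_nonneg fun n hn => (hfac n (mem_Ico.1 (hsub hn)).1).1
    _ = Wz y (m + 2) := by rw [one_mul, Wz]

end Pool.Agent.Work.MP_43ce8a_nt.D
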